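import Mathlib

/-! helper lemmas: derivatives in lambda form -/

set_option autoImplicit false

open Filter Topology
open scoped ContDiff

namespace Pool.Agent.J6H20.RL

section
variable {f g : ℝ → ℝ} {x f' g' : ℝ}

theorem hd_comp {f g : ℝ → ℝ} {x f' g' : ℝ} (hf : HasDerivAt f f' (g x)) (hg : HasDerivAt g g' x) :
    HasDerivAt (fun y => f (g y)) (f' * g') x := hf.comp x hg

theorem hd_mul (hf : HasDerivAt f f' x) (hg : HasDerivAt g g' x) :
    HasDerivAt (fun y => f y * g y) (f' * g x + f x * g') x := hf.mul hg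

theorem hd_add (hf : HasDerivAt f f' x) (hg : HasDerivAt g g' x) :
    HasDerivAt (fun y => f y + g y) (f' + g') x := hf.add hg

theorem hd_sub (hf : HasDerivAt f f' x) (hg : HasDerivAt g g' x) :
    HasDerivAt (fun y => f y - g y) (f' - g') x := hf.sub hg

theorem hd_inv (hf : HasDerivAt f f' x) (h0 : f x ≠ 0) :
    HasDerivAt (fun y => (f y)⁻¹) (-f' / f x ^ 2) x := hf.inv h0

theorem hd_cmul (c : ℝ) (hf : HasDerivAt f f' x) :
    HasDerivAt (fun y => c * f y) (c * f') x := hf.const_mul c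

theorem hd_neg (hf : HasDerivAt f f' x) : HasDerivAt (fun y => - f y) (-f') x := hf.neg

theorem hd_lin (c : ℝ) (x : ℝ) : HasDerivAt (fun y : ℝ => c * y) c x := by
  simpa using (hasDerivAt_id x).const_mul c

theorem hd_sq (x : ℝ) : HasDerivAt (fun y : ℝ => y ^ 2) (2 * x) x := by
  simpa using hasDerivAt_pow 2 x

theorem hd_subc (c : ℝ) (x : ℝ) : HasDerivAt (fun y : ℝ => y - c) 1 x := (hasDerivAt_id x).sub_const c
end

end Pool.Agent.J6H20.RL
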