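import Mathlib
import Pool.Agent.J6H20.RL.HD

/-!
# The Bessel function of order zero

`bJ k` is the `k`-th derivative of the entire function `J(m) = sum_j (-m/4)^j / (j!)^2`, `J_0(x) = J(x^2)`, and
`Wf x = sqrt x J_0(x)`.
-/

set_option autoImplicit false

open Filter Topology
open scoped ContDiff Nat

namespace Pool.Agent.J6H20.RL

noncomputable def bc (k j : ℕ) : ℝ := (-1 / 4) ^ (j + k) / (((j + k)! : ℝ) * (j ! : ℝ))

noncomputable def bJ (k : ℕ) (m : ℝ) : ℝ := ∑' j, bc k j * m ^ j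

theorem bc_abs (k j : ℕ) : |bc k j| ≤ 1 / (j ! : ℝ) := by
  rw [bc, abs_div, abs_pow]
  have h1 : |(-1 / 4 : ℝ)| = 1 / 4 := by rw [abs_of_neg] <;> norm_num
  rw [h1]
  have h2 : (0 : ℝ) < (j ! : ℝ) := by positivity
  have h3 : (1 : ℝ) ≤ ((j + k)! : ℝ) := by exact_mod_cast Nat.one_le_iff_ne_zero.2 (Nat.factorial_ne_zero _)
  rw [abs_of_pos (by positivity)]
  rw [div_le_div_iff₀ (by positivity) h2]
  have h4 : (1 / 4 : ℝ) ^ (j + k) ≤ 1 := pow_le_one₀ (by norm_num) (by norm_num)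
  nlinarith

theorem bJ_summable (k : ℕ) (m : ℝ) : Summable fun j => bc k j * m ^ j := by
  refine Summable.of_norm_bounded (Real.summable_pow_div_factorial |m|) fun j => ?_
  rw [Real.norm_eq_abs, abs_mul, abs_pow]
  calc |bc k j| * |m| ^ j ≤ 1 / (j ! : ℝ) * |m| ^ j := mul_le_mul_of_nonneg_right (bc_abs k j) (by positivity)
    _ = |m| ^ j / (j ! : ℝ) := by ring

theorem bc_succ (k j : ℕ) : bc k (j + 1) * (j + 1) = bc (k + 1) j := by
  rw [bc, bc]
  have h1 : j + 1 + k = j + (k + 1) := by ring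
  rw [h1, Nat.factorial_succ j]
  push_cast
  have : ((j : ℝ) + 1) ≠ 0 := by positivity
  field_simp

theorem bJ_hasDerivAt (k : ℕ) (m : ℝ) : HasDerivAt (bJ k) (bJ (k + 1) m) m := by
  set R : ℝ := |m| + 1 with hR
  have hR0 : 0 < R := by positivity
  have hsum : Summable fun j : ℕ => (j : ℝ) * R ^ (j - 1) / (j ! : ℝ) := by
    rw [← summable_nat_add_iff 1]
    refine (Real.summable_pow_div_factorial R).congr fun j => ?_
    rw [Nat.factorial_succ, Nat.add_sub_cancel]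
    push_cast
    have : ((j : ℝ) + 1) ≠ 0 := by positivity
    field_simp
  have key := hasDerivAt_tsum_of_isPreconnected (g := fun j y => bc k j * y ^ j)
    (g' := fun j y => bc k j * (j * y ^ (j - 1))) (t := Metric.ball (0 : ℝ) R) hsum Metric.isOpen_ball
    (convex_ball (0 : ℝ) R).isPreconnected
    (fun j y _ => (hasDerivAt_pow j y).const_mul (bc k j)) (fun j y hy => ?_) (y₀ := 0) (by simpa using hR0)
    (bJ_summable k 0) (y := m) (by simp [hR])
  · have h2 : (∑' j : ℕ, bc k j * (j * m ^ (j - 1))) = bJ (k + 1) m := by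
      have hs : Summable fun j : ℕ => bc k j * ((j : ℝ) * m ^ (j - 1)) := by
        rw [← summable_nat_add_iff 1]
        refine (bJ_summable (k + 1) m).congr fun j => ?_
        rw [← bc_succ, Nat.add_sub_cancel]
        push_cast; ring
      rw [hs.tsum_eq_zero_add]
      simp only [Nat.cast_zero, zero_mul, mul_zero, zero_add]
      rw [bJ]
      refine tsum_congr fun j => ?_
      rw [← bc_succ, Nat.add_sub_cancel]
      push_cast; ring
    rw [h2] at key
    exact key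
  · rw [Real.norm_eq_abs, abs_mul, abs_mul, abs_pow, Nat.abs_cast]
    have h1 : |y| ≤ R := by
      have := Metric.mem_ball.1 hy
      rw [Real.dist_eq, sub_zero] at this
      exact this.le
    calc |bc k j| * ((j : ℝ) * |y| ^ (j - 1)) ≤ 1 / (j ! : ℝ) * ((j : ℝ) * R ^ (j - 1)) := by
          refine mul_le_mul (bc_abs k j) ?_ (by positivity) (by positivity)
          exact mul_le_mul_of_nonneg_left (pow_le_pow_left₀ (abs_nonneg _) h1 _) (by positivity)
      _ = (j : ℝ) * R ^ (j - 1) / (j ! : ℝ) := by ring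

theorem bJ_contDiff (n : ℕ) : ∀ k, ContDiff ℝ n (bJ k) := by
  induction n with
  | zero =>
    intro k
    rw [Nat.cast_zero, contDiff_zero]
    exact continuous_iff_continuousAt.2 fun x => (bJ_hasDerivAt k x).continuousAt
  | succ n ih =>
    intro k
    have h1 : deriv (bJ k) = bJ (k + 1) := funext fun x => (bJ_hasDerivAt k x).deriv
    have h2 : ContDiff ℝ (n + 1) (bJ k) := by
      rw [contDiff_succ_iff_deriv]
      refine ⟨fun x => (bJ_hasDerivAt k x).differentiableAt, ?_, by rw [h1]; exact ih (k + 1)⟩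
      intro h; simp at h
    exact_mod_cast h2

theorem bJ_smooth (k : ℕ) : ContDiff ℝ ∞ (bJ k) := contDiff_infty.2 fun n => bJ_contDiff n k

theorem bJ_ode (m : ℝ) : m * bJ 2 m + bJ 1 m + bJ 0 m / 4 = 0 := by
  have h1 := (bJ_summable 1 m)
  have h0 := (bJ_summable 0 m)
  have h2 := (bJ_summable 2 m)
  have e2 : m * bJ 2 m = ∑' j : ℕ, bc 2 j * m ^ (j + 1) := by
    rw [bJ, ← tsum_mul_left]
    exact tsum_congr fun j => by ring
  have s2 : Summable fun j : ℕ => bc 2 j * m ^ (j + 1) := (h2.mul_left m).congr fun j => by ring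
  rw [e2, bJ, bJ, h1.tsum_eq_zero_add, h0.tsum_eq_zero_add]
  have s1 : Summable fun j : ℕ => bc 1 (j + 1) * m ^ (j + 1) := (summable_nat_add_iff 1).2 h1
  have s0 : Summable fun j : ℕ => bc 0 (j + 1) * m ^ (j + 1) := (summable_nat_add_iff 1).2 h0
  have hz : bc 1 0 * m ^ 0 + (bc 0 0 * m ^ 0) / 4 = 0 := by
    simp [bc]; norm_num
  have hc : ∀ j : ℕ, bc 2 j + bc 1 (j + 1) + bc 0 (j + 1) / 4 = 0 := by
    intro j
    simp only [bc]
    have a1 : j + 1 + 1 = j + 2 := rfl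
    have a2 : j + 1 + 0 = j + 1 := rfl
    rw [a1, a2, Nat.factorial_succ (j + 1), Nat.factorial_succ j, pow_succ (-1 / 4 : ℝ) (j + 1)]
    push_cast
    have h3 : ((j : ℝ) + 1) ≠ 0 := by positivity
    have h4 : ((j : ℝ) + 1 + 1) ≠ 0 := by positivity
    have h5 : (j ! : ℝ) ≠ 0 := by positivity
    field_simp
    ring
  have hfin : (∑' j : ℕ, bc 2 j * m ^ (j + 1)) + (∑' j : ℕ, bc 1 (j + 1) * m ^ (j + 1)) +
      (∑' j : ℕ, bc 0 (j + 1) * m ^ (j + 1)) / 4 = 0 := by
    rw [← tsum_div_const, ← s2.tsum_add s1, ← (s2.add s1).tsum_add (s0.div_const 4)]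
    have : ∀ j : ℕ, bc 2 j * m ^ (j + 1) + bc 1 (j + 1) * m ^ (j + 1) + bc 0 (j + 1) * m ^ (j + 1) / 4 = 0 := by
      intro j
      have := hc j
      calc _ = (bc 2 j + bc 1 (j + 1) + bc 0 (j + 1) / 4) * m ^ (j + 1) := by ring
        _ = 0 := by rw [this, zero_mul]
    simp [this]
  linarith

theorem bJ_near_one {m : ℝ} (h0 : 0 ≤ m) (h1 : m ≤ 13 / 10) : |bJ 0 m - 1| ≤ 1 / 2 := by
  have hs := bJ_summable 0 m
  have e1 : bJ 0 m - 1 = ∑' j : ℕ, bc 0 (j + 1) * m ^ (j + 1) := by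
    rw [bJ, hs.tsum_eq_zero_add]
    simp [bc]
  have hg : HasSum (fun j : ℕ => (m / 4) * (m / 4) ^ j) (m / 4 * (1 - m / 4)⁻¹) :=
    (hasSum_geometric_of_lt_one (by positivity) (by linarith)).mul_left _
  rw [e1]
  have hb : ∀ j : ℕ, ‖bc 0 (j + 1) * m ^ (j + 1)‖ ≤ (m / 4) * (m / 4) ^ j := by
    intro j
    rw [Real.norm_eq_abs, abs_mul, abs_of_nonneg (pow_nonneg h0 _)]
    have h2 : |bc 0 (j + 1)| ≤ (1 / 4) ^ (j + 1) := by
      rw [bc, abs_div, abs_pow]
      have h1 : |(-1 / 4 : ℝ)| = 1 / 4 := by rw [abs_of_neg] <;> norm_num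
      rw [h1]
      have h3 : (1 : ℝ) ≤ ((j + 1 + 0)! : ℝ) := by exact_mod_cast Nat.one_le_iff_ne_zero.2 (Nat.factorial_ne_zero _)
      have h4 : (1 : ℝ) ≤ ((j + 1)! : ℝ) := by exact_mod_cast Nat.one_le_iff_ne_zero.2 (Nat.factorial_ne_zero _)
      rw [abs_of_pos (by positivity)]
      exact div_le_self (by positivity) (by nlinarith)
    calc |bc 0 (j + 1)| * m ^ (j + 1) ≤ (1 / 4) ^ (j + 1) * m ^ (j + 1) :=
          mul_le_mul_of_nonneg_right h2 (by positivity)
      _ = (m / 4) * (m / 4) ^ j := by rw [← mul_pow]; ring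
  have := tsum_of_norm_bounded hg hb
  rw [Real.norm_eq_abs] at this
  refine this.trans ?_
  have h3 : 0 < 1 - m / 4 := by linarith
  rw [← div_eq_mul_inv, div_le_div_iff₀ h3 (by norm_num)]
  linarith

/-- `sqrt x J_0(x)` -/
noncomputable def Wf (x : ℝ) : ℝ := Real.sqrt x * bJ 0 (x ^ 2)

noncomputable def Wf1 (x : ℝ) : ℝ := 1 / (2 * Real.sqrt x) * bJ 0 (x ^ 2) + Real.sqrt x * (bJ 1 (x ^ 2) * (2 * x))

theorem Wf_deriv {x : ℝ} (hx : 0 < x) : HasDerivAt Wf (Wf1 x) x := by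
  have h1 : HasDerivAt (fun y => bJ 0 (y ^ 2)) (bJ 1 (x ^ 2) * (2 * x)) x :=
    hd_comp (bJ_hasDerivAt 0 (x ^ 2)) (hd_sq x)
  exact (Real.hasDerivAt_sqrt hx.ne').mul h1

theorem Wf1_deriv {x : ℝ} (hx : 0 < x) : HasDerivAt Wf1 (-(1 + 1 / (4 * x ^ 2)) * Wf x) x := by
  have hs := Real.hasDerivAt_sqrt hx.ne'
  have hsx : 0 < Real.sqrt x := Real.sqrt_pos.2 hx
  have h0 : HasDerivAt (fun y => bJ 0 (y ^ 2)) (bJ 1 (x ^ 2) * (2 * x)) x :=
    hd_comp (bJ_hasDerivAt 0 (x ^ 2)) (hd_sq x)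
  have h1 : HasDerivAt (fun y => bJ 1 (y ^ 2)) (bJ 2 (x ^ 2) * (2 * x)) x :=
    hd_comp (bJ_hasDerivAt 1 (x ^ 2)) (hd_sq x)
  have h2 : HasDerivAt (fun y => 1 / (2 * Real.sqrt y)) (-(2 * (1 / (2 * Real.sqrt x))) / (2 * Real.sqrt x) ^ 2) x := by
    have := hd_inv (hd_cmul 2 hs) (by positivity)
    simp only [one_div] at this ⊢
    exact this
  have h3 : HasDerivAt (fun y : ℝ => 2 * y) 2 x := hd_lin 2 x
  have := hd_add (hd_mul h2 h0) (hd_mul hs (hd_mul h1 h3))
  refine this.congr_deriv ?_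
  rw [Wf]
  have hode := bJ_ode (x ^ 2)
  have hj : bJ 2 (x ^ 2) = (- bJ 1 (x ^ 2) - bJ 0 (x ^ 2) / 4) / x ^ 2 := by
    field_simp; linarith
  rw [hj]
  have hx2 : x = Real.sqrt x * Real.sqrt x := (Real.mul_self_sqrt hx.le).symm
  set q := Real.sqrt x with hq
  rw [hx2]
  generalize bJ 1 ((q * q) ^ 2) = u
  generalize bJ 0 ((q * q) ^ 2) = v
  field_simp
  ring

/-- no degenerate zeros -/
theorem Wf_nondeg {x : ℝ} (hx : 1 / 2 ≤ x) : Wf x ≠ 0 ∨ Wf1 x ≠ 0 := by
  by_contra hcon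
  push Not at hcon
  obtain ⟨h1, h2⟩ := hcon
  have hx0 : 0 < x := by linarith
  -- the energy
  set E : ℝ → ℝ := fun y => y ^ 2 * ((bJ 0 (y ^ 2)) ^ 2 + (bJ 1 (y ^ 2) * (2 * y)) ^ 2) with hE
  have hder : ∀ y : ℝ, 0 < y → HasDerivAt E (2 * y * (bJ 0 (y ^ 2)) ^ 2) y := by
    intro y hy
    have h0 : HasDerivAt (fun y => bJ 0 (y ^ 2)) (bJ 1 (y ^ 2) * (2 * y)) y :=
      hd_comp (bJ_hasDerivAt 0 (y ^ 2)) (hd_sq y)
    have h1 : HasDerivAt (fun y => bJ 1 (y ^ 2)) (bJ 2 (y ^ 2) * (2 * y)) y :=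
      hd_comp (bJ_hasDerivAt 1 (y ^ 2)) (hd_sq y)
    have h3 : HasDerivAt (fun y : ℝ => 2 * y) 2 y := hd_lin 2 y
    have h4 := hd_mul (hd_sq y) (hd_add (hd_comp (hd_sq _) h0) (hd_comp (hd_sq _) (hd_mul h1 h3)))
    refine h4.congr_deriv ?_
    have hode := bJ_ode (y ^ 2)
    have hj : bJ 2 (y ^ 2) = (- bJ 1 (y ^ 2) - bJ 0 (y ^ 2) / 4) / y ^ 2 := by
      field_simp; linarith
    rw [hj]
    generalize bJ 1 (y ^ 2) = u
    generalize bJ 0 (y ^ 2) = v
    field_simp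
    ring
  have hmono : MonotoneOn E (Set.Icc (1 / 2) x) := by
    refine monotoneOn_of_deriv_nonneg (convex_Icc _ _) ?_ ?_ ?_
    · intro y hy
      exact (hder y (by linarith [hy.1])).continuousAt.continuousWithinAt
    · intro y hy
      rw [interior_Icc] at hy
      exact (hder y (by linarith [hy.1])).differentiableAt.differentiableWithinAt
    · intro y hy
      rw [interior_Icc] at hy
      rw [(hder y (by linarith [hy.1])).deriv]
      have : 0 < y := by linarith [hy.1]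
      positivity
  have h5 := hmono (Set.left_mem_Icc.2 hx) (Set.right_mem_Icc.2 hx) hx
  have h6 : bJ 0 (x ^ 2) = 0 := by
    rw [Wf] at h1
    rcases mul_eq_zero.1 h1 with h | h
    · exact absurd h (Real.sqrt_pos.2 hx0).ne'
    · exact h
  have h7 : bJ 1 (x ^ 2) * (2 * x) = 0 := by
    rw [Wf1, h6, mul_zero, zero_add] at h2
    rcases mul_eq_zero.1 h2 with h | h
    · exact absurd h (Real.sqrt_pos.2 hx0).ne'
    · exact h
  have h8 : E x = 0 := by simp only [hE]; rw [h6, h7]; ring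
  have h9 : 0 < E (1 / 2) := by
    have := bJ_near_one (m := (1 / 2) ^ 2) (by norm_num) (by norm_num)
    have h10 : 1 / 2 ≤ bJ 0 ((1 / 2) ^ 2) := by rw [abs_le] at this; linarith [this.1]
    simp only [hE]
    positivity
  linarith

/-- Sturm: no constant strict sign on an interval of length pi -/
theorem Wf_sturm {B σ : ℝ} (hB : 0 < B) (hσ : σ = 1 ∨ σ = -1) : ∃ x ∈ Set.Icc B (B + Real.pi), σ * Wf x ≤ 0 := by
  by_contra hcon
  push Not at hcon
  set F : ℝ → ℝ := fun x => σ * Wf1 x * Real.sin (x - B) - σ * Wf x * Real.cos (x - B) with hF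
  have hder : ∀ x, 0 < x → HasDerivAt F (-(1 / (4 * x ^ 2)) * (σ * Wf x) * Real.sin (x - B)) x := by
    intro x hx
    have hs : HasDerivAt (fun y => Real.sin (y - B)) (Real.cos (x - B) * 1) x :=
      hd_comp (Real.hasDerivAt_sin (x - B)) (hd_subc B x)
    have hc : HasDerivAt (fun y => Real.cos (y - B)) (-Real.sin (x - B) * 1) x :=
      hd_comp (Real.hasDerivAt_cos (x - B)) (hd_subc B x)
    have := hd_sub (hd_mul (hd_cmul σ (Wf1_deriv hx)) hs) (hd_mul (hd_cmul σ (Wf_deriv hx)) hc)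
    refine this.congr_deriv ?_
    ring
  have hpi := Real.pi_pos
  have hanti : StrictAntiOn F (Set.Icc B (B + Real.pi)) := by
    refine strictAntiOn_of_deriv_neg (convex_Icc _ _) ?_ ?_
    · intro y hy
      exact (hder y (by linarith [hy.1])).continuousAt.continuousWithinAt
    · intro y hy
      rw [interior_Icc] at hy
      have hy0 : 0 < y := by linarith [hy.1]
      rw [(hder y hy0).deriv]
      have h1 : 0 < Real.sin (y - B) := Real.sin_pos_of_pos_of_lt_pi (by linarith [hy.1]) (by linarith [hy.2])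
      have h2 := hcon y ⟨hy.1.le, hy.2.le⟩
      have h3 : 0 < 1 / (4 * y ^ 2) := by positivity
      have : 0 < 1 / (4 * y ^ 2) * (σ * Wf y) * Real.sin (y - B) := by positivity
      linarith
  have h1 := hanti (Set.left_mem_Icc.2 (by linarith)) (Set.right_mem_Icc.2 (by linarith)) (by linarith)
  have h2 : F B = -(σ * Wf B) := by simp [hF]
  have h3 : F (B + Real.pi) = σ * Wf (B + Real.pi) := by simp [hF]
  have h4 := hcon B (Set.left_mem_Icc.2 (by linarith))
  have h5 := hcon (B + Real.pi) (Set.right_mem_Icc.2 (by linarith))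
  linarith

/-- a positive local maximum of `Wf` in every interval of length four pi -/
theorem Wf_max {B : ℝ} (hB : 1 ≤ B) : ∃ x ∈ Set.Ioo B (B + 4 * Real.pi), Wf1 x = 0 ∧ 0 < Wf x := by
  have hpi := Real.pi_pos
  have hB0 : 0 < B := by linarith
  obtain ⟨y1, hy1, w1⟩ := Wf_sturm (B := B) (σ := 1) hB0 (Or.inl rfl)
  obtain ⟨y3, hy3, w3⟩ := Wf_sturm (B := B + 3 * Real.pi) (σ := 1) (by linarith) (Or.inl rfl)
  rw [one_mul] at w1 w3
  have hcont : ContinuousOn Wf (Set.Icc y1 y3) := fun y hy =>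
    (Wf_deriv (x := y) (by linarith [hy.1, hy1.1])).continuousAt.continuousWithinAt
  have h13 : y1 ≤ y3 := by linarith [hy1.2, hy3.1]
  obtain ⟨y, hy, hmax⟩ := isCompact_Icc.exists_isMaxOn (Set.nonempty_Icc.2 h13) hcont
  -- positive value
  have hpos : 0 < Wf y := by
    by_contra hneg
    push Not at hneg
    obtain ⟨z, hz, wz⟩ := Wf_sturm (B := B + 3 / 2 * Real.pi) (σ := -1) (by linarith) (Or.inr rfl)
    have hz1 : y1 < z := by linarith [hy1.2, hz.1]
    have hz3 : z < y3 := by linarith [hz.2, hy3.1]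
    have hz0 : Wf z ≤ 0 := (hmax ⟨hz1.le, hz3.le⟩).trans hneg
    have hz0' : Wf z = 0 := by linarith
    have hloc : IsLocalMax Wf z := by
      filter_upwards [Icc_mem_nhds hz1 hz3] with t ht
      rw [hz0']
      exact (hmax ht).trans hneg
    have hd := hloc.hasDerivAt_eq_zero (Wf_deriv (x := z) (by linarith [hz.1]))
    rcases Wf_nondeg (x := z) (by linarith [hz.1]) with h | h
    · exact h hz0'
    · exact h hd
  have hy1' : y1 < y := lt_of_le_of_ne hy.1 (by rintro rfl; linarith)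
  have hy3' : y < y3 := lt_of_le_of_ne hy.2 (by rintro rfl; linarith)
  have hloc : IsLocalMax Wf y := by
    filter_upwards [Icc_mem_nhds hy1' hy3'] with t ht
    exact hmax ht
  exact ⟨y, ⟨by linarith [hy1.1], by linarith [hy3.2]⟩, hloc.hasDerivAt_eq_zero (Wf_deriv (x := y) (by linarith [hy1.1])), hpos⟩

end Pool.Agent.J6H20.RL
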