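import Mathlib

/-!
# Nondegeneracy inequalities
-/

set_option autoImplicit false

namespace Pool.Agent.J6H20.RL

theorem nd_f {B G S C : ℝ} (hB : 0 ≤ B) (h1 : S ^ 2 + C ^ 2 = 1) :
    (B - |G|) ^ 2 ≤ (B * S + G) ^ 2 + 1 / 2 * (B * C) ^ 2 ∨ B ^ 2 / 4 ≤ (B * S + G) ^ 2 + 1 / 2 * (B * C) ^ 2 := by
  have hS : |S| ≤ 1 := by
    rw [abs_le]; constructor <;> nlinarith [sq_nonneg C]
  have hs0 := abs_nonneg S
  have hg0 := abs_nonneg G
  have e1 : |S| ^ 2 = S ^ 2 := sq_abs S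
  have e2 : |G| ^ 2 = G ^ 2 := sq_abs G
  have key : 1 / 2 * B ^ 2 * |S| ^ 2 - 2 * B * |S| * |G| + |G| ^ 2 + 1 / 2 * B ^ 2 ≤ (B * S + G) ^ 2 + 1 / 2 * (B * C) ^ 2 := by
    have h3 : -(|S| * |G|) ≤ S * G := by rw [← abs_mul]; exact neg_abs_le _
    have h4 : (B * S + G) ^ 2 + 1 / 2 * (B * C) ^ 2 = 1 / 2 * B ^ 2 * S ^ 2 + 2 * B * (S * G) + G ^ 2 + 1 / 2 * B ^ 2 := by
      have : C ^ 2 = 1 - S ^ 2 := by linarith
      have h5 : (B * C) ^ 2 = B ^ 2 * (1 - S ^ 2) := by rw [← this]; ring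
      rw [h5]; ring
    rw [h4, e1, e2]
    nlinarith
  rcases le_total B (2 * |G|) with h | h
  · left
    refine le_trans ?_ key
    have : 1 / 2 * B ^ 2 * |S| ^ 2 - 2 * B * |S| * |G| + |G| ^ 2 + 1 / 2 * B ^ 2 - (B - |G|) ^ 2 =
        (1 - |S|) * B * (2 * |G| - 1 / 2 * B * (1 + |S|)) := by ring
    have h6 : 0 ≤ (1 - |S|) * B * (2 * |G| - 1 / 2 * B * (1 + |S|)) := by
      refine mul_nonneg (mul_nonneg (by linarith) hB) ?_
      nlinarith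
    linarith
  · right
    refine le_trans ?_ key
    have : 1 / 2 * B ^ 2 * |S| ^ 2 - 2 * B * |S| * |G| + |G| ^ 2 + 1 / 2 * B ^ 2 =
        1 / 2 * (B * |S| - 2 * |G|) ^ 2 - |G| ^ 2 + 1 / 2 * B ^ 2 := by ring
    rw [this]
    nlinarith [sq_nonneg (B * |S| - 2 * |G|)]

theorem half_sq (a e : ℝ) : 1 / 2 * a ^ 2 - e ^ 2 ≤ (a + e) ^ 2 := by nlinarith [sq_nonneg (a + 2 * e)]

theorem nd_low {B B1 G G1 S : ℝ} (hS : S ^ 2 ≤ 1) (hB : |B| ≤ 3 / 10) (hB1 : |B1| ≤ 3 / 10) (hG : 9 / 10 ≤ G ^ 2 + G1 ^ 2) :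
    1 / 4 ≤ (B * S + G) ^ 2 + (B1 * S + G1) ^ 2 := by
  have h1 := half_sq G (B * S)
  have h2 := half_sq G1 (B1 * S)
  have h3 : (B * S) ^ 2 ≤ 9 / 100 := by
    have : B ^ 2 ≤ 9 / 100 := by rw [← sq_abs]; nlinarith [abs_nonneg B]
    rw [mul_pow]; nlinarith [sq_nonneg B, sq_nonneg S]
  have h4 : (B1 * S) ^ 2 ≤ 9 / 100 := by
    have : B1 ^ 2 ≤ 9 / 100 := by rw [← sq_abs]; nlinarith [abs_nonneg B1]
    rw [mul_pow]; nlinarith [sq_nonneg B1, sq_nonneg S]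
  have e1 : (B * S + G) ^ 2 = (G + B * S) ^ 2 := by ring
  have e2 : (B1 * S + G1) ^ 2 = (G1 + B1 * S) ^ 2 := by ring
  rw [e1, e2]; linarith

/-- distance of `i` to `i0 + 1/2` -/
theorem int_half (i : ℤ) (i0 : ℕ) : (1 : ℝ) / 2 ≤ |(i : ℝ) - i0 - 1 / 2| := by
  rcases le_or_gt i (i0 : ℤ) with h | h
  · have : (i : ℝ) ≤ i0 := by exact_mod_cast h
    rw [abs_of_nonpos (by linarith)]; linarith
  · have : (i0 : ℝ) + 1 ≤ i := by exact_mod_cast h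
    rw [abs_of_nonneg (by linarith)]; linarith

theorem cos_ge {y ς : ℝ} (h : |Real.sin y| ≤ 2 * ς) : 1 - 4 * ς ^ 2 ≤ |Real.cos y| := by
  have h3 := Real.sin_sq_add_cos_sq y
  have h4 : Real.sin y ^ 2 ≤ (2 * ς) ^ 2 := by
    rw [← sq_abs (Real.sin y)]
    exact pow_le_pow_left₀ (abs_nonneg _) h 2
  have h5 : |Real.cos y| ^ 2 = Real.cos y ^ 2 := sq_abs _
  have h6 := Real.abs_cos_le_one y
  have h7 := abs_nonneg (Real.cos y)
  have h8 : |Real.cos y| ^ 2 ≤ |Real.cos y| := by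
    rw [pow_two]; exact mul_le_of_le_one_left h7 h6
  have h9 : (2 * ς) ^ 2 = 4 * ς ^ 2 := by ring
  linarith

/-- facts in the case `B < 2` -/
theorem pk1 {ς α' X B : ℝ} (hς : 0 < ς) (hς1 : ς ≤ 1 / 100) (hα : |α'| ≤ ς / 8) (hX : 0 ≤ X)
    (hBu : B ≤ (1 + α') * X) (hBl : (1 + α') * X * (1 - ς / 40) ≤ B) (hB : B < 2) :
    X ≤ 205 / 100 ∧ |B - X| ≤ 32 / 100 * ς ∧ 98 / 100 * X ≤ B := by
  obtain ⟨a1, a2⟩ := abs_le.1 hα
  have h1 : 998 / 1000 ≤ (1 + α') * (1 - ς / 40) := by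
    have e1 : 9985 / 10000 ≤ 1 + α' := by linarith
    have e2 : 9997 / 10000 ≤ 1 - ς / 40 := by linarith
    have := mul_le_mul e1 e2 (by norm_num) (by linarith)
    linarith
  have h2 : (1 + α') * X * (1 - ς / 40) = ((1 + α') * (1 - ς / 40)) * X := by ring
  have h3 : 998 / 1000 * X ≤ B := by
    have := mul_le_mul_of_nonneg_right h1 hX
    linarith
  have h4 : X ≤ 205 / 100 := by linarith
  have hαX : |α' * X| ≤ ς / 8 * (205 / 100) := by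
    rw [abs_mul, abs_of_nonneg hX]
    exact mul_le_mul hα h4 hX (by positivity)
  obtain ⟨b1, b2⟩ := abs_le.1 hαX
  have h5 : (1 + α') * X * (ς / 40) ≤ 101 / 100 * (205 / 100) * (ς / 40) := by
    refine mul_le_mul_of_nonneg_right ?_ (by positivity)
    exact mul_le_mul (by linarith) h4 hX (by norm_num)
  have h6 : (1 + α') * X = X + α' * X := by ring
  have h7 : (1 + α') * X * (1 - ς / 40) = X + α' * X - (1 + α') * X * (ς / 40) := by ring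
  refine ⟨h4, ?_, by linarith⟩
  rw [abs_le]
  constructor <;> linarith

/-- near a multiple of `pi` -/
theorem pk2 {ς y : ℝ} (hς : 0 < ς) (hς1 : ς ≤ 1 / 100) (hy : 1 / 2 ≤ y) (hs : |Real.sin y| ≤ 2 * ς) :
    ∃ i : ℤ, (1 : ℝ) ≤ i ∧ |y - Real.pi * i| ≤ Real.pi * ς := by
  have hpi := Real.pi_gt_three
  have hpi2 := Real.pi_lt_d2
  refine ⟨round (y / Real.pi), ?_⟩
  set i : ℤ := round (y / Real.pi) with hi
  have hr := abs_sub_round (y / Real.pi)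
  rw [← hi] at hr
  have hyi : |y - Real.pi * i| ≤ Real.pi / 2 := by
    have : y - Real.pi * i = Real.pi * (y / Real.pi - i) := by field_simp
    rw [this, abs_mul, abs_of_pos Real.pi_pos]
    have := mul_le_mul_of_nonneg_left hr Real.pi_pos.le
    linarith
  have hsi : |Real.sin y| = |Real.sin (y - Real.pi * i)| := by
    have : Real.sin (y - Real.pi * i) = (-1) ^ i * Real.sin y := by
      rw [mul_comm, Real.sin_sub_int_mul_pi]
    rw [this, abs_mul, abs_zpow]; simp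
  have hyς : |y - Real.pi * i| ≤ Real.pi * ς := by
    have h3 := Real.mul_abs_le_abs_sin hyi
    rw [← hsi] at h3
    have h4 : 2 / Real.pi * |y - Real.pi * i| ≤ 2 * ς := by linarith
    rw [div_mul_eq_mul_div, div_le_iff₀ Real.pi_pos] at h4
    linarith
  refine ⟨?_, hyς⟩
  have hi1 : (1 : ℤ) ≤ i := by
    by_contra hcon
    have h3 : (i : ℝ) ≤ 0 := by
      have : i ≤ 0 := by omega
      exact_mod_cast this
    have h4 := (abs_le.1 hyς).2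
    have h5 : Real.pi * i ≤ 0 := mul_nonpos_of_nonneg_of_nonpos Real.pi_pos.le h3
    have h6 : Real.pi * ς ≤ 32 / 1000 := by
      have := mul_le_mul hpi2.le hς1 hς.le (by norm_num)
      norm_num at this ⊢; linarith
    linarith
  exact_mod_cast hi1

/-- the amplitude at the nodal points -/
theorem pk3 {ς y B : ℝ} {i : ℤ} {i0 : ℕ} (hς : 0 < ς) (hς1 : ς ≤ 1 / 100) (hςi : ς * (Real.pi * (i0 + 1 / 2)) = 1)
    (hi : (1 : ℝ) ≤ i) (hyi : |y - Real.pi * i| ≤ Real.pi * ς) (hB : |B - ς * y| ≤ 32 / 100 * ς) (hB2 : 98 / 100 * (ς * y) ≤ B) :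
    12 / 10 * ς ≤ |B - 1| ∧ 28 / 10 * ς ≤ B := by
  have hpi := Real.pi_gt_d2
  have hpi2 := Real.pi_lt_d2
  have h6 : Real.pi * ς ≤ 32 / 1000 := by
    have := mul_le_mul hpi2.le hς1 hς.le (by norm_num)
    norm_num at this ⊢; linarith
  have hd : ς * Real.pi / 2 ≤ |ς * Real.pi * i - 1| := by
    have : ς * Real.pi * i - 1 = ς * Real.pi * ((i : ℝ) - i0 - 1 / 2) := by
      have : ς * Real.pi * ((i : ℝ) - i0 - 1 / 2) = ς * Real.pi * i - ς * (Real.pi * (i0 + 1 / 2)) := by ring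
      rw [this, hςi]
    rw [this, abs_mul, abs_of_pos (by positivity)]
    have h1 := int_half i i0
    have h2 : 0 < ς * Real.pi := by positivity
    have := mul_le_mul_of_nonneg_left h1 h2.le
    linarith
  constructor
  · have h3 : |ς * Real.pi * i - 1| ≤ |ς * Real.pi * i - ς * y| + |ς * y - B| + |B - 1| := by
      have e : ς * Real.pi * i - 1 = (ς * Real.pi * i - ς * y) + (ς * y - B) + (B - 1) := by ring
      rw [e]
      exact (abs_add_le _ _).trans (add_le_add_left (abs_add_le _ _) _)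
    have h4 : |ς * Real.pi * i - ς * y| ≤ 32 / 1000 * ς := by
      have : ς * Real.pi * i - ς * y = -(ς * (y - Real.pi * i)) := by ring
      rw [this, abs_neg, abs_mul, abs_of_pos hς]
      have h5 : ς * |y - Real.pi * i| ≤ ς * (Real.pi * ς) := mul_le_mul_of_nonneg_left hyi hς.le
      have h7 : ς * (Real.pi * ς) ≤ ς * (32 / 1000) := mul_le_mul_of_nonneg_left h6 hς.le
      linarith
    rw [abs_sub_comm (ς * y) B] at h3
    have h5 : 157 / 100 * ς ≤ ς * Real.pi / 2 := by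
      have := mul_le_mul_of_nonneg_left hpi.le hς.le
      norm_num at this; linarith
    linarith
  · have h3 : 31 / 10 ≤ y := by
      have h4 := (abs_le.1 hyi).1
      have h5 : Real.pi * 1 ≤ Real.pi * i := mul_le_mul_of_nonneg_left hi Real.pi_pos.le
      norm_num at hpi
      linarith
    have h8 : ς * (31 / 10) ≤ ς * y := mul_le_mul_of_nonneg_left h3 hς.le
    linarith

theorem pk4 {ς B G S C : ℝ} (hς : 0 < ς) (hB : 0 ≤ B) (hBG : 11 / 10 * ς ≤ abs (B - |G|)) (hBl : 28 / 10 * ς ≤ B) (h1 : S ^ 2 + C ^ 2 = 1) :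
    ς ^ 2 / 4 ≤ (B * S + G) ^ 2 + 1 / 2 * (B * C) ^ 2 := by
  have hς2 : 0 ≤ ς ^ 2 := sq_nonneg ς
  rcases nd_f (G := G) hB h1 with hf | hf
  · have : (11 / 10 * ς) ^ 2 ≤ (B - |G|) ^ 2 := by
      rw [← sq_abs (B - |G|)]; exact pow_le_pow_left₀ (by positivity) hBG 2
    have e : (11 / 10 * ς) ^ 2 = 121 / 100 * ς ^ 2 := by ring
    linarith
  · have : (28 / 10 * ς) ^ 2 ≤ B ^ 2 := pow_le_pow_left₀ (by positivity) hBl 2
    have e : (28 / 10 * ς) ^ 2 = 784 / 100 * ς ^ 2 := by ring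
    linarith

theorem pk5 {ς B G S C η : ℝ} (hς : 0 < ς) (hς1 : ς ≤ 1 / 100) (hη1 : η ≤ 1 / 100) (hG : |G| ≤ 1 + η)
    (hB2 : 2 ≤ B) (h1 : S ^ 2 + C ^ 2 = 1) :
    ς ^ 2 / 36 * (1 + B) ^ 2 ≤ (B * S + G) ^ 2 + 1 / 2 * (B * C) ^ 2 := by
  have hς2 : ς ^ 2 ≤ 1 / 10000 := by
    have := pow_le_pow_left₀ hς.le hς1 2
    norm_num at this ⊢; linarith
  have hb : 0 ≤ (1 + B) ^ 2 := sq_nonneg _
  rcases nd_f (G := G) (by linarith : 0 ≤ B) h1 with hf | hf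
  · have h3 : 33 / 100 * (1 + B) ≤ B - |G| := by linarith
    have h4 : (33 / 100 * (1 + B)) ^ 2 ≤ (B - |G|) ^ 2 := pow_le_pow_left₀ (by linarith) h3 2
    have h5 : ς ^ 2 / 36 * (1 + B) ^ 2 ≤ (33 / 100) ^ 2 * (1 + B) ^ 2 := mul_le_mul_of_nonneg_right (by norm_num; linarith) hb
    have h6 : (33 / 100 * (1 + B)) ^ 2 = (33 / 100) ^ 2 * (1 + B) ^ 2 := by ring
    linarith
  · have h3 : (1 + B) ^ 2 ≤ (3 / 2 * B) ^ 2 := pow_le_pow_left₀ (by linarith) (by linarith) 2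
    have h5 : ς ^ 2 / 36 * (1 + B) ^ 2 ≤ 1 / 9 * (1 + B) ^ 2 := mul_le_mul_of_nonneg_right (by linarith) hb
    have : (3 / 2 * B) ^ 2 = 9 / 4 * B ^ 2 := by ring
    linarith

theorem pk6 {ς η mq B1 G1 S s : ℝ} (hς : 0 < ς) (hS : |S| ≤ 1) (hB1 : |B1| ≤ 101 / 100 * ς) (hη1 : η ≤ 1 / 100 * ς)
    (hs : 2 * ς ≤ s) (hc : s - η ≤ |G1|) : ς ^ 2 / 4 ≤ (B1 * S + G1) ^ 2 := by
  have h3 : |B1 * S| ≤ 101 / 100 * ς := by
    rw [abs_mul]
    calc |B1| * |S| ≤ (101 / 100 * ς) * 1 := mul_le_mul hB1 hS (abs_nonneg _) (by positivity)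
      _ = _ := by ring
  have h5 : 9 / 10 * ς ≤ |B1 * S + G1| := by
    have := abs_sub_abs_le_abs_sub G1 (-(B1 * S))
    rw [abs_neg] at this
    have h6 : G1 - -(B1 * S) = B1 * S + G1 := by ring
    rw [h6] at this
    linarith
  have h7 : (9 / 10 * ς) ^ 2 ≤ (B1 * S + G1) ^ 2 := by
    rw [← sq_abs (B1 * S + G1)]; exact pow_le_pow_left₀ (by positivity) h5 2
  have e : (9 / 10 * ς) ^ 2 = 81 / 100 * ς ^ 2 := by ring
  have := sq_nonneg ς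
  linarith

theorem nd_peak {ς m q y α' η B B1 G G1 S C : ℝ} {i0 : ℕ} (hς : 0 < ς) (hς1 : ς ≤ 1 / 100) (hςi : ς * (Real.pi * (i0 + 1 / 2)) = 1)
    (hm : 0 ≤ m) (hq : 0 < q) (hmq : m * q = ς * (1 + α')) (hα : |α'| ≤ ς / 8) (hqs : (q * (5 / ς)) ^ 2 ≤ ς / 10)
    (hη : 0 ≤ η) (hη1 : η ≤ ς ^ 2 / 100)
    (hy : 1 / 2 ≤ y) (hyW : q * y ≤ Real.pi / 2) (hB : B = m * Real.sin (q * y)) (hB1 : |B1| ≤ m * q) (hG : |G| ≤ 1 + η)
    (hclose : y ≤ 5 / ς → |G - Real.cos y| ≤ η ∧ |Real.sin y| - η ≤ |G1|) (h1 : S ^ 2 + C ^ 2 = 1) :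
    ς ^ 2 / 36 * (1 + B) ^ 2 ≤ (B * S + G) ^ 2 + 1 / 2 * (B * C) ^ 2 + (B1 * S + G1) ^ 2 := by
  have hpi := Real.pi_gt_three
  have hpi2 := Real.pi_lt_d2
  have hy0 : 0 < y := by linarith
  have hqy : 0 < q * y := by positivity
  have hs0 : 0 ≤ Real.sin (q * y) := Real.sin_nonneg_of_nonneg_of_le_pi hqy.le (by linarith)
  have hB0 : 0 ≤ B := by rw [hB]; positivity
  obtain ⟨a1, a2⟩ := abs_le.1 hα
  have hsq : 0 ≤ (B1 * S + G1) ^ 2 := sq_nonneg _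
  have hςς : ς ^ 2 ≤ 1 / 100 * ς := by rw [pow_two]; exact mul_le_mul_of_nonneg_right hς1 hς.le
  rcases le_or_gt 2 B with hB2 | hB2
  · have := pk5 hς hς1 (by linarith) hG hB2 h1
    linarith
  -- B < 2
  have hX0 : 0 ≤ ς * y := by positivity
  have h1α : 9985 / 10000 ≤ 1 + α' := by linarith
  have hmx : m * (q * y) = (1 + α') * (ς * y) := by
    have : m * (q * y) = (m * q) * y := by ring
    rw [this, hmq]; ring
  have hJ : 2 / Real.pi * (q * y) ≤ Real.sin (q * y) := Real.mul_le_sin hqy.le hyW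
  have hςy : 6 / 10 * (ς * y) ≤ B := by
    have h3 : m * (2 / Real.pi * (q * y)) ≤ B := by rw [hB]; exact mul_le_mul_of_nonneg_left hJ hm
    have h4 : m * (2 / Real.pi * (q * y)) = (2 / Real.pi * (1 + α')) * (ς * y) := by
      have : m * (2 / Real.pi * (q * y)) = 2 / Real.pi * (m * (q * y)) := by ring
      rw [this, hmx]; ring
    have h6 : 63 / 100 ≤ 2 / Real.pi := by rw [le_div_iff₀ Real.pi_pos]; linarith
    have h9 : 6 / 10 ≤ 2 / Real.pi * (1 + α') := by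
      have := mul_le_mul h6 h1α (by norm_num) (by linarith)
      norm_num at this ⊢; linarith
    have := mul_le_mul_of_nonneg_right h9 hX0
    linarith
  have hy5 : y ≤ 5 / ς := by
    rw [le_div_iff₀ hς]; linarith
  obtain ⟨c1, c2⟩ := hclose hy5
  have hx5 : q * y ≤ q * (5 / ς) := mul_le_mul_of_nonneg_left hy5 hq.le
  have hx2 : (q * y) ^ 2 ≤ ς / 10 := (pow_le_pow_left₀ hqy.le hx5 2).trans hqs
  have hBu : B ≤ (1 + α') * (ς * y) := by rw [hB, ← hmx]; exact mul_le_mul_of_nonneg_left (Real.sin_le hqy.le) hm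
  have hBl : (1 + α') * (ς * y) * (1 - ς / 40) ≤ B := by
    have sl : q * y * (1 - (q * y) ^ 2 / 4) ≤ Real.sin (q * y) := by
      have h1 := Real.sin_gt_sub_cube hqy
      have h2 : 0 < (q * y) ^ 3 := by positivity
      have h3 : q * y * (1 - (q * y) ^ 2 / 4) = q * y - (q * y) ^ 3 / 4 := by ring
      linarith
    have h3 : m * (q * y * (1 - (q * y) ^ 2 / 4)) ≤ B := by rw [hB]; exact mul_le_mul_of_nonneg_left sl hm
    have h4 : m * (q * y * (1 - (q * y) ^ 2 / 4)) = (1 + α') * (ς * y) * (1 - (q * y) ^ 2 / 4) := by rw [← hmx]; ring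
    have h5 : 0 ≤ (1 + α') * (ς * y) := mul_nonneg (by linarith) hX0
    have h6 : (1 + α') * (ς * y) * (1 - ς / 40) ≤ (1 + α') * (ς * y) * (1 - (q * y) ^ 2 / 4) :=
      mul_le_mul_of_nonneg_left (by linarith) h5
    linarith
  obtain ⟨f1, f2, f3⟩ := pk1 hς hς1 hα hX0 hBu hBl hB2
  have h16 : ς ^ 2 / 36 * (1 + B) ^ 2 ≤ ς ^ 2 / 4 := by
    have h3 : (1 + B) ^ 2 ≤ 3 ^ 2 := pow_le_pow_left₀ (by linarith) (by linarith) 2
    have h4 : ς ^ 2 / 36 * (1 + B) ^ 2 ≤ ς ^ 2 / 36 * 3 ^ 2 := mul_le_mul_of_nonneg_left h3 (by positivity)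
    linarith
  have hS : |S| ≤ 1 := by
    rw [← sq_le_one_iff_abs_le_one]; have := sq_nonneg C; linarith
  rcases le_or_gt (2 * ς) |Real.sin y| with hsn | hsn
  · have hb1 : |B1| ≤ 101 / 100 * ς := by
      refine hB1.trans ?_
      rw [hmq]
      have : ς * (1 + α') ≤ ς * (101 / 100) := mul_le_mul_of_nonneg_left (by linarith) hς.le
      linarith
    have h7 := pk6 (mq := m) hς hS hb1 (by linarith : η ≤ 1 / 100 * ς) hsn c2
    have h8 : 0 ≤ (B * S + G) ^ 2 + 1 / 2 * (B * C) ^ 2 := by positivity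
    linarith
  · obtain ⟨i, hi, hyi⟩ := pk2 hς hς1 hy hsn.le
    obtain ⟨g1, g2⟩ := pk3 hς hς1 hςi hi hyi f2 f3
    have hcos : 1 - 4 * ς ^ 2 ≤ |Real.cos y| := cos_ge hsn.le
    have hG2 : 1 - 4 * ς ^ 2 - η ≤ |G| := by
      have := abs_sub_abs_le_abs_sub (Real.cos y) G
      rw [abs_sub_comm] at this
      linarith
    have hBG : 11 / 10 * ς ≤ abs (B - |G|) := by
      have h3 : |B - 1| ≤ abs (B - |G|) + abs (|G| - 1) := by
        have e : B - 1 = (B - |G|) + (|G| - 1) := by ring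
        rw [e]; exact abs_add_le _ _
      have h4 : abs (|G| - 1) ≤ 5 / 100 * ς := by
        rw [abs_le]; constructor <;> linarith
      linarith
    have := pk4 hς hB0 hBG g2 h1
    linarith

theorem nd_exact {σ B B1 G G1 ρ ρ' : ℝ} (hσ : σ ≠ 0) (hσ1 : |σ| ≤ 1) (hρ : 1 / 2 ≤ ρ ^ 2 + ρ' ^ 2)
    (hρ2 : ρ ^ 2 ≤ 2) (hB1 : |B1| ≤ 1 / 10) (hG : 9 / 10 ≤ G ^ 2 + G1 ^ 2) :
    σ ^ 2 / 12 * (1 + B) ^ 2 ≤ (B * ρ + G) ^ 2 + (σ * (B * ρ)) ^ 2 + (B1 * ρ + G1) ^ 2 + 1 / 2 * (B * ρ') ^ 2 := by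
  have hs2 : σ ^ 2 ≤ 1 := by rw [← sq_abs]; nlinarith [abs_nonneg σ]
  have hs0 : 0 < σ ^ 2 := by positivity
  have hB12 : B1 ^ 2 ≤ 1 / 100 := by rw [← sq_abs]; nlinarith [abs_nonneg B1]
  have e1 : G ^ 2 ≤ 2 * (B * ρ + G) ^ 2 + 2 * (B * ρ) ^ 2 := by nlinarith [sq_nonneg (2 * (B * ρ) + G)]
  have e2 : G1 ^ 2 ≤ 2 * (B1 * ρ + G1) ^ 2 + 2 * (B1 * ρ) ^ 2 := by nlinarith [sq_nonneg (2 * (B1 * ρ) + G1)]
  have e3 : (B1 * ρ) ^ 2 ≤ 2 / 100 := by rw [mul_pow]; nlinarith [sq_nonneg ρ, sq_nonneg B1]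
  have e4 : 1 / 2 * B ^ 2 ≤ (B * ρ) ^ 2 + (B * ρ') ^ 2 := by
    have : (B * ρ) ^ 2 + (B * ρ') ^ 2 = B ^ 2 * (ρ ^ 2 + ρ' ^ 2) := by ring
    rw [this]; nlinarith [sq_nonneg B]
  have e5 : 86 / 100 + 1 / 2 * B ^ 2 ≤ 2 * (B * ρ + G) ^ 2 + 3 * (B * ρ) ^ 2 + 2 * (B1 * ρ + G1) ^ 2 + (B * ρ') ^ 2 := by linarith
  have e6 : σ ^ 2 * (86 / 100 + 1 / 2 * B ^ 2) ≤ 2 * (B * ρ + G) ^ 2 + 3 * (σ * (B * ρ)) ^ 2 + 2 * (B1 * ρ + G1) ^ 2 + (B * ρ') ^ 2 := by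
    have h1 := mul_le_mul_of_nonneg_left e5 hs0.le
    have h2 : σ ^ 2 * (B * ρ + G) ^ 2 ≤ (B * ρ + G) ^ 2 := mul_le_of_le_one_left (sq_nonneg _) hs2
    have h3 : σ ^ 2 * (B1 * ρ + G1) ^ 2 ≤ (B1 * ρ + G1) ^ 2 := mul_le_of_le_one_left (sq_nonneg _) hs2
    have h4 : σ ^ 2 * (B * ρ') ^ 2 ≤ (B * ρ') ^ 2 := mul_le_of_le_one_left (sq_nonneg _) hs2
    have h5 : (σ * (B * ρ)) ^ 2 = σ ^ 2 * (B * ρ) ^ 2 := by ring
    rw [h5]
    nlinarith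
  have e7 : 1 / 4 * (1 + B) ^ 2 ≤ 86 / 100 + 1 / 2 * B ^ 2 := by nlinarith [sq_nonneg (B - 1)]
  have e8 : σ ^ 2 * (1 / 4 * (1 + B) ^ 2) ≤ σ ^ 2 * (86 / 100 + 1 / 2 * B ^ 2) := mul_le_mul_of_nonneg_left e7 hs0.le
  nlinarith [sq_nonneg (B * ρ + G), sq_nonneg (B1 * ρ + G1), sq_nonneg (B * ρ')]

end Pool.Agent.J6H20.RL
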