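import Mathlib

/-! the smooth step -/

set_option autoImplicit false

open Filter Topology
open scoped ContDiff

namespace Pool.Agent.J6H20.RL

/-- the smooth step function -/
noncomputable def chi (t : ℝ) : ℝ := Real.smoothTransition t

theorem chi_smooth : ContDiff ℝ ∞ chi := Real.smoothTransition.contDiff

theorem chi_nonneg (t : ℝ) : 0 ≤ chi t := Real.smoothTransition.nonneg t
theorem chi_le_one (t : ℝ) : chi t ≤ 1 := Real.smoothTransition.le_one t
theorem chi_zero {t : ℝ} (h : t ≤ 0) : chi t = 0 := Real.smoothTransition.zero_of_nonpos h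
theorem chi_one {t : ℝ} (h : 1 ≤ t) : chi t = 1 := Real.smoothTransition.one_of_one_le h
theorem chi_abs (t : ℝ) : |chi t| ≤ 1 := by rw [abs_of_nonneg (chi_nonneg t)]; exact chi_le_one t

theorem chi_bound (n : ℕ) : ∃ C : ℝ, 1 ≤ C ∧ ∀ t, |iteratedDeriv n chi t| ≤ C := by
  have hc : Continuous (iteratedDeriv n chi) := chi_smooth.continuous_iteratedDeriv n (by exact_mod_cast le_top)
  obtain ⟨C, hC⟩ := isCompact_Icc.exists_bound_of_continuousOn (s := Set.Icc (-1 : ℝ) 2) hc.continuousOn
  refine ⟨max C 1, le_max_right _ _, fun t => ?_⟩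
  by_cases h1 : t < -1
  · have : chi =ᶠ[𝓝 t] fun _ => 0 := by
      filter_upwards [Iio_mem_nhds h1] with s hs
      exact chi_zero (by linarith [Set.mem_Iio.1 hs])
    rw [this.iteratedDeriv_eq n, iteratedDeriv_const]
    split <;> simp
  · by_cases h2 : 2 < t
    · have : chi =ᶠ[𝓝 t] fun _ => 1 := by
        filter_upwards [Ioi_mem_nhds h2] with s hs
        exact chi_one (by linarith [Set.mem_Ioi.1 hs])
      rw [this.iteratedDeriv_eq n, iteratedDeriv_const]
      split <;> simp
    · have := hC t ⟨by linarith, by linarith⟩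
      rw [Real.norm_eq_abs] at this
      exact this.trans (le_max_left _ _)

/-- bound for all derivatives up to order `n` -/
theorem chi_bounds (n : ℕ) : ∃ C : ℝ, 1 ≤ C ∧ ∀ k ≤ n, ∀ t, |iteratedDeriv k chi t| ≤ C := by
  induction n with
  | zero =>
    obtain ⟨C, h1, h2⟩ := chi_bound 0
    exact ⟨C, h1, fun k hk t => by have : k = 0 := by omega
                                   subst this; exact h2 t⟩
  | succ n ih =>
    obtain ⟨C, h1, h2⟩ := ih
    obtain ⟨D, h3, h4⟩ := chi_bound (n + 1)
    refine ⟨max C D, le_max_of_le_left h1, fun k hk t => ?_⟩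
    rcases Nat.lt_or_ge k (n + 1) with h | h
    · exact (h2 k (by omega) t).trans (le_max_left _ _)
    · have : k = n + 1 := by omega
      subst this; exact (h4 t).trans (le_max_right _ _)

theorem chi_hasDeriv (t : ℝ) : HasDerivAt chi (deriv chi t) t :=
  (chi_smooth.differentiable (by simp)).differentiableAt.hasDerivAt

theorem chi_hasDeriv2 (t : ℝ) : HasDerivAt (deriv chi) (deriv (deriv chi) t) t := by
  have : ContDiff ℝ 2 chi := by exact_mod_cast contDiff_infty.1 chi_smooth 2
  have h2 : ContDiff ℝ 1 (deriv chi) := ((contDiff_succ_iff_deriv (n := 1)).1 this).2.2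
  exact (h2.differentiable (by simp)).differentiableAt.hasDerivAt

end Pool.Agent.J6H20.RL
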