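import Mathlib

/-!
# Partial derivatives and bounded jets for functions of three variables
-/

set_option autoImplicit false

open Filter Topology
open scoped ContDiff

namespace Pool.Agent.J6H20.RL

/-- the space of the variables `(T, Y, s)` -/
abbrev V := Fin 3 → ℝ

/-- partial derivative -/
noncomputable def pd (i : Fin 3) (f : V → ℝ) : V → ℝ := fun x => fderiv ℝ f x (Pi.single i 1)

/-- smooth at a point -/
abbrev SA (f : V → ℝ) (x : V) : Prop := ContDiffAt ℝ ∞ f x

theorem SA.diff {f : V → ℝ} {x : V} (h : SA f x) : DifferentiableAt ℝ f x :=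
  h.differentiableAt (by simp)

theorem SA.ev_diff {f : V → ℝ} {x : V} (h : SA f x) : ∀ᶠ y in 𝓝 x, DifferentiableAt ℝ f y := by
  have h1 : ContDiffAt ℝ 1 f x := h.of_le (by exact_mod_cast le_top)
  exact (h1.eventually (by simp)).mono fun y hy => hy.differentiableAt (by simp)

theorem SA.pd {f : V → ℝ} {x : V} (h : SA f x) (i : Fin 3) : SA (pd i f) x := by
  have h1 : ContDiffAt ℝ ∞ (fderiv ℝ f) x := h.fderiv_right (by simp)
  exact h1.clm_apply contDiffAt_const

theorem pd_congr {f g : V → ℝ} {x : V} (h : f =ᶠ[𝓝 x] g) (i : Fin 3) : pd i f =ᶠ[𝓝 x] pd i g := by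
  have := h.fderiv (𝕜 := ℝ)
  filter_upwards [this] with y hy
  simp only [pd, hy]

theorem pd_add {f g : V → ℝ} {x : V} (hf : DifferentiableAt ℝ f x) (hg : DifferentiableAt ℝ g x) (i : Fin 3) :
    pd i (fun y => f y + g y) x = pd i f x + pd i g x := by
  simp only [pd]
  rw [fderiv_fun_add hf hg]; rfl

theorem pd_sub {f g : V → ℝ} {x : V} (hf : DifferentiableAt ℝ f x) (hg : DifferentiableAt ℝ g x) (i : Fin 3) :
    pd i (fun y => f y - g y) x = pd i f x - pd i g x := by
  simp only [pd]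
  rw [fderiv_fun_sub hf hg]; rfl

theorem pd_neg {f : V → ℝ} {x : V} (i : Fin 3) :
    pd i (fun y => - f y) x = - pd i f x := by
  simp only [pd]
  rw [fderiv_fun_neg]; rfl

theorem pd_mul {f g : V → ℝ} {x : V} (hf : DifferentiableAt ℝ f x) (hg : DifferentiableAt ℝ g x) (i : Fin 3) :
    pd i (fun y => f y * g y) x = pd i f x * g x + f x * pd i g x := by
  simp only [pd]
  rw [fderiv_fun_mul hf hg]
  simp only [ContinuousLinearMap.add_apply, ContinuousLinearMap.smul_apply, smul_eq_mul]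
  ring

theorem pd_const (c : ℝ) (x : V) (i : Fin 3) : pd i (fun _ => c) x = 0 := by
  simp [pd]

theorem pd_inv {f : V → ℝ} {x : V} (hf : DifferentiableAt ℝ f x) (h0 : f x ≠ 0) (i : Fin 3) :
    pd i (fun y => (f y)⁻¹) x = - pd i f x * ((f x)⁻¹ * (f x)⁻¹) := by
  have h1 : HasFDerivAt (fun y => (f y)⁻¹) ((-(f x ^ 2)⁻¹) • fderiv ℝ f x) x :=
    (hasDerivAt_inv h0).comp_hasFDerivAt x hf.hasFDerivAt
  simp only [pd]
  rw [h1.fderiv]
  simp only [ContinuousLinearMap.smul_apply, smul_eq_mul]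
  field_simp

theorem pd_coord {f : ℝ → ℝ} {x : V} {j : Fin 3} (hf : DifferentiableAt ℝ f (x j)) (i : Fin 3) :
    pd i (fun y => f (y j)) x = if j = i then deriv f (x j) else 0 := by
  have h1 : HasFDerivAt (fun y : V => y j) (ContinuousLinearMap.proj (R := ℝ) (φ := fun _ : Fin 3 => ℝ) j) x :=
    (ContinuousLinearMap.proj (R := ℝ) (φ := fun _ : Fin 3 => ℝ) j).hasFDerivAt
  have h2 : HasFDerivAt (fun y : V => f (y j)) (deriv f (x j) • (ContinuousLinearMap.proj (R := ℝ) (φ := fun _ : Fin 3 => ℝ) j)) x :=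
    hf.hasDerivAt.comp_hasFDerivAt x h1
  simp only [pd]
  rw [h2.fderiv]
  simp only [ContinuousLinearMap.smul_apply, ContinuousLinearMap.proj_apply, smul_eq_mul]
  by_cases h : j = i
  · subst h; simp
  · simp [h, Pi.single_apply]

/-- bounded jets (recursive) -/
def JB : ℕ → ℝ → (V → ℝ) → V → Prop
  | 0, M, f, x => |f x| ≤ M
  | k + 1, M, f, x => |f x| ≤ M ∧ ∀ i, JB k M (pd i f) x

theorem JB.val {k : ℕ} {M : ℝ} {f : V → ℝ} {x : V} (h : JB k M f x) : |f x| ≤ M := by
  cases k with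
  | zero => exact h
  | succ k => exact h.1

theorem JB.congr {k : ℕ} : ∀ {M : ℝ} {f g : V → ℝ} {x : V}, f =ᶠ[𝓝 x] g → JB k M f x → JB k M g x := by
  induction k with
  | zero => intro M f g x h hf; have := h.eq_of_nhds; simp only [JB] at *; rwa [← this]
  | succ k ih =>
    intro M f g x h hf
    exact ⟨by rw [← h.eq_of_nhds]; exact hf.1, fun i => ih (pd_congr h i) (hf.2 i)⟩

theorem JB.mono {k : ℕ} : ∀ {M M' : ℝ} {f : V → ℝ} {x : V}, M ≤ M' → JB k M f x → JB k M' f x := by
  induction k with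
  | zero => intro M M' f x h hf; simp only [JB] at *; linarith
  | succ k ih => intro M M' f x h hf; exact ⟨hf.1.trans h, fun i => ih h (hf.2 i)⟩

theorem JB.down {k : ℕ} : ∀ {M : ℝ} {f : V → ℝ} {x : V}, JB (k + 1) M f x → JB k M f x := by
  induction k with
  | zero => intro M f x hf; exact hf.1
  | succ k ih => intro M f x hf; exact ⟨hf.1, fun i => ih (hf.2 i)⟩

theorem JB.le {k l : ℕ} (hkl : k ≤ l) {M : ℝ} {f : V → ℝ} {x : V} (h : JB l M f x) : JB k M f x := by
  induction l with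
  | zero => have : k = 0 := by omega
            subst this; exact h
  | succ l ih =>
    rcases Nat.lt_or_ge k (l + 1) with h1 | h1
    · exact ih (by omega) h.down
    · have : k = l + 1 := by omega
      subst this; exact h

theorem JB.zero {k : ℕ} {x : V} : JB k 0 (fun _ => 0) x := by
  induction k with
  | zero => simp [JB]
  | succ k ih =>
    refine ⟨by simp, fun i => ?_⟩
    exact JB.congr (Filter.Eventually.of_forall fun y => (pd_const 0 y i).symm) ih

theorem JB.const {k : ℕ} {c : ℝ} {x : V} : JB k |c| (fun _ => c) x := by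
  cases k with
  | zero => simp [JB]
  | succ k =>
    refine ⟨le_rfl, fun i => ?_⟩
    exact JB.mono (abs_nonneg c) (JB.congr (Filter.Eventually.of_forall fun y => (pd_const c y i).symm) JB.zero)

/-- smooth with bounded jets -/
structure JC (k : ℕ) (M : ℝ) (f : V → ℝ) (x : V) : Prop where
  sm : SA f x
  bd : JB k M f x

theorem JC.pd {k : ℕ} {M : ℝ} {f : V → ℝ} {x : V} (h : JC (k + 1) M f x) (i : Fin 3) :
    JC k M (pd i f) x := ⟨h.sm.pd i, h.bd.2 i⟩

theorem JC.le {k l : ℕ} (hkl : k ≤ l) {M : ℝ} {f : V → ℝ} {x : V} (h : JC l M f x) : JC k M f x :=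
  ⟨h.sm, h.bd.le hkl⟩

theorem JC.mono {k : ℕ} {M M' : ℝ} {f : V → ℝ} {x : V} (hM : M ≤ M') (h : JC k M f x) : JC k M' f x :=
  ⟨h.sm, h.bd.mono hM⟩

theorem JC.congr {k : ℕ} {M : ℝ} {f g : V → ℝ} {x : V} (hfg : f =ᶠ[𝓝 x] g) (h : JC k M f x) : JC k M g x :=
  ⟨h.sm.congr_of_eventuallyEq hfg.symm, h.bd.congr hfg⟩

theorem JC.val {k : ℕ} {M : ℝ} {f : V → ℝ} {x : V} (h : JC k M f x) : |f x| ≤ M := h.bd.val

theorem JC.M_nonneg {k : ℕ} {M : ℝ} {f : V → ℝ} {x : V} (h : JC k M f x) : 0 ≤ M :=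
  (abs_nonneg _).trans h.val

theorem JC.const {k : ℕ} {c : ℝ} {x : V} : JC k |c| (fun _ => c) x := ⟨contDiffAt_const, JB.const⟩

theorem JC.add {k : ℕ} : ∀ {M N : ℝ} {f g : V → ℝ} {x : V}, JC k M f x → JC k N g x →
    JC k (M + N) (fun y => f y + g y) x := by
  induction k with
  | zero =>
    intro M N f g x hf hg
    refine ⟨hf.sm.add hg.sm, ?_⟩
    exact (abs_add_le _ _).trans (add_le_add hf.val hg.val)
  | succ k ih =>
    intro M N f g x hf hg
    refine ⟨hf.sm.add hg.sm, (abs_add_le _ _).trans (add_le_add hf.val hg.val), fun i => ?_⟩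
    have h1 := ih (hf.pd i) (hg.pd i)
    refine (h1.congr ?_).bd
    filter_upwards [hf.sm.ev_diff, hg.sm.ev_diff] with y h2 h3
    rw [pd_add h2 h3]

theorem JC.neg {k : ℕ} : ∀ {M : ℝ} {f : V → ℝ} {x : V}, JC k M f x → JC k M (fun y => - f y) x := by
  induction k with
  | zero => intro M f x hf; exact ⟨hf.sm.neg, by simpa [JB] using hf.val⟩
  | succ k ih =>
    intro M f x hf
    refine ⟨hf.sm.neg, by simpa using hf.val, fun i => ?_⟩
    refine ((ih (hf.pd i)).congr ?_).bd
    filter_upwards with y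
    rw [pd_neg]

theorem JC.sub {k : ℕ} {M N : ℝ} {f g : V → ℝ} {x : V} (hf : JC k M f x) (hg : JC k N g x) :
    JC k (M + N) (fun y => f y - g y) x := by
  have := hf.add hg.neg
  refine this.congr ?_
  filter_upwards with y
  ring

theorem JC.mul {k : ℕ} : ∀ {M N : ℝ} {f g : V → ℝ} {x : V}, JC k M f x → JC k N g x →
    JC k (2 ^ k * (M * N)) (fun y => f y * g y) x := by
  induction k with
  | zero =>
    intro M N f g x hf hg
    refine ⟨hf.sm.mul hg.sm, ?_⟩
    simp only [JB, pow_zero, one_mul]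
    rw [abs_mul]
    exact mul_le_mul hf.val hg.val (abs_nonneg _) hf.M_nonneg
  | succ k ih =>
    intro M N f g x hf hg
    have hMN : 0 ≤ M * N := mul_nonneg hf.M_nonneg hg.M_nonneg
    refine ⟨hf.sm.mul hg.sm, ?_, fun i => ?_⟩
    · rw [abs_mul]
      have h1 : |f x| * |g x| ≤ M * N := mul_le_mul hf.val hg.val (abs_nonneg _) hf.M_nonneg
      have h2 : (1 : ℝ) ≤ 2 ^ (k + 1) := one_le_pow₀ (by norm_num)
      nlinarith
    · have h1 := ih (hf.pd i) (hg.le (Nat.le_succ k))
      have h2 := ih (hf.le (Nat.le_succ k)) (hg.pd i)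
      have h3 := h1.add h2
      refine ((h3.congr ?_).mono ?_).bd
      · filter_upwards [hf.sm.ev_diff, hg.sm.ev_diff] with y h4 h5
        rw [pd_mul h4 h5]
      · rw [pow_succ]; linarith

theorem JC.cmul {k : ℕ} {M : ℝ} {f : V → ℝ} {x : V} (c : ℝ) (hf : JC k M f x) :
    JC k (|c| * M) (fun y => c * f y) x := by
  induction k generalizing f with
  | zero =>
    refine ⟨contDiffAt_const.mul hf.sm, ?_⟩
    simp only [JB, abs_mul]
    exact mul_le_mul_of_nonneg_left hf.val (abs_nonneg c)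
  | succ k ih =>
    refine ⟨contDiffAt_const.mul hf.sm, ?_, fun i => ?_⟩
    · rw [abs_mul]; exact mul_le_mul_of_nonneg_left hf.val (abs_nonneg c)
    · refine ((ih (hf.pd i)).congr ?_).bd
      filter_upwards [hf.sm.ev_diff] with y h4
      rw [pd_mul (differentiableAt_const c) h4, pd_const]
      ring

/-- inverse of a function bounded from below -/
theorem JC.inv (k : ℕ) : ∀ (M c : ℝ), 0 < c → ∃ N : ℝ, 0 ≤ N ∧ ∀ (f : V → ℝ) (x : V), JC k M f x → c ≤ f x →
    JC k N (fun y => (f y)⁻¹) x := by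
  induction k with
  | zero =>
    intro M c hc
    refine ⟨c⁻¹, by positivity, fun f x hf h => ⟨hf.sm.inv (by linarith), ?_⟩⟩
    simp only [JB]
    rw [abs_of_pos (inv_pos.2 (by linarith))]
    exact inv_anti₀ hc h
  | succ k ih =>
    intro M c hc
    obtain ⟨N, hN, h⟩ := ih M c hc
    refine ⟨max c⁻¹ (2 ^ k * (M * (2 ^ k * (N * N)))), le_max_of_le_left (by positivity), fun f x hf hfx => ?_⟩
    have h0 : f x ≠ 0 := by linarith
    refine ⟨hf.sm.inv h0, ?_, fun i => ?_⟩
    · rw [abs_of_pos (inv_pos.2 (by linarith))]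
      exact le_max_of_le_left (inv_anti₀ hc hfx)
    · have h1 := h f x (hf.le (Nat.le_succ k)) hfx
      have h2 := (hf.pd i).neg.mul (h1.mul h1)
      refine ((h2.congr ?_).mono (le_max_right _ _)).bd
      have h3 : ∀ᶠ y in 𝓝 x, f y ≠ 0 := hf.sm.continuousAt.eventually_ne h0
      filter_upwards [hf.sm.ev_diff, h3] with y h4 h5
      rw [pd_inv h4 h5]

/-- functions of one coordinate -/
theorem JC.coord {k : ℕ} : ∀ {M : ℝ} {f : ℝ → ℝ} {x : V} {j : Fin 3}, ContDiffAt ℝ ∞ f (x j) →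
    (∀ n ≤ k, |iteratedDeriv n f (x j)| ≤ M) → JC k M (fun y => f (y j)) x := by
  have hproj : ∀ (x : V) (j : Fin 3), ContDiffAt ℝ ∞ (fun y : V => y j) x := fun x j =>
    (ContinuousLinearMap.proj (R := ℝ) (φ := fun _ : Fin 3 => ℝ) j).contDiff.contDiffAt
  induction k with
  | zero =>
    intro M f x j hf h
    refine ⟨hf.comp x (hproj x j), ?_⟩
    have := h 0 le_rfl
    simpa [JB] using this
  | succ k ih =>
    intro M f x j hf h
    have hM : 0 ≤ M := (abs_nonneg _).trans (h 0 (Nat.zero_le _))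
    refine ⟨hf.comp x (hproj x j), by simpa using h 0 (Nat.zero_le _), fun i => ?_⟩
    have h1 : ∀ᶠ t in 𝓝 (x j), DifferentiableAt ℝ f t := by
      have h2 : ContDiffAt ℝ 1 f (x j) := hf.of_le (by exact_mod_cast le_top)
      exact (h2.eventually (by simp)).mono fun y hy => hy.differentiableAt (by simp)
    have h2 : ∀ᶠ y in 𝓝 x, DifferentiableAt ℝ f (y j) :=
      (hproj x j).continuousAt.eventually h1
    by_cases hj : j = i
    · have h3 : ContDiffAt ℝ ∞ (deriv f) (x j) := by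
        have := hf.fderiv_right (m := ∞) (by simp)
        have h4 : ContDiffAt ℝ ∞ (fun t => fderiv ℝ f t 1) (x j) := this.clm_apply contDiffAt_const
        exact h4
      have h5 := ih (M := M) (f := deriv f) (x := x) (j := j) h3 (fun n hn => by
        have := h (n + 1) (by omega)
        rwa [iteratedDeriv_succ'] at this)
      refine (h5.congr ?_).bd
      filter_upwards [h2] with y hy
      rw [pd_coord hy, if_pos hj]
    · refine JB.mono hM (JB.congr ?_ JB.zero)
      filter_upwards [h2] with y hy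
      rw [pd_coord hy, if_neg hj]

end Pool.Agent.J6H20.RL
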