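import Mathlib
import Pool.Agent.J6H20.RL.Jet

/-!
# The nodal correction

`L f = f_TT + f_YY + k f_ss + b0 f_T + b1 f_Y + b2 f_s`. If `L R + c R = e` with a small `e` and the nodal set of
`R` is regular then `R - R^2 H / 2`, `H = e Psi / (R^2 + Q)`, `Q = R_T^2 + R_Y^2 + k R_s^2`, satisfies
`|L R1 + c R1| <= eps |R1|` where `Psi = 1`.
-/

set_option autoImplicit false

open Filter Topology
open scoped ContDiff

namespace Pool.Agent.J6H20.RL

theorem pd2_mul {f g : V → ℝ} {x : V} (hf : SA f x) (hg : SA g x) (i : Fin 3) :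
    pd i (pd i (fun y => f y * g y)) x =
      pd i (pd i f) x * g x + 2 * (pd i f x * pd i g x) + f x * pd i (pd i g) x := by
  have h1 : pd i (fun y => f y * g y) =ᶠ[𝓝 x] fun y => pd i f y * g y + f y * pd i g y := by
    filter_upwards [hf.ev_diff, hg.ev_diff] with y h2 h3
    rw [pd_mul h2 h3]
  have d1 : DifferentiableAt ℝ (fun y => pd i f y * g y) x := (hf.pd i).diff.mul hg.diff
  have d2 : DifferentiableAt ℝ (fun y => f y * pd i g y) x := hf.diff.mul (hg.pd i).diff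
  rw [(pd_congr h1 i).eq_of_nhds, pd_add d1 d2,
    pd_mul (hf.pd i).diff hg.diff, pd_mul hf.diff (hg.pd i).diff]
  ring

theorem pd2_add {f g : V → ℝ} {x : V} (hf : SA f x) (hg : SA g x) (i : Fin 3) :
    pd i (pd i (fun y => f y + g y)) x = pd i (pd i f) x + pd i (pd i g) x := by
  have h1 : pd i (fun y => f y + g y) =ᶠ[𝓝 x] fun y => pd i f y + pd i g y := by
    filter_upwards [hf.ev_diff, hg.ev_diff] with y h2 h3
    rw [pd_add h2 h3]
  rw [(pd_congr h1 i).eq_of_nhds, pd_add (hf.pd i).diff (hg.pd i).diff]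

theorem pd2_sub {f g : V → ℝ} {x : V} (hf : SA f x) (hg : SA g x) (i : Fin 3) :
    pd i (pd i (fun y => f y - g y)) x = pd i (pd i f) x - pd i (pd i g) x := by
  have h1 : pd i (fun y => f y - g y) =ᶠ[𝓝 x] fun y => pd i f y - pd i g y := by
    filter_upwards [hf.ev_diff, hg.ev_diff] with y h2 h3
    rw [pd_sub h2 h3]
  rw [(pd_congr h1 i).eq_of_nhds, pd_sub (hf.pd i).diff (hg.pd i).diff]

theorem pd_cmul {f : V → ℝ} {x : V} (c : ℝ) (hf : DifferentiableAt ℝ f x) (i : Fin 3) :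
    pd i (fun y => c * f y) x = c * pd i f x := by
  rw [pd_mul (differentiableAt_const c) hf, pd_const]; ring

theorem pd2_cmul {f : V → ℝ} {x : V} (c : ℝ) (hf : SA f x) (i : Fin 3) :
    pd i (pd i (fun y => c * f y)) x = c * pd i (pd i f) x := by
  have h1 : pd i (fun y => c * f y) =ᶠ[𝓝 x] fun y => c * pd i f y := by
    filter_upwards [hf.ev_diff] with y h2
    rw [pd_cmul c h2]
  rw [(pd_congr h1 i).eq_of_nhds, pd_cmul c (hf.pd i).diff]

theorem pd2_congr {f g : V → ℝ} {x : V} (h : f =ᶠ[𝓝 x] g) (i : Fin 3) : pd i (pd i f) x = pd i (pd i g) x :=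
  (pd_congr (pd_congr h i) i).eq_of_nhds

/-- the operator at a point -/
noncomputable def Lo (k b0 b1 b2 : ℝ) (f : V → ℝ) (x : V) : ℝ :=
  pd 0 (pd 0 f) x + pd 1 (pd 1 f) x + k * pd 2 (pd 2 f) x + b0 * pd 0 f x + b1 * pd 1 f x + b2 * pd 2 f x

/-- the gradient form at a point -/
noncomputable def Ga (k : ℝ) (f g : V → ℝ) (x : V) : ℝ :=
  pd 0 f x * pd 0 g x + pd 1 f x * pd 1 g x + k * (pd 2 f x * pd 2 g x)

theorem Lo_mul (k b0 b1 b2 : ℝ) {f g : V → ℝ} {x : V} (hf : SA f x) (hg : SA g x) :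
    Lo k b0 b1 b2 (fun y => f y * g y) x =
      f x * Lo k b0 b1 b2 g x + g x * Lo k b0 b1 b2 f x + 2 * Ga k f g x := by
  simp only [Lo, Ga, pd2_mul hf hg, pd_mul hf.diff hg.diff]
  ring

theorem Lo_sub (k b0 b1 b2 : ℝ) {f g : V → ℝ} {x : V} (hf : SA f x) (hg : SA g x) :
    Lo k b0 b1 b2 (fun y => f y - g y) x = Lo k b0 b1 b2 f x - Lo k b0 b1 b2 g x := by
  simp only [Lo, pd2_sub hf hg, pd_sub hf.diff hg.diff]
  ring

theorem Lo_add (k b0 b1 b2 : ℝ) {f g : V → ℝ} {x : V} (hf : SA f x) (hg : SA g x) :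
    Lo k b0 b1 b2 (fun y => f y + g y) x = Lo k b0 b1 b2 f x + Lo k b0 b1 b2 g x := by
  simp only [Lo, pd2_add hf hg, pd_add hf.diff hg.diff]
  ring

theorem Lo_cmul (k b0 b1 b2 c : ℝ) {f : V → ℝ} {x : V} (hf : SA f x) :
    Lo k b0 b1 b2 (fun y => c * f y) x = c * Lo k b0 b1 b2 f x := by
  simp only [Lo, pd2_cmul c hf, pd_cmul c hf.diff]
  ring

theorem Lo_congr (k b0 b1 b2 : ℝ) {f g : V → ℝ} {x : V} (h : f =ᶠ[𝓝 x] g) :
    Lo k b0 b1 b2 f x = Lo k b0 b1 b2 g x := by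
  simp only [Lo, pd2_congr h, (pd_congr h _).eq_of_nhds]

/-- gradient squared -/
noncomputable def Qf (κ : V → ℝ) (R : V → ℝ) (x : V) : ℝ :=
  pd 0 R x * pd 0 R x + pd 1 R x * pd 1 R x + κ x * (pd 2 R x * pd 2 R x)

/-- the density of the correction -/
noncomputable def Hf (κ e Ψ R : V → ℝ) (x : V) : ℝ := e x * Ψ x * (R x * R x + Qf κ R x)⁻¹

/-- the corrected function -/
noncomputable def Rc (κ e Ψ R : V → ℝ) (x : V) : ℝ := R x - 1 / 2 * (R x * R x * Hf κ e Ψ R x)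

theorem Qf_JC {κ R : V → ℝ} {x : V} {C : ℝ} (hC : 1 ≤ C) (hκ : JC 2 C κ x) (hR : JC 3 C R x) :
    JC 2 (100 * C ^ 3) (Qf κ R) x := by
  have h0 := (hR.pd 0).mul (hR.pd 0)
  have h1 := (hR.pd 1).mul (hR.pd 1)
  have h2 := hκ.mul ((hR.pd 2).mul (hR.pd 2))
  have := (h0.add h1).add h2
  refine this.mono ?_
  have h3 : C * C ≤ C ^ 3 := by nlinarith [mul_pos (show 0 < C by linarith) (show 0 < C by linarith)]
  have h4 : C * (C * C) = C ^ 3 := by ring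
  norm_num
  nlinarith

/-- bounds for the density -/
theorem Hf_JC (C c0 : ℝ) (hC : 1 ≤ C) (hc0 : 0 < c0) : ∃ N : ℝ, 1 ≤ N ∧ ∀ (κ e Ψ R : V → ℝ) (x : V) (η : ℝ), 0 ≤ η →
    JC 2 C κ x → JC 3 C R x → JC 2 η e x → JC 2 C Ψ x → c0 ≤ R x * R x + Qf κ R x →
    JC 2 (N * η) (Hf κ e Ψ R) x := by
  obtain ⟨N, hN, h⟩ := JC.inv 2 (4 * (C * C) + 100 * C ^ 3) c0 hc0
  refine ⟨max 1 (4 * (4 * C * N)), le_max_left _ _, fun κ e Ψ R x η hη hκ hR he hΨ hc => ?_⟩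
  have h1 : JC 2 (4 * (C * C) + 100 * C ^ 3) (fun y => R y * R y + Qf κ R y) x := by
    have := ((hR.le (by norm_num : 2 ≤ 3)).mul (hR.le (by norm_num : 2 ≤ 3))).add (Qf_JC hC hκ hR)
    refine this.mono (by norm_num)
  have h2 := h _ x h1 hc
  have h3 := (he.mul hΨ).mul h2
  refine h3.mono ?_
  have : 2 ^ 2 * (2 ^ 2 * (η * C) * N) = (4 * (4 * C * N)) * η := by ring
  rw [this]
  exact mul_le_mul_of_nonneg_right (le_max_right _ _) hη

/-- **Nodal correction.** -/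
theorem nodal (C c0 ε : ℝ) (hC : 1 ≤ C) (hc0 : 0 < c0) (hε : 0 < ε) : ∃ η : ℝ, 0 < η ∧
    ∀ (κ e Ψ R : V → ℝ) (x : V) (b0 b1 b2 c : ℝ),
      JC 2 C κ x → JC 3 C R x → JC 2 η e x → JC 2 C Ψ x → c0 ≤ R x * R x + Qf κ R x →
      |b0| ≤ C → |b1| ≤ C → |b2| ≤ C → |c| ≤ C →
      SA (Rc κ e Ψ R) x ∧
      |(Lo (κ x) b0 b1 b2 (Rc κ e Ψ R) x + c * Rc κ e Ψ R x)
        - (Lo (κ x) b0 b1 b2 R x + c * R x) + e x * Ψ x| ≤ ε * |R x| ∧
      |R x| ≤ 2 * |Rc κ e Ψ R x| ∧ |Rc κ e Ψ R x| ≤ 2 * |R x| := by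
  obtain ⟨N, hN, hH⟩ := Hf_JC C c0 hC hc0
  set η : ℝ := min 1 (min (1 / (C * N)) (ε / (40 * C ^ 3 * N))) with hη_def
  have hC0 : 0 < C := by linarith
  have hN0 : 0 < N := by linarith
  have hη : 0 < η := by rw [hη_def]; positivity
  have hη2 : η * (C * N) ≤ 1 := by
    have : η ≤ 1 / (C * N) := (min_le_right _ _).trans (min_le_left _ _)
    rw [le_div_iff₀ (by positivity)] at this; exact this
  have hη3 : η * (40 * C ^ 3 * N) ≤ ε := by
    have : η ≤ ε / (40 * C ^ 3 * N) := (min_le_right _ _).trans (min_le_right _ _)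
    rw [le_div_iff₀ (by positivity)] at this; exact this
  refine ⟨η, hη, fun κ e Ψ R x b0 b1 b2 c hκ hR he hΨ hc hb0 hb1 hb2 hcc => ?_⟩
  have hH1 := hH κ e Ψ R x η hη.le hκ hR he hΨ hc
  set H := Hf κ e Ψ R with hHdef
  have hRR : SA (fun y => R y * R y) x := hR.sm.mul hR.sm
  have hG : SA (fun y => R y * R y * H y) x := hRR.mul hH1.sm
  have hG2 : SA (fun y => 1 / 2 * (R y * R y * H y)) x := contDiffAt_const.mul hG
  have hRc : Rc κ e Ψ R = fun y => R y - 1 / 2 * (R y * R y * H y) := rfl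
  have hsm : SA (Rc κ e Ψ R) x := by rw [hRc]; exact hR.sm.sub hG2
  have hkey : Lo (κ x) b0 b1 b2 (Rc κ e Ψ R) x =
      Lo (κ x) b0 b1 b2 R x - 1 / 2 * (R x * R x * Lo (κ x) b0 b1 b2 H x
        + H x * (2 * R x * Lo (κ x) b0 b1 b2 R x + 2 * Ga (κ x) R R x) + 4 * R x * Ga (κ x) R H x) := by
    rw [hRc, Lo_sub _ _ _ _ hR.sm hG2, Lo_cmul _ _ _ _ _ hG, Lo_mul _ _ _ _ hRR hH1.sm, Lo_mul _ _ _ _ hR.sm hR.sm]
    have : Ga (κ x) (fun y => R y * R y) H x = 2 * R x * Ga (κ x) R H x := by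
      simp only [Ga, pd_mul hR.sm.diff hR.sm.diff]; ring
    rw [this]
    ring
  have hQ : Ga (κ x) R R x = Qf κ R x := rfl
  have hHQ : H x * (R x * R x + Qf κ R x) = e x * Ψ x := by
    rw [hHdef]; simp only [Hf]
    have : R x * R x + Qf κ R x ≠ 0 := by linarith
    rw [mul_assoc, inv_mul_cancel₀ this, mul_one]
  -- values
  have vR := hR.val
  have v0 := (hR.pd 0).val
  have v1 := (hR.pd 1).val
  have v2 := (hR.pd 2).val
  have w0 := ((hR.pd 0).pd 0).val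
  have w1 := ((hR.pd 1).pd 1).val
  have w2 := ((hR.pd 2).pd 2).val
  have vk := hκ.val
  have vH := hH1.val
  have u0 := (hH1.pd 0).val
  have u1 := (hH1.pd 1).val
  have u2 := (hH1.pd 2).val
  have t0 := ((hH1.pd 0).pd 0).val
  have t1 := ((hH1.pd 1).pd 1).val
  have t2 := ((hH1.pd 2).pd 2).val
  have hNη : 0 ≤ N * η := by positivity
  have hC2 : C ≤ C ^ 2 := by nlinarith
  have hC3 : C ^ 2 ≤ C ^ 3 := by nlinarith [sq_nonneg C]
  have am : ∀ {a b A B : ℝ}, |a| ≤ A → |b| ≤ B → 0 ≤ A → |a * b| ≤ A * B := by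
    intro a b A B h1 h2 h3
    rw [abs_mul]; exact mul_le_mul h1 h2 (abs_nonneg _) h3
  have hLR : |Lo (κ x) b0 b1 b2 R x| ≤ 6 * C ^ 2 := by
    have e2 := am vk w2 hC0.le
    have e3 := am hb0 v0 hC0.le
    have e4 := am hb1 v1 hC0.le
    have e5 := am hb2 v2 hC0.le
    simp only [Lo]
    have := abs_add_le (pd 0 (pd 0 R) x + pd 1 (pd 1 R) x + κ x * pd 2 (pd 2 R) x + b0 * pd 0 R x + b1 * pd 1 R x) (b2 * pd 2 R x)
    have := abs_add_le (pd 0 (pd 0 R) x + pd 1 (pd 1 R) x + κ x * pd 2 (pd 2 R) x + b0 * pd 0 R x) (b1 * pd 1 R x)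
    have := abs_add_le (pd 0 (pd 0 R) x + pd 1 (pd 1 R) x + κ x * pd 2 (pd 2 R) x) (b0 * pd 0 R x)
    have := abs_add_le (pd 0 (pd 0 R) x + pd 1 (pd 1 R) x) (κ x * pd 2 (pd 2 R) x)
    have := abs_add_le (pd 0 (pd 0 R) x) (pd 1 (pd 1 R) x)
    have : C * C = C ^ 2 := by ring
    linarith
  have hLH : |Lo (κ x) b0 b1 b2 H x| ≤ 6 * C * (N * η) := by
    have e2 := am vk t2 hC0.le
    have e3 := am hb0 u0 hC0.le
    have e4 := am hb1 u1 hC0.le
    have e5 := am hb2 u2 hC0.le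
    simp only [Lo]
    have := abs_add_le (pd 0 (pd 0 H) x + pd 1 (pd 1 H) x + κ x * pd 2 (pd 2 H) x + b0 * pd 0 H x + b1 * pd 1 H x) (b2 * pd 2 H x)
    have := abs_add_le (pd 0 (pd 0 H) x + pd 1 (pd 1 H) x + κ x * pd 2 (pd 2 H) x + b0 * pd 0 H x) (b1 * pd 1 H x)
    have := abs_add_le (pd 0 (pd 0 H) x + pd 1 (pd 1 H) x + κ x * pd 2 (pd 2 H) x) (b0 * pd 0 H x)
    have := abs_add_le (pd 0 (pd 0 H) x + pd 1 (pd 1 H) x) (κ x * pd 2 (pd 2 H) x)
    have := abs_add_le (pd 0 (pd 0 H) x) (pd 1 (pd 1 H) x)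
    have : N * η ≤ C * (N * η) := le_mul_of_one_le_left hNη hC
    linarith
  have hGa : |Ga (κ x) R H x| ≤ 3 * C ^ 2 * (N * η) := by
    have e0 := am v0 u0 hC0.le
    have e1 := am v1 u1 hC0.le
    have e2 := am vk (am v2 u2 hC0.le) hC0.le
    simp only [Ga]
    have := abs_add_le (pd 0 R x * pd 0 H x + pd 1 R x * pd 1 H x) (κ x * (pd 2 R x * pd 2 H x))
    have := abs_add_le (pd 0 R x * pd 0 H x) (pd 1 R x * pd 1 H x)
    have : C * (N * η) ≤ C ^ 2 * (N * η) := mul_le_mul_of_nonneg_right hC2 hNη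
    have : C * (C * (N * η)) = C ^ 2 * (N * η) := by ring
    linarith
  refine ⟨hsm, ?_, ?_, ?_⟩
  · have hident : (Lo (κ x) b0 b1 b2 (Rc κ e Ψ R) x + c * Rc κ e Ψ R x)
        - (Lo (κ x) b0 b1 b2 R x + c * R x) + e x * Ψ x =
        R x * (R x * H x - H x * Lo (κ x) b0 b1 b2 R x - 2 * Ga (κ x) R H x
          - 1 / 2 * (R x * Lo (κ x) b0 b1 b2 H x) - 1 / 2 * (c * (R x * H x))) := by
      rw [hkey, hQ, ← hHQ, hRc]
      ring
    rw [hident, abs_mul, mul_comm]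
    refine mul_le_mul_of_nonneg_right ?_ (abs_nonneg _)
    have a1 := am vR vH hC0.le
    have a2 := am vH hLR hNη
    have a3 := am vR hLH hC0.le
    have a4 := am hcc a1 hC0.le
    have s1 := abs_sub (R x * H x - H x * Lo (κ x) b0 b1 b2 R x - 2 * Ga (κ x) R H x
          - 1 / 2 * (R x * Lo (κ x) b0 b1 b2 H x)) (1 / 2 * (c * (R x * H x)))
    have s2 := abs_sub (R x * H x - H x * Lo (κ x) b0 b1 b2 R x - 2 * Ga (κ x) R H x)
          (1 / 2 * (R x * Lo (κ x) b0 b1 b2 H x))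
    have s3 := abs_sub (R x * H x - H x * Lo (κ x) b0 b1 b2 R x) (2 * Ga (κ x) R H x)
    have s4 := abs_sub (R x * H x) (H x * Lo (κ x) b0 b1 b2 R x)
    have m1 : |1 / 2 * (c * (R x * H x))| = 1 / 2 * |c * (R x * H x)| := by rw [abs_mul]; norm_num
    have m2 : |1 / 2 * (R x * Lo (κ x) b0 b1 b2 H x)| = 1 / 2 * |R x * Lo (κ x) b0 b1 b2 H x| := by rw [abs_mul]; norm_num
    have m3 : |2 * Ga (κ x) R H x| = 2 * |Ga (κ x) R H x| := by rw [abs_mul]; norm_num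
    have b1 : C * (N * η) ≤ C ^ 3 * (N * η) := mul_le_mul_of_nonneg_right (hC2.trans hC3) hNη
    have b2 : C ^ 2 * (N * η) ≤ C ^ 3 * (N * η) := mul_le_mul_of_nonneg_right hC3 hNη
    have hfin : 40 * (C ^ 3 * (N * η)) ≤ ε := by
      calc 40 * (C ^ 3 * (N * η)) = η * (40 * C ^ 3 * N) := by ring
        _ ≤ ε := hη3
    have p : 0 ≤ C ^ 3 * (N * η) := by positivity
    have q2 : N * η * (6 * C ^ 2) = 6 * (C ^ 2 * (N * η)) := by ring
    have q3 : C * (6 * C * (N * η)) = 6 * (C ^ 2 * (N * η)) := by ring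
    have q4 : C * (C * (N * η)) = C ^ 2 * (N * η) := by ring
    rw [q2] at a2
    rw [q3] at a3
    rw [q4] at a4
    rw [m1] at s1
    rw [m2] at s2
    rw [m3] at s3
    linarith
  · have hRH : |R x * H x| ≤ 1 := by
      have := am vR vH hC0.le
      calc _ ≤ C * (N * η) := this
        _ = η * (C * N) := by ring
        _ ≤ 1 := hη2
    have h2 : Rc κ e Ψ R x = R x * (1 - 1 / 2 * (R x * H x)) := by rw [hRc]; ring
    rw [h2, abs_mul]
    have h3 : 1 / 2 ≤ |1 - 1 / 2 * (R x * H x)| := by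
      rw [abs_le] at hRH
      rw [abs_of_nonneg (by linarith [hRH.2])]
      linarith [hRH.2]
    nlinarith [abs_nonneg (R x)]
  · have hRH : |R x * H x| ≤ 1 := by
      have := am vR vH hC0.le
      calc _ ≤ C * (N * η) := this
        _ = η * (C * N) := by ring
        _ ≤ 1 := hη2
    have h2 : Rc κ e Ψ R x = R x * (1 - 1 / 2 * (R x * H x)) := by rw [hRc]; ring
    rw [h2, abs_mul]
    have h3 : |1 - 1 / 2 * (R x * H x)| ≤ 2 := by
      rw [abs_le] at hRH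
      rw [abs_le]; constructor <;> linarith [hRH.1, hRH.2]
    nlinarith [abs_nonneg (R x)]

end Pool.Agent.J6H20.RL
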