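import Mathlib
import Pool.Agent.J6H20.RL.NC

/-!
# The nodal correction at the scale `E`
-/

set_option autoImplicit false

open Filter Topology
open scoped ContDiff

namespace Pool.Agent.J6H20.RL

theorem Rc_scale {κ e Ψ R : V → ℝ} {x : V} {E : ℝ} (hE : 0 < E) (hR : SA R x) :
    Rc κ (fun y => E⁻¹ * e y) Ψ (fun y => E⁻¹ * R y) =ᶠ[𝓝 x] fun y => E⁻¹ * Rc κ e Ψ R y := by
  filter_upwards [hR.ev_diff] with y hy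
  simp only [Rc, Hf, Qf, pd_cmul _ hy]
  have h1 : E⁻¹ * R y * (E⁻¹ * R y) + (E⁻¹ * pd 0 R y * (E⁻¹ * pd 0 R y) + E⁻¹ * pd 1 R y * (E⁻¹ * pd 1 R y) +
      κ y * (E⁻¹ * pd 2 R y * (E⁻¹ * pd 2 R y))) = (E * E)⁻¹ * (R y * R y + (pd 0 R y * pd 0 R y + pd 1 R y * pd 1 R y +
      κ y * (pd 2 R y * pd 2 R y))) := by
    rw [mul_inv]; ring
  rw [h1, mul_inv, inv_inv]
  have h2 : E⁻¹ * E = 1 := inv_mul_cancel₀ hE.ne'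
  have h3 : ∀ z : ℝ, E⁻¹ * R y * (E⁻¹ * R y) * (E⁻¹ * e y * Ψ y * (E * E * z)) =
      (E⁻¹ * E) * (E⁻¹ * E) * (E⁻¹ * (R y * R y * (e y * Ψ y * z))) := by intro z; ring
  rw [h3, h2]; ring

/-- **Nodal correction**, scale `E`. -/
theorem nodalE (C c0 ε : ℝ) (hC : 1 ≤ C) (hc0 : 0 < c0) (hε : 0 < ε) : ∃ η : ℝ, 0 < η ∧
    ∀ (κ e Ψ R : V → ℝ) (x : V) (b0 b1 b2 c E : ℝ), 0 < E →
      JC 2 C κ x → JC 3 (C * E) R x → JC 2 (η * E) e x → JC 2 C Ψ x → c0 * E ^ 2 ≤ R x * R x + Qf κ R x →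
      |b0| ≤ C → |b1| ≤ C → |b2| ≤ C → |c| ≤ C →
      SA (Rc κ e Ψ R) x ∧
      |(Lo (κ x) b0 b1 b2 (Rc κ e Ψ R) x + c * Rc κ e Ψ R x)
        - (Lo (κ x) b0 b1 b2 R x + c * R x) + e x * Ψ x| ≤ ε * |R x| ∧
      |R x| ≤ 2 * |Rc κ e Ψ R x| ∧ |Rc κ e Ψ R x| ≤ 2 * |R x| := by
  obtain ⟨η, hη, h⟩ := nodal C c0 ε hC hc0 hε
  refine ⟨η, hη, fun κ e Ψ R x b0 b1 b2 c E hE hκ hR he hΨ hc hb0 hb1 hb2 hcc => ?_⟩
  have hE' : |E⁻¹| = E⁻¹ := abs_of_pos (inv_pos.2 hE)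
  have h2 : E⁻¹ * E = 1 := inv_mul_cancel₀ hE.ne'
  have hR' : JC 3 C (fun y => E⁻¹ * R y) x := (hR.cmul E⁻¹).mono (by
    rw [hE']; have : E⁻¹ * (C * E) = C * (E⁻¹ * E) := by ring
    rw [this, h2]; linarith)
  have he' : JC 2 η (fun y => E⁻¹ * e y) x := (he.cmul E⁻¹).mono (by
    rw [hE']; have : E⁻¹ * (η * E) = η * (E⁻¹ * E) := by ring
    rw [this, h2]; linarith)
  have hQ : Qf κ (fun y => E⁻¹ * R y) x = (E⁻¹ * E⁻¹) * Qf κ R x := by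
    simp only [Qf, pd_cmul _ hR.sm.diff]; ring
  have hc' : c0 ≤ E⁻¹ * R x * (E⁻¹ * R x) + Qf κ (fun y => E⁻¹ * R y) x := by
    rw [hQ]
    have h3 : E⁻¹ * R x * (E⁻¹ * R x) + E⁻¹ * E⁻¹ * Qf κ R x = (E⁻¹ * E⁻¹) * (R x * R x + Qf κ R x) := by ring
    rw [h3]
    have h4 : c0 = (E⁻¹ * E⁻¹) * (c0 * E ^ 2) := by
      have : (E⁻¹ * E⁻¹) * (c0 * E ^ 2) = c0 * (E⁻¹ * E) * (E⁻¹ * E) := by ring
      rw [this, h2]; ring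
    calc c0 = (E⁻¹ * E⁻¹) * (c0 * E ^ 2) := h4
      _ ≤ _ := mul_le_mul_of_nonneg_left hc (by positivity)
  obtain ⟨s1, s2, s3, s4⟩ := h κ (fun y => E⁻¹ * e y) Ψ (fun y => E⁻¹ * R y) x b0 b1 b2 c hκ hR' he' hΨ hc' hb0 hb1 hb2 hcc
  have hev := Rc_scale (κ := κ) (e := e) (Ψ := Ψ) hE hR.sm
  have hev' : Rc κ e Ψ R =ᶠ[𝓝 x] fun y => E * Rc κ (fun y => E⁻¹ * e y) Ψ (fun y => E⁻¹ * R y) y := by
    filter_upwards [hev] with y hy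
    rw [hy]
    have : E * (E⁻¹ * Rc κ e Ψ R y) = (E⁻¹ * E) * Rc κ e Ψ R y := by ring
    rw [this, h2, one_mul]
  have hsm : SA (Rc κ e Ψ R) x := (contDiffAt_const.mul s1).congr_of_eventuallyEq hev'
  have hLo : Lo (κ x) b0 b1 b2 (Rc κ e Ψ R) x =
      E * Lo (κ x) b0 b1 b2 (Rc κ (fun y => E⁻¹ * e y) Ψ (fun y => E⁻¹ * R y)) x := by
    rw [Lo_congr _ _ _ _ hev', Lo_cmul _ _ _ _ _ s1]
  have hLR : Lo (κ x) b0 b1 b2 (fun y => E⁻¹ * R y) x = E⁻¹ * Lo (κ x) b0 b1 b2 R x := Lo_cmul _ _ _ _ _ hR.sm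
  have hv := hev'.eq_of_nhds
  refine ⟨hsm, ?_, ?_, ?_⟩
  · rw [hLo, hv]
    have h5 : E * Lo (κ x) b0 b1 b2 (Rc κ (fun y => E⁻¹ * e y) Ψ (fun y => E⁻¹ * R y)) x
        + c * (E * Rc κ (fun y => E⁻¹ * e y) Ψ (fun y => E⁻¹ * R y) x) - (Lo (κ x) b0 b1 b2 R x + c * R x) + e x * Ψ x
        = E * (Lo (κ x) b0 b1 b2 (Rc κ (fun y => E⁻¹ * e y) Ψ (fun y => E⁻¹ * R y)) x
        + c * Rc κ (fun y => E⁻¹ * e y) Ψ (fun y => E⁻¹ * R y) x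
        - (Lo (κ x) b0 b1 b2 (fun y => E⁻¹ * R y) x + c * (E⁻¹ * R x)) + E⁻¹ * e x * Ψ x) := by
      rw [hLR]
      have h6 : ∀ a b d f : ℝ, E * (a - (E⁻¹ * b + c * (E⁻¹ * d)) + E⁻¹ * e x * f) =
          E * a - ((E⁻¹ * E) * b + c * ((E⁻¹ * E) * d)) + (E⁻¹ * E) * (e x * f) := by intros; ring
      rw [h6, h2]; ring
    rw [h5, abs_mul, abs_of_pos hE]
    calc E * _ ≤ E * (ε * |E⁻¹ * R x|) := mul_le_mul_of_nonneg_left s2 hE.le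
      _ = (E⁻¹ * E) * (ε * |R x|) := by rw [abs_mul, hE']; ring
      _ = ε * |R x| := by rw [h2, one_mul]
  · rw [hv, abs_mul, abs_of_pos hE]
    rw [abs_mul, hE'] at s3
    calc |R x| = E * (E⁻¹ * |R x|) := by
          have : E * (E⁻¹ * |R x|) = (E⁻¹ * E) * |R x| := by ring
          rw [this, h2, one_mul]
      _ ≤ E * (2 * |Rc κ (fun y => E⁻¹ * e y) Ψ (fun y => E⁻¹ * R y) x|) := mul_le_mul_of_nonneg_left s3 hE.le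
      _ = _ := by ring
  · rw [hv, abs_mul, abs_of_pos hE]
    rw [abs_mul, hE'] at s4
    calc E * |Rc κ (fun y => E⁻¹ * e y) Ψ (fun y => E⁻¹ * R y) x| ≤ E * (2 * (E⁻¹ * |R x|)) :=
          mul_le_mul_of_nonneg_left s4 hE.le
      _ = 2 * ((E⁻¹ * E) * |R x|) := by ring
      _ = 2 * |R x| := by rw [h2, one_mul]

end Pool.Agent.J6H20.RL
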