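import Mathlib
import Pool.Agent.J6H20.RL.NCS
import Pool.Agent.J6H20.RL.Chi
import Pool.Agent.J6H20.RL.HD

/-!
# Tools for jets: functions of one scaled coordinate, products, exponential factors
-/

set_option autoImplicit false

open Filter Topology
open scoped ContDiff

namespace Pool.Agent.J6H20.RL

theorem deriv_smoothAt {F : ℝ → ℝ} {t : ℝ} (h : ContDiffAt ℝ ∞ F t) : ContDiffAt ℝ ∞ (deriv F) t := by
  have := h.fderiv_right (m := ∞) (by simp)
  have h4 : ContDiffAt ℝ ∞ (fun t => fderiv ℝ F t 1) t := this.clm_apply contDiffAt_const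
  exact h4

theorem ev_diffR {F : ℝ → ℝ} {t : ℝ} (h : ContDiffAt ℝ ∞ F t) : ∀ᶠ y in 𝓝 t, DifferentiableAt ℝ F y := by
  have h1 : ContDiffAt ℝ 1 F t := h.of_le (by exact_mod_cast le_top)
  exact (h1.eventually (by simp)).mono fun y hy => hy.differentiableAt (by simp)

theorem compact_bound1 {F : ℝ → ℝ} {a b : ℝ} (hF : ∀ t ∈ Set.Icc a b, ContDiffAt ℝ ∞ F t) (k : ℕ) :
    ∃ C : ℝ, 1 ≤ C ∧ ∀ t ∈ Set.Icc a b, |iteratedDeriv k F t| ≤ C := by
  have hcont : ContinuousOn (iteratedDeriv k F) (Set.Icc a b) := by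
    intro y hy
    have h1 : ContDiffAt ℝ k F y := (contDiffAt_infty.1 (hF y hy)) k
    have h2 : ContinuousAt (iteratedFDeriv ℝ k F) y := by
      have := h1.iteratedFDeriv_right (m := 0) (i := k) (by simp)
      exact this.continuousAt
    have h3 : ContinuousAt (iteratedDeriv k F) y := by
      have : iteratedDeriv k F = fun y => iteratedFDeriv ℝ k F y (fun _ => 1) := by
        funext y; rw [iteratedDeriv_eq_iteratedFDeriv]
      rw [this]
      exact (ContinuousMultilinearMap.apply ℝ (fun _ : Fin k => ℝ) ℝ (fun _ => 1)).continuous.continuousAt.comp h2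
    exact h3.continuousWithinAt
  obtain ⟨C, hC⟩ := isCompact_Icc.exists_bound_of_continuousOn hcont
  refine ⟨max C 1, le_max_right _ _, fun Y hY => ?_⟩
  have := hC Y hY
  rw [Real.norm_eq_abs] at this
  exact this.trans (le_max_left _ _)

theorem upto {P : ℕ → ℝ → Prop} (hmono : ∀ k C D, C ≤ D → P k C → P k D) (h : ∀ k, ∃ C : ℝ, 1 ≤ C ∧ P k C) (n : ℕ) :
    ∃ C : ℝ, 1 ≤ C ∧ ∀ k ≤ n, P k C := by
  induction n with
  | zero =>
    obtain ⟨C, h1, h2⟩ := h 0
    exact ⟨C, h1, fun k hk => by have : k = 0 := by omega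
                                 subst this; exact h2⟩
  | succ n ih =>
    obtain ⟨C, h1, h2⟩ := ih
    obtain ⟨D, h3, h4⟩ := h (n + 1)
    refine ⟨max C D, le_max_of_le_left h1, fun k hk => ?_⟩
    rcases Nat.lt_or_ge k (n + 1) with h | h
    · exact hmono _ _ _ (le_max_left _ _) (h2 k (by omega))
    · have : k = n + 1 := by omega
      subst this; exact hmono _ _ _ (le_max_right _ _) h4

theorem compact_bounds {F : ℝ → ℝ} {a b : ℝ} (hF : ∀ t ∈ Set.Icc a b, ContDiffAt ℝ ∞ F t) (n : ℕ) :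
    ∃ C : ℝ, 1 ≤ C ∧ ∀ k ≤ n, ∀ t ∈ Set.Icc a b, |iteratedDeriv k F t| ≤ C :=
  upto (P := fun k C => ∀ t ∈ Set.Icc a b, |iteratedDeriv k F t| ≤ C) (fun _ _ _ h1 h2 t ht => (h2 t ht).trans h1)
    (fun k => compact_bound1 hF k) n

/-- smooth functions constant outside of a compact interval -/
theorem step_bounds {F : ℝ → ℝ} {a b c1 c2 : ℝ} (hF : ContDiff ℝ ∞ F) (h1 : ∀ t < a, F t = c1) (h2 : ∀ t > b, F t = c2)
    (n : ℕ) : ∃ C : ℝ, 1 ≤ C ∧ ∀ k ≤ n, ∀ t, |iteratedDeriv k F t| ≤ C := by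
  obtain ⟨C, hC1, hC⟩ := compact_bounds (F := F) (a := a) (b := b) (fun t _ => hF.contDiffAt) n
  have hcst : ∀ (c : ℝ) (k : ℕ) (t : ℝ), F =ᶠ[𝓝 t] (fun _ => c) → |iteratedDeriv k F t| ≤ |c| := by
    intro c k t h
    rw [h.iteratedDeriv_eq k, iteratedDeriv_const]
    split
    · exact le_rfl
    · simp
  refine ⟨max C (max |c1| |c2|), le_max_of_le_left hC1, fun k hk t => ?_⟩
  by_cases ha : t < a
  · exact (hcst c1 k t (by filter_upwards [Iio_mem_nhds ha] with s hs; exact h1 s hs)).trans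
      (le_max_of_le_right (le_max_left _ _))
  · by_cases hb : b < t
    · exact (hcst c2 k t (by filter_upwards [Ioi_mem_nhds hb] with s hs; exact h2 s hs)).trans
        (le_max_of_le_right (le_max_right _ _))
    · exact (hC k hk t ⟨by linarith, by linarith⟩).trans (le_max_left _ _)

theorem coordSA (j : Fin 3) (x : V) : SA (fun y : V => y j) x :=
  (ContinuousLinearMap.proj (R := ℝ) (φ := fun _ : Fin 3 => ℝ) j).contDiff.contDiffAt

theorem SA_sc {F : ℝ → ℝ} {g c : ℝ} {x : V} {j : Fin 3} (hF : ContDiffAt ℝ ∞ F (g * x j + c)) :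
    SA (fun y => F (g * y j + c)) x :=
  ContDiffAt.comp x (g := F) (f := fun y : V => g * y j + c) hF ((contDiffAt_const.mul (coordSA j x)).add contDiffAt_const)

theorem pd_sc {F : ℝ → ℝ} {g c : ℝ} {x : V} {j : Fin 3} (hF : DifferentiableAt ℝ F (g * x j + c)) (i : Fin 3) :
    pd i (fun y => F (g * y j + c)) x = if j = i then g * deriv F (g * x j + c) else 0 := by
  have h1 : HasDerivAt (fun t : ℝ => g * t + c) g (x j) := by
    have := ((hasDerivAt_id (x j)).const_mul g).add_const c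
    simpa using this
  have h2 : HasDerivAt (fun t => F (g * t + c)) (deriv F (g * x j + c) * g) (x j) :=
    hd_comp hF.hasDerivAt h1
  have := pd_coord (f := fun t => F (g * t + c)) (x := x) (j := j) h2.differentiableAt i
  rw [this, h2.deriv, mul_comm]

/-- functions of one scaled coordinate -/
theorem JC.sc {k : ℕ} : ∀ {M g c : ℝ} {F : ℝ → ℝ} {x : V} {j : Fin 3}, |g| ≤ 1 → ContDiffAt ℝ ∞ F (g * x j + c) →
    (∀ n ≤ k, |iteratedDeriv n F (g * x j + c)| ≤ M) → JC k M (fun y => F (g * y j + c)) x := by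
  induction k with
  | zero =>
    intro M g c F x j hg hF h
    refine ⟨SA_sc hF, ?_⟩
    have := h 0 le_rfl
    simpa [JB] using this
  | succ k ih =>
    intro M g c F x j hg hF h
    have hM : 0 ≤ M := (abs_nonneg _).trans (h 0 (Nat.zero_le _))
    refine ⟨SA_sc hF, by simpa using h 0 (Nat.zero_le _), fun i => ?_⟩
    have hcont : Continuous fun y : V => g * y j + c := by fun_prop
    have h2 : ∀ᶠ y in 𝓝 x, DifferentiableAt ℝ F (g * y j + c) :=
      hcont.continuousAt.eventually (ev_diffR hF)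
    by_cases hj : j = i
    · have h5 := (ih (M := M) (F := deriv F) (x := x) (j := j) (c := c) hg (deriv_smoothAt hF) (fun n hn => by
        have := h (n + 1) (by omega)
        rwa [iteratedDeriv_succ'] at this)).cmul g
      have h6 : |g| * M ≤ M := by nlinarith
      refine ((h5.mono h6).congr ?_).bd
      filter_upwards [h2] with y hy
      rw [pd_sc hy, if_pos hj]
    · refine JB.mono hM (JB.congr ?_ JB.zero)
      filter_upwards [h2] with y hy
      rw [pd_sc hy, if_neg hj]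

theorem JC.co {k : ℕ} {M : ℝ} {F : ℝ → ℝ} {x : V} {j : Fin 3} (hF : ContDiffAt ℝ ∞ F (x j))
    (h : ∀ n ≤ k, |iteratedDeriv n F (x j)| ≤ M) : JC k M (fun y => F (y j)) x := JC.coord hF h

/-- bound for the operator -/
theorem Lo_le {k b0 b1 b2 M C : ℝ} {f : V → ℝ} {x : V} (hf : JC 2 M f x) (hk : |k| ≤ C) (h0 : |b0| ≤ C) (h1 : |b1| ≤ C)
    (h2 : |b2| ≤ C) (hC : 1 ≤ C) : |Lo k b0 b1 b2 f x| ≤ 6 * C * M := by
  have w0 := ((hf.pd 0).pd 0).val
  have w1 := ((hf.pd 1).pd 1).val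
  have w2 := ((hf.pd 2).pd 2).val
  have v0 := (hf.pd 0).val
  have v1 := (hf.pd 1).val
  have v2 := (hf.pd 2).val
  have hM := hf.M_nonneg
  have am : ∀ {a b A B : ℝ}, |a| ≤ A → |b| ≤ B → 0 ≤ A → |a * b| ≤ A * B := by
    intro a b A B h1 h2 h3
    rw [abs_mul]; exact mul_le_mul h1 h2 (abs_nonneg _) h3
  have e2 := am hk w2 (by linarith)
  have e3 := am h0 v0 (by linarith)
  have e4 := am h1 v1 (by linarith)
  have e5 := am h2 v2 (by linarith)
  simp only [Lo]
  have := abs_add_le (pd 0 (pd 0 f) x + pd 1 (pd 1 f) x + k * pd 2 (pd 2 f) x + b0 * pd 0 f x + b1 * pd 1 f x) (b2 * pd 2 f x)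
  have := abs_add_le (pd 0 (pd 0 f) x + pd 1 (pd 1 f) x + k * pd 2 (pd 2 f) x + b0 * pd 0 f x) (b1 * pd 1 f x)
  have := abs_add_le (pd 0 (pd 0 f) x + pd 1 (pd 1 f) x + k * pd 2 (pd 2 f) x) (b0 * pd 0 f x)
  have := abs_add_le (pd 0 (pd 0 f) x + pd 1 (pd 1 f) x) (k * pd 2 (pd 2 f) x)
  have := abs_add_le (pd 0 (pd 0 f) x) (pd 1 (pd 1 f) x)
  have : M ≤ C * M := le_mul_of_one_le_left hM hC
  linarith

/-- derivatives of a product of functions of one variable -/
theorem pd_prod {f g k : ℝ → ℝ} {x : V} (hf : DifferentiableAt ℝ f (x 0)) (hg : DifferentiableAt ℝ g (x 1))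
    (hk : DifferentiableAt ℝ k (x 2)) :
    pd 0 (fun y => f (y 0) * g (y 1) * k (y 2)) x = deriv f (x 0) * g (x 1) * k (x 2) ∧
    pd 1 (fun y => f (y 0) * g (y 1) * k (y 2)) x = f (x 0) * deriv g (x 1) * k (x 2) ∧
    pd 2 (fun y => f (y 0) * g (y 1) * k (y 2)) x = f (x 0) * g (x 1) * deriv k (x 2) := by
  have cd : ∀ j : Fin 3, DifferentiableAt ℝ (fun y : V => y j) x := fun j => (coordSA j x).diff
  have d0 : DifferentiableAt ℝ (fun y : V => f (y 0)) x := DifferentiableAt.comp x (g := f) (f := fun y : V => y 0) hf (cd 0)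
  have d1 : DifferentiableAt ℝ (fun y : V => g (y 1)) x := DifferentiableAt.comp x (g := g) (f := fun y : V => y 1) hg (cd 1)
  have d2 : DifferentiableAt ℝ (fun y : V => k (y 2)) x := DifferentiableAt.comp x (g := k) (f := fun y : V => y 2) hk (cd 2)
  have i01 : ((0 : Fin 3) = 1) = False := by decide
  have i02 : ((0 : Fin 3) = 2) = False := by decide
  have i10 : ((1 : Fin 3) = 0) = False := by decide
  have i12 : ((1 : Fin 3) = 2) = False := by decide
  have i20 : ((2 : Fin 3) = 0) = False := by decide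
  have i21 : ((2 : Fin 3) = 1) = False := by decide
  have d01 : DifferentiableAt ℝ (fun y : V => f (y 0) * g (y 1)) x := d0.mul d1
  refine ⟨?_, ?_, ?_⟩ <;>
  · rw [pd_mul d01 d2, pd_mul d0 d1, pd_coord hf, pd_coord hg, pd_coord hk]
    simp only [i01, i02, i10, i12, i20, i21, if_true, if_false]
    ring

theorem Lo_prod {f g k : ℝ → ℝ} {x : V} (hf : ContDiffAt ℝ ∞ f (x 0)) (hg : ContDiffAt ℝ ∞ g (x 1))
    (hk : ContDiffAt ℝ ∞ k (x 2)) (κ b0 b1 b2 : ℝ) :
    Lo κ b0 b1 b2 (fun y => f (y 0) * g (y 1) * k (y 2)) x =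
      deriv (deriv f) (x 0) * g (x 1) * k (x 2) + f (x 0) * deriv (deriv g) (x 1) * k (x 2)
      + κ * (f (x 0) * g (x 1) * deriv (deriv k) (x 2)) + b0 * (deriv f (x 0) * g (x 1) * k (x 2))
      + b1 * (f (x 0) * deriv g (x 1) * k (x 2)) + b2 * (f (x 0) * g (x 1) * deriv k (x 2)) := by
  have dd : ∀ {F : ℝ → ℝ} {t : ℝ}, ContDiffAt ℝ ∞ F t → DifferentiableAt ℝ F t := fun h => h.differentiableAt (by simp)
  have ev : ∀ {F : ℝ → ℝ} {j : Fin 3}, ContDiffAt ℝ ∞ F (x j) → ∀ᶠ y : V in 𝓝 x, DifferentiableAt ℝ F (y j) := by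
    intro F j h
    exact (coordSA j x).continuousAt.eventually (ev_diffR h)
  have e0 := (pd_prod (x := x) (dd hf) (dd hg) (dd hk))
  have all : ∀ᶠ y in 𝓝 x, pd 0 (fun y : V => f (y 0) * g (y 1) * k (y 2)) y = deriv f (y 0) * g (y 1) * k (y 2) ∧
    pd 1 (fun y : V => f (y 0) * g (y 1) * k (y 2)) y = f (y 0) * deriv g (y 1) * k (y 2) ∧
    pd 2 (fun y : V => f (y 0) * g (y 1) * k (y 2)) y = f (y 0) * g (y 1) * deriv k (y 2) := by
    filter_upwards [ev hf, ev hg, ev hk] with y h1 h2 h3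
    exact pd_prod h1 h2 h3
  have s0 : pd 0 (pd 0 (fun y : V => f (y 0) * g (y 1) * k (y 2))) x = deriv (deriv f) (x 0) * g (x 1) * k (x 2) := by
    rw [(pd_congr (f := pd 0 (fun y : V => f (y 0) * g (y 1) * k (y 2))) (g := fun y => deriv f (y 0) * g (y 1) * k (y 2)) (all.mono fun y h => h.1) 0).eq_of_nhds]
    exact (pd_prod (dd (deriv_smoothAt hf)) (dd hg) (dd hk)).1
  have s1 : pd 1 (pd 1 (fun y : V => f (y 0) * g (y 1) * k (y 2))) x = f (x 0) * deriv (deriv g) (x 1) * k (x 2) := by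
    rw [(pd_congr (f := pd 1 (fun y : V => f (y 0) * g (y 1) * k (y 2))) (g := fun y => f (y 0) * deriv g (y 1) * k (y 2)) (all.mono fun y h => h.2.1) 1).eq_of_nhds]
    exact (pd_prod (dd hf) (dd (deriv_smoothAt hg)) (dd hk)).2.1
  have s2 : pd 2 (pd 2 (fun y : V => f (y 0) * g (y 1) * k (y 2))) x = f (x 0) * g (x 1) * deriv (deriv k) (x 2) := by
    rw [(pd_congr (f := pd 2 (fun y : V => f (y 0) * g (y 1) * k (y 2))) (g := fun y => f (y 0) * g (y 1) * deriv k (y 2)) (all.mono fun y h => h.2.2) 2).eq_of_nhds]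
    exact (pd_prod (dd hf) (dd hg) (dd (deriv_smoothAt hk))).2.2
  simp only [Lo, s0, s1, s2, e0.1, e0.2.1, e0.2.2]

/-- derivatives of an exponential -/
theorem pd_exp {f : V → ℝ} {x : V} (hf : DifferentiableAt ℝ f x) (i : Fin 3) :
    pd i (fun y => Real.exp (f y)) x = pd i f x * Real.exp (f x) := by
  have h1 : HasFDerivAt (fun y => Real.exp (f y)) (Real.exp (f x) • fderiv ℝ f x) x :=
    (Real.hasDerivAt_exp (f x)).comp_hasFDerivAt x hf.hasFDerivAt
  simp only [pd]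
  rw [h1.fderiv]
  simp only [smul_apply, smul_eq_mul]
  ring

theorem pd2_exp {f : V → ℝ} {x : V} (hf : SA f x) (i : Fin 3) :
    pd i (pd i (fun y => Real.exp (f y))) x = (pd i (pd i f) x + pd i f x * pd i f x) * Real.exp (f x) := by
  have h1 : pd i (fun y => Real.exp (f y)) =ᶠ[𝓝 x] fun y => pd i f y * Real.exp (f y) := by
    filter_upwards [hf.ev_diff] with y hy
    exact pd_exp hy i
  have h2 : DifferentiableAt ℝ (fun y => Real.exp (f y)) x := hf.diff.exp
  rw [(pd_congr h1 i).eq_of_nhds, pd_mul (hf.pd i).diff h2, pd_exp hf.diff]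
  ring

/-- the flat operator of the geometry -/
noncomputable def Fl (κ po : ℝ) (F : V → ℝ) (x : V) : ℝ :=
  pd 0 (pd 0 F) x + pd 1 (pd 1 F) x + κ * pd 2 (pd 2 F) x + po * F x

theorem Fl_congr (κ po : ℝ) {f g : V → ℝ} {x : V} (h : f =ᶠ[𝓝 x] g) : Fl κ po f x = Fl κ po g x := by
  simp only [Fl, pd2_congr h, h.eq_of_nhds]

/-- the flat operator with an exponential factor -/
theorem Fl_exp {ξ R : V → ℝ} {x : V} (hξ : SA ξ x) (hR : SA R x) (κ po : ℝ) :
    Fl κ po (fun y => Real.exp (ξ y) * R y) x = Real.exp (ξ x) *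
      (Lo κ (2 * pd 0 ξ x) (2 * pd 1 ξ x) (2 * κ * pd 2 ξ x) R x +
        (pd 0 (pd 0 ξ) x + pd 0 ξ x * pd 0 ξ x + (pd 1 (pd 1 ξ) x + pd 1 ξ x * pd 1 ξ x)
          + κ * (pd 2 (pd 2 ξ) x + pd 2 ξ x * pd 2 ξ x) + po) * R x) := by
  have he : SA (fun y => Real.exp (ξ y)) x := hξ.exp
  simp only [Fl, Lo, pd2_mul he hR, pd2_exp hξ, pd_exp hξ.diff]
  ring

end Pool.Agent.J6H20.RL
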