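import Mathlib
import Pool.Agent.J6H20.RL.Slow

/-!
# The pair `sin s + a sin 3s` and its multiplier
-/

set_option autoImplicit false

open Filter Topology
open scoped ContDiff

namespace Pool.Agent.J6H20.RL

/-- `1 - 9a + 12 a cos^2 s` -/
noncomputable def Dn (a : ℝ) (y : V) : ℝ := 1 - 9 * a + 12 * a * (Real.cos (y 2) * Real.cos (y 2))

/-- the phase -/
noncomputable def Ph (a : ℝ) (y : V) : ℝ := -(2 / (3 * (1 - a))) * Real.log (Dn a y)

/-- its derivative in `s` -/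
noncomputable def PhD (a : ℝ) (y : V) : ℝ := (16 * a / (1 - a)) * (Real.cos (y 2) * Real.sin (y 2) * (Dn a y)⁻¹)

theorem JC.cos {k : ℕ} {x : V} {j : Fin 3} : JC k 1 (fun y => Real.cos (y j)) x :=
  JC.coord Real.contDiff_cos.contDiffAt fun n _ => Real.abs_iteratedDeriv_cos_le_one n _

theorem JC.sin {k : ℕ} {x : V} {j : Fin 3} : JC k 1 (fun y => Real.sin (y j)) x :=
  JC.coord Real.contDiff_sin.contDiffAt fun n _ => Real.abs_iteratedDeriv_sin_le_one n _

theorem Dn_ge {a : ℝ} (ha : |a| ≤ 1 / 50) (y : V) : 1 / 2 ≤ Dn a y := by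
  have h1 := abs_le.1 ha
  have h2 : 0 ≤ Real.cos (y 2) * Real.cos (y 2) := mul_self_nonneg _
  have h3 : Real.cos (y 2) * Real.cos (y 2) ≤ 1 := by nlinarith [Real.sin_sq_add_cos_sq (y 2)]
  rw [Dn]
  nlinarith

theorem Dn_close {a : ℝ} (ha : |a| ≤ 1 / 50) (y : V) : |Dn a y - 1| ≤ 21 * |a| := by
  have h2 : 0 ≤ Real.cos (y 2) * Real.cos (y 2) := mul_self_nonneg _
  have h3 : Real.cos (y 2) * Real.cos (y 2) ≤ 1 := by nlinarith [Real.sin_sq_add_cos_sq (y 2)]
  have h4 : Dn a y - 1 = a * (-9 + 12 * (Real.cos (y 2) * Real.cos (y 2))) := by rw [Dn]; ring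
  rw [h4, abs_mul, mul_comm]
  refine mul_le_mul_of_nonneg_right ?_ (abs_nonneg a)
  rw [abs_le]; constructor <;> linarith

theorem Dn_JC {a : ℝ} (ha : |a| ≤ 1 / 50) (x : V) : JC 3 4 (Dn a) x := by
  have h1 := (JC.cos (k := 3) (x := x) (j := 2)).mul (JC.cos (k := 3) (x := x) (j := 2))
  have h2 := (JC.const (k := 3) (c := 1 - 9 * a) (x := x)).add (h1.cmul (12 * a))
  have h3 := abs_le.1 ha
  refine h2.mono ?_
  have h4 : |1 - 9 * a| ≤ 1 + 9 * (1 / 50) := by rw [abs_le]; constructor <;> linarith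
  have h5 : |12 * a| ≤ 12 * (1 / 50) := by
    rw [abs_mul]; norm_num; linarith
  norm_num
  linarith

theorem Ph_SA {a : ℝ} (ha : |a| ≤ 1 / 50) (x : V) : SA (Ph a) x := by
  have h1 := (Dn_JC ha x).sm
  have h2 := Dn_ge ha x
  exact contDiffAt_const.mul (h1.log (by linarith))

theorem Dn_pd (a : ℝ) (x : V) (i : Fin 3) : pd i (Dn a) x = if (2 : Fin 3) = i then -(24 * a * (Real.cos (x 2) * Real.sin (x 2))) else 0 := by
  have h1 : HasDerivAt (fun t : ℝ => 1 - 9 * a + 12 * a * (Real.cos t * Real.cos t)) (-(24 * a * (Real.cos (x 2) * Real.sin (x 2)))) (x 2) := by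
    have h2 := hd_mul (Real.hasDerivAt_cos (x 2)) (Real.hasDerivAt_cos (x 2))
    have h3 := (h2.const_mul (12 * a)).const_add (1 - 9 * a)
    refine h3.congr_deriv ?_
    ring
  have := pd_coord (f := fun t : ℝ => 1 - 9 * a + 12 * a * (Real.cos t * Real.cos t)) (x := x) (j := 2) h1.differentiableAt i
  rw [h1.deriv] at this
  exact this

theorem Ph_pd {a : ℝ} (ha : |a| ≤ 1 / 50) (i : Fin 3) : pd i (Ph a) = fun x => if (2 : Fin 3) = i then PhD a x else 0 := by
  funext x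
  have h2 := Dn_ge ha x
  have h0 : Dn a x ≠ 0 := by linarith
  have hd := (Dn_JC ha x).sm.diff
  have h1 : HasFDerivAt (Ph a) ((-(2 / (3 * (1 - a)))) • ((Dn a x)⁻¹ • fderiv ℝ (Dn a) x)) x :=
    (hd.hasFDerivAt.log h0).const_mul _
  have h3 := Dn_pd a x i
  have ha1 : 1 - a ≠ 0 := by have := abs_le.1 ha; linarith
  simp only [pd] at h3 ⊢
  rw [h1.fderiv]
  simp only [smul_apply, smul_eq_mul]
  rw [h3]
  by_cases hi : (2 : Fin 3) = i
  · rw [if_pos hi, if_pos hi, PhD]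
    field_simp
    ring
  · rw [if_neg hi, if_neg hi]; ring

theorem PhD_JC : ∃ C : ℝ, 1 ≤ C ∧ ∀ a : ℝ, |a| ≤ 1 / 50 → ∀ x : V, JC 3 (C * |a|) (PhD a) x := by
  obtain ⟨N, hN, h⟩ := JC.inv 3 4 (1 / 2) (by norm_num)
  refine ⟨max 1 (17 * (8 * (8 * N))), le_max_left _ _, fun a ha x => ?_⟩
  have h1 := h (Dn a) x (Dn_JC ha x) (Dn_ge ha x)
  have h2 := (((JC.cos (k := 3) (x := x) (j := 2)).mul (JC.sin (k := 3) (x := x) (j := 2))).mul h1).cmul (16 * a / (1 - a))
  refine h2.mono ?_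
  have h3 := abs_le.1 ha
  have h4 : |16 * a / (1 - a)| ≤ 17 * |a| := by
    rw [abs_div, abs_mul, abs_of_pos (by linarith : 0 < 1 - a), div_le_iff₀ (by linarith)]
    have := abs_nonneg a
    norm_num
    nlinarith
  have h5 : (2 : ℝ) ^ 3 * (2 ^ 3 * (1 * 1) * N) = 8 * (8 * N) := by norm_num
  rw [h5]
  calc |16 * a / (1 - a)| * (8 * (8 * N)) ≤ 17 * |a| * (8 * (8 * N)) := mul_le_mul_of_nonneg_right h4 (by positivity)
    _ = 17 * (8 * (8 * N)) * |a| := by ring
    _ ≤ _ := mul_le_mul_of_nonneg_right (le_max_right _ _) (abs_nonneg a)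

theorem Ph_JC : ∃ C : ℝ, 1 ≤ C ∧ ∀ a : ℝ, |a| ≤ 1 / 50 → ∀ x : V, JC 4 (C * |a|) (Ph a) x := by
  obtain ⟨C, hC, h⟩ := PhD_JC
  refine ⟨max C 42, le_max_of_le_left hC, fun a ha x => ⟨Ph_SA ha x, ?_, fun i => ?_⟩⟩
  · have h1 := Dn_ge ha x
    have h2 := Dn_close ha x
    have h0 : 0 < Dn a x := by linarith
    have h3 : |Real.log (Dn a x)| ≤ 42 * |a| := by
      have u := Real.log_le_sub_one_of_pos h0
      have l := Real.one_sub_inv_le_log_of_pos h0
      have h4 := abs_le.1 h2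
      rw [abs_le]
      constructor
      · have : -(42 * |a|) ≤ 1 - (Dn a x)⁻¹ := by
          have h5 : 1 - (Dn a x)⁻¹ = (Dn a x - 1) / Dn a x := by field_simp
          rw [h5, le_div_iff₀ h0]
          have := abs_nonneg a
          nlinarith
        linarith
      · have := abs_nonneg a
        linarith
    have h6 : |-(2 / (3 * (1 - a)))| ≤ 1 := by
      have := abs_le.1 ha
      rw [abs_neg, abs_div, abs_of_pos (by linarith : (0 : ℝ) < 3 * (1 - a)), abs_of_pos (by norm_num : (0 : ℝ) < 2), div_le_one (by linarith)]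
      linarith
    change |Ph a x| ≤ _
    rw [Ph, abs_mul]
    have := abs_nonneg (Real.log (Dn a x))
    calc |-(2 / (3 * (1 - a)))| * |Real.log (Dn a x)| ≤ 1 * (42 * |a|) := mul_le_mul h6 h3 this (by norm_num)
      _ = 42 * |a| := by ring
      _ ≤ _ := mul_le_mul_of_nonneg_right (le_max_right _ _) (abs_nonneg a)
  · rw [Ph_pd ha i]
    by_cases hi : (2 : Fin 3) = i
    · simp only [hi, if_true]
      exact ((h a ha x).mono (mul_le_mul_of_nonneg_right (le_max_left _ _) (abs_nonneg a))).bd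
    · simp only [hi, if_false]
      exact JB.mono (by positivity) JB.zero

/-- **the pair identity** -/
theorem pair_id {a : ℝ} (ha : |a| ≤ 1 / 50) (y : V) :
    (-(Real.sin (y 2)) - 9 * a * Real.sin (3 * y 2)) + 2 * PhD a y * (Real.cos (y 2) + 3 * a * Real.cos (3 * y 2)) =
      -((1 - 9 * a) / (1 - a)) * (Real.sin (y 2) + a * Real.sin (3 * y 2)) := by
  have ha1 : 1 - a ≠ 0 := by have := abs_le.1 ha; linarith
  have hD := Dn_ge ha y
  have hD0 : Dn a y ≠ 0 := by linarith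
  have h1 : Real.cos (y 2) + 3 * a * Real.cos (3 * y 2) = Real.cos (y 2) * Dn a y := by
    rw [Real.cos_three_mul, Dn]; ring
  rw [h1, PhD]
  have h2 : 2 * (16 * a / (1 - a) * (Real.cos (y 2) * Real.sin (y 2) * (Dn a y)⁻¹)) * (Real.cos (y 2) * Dn a y) =
      32 * a / (1 - a) * (Real.cos (y 2) ^ 2 * Real.sin (y 2)) * ((Dn a y)⁻¹ * Dn a y) := by ring
  rw [h2, inv_mul_cancel₀ hD0, Real.sin_three_mul]
  have h3 : Real.cos (y 2) ^ 2 = 1 - Real.sin (y 2) ^ 2 := by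
    have := Real.sin_sq_add_cos_sq (y 2); linarith
  rw [h3]
  field_simp
  ring

end Pool.Agent.J6H20.RL
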