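import Mathlib
import Pool.Agent.J6H20.RL.PairF

/-!
# The master estimates
-/

set_option autoImplicit false

open Filter Topology
open scoped ContDiff

namespace Pool.Agent.J6H20.RL

/-- functions of one scaled coordinate, arbitrary scale -/
theorem JC.scG {k : ℕ} {G : ℝ} (hG : 1 ≤ G) : ∀ {M g c : ℝ} {F : ℝ → ℝ} {x : V} {j : Fin 3}, |g| ≤ G → ContDiffAt ℝ ∞ F (g * x j + c) →
    (∀ n ≤ k, |iteratedDeriv n F (g * x j + c)| ≤ M) → JC k (G ^ k * M) (fun y => F (g * y j + c)) x := by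
  induction k with
  | zero =>
    intro M g c F x j hg hF h
    refine ⟨SA_sc hF, ?_⟩
    have := h 0 le_rfl
    simpa [JB] using this
  | succ k ih =>
    intro M g c F x j hg hF h
    have hM : 0 ≤ M := (abs_nonneg _).trans (h 0 (Nat.zero_le _))
    have hGk : (1 : ℝ) ≤ G ^ (k + 1) := one_le_pow₀ hG
    refine ⟨SA_sc hF, ?_, fun i => ?_⟩
    · have := h 0 (Nat.zero_le _)
      rw [iteratedDeriv_zero] at this
      nlinarith
    have hcont : Continuous fun y : V => g * y j + c := by fun_prop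
    have h2 : ∀ᶠ y in 𝓝 x, DifferentiableAt ℝ F (g * y j + c) :=
      hcont.continuousAt.eventually (ev_diffR hF)
    by_cases hj : j = i
    · have h5 := (ih (M := M) (F := deriv F) (x := x) (j := j) (c := c) hg (deriv_smoothAt hF) (fun n hn => by
        have := h (n + 1) (by omega)
        rwa [iteratedDeriv_succ'] at this)).cmul g
      have h6 : |g| * (G ^ k * M) ≤ G ^ (k + 1) * M := by
        rw [pow_succ]
        have : 0 ≤ G ^ k * M := by positivity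
        nlinarith
      refine ((h5.mono h6).congr ?_).bd
      filter_upwards [h2] with y hy
      rw [pd_sc hy, if_pos hj]
    · refine JB.mono (by positivity) (JB.congr ?_ JB.zero)
      filter_upwards [h2] with y hy
      rw [pd_sc hy, if_neg hj]

/-- the residual -/
noncomputable def resid (κ c ξ R : V → ℝ) : V → ℝ := fun y =>
  Lo (κ y) (2 * pd 0 ξ y) (2 * pd 1 ξ y) (2 * κ y * pd 2 ξ y) R y + c y * R y

/-- the multiplicative coefficient -/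
noncomputable def mcoef (κ : V → ℝ) (po : ℝ) (ξ : V → ℝ) (x : V) : ℝ :=
  pd 0 (pd 0 ξ) x + pd 0 ξ x * pd 0 ξ x + (pd 1 (pd 1 ξ) x + pd 1 ξ x * pd 1 ξ x)
          + κ x * (pd 2 (pd 2 ξ) x + pd 2 ξ x * pd 2 ξ x) + po

/-- the full ansatz -/
noncomputable def FF (κ c ξ Ψ R : V → ℝ) : V → ℝ := fun y => Real.exp (ξ y) * Rc κ (resid κ c ξ R) Ψ R y

theorem master (C c0 ε : ℝ) (hC : 1 ≤ C) (hc0 : 0 < c0) (hε : 0 < ε) : ∃ η : ℝ, 0 < η ∧
    ∀ (κ c ξ Ψ R : V → ℝ) (x : V) (E po : ℝ), 0 < E →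
      JC 2 C κ x → JC 3 (C * E) R x → SA ξ x → JC 2 (η * E) (resid κ c ξ R) x → JC 2 C Ψ x →
      c0 * E ^ 2 ≤ R x * R x + Qf κ R x →
      |2 * pd 0 ξ x| ≤ C → |2 * pd 1 ξ x| ≤ C → |2 * κ x * pd 2 ξ x| ≤ C → |c x| ≤ C →
      |(1 - Ψ x) * resid κ c ξ R x| ≤ ε * |R x| → |mcoef κ po ξ x - c x| ≤ ε →
      SA (FF κ c ξ Ψ R) x ∧ |Fl (κ x) po (FF κ c ξ Ψ R) x| ≤ 5 * ε * |FF κ c ξ Ψ R x| ∧
      |FF κ c ξ Ψ R x| ≤ 2 * (Real.exp (ξ x) * |R x|) := by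
  obtain ⟨η, hη, h⟩ := nodalE C c0 ε hC hc0 hε
  refine ⟨η, hη, fun κ c ξ Ψ R x E po hE hκ hR hξ he hΨ hnd h0 h1 h2 hc hΨe hm => ?_⟩
  obtain ⟨s1, s2, s3, s4⟩ := h κ (resid κ c ξ R) Ψ R x _ _ _ (c x) E hE hκ hR he hΨ hnd h0 h1 h2 hc
  have hex := Real.exp_pos (ξ x)
  refine ⟨(hξ.exp).mul s1, ?_, ?_⟩
  · have hF : Fl (κ x) po (FF κ c ξ Ψ R) x = _ := Fl_exp hξ s1 (κ x) po
    rw [hF, abs_mul, abs_of_pos hex]
    simp only [FF]
    rw [abs_mul, abs_of_pos hex]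
    set Q := Rc κ (resid κ c ξ R) Ψ R with hQ
    have key : Lo (κ x) (2 * pd 0 ξ x) (2 * pd 1 ξ x) (2 * κ x * pd 2 ξ x) Q x +
        (pd 0 (pd 0 ξ) x + pd 0 ξ x * pd 0 ξ x + (pd 1 (pd 1 ξ) x + pd 1 ξ x * pd 1 ξ x)
          + κ x * (pd 2 (pd 2 ξ) x + pd 2 ξ x * pd 2 ξ x) + po) * Q x =
        ((Lo (κ x) (2 * pd 0 ξ x) (2 * pd 1 ξ x) (2 * κ x * pd 2 ξ x) Q x + c x * Q x)
          - (Lo (κ x) (2 * pd 0 ξ x) (2 * pd 1 ξ x) (2 * κ x * pd 2 ξ x) R x + c x * R x) + resid κ c ξ R x * Ψ x)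
        + (1 - Ψ x) * resid κ c ξ R x + (mcoef κ po ξ x - c x) * Q x := by
      simp only [resid, mcoef]; ring
    rw [key]
    have t1 := abs_add_le ((((Lo (κ x) (2 * pd 0 ξ x) (2 * pd 1 ξ x) (2 * κ x * pd 2 ξ x) Q x + c x * Q x)
          - (Lo (κ x) (2 * pd 0 ξ x) (2 * pd 1 ξ x) (2 * κ x * pd 2 ξ x) R x + c x * R x) + resid κ c ξ R x * Ψ x)
        + (1 - Ψ x) * resid κ c ξ R x)) ((mcoef κ po ξ x - c x) * Q x)
    have t2 := abs_add_le (((Lo (κ x) (2 * pd 0 ξ x) (2 * pd 1 ξ x) (2 * κ x * pd 2 ξ x) Q x + c x * Q x)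
          - (Lo (κ x) (2 * pd 0 ξ x) (2 * pd 1 ξ x) (2 * κ x * pd 2 ξ x) R x + c x * R x) + resid κ c ξ R x * Ψ x))
        ((1 - Ψ x) * resid κ c ξ R x)
    have t3 : |(mcoef κ po ξ x - c x) * Q x| ≤ ε * |Q x| := by
      rw [abs_mul]; exact mul_le_mul_of_nonneg_right hm (abs_nonneg _)
    have t4 : ε * |R x| ≤ 2 * ε * |Q x| := by nlinarith
    have t5 : 5 * ε * (Real.exp (ξ x) * |Q x|) = Real.exp (ξ x) * (5 * ε * |Q x|) := by ring
    rw [t5]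
    refine mul_le_mul_of_nonneg_left ?_ hex.le
    linarith
  · simp only [FF]
    rw [abs_mul, abs_of_pos hex]
    nlinarith

/-- the estimate where the correction is switched off and `R` is bounded from below -/
theorem masterA {κ c ξ Ψ R : V → ℝ} {x : V} {po ε M : ℝ} (hξ : SA ξ x) (hR : SA R x)
    (hΨ : Ψ =ᶠ[𝓝 x] fun _ => 0) (hr : M ≤ ε * |R x|) (he : |resid κ c ξ R x| ≤ M) (hm : |mcoef κ po ξ x - c x| ≤ ε) :
    SA (FF κ c ξ Ψ R) x ∧ |Fl (κ x) po (FF κ c ξ Ψ R) x| ≤ 5 * ε * |FF κ c ξ Ψ R x| ∧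
      |FF κ c ξ Ψ R x| ≤ 2 * (Real.exp (ξ x) * |R x|) ∧ FF κ c ξ Ψ R =ᶠ[𝓝 x] fun y => Real.exp (ξ y) * R y := by
  have hex := Real.exp_pos (ξ x)
  have hε : 0 ≤ ε := (abs_nonneg _).trans hm
  have hev : FF κ c ξ Ψ R =ᶠ[𝓝 x] fun y => Real.exp (ξ y) * R y := by
    filter_upwards [hΨ] with y hy
    simp only [FF, Rc, Hf, hy]
    ring
  refine ⟨((hξ.exp).mul hR).congr_of_eventuallyEq hev, ?_, ?_, hev⟩
  · rw [Fl_congr _ _ hev, Fl_exp hξ hR, hev.eq_of_nhds, abs_mul, abs_mul, abs_of_pos hex]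
    have key : Lo (κ x) (2 * pd 0 ξ x) (2 * pd 1 ξ x) (2 * κ x * pd 2 ξ x) R x +
        (pd 0 (pd 0 ξ) x + pd 0 ξ x * pd 0 ξ x + (pd 1 (pd 1 ξ) x + pd 1 ξ x * pd 1 ξ x)
          + κ x * (pd 2 (pd 2 ξ) x + pd 2 ξ x * pd 2 ξ x) + po) * R x =
        resid κ c ξ R x + (mcoef κ po ξ x - c x) * R x := by
      simp only [resid, mcoef]; ring
    rw [key]
    have t1 := abs_add_le (resid κ c ξ R x) ((mcoef κ po ξ x - c x) * R x)
    have t3 : |(mcoef κ po ξ x - c x) * R x| ≤ ε * |R x| := by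
      rw [abs_mul]; exact mul_le_mul_of_nonneg_right hm (abs_nonneg _)
    have t5 : 5 * ε * (Real.exp (ξ x) * |R x|) = Real.exp (ξ x) * (5 * ε * |R x|) := by ring
    rw [t5]
    refine mul_le_mul_of_nonneg_left ?_ hex.le
    have : 0 ≤ ε * |R x| := by positivity
    linarith
  · rw [hev.eq_of_nhds, abs_mul, abs_of_pos hex]
    have : 0 ≤ Real.exp (ξ x) * |R x| := by positivity
    linarith

/-- the sum of four products -/
noncomputable def R4 (b d th Om h hp : ℝ → ℝ) : V → ℝ := fun y =>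
  b (y 0) * Om (y 1) * Real.sin (y 2) + d (y 0) * Om (y 1) * (fun s => Real.sin (3 * s)) (y 2)
    + (th (y 0) * h (y 1) * (fun _ => (1 : ℝ)) (y 2) + (fun T => 1 - th T) (y 0) * hp (y 1) * (fun _ => (1 : ℝ)) (y 2))

theorem sin3_d (s : ℝ) : deriv (fun s => Real.sin (3 * s)) s = 3 * Real.cos (3 * s) := by
  have h1 : HasDerivAt (fun s : ℝ => Real.sin (3 * s)) (Real.cos (3 * s) * 3) s :=
    hd_comp (Real.hasDerivAt_sin _) (hd_lin 3 s)
  rw [h1.deriv]; ring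

theorem sin3_dd (s : ℝ) : deriv (deriv (fun s => Real.sin (3 * s))) s = -(9 * Real.sin (3 * s)) := by
  have h0 : deriv (fun s => Real.sin (3 * s)) = fun s => 3 * Real.cos (3 * s) := funext sin3_d
  have h1 : HasDerivAt (fun s : ℝ => 3 * Real.cos (3 * s)) (3 * (-Real.sin (3 * s) * 3)) s :=
    hd_cmul 3 (hd_comp (Real.hasDerivAt_cos _) (hd_lin 3 s))
  rw [h0, h1.deriv]; ring

theorem R4_SA {b d th Om h hp : ℝ → ℝ} {x : V} (hb : ContDiffAt ℝ ∞ b (x 0)) (hd : ContDiffAt ℝ ∞ d (x 0))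
    (hth : ContDiffAt ℝ ∞ th (x 0)) (hO : ContDiffAt ℝ ∞ Om (x 1)) (hh : ContDiffAt ℝ ∞ h (x 1))
    (hhp : ContDiffAt ℝ ∞ hp (x 1)) : SA (R4 b d th Om h hp) x := by
  have cb : ∀ {F : ℝ → ℝ} {j : Fin 3}, ContDiffAt ℝ ∞ F (x j) → SA (fun y => F (y j)) x := by
    intro F j hF
    exact ContDiffAt.comp x (g := F) (f := fun y : V => y j) hF (coordSA j x)
  have h3 : ContDiff ℝ ∞ (fun s : ℝ => Real.sin (3 * s)) := Real.contDiff_sin.comp (contDiff_const.mul contDiff_id)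
  have ht1 : ContDiffAt ℝ ∞ (fun T => 1 - th T) (x 0) := contDiffAt_const.sub hth
  have h1 : ContDiffAt ℝ ∞ (fun _ : ℝ => (1 : ℝ)) (x 2) := contDiffAt_const
  exact ((((cb hb).mul (cb hO)).mul (cb (j := 2) Real.contDiff_sin.contDiffAt)).add
    (((cb hd).mul (cb hO)).mul (cb (j := 2) h3.contDiffAt))).add
    ((((cb hth).mul (cb hh)).mul (cb h1)).add (((cb ht1).mul (cb hhp)).mul (cb h1)))

/-- **formula for the operator on the sum of four products** -/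
theorem R4_formula {b d th Om h hp : ℝ → ℝ} {x : V} (hb : ContDiffAt ℝ ∞ b (x 0)) (hd : ContDiffAt ℝ ∞ d (x 0))
    (hth : ContDiffAt ℝ ∞ th (x 0)) (hO : ContDiffAt ℝ ∞ Om (x 1)) (hh : ContDiffAt ℝ ∞ h (x 1))
    (hhp : ContDiffAt ℝ ∞ hp (x 1)) (κ B0 B1 B2 c : ℝ) :
    Lo κ B0 B1 B2 (R4 b d th Om h hp) x + c * R4 b d th Om h hp x =
      ((deriv (deriv b) (x 0) + B0 * deriv b (x 0)) * Om (x 1) * Real.sin (x 2)
        + b (x 0) * (deriv (deriv Om) (x 1) + B1 * deriv Om (x 1) + (c - κ) * Om (x 1)) * Real.sin (x 2)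
        + B2 * (b (x 0) * Om (x 1) * Real.cos (x 2)))
      + ((deriv (deriv d) (x 0) + B0 * deriv d (x 0)) * Om (x 1) * Real.sin (3 * x 2)
        + d (x 0) * (deriv (deriv Om) (x 1) + B1 * deriv Om (x 1) + (c - 9 * κ) * Om (x 1)) * Real.sin (3 * x 2)
        + B2 * (3 * (d (x 0) * Om (x 1) * Real.cos (3 * x 2))))
      + ((deriv (deriv th) (x 0) + B0 * deriv th (x 0)) * (h (x 1) - hp (x 1))
        + th (x 0) * (deriv (deriv h) (x 1) + B1 * deriv h (x 1) + c * h (x 1))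
        + (1 - th (x 0)) * (deriv (deriv hp) (x 1) + B1 * deriv hp (x 1) + c * hp (x 1))) := by
  have h3 : ContDiff ℝ ∞ (fun s : ℝ => Real.sin (3 * s)) := Real.contDiff_sin.comp (contDiff_const.mul contDiff_id)
  have ht1 : ContDiffAt ℝ ∞ (fun T => 1 - th T) (x 0) := contDiffAt_const.sub hth
  have h1 : ContDiffAt ℝ ∞ (fun _ : ℝ => (1 : ℝ)) (x 2) := contDiffAt_const
  have hs : ContDiffAt ℝ ∞ Real.sin (x 2) := Real.contDiff_sin.contDiffAt
  have cb : ∀ {F : ℝ → ℝ} {j : Fin 3}, ContDiffAt ℝ ∞ F (x j) → SA (fun y => F (y j)) x := by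
    intro F j hF
    exact ContDiffAt.comp x (g := F) (f := fun y : V => y j) hF (coordSA j x)
  have p1 : SA (fun y => b (y 0) * Om (y 1) * Real.sin (y 2)) x := ((cb hb).mul (cb hO)).mul (cb (j := 2) hs)
  have p2 : SA (fun y => d (y 0) * Om (y 1) * (fun s => Real.sin (3 * s)) (y 2)) x :=
    ((cb hd).mul (cb hO)).mul (cb (j := 2) h3.contDiffAt)
  have p3 : SA (fun y => th (y 0) * h (y 1) * (fun _ => (1 : ℝ)) (y 2)) x := ((cb hth).mul (cb hh)).mul (cb h1)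
  have p4 : SA (fun y => (fun T => 1 - th T) (y 0) * hp (y 1) * (fun _ => (1 : ℝ)) (y 2)) x :=
    ((cb ht1).mul (cb hhp)).mul (cb h1)
  have e1 : Lo κ B0 B1 B2 (R4 b d th Om h hp) x = _ := Lo_add κ B0 B1 B2 (p1.add p2) (p3.add p4)
  rw [e1, Lo_add κ B0 B1 B2 p1 p2, Lo_add κ B0 B1 B2 p3 p4, Lo_prod hb hO hs, Lo_prod hd hO h3.contDiffAt,
    Lo_prod hth hh h1, Lo_prod ht1 hhp h1]
  have d1 : deriv (fun T => 1 - th T) = fun T => - deriv th T := by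
    funext T; rw [deriv_const_sub]
  have d2 : deriv (deriv (fun T => 1 - th T)) (x 0) = - deriv (deriv th) (x 0) := by
    rw [d1, deriv.fun_neg]
  have d3 : deriv (fun _ : ℝ => (1 : ℝ)) = fun _ => 0 := by funext t; simp
  have d4 : deriv Real.sin (x 2) = Real.cos (x 2) := (Real.hasDerivAt_sin _).deriv
  have d5 : deriv (deriv Real.sin) (x 2) = - Real.sin (x 2) := by
    have : deriv Real.sin = Real.cos := funext fun t => (Real.hasDerivAt_sin t).deriv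
    rw [this, (Real.hasDerivAt_cos _).deriv]
  rw [d2, sin3_dd, sin3_d, d4, d5]
  simp only [d1, d3, deriv_const, R4]
  ring

end Pool.Agent.J6H20.RL
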