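import Mathlib
import Pool.Agent.J6H20.RL.Master

/-!
# Jets of functions of one variable
-/

set_option autoImplicit false

open Filter Topology
open scoped ContDiff

namespace Pool.Agent.J6H20.RL

/-- smooth with bounded derivatives up to order `k` -/
structure Jt (k : ℕ) (M : ℝ) (F : ℝ → ℝ) (t : ℝ) : Prop where
  sm : ContDiffAt ℝ ∞ F t
  bd : ∀ n ≤ k, |iteratedDeriv n F t| ≤ M

theorem Jt.val {k : ℕ} {M : ℝ} {F : ℝ → ℝ} {t : ℝ} (h : Jt k M F t) : |F t| ≤ M := by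
  have := h.bd 0 (Nat.zero_le _)
  rwa [iteratedDeriv_zero] at this

theorem Jt.nonneg {k : ℕ} {M : ℝ} {F : ℝ → ℝ} {t : ℝ} (h : Jt k M F t) : 0 ≤ M := (abs_nonneg _).trans h.val

theorem Jt.mono {k : ℕ} {M N : ℝ} {F : ℝ → ℝ} {t : ℝ} (hMN : M ≤ N) (h : Jt k M F t) : Jt k N F t :=
  ⟨h.sm, fun n hn => (h.bd n hn).trans hMN⟩

theorem Jt.le {k l : ℕ} {M : ℝ} {F : ℝ → ℝ} {t : ℝ} (hkl : k ≤ l) (h : Jt l M F t) : Jt k M F t :=
  ⟨h.sm, fun n hn => h.bd n (hn.trans hkl)⟩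

theorem Jt.congr {k : ℕ} {M : ℝ} {F G : ℝ → ℝ} {t : ℝ} (hFG : F =ᶠ[𝓝 t] G) (h : Jt k M F t) : Jt k M G t :=
  ⟨h.sm.congr_of_eventuallyEq hFG.symm, fun n hn => by rw [← hFG.iteratedDeriv_eq n]; exact h.bd n hn⟩

theorem Jt.deriv {k : ℕ} {M : ℝ} {F : ℝ → ℝ} {t : ℝ} (h : Jt (k + 1) M F t) : Jt k M (deriv F) t :=
  ⟨deriv_smoothAt h.sm, fun n hn => by
    have := h.bd (n + 1) (by omega)
    rwa [iteratedDeriv_succ'] at this⟩

theorem Jt.co {k : ℕ} {M : ℝ} {F : ℝ → ℝ} {x : V} {j : Fin 3} (h : Jt k M F (x j)) : JC k M (fun y => F (y j)) x :=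
  JC.coord h.sm h.bd

theorem JC.to1 {k : ℕ} : ∀ {M : ℝ} {F : ℝ → ℝ} {x : V} {j : Fin 3}, ContDiffAt ℝ ∞ F (x j) →
    JC k M (fun y => F (y j)) x → Jt k M F (x j) := by
  induction k with
  | zero =>
    intro M F x j hF h
    refine ⟨hF, fun n hn => ?_⟩
    have : n = 0 := by omega
    subst this
    rw [iteratedDeriv_zero]; exact h.val
  | succ k ih =>
    intro M F x j hF h
    refine ⟨hF, fun n hn => ?_⟩
    cases n with
    | zero => rw [iteratedDeriv_zero]; exact h.val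
    | succ n =>
      rw [iteratedDeriv_succ']
      have h1 := h.pd j
      have h2 : ∀ᶠ y in 𝓝 x, DifferentiableAt ℝ F (y j) := (coordSA j x).continuousAt.eventually (ev_diffR hF)
      have h3 : JC k M (fun y => deriv F (y j)) x := h1.congr (by
        filter_upwards [h2] with y hy
        rw [pd_coord hy, if_pos rfl])
      exact (ih (deriv_smoothAt hF) h3).bd n (by omega)

theorem Jt.mul {k : ℕ} {M N : ℝ} {F G : ℝ → ℝ} {t : ℝ} (hF : Jt k M F t) (hG : Jt k N G t) :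
    Jt k (2 ^ k * (M * N)) (fun s => F s * G s) t := by
  have h1 : JC k M (fun y => F (y 0)) (fun _ : Fin 3 => t) := Jt.co (x := fun _ : Fin 3 => t) (j := 0) hF
  have h2 : JC k N (fun y => G (y 0)) (fun _ : Fin 3 => t) := Jt.co (x := fun _ : Fin 3 => t) (j := 0) hG
  exact JC.to1 (F := fun s => F s * G s) (x := fun _ : Fin 3 => t) (j := 0) (hF.sm.mul hG.sm) (h1.mul h2)

theorem Jt.add {k : ℕ} {M N : ℝ} {F G : ℝ → ℝ} {t : ℝ} (hF : Jt k M F t) (hG : Jt k N G t) :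
    Jt k (M + N) (fun s => F s + G s) t := by
  have h1 : JC k M (fun y => F (y 0)) (fun _ : Fin 3 => t) := Jt.co (x := fun _ : Fin 3 => t) (j := 0) hF
  have h2 : JC k N (fun y => G (y 0)) (fun _ : Fin 3 => t) := Jt.co (x := fun _ : Fin 3 => t) (j := 0) hG
  exact JC.to1 (F := fun s => F s + G s) (x := fun _ : Fin 3 => t) (j := 0) (hF.sm.add hG.sm) (h1.add h2)

theorem Jt.cmul {k : ℕ} {M : ℝ} {F : ℝ → ℝ} {t : ℝ} (c : ℝ) (hF : Jt k M F t) :
    Jt k (|c| * M) (fun s => c * F s) t := by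
  have h1 : JC k M (fun y => F (y 0)) (fun _ : Fin 3 => t) := Jt.co (x := fun _ : Fin 3 => t) (j := 0) hF
  exact JC.to1 (F := fun s => c * F s) (x := fun _ : Fin 3 => t) (j := 0) (contDiffAt_const.mul hF.sm) (h1.cmul c)

theorem Jt.const {k : ℕ} {c t : ℝ} : Jt k |c| (fun _ => c) t := by
  refine ⟨contDiffAt_const, fun n _ => ?_⟩
  rw [iteratedDeriv_const]
  split
  · exact le_rfl
  · simp

theorem Jt.zero {k : ℕ} {t : ℝ} : Jt k 0 (fun _ => 0) t := by
  have := Jt.const (k := k) (c := 0) (t := t)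
  rwa [abs_zero] at this

/-- scaled argument -/
theorem Jt.sc {k : ℕ} {M g c : ℝ} {F : ℝ → ℝ} {t : ℝ} (hg : |g| ≤ 1) (hF : Jt k M F (g * t + c)) :
    Jt k M (fun s => F (g * s + c)) t := by
  have h1 : JC k M (fun y => F (g * y 0 + c)) (fun _ : Fin 3 => t) :=
    JC.sc (x := fun _ : Fin 3 => t) (j := 0) hg hF.sm hF.bd
  have h2 : ContDiffAt ℝ ∞ (fun s => F (g * s + c)) t :=
    ContDiffAt.comp t (g := F) (f := fun s : ℝ => g * s + c) hF.sm ((contDiffAt_const.mul contDiffAt_id).add contDiffAt_const)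
  exact JC.to1 (F := fun s => F (g * s + c)) (x := fun _ : Fin 3 => t) (j := 0) h2 h1

theorem sc_deriv_ev {g c : ℝ} {F : ℝ → ℝ} {t : ℝ} (hF : ContDiffAt ℝ ∞ F (g * t + c)) :
    _root_.deriv (fun s => F (g * s + c)) =ᶠ[𝓝 t] fun s => g * _root_.deriv F (g * s + c) := by
  have hcont : Continuous fun y : ℝ => g * y + c := by fun_prop
  filter_upwards [hcont.continuousAt.eventually (ev_diffR hF)] with y hy
  have h1 : HasDerivAt (fun t : ℝ => g * t + c) g y := by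
    have := ((hasDerivAt_id y).const_mul g).add_const c
    simpa using this
  have h2 : HasDerivAt (fun t => F (g * t + c)) (_root_.deriv F (g * y + c) * g) y :=
    hd_comp hy.hasDerivAt h1
  rw [h2.deriv, mul_comm]

/-- scaled argument: the derivative is small -/
theorem Jt.scd {k : ℕ} {M g c : ℝ} {F : ℝ → ℝ} {t : ℝ} (hg : |g| ≤ 1) (hF : Jt (k + 1) M F (g * t + c)) :
    Jt k (|g| * M) (_root_.deriv (fun s => F (g * s + c))) t :=
  ((hF.deriv.sc hg).cmul g).congr (sc_deriv_ev hF.sm).symm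

/-- building jets from the value and the derivative -/
theorem Jt.mk' {k : ℕ} {M : ℝ} {F : ℝ → ℝ} {t : ℝ} (h0 : |F t| ≤ M) (hs : ContDiffAt ℝ ∞ F t) (h : Jt k M (_root_.deriv F) t) :
    Jt (k + 1) M F t := by
  refine ⟨hs, fun n hn => ?_⟩
  cases n with
  | zero => rw [iteratedDeriv_zero]; exact h0
  | succ n => rw [iteratedDeriv_succ']; exact h.bd n (by omega)

end Pool.Agent.J6H20.RL
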