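import Mathlib
import Pool.Agent.J6H20.RL.Jt

/-!
# The time profile
-/

set_option autoImplicit false

open Filter Topology
open scoped ContDiff

namespace Pool.Agent.J6H20.RL

/-- exponential growth up to time zero, then constant -/
noncomputable def ph (δ τ : ℝ) : ℝ := (1 - chi (δ⁻¹ * τ + 0)) * Real.exp τ + chi (δ⁻¹ * τ + 0)

theorem ph_neg {δ τ : ℝ} (hδ : 0 < δ) (h : τ ≤ 0) : ph δ τ = Real.exp τ := by
  have : δ⁻¹ * τ + 0 ≤ 0 := by
    have := mul_nonneg (inv_pos.2 hδ).le (neg_nonneg.2 h); linarith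
  rw [ph, chi_zero this]; ring

theorem ph_pos' {δ τ : ℝ} (hδ : 0 < δ) (h : δ ≤ τ) : ph δ τ = 1 := by
  have : 1 ≤ δ⁻¹ * τ + 0 := by
    rw [add_zero, inv_mul_eq_div, le_div_iff₀ hδ]; linarith
  rw [ph, chi_one this]; ring

theorem ph_mid {δ τ : ℝ} (hδ : 0 < δ) (h : 0 ≤ τ) : 1 ≤ ph δ τ ∧ ph δ τ ≤ Real.exp δ := by
  have e1 : 1 ≤ Real.exp τ := Real.one_le_exp h
  have c0 := chi_nonneg (δ⁻¹ * τ + 0)
  have c1 := chi_le_one (δ⁻¹ * τ + 0)
  constructor
  · rw [ph]; nlinarith
  · by_cases h1 : τ ≤ δ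
    · have e2 : Real.exp τ ≤ Real.exp δ := Real.exp_le_exp.2 h1
      rw [ph]; nlinarith
    · push Not at h1
      rw [ph_pos' hδ h1.le]
      exact Real.one_le_exp hδ.le

theorem ph_gt {δ τ : ℝ} (hδ : 0 < δ) : 0 < ph δ τ := by
  rcases le_total τ 0 with h | h
  · rw [ph_neg hδ h]; exact Real.exp_pos _
  · linarith [(ph_mid hδ h).1]

theorem ph_le {δ τ : ℝ} (hδ : 0 < δ) : ph δ τ ≤ Real.exp δ := by
  rcases le_total τ 0 with h | h
  · rw [ph_neg hδ h]; exact Real.exp_le_exp.2 (by linarith)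
  · exact (ph_mid hδ h).2

theorem ph_smooth (δ : ℝ) : ContDiff ℝ ∞ (ph δ) := by
  have h1 : ContDiff ℝ ∞ (fun τ : ℝ => chi (δ⁻¹ * τ + 0)) :=
    chi_smooth.comp ((contDiff_const.mul contDiff_id).add contDiff_const)
  exact ((contDiff_const.sub h1).mul Real.contDiff_exp).add h1

theorem ph_jet {δ : ℝ} (hδ : 0 < δ) : ∃ C : ℝ, 1 ≤ C ∧ ∀ τ, Jt 4 (C * ph δ τ) (ph δ) τ := by
  obtain ⟨C, hC1, hC⟩ := compact_bounds (F := ph δ) (a := 0) (b := δ) (fun t _ => (ph_smooth δ).contDiffAt) 4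
  refine ⟨C, hC1, fun τ => ⟨(ph_smooth δ).contDiffAt, fun n hn => ?_⟩⟩
  by_cases h0 : τ < 0
  · have he : ph δ =ᶠ[𝓝 τ] Real.exp := by
      filter_upwards [Iio_mem_nhds h0] with s hs
      exact ph_neg hδ (le_of_lt hs)
    rw [he.iteratedDeriv_eq n, iteratedDeriv_eq_iterate, Real.iter_deriv_exp, ph_neg hδ h0.le, abs_of_pos (Real.exp_pos _)]
    exact le_mul_of_one_le_left (Real.exp_pos _).le hC1
  · push Not at h0
    by_cases h1 : τ ≤ δ
    · refine (hC n hn τ ⟨h0, h1⟩).trans ?_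
      exact le_mul_of_one_le_right (by linarith) (ph_mid hδ h0).1
    · push Not at h1
      have he : ph δ =ᶠ[𝓝 τ] fun _ => 1 := by
        filter_upwards [Ioi_mem_nhds h1] with s hs
        exact ph_pos' hδ (le_of_lt hs)
      rw [he.iteratedDeriv_eq n, iteratedDeriv_const, ph_pos' hδ h1.le]
      split
      · simpa using hC1
      · simp; linarith

/-- the phase function -/
noncomputable def Mf (t : ℝ) : ℝ := chi t * (t - 1 / 2)

theorem Mf_smooth : ContDiff ℝ ∞ Mf := chi_smooth.mul (contDiff_id.sub contDiff_const)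

theorem Mf_ge (t : ℝ) : -(1 / 2) ≤ Mf t := by
  have c0 := chi_nonneg t
  have c1 := chi_le_one t
  rcases le_total t 0 with h | h
  · rw [Mf, chi_zero h]; norm_num
  · rw [Mf]; nlinarith

theorem mf_jet : ∃ C : ℝ, 1 ≤ C ∧ ∀ t, Jt 3 C (deriv Mf) t := by
  have hs : ContDiff ℝ ∞ (deriv Mf) := contDiff_iff_contDiffAt.2 fun t => deriv_smoothAt Mf_smooth.contDiffAt
  obtain ⟨C, hC1, hC⟩ := step_bounds (F := deriv Mf) (a := 0) (b := 1) (c1 := 0) (c2 := 1) hs (fun t ht => by
    have : Mf =ᶠ[𝓝 t] fun _ => 0 := by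
      filter_upwards [Iio_mem_nhds ht] with s hs
      rw [Mf, chi_zero (le_of_lt hs)]; ring
    rw [this.deriv_eq]; simp) (fun t ht => by
    have : Mf =ᶠ[𝓝 t] fun s => s - 1 / 2 := by
      filter_upwards [Ioi_mem_nhds ht] with s hs
      rw [Mf, chi_one (le_of_lt hs)]; ring
    rw [this.deriv_eq, (hd_subc (1 / 2) t).deriv]) 3
  exact ⟨C, hC1, fun t => ⟨hs.contDiffAt, fun n hn => hC n hn t⟩⟩

theorem chi_jet : ∃ C : ℝ, 1 ≤ C ∧ ∀ t, Jt 4 C chi t := by
  obtain ⟨C, hC1, hC⟩ := chi_bounds 4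
  exact ⟨C, hC1, fun t => ⟨chi_smooth.contDiffAt, fun n hn => hC n hn t⟩⟩

/-- the profile during the exact phases -/
structure ExactAt (b env A1 A3 th lam : ℝ → ℝ) (T σ μ θ0 : ℝ) : Prop where
  env : env T = b T
  b : ∃ c : ℝ, ∀ᶠ t in 𝓝 T, b t = c * Real.exp (σ * t)
  A1 : ∀ᶠ t in 𝓝 T, A1 t = θ0
  A3 : ∀ᶠ t in 𝓝 T, A3 t = 1 - θ0
  th : ∀ᶠ t in 𝓝 T, th t = θ0
  lam : ∀ᶠ t in 𝓝 T, deriv lam t = μ

/-- time profiles -/
structure TP (η g k m0 α : ℝ) where
  b : ℝ → ℝ
  env : ℝ → ℝ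
  A1 : ℝ → ℝ
  A3 : ℝ → ℝ
  th : ℝ → ℝ
  lam : ℝ → ℝ
  Tend : ℝ
  lam0 : ℝ
  Tend_pos : 0 < Tend
  b_nonneg : ∀ T, 0 ≤ b T
  b_le : ∀ T, b T ≤ env T
  env_pos : ∀ T, 0 < env T
  env_le : ∀ T, env T ≤ m0 * (1 + α)
  b_sm : ∀ T, ContDiffAt ℝ ∞ b T
  b_jet : ∀ T, Jt 3 (η * env T) (deriv b) T
  A1_mem : ∀ T, 0 ≤ A1 T ∧ A1 T ≤ 1
  A3_mem : ∀ T, 0 ≤ A3 T ∧ A3 T ≤ 1
  th_mem : ∀ T, 0 ≤ th T ∧ th T ≤ 1
  A1_sm : ∀ T, ContDiffAt ℝ ∞ A1 T
  A3_sm : ∀ T, ContDiffAt ℝ ∞ A3 T
  th_sm : ∀ T, ContDiffAt ℝ ∞ th T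
  lam_sm : ∀ T, ContDiffAt ℝ ∞ lam T
  A1_jet : ∀ T, Jt 3 η (deriv A1) T
  A3_jet : ∀ T, Jt 3 η (deriv A3) T
  th_jet : ∀ T, Jt 3 η (deriv th) T
  lam_jet : ∀ T, Jt 3 η (fun t => deriv lam t - 1) T
  lam_ge : ∀ T, T - 1 / g ≤ lam T
  phase : ∀ T, (env T ≤ 1 / 4 ∧ (th T = 1 ∨ th T = 0)) ∨ (env T = b T ∧ m0 ≤ env T) ∨
    ExactAt b env A1 A3 th lam T g 1 1 ∨ ExactAt b env A1 A3 th lam T (-g) k 0
  pre : ∀ T ≤ 0, b T = 0 ∧ A1 T = 0 ∧ A3 T = 0 ∧ th T = 1 ∧ lam T = T
  post : ∀ T, Tend ≤ T → b T = 0 ∧ A1 T = 0 ∧ A3 T = 0 ∧ th T = 0 ∧ lam T = k * T - lam0 ∧ T ≤ lam T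

theorem exists_TP {δ η : ℝ} (hδ : 0 < δ) (hδ1 : δ ≤ 1) (hη : 0 < η) : ∃ g : ℝ, 0 < g ∧ g ≤ 1 ∧ g ≤ η ∧ ∃ p1 : ℕ, 1 ≤ p1 ∧
    ∀ p : ℕ, p1 ≤ p → ∀ m0 α : ℝ, 1 ≤ m0 → Real.exp 2 ≤ 12 * m0 → Real.exp (2 * δ) ≤ 1 + α →
      Nonempty (TP η g (1 + 1 / p) m0 α) := by
  obtain ⟨C1, hC1, hph⟩ := ph_jet hδ
  obtain ⟨C2, hC2, hmf⟩ := mf_jet
  obtain ⟨C3, hC3, hchi⟩ := chi_jet
  set Cb : ℝ := 2 ^ 4 * (2 ^ 4 * (C1 * C1) * (2 ^ 4 * (C3 * C3))) with hCb
  set Ca : ℝ := 2 ^ 4 * (C3 * (1 + C3)) with hCa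
  have hCb0 : 1 ≤ Cb := by
    have h1 : 1 ≤ C1 * C1 := by nlinarith
    have h2 : 1 ≤ C3 * C3 := by nlinarith
    rw [hCb]; nlinarith
  have hCa0 : 1 ≤ Ca := by rw [hCa]; nlinarith
  set g : ℝ := min 1 (min η (min (η / Cb) (min (η / Ca) (η / C3)))) with hg
  have hg0 : 0 < g := by
    have : 0 < Cb := by linarith
    have : 0 < Ca := by linarith
    have : 0 < C3 := by linarith
    rw [hg]; positivity
  have hg1 : g ≤ 1 := min_le_left _ _
  have hgη : g ≤ η := (min_le_right _ _).trans (min_le_left _ _)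
  have hgb : g * Cb ≤ η := by
    have : g ≤ η / Cb := (min_le_right _ _).trans ((min_le_right _ _).trans (min_le_left _ _))
    rwa [le_div_iff₀ (by linarith)] at this
  have hga : g * Ca ≤ η := by
    have : g ≤ η / Ca := (min_le_right _ _).trans ((min_le_right _ _).trans ((min_le_right _ _).trans (min_le_left _ _)))
    rwa [le_div_iff₀ (by linarith)] at this
  have hgc : g * C3 ≤ η := by
    have : g ≤ η / C3 := (min_le_right _ _).trans ((min_le_right _ _).trans ((min_le_right _ _).trans (min_le_right _ _)))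
    rwa [le_div_iff₀ (by linarith)] at this
  have habs : |g| ≤ 1 := by rw [abs_of_pos hg0]; exact hg1
  have habs' : |-g| ≤ 1 := by rw [abs_neg]; exact habs
  obtain ⟨p1, hp1⟩ := exists_nat_ge (max 1 (C2 / η))
  have hp11 : (1 : ℝ) ≤ p1 := (le_max_left _ _).trans hp1
  refine ⟨g, hg0, hg1, hgη, p1, by exact_mod_cast hp11, fun p hp m0 α hm0 hm12 hα => ?_⟩
  have hpr : (p1 : ℝ) ≤ p := by exact_mod_cast hp
  have hp0 : (0 : ℝ) < p := by linarith
  have hpη : 1 / (p : ℝ) * C2 ≤ η := by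
    have h1 : C2 / η ≤ p := (le_max_right _ _).trans (hp1.trans hpr)
    rw [div_le_iff₀ hη] at h1
    rw [one_div, inv_mul_le_iff₀ hp0]; linarith
  set tC : ℝ := Real.log (12 * m0) with htC
  have htC2 : 2 ≤ tC := by
    rw [htC, ← Real.log_exp 2]; exact Real.log_le_log (Real.exp_pos _) hm12
  have hetC : Real.exp tC = 12 * m0 := by rw [htC, Real.exp_log (by linarith)]
  set ts : ℝ := tC + δ with hts
  set te : ℝ := 2 * ts + 1 with hte
  have hm0' : 0 < m0 := by linarith
  set env : ℝ → ℝ := fun T => m0 * (ph δ (g * T + -tC) * ph δ (-g * T + (te - tC))) with henv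
  set b : ℝ → ℝ := fun T => m0 * (ph δ (g * T + -tC) * ph δ (-g * T + (te - tC)) * (chi (g * T + 0) * chi (-g * T + te))) with hb
  set th : ℝ → ℝ := fun T => 1 + (-1) * chi (g * T + -ts) with hth
  set A1 : ℝ → ℝ := fun T => chi (g * T + 0) * (1 + (-1) * chi (g * T + -ts)) with hA1
  set A3 : ℝ → ℝ := fun T => chi (-g * T + te) * chi (g * T + -ts) with hA3
  set lam : ℝ → ℝ := fun T => T + (1 / (g * p)) * Mf (g * T + -ts) with hlam
  have hexp1 : Real.exp 1 < 3 := by have := Real.exp_one_lt_d9; linarith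
  have env_pos : ∀ T, 0 < env T := fun T => mul_pos hm0' (mul_pos (ph_gt hδ) (ph_gt hδ))
  have b_eq : ∀ T, b T = env T * (chi (g * T + 0) * chi (-g * T + te)) := fun T => by
    simp only [hb, henv]; ring
  -- small env
  have env_small : ∀ T, g * T ≤ 1 → env T ≤ 1 / 4 := by
    intro T hT
    simp only [henv]
    rw [ph_neg hδ (by linarith : g * T + -tC ≤ 0), ph_pos' hδ (by linarith : δ ≤ -g * T + (te - tC)), mul_one,
      Real.exp_add, Real.exp_neg, hetC]
    have h1 : Real.exp (g * T) ≤ Real.exp 1 := Real.exp_le_exp.2 hT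
    have h2 : m0 * (Real.exp (g * T) * (12 * m0)⁻¹) = Real.exp (g * T) / 12 := by field_simp
    rw [h2]; linarith
  have env_small' : ∀ T, te - 1 ≤ g * T → env T ≤ 1 / 4 := by
    intro T hT
    simp only [henv]
    rw [ph_pos' hδ (by linarith : δ ≤ g * T + -tC), ph_neg hδ (by linarith : -g * T + (te - tC) ≤ 0), one_mul]
    have h0 : -g * T + (te - tC) = (te - g * T) + -tC := by ring
    rw [h0, Real.exp_add, Real.exp_neg, hetC]
    have h1 : Real.exp (te - g * T) ≤ Real.exp 1 := Real.exp_le_exp.2 (by linarith)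
    have h2 : m0 * (Real.exp (te - g * T) * (12 * m0)⁻¹) = Real.exp (te - g * T) / 12 := by field_simp
    rw [h2]; linarith
  have jb : ∀ T, Jt 3 (η * env T) (deriv b) T := by
    intro T
    -- as function of t
    have hbF : b = fun T => (fun t => m0 * (ph δ (1 * t + -tC) * ph δ (-1 * t + (te - tC)) * (chi (1 * t + 0) * chi (-1 * t + te)))) (g * T + 0) := by
      funext T; simp only [hb]
      have e1 : 1 * (g * T + 0) + -tC = g * T + -tC := by ring
      have e2 : -1 * (g * T + 0) + (te - tC) = -g * T + (te - tC) := by ring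
      have e3 : 1 * (g * T + 0) + 0 = g * T + 0 := by ring
      have e4 : -1 * (g * T + 0) + te = -g * T + te := by ring
      rw [e1, e2, e3, e4]
    have o1 : |(1 : ℝ)| ≤ 1 := by norm_num
    have o2 : |(-1 : ℝ)| ≤ 1 := by norm_num
    have j1 : Jt 4 (C1 * ph δ (1 * (g * T + 0) + -tC)) (fun t => ph δ (1 * t + -tC)) (g * T + 0) := Jt.sc o1 (hph _)
    have j2 : Jt 4 (C1 * ph δ (-1 * (g * T + 0) + (te - tC))) (fun t => ph δ (-1 * t + (te - tC))) (g * T + 0) := Jt.sc o2 (hph _)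
    have j3 : Jt 4 C3 (fun t => chi (1 * t + 0)) (g * T + 0) := Jt.sc o1 (hchi _)
    have j4 : Jt 4 C3 (fun t => chi (-1 * t + te)) (g * T + 0) := Jt.sc o2 (hchi _)
    have j5 := (((j1.mul j2).mul (j3.mul j4)).cmul m0)
    have j6 := Jt.scd (k := 3) (g := g) (c := 0) (t := T) habs j5
    rw [hbF]
    refine j6.mono ?_
    have e1 : 1 * (g * T + 0) + -tC = g * T + -tC := by ring
    have e2 : -1 * (g * T + 0) + (te - tC) = -g * T + (te - tC) := by ring
    rw [e1, e2, abs_of_pos hg0, abs_of_pos hm0']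
    have h7 : g * (m0 * (2 ^ 4 * (2 ^ 4 * (C1 * ph δ (g * T + -tC) * (C1 * ph δ (-g * T + (te - tC)))) * (2 ^ 4 * (C3 * C3))))) =
        (g * Cb) * env T := by
      rw [hCb, henv]; ring
    rw [h7]
    exact mul_le_mul_of_nonneg_right hgb (env_pos T).le
  have smch : ∀ (s c : ℝ) (T : ℝ), ContDiffAt ℝ ∞ (fun T => chi (s * T + c)) T := fun s c T =>
    (chi_smooth.comp ((contDiff_const.mul contDiff_id).add contDiff_const)).contDiffAt
  have smph : ∀ (s c : ℝ) (T : ℝ), ContDiffAt ℝ ∞ (fun T => ph δ (s * T + c)) T := fun s c T =>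
    ((ph_smooth δ).comp ((contDiff_const.mul contDiff_id).add contDiff_const)).contDiffAt
  have jth : ∀ T, Jt 3 η (deriv th) T := by
    intro T
    have e : th = fun T => (fun t => 1 + (-1) * chi t) (g * T + -ts) := rfl
    have j1 : Jt 4 (|1| + |(-1 : ℝ)| * C3) (fun t => 1 + (-1) * chi t) (g * T + -ts) := Jt.const.add ((hchi _).cmul (-1))
    -- use the derivative of chi only
    have hd : deriv th =ᶠ[𝓝 T] fun s => (-1) * deriv (fun T => chi (g * T + -ts)) s := by
      filter_upwards with s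
      have h1 : DifferentiableAt ℝ (fun T => chi (g * T + -ts)) s := (smch g (-ts) s).differentiableAt (by simp)
      have h2 := (h1.hasDerivAt.const_mul (-1 : ℝ)).const_add 1
      exact h2.deriv
    have j2 := ((Jt.scd (k := 3) (g := g) (c := -ts) (t := T) habs (hchi _)).cmul (-1)).congr hd.symm
    refine j2.mono ?_
    rw [abs_of_pos hg0]; norm_num; exact hgc
  have jA1 : ∀ T, Jt 3 η (deriv A1) T := by
    intro T
    have e : A1 = fun T => (fun t => chi (1 * t + 0) * (1 + (-1) * chi (1 * t + -ts))) (g * T + 0) := by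
      funext T; simp only [hA1]
      have e1 : 1 * (g * T + 0) + 0 = g * T + 0 := by ring
      have e2 : 1 * (g * T + 0) + -ts = g * T + -ts := by ring
      rw [e1, e2]
    have o1 : |(1 : ℝ)| ≤ 1 := by norm_num
    have j1 : Jt 4 C3 (fun t => chi (1 * t + 0)) (g * T + 0) := Jt.sc o1 (hchi _)
    have j2 : Jt 4 C3 (fun t => chi (1 * t + -ts)) (g * T + 0) := Jt.sc o1 (hchi _)
    have j3 := j1.mul ((Jt.const (c := (1 : ℝ))).add (j2.cmul (-1)))
    rw [e]
    refine (Jt.scd (k := 3) (g := g) (c := 0) (t := T) habs j3).mono ?_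
    rw [abs_of_pos hg0]
    have : g * (2 ^ 4 * (C3 * (|1| + |-1| * C3))) = g * Ca := by rw [hCa]; norm_num
    rw [this]; exact hga
  have jA3 : ∀ T, Jt 3 η (deriv A3) T := by
    intro T
    have e : A3 = fun T => (fun t => chi (-1 * t + te) * chi (1 * t + -ts)) (g * T + 0) := by
      funext T; simp only [hA3]
      have e1 : -1 * (g * T + 0) + te = -g * T + te := by ring
      have e2 : 1 * (g * T + 0) + -ts = g * T + -ts := by ring
      rw [e1, e2]
    have o1 : |(1 : ℝ)| ≤ 1 := by norm_num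
    have o2 : |(-1 : ℝ)| ≤ 1 := by norm_num
    have j1 : Jt 4 C3 (fun t => chi (-1 * t + te)) (g * T + 0) := Jt.sc o2 (hchi _)
    have j2 : Jt 4 C3 (fun t => chi (1 * t + -ts)) (g * T + 0) := Jt.sc o1 (hchi _)
    have j3 := j1.mul j2
    rw [e]
    refine (Jt.scd (k := 3) (g := g) (c := 0) (t := T) habs j3).mono ?_
    rw [abs_of_pos hg0]
    have : g * (2 ^ 4 * (C3 * C3)) ≤ g * Ca := by
      rw [hCa]; refine mul_le_mul_of_nonneg_left ?_ hg0.le; nlinarith
    exact this.trans hga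
  have lam_d : ∀ T, HasDerivAt lam (1 + 1 / p * deriv Mf (g * T + -ts)) T := by
    intro T
    have h1 : HasDerivAt (fun t : ℝ => g * t + -ts) g T := by
      have := ((hasDerivAt_id T).const_mul g).add_const (-ts)
      simpa using this
    have h2 : HasDerivAt (fun t => Mf (g * t + -ts)) (deriv Mf (g * T + -ts) * g) T :=
      hd_comp ((Mf_smooth.differentiable (by simp)).differentiableAt.hasDerivAt) h1
    have h3 := (hasDerivAt_id T).add (h2.const_mul (1 / (g * p)))
    refine h3.congr_deriv ?_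
    field_simp
  have jl : ∀ T, Jt 3 η (fun t => deriv lam t - 1) T := by
    intro T
    have e : (fun t => deriv lam t - 1) = fun t => 1 / (p : ℝ) * deriv Mf (g * t + -ts) := by
      funext t; rw [(lam_d t).deriv]; ring
    rw [e]
    refine ((Jt.sc habs (hmf _)).cmul (1 / (p : ℝ))).mono ?_
    rw [abs_of_pos (by positivity)]; exact hpη
  have cm : ∀ t, 0 ≤ chi t ∧ chi t ≤ 1 := fun t => ⟨chi_nonneg t, chi_le_one t⟩
  refine ⟨{ b := b, env := env, A1 := A1, A3 := A3, th := th, lam := lam, Tend := te / g, lam0 := (1 / (g * p)) * (ts + 1 / 2),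
            Tend_pos := by positivity, b_nonneg := ?_, b_le := ?_, env_pos := env_pos, env_le := ?_, b_sm := ?_, b_jet := jb,
            A1_mem := ?_, A3_mem := ?_, th_mem := ?_, A1_sm := ?_, A3_sm := ?_, th_sm := ?_, lam_sm := ?_,
            A1_jet := jA1, A3_jet := jA3, th_jet := jth, lam_jet := jl, lam_ge := ?_, phase := ?_, pre := ?_, post := ?_ }⟩
  · intro T
    rw [b_eq]
    exact mul_nonneg (env_pos T).le (mul_nonneg (cm _).1 (cm _).1)
  · intro T
    rw [b_eq]
    refine mul_le_of_le_one_right (env_pos T).le ?_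
    exact mul_le_one₀ (cm _).2 (cm _).1 (cm _).2
  · intro T
    simp only [henv]
    refine mul_le_mul_of_nonneg_left ?_ hm0'.le
    calc ph δ (g * T + -tC) * ph δ (-g * T + (te - tC)) ≤ Real.exp δ * Real.exp δ :=
          mul_le_mul (ph_le hδ) (ph_le hδ) (ph_gt hδ).le (Real.exp_pos _).le
      _ = Real.exp (2 * δ) := by rw [← Real.exp_add]; congr 1; ring
      _ ≤ _ := hα
  · intro T
    exact contDiffAt_const.mul (((smph g (-tC) T).mul (smph (-g) (te - tC) T)).mul ((smch g 0 T).mul (smch (-g) te T)))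
  · intro T
    obtain ⟨h1, h2⟩ := cm (g * T + 0)
    obtain ⟨h3, h4⟩ := cm (g * T + -ts)
    simp only [hA1]
    constructor <;> nlinarith
  · intro T
    obtain ⟨h1, h2⟩ := cm (-g * T + te)
    obtain ⟨h3, h4⟩ := cm (g * T + -ts)
    simp only [hA3]
    constructor <;> nlinarith
  · intro T
    obtain ⟨h3, h4⟩ := cm (g * T + -ts)
    simp only [hth]
    constructor <;> linarith
  · intro T
    exact (smch g 0 T).mul (contDiffAt_const.add (contDiffAt_const.mul (smch g (-ts) T)))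
  · intro T
    exact (smch (-g) te T).mul (smch g (-ts) T)
  · intro T
    exact contDiffAt_const.add (contDiffAt_const.mul (smch g (-ts) T))
  · intro T
    exact contDiffAt_id.add (contDiffAt_const.mul
      ((Mf_smooth.comp ((contDiff_const.mul contDiff_id).add contDiff_const)).contDiffAt))
  · intro T
    simp only [hlam]
    have h1 := Mf_ge (g * T + -ts)
    have h2 : 1 / (g * p) ≤ 1 / g := by
      apply one_div_le_one_div_of_le hg0
      have : (1 : ℝ) ≤ p := by linarith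
      nlinarith
    have h3 : 0 ≤ 1 / (g * p) := by positivity
    nlinarith
  · intro T
    have cont : Continuous fun t : ℝ => g * t := by fun_prop
    rcases le_or_gt (g * T) 1 with h1 | h1
    · left
      refine ⟨env_small T h1, Or.inl ?_⟩
      simp only [hth]; rw [chi_zero (by linarith)]; ring
    rcases lt_or_ge (g * T) tC with h2 | h2
    · right; right; left
      have hev : ∀ᶠ t in 𝓝 T, 1 < g * t ∧ g * t < tC :=
        (cont.continuousAt.eventually (lt_mem_nhds h1)).and (cont.continuousAt.eventually (gt_mem_nhds h2))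
      refine ⟨?_, ⟨m0 * Real.exp (-tC), ?_⟩, ?_, ?_, ?_, ?_⟩
      · rw [b_eq, chi_one (by linarith), chi_one (by linarith)]; ring
      · filter_upwards [hev] with t ht
        simp only [hb]
        rw [ph_neg hδ (by linarith : g * t + -tC ≤ 0), ph_pos' hδ (by linarith : δ ≤ -g * t + (te - tC)),
          chi_one (by linarith), chi_one (by linarith), Real.exp_add]
        ring
      · filter_upwards [hev] with t ht
        simp only [hA1]
        rw [chi_one (by linarith), chi_zero (by linarith)]; ring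
      · filter_upwards [hev] with t ht
        simp only [hA3]
        rw [chi_zero (t := g * t + -ts) (by linarith)]; ring
      · filter_upwards [hev] with t ht
        simp only [hth]
        rw [chi_zero (by linarith)]; ring
      · filter_upwards [hev] with t ht
        rw [(lam_d t).deriv]
        have : Mf =ᶠ[𝓝 (g * t + -ts)] fun _ => 0 := by
          filter_upwards [Iio_mem_nhds (show g * t + -ts < 0 by linarith)] with s hs
          rw [Mf, chi_zero (le_of_lt hs)]; ring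
        rw [this.deriv_eq]; simp
    rcases le_or_gt (g * T) (te - tC) with h3 | h3
    · right; left
      constructor
      · rw [b_eq, chi_one (by linarith), chi_one (by linarith)]; ring
      · simp only [henv]
        have q1 := (ph_mid hδ (τ := g * T + -tC) (by linarith)).1
        have q2 := (ph_mid hδ (τ := -g * T + (te - tC)) (by linarith)).1
        have : 1 ≤ ph δ (g * T + -tC) * ph δ (-g * T + (te - tC)) := by nlinarith
        nlinarith
    rcases lt_or_ge (g * T) (te - 1) with h4 | h4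
    · right; right; right
      have hev : ∀ᶠ t in 𝓝 T, te - tC < g * t ∧ g * t < te - 1 :=
        (cont.continuousAt.eventually (lt_mem_nhds h3)).and (cont.continuousAt.eventually (gt_mem_nhds h4))
      refine ⟨?_, ⟨m0 * Real.exp (te - tC), ?_⟩, ?_, ?_, ?_, ?_⟩
      · rw [b_eq, chi_one (by linarith), chi_one (by linarith)]; ring
      · filter_upwards [hev] with t ht
        simp only [hb]
        rw [ph_pos' hδ (by linarith : δ ≤ g * t + -tC), ph_neg hδ (by linarith : -g * t + (te - tC) ≤ 0),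
          chi_one (by linarith), chi_one (by linarith), Real.exp_add]
        ring
      · filter_upwards [hev] with t ht
        simp only [hA1]
        rw [chi_one (t := g * t + -ts) (by linarith)]; ring
      · filter_upwards [hev] with t ht
        simp only [hA3]
        rw [chi_one (by linarith), chi_one (by linarith)]; ring
      · filter_upwards [hev] with t ht
        simp only [hth]
        rw [chi_one (by linarith)]; ring
      · filter_upwards [hev] with t ht
        rw [(lam_d t).deriv]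
        have : Mf =ᶠ[𝓝 (g * t + -ts)] fun s => s - 1 / 2 := by
          filter_upwards [Ioi_mem_nhds (show 1 < g * t + -ts by linarith)] with s hs
          rw [Mf, chi_one (le_of_lt hs)]; ring
        rw [this.deriv_eq, (hd_subc (1 / 2) _).deriv]; ring
    · left
      refine ⟨env_small' T h4, Or.inr ?_⟩
      simp only [hth]; rw [chi_one (by linarith)]; ring
  · intro T hT
    have hgT : g * T ≤ 0 := mul_nonpos_of_nonneg_of_nonpos hg0.le hT
    refine ⟨?_, ?_, ?_, ?_, ?_⟩
    · rw [b_eq, chi_zero (by linarith)]; ring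
    · simp only [hA1]; rw [chi_zero (by linarith)]; ring
    · simp only [hA3]; rw [chi_zero (t := g * T + -ts) (by linarith)]; ring
    · simp only [hth]; rw [chi_zero (by linarith)]; ring
    · simp only [hlam, Mf]; rw [chi_zero (by linarith)]; ring
  · intro T hT
    have hgT : te ≤ g * T := by rw [div_le_iff₀ hg0] at hT; linarith
    refine ⟨?_, ?_, ?_, ?_, ?_, ?_⟩
    · rw [b_eq, chi_zero (t := -g * T + te) (by linarith)]; ring
    · simp only [hA1]; rw [chi_one (t := g * T + -ts) (by linarith)]; ring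
    · simp only [hA3]; rw [chi_zero (t := -g * T + te) (by linarith)]; ring
    · simp only [hth]; rw [chi_one (by linarith)]; ring
    · simp only [hlam, Mf]; rw [chi_one (by linarith)]; field_simp; ring
    · simp only [hlam, Mf]; rw [chi_one (by linarith)]
      have : 0 ≤ 1 / (g * p) * (1 * (g * T + -ts - 1 / 2)) := mul_nonneg (by positivity) (by linarith)
      linarith

end Pool.Agent.J6H20.RL
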