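import Mathlib
import Pool.Agent.J6H20.RL.Time
import Pool.Agent.J6H20.RL.Nondeg

/-!
# The interior of the cells
-/

set_option autoImplicit false

open Filter Topology
open scoped ContDiff

namespace Pool.Agent.J6H20.RL

theorem JC.mulX {a b X : ℝ} {f g : V → ℝ} {x : V} (hf : JC 2 (a * X) f x) (hg : JC 2 b g x) :
    JC 2 ((4 * a * b) * X) (fun y => f y * g y) x := (hf.mul hg).mono (by
      have : (2 : ℝ) ^ 2 * (a * X * b) = (4 * a * b) * X := by ring
      exact this.le)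

theorem JC.Xmul {a b X : ℝ} {f g : V → ℝ} {x : V} (hf : JC 2 a f x) (hg : JC 2 (b * X) g x) :
    JC 2 ((4 * a * b) * X) (fun y => f y * g y) x := (hf.mul hg).mono (by
      have : (2 : ℝ) ^ 2 * (a * (b * X)) = (4 * a * b) * X := by ring
      exact this.le)

theorem JC.addX {a b X : ℝ} {f g : V → ℝ} {x : V} (hf : JC 2 (a * X) f x) (hg : JC 2 (b * X) g x) :
    JC 2 ((a + b) * X) (fun y => f y + g y) x := (hf.add hg).mono (by
      have : a * X + b * X = (a + b) * X := by ring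
      exact this.le)

theorem JC.subX {a b X : ℝ} {f g : V → ℝ} {x : V} (hf : JC 2 (a * X) f x) (hg : JC 2 (b * X) g x) :
    JC 2 ((a + b) * X) (fun y => f y - g y) x := (hf.sub hg).mono (by
      have : a * X + b * X = (a + b) * X := by ring
      exact this.le)

/-- jets from the value and the first derivatives -/
theorem JC.mk' {k : ℕ} {M : ℝ} {f : V → ℝ} {x : V} (hs : SA f x) (h0 : |f x| ≤ M) (h : ∀ i, JC k M (RL.pd i f) x) :
    JC (k + 1) M f x := ⟨hs, h0, fun i => (h i).bd⟩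

/-- the sine profile of the amplitude -/
theorem jOm {k : ℕ} {q c : ℝ} {x : V} (hq0 : 0 ≤ q) (hq1 : q ≤ 1) :
    JC (k + 1) (|Real.sin (q * x 1 + c)| + q) (fun y : V => Real.sin (q * y 1 + c)) x := by
  have ha : |q| ≤ 1 := by rw [abs_of_nonneg hq0]; exact hq1
  have hs : SA (fun y : V => Real.sin (q * y 1 + c)) x := SA_sc (F := Real.sin) Real.contDiff_sin.contDiffAt
  refine JC.mk' hs (by linarith) fun i => ?_
  have hc : JC k 1 (fun y : V => Real.cos (q * y 1 + c)) x :=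
    JC.sc (F := Real.cos) ha Real.contDiff_cos.contDiffAt (fun n _ => Real.abs_iteratedDeriv_cos_le_one n _)
  have hM : q ≤ |Real.sin (q * x 1 + c)| + q := by linarith [abs_nonneg (Real.sin (q * x 1 + c))]
  have e : RL.pd i (fun y : V => Real.sin (q * y 1 + c)) = fun y => if (1 : Fin 3) = i then q * Real.cos (q * y 1 + c) else 0 := by
    funext y
    rw [pd_sc (F := Real.sin) Real.differentiable_sin.differentiableAt, (Real.hasDerivAt_sin _).deriv]
  rw [e]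
  by_cases hi : (1 : Fin 3) = i
  · have e2 : (fun y : V => if (1 : Fin 3) = i then q * Real.cos (q * y 1 + c) else 0) = fun y => q * Real.cos (q * y 1 + c) := by
      funext y; rw [if_pos hi]
    rw [e2]
    exact (hc.cmul q).mono (by rw [abs_of_nonneg hq0]; linarith)
  · have e2 : (fun y : V => if (1 : Fin 3) = i then q * Real.cos (q * y 1 + c) else 0) = fun _ => 0 := by
      funext y; rw [if_neg hi]
    rw [e2]
    exact ⟨contDiffAt_const, JB.mono (by linarith) JB.zero⟩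

section
variable {η g k m0 α : ℝ} (P : TP η g k m0 α)

noncomputable def dT (a1 a3 : ℝ) (T : ℝ) : ℝ := P.b T * (a1 * P.A1 T + a3 * P.A3 T)

/-- the phase correction -/
noncomputable def PhC (a1 a3 : ℝ) (y : V) : ℝ := P.A1 (y 0) * Ph a1 y + P.A3 (y 0) * Ph a3 y

noncomputable def xiB (a1 a3 : ℝ) (y : V) : ℝ := -P.lam (y 0) + PhC P a1 a3 y

noncomputable def ccC (y : V) : ℝ := deriv P.lam (y 0) * deriv P.lam (y 0)

noncomputable def RB (a1 a3 q c0 : ℝ) : V → ℝ :=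
  R4 P.b (dT P a1 a3) P.th (fun Y => Real.sin (q * Y + c0)) Real.cos (fun Y => Real.cos (k * Y + 0))

variable {P}

theorem jb (hη : η ≤ 1) (T : ℝ) : Jt 4 (P.env T) P.b T := by
  have h1 := P.env_pos T
  refine Jt.mk' ?_ (P.b_sm T) ((P.b_jet T).mono (mul_le_of_le_one_left h1.le hη))
  rw [abs_of_nonneg (P.b_nonneg T)]; exact P.b_le T

theorem jA1 (hη : η ≤ 1) (T : ℝ) : Jt 4 1 P.A1 T := by
  refine Jt.mk' ?_ (P.A1_sm T) ((P.A1_jet T).mono hη)
  rw [abs_of_nonneg (P.A1_mem T).1]; exact (P.A1_mem T).2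

theorem jA3 (hη : η ≤ 1) (T : ℝ) : Jt 4 1 P.A3 T := by
  refine Jt.mk' ?_ (P.A3_sm T) ((P.A3_jet T).mono hη)
  rw [abs_of_nonneg (P.A3_mem T).1]; exact (P.A3_mem T).2

theorem jth (hη : η ≤ 1) (T : ℝ) : Jt 4 1 P.th T := by
  refine Jt.mk' ?_ (P.th_sm T) ((P.th_jet T).mono hη)
  rw [abs_of_nonneg (P.th_mem T).1]; exact (P.th_mem T).2

theorem jd (hη : η ≤ 1) {a1 a3 ηa : ℝ} (h1 : |a1| ≤ ηa) (h3 : |a3| ≤ ηa) (T : ℝ) :
    Jt 4 (32 * ηa * P.env T) (dT P a1 a3) T := by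
  have h := (jb (P := P) hη T).mul (((jA1 (P := P) hη T).cmul a1).add ((jA3 (P := P) hη T).cmul a3))
  refine h.mono ?_
  have := P.env_pos T
  have e : (2 : ℝ) ^ 4 * (P.env T * (|a1| * 1 + |a3| * 1)) = 16 * (|a1| + |a3|) * P.env T := by ring
  rw [e]
  refine mul_le_mul_of_nonneg_right ?_ this.le
  linarith

theorem jlam1 (T : ℝ) : Jt 3 η (fun t => deriv P.lam t - 1) T := P.lam_jet T

theorem jlam (hη : η ≤ 1) (T : ℝ) : Jt 3 2 (deriv P.lam) T := by
  have h := (P.lam_jet T).add (Jt.const (k := 3) (c := (1 : ℝ)) (t := T))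
  have e : (fun s => deriv P.lam s - 1 + 1) = deriv P.lam := by funext s; ring
  rw [e] at h
  exact h.mono (by rw [abs_one]; linarith)

theorem jPhC {Cp : ℝ} (hη : η ≤ 1) (hCp : ∀ a : ℝ, |a| ≤ 1 / 50 → ∀ x : V, JC 4 (Cp * |a|) (Ph a) x) {a1 a3 ηa : ℝ}
    (h1 : |a1| ≤ ηa) (h3 : |a3| ≤ ηa) (ha : ηa ≤ 1 / 50) (hC0 : 0 ≤ Cp) (hCη : 32 * (Cp * ηa) ≤ η) (x : V) :
    JC 4 η (PhC P a1 a3) x := by
  have u1 : JC 4 (16 * (Cp * |a1|)) (fun y => P.A1 (y 0) * Ph a1 y) x :=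
    ((jA1 (P := P) hη (x 0)).co.mul (hCp a1 (h1.trans ha) x)).mono (by norm_num)
  have u3 : JC 4 (16 * (Cp * |a3|)) (fun y => P.A3 (y 0) * Ph a3 y) x :=
    ((jA3 (P := P) hη (x 0)).co.mul (hCp a3 (h3.trans ha) x)).mono (by norm_num)
  refine (u1.add u3).mono ?_
  have := mul_le_mul_of_nonneg_left h1 hC0
  have := mul_le_mul_of_nonneg_left h3 hC0
  linarith

theorem sinO_d (q c0 Y : ℝ) : deriv (fun Y => Real.sin (q * Y + c0)) Y = q * Real.cos (q * Y + c0) := by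
  have h1 : HasDerivAt (fun t : ℝ => q * t + c0) q Y := by
    have := ((hasDerivAt_id Y).const_mul q).add_const c0
    simpa using this
  rw [(hd_comp (Real.hasDerivAt_sin _) h1).deriv]; ring

theorem sinO_dd (q c0 Y : ℝ) : deriv (deriv (fun Y => Real.sin (q * Y + c0))) Y = -(q ^ 2 * Real.sin (q * Y + c0)) := by
  have h0 : deriv (fun Y => Real.sin (q * Y + c0)) = fun Y => q * Real.cos (q * Y + c0) := funext fun Y => sinO_d q c0 Y
  have h1 : HasDerivAt (fun t : ℝ => q * t + c0) q Y := by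
    have := ((hasDerivAt_id Y).const_mul q).add_const c0
    simpa using this
  rw [h0, (hd_cmul q (hd_comp (Real.hasDerivAt_cos _) h1)).deriv]; ring

theorem cosO_d (q c0 Y : ℝ) : deriv (fun Y => Real.cos (q * Y + c0)) Y = -(q * Real.sin (q * Y + c0)) := by
  have h1 : HasDerivAt (fun t : ℝ => q * t + c0) q Y := by
    have := ((hasDerivAt_id Y).const_mul q).add_const c0
    simpa using this
  rw [(hd_comp (Real.hasDerivAt_cos _) h1).deriv]; ring

theorem cosO_dd (q c0 Y : ℝ) : deriv (deriv (fun Y => Real.cos (q * Y + c0))) Y = -(q ^ 2 * Real.cos (q * Y + c0)) := by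
  have h0 : deriv (fun Y => Real.cos (q * Y + c0)) = fun Y => -(q * Real.sin (q * Y + c0)) := funext fun Y => cosO_d q c0 Y
  have h1 : HasDerivAt (fun t : ℝ => q * t + c0) q Y := by
    have := ((hasDerivAt_id Y).const_mul q).add_const c0
    simpa using this
  rw [h0, (hd_neg (hd_cmul q (hd_comp (Real.hasDerivAt_sin _) h1))).deriv]; ring

theorem sinO_sm (q c0 Y : ℝ) : ContDiffAt ℝ ∞ (fun Y => Real.sin (q * Y + c0)) Y :=
  (Real.contDiff_sin.comp ((contDiff_const.mul contDiff_id).add contDiff_const)).contDiffAt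

theorem cosO_sm (q c0 Y : ℝ) : ContDiffAt ℝ ∞ (fun Y => Real.cos (q * Y + c0)) Y :=
  (Real.contDiff_cos.comp ((contDiff_const.mul contDiff_id).add contDiff_const)).contDiffAt

theorem dT_sm (a1 a3 T : ℝ) : ContDiffAt ℝ ∞ (dT P a1 a3) T :=
  (P.b_sm T).mul ((contDiffAt_const.mul (P.A1_sm T)).add (contDiffAt_const.mul (P.A3_sm T)))

theorem cos_dd (Y : ℝ) : deriv (deriv Real.cos) Y = -Real.cos Y := by
  have h0 : deriv Real.cos = fun Y => -Real.sin Y := funext fun Y => (Real.hasDerivAt_cos Y).deriv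
  rw [h0, (hd_neg (Real.hasDerivAt_sin Y)).deriv]

/-- the residual in the interior of the cells -/
theorem residB (κ ξ : V → ℝ) (a1 a3 q c0 : ℝ) (y : V) : resid κ (ccC P) ξ (RB P a1 a3 q c0) y =
    (((deriv (deriv P.b) (y 0) * Real.sin (q * y 1 + c0)) + (2 * pd 0 ξ y) * (deriv P.b (y 0) * Real.sin (q * y 1 + c0))) * Real.sin (y 2)
      + ((P.b (y 0) * Real.sin (q * y 1 + c0)) * ((ccC P y - 1) - (κ y - (1 - q ^ 2))) + (2 * pd 1 ξ y) * (P.b (y 0) * (q * Real.cos (q * y 1 + c0)))) * Real.sin (y 2)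
      + (2 * κ y * pd 2 ξ y) * ((P.b (y 0) * Real.sin (q * y 1 + c0)) * Real.cos (y 2)))
    + ((((deriv (deriv (dT P a1 a3)) (y 0) * Real.sin (q * y 1 + c0)) + (2 * pd 0 ξ y) * (deriv (dT P a1 a3) (y 0) * Real.sin (q * y 1 + c0))) * Real.sin (3 * y 2 + 0)
      + ((dT P a1 a3 (y 0) * Real.sin (q * y 1 + c0)) * ((ccC P y - q ^ 2) - 9 * κ y) + (2 * pd 1 ξ y) * (dT P a1 a3 (y 0) * (q * Real.cos (q * y 1 + c0)))) * Real.sin (3 * y 2 + 0)
      + (2 * κ y * pd 2 ξ y) * ((dT P a1 a3 (y 0) * Real.sin (q * y 1 + c0)) * (3 * Real.cos (3 * y 2 + 0)))))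
    + ((deriv (deriv P.th) (y 0) + (2 * pd 0 ξ y) * deriv P.th (y 0)) * (Real.cos (y 1) - Real.cos (k * y 1 + 0))
      + P.th (y 0) * ((ccC P y - 1) * Real.cos (y 1) - (2 * pd 1 ξ y) * Real.sin (y 1))
      + (1 - P.th (y 0)) * ((ccC P y - k ^ 2) * Real.cos (k * y 1 + 0) - (2 * pd 1 ξ y) * (k * Real.sin (k * y 1 + 0)))) := by
  simp only [resid, RB]
  rw [R4_formula (P.b_sm _) (dT_sm _ _ _) (P.th_sm _) (sinO_sm _ _ _) Real.contDiff_cos.contDiffAt (cosO_sm _ _ _)]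
  rw [sinO_dd, sinO_d, cosO_dd, cosO_d, cos_dd, (Real.hasDerivAt_cos _).deriv]
  simp only [add_zero]
  ring

end

end Pool.Agent.J6H20.RL
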