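import Mathlib
import Pool.Agent.J6H20.RL.ZoneB

/-!
# Bounds for the residual in the interior of the cells
-/

set_option autoImplicit false

open Filter Topology
open scoped ContDiff

namespace Pool.Agent.J6H20.RL

section
variable {η g k m0 α : ℝ} {P : TP η g k m0 α}

theorem iS3 {m : ℕ} {x : V} : JC m (3 ^ m * 1) (fun y : V => Real.sin (3 * y 2 + 0)) x :=
  JC.scG (G := 3) (by norm_num) (F := Real.sin) (by norm_num) Real.contDiff_sin.contDiffAt
    (fun n _ => Real.abs_iteratedDeriv_sin_le_one n _)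

theorem iC3 {m : ℕ} {x : V} : JC m (3 ^ m * 1) (fun y : V => Real.cos (3 * y 2 + 0)) x :=
  JC.scG (G := 3) (by norm_num) (F := Real.cos) (by norm_num) Real.contDiff_cos.contDiffAt
    (fun n _ => Real.abs_iteratedDeriv_cos_le_one n _)

theorem iCk {m : ℕ} {x : V} (h : |k| ≤ 2) : JC m (2 ^ m * 1) (fun y : V => Real.cos (k * y 1 + 0)) x :=
  JC.scG (G := 2) (by norm_num) (F := Real.cos) h Real.contDiff_cos.contDiffAt
    (fun n _ => Real.abs_iteratedDeriv_cos_le_one n _)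

theorem iSk {m : ℕ} {x : V} (h : |k| ≤ 2) : JC m (2 ^ m * 1) (fun y : V => Real.sin (k * y 1 + 0)) x :=
  JC.scG (G := 2) (by norm_num) (F := Real.sin) h Real.contDiff_sin.contDiffAt
    (fun n _ => Real.abs_iteratedDeriv_sin_le_one n _)

theorem SA_lam (y : V) : SA (fun y : V => -P.lam (y 0)) y :=
  (ContDiffAt.comp y (g := P.lam) (f := fun y : V => y 0) (P.lam_sm _) (coordSA 0 y)).neg

theorem pd_lam (y : V) (i : Fin 3) : pd i (fun y : V => -P.lam (y 0)) y = if (0 : Fin 3) = i then -deriv P.lam (y 0) else 0 := by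
  have hd : DifferentiableAt ℝ P.lam (y 0) := (P.lam_sm _).differentiableAt (by simp)
  rw [pd_neg, pd_coord hd]
  split <;> simp

/-- derivatives of the exponent -/
theorem xiB_pd {a1 a3 : ℝ} (hPh : ∀ y, SA (PhC P a1 a3) y) (i : Fin 3) (y : V) :
    pd i (xiB P a1 a3) y = (if (0 : Fin 3) = i then -deriv P.lam (y 0) else 0) + pd i (PhC P a1 a3) y := by
  have h : pd i (xiB P a1 a3) y = _ := pd_add (SA_lam (P := P) y).diff (hPh y).diff i
  rw [h, pd_lam]

theorem jc_lam (x : V) (hη : η ≤ 1) : JC 2 2 (fun y : V => deriv P.lam (y 0)) x := ((jlam (P := P) hη (x 0)).le (by norm_num)).co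

theorem jc_cc (x : V) (hη0 : 0 ≤ η) (hη : η ≤ 1) : JC 2 16 (ccC P) x ∧ JC 2 (12 * η) (fun y => ccC P y - 1) x := by
  have h1 := jc_lam (P := P) x hη
  refine ⟨(h1.mul h1).mono (by norm_num), ?_⟩
  have h2 : JC 2 η (fun y : V => deriv P.lam (y 0) - 1) x := ((P.lam_jet (x 0)).le (by norm_num)).co
  have h3 : JC 2 3 (fun y : V => deriv P.lam (y 0) + 1) x := (h1.add (JC.const (c := (1 : ℝ)))).mono (by norm_num)
  refine ((h2.mul h3).congr (Eventually.of_forall fun y => ?_)).mono (by norm_num; linarith)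
  simp only [ccC]; ring

/-- **the residual is small during the slow phases** -/
theorem resid_stat {κ : V → ℝ} {a1 a3 ηa q c0 E : ℝ} {x : V} (hη0 : 0 < η) (hη : η ≤ 1) (h1 : |a1| ≤ ηa) (h3 : |a3| ≤ ηa)
    (hηa : 32 * ηa ≤ η) (hPh : ∀ y, JC 4 η (PhC P a1 a3) y) (hq0 : 0 ≤ q) (hq1 : q ≤ 1) (hk : |k| ≤ 2) (hk2 : |1 - k ^ 2| ≤ η)
    (hκ : JC 2 η (fun y => κ y - (1 - q ^ 2)) x) (hE : 1 ≤ E)
    (hEe : P.env (x 0) * (|Real.sin (q * x 1 + c0)| + q) ≤ E) :
    JC 2 (1000000 * (η * E)) (resid κ (ccC P) (xiB P a1 a3) (RB P a1 a3 q c0)) x := by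
  have henv := P.env_pos (x 0)
  set en := P.env (x 0) with hen
  set s := |Real.sin (q * x 1 + c0)| with hs
  have hs0 : 0 ≤ s := abs_nonneg _
  set X := η * E with hX
  have hηX : η ≤ X := by rw [hX]; nlinarith
  have hX0 : 0 ≤ X := by linarith
  have hq2 : q ≤ s + q := by linarith
  -- basic jets
  have jO : JC 2 (s + q) (fun y : V => Real.sin (q * y 1 + c0)) x := jOm (k := 1) hq0 hq1
  have jOc : JC 2 (s + q) (fun y : V => q * Real.cos (q * y 1 + c0)) x := by
    have hc : JC 2 1 (fun y : V => Real.cos (q * y 1 + c0)) x :=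
      JC.sc (F := Real.cos) (by rw [abs_of_nonneg hq0]; exact hq1) Real.contDiff_cos.contDiffAt (fun n _ => Real.abs_iteratedDeriv_cos_le_one n _)
    exact (hc.cmul q).mono (by rw [abs_of_nonneg hq0]; linarith)
  have mkb : ∀ {F : ℝ → ℝ} {f : V → ℝ}, Jt 2 en F (x 0) → JC 2 (s + q) f x → JC 2 (4 * E) (fun y => F (y 0) * f y) x := by
    intro F f hF hf
    refine (hF.co.mul hf).mono ?_
    norm_num; linarith
  have mkX : ∀ {F : ℝ → ℝ} {f : V → ℝ}, Jt 2 (η * en) F (x 0) → JC 2 (s + q) f x → JC 2 (4 * X) (fun y => F (y 0) * f y) x := by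
    intro F f hF hf
    refine (hF.co.mul hf).mono ?_
    have : η * (en * (s + q)) ≤ η * E := mul_le_mul_of_nonneg_left hEe hη0.le
    have e : (2 : ℝ) ^ 2 * (η * en * (s + q)) = 4 * (η * (en * (s + q))) := by ring
    rw [e, hX]; linarith
  have Jb := (jb (P := P) hη (x 0))
  have Jb1 := P.b_jet (x 0)
  have Jd := (jd (P := P) hη h1 h3 (x 0))
  have Jd' : Jt 4 (η * en) (dT P a1 a3) (x 0) := Jd.mono (mul_le_mul_of_nonneg_right hηa henv.le)
  have bO := mkb (Jb.le (by norm_num)) jO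
  have bOc := mkb (Jb.le (by norm_num)) jOc
  have b1O := mkX (Jb1.le (by norm_num)) jO
  have b2O := mkX (Jb1.deriv) jO
  have dO := mkX (Jd'.le (by norm_num)) jO
  have dOc := mkX (Jd'.le (by norm_num)) jOc
  have d1O := mkX ((Jd'.deriv).le (by norm_num)) jO
  have d2O := mkX (Jd'.deriv.deriv) jO
  have iS : JC 2 1 (fun y : V => Real.sin (y 2)) x := JC.sin
  have iC : JC 2 1 (fun y : V => Real.cos (y 2)) x := JC.cos
  have i3 : JC 2 9 (fun y : V => Real.sin (3 * y 2 + 0)) x := iS3.mono (by norm_num)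
  have i3c : JC 2 27 (fun y : V => 3 * Real.cos (3 * y 2 + 0)) x := (iC3.cmul 3).mono (by norm_num)
  have hsa : ∀ y, SA (PhC P a1 a3) y := fun y => (hPh y).sm
  -- the coefficients
  have B0 : JC 2 6 (fun y => 2 * pd 0 (xiB P a1 a3) y) x := by
    have u := ((jc_lam (P := P) x hη).neg.add (((hPh x).pd 0).le (by norm_num : 2 ≤ 3))).cmul 2
    refine (u.congr (Eventually.of_forall fun y => ?_)).mono (by norm_num; linarith)
    rw [xiB_pd hsa, if_pos rfl]
  have B1 : JC 2 (2 * η) (fun y => 2 * pd 1 (xiB P a1 a3) y) x := by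
    have u := (((hPh x).pd 1).le (by norm_num : 2 ≤ 3)).cmul 2
    refine (u.congr (Eventually.of_forall fun y => ?_)).mono (by norm_num)
    rw [xiB_pd hsa, if_neg (by decide)]; ring
  have P2 : JC 2 η (pd 2 (xiB P a1 a3)) x := by
    have u := (((hPh x).pd 2).le (by norm_num : 2 ≤ 3))
    refine (u.congr (Eventually.of_forall fun y => ?_))
    rw [xiB_pd hsa, if_neg (by decide)]; ring
  have Jκ : JC 2 2 κ x := by
    have u := hκ.add (JC.const (c := (1 - q ^ 2)))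
    refine (u.congr (Eventually.of_forall fun y => by ring)).mono ?_
    have : |1 - q ^ 2| ≤ 1 := by rw [abs_le]; constructor <;> nlinarith
    linarith
  have B2 : JC 2 (16 * η) (fun y => 2 * κ y * pd 2 (xiB P a1 a3) y) x :=
    ((Jκ.cmul 2).mul P2).mono (by norm_num; linarith)
  obtain ⟨Jc, Jc1⟩ := jc_cc (P := P) x hη0.le hη
  have cm : JC 2 (13 * η) (fun y => (ccC P y - 1) - (κ y - (1 - q ^ 2))) x := (Jc1.sub hκ).mono (by linarith)
  have c9 : JC 2 35 (fun y => (ccC P y - q ^ 2) - 9 * κ y) x := by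
    refine ((Jc.sub (JC.const (c := q ^ 2))).sub (Jκ.cmul 9)).mono ?_
    have : q ^ 2 ≤ 1 := pow_le_one₀ hq0 hq1
    norm_num; linarith
  have cmX : JC 2 (208 * X) (fun y => (P.b (y 0) * Real.sin (q * y 1 + c0)) * ((ccC P y - 1) - (κ y - (1 - q ^ 2)))) x :=
    (bO.mul cm).mono (by rw [hX]; have : (2 : ℝ) ^ 2 * (4 * E * (13 * η)) = 208 * (η * E) := by ring
                         exact this.le)
  have B1X : JC 2 (32 * X) (fun y => (2 * pd 1 (xiB P a1 a3) y) * (P.b (y 0) * (q * Real.cos (q * y 1 + c0)))) x :=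
    (B1.mul bOc).mono (by rw [hX]; have : (2 : ℝ) ^ 2 * (2 * η * (4 * E)) = 32 * (η * E) := by ring
                          exact this.le)
  have B2X : JC 2 (1024 * X) (fun y => (2 * κ y * pd 2 (xiB P a1 a3) y) * ((P.b (y 0) * Real.sin (q * y 1 + c0)) * Real.cos (y 2))) x :=
    (B2.mul (bO.mul iC)).mono (by rw [hX]; have : (2 : ℝ) ^ 2 * (16 * η * (2 ^ 2 * (4 * E * 1))) = 1024 * (η * E) := by ring
                                  exact this.le)
  have B1' : JC 2 2 (fun y => 2 * pd 1 (xiB P a1 a3) y) x := B1.mono (by linarith)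
  have B2' : JC 2 16 (fun y => 2 * κ y * pd 2 (xiB P a1 a3) y) x := B2.mono (by linarith)
  -- the three parts
  have T1 := (((b2O.addX (B0.Xmul b1O)).mulX iS).addX ((cmX.addX B1X).mulX iS)).addX B2X
  have T2 := (((d2O.addX (B0.Xmul d1O)).mulX i3).addX (((dO.mulX c9).addX (B1'.Xmul dOc)).mulX i3)).addX (B2'.Xmul (dO.mulX i3c))
  have toX : ∀ {a : ℝ} {f : V → ℝ}, 0 ≤ a → JC 2 (a * η) f x → JC 2 (a * X) f x := fun ha h =>
    h.mono (mul_le_mul_of_nonneg_left hηX ha)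
  have th2 : JC 2 (1 * X) (fun y : V => deriv (deriv P.th) (y 0)) x := toX (by norm_num) (((P.th_jet (x 0)).deriv).co.mono (by linarith))
  have th1 : JC 2 (1 * X) (fun y : V => deriv P.th (y 0)) x := toX (by norm_num) (((P.th_jet (x 0)).le (by norm_num)).co.mono (by linarith))
  have th0 : JC 2 1 (fun y : V => P.th (y 0)) x := ((jth (P := P) hη (x 0)).le (by norm_num)).co
  have th0' : JC 2 2 (fun y : V => 1 - P.th (y 0)) x := ((JC.const (c := (1 : ℝ))).sub th0).mono (by norm_num)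
  have ck : JC 2 4 (fun y : V => Real.cos (k * y 1 + 0)) x := (iCk hk).mono (by norm_num)
  have sk : JC 2 8 (fun y : V => k * Real.sin (k * y 1 + 0)) x := ((iSk hk).cmul k).mono (by
    have : |k| * (2 ^ 2 * 1) ≤ 2 * (2 ^ 2 * 1) := mul_le_mul_of_nonneg_right hk (by norm_num)
    norm_num at this ⊢; linarith)
  have c1 : JC 2 1 (fun y : V => Real.cos (y 1)) x := JC.cos
  have s1 : JC 2 1 (fun y : V => Real.sin (y 1)) x := JC.sin
  have Jc1X := toX (by norm_num) Jc1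
  have B1X' := toX (by norm_num) B1
  have JckX : JC 2 (13 * X) (fun y => ccC P y - k ^ 2) x := by
    refine toX (by norm_num) (((Jc1.add (JC.const (c := 1 - k ^ 2))).congr (Eventually.of_forall fun y => ?_)).mono ?_)
    · ring
    · linarith
  have T3 := ((((th2.addX (B0.Xmul th1)).mulX (c1.sub ck))).addX (th0.Xmul ((Jc1X.mulX c1).subX (B1X'.mulX s1)))).addX
    (th0'.Xmul ((JckX.mulX ck).subX (B1X'.mulX sk)))
  have TT := (T1.addX T2).addX T3
  refine (TT.congr (Eventually.of_forall fun y => ?_)).mono ?_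
  · rw [residB]
  · norm_num
    linarith

/-- **the residual during the exact phases** -/
theorem resid_exact {κ : V → ℝ} {a1 a3 q c0 σ μ θ0 a : ℝ} {x : V} (hx : ExactAt P.b P.env P.A1 P.A3 P.th P.lam (x 0) σ μ θ0)
    (hcase : (θ0 = 1 ∧ μ = 1 ∧ a = a1) ∨ (θ0 = 0 ∧ μ = k ∧ a = a3))
    (h1 : |a1| ≤ 1 / 50) (h3 : |a3| ≤ 1 / 50) (hrel : (μ - σ) ^ 2 - q ^ 2 = (1 - q ^ 2) * ((1 - 9 * a) / (1 - a))) :
    ∀ᶠ y in 𝓝 x, resid κ (ccC P) (xiB P a1 a3) (RB P a1 a3 q c0) y =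
      -((1 - 9 * a) / (1 - a)) * ((κ y - (1 - q ^ 2)) * ((P.b (y 0) * Real.sin (q * y 1 + c0)) *
        (Real.sin (y 2) + a * Real.sin (3 * y 2 + 0)))) := by
  obtain ⟨c, hc⟩ := hx.b
  have cont : ContinuousAt (fun y : V => y 0) x := (coordSA 0 x).continuousAt
  have hc' := hc.eventually_nhds
  have ha : |a| ≤ 1 / 50 := by rcases hcase with ⟨_, _, h⟩ | ⟨_, _, h⟩ <;> rw [h] <;> assumption
  filter_upwards [cont.eventually hc', cont.eventually hx.A1.eventually_nhds, cont.eventually hx.A3.eventually_nhds,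
    cont.eventually hx.th.eventually_nhds, cont.eventually hx.lam.eventually_nhds] with y eb eA1 eA3 eth elam
  have hexp : ∀ t : ℝ, HasDerivAt (fun t => c * Real.exp (σ * t)) (σ * (c * Real.exp (σ * t))) t := by
    intro t
    refine (hd_cmul c (hd_comp (Real.hasDerivAt_exp _) (hd_lin σ t))).congr_deriv ?_
    ring
  have b0 : P.b (y 0) = c * Real.exp (σ * y 0) := eb.self_of_nhds
  have eb' : P.b =ᶠ[𝓝 (y 0)] fun t => c * Real.exp (σ * t) := eb
  have b1 : deriv P.b (y 0) = σ * P.b (y 0) := by rw [eb'.deriv_eq, (hexp _).deriv, b0]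
  have hder : deriv (fun t => c * Real.exp (σ * t)) = fun t => σ * (c * Real.exp (σ * t)) := funext fun t => (hexp t).deriv
  have b2 : deriv (deriv P.b) (y 0) = σ ^ 2 * P.b (y 0) := by
    rw [eb'.deriv.deriv_eq, hder, (hd_cmul σ (hexp (y 0))).deriv, b0]; ring
  -- the function d
  have ed : dT P a1 a3 =ᶠ[𝓝 (y 0)] fun t => a * (c * Real.exp (σ * t)) := by
    filter_upwards [eb, eA1, eA3] with t h1 h2 h3
    simp only [dT, h1, h2, h3]
    rcases hcase with ⟨h, _, h'⟩ | ⟨h, _, h'⟩ <;> rw [h, h'] <;> ring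
  have d0 : dT P a1 a3 (y 0) = a * P.b (y 0) := by rw [ed.eq_of_nhds, b0]
  have hder2 : deriv (fun t => a * (c * Real.exp (σ * t))) = fun t => a * (σ * (c * Real.exp (σ * t))) :=
    funext fun t => (hd_cmul a (hexp t)).deriv
  have d1 : deriv (dT P a1 a3) (y 0) = a * (σ * P.b (y 0)) := by rw [ed.deriv_eq, hder2, b0]
  have d2 : deriv (deriv (dT P a1 a3)) (y 0) = a * (σ ^ 2 * P.b (y 0)) := by
    rw [ed.deriv.deriv_eq, hder2, (hd_cmul a (hd_cmul σ (hexp (y 0)))).deriv, b0]; ring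
  have t0 : P.th (y 0) = θ0 := eth.self_of_nhds
  have eth' : P.th =ᶠ[𝓝 (y 0)] fun _ => θ0 := eth
  have t1 : deriv P.th (y 0) = 0 := by rw [eth'.deriv_eq]; simp
  have t2 : deriv (deriv P.th) (y 0) = 0 := by rw [eth'.deriv.deriv_eq]; simp
  have l1 : deriv P.lam (y 0) = μ := elam.self_of_nhds
  -- the exponent
  have hPhe : PhC P a1 a3 =ᶠ[𝓝 y] Ph a := by
    have ct : ContinuousAt (fun y : V => y 0) y := (coordSA 0 y).continuousAt
    filter_upwards [ct.eventually eA1, ct.eventually eA3] with z h1 h2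
    simp only [PhC, h1, h2]
    rcases hcase with ⟨h, _, h'⟩ | ⟨h, _, h'⟩ <;> rw [h, h'] <;> ring
  have hξe : xiB P a1 a3 =ᶠ[𝓝 y] fun z => -P.lam (z 0) + Ph a z := by
    filter_upwards [hPhe] with z hz
    simp only [xiB, hz]
  have pdx : ∀ i, pd i (xiB P a1 a3) y = (if (0 : Fin 3) = i then -deriv P.lam (y 0) else 0) + (if (2 : Fin 3) = i then PhD a y else 0) := by
    intro i
    rw [(pd_congr hξe i).eq_of_nhds, pd_add (SA_lam (P := P) y).diff (Ph_SA ha y).diff i, pd_lam, Ph_pd ha]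
  have p0 : pd 0 (xiB P a1 a3) y = -μ := by rw [pdx, if_pos rfl, if_neg (by decide), l1]; ring
  have p1 : pd 1 (xiB P a1 a3) y = 0 := by rw [pdx, if_neg (by decide), if_neg (by decide)]; ring
  have p2 : pd 2 (xiB P a1 a3) y = PhD a y := by rw [pdx, if_neg (by decide), if_pos rfl]; ring
  rw [residB, b1, b2, d0, d1, d2, t0, t1, t2, p0, p1, p2]
  simp only [ccC, l1, add_zero]
  have hp := pair_id ha y
  have hT3 : θ0 * (μ * μ - 1) = 0 ∧ (1 - θ0) * (μ * μ - k ^ 2) = 0 := by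
    rcases hcase with ⟨h, h', _⟩ | ⟨h, h', _⟩ <;> rw [h, h'] <;> constructor <;> ring
  obtain ⟨z1, z2⟩ := hT3
  set ρ := Real.sin (y 2) + a * Real.sin (3 * y 2) with hρ
  set bO := P.b (y 0) * Real.sin (q * y 1 + c0) with hbO
  set δE := (1 - 9 * a) / (1 - a) with hδE
  have key : (σ ^ 2 - 2 * μ * σ + μ ^ 2 - q ^ 2) * ρ + κ y * (-(Real.sin (y 2)) - 9 * a * Real.sin (3 * y 2) +
      2 * PhD a y * (Real.cos (y 2) + 3 * a * Real.cos (3 * y 2))) = -δE * ((κ y - (1 - q ^ 2)) * ρ) := by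
    rw [hp]
    have : σ ^ 2 - 2 * μ * σ + μ ^ 2 - q ^ 2 = (1 - q ^ 2) * δE := by rw [← hrel]; ring
    rw [this]; ring
  calc _ = bO * ((σ ^ 2 - 2 * μ * σ + μ ^ 2 - q ^ 2) * ρ + κ y * (-(Real.sin (y 2)) - 9 * a * Real.sin (3 * y 2) +
      2 * PhD a y * (Real.cos (y 2) + 3 * a * Real.cos (3 * y 2)))) + (θ0 * (μ * μ - 1)) * Real.cos (y 1)
      + ((1 - θ0) * (μ * μ - k ^ 2)) * Real.cos (k * y 1) := by rw [hρ, hbO]; ring
    _ = _ := by rw [key, z1, z2]; ring

end

end Pool.Agent.J6H20.RL
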