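import Mathlib
import Pool.Agent.J6H20.RL.ZoneB2

/-!
# Nondegeneracy in the interior of the cells
-/

set_option autoImplicit false

open Filter Topology
open scoped ContDiff

namespace Pool.Agent.J6H20.RL

theorem cbV {F : ℝ → ℝ} {x : V} {j : Fin 3} (hF : ContDiffAt ℝ ∞ F (x j)) : SA (fun y => F (y j)) x :=
  ContDiffAt.comp x (g := F) (f := fun y : V => y j) hF (coordSA j x)

/-- first derivatives of the sum of four products -/
theorem R4_pd {b d th Om h hp : ℝ → ℝ} {x : V} (hb : ContDiffAt ℝ ∞ b (x 0)) (hd : ContDiffAt ℝ ∞ d (x 0))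
    (hth : ContDiffAt ℝ ∞ th (x 0)) (hO : ContDiffAt ℝ ∞ Om (x 1)) (hh : ContDiffAt ℝ ∞ h (x 1))
    (hhp : ContDiffAt ℝ ∞ hp (x 1)) :
    pd 0 (R4 b d th Om h hp) x = deriv b (x 0) * Om (x 1) * Real.sin (x 2) + deriv d (x 0) * Om (x 1) * Real.sin (3 * x 2)
      + deriv th (x 0) * (h (x 1) - hp (x 1)) ∧
    pd 1 (R4 b d th Om h hp) x = b (x 0) * deriv Om (x 1) * Real.sin (x 2) + d (x 0) * deriv Om (x 1) * Real.sin (3 * x 2)
      + (th (x 0) * deriv h (x 1) + (1 - th (x 0)) * deriv hp (x 1)) ∧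
    pd 2 (R4 b d th Om h hp) x = b (x 0) * Om (x 1) * Real.cos (x 2) + 3 * (d (x 0) * Om (x 1) * Real.cos (3 * x 2)) := by
  have h3 : ContDiff ℝ ∞ (fun s : ℝ => Real.sin (3 * s)) := Real.contDiff_sin.comp (contDiff_const.mul contDiff_id)
  have ht1 : ContDiffAt ℝ ∞ (fun T => 1 - th T) (x 0) := contDiffAt_const.sub hth
  have h1 : ContDiffAt ℝ ∞ (fun _ : ℝ => (1 : ℝ)) (x 2) := contDiffAt_const
  have hs : ContDiffAt ℝ ∞ Real.sin (x 2) := Real.contDiff_sin.contDiffAt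
  have p1 : SA (fun y => b (y 0) * Om (y 1) * Real.sin (y 2)) x := ((cbV hb).mul (cbV hO)).mul (cbV (j := 2) hs)
  have p2 : SA (fun y => d (y 0) * Om (y 1) * (fun s => Real.sin (3 * s)) (y 2)) x :=
    ((cbV hd).mul (cbV hO)).mul (cbV (j := 2) h3.contDiffAt)
  have p3 : SA (fun y => th (y 0) * h (y 1) * (fun _ => (1 : ℝ)) (y 2)) x := ((cbV hth).mul (cbV hh)).mul (cbV h1)
  have p4 : SA (fun y => (fun T => 1 - th T) (y 0) * hp (y 1) * (fun _ => (1 : ℝ)) (y 2)) x :=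
    ((cbV ht1).mul (cbV hhp)).mul (cbV h1)
  have e : ∀ i, pd i (R4 b d th Om h hp) x = (pd i (fun y => b (y 0) * Om (y 1) * Real.sin (y 2)) x
      + pd i (fun y => d (y 0) * Om (y 1) * (fun s => Real.sin (3 * s)) (y 2)) x)
      + (pd i (fun y => th (y 0) * h (y 1) * (fun _ => (1 : ℝ)) (y 2)) x
      + pd i (fun y => (fun T => 1 - th T) (y 0) * hp (y 1) * (fun _ => (1 : ℝ)) (y 2)) x) := by
    intro i
    have p12 : SA (fun y => b (y 0) * Om (y 1) * Real.sin (y 2) + d (y 0) * Om (y 1) * (fun s => Real.sin (3 * s)) (y 2)) x := p1.add p2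
    have p34 : SA (fun y => th (y 0) * h (y 1) * (fun _ => (1 : ℝ)) (y 2) + (fun T => 1 - th T) (y 0) * hp (y 1) * (fun _ => (1 : ℝ)) (y 2)) x := p3.add p4
    have e1 : pd i (R4 b d th Om h hp) x = _ := pd_add p12.diff p34.diff i
    rw [e1, pd_add p1.diff p2.diff, pd_add p3.diff p4.diff]
  have dd : ∀ {F : ℝ → ℝ} {t : ℝ}, ContDiffAt ℝ ∞ F t → DifferentiableAt ℝ F t := fun h => h.differentiableAt (by simp)
  have d1 : deriv (fun T => 1 - th T) (x 0) = - deriv th (x 0) := by rw [deriv_const_sub]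
  have d4 : deriv Real.sin (x 2) = Real.cos (x 2) := (Real.hasDerivAt_sin _).deriv
  have q1 := pd_prod (dd hb) (dd hO) (dd hs)
  have q2 := pd_prod (dd hd) (dd hO) (dd h3.contDiffAt)
  have q3 := pd_prod (dd hth) (dd hh) (dd h1)
  have q4 := pd_prod (dd ht1) (dd hhp) (dd h1)
  refine ⟨?_, ?_, ?_⟩
  · rw [e, q1.1, q2.1, q3.1, q4.1, d1]; ring
  · rw [e, q1.2.1, q2.2.1, q3.2.1, q4.2.1]; ring
  · rw [e, q1.2.2, q2.2.2, q3.2.2, q4.2.2, d4, sin3_d]
    simp only [deriv_const]; ring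

section
variable {η g k m0 α : ℝ} {P : TP η g k m0 α}

/-- the hypotheses on a cell -/
structure CellH (k m0 α ς : ℝ) (i0 : ℕ) (q Y0 W η₃ : ℝ) : Prop where
  q_pos : 0 < q
  q_le : q ≤ 1 / 10
  qW : q * W = Real.pi
  m0_pos : 0 < m0
  k1 : 1 ≤ k
  k2 : k ≤ 1 + η₃
  ς_pos : 0 < ς
  ς_le : ς ≤ 1 / 100
  ςi : ς * (Real.pi * (i0 + 1 / 2)) = 1
  α0 : 0 ≤ α
  mq1 : ς ≤ m0 * q
  mq2 : m0 * (1 + α) * q ≤ ς * (1 + ς / 8)
  qs : (q * (5 / ς)) ^ 2 ≤ ς / 10
  η₃0 : 0 ≤ η₃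
  η₃1 : 3 * η₃ ≤ ς ^ 2 / 100
  cosL : ∀ z, Real.cos (Y0 + z) = Real.cos z
  sinL : ∀ z, Real.sin (Y0 + z) = Real.sin z
  cosR : ∀ z, Real.cos (Y0 + W - z) = Real.cos z
  sinR : ∀ z, Real.sin (Y0 + W - z) = -Real.sin z
  kL : ∀ z, |z| ≤ 5 / ς → |Real.cos (k * (Y0 + z)) - Real.cos z| ≤ η₃ ∧ |Real.sin (k * (Y0 + z)) - Real.sin z| ≤ η₃
  kR : ∀ z, |z| ≤ 5 / ς → |Real.cos (k * (Y0 + W - z)) - Real.cos z| ≤ η₃ ∧ |Real.sin (k * (Y0 + W - z)) + Real.sin z| ≤ η₃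

/-- a point near the left or the right end -/
theorem CellH.near {ς q Y0 W η₃ : ℝ} {i0 : ℕ} (H : CellH k m0 α ς i0 q Y0 W η₃) {Y : ℝ} {z : ℝ} (hz : z = Y - Y0 ∨ z = Y0 + W - Y)
    (hz1 : |z| ≤ 5 / ς) {θ : ℝ} (hθ0 : 0 ≤ θ) (hθ1 : θ ≤ 1) :
    |θ * Real.cos Y + (1 - θ) * Real.cos (k * Y) - Real.cos z| ≤ η₃ ∧
    |Real.sin z| - 2 * η₃ ≤ |θ * -Real.sin Y + (1 - θ) * -(k * Real.sin (k * Y))| := by
  have hk1 := H.k1
  have hk2 := H.k2
  have hη := H.η₃0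
  rcases hz with hz | hz
  · have hY : Y = Y0 + z := by rw [hz]; ring
    obtain ⟨h1, h2⟩ := H.kL z hz1
    rw [← hY] at h1 h2
    have c1 := H.cosL z
    have s1 := H.sinL z
    rw [← hY] at c1 s1
    constructor
    · rw [c1]
      have e : θ * Real.cos z + (1 - θ) * Real.cos (k * Y) - Real.cos z = (1 - θ) * (Real.cos (k * Y) - Real.cos z) := by ring
      rw [e, abs_mul, abs_of_nonneg (by linarith : 0 ≤ 1 - θ)]
      exact (mul_le_of_le_one_left (abs_nonneg _) (by linarith)).trans h1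
    · rw [s1]
      have e : θ * -Real.sin z + (1 - θ) * -(k * Real.sin (k * Y)) =
          -(Real.sin z + (1 - θ) * ((k - 1) * Real.sin (k * Y) + (Real.sin (k * Y) - Real.sin z))) := by ring
      rw [e, abs_neg]
      have h3 : |(1 - θ) * ((k - 1) * Real.sin (k * Y) + (Real.sin (k * Y) - Real.sin z))| ≤ 2 * η₃ := by
        rw [abs_mul, abs_of_nonneg (by linarith : 0 ≤ 1 - θ)]
        refine (mul_le_of_le_one_left (abs_nonneg _) (by linarith)).trans ?_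
        refine (abs_add_le _ _).trans ?_
        have h4 : |(k - 1) * Real.sin (k * Y)| ≤ η₃ := by
          rw [abs_mul, abs_of_nonneg (by linarith : 0 ≤ k - 1)]
          exact (mul_le_of_le_one_right (by linarith) (Real.abs_sin_le_one _)).trans (by linarith)
        linarith
      have h5 := abs_sub_abs_le_abs_sub (Real.sin z) (-((1 - θ) * ((k - 1) * Real.sin (k * Y) + (Real.sin (k * Y) - Real.sin z))))
      rw [abs_neg, sub_neg_eq_add] at h5
      linarith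
  · have hY : Y = Y0 + W - z := by rw [hz]; ring
    obtain ⟨h1, h2⟩ := H.kR z hz1
    rw [← hY] at h1 h2
    have c1 := H.cosR z
    have s1 := H.sinR z
    rw [← hY] at c1 s1
    constructor
    · rw [c1]
      have e : θ * Real.cos z + (1 - θ) * Real.cos (k * Y) - Real.cos z = (1 - θ) * (Real.cos (k * Y) - Real.cos z) := by ring
      rw [e, abs_mul, abs_of_nonneg (by linarith : 0 ≤ 1 - θ)]
      exact (mul_le_of_le_one_left (abs_nonneg _) (by linarith)).trans h1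
    · rw [s1]
      have e : θ * - -Real.sin z + (1 - θ) * -(k * Real.sin (k * Y)) =
          Real.sin z + -((1 - θ) * ((k - 1) * Real.sin (k * Y) + (Real.sin (k * Y) + Real.sin z))) := by ring
      rw [e]
      have h3 : |(1 - θ) * ((k - 1) * Real.sin (k * Y) + (Real.sin (k * Y) + Real.sin z))| ≤ 2 * η₃ := by
        rw [abs_mul, abs_of_nonneg (by linarith : 0 ≤ 1 - θ)]
        refine (mul_le_of_le_one_left (abs_nonneg _) (by linarith)).trans ?_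
        refine (abs_add_le _ _).trans ?_
        have h4 : |(k - 1) * Real.sin (k * Y)| ≤ η₃ := by
          rw [abs_mul, abs_of_nonneg (by linarith : 0 ≤ k - 1)]
          exact (mul_le_of_le_one_right (by linarith) (Real.abs_sin_le_one _)).trans (by linarith)
        linarith
      have h5 := abs_sub_abs_le_abs_sub (Real.sin z) (((1 - θ) * ((k - 1) * Real.sin (k * Y) + (Real.sin (k * Y) + Real.sin z))))
      rw [← sub_eq_add_neg]
      linarith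

theorem G_le_one {θ a b : ℝ} (hθ0 : 0 ≤ θ) (hθ1 : θ ≤ 1) (ha : |a| ≤ 1) (hb : |b| ≤ 1) : |θ * a + (1 - θ) * b| ≤ 1 := by
  refine (abs_add_le _ _).trans ?_
  rw [abs_mul, abs_mul, abs_of_nonneg hθ0, abs_of_nonneg (by linarith : 0 ≤ 1 - θ)]
  have := mul_le_mul_of_nonneg_left ha hθ0
  have := mul_le_mul_of_nonneg_left hb (by linarith : 0 ≤ 1 - θ)
  linarith

/-- passing from the main form to the actual form -/
theorem nd_pert {B B1 G G1 S C d0 d1 d2 κ c E η' R0 : ℝ} (hκ : 1 / 2 ≤ κ)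
    (hmain : c * E ^ 2 ≤ (B * S + G) ^ 2 + 1 / 2 * (B * C) ^ 2 + (B1 * S + G1) ^ 2)
    (h0 : |d0| ≤ η' * E) (h1 : |d1| ≤ η' * E) (h2 : |d2| ≤ 3 * (η' * E)) (hη' : 14 * η' ^ 2 ≤ c / 2) :
    c / 4 * E ^ 2 ≤ (B * S + G + d0) * (B * S + G + d0) + (R0 * R0 + (B1 * S + G1 + d1) * (B1 * S + G1 + d1)
      + κ * ((B * C + d2) * (B * C + d2))) := by
  have e0 : d0 ^ 2 ≤ η' ^ 2 * E ^ 2 := by
    rw [← mul_pow, ← sq_abs]; exact pow_le_pow_left₀ (abs_nonneg _) h0 2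
  have e1 : d1 ^ 2 ≤ η' ^ 2 * E ^ 2 := by
    rw [← mul_pow, ← sq_abs]; exact pow_le_pow_left₀ (abs_nonneg _) h1 2
  have e2 : d2 ^ 2 ≤ 9 * (η' ^ 2 * E ^ 2) := by
    have : (3 * (η' * E)) ^ 2 = 9 * (η' ^ 2 * E ^ 2) := by ring
    rw [← this, ← sq_abs]; exact pow_le_pow_left₀ (abs_nonneg _) h2 2
  have f0 := half_sq (B * S + G) d0
  have f1 := half_sq (B1 * S + G1) d1
  have f2 := half_sq (B * C) d2
  have f3 : 1 / 2 * (B * C + d2) ^ 2 ≤ κ * ((B * C + d2) * (B * C + d2)) := by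
    rw [← pow_two]; exact mul_le_mul_of_nonneg_right hκ (sq_nonneg _)
  have f4 : 0 ≤ R0 * R0 := mul_self_nonneg _
  have f5 : 14 * η' ^ 2 * E ^ 2 ≤ c / 2 * E ^ 2 := mul_le_mul_of_nonneg_right hη' (sq_nonneg _)
  have g0 : (B * S + G + d0) * (B * S + G + d0) = (B * S + G + d0) ^ 2 := by ring
  have g1 : (B1 * S + G1 + d1) * (B1 * S + G1 + d1) = (B1 * S + G1 + d1) ^ 2 := by ring
  rw [g0, g1]
  have hpos : 0 ≤ η' ^ 2 * E ^ 2 := by positivity
  linarith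

end

end Pool.Agent.J6H20.RL
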