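import Mathlib
import Pool.Agent.J6H20.RL.ZoneB3

/-!
# The estimate in the interior of the cells
-/

set_option autoImplicit false

open Filter Topology
open scoped ContDiff

namespace Pool.Agent.J6H20.RL

section
variable {η g k m0 α : ℝ} {P : TP η g k m0 α}

theorem CellH.Om_near {ς q Y0 W η₃ : ℝ} {i0 : ℕ} (H : CellH k m0 α ς i0 q Y0 W η₃) {Y z : ℝ} (hz : z = Y - Y0 ∨ z = Y0 + W - Y) :
    Real.sin (q * Y + -(q * Y0)) = Real.sin (q * z) := by
  rcases hz with hz | hz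
  · rw [hz]; congr 1; ring
  · have : q * Y + -(q * Y0) = Real.pi - q * z := by rw [← H.qW, hz]; ring
    rw [this, Real.sin_pi_sub]

theorem CellH.zpt {ς q Y0 W η₃ : ℝ} {i0 : ℕ} (H : CellH k m0 α ς i0 q Y0 W η₃) {Y c : ℝ} (h1 : c ≤ Y - Y0) (h2 : c ≤ Y0 + W - Y) :
    ∃ z, (z = Y - Y0 ∨ z = Y0 + W - Y) ∧ c ≤ z ∧ q * z ≤ Real.pi / 2 := by
  have hq := H.q_pos
  have hW := H.qW
  rcases le_total (Y - Y0) (Y0 + W - Y) with h | h
  · refine ⟨Y - Y0, Or.inl rfl, h1, ?_⟩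
    have : q * (Y - Y0) ≤ q * (Y0 + W - Y) := mul_le_mul_of_nonneg_left h hq.le
    have e : q * (Y - Y0) + q * (Y0 + W - Y) = q * W := by ring
    linarith
  · refine ⟨Y0 + W - Y, Or.inr rfl, h2, ?_⟩
    have : q * (Y0 + W - Y) ≤ q * (Y - Y0) := mul_le_mul_of_nonneg_left h hq.le
    have e : q * (Y - Y0) + q * (Y0 + W - Y) = q * W := by ring
    linarith

theorem CellH.env_q {ς q Y0 W η₃ : ℝ} {i0 : ℕ} (H : CellH k m0 α ς i0 q Y0 W η₃) (T : ℝ) : P.env T * q ≤ 101 / 100 * ς := by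
  have h1 := mul_le_mul_of_nonneg_right (P.env_le T) H.q_pos.le
  have h2 := H.mq2
  have h3 := H.ς_pos
  have h4 := H.ς_le
  have h5 : ς * (1 + ς / 8) ≤ ς * (101 / 100) := mul_le_mul_of_nonneg_left (by linarith) h3.le
  linarith

/-- values and derivatives of `RB` -/
theorem RB_vals (a1 a3 q c0 : ℝ) (x : V) :
    RB P a1 a3 q c0 x = P.b (x 0) * Real.sin (q * x 1 + c0) * Real.sin (x 2)
      + (P.th (x 0) * Real.cos (x 1) + (1 - P.th (x 0)) * Real.cos (k * x 1)) + dT P a1 a3 (x 0) * Real.sin (q * x 1 + c0) * Real.sin (3 * x 2) ∧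
    pd 0 (RB P a1 a3 q c0) x = deriv P.b (x 0) * Real.sin (q * x 1 + c0) * Real.sin (x 2) +
      deriv (dT P a1 a3) (x 0) * Real.sin (q * x 1 + c0) * Real.sin (3 * x 2) + deriv P.th (x 0) * (Real.cos (x 1) - Real.cos (k * x 1)) ∧
    pd 1 (RB P a1 a3 q c0) x = P.b (x 0) * (q * Real.cos (q * x 1 + c0)) * Real.sin (x 2)
      + (P.th (x 0) * -Real.sin (x 1) + (1 - P.th (x 0)) * -(k * Real.sin (k * x 1))) + dT P a1 a3 (x 0) * (q * Real.cos (q * x 1 + c0)) * Real.sin (3 * x 2) ∧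
    pd 2 (RB P a1 a3 q c0) x = P.b (x 0) * Real.sin (q * x 1 + c0) * Real.cos (x 2) + 3 * (dT P a1 a3 (x 0) * Real.sin (q * x 1 + c0) * Real.cos (3 * x 2)) := by
  obtain ⟨e0, e1, e2⟩ := R4_pd (x := x) (P.b_sm _) (dT_sm (P := P) a1 a3 _) (P.th_sm _) (sinO_sm q c0 _) Real.contDiff_cos.contDiffAt (cosO_sm k 0 _)
  refine ⟨?_, ?_, ?_, ?_⟩
  · simp only [RB, R4, add_zero]; ring
  · rw [RB, e0]; simp only [add_zero]
  · rw [RB, e1, sinO_d, cosO_d, (Real.hasDerivAt_cos _).deriv]; simp only [add_zero]; ring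
  · rw [RB, e2]

theorem dT_le {a1 a3 ηa : ℝ} (hη : η ≤ 1) (h1 : |a1| ≤ ηa) (h3 : |a3| ≤ ηa) (hηa : 32 * ηa ≤ η) (T : ℝ) :
    |dT P a1 a3 T| ≤ η * P.env T :=
  (jd (P := P) hη h1 h3 T).val.trans (mul_le_mul_of_nonneg_right hηa (P.env_pos T).le)

/-- the window next to the walls -/
theorem CellH.win {ς q Y0 W η₃ : ℝ} {i0 : ℕ} (H : CellH k m0 α ς i0 q Y0 W η₃) {a1 a3 ηa : ℝ} (hη0 : 0 ≤ η) (hη : η ≤ 1)
    (h1 : |a1| ≤ ηa) (h3 : |a3| ≤ ηa) (hηa : 32 * ηa ≤ η) {x : V} {z : ℝ} (hz : z = x 1 - Y0 ∨ z = Y0 + W - x 1)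
    (hz0 : 0 ≤ z) (hz1 : z ≤ 1 / 2) :
    1 / 2 ≤ RB P a1 a3 q (-(q * Y0)) x ∧ P.env (x 0) * Real.sin (q * z) ≤ 1 / 10 := by
  have henv := P.env_pos (x 0)
  have hς := H.ς_pos
  have hς1 := H.ς_le
  have hq := H.q_pos
  have hzς : |z| ≤ 5 / ς := by
    rw [abs_of_nonneg hz0, le_div_iff₀ hς]; nlinarith
  have hm := P.th_mem (x 0)
  obtain ⟨n1, _⟩ := H.near hz hzς hm.1 hm.2
  have hΩ := H.Om_near hz
  have hcz : 87 / 100 ≤ Real.cos z := by
    have := Real.one_sub_sq_div_two_le_cos (x := z)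
    nlinarith
  have hqz : 0 ≤ q * z := by positivity
  have hqz2 : q * z ≤ q * (1 / 2) := mul_le_mul_of_nonneg_left hz1 hq.le
  have hs0 : 0 ≤ Real.sin (q * z) := Real.sin_nonneg_of_nonneg_of_le_pi hqz (by have := H.q_le; have := Real.pi_gt_three; linarith)
  have hs1 : Real.sin (q * z) ≤ q * (1 / 2) := (Real.sin_le hqz).trans hqz2
  have heq := H.env_q (P := P) (x 0)
  have hes : P.env (x 0) * Real.sin (q * z) ≤ 1 / 100 := by
    have := mul_le_mul_of_nonneg_left hs1 henv.le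
    linarith
  have hes0 : 0 ≤ P.env (x 0) * Real.sin (q * z) := by positivity
  have hb := P.b_le (x 0)
  have hb0 := P.b_nonneg (x 0)
  have hbs : |P.b (x 0) * Real.sin (q * z) * Real.sin (x 2)| ≤ 1 / 100 := by
    rw [abs_mul, abs_of_nonneg (by positivity : 0 ≤ P.b (x 0) * Real.sin (q * z))]
    have h4 : P.b (x 0) * Real.sin (q * z) ≤ P.env (x 0) * Real.sin (q * z) := mul_le_mul_of_nonneg_right hb hs0
    have h5 := Real.abs_sin_le_one (x 2)
    calc _ ≤ (P.b (x 0) * Real.sin (q * z)) * 1 := mul_le_mul_of_nonneg_left h5 (by positivity)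
      _ ≤ _ := by linarith
  have hds : |dT P a1 a3 (x 0) * Real.sin (q * z) * Real.sin (3 * x 2)| ≤ 1 / 100 := by
    rw [abs_mul, abs_mul, abs_of_nonneg hs0]
    have h4 := dT_le (P := P) hη h1 h3 hηa (x 0)
    have h6 : |dT P a1 a3 (x 0)| * Real.sin (q * z) ≤ 1 / 100 := by
      have := mul_le_mul_of_nonneg_right h4 hs0
      have h7 : η * P.env (x 0) * Real.sin (q * z) = η * (P.env (x 0) * Real.sin (q * z)) := by ring
      have h8 : η * (P.env (x 0) * Real.sin (q * z)) ≤ 1 * (1 / 100) := mul_le_mul hη hes hes0 (by norm_num)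
      linarith
    have h5 := Real.abs_sin_le_one (3 * x 2)
    calc _ ≤ (|dT P a1 a3 (x 0)| * Real.sin (q * z)) * 1 := mul_le_mul_of_nonneg_left h5 (by positivity)
      _ ≤ _ := by linarith
  have hη3 : η₃ ≤ 1 / 100 := by
    have := H.η₃1
    have h9 : ς ^ 2 ≤ 1 := pow_le_one₀ hς.le (by linarith)
    linarith [H.η₃0]
  constructor
  · rw [(RB_vals (P := P) a1 a3 q (-(q * Y0)) x).1, hΩ]
    have := (abs_le.1 n1).1
    have := (abs_le.1 hbs).1
    have := (abs_le.1 hds).1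
    linarith
  · linarith

/-- **nondegeneracy during the slow phases** -/
theorem CellH.nd_stat {ς q Y0 W η₃ : ℝ} {i0 : ℕ} (H : CellH k m0 α ς i0 q Y0 W η₃) {a1 a3 ηa : ℝ} (hη0 : 0 ≤ η) (hης : η ≤ ς / 40)
    (h1 : |a1| ≤ ηa) (h3 : |a3| ≤ ηa) (hηa : 32 * ηa ≤ η) {x : V} {κ : V → ℝ} (hκ : 1 / 2 ≤ κ x)
    (hy1 : 3 / 8 ≤ x 1 - Y0) (hy2 : 3 / 8 ≤ Y0 + W - x 1)
    (hph : (P.env (x 0) ≤ 1 / 4 ∧ (P.th (x 0) = 1 ∨ P.th (x 0) = 0)) ∨ (P.env (x 0) = P.b (x 0) ∧ m0 ≤ P.env (x 0))) :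
    ς ^ 2 / 144 * (1 + P.env (x 0) * Real.sin (q * x 1 + -(q * Y0))) ^ 2 ≤
      RB P a1 a3 q (-(q * Y0)) x * RB P a1 a3 q (-(q * Y0)) x + Qf κ (RB P a1 a3 q (-(q * Y0))) x := by
  have hς := H.ς_pos
  have hς1 := H.ς_le
  have hq := H.q_pos
  have hη : η ≤ 1 := by linarith
  have henv := P.env_pos (x 0)
  have hς2 : ς ^ 2 ≤ 1 / 10000 := by
    have := pow_le_pow_left₀ hς.le hς1 2
    norm_num at this ⊢; linarith
  obtain ⟨z, hz, hz38, hqz⟩ := H.zpt hy1 hy2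
  have hΩ := H.Om_near hz
  have hz0 : 0 < z := by linarith
  have hqz0 : 0 < q * z := by positivity
  have hpi := Real.pi_gt_three
  have hs0 : 0 ≤ Real.sin (q * z) := Real.sin_nonneg_of_nonneg_of_le_pi hqz0.le (by linarith)
  have hs1 := Real.sin_le_one (q * z)
  have hQ0 : 0 ≤ Qf κ (RB P a1 a3 q (-(q * Y0))) x := by
    simp only [Qf]
    have := mul_self_nonneg (pd 0 (RB P a1 a3 q (-(q * Y0))) x)
    have := mul_self_nonneg (pd 1 (RB P a1 a3 q (-(q * Y0))) x)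
    have := mul_nonneg (by linarith : 0 ≤ κ x) (mul_self_nonneg (pd 2 (RB P a1 a3 q (-(q * Y0))) x))
    linarith
  rcases le_or_gt z (1 / 2) with hzw | hzw
  · obtain ⟨w1, w2⟩ := H.win (P := P) hη0 hη h1 h3 hηa hz hz0.le hzw
    rw [hΩ]
    have h4 : (1 + P.env (x 0) * Real.sin (q * z)) ^ 2 ≤ (11 / 10) ^ 2 := by
      have : 0 ≤ P.env (x 0) * Real.sin (q * z) := by positivity
      exact pow_le_pow_left₀ (by linarith) (by linarith) 2
    have h5 : 1 / 4 ≤ RB P a1 a3 q (-(q * Y0)) x * RB P a1 a3 q (-(q * Y0)) x := by nlinarith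
    have h6 : ς ^ 2 / 144 * (1 + P.env (x 0) * Real.sin (q * z)) ^ 2 ≤ 1 * (11 / 10) ^ 2 * (1 / 144) := by
      have : ς ^ 2 / 144 ≤ 1 / 144 := by linarith
      have := mul_le_mul this h4 (sq_nonneg _) (by norm_num)
      linarith
    linarith
  · -- the main form
    obtain ⟨v0, v1, v2, v3⟩ := RB_vals (P := P) a1 a3 q (-(q * Y0)) x
    set en := P.env (x 0) with hen
    set b := P.b (x 0) with hb
    set θ := P.th (x 0) with hθ
    have hm := P.th_mem (x 0)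
    have hbe := P.b_le (x 0)
    have hb0 := P.b_nonneg (x 0)
    set B := b * Real.sin (q * z) with hB
    set cq := Real.cos (q * x 1 + -(q * Y0)) with hcq
    have hcq1 : |cq| ≤ 1 := Real.abs_cos_le_one _
    set B1 := b * (q * cq) with hB1
    set G := θ * Real.cos (x 1) + (1 - θ) * Real.cos (k * x 1) with hG
    set G1 := θ * -Real.sin (x 1) + (1 - θ) * -(k * Real.sin (k * x 1)) with hG1
    set E := 1 + en * Real.sin (q * z) with hE
    have hE1 : 1 ≤ E := by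
      have : 0 ≤ en * Real.sin (q * z) := by positivity
      linarith
    have heq := H.env_q (P := P) (x 0)
    have hSC : Real.sin (x 2) ^ 2 + Real.cos (x 2) ^ 2 = 1 := Real.sin_sq_add_cos_sq _
    have hB1q : |B1| ≤ b * q := by
      rw [hB1, abs_mul, abs_of_nonneg hb0, abs_mul, abs_of_pos hq]
      have : q * |cq| ≤ q * 1 := mul_le_mul_of_nonneg_left hcq1 hq.le
      have := mul_le_mul_of_nonneg_left this hb0
      linarith
    have hmain : ς ^ 2 / 36 * E ^ 2 ≤ (B * Real.sin (x 2) + G) ^ 2 + 1 / 2 * (B * Real.cos (x 2)) ^ 2 + (B1 * Real.sin (x 2) + G1) ^ 2 := by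
      rcases hph with ⟨p1, p2⟩ | ⟨p1, p2⟩
      · have hS2 : Real.sin (x 2) ^ 2 ≤ 1 := by have := sq_nonneg (Real.cos (x 2)); linarith
        have hBle : |B| ≤ 3 / 10 := by
          rw [hB, abs_mul, abs_of_nonneg hb0, abs_of_nonneg hs0]
          have : b * Real.sin (q * z) ≤ b * 1 := mul_le_mul_of_nonneg_left hs1 hb0
          linarith
        have hB1le : |B1| ≤ 3 / 10 := by
          have : b * q ≤ en * q := mul_le_mul_of_nonneg_right hbe hq.le
          linarith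
        have hGG : 9 / 10 ≤ G ^ 2 + G1 ^ 2 := by
          rcases p2 with p2 | p2
          · rw [hG, hG1, p2]
            have := Real.sin_sq_add_cos_sq (x 1)
            have e : (1 * Real.cos (x 1) + (1 - 1) * Real.cos (k * x 1)) ^ 2 + (1 * -Real.sin (x 1) + (1 - 1) * -(k * Real.sin (k * x 1))) ^ 2
              = Real.sin (x 1) ^ 2 + Real.cos (x 1) ^ 2 := by ring
            rw [e]; linarith
          · rw [hG, hG1, p2]
            have h5 := Real.sin_sq_add_cos_sq (k * x 1)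
            have e : (0 * Real.cos (x 1) + (1 - 0) * Real.cos (k * x 1)) ^ 2 + (0 * -Real.sin (x 1) + (1 - 0) * -(k * Real.sin (k * x 1))) ^ 2
              = k ^ 2 * Real.sin (k * x 1) ^ 2 + Real.cos (k * x 1) ^ 2 := by ring
            have hk1 : 1 ≤ k ^ 2 := one_le_pow₀ H.k1
            have h6 : Real.sin (k * x 1) ^ 2 ≤ k ^ 2 * Real.sin (k * x 1) ^ 2 := le_mul_of_one_le_left (sq_nonneg _) hk1
            rw [e]; linarith
        have h7 := nd_low hS2 hBle hB1le hGG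
        have h8 : E ^ 2 ≤ 2 ^ 2 := by
          have : en * Real.sin (q * z) ≤ en * 1 := mul_le_mul_of_nonneg_left hs1 henv.le
          exact pow_le_pow_left₀ (by linarith) (by linarith) 2
        have h9 : ς ^ 2 / 36 * E ^ 2 ≤ 1 / 36 * 2 ^ 2 := mul_le_mul (by linarith) h8 (sq_nonneg _) (by norm_num)
        have h10 : 0 ≤ 1 / 2 * (B * Real.cos (x 2)) ^ 2 := by positivity
        linarith
      · have hbE : E = 1 + B := by rw [hE, hB, p1]
        rw [hbE]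
        have hmq : b * q = ς * (1 + (b * q / ς - 1)) := by field_simp; ring
        have hq1 : ς ≤ b * q := by
          have := mul_le_mul_of_nonneg_right p2 hq.le
          rw [← p1]; exact H.mq1.trans this
        have hq2 : b * q ≤ ς * (1 + ς / 8) := by
          have := mul_le_mul_of_nonneg_right (P.env_le (x 0)) hq.le
          rw [← hen, p1] at this
          exact this.trans H.mq2
        have hα' : |b * q / ς - 1| ≤ ς / 8 := by
          have e1 : 1 ≤ b * q / ς := by rw [le_div_iff₀ hς]; linarith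
          have e2 : b * q / ς ≤ 1 + ς / 8 := by rw [div_le_iff₀ hς]; linarith
          rw [abs_le]; constructor <;> linarith
        have hGle : |G| ≤ 1 + 2 * η₃ := by
          have := G_le_one hm.1 hm.2 (Real.abs_cos_le_one (x 1)) (Real.abs_cos_le_one (k * x 1))
          have := H.η₃0
          linarith
        refine nd_peak (i0 := i0) (η := 2 * η₃) (m := b) (q := q) (y := z) (α' := b * q / ς - 1) hς hς1 H.ςi hb0 hq hmq hα' H.qs
          (by have := H.η₃0; linarith) (by have := H.η₃1; have := H.η₃0; linarith) hzw.le hqz rfl hB1q hGle (fun hz5 => ?_) hSC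
        have hz5' : |z| ≤ 5 / ς := by rw [abs_of_pos hz0]; exact hz5
        obtain ⟨n1, n2⟩ := H.near hz hz5' hm.1 hm.2
        exact ⟨n1.trans (by have := H.η₃0; linarith), n2⟩
    have hd := dT_le (P := P) hη h1 h3 hηa (x 0)
    rw [← hen] at hd
    have hens : en * Real.sin (q * z) ≤ E := by linarith
    have heE : en * q ≤ E := by linarith
    have p0 : |dT P a1 a3 (x 0) * Real.sin (q * z) * Real.sin (3 * x 2)| ≤ η * E := by
      rw [abs_mul, abs_mul, abs_of_nonneg hs0]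
      have h5 := Real.abs_sin_le_one (3 * x 2)
      have h6 : |dT P a1 a3 (x 0)| * Real.sin (q * z) ≤ η * en * Real.sin (q * z) := mul_le_mul_of_nonneg_right hd hs0
      have h7 : η * (en * Real.sin (q * z)) ≤ η * E := mul_le_mul_of_nonneg_left hens hη0
      have h8 : |dT P a1 a3 (x 0)| * Real.sin (q * z) * |Real.sin (3 * x 2)| ≤ |dT P a1 a3 (x 0)| * Real.sin (q * z) * 1 :=
        mul_le_mul_of_nonneg_left h5 (by positivity)
      linarith
    have p1 : |dT P a1 a3 (x 0) * (q * cq) * Real.sin (3 * x 2)| ≤ η * E := by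
      rw [abs_mul, abs_mul, abs_mul, abs_of_pos hq]
      have h5 := Real.abs_sin_le_one (3 * x 2)
      have h6 : |dT P a1 a3 (x 0)| * (q * |cq|) ≤ η * en * (q * 1) :=
        mul_le_mul hd (mul_le_mul_of_nonneg_left hcq1 hq.le) (by positivity) (by positivity)
      have h7 : η * (en * q) ≤ η * E := mul_le_mul_of_nonneg_left heE hη0
      have h8 : |dT P a1 a3 (x 0)| * (q * |cq|) * |Real.sin (3 * x 2)| ≤ |dT P a1 a3 (x 0)| * (q * |cq|) * 1 :=
        mul_le_mul_of_nonneg_left h5 (by positivity)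
      linarith
    have p2 : |3 * (dT P a1 a3 (x 0) * Real.sin (q * z) * Real.cos (3 * x 2))| ≤ 3 * (η * E) := by
      rw [abs_mul, abs_mul, abs_mul, abs_of_nonneg hs0, abs_of_pos (by norm_num : (0 : ℝ) < 3)]
      have h5 := Real.abs_cos_le_one (3 * x 2)
      have h6 : |dT P a1 a3 (x 0)| * Real.sin (q * z) ≤ η * en * Real.sin (q * z) := mul_le_mul_of_nonneg_right hd hs0
      have h7 : η * (en * Real.sin (q * z)) ≤ η * E := mul_le_mul_of_nonneg_left hens hη0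
      have h8 : |dT P a1 a3 (x 0)| * Real.sin (q * z) * |Real.cos (3 * x 2)| ≤ |dT P a1 a3 (x 0)| * Real.sin (q * z) * 1 :=
        mul_le_mul_of_nonneg_left h5 (by positivity)
      linarith
    have hη2 : 14 * η ^ 2 ≤ ς ^ 2 / 36 / 2 := by
      have := pow_le_pow_left₀ hη0 hης 2
      have e : (ς / 40) ^ 2 = ς ^ 2 / 1600 := by ring
      rw [e] at this
      have := sq_nonneg ς
      linarith
    have hfin := nd_pert (R0 := pd 0 (RB P a1 a3 q (-(q * Y0))) x) hκ hmain p0 p1 p2 hη2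
    rw [hΩ]
    simp only [Qf]
    rw [v0, v2, v3, hΩ]
    have e : ς ^ 2 / 144 = ς ^ 2 / 36 / 4 := by ring
    rw [e]
    exact hfin

/-- **nondegeneracy during the exact phases** -/
theorem CellH.nd_ex {ς q Y0 W η₃ : ℝ} {i0 : ℕ} (H : CellH k m0 α ς i0 q Y0 W η₃) {a1 a3 ηa : ℝ} (hη0 : 0 ≤ η) (hη : η ≤ 1)
    (h1 : |a1| ≤ ηa) (h3 : |a3| ≤ ηa) (hηa : 32 * ηa ≤ η) (hηb : ηa ≤ 1 / 50) {x : V} {κ : V → ℝ} (hκ : 1 / 2 ≤ κ x)
    (hy1 : 3 / 8 ≤ x 1 - Y0) (hy2 : 3 / 8 ≤ Y0 + W - x 1) {σ μ θ0 a : ℝ} (hσ : σ ≠ 0) (hσ1 : |σ| ≤ 1)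
    (hx : ExactAt P.b P.env P.A1 P.A3 P.th P.lam (x 0) σ μ θ0)
    (hcase : (θ0 = 1 ∧ μ = 1 ∧ a = a1) ∨ (θ0 = 0 ∧ μ = k ∧ a = a3)) :
    σ ^ 2 / 12 * (1 + P.env (x 0) * Real.sin (q * x 1 + -(q * Y0))) ^ 2 ≤
      RB P a1 a3 q (-(q * Y0)) x * RB P a1 a3 q (-(q * Y0)) x + Qf κ (RB P a1 a3 q (-(q * Y0))) x := by
  have ha : |a| ≤ 1 / 50 := by rcases hcase with ⟨_, _, h⟩ | ⟨_, _, h⟩ <;> rw [h] <;> linarith
  have hς := H.ς_pos
  have hς1 := H.ς_le
  have hq := H.q_pos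
  have henv := P.env_pos (x 0)
  obtain ⟨z, hz, hz38, hqz⟩ := H.zpt hy1 hy2
  have hΩ := H.Om_near hz
  obtain ⟨c, hc⟩ := hx.b
  have hexp : ∀ t : ℝ, HasDerivAt (fun t => c * Real.exp (σ * t)) (σ * (c * Real.exp (σ * t))) t := by
    intro t
    refine (hd_cmul c (hd_comp (Real.hasDerivAt_exp _) (hd_lin σ t))).congr_deriv ?_
    ring
  have b0 : P.b (x 0) = c * Real.exp (σ * x 0) := hc.self_of_nhds
  have eb' : P.b =ᶠ[𝓝 (x 0)] fun t => c * Real.exp (σ * t) := hc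
  have b1 : deriv P.b (x 0) = σ * P.b (x 0) := by rw [eb'.deriv_eq, (hexp _).deriv, b0]
  have ed : dT P a1 a3 =ᶠ[𝓝 (x 0)] fun t => a * (c * Real.exp (σ * t)) := by
    filter_upwards [hc, hx.A1, hx.A3] with t h1 h2 h3
    simp only [dT, h1, h2, h3]
    rcases hcase with ⟨h, _, h'⟩ | ⟨h, _, h'⟩ <;> rw [h, h'] <;> ring
  have d0 : dT P a1 a3 (x 0) = a * P.b (x 0) := by rw [ed.eq_of_nhds, b0]
  have d1 : deriv (dT P a1 a3) (x 0) = a * (σ * P.b (x 0)) := by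
    rw [ed.deriv_eq, (hd_cmul a (hexp _)).deriv, b0]
  have t0 : P.th (x 0) = θ0 := hx.th.self_of_nhds
  have eth' : P.th =ᶠ[𝓝 (x 0)] fun _ => θ0 := hx.th
  have t1 : deriv P.th (x 0) = 0 := by rw [eth'.deriv_eq]; simp
  obtain ⟨v0, v1, v2, v3⟩ := RB_vals (P := P) a1 a3 q (-(q * Y0)) x
  have heq := H.env_q (P := P) (x 0)
  rw [hx.env] at heq
  rw [hx.env]
  simp only [Qf]
  rw [v0, v1, v2, v3, b1, d0, d1, t0, t1]
  set b := P.b (x 0) with hb
  have hb0 := P.b_nonneg (x 0)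
  set Ω := Real.sin (q * x 1 + -(q * Y0)) with hΩd
  set cq := Real.cos (q * x 1 + -(q * Y0)) with hcq
  have hcq1 : |cq| ≤ 1 := Real.abs_cos_le_one _
  set S := Real.sin (x 2) with hS
  set C := Real.cos (x 2) with hC
  set S3 := Real.sin (3 * x 2) with hS3
  set C3 := Real.cos (3 * x 2) with hC3
  have hSC : S ^ 2 + C ^ 2 = 1 := Real.sin_sq_add_cos_sq _
  have hS31 : |S3| ≤ 1 := Real.abs_sin_le_one _
  have hC31 : |C3| ≤ 1 := Real.abs_cos_le_one _
  have haS : |a * S3| ≤ 1 / 50 := by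
    rw [abs_mul]; calc |a| * |S3| ≤ 1 / 50 * 1 := mul_le_mul ha hS31 (abs_nonneg _) (by norm_num)
      _ = _ := by ring
  have haC : |3 * a * C3| ≤ 3 / 50 := by
    rw [abs_mul, abs_mul]; calc |3| * |a| * |C3| ≤ 3 / 50 * 1 := mul_le_mul (by norm_num; linarith) hC31 (abs_nonneg _) (by norm_num)
      _ = _ := by ring
  have hρ : 1 / 2 ≤ (S + a * S3) ^ 2 + (C + 3 * a * C3) ^ 2 - 0 := by
    have e1 := half_sq S (a * S3)
    have e2 := half_sq C (3 * a * C3)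
    have e3 : (a * S3) ^ 2 ≤ (1 / 50) ^ 2 := by rw [← sq_abs]; exact pow_le_pow_left₀ (abs_nonneg _) haS 2
    have e4 : (3 * a * C3) ^ 2 ≤ (3 / 50) ^ 2 := by rw [← sq_abs]; exact pow_le_pow_left₀ (abs_nonneg _) haC 2
    have hSle : |S| ≤ 1 := Real.abs_sin_le_one _
    have hCle : |C| ≤ 1 := Real.abs_cos_le_one _
    have f1 : -(1 / 50) ≤ S * (a * S3) := by
      have : |S * (a * S3)| ≤ 1 * (1 / 50) := by rw [abs_mul]; exact mul_le_mul hSle haS (abs_nonneg _) (by norm_num)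
      have := (abs_le.1 this).1; linarith
    have f2 : -(3 / 50) ≤ C * (3 * a * C3) := by
      have : |C * (3 * a * C3)| ≤ 1 * (3 / 50) := by rw [abs_mul]; exact mul_le_mul hCle haC (abs_nonneg _) (by norm_num)
      have := (abs_le.1 this).1; linarith
    have e5 : (S + a * S3) ^ 2 + (C + 3 * a * C3) ^ 2 - 0 = (S ^ 2 + C ^ 2) + 2 * (S * (a * S3)) + 2 * (C * (3 * a * C3)) + (a * S3) ^ 2 + (3 * a * C3) ^ 2 := by ring
    rw [e5, hSC]
    have := sq_nonneg (a * S3)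
    have := sq_nonneg (3 * a * C3)
    linarith
  have hρ2 : (S + a * S3) ^ 2 ≤ 2 := by
    have hSle : |S| ≤ 1 := Real.abs_sin_le_one _
    have : |S + a * S3| ≤ 1 + 1 / 50 := (abs_add_le _ _).trans (by linarith)
    rw [← sq_abs]
    have := pow_le_pow_left₀ (abs_nonneg _) this 2
    norm_num at this ⊢; linarith
  have hB1 : |b * (q * cq)| ≤ 1 / 10 := by
    rw [abs_mul, abs_of_nonneg hb0, abs_mul, abs_of_pos hq]
    have : q * |cq| ≤ q * 1 := mul_le_mul_of_nonneg_left hcq1 hq.le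
    have := mul_le_mul_of_nonneg_left this hb0
    linarith
  have hGG : 9 / 10 ≤ (θ0 * Real.cos (x 1) + (1 - θ0) * Real.cos (k * x 1)) ^ 2 + (θ0 * -Real.sin (x 1) + (1 - θ0) * -(k * Real.sin (k * x 1))) ^ 2 := by
    rcases hcase with ⟨p2, _, _⟩ | ⟨p2, _, _⟩
    · rw [p2]
      have := Real.sin_sq_add_cos_sq (x 1)
      have e : (1 * Real.cos (x 1) + (1 - 1) * Real.cos (k * x 1)) ^ 2 + (1 * -Real.sin (x 1) + (1 - 1) * -(k * Real.sin (k * x 1))) ^ 2
        = Real.sin (x 1) ^ 2 + Real.cos (x 1) ^ 2 := by ring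
      rw [e]; linarith
    · rw [p2]
      have h5 := Real.sin_sq_add_cos_sq (k * x 1)
      have e : (0 * Real.cos (x 1) + (1 - 0) * Real.cos (k * x 1)) ^ 2 + (0 * -Real.sin (x 1) + (1 - 0) * -(k * Real.sin (k * x 1))) ^ 2
        = k ^ 2 * Real.sin (k * x 1) ^ 2 + Real.cos (k * x 1) ^ 2 := by ring
      have hk1 : 1 ≤ k ^ 2 := one_le_pow₀ H.k1
      have h6 : Real.sin (k * x 1) ^ 2 ≤ k ^ 2 * Real.sin (k * x 1) ^ 2 := le_mul_of_one_le_left (sq_nonneg _) hk1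
      rw [e]; linarith
  have hmain := nd_exact (B := b * Ω) hσ hσ1 (by linarith : 1 / 2 ≤ (S + a * S3) ^ 2 + (C + 3 * a * C3) ^ 2) hρ2 hB1 hGG
  refine hmain.trans ?_
  have hk : 1 / 2 * (b * Ω * (C + 3 * a * C3)) ^ 2 ≤ κ x * ((b * Ω * (C + 3 * a * C3)) * (b * Ω * (C + 3 * a * C3))) := by
    rw [← pow_two]; exact mul_le_mul_of_nonneg_right hκ (sq_nonneg _)
  have e1 : b * Ω * C + 3 * (a * b * Ω * C3) = b * Ω * (C + 3 * a * C3) := by ring
  rw [e1]
  have e2 : (b * Ω * S + (θ0 * Real.cos (x 1) + (1 - θ0) * Real.cos (k * x 1)) + a * b * Ω * S3) *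
      (b * Ω * S + (θ0 * Real.cos (x 1) + (1 - θ0) * Real.cos (k * x 1)) + a * b * Ω * S3) =
      (b * Ω * (S + a * S3) + (θ0 * Real.cos (x 1) + (1 - θ0) * Real.cos (k * x 1))) ^ 2 := by ring
  have e3 : (σ * b * Ω * S + a * (σ * b) * Ω * S3 + 0 * (Real.cos (x 1) - Real.cos (k * x 1))) *
      (σ * b * Ω * S + a * (σ * b) * Ω * S3 + 0 * (Real.cos (x 1) - Real.cos (k * x 1))) = (σ * (b * Ω * (S + a * S3))) ^ 2 := by ring
  have e4 : (b * (q * cq) * S + (θ0 * -Real.sin (x 1) + (1 - θ0) * -(k * Real.sin (k * x 1))) + a * b * (q * cq) * S3) *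
      (b * (q * cq) * S + (θ0 * -Real.sin (x 1) + (1 - θ0) * -(k * Real.sin (k * x 1))) + a * b * (q * cq) * S3) =
      (b * (q * cq) * (S + a * S3) + (θ0 * -Real.sin (x 1) + (1 - θ0) * -(k * Real.sin (k * x 1)))) ^ 2 := by ring
  rw [e2, e3, e4]
  linarith

end

end Pool.Agent.J6H20.RL
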