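import Mathlib
import Pool.Agent.J6H20.RL.ZoneB4

/-!
# The estimate in the interior of the cells, conclusion
-/

set_option autoImplicit false

open Filter Topology
open scoped ContDiff

namespace Pool.Agent.J6H20.RL

section
variable {η g k m0 α : ℝ} {P : TP η g k m0 α}

theorem RB_JC3 {a1 a3 ηa q c0 E : ℝ} {x : V} (hη0 : 0 ≤ η) (hη : η ≤ 1) (h1 : |a1| ≤ ηa) (h3 : |a3| ≤ ηa)
    (hηa : 32 * ηa ≤ η) (hq0 : 0 ≤ q) (hq1 : q ≤ 1) (hk : |k| ≤ 2) (hE : 1 ≤ E)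
    (hEe : P.env (x 0) * (|Real.sin (q * x 1 + c0)| + q) ≤ E) :
    JC 3 (3000 * E) (RB P a1 a3 q c0) x := by
  have henv := P.env_pos (x 0)
  set en := P.env (x 0) with hen
  set s := |Real.sin (q * x 1 + c0)| with hs
  have jO : JC 3 (s + q) (fun y : V => Real.sin (q * y 1 + c0)) x := jOm (k := 2) hq0 hq1
  have jbb : JC 3 en (fun y : V => P.b (y 0)) x := ((jb (P := P) hη (x 0)).le (by norm_num)).co
  have jdd : JC 3 en (fun y : V => dT P a1 a3 (y 0)) x :=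
    (((jd (P := P) hη h1 h3 (x 0)).le (by norm_num)).mono (by
      have := mul_le_mul_of_nonneg_right (hηa.trans hη) henv.le
      linarith)).co
  have b1 : JC 3 (8 * E) (fun y : V => P.b (y 0) * Real.sin (q * y 1 + c0)) x := (jbb.mul jO).mono (by norm_num; linarith)
  have b2 : JC 3 (8 * E) (fun y : V => dT P a1 a3 (y 0) * Real.sin (q * y 1 + c0)) x := (jdd.mul jO).mono (by norm_num; linarith)
  have c1 : JC 3 (64 * E) (fun y : V => P.b (y 0) * Real.sin (q * y 1 + c0) * Real.sin (y 2)) x :=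
    (b1.mul JC.sin).mono (by norm_num; linarith)
  have c2 : JC 3 (1728 * E) (fun y : V => dT P a1 a3 (y 0) * Real.sin (q * y 1 + c0) * Real.sin (3 * y 2 + 0)) x :=
    (b2.mul iS3).mono (by norm_num; linarith)
  have t0 : JC 3 1 (fun y : V => P.th (y 0)) x := ((jth (P := P) hη (x 0)).le (by norm_num)).co
  have t1 : JC 3 2 (fun y : V => 1 - P.th (y 0)) x := ((JC.const (c := (1 : ℝ))).sub t0).mono (by norm_num)
  have c3 : JC 3 (8 * E) (fun y : V => P.th (y 0) * Real.cos (y 1)) x := (t0.mul JC.cos).mono (by norm_num; linarith)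
  have c4 : JC 3 (128 * E) (fun y : V => (1 - P.th (y 0)) * Real.cos (k * y 1 + 0)) x := (t1.mul (iCk hk)).mono (by norm_num; linarith)
  refine (((c1.add c2).add (c3.add c4)).congr (Eventually.of_forall fun y => ?_)).mono (by linarith)
  simp only [RB, R4, add_zero, mul_one]

theorem xiB_pd_fun {a1 a3 : ℝ} (hPh : ∀ y, SA (PhC P a1 a3) y) :
    pd 0 (xiB P a1 a3) = (fun y => -deriv P.lam (y 0) + pd 0 (PhC P a1 a3) y) ∧
    pd 1 (xiB P a1 a3) = pd 1 (PhC P a1 a3) ∧ pd 2 (xiB P a1 a3) = pd 2 (PhC P a1 a3) := by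
  refine ⟨?_, ?_, ?_⟩
  · funext y; rw [xiB_pd hPh, if_pos rfl]
  · funext y; rw [xiB_pd hPh, if_neg (by decide)]; ring
  · funext y; rw [xiB_pd hPh, if_neg (by decide)]; ring

theorem mcoefB {a1 a3 κ0 po : ℝ} {κ : V → ℝ} {x : V} (hη0 : 0 ≤ η) (hη : η ≤ 1) (hPh : ∀ y, JC 4 η (PhC P a1 a3) y) (hκx : κ x = κ0)
    (hκ2 : |κ0| ≤ 2) : |mcoef κ po (xiB P a1 a3) x - ccC P x| ≤ 13 * η + |po| := by
  obtain ⟨f0, f1, f2⟩ := xiB_pd_fun (P := P) (a1 := a1) (a3 := a3) fun y => (hPh y).sm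
  have l1 : |deriv P.lam (x 0)| ≤ 2 := (jlam (P := P) hη (x 0)).val
  have l2 : |pd 0 (fun y : V => deriv P.lam (y 0) - 1) x| ≤ η := by
    have : JC 3 η (fun y : V => deriv P.lam (y 0) - 1) x := (P.lam_jet (x 0)).co
    exact (this.pd 0).val
  have v0 := ((hPh x).pd 0).val
  have v1 := ((hPh x).pd 1).val
  have v2 := ((hPh x).pd 2).val
  have w0 := (((hPh x).pd 0).pd 0).val
  have w1 := (((hPh x).pd 1).pd 1).val
  have w2 := (((hPh x).pd 2).pd 2).val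
  have hd1 : DifferentiableAt ℝ (fun y : V => deriv P.lam (y 0) - 1) x := by
    have : JC 3 η (fun y : V => deriv P.lam (y 0) - 1) x := (P.lam_jet (x 0)).co
    exact this.sm.diff
  have hd2 : DifferentiableAt ℝ (pd 0 (PhC P a1 a3)) x := ((hPh x).sm.pd 0).diff
  have g0 : pd 0 (pd 0 (xiB P a1 a3)) x = -pd 0 (fun y : V => deriv P.lam (y 0) - 1) x + pd 0 (pd 0 (PhC P a1 a3)) x := by
    rw [f0]
    have e : (fun y : V => -deriv P.lam (y 0) + pd 0 (PhC P a1 a3) y) =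
        fun y => (pd 0 (PhC P a1 a3) y - 1) - (deriv P.lam (y 0) - 1) := by funext y; ring
    have hd3 : DifferentiableAt ℝ (fun y => pd 0 (PhC P a1 a3) y - 1) x := hd2.sub_const 1
    rw [e, pd_sub hd3 hd1, pd_sub hd2 (differentiableAt_const 1), pd_const]
    ring
  have e0 : pd 0 (xiB P a1 a3) x = -deriv P.lam (x 0) + pd 0 (PhC P a1 a3) x := by rw [f0]
  simp only [mcoef, ccC]
  rw [g0, e0, f1, f2, hκx]
  set L := deriv P.lam (x 0)
  set p0 := pd 0 (PhC P a1 a3) x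
  set p1 := pd 1 (PhC P a1 a3) x
  set p2 := pd 2 (PhC P a1 a3) x
  set r0 := pd 0 (pd 0 (PhC P a1 a3)) x
  set r1 := pd 1 (pd 1 (PhC P a1 a3)) x
  set r2 := pd 2 (pd 2 (PhC P a1 a3)) x
  set l := pd 0 (fun y : V => deriv P.lam (y 0) - 1) x
  have am : ∀ {a b A B : ℝ}, |a| ≤ A → |b| ≤ B → 0 ≤ A → |a * b| ≤ A * B := by
    intro a b A B h1 h2 h3
    rw [abs_mul]; exact mul_le_mul h1 h2 (abs_nonneg _) h3
  have s1 : |L * p0| ≤ 2 * η := am l1 v0 (by norm_num)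
  have s2 : |p0 * p0| ≤ η := (am v0 v0 hη0).trans (mul_le_of_le_one_right hη0 hη)
  have s3 : |p1 * p1| ≤ η := (am v1 v1 hη0).trans (mul_le_of_le_one_right hη0 hη)
  have s4 : |p2 * p2| ≤ η := (am v2 v2 hη0).trans (mul_le_of_le_one_right hη0 hη)
  have s5 : |κ0 * (r2 + p2 * p2)| ≤ 2 * (2 * η) := am hκ2 ((abs_add_le _ _).trans (by linarith)) (by norm_num)
  have key : -l + r0 + (-L + p0) * (-L + p0) + (r1 + p1 * p1) + κ0 * (r2 + p2 * p2) + po - L * L =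
      (-l) + r0 + (-(2 * (L * p0))) + p0 * p0 + r1 + p1 * p1 + κ0 * (r2 + p2 * p2) + po := by ring
  rw [key]
  have t1 := abs_add_le (-l + r0 + (-(2 * (L * p0))) + p0 * p0 + r1 + p1 * p1 + κ0 * (r2 + p2 * p2)) po
  have t2 := abs_add_le (-l + r0 + (-(2 * (L * p0))) + p0 * p0 + r1 + p1 * p1) (κ0 * (r2 + p2 * p2))
  have t3 := abs_add_le (-l + r0 + (-(2 * (L * p0))) + p0 * p0 + r1) (p1 * p1)
  have t4 := abs_add_le (-l + r0 + (-(2 * (L * p0))) + p0 * p0) r1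
  have t5 := abs_add_le (-l + r0 + (-(2 * (L * p0)))) (p0 * p0)
  have t6 := abs_add_le (-l + r0) (-(2 * (L * p0)))
  have t7 := abs_add_le (-l) r0
  have t8 : |-(2 * (L * p0))| ≤ 4 * η := by rw [abs_neg, abs_mul, abs_of_pos (by norm_num : (0 : ℝ) < 2)]; linarith
  rw [abs_neg] at t7
  linarith

/-- the general step -/
theorem zoneB_gen (C c0 ε : ℝ) (hC : 3000 ≤ C) (hc0 : 0 < c0) (hε : 0 < ε) : ∃ ηs : ℝ, 0 < ηs ∧
    ∀ {η g k m0 α : ℝ} (P : TP η g k m0 α) {a1 a3 ηa q Y0 E po : ℝ} {κ Ψ : V → ℝ} {x : V}, 0 ≤ η → η ≤ 1 → 13 * η ≤ ε / 2 →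
      |a1| ≤ ηa → |a3| ≤ ηa → 32 * ηa ≤ η → (∀ y, JC 4 η (PhC P a1 a3) y) → 0 ≤ q → q ≤ 1 / 10 → |k| ≤ 2 → 1 ≤ E →
      P.env (x 0) * (|Real.sin (q * x 1 + -(q * Y0))| + q) ≤ E → JC 2 η (fun y => κ y - (1 - q ^ 2)) x → JC 2 C Ψ x → |po| ≤ ε / 2 →
      JC 2 (ηs * E) (resid κ (ccC P) (xiB P a1 a3) (RB P a1 a3 q (-(q * Y0)))) x →
      c0 * E ^ 2 ≤ RB P a1 a3 q (-(q * Y0)) x * RB P a1 a3 q (-(q * Y0)) x + Qf κ (RB P a1 a3 q (-(q * Y0))) x →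
      |(1 - Ψ x) * resid κ (ccC P) (xiB P a1 a3) (RB P a1 a3 q (-(q * Y0))) x| ≤ ε * |RB P a1 a3 q (-(q * Y0)) x| →
      SA (FF κ (ccC P) (xiB P a1 a3) Ψ (RB P a1 a3 q (-(q * Y0)))) x ∧
      |Fl (κ x) po (FF κ (ccC P) (xiB P a1 a3) Ψ (RB P a1 a3 q (-(q * Y0)))) x| ≤
        5 * ε * |FF κ (ccC P) (xiB P a1 a3) Ψ (RB P a1 a3 q (-(q * Y0))) x| ∧
      |FF κ (ccC P) (xiB P a1 a3) Ψ (RB P a1 a3 q (-(q * Y0))) x| ≤ 2 * (Real.exp (xiB P a1 a3 x) * |RB P a1 a3 q (-(q * Y0)) x|) := by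
  obtain ⟨ηs, hηs, h⟩ := master C c0 ε (by linarith) hc0 hε
  refine ⟨ηs, hηs, fun {η g k m0 α} P {a1 a3 ηa q Y0 E po κ Ψ x} hη0 hη hηε h1 h3 hηa hPh hq0 hq1 hk hE hEe hκ hΨ hpo hres hnd hw => ?_⟩
  have Jκ : JC 2 2 κ x := by
    have u := hκ.add (JC.const (c := (1 - q ^ 2)))
    refine (u.congr (Eventually.of_forall fun y => by ring)).mono ?_
    have : |1 - q ^ 2| ≤ 1 := by rw [abs_le]; constructor <;> nlinarith
    linarith
  have hsa : ∀ y, SA (PhC P a1 a3) y := fun y => (hPh y).sm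
  obtain ⟨f0, f1, f2⟩ := xiB_pd_fun (P := P) (a1 := a1) (a3 := a3) hsa
  have hξ : SA (xiB P a1 a3) x := (SA_lam (P := P) x).add (hsa x)
  have l1 : |deriv P.lam (x 0)| ≤ 2 := (jlam (P := P) hη (x 0)).val
  have v0 := ((hPh x).pd 0).val
  have v1 := ((hPh x).pd 1).val
  have v2 := ((hPh x).pd 2).val
  have R3 := RB_JC3 (P := P) (c0 := -(q * Y0)) hη0 hη h1 h3 hηa hq0 (by linarith) hk hE hEe
  obtain ⟨Jc, _⟩ := jc_cc (P := P) x hη0 hη
  refine h κ (ccC P) (xiB P a1 a3) Ψ (RB P a1 a3 q (-(q * Y0))) x E po (by linarith) (Jκ.mono (by linarith))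
    (R3.mono (mul_le_mul_of_nonneg_right hC (by linarith))) hξ hres hΨ hnd ?_ ?_ ?_ (Jc.val.trans (by linarith)) hw ?_
  · rw [f0, abs_mul]
    have := abs_add_le (-deriv P.lam (x 0)) (pd 0 (PhC P a1 a3) x)
    rw [abs_neg] at this
    norm_num; linarith
  · rw [f1, abs_mul]; norm_num; linarith
  · rw [f2, abs_mul, abs_mul]
    have := Jκ.val
    have h5 : |κ x| * |pd 2 (PhC P a1 a3) x| ≤ 2 * 1 := mul_le_mul this (v2.trans hη) (abs_nonneg _) (by norm_num)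
    norm_num
    linarith
  · refine (mcoefB (P := P) hη0 hη hPh rfl Jκ.val).trans ?_
    linarith

end

end Pool.Agent.J6H20.RL
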