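import Mathlib
import Pool.Agent.J6H20.RL.ZoneB5

/-!
# The estimate in the interior of the cells: slow phases and exact phases
-/

set_option autoImplicit false

open Filter Topology
open scoped ContDiff

namespace Pool.Agent.J6H20.RL

section
variable {η g k m0 α : ℝ}

/-- the ansatz in the interior of a cell -/
noncomputable def FB (P : TP η g k m0 α) (a1 a3 q Y0 : ℝ) (κ Ψ : V → ℝ) : V → ℝ :=
  FF κ (ccC P) (xiB P a1 a3) Ψ (RB P a1 a3 q (-(q * Y0)))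

/-- the conclusion -/
def ConcB (ε : ℝ) (P : TP η g k m0 α) (a1 a3 q Y0 : ℝ) (κ Ψ : V → ℝ) (po : ℝ) (x : V) : Prop :=
  SA (FB P a1 a3 q Y0 κ Ψ) x ∧ |Fl (κ x) po (FB P a1 a3 q Y0 κ Ψ) x| ≤ 5 * ε * |FB P a1 a3 q Y0 κ Ψ x| ∧
    |FB P a1 a3 q Y0 κ Ψ x| ≤ 2 * (Real.exp (xiB P a1 a3 x) * |RB P a1 a3 q (-(q * Y0)) x|)

theorem E_facts {P : TP η g k m0 α} {ς q Y0 W η₃ : ℝ} {i0 : ℕ} (H : CellH k m0 α ς i0 q Y0 W η₃) {x : V}
    (hy1 : 3 / 8 ≤ x 1 - Y0) (hy2 : 3 / 8 ≤ Y0 + W - x 1) :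
    0 ≤ Real.sin (q * x 1 + -(q * Y0)) ∧ 1 ≤ 1 + P.env (x 0) * Real.sin (q * x 1 + -(q * Y0)) ∧
    P.env (x 0) * (|Real.sin (q * x 1 + -(q * Y0))| + q) ≤ 1 + P.env (x 0) * Real.sin (q * x 1 + -(q * Y0)) := by
  obtain ⟨z, hz, hz38, hqz⟩ := H.zpt hy1 hy2
  have hΩ := H.Om_near hz
  have hq := H.q_pos
  have hqz0 : 0 < q * z := by positivity
  have hpi := Real.pi_gt_three
  have hs0 : 0 ≤ Real.sin (q * z) := Real.sin_nonneg_of_nonneg_of_le_pi hqz0.le (by linarith)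
  have henv := P.env_pos (x 0)
  have heq := H.env_q (P := P) (x 0)
  have hς1 := H.ς_le
  rw [hΩ]
  refine ⟨hs0, ?_, ?_⟩
  · have : 0 ≤ P.env (x 0) * Real.sin (q * z) := by positivity
    linarith
  · rw [abs_of_nonneg hs0]; nlinarith

theorem win_res {ε e R Ψ E N : ℝ} (hΨ0 : 0 ≤ Ψ) (hΨ1 : Ψ ≤ 1) (he : |e| ≤ N * E) (hE : E ≤ 11 / 10)
    (hN0 : 0 ≤ N) (hN : N * (11 / 10) ≤ ε / 2) (hR : 1 / 2 ≤ R) (hε : 0 < ε) : |(1 - Ψ) * e| ≤ ε * |R| := by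
  rw [abs_mul, abs_of_nonneg (by linarith : 0 ≤ 1 - Ψ), abs_of_pos (by linarith : 0 < R)]
  have h1 : (1 - Ψ) * |e| ≤ |e| := mul_le_of_le_one_left (abs_nonneg _) (by linarith)
  have h2 : N * E ≤ N * (11 / 10) := mul_le_mul_of_nonneg_left hE hN0
  have h3 : ε * (1 / 2) ≤ ε * R := mul_le_mul_of_nonneg_left hR hε.le
  linarith

theorem win_res' {ε e R Ψ : ℝ} (hΨ : Ψ = 1) (hε : 0 < ε) : |(1 - Ψ) * e| ≤ ε * |R| := by
  rw [hΨ, sub_self, zero_mul, abs_zero]; positivity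

/-- **slow phases** -/
theorem zoneB_stat (C ε ς : ℝ) (hC : 3000 ≤ C) (hε : 0 < ε) (hς : 0 < ς) : ∃ η₀ : ℝ, 0 < η₀ ∧
    ∀ {η g k m0 α : ℝ} (P : TP η g k m0 α) {i0 : ℕ} {q Y0 W η₃ : ℝ} (_ : CellH k m0 α ς i0 q Y0 W η₃) {a1 a3 ηa po : ℝ}
      {κ Ψ : V → ℝ} {x : V}, 0 < η → η ≤ η₀ →
      |a1| ≤ ηa → |a3| ≤ ηa → 32 * ηa ≤ η → (∀ y, JC 4 η (PhC P a1 a3) y) → |k| ≤ 2 → |1 - k ^ 2| ≤ η →
      JC 2 η (fun y => κ y - (1 - q ^ 2)) x → JC 2 C Ψ x → 0 ≤ Ψ x → Ψ x ≤ 1 → |po| ≤ ε / 2 →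
      3 / 8 ≤ x 1 - Y0 → 3 / 8 ≤ Y0 + W - x 1 → (1 / 2 ≤ x 1 - Y0 → 1 / 2 ≤ Y0 + W - x 1 → Ψ x = 1) →
      ((P.env (x 0) ≤ 1 / 4 ∧ (P.th (x 0) = 1 ∨ P.th (x 0) = 0)) ∨ (P.env (x 0) = P.b (x 0) ∧ m0 ≤ P.env (x 0))) →
      ConcB ε P a1 a3 q Y0 κ Ψ po x := by
  obtain ⟨ηs, hηs, h⟩ := zoneB_gen C (ς ^ 2 / 144) ε hC (by positivity) hε
  refine ⟨min (1 / 10) (min (ς / 40) (min (ε / 26) (min (ηs / 1000000) (ε / 2200000)))), by positivity,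
    fun {η g k m0 α} P {i0 q Y0 W η₃} H {a1 a3 ηa po κ Ψ x} hη0 hη h1 h3 hηa hPh hk hk2 hκ hΨ hΨ0 hΨ1 hpo hy1 hy2 hΨw hph => ?_⟩
  have e1 : η ≤ 1 / 10 := hη.trans (min_le_left _ _)
  have e2 : η ≤ ς / 40 := hη.trans ((min_le_right _ _).trans (min_le_left _ _))
  have e3 : η ≤ ε / 26 := hη.trans ((min_le_right _ _).trans ((min_le_right _ _).trans (min_le_left _ _)))
  have e4 : η ≤ ηs / 1000000 := hη.trans ((min_le_right _ _).trans ((min_le_right _ _).trans ((min_le_right _ _).trans (min_le_left _ _))))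
  have e5 : η ≤ ε / 2200000 := hη.trans ((min_le_right _ _).trans ((min_le_right _ _).trans ((min_le_right _ _).trans (min_le_right _ _))))
  obtain ⟨s0, E1, Ee⟩ := E_facts (P := P) H hy1 hy2
  have hq := H.q_pos
  have hq1 := H.q_le
  have hres := resid_stat (P := P) (c0 := -(q * Y0)) hη0 (by linarith) h1 h3 hηa hPh hq.le (by linarith) hk hk2 hκ E1 Ee
  set E := 1 + P.env (x 0) * Real.sin (q * x 1 + -(q * Y0)) with hE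
  have hκx : 1 / 2 ≤ κ x := by
    have := (abs_le.1 hκ.val).1
    nlinarith
  have hnd := H.nd_stat (P := P) hη0.le e2 h1 h3 hηa hκx hy1 hy2 hph
  refine h P (E := E) hη0.le (by linarith) (by linarith) h1 h3 hηa hPh hq.le hq1 hk E1 Ee hκ hΨ hpo
    (hres.mono ?_) hnd ?_
  · have : 1000000 * (η * E) = (1000000 * η) * E := by ring
    rw [this]; exact mul_le_mul_of_nonneg_right (by linarith) (by linarith)
  · -- the windows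
    by_cases hw : 1 / 2 ≤ x 1 - Y0 ∧ 1 / 2 ≤ Y0 + W - x 1
    · exact win_res' (hΨw hw.1 hw.2) hε
    · have hz : ∃ z, (z = x 1 - Y0 ∨ z = Y0 + W - x 1) ∧ 0 ≤ z ∧ z ≤ 1 / 2 := by
        by_cases h5 : 1 / 2 ≤ x 1 - Y0
        · exact ⟨Y0 + W - x 1, Or.inr rfl, by linarith, by by_contra h6; exact hw ⟨h5, by linarith⟩⟩
        · exact ⟨x 1 - Y0, Or.inl rfl, by linarith, by linarith⟩
      obtain ⟨z, hz, hz0, hz1⟩ := hz
      obtain ⟨w1, w2⟩ := H.win (P := P) hη0.le (by linarith) h1 h3 hηa hz hz0 hz1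
      rw [← H.Om_near hz] at w2
      have hv := hres.val
      have e : 1000000 * (η * E) = (1000000 * η) * E := by ring
      rw [e] at hv
      exact win_res (N := 1000000 * η) (E := E) hΨ0 hΨ1 hv (by linarith) (by positivity) (by linarith) w1 hε

/-- **exact phases** -/
theorem zoneB_exact (C ε ς g : ℝ) (hC : 3000 ≤ C) (hε : 0 < ε) (hς : 0 < ς) (hg : 0 < g) (hg1 : g ≤ 1) : ∃ η₂ : ℝ, 0 < η₂ ∧
    ∀ {η k m0 α : ℝ} (P : TP η g k m0 α) {i0 : ℕ} {q Y0 W η₃ : ℝ} (_ : CellH k m0 α ς i0 q Y0 W η₃) {a1 a3 ηa po : ℝ}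
      {κ Ψ : V → ℝ} {x : V}, 0 < η → η ≤ 1 / 10 → 13 * η ≤ ε / 2 →
      |a1| ≤ ηa → |a3| ≤ ηa → 32 * ηa ≤ η → ηa ≤ 1 / 50 → (∀ y, JC 4 η (PhC P a1 a3) y) → |k| ≤ 2 →
      JC 2 η (fun y => κ y - (1 - q ^ 2)) x → JC 2 η₂ (fun y => κ y - (1 - q ^ 2)) x → JC 2 C Ψ x → 0 ≤ Ψ x → Ψ x ≤ 1 → |po| ≤ ε / 2 →
      3 / 8 ≤ x 1 - Y0 → 3 / 8 ≤ Y0 + W - x 1 → (1 / 2 ≤ x 1 - Y0 → 1 / 2 ≤ Y0 + W - x 1 → Ψ x = 1) →
      ∀ {σ μ θ0 a : ℝ}, |σ| = g → ExactAt P.b P.env P.A1 P.A3 P.th P.lam (x 0) σ μ θ0 →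
      ((θ0 = 1 ∧ μ = 1 ∧ a = a1) ∨ (θ0 = 0 ∧ μ = k ∧ a = a3)) → (μ - σ) ^ 2 - q ^ 2 = (1 - q ^ 2) * ((1 - 9 * a) / (1 - a)) →
      ConcB ε P a1 a3 q Y0 κ Ψ po x := by
  obtain ⟨ηs, hηs, h⟩ := zoneB_gen C (g ^ 2 / 12) ε hC (by positivity) hε
  refine ⟨min (ηs / 256) (ε / 600), by positivity,
    fun {η k m0 α} P {i0 q Y0 W η₃} H {a1 a3 ηa po κ Ψ x} hη0 hη hηε h1 h3 hηa hηb hPh hk hκ hκ2 hΨ hΨ0 hΨ1 hpo hy1 hy2 hΨw {σ μ θ0 a} hσ hx hcase hrel => ?_⟩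
  obtain ⟨s0, E1, Ee⟩ := E_facts (P := P) H hy1 hy2
  have hq := H.q_pos
  have hq1 := H.q_le
  have ha : |a| ≤ 1 / 50 := by rcases hcase with ⟨_, _, h⟩ | ⟨_, _, h⟩ <;> rw [h] <;> linarith
  have hev := resid_exact (P := P) (κ := κ) (c0 := -(q * Y0)) hx hcase (h1.trans hηb) (h3.trans hηb) hrel
  set E := 1 + P.env (x 0) * Real.sin (q * x 1 + -(q * Y0)) with hE
  set η₂ := min (ηs / 256) (ε / 600) with hη₂
  have hη₂0 : 0 < η₂ := by rw [hη₂]; positivity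
  have hκx : 1 / 2 ≤ κ x := by
    have := (abs_le.1 hκ.val).1
    nlinarith
  have hδE : |(-((1 - 9 * a) / (1 - a)))| ≤ 2 := by
    obtain ⟨b1, b2⟩ := abs_le.1 ha
    rw [abs_neg, abs_div, abs_of_pos (by linarith : 0 < 1 - 9 * a), abs_of_pos (by linarith : 0 < 1 - a), div_le_iff₀ (by linarith)]
    linarith
  have jO : JC 2 (|Real.sin (q * x 1 + -(q * Y0))| + q) (fun y : V => Real.sin (q * y 1 + -(q * Y0))) x := jOm (k := 1) hq.le (by linarith)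
  have bO : JC 2 (4 * E) (fun y : V => P.b (y 0) * Real.sin (q * y 1 + -(q * Y0))) x := by
    refine (((jb (P := P) (by linarith) (x 0)).le (by norm_num)).co.mul jO).mono ?_
    norm_num; linarith
  have jS : JC 2 2 (fun y : V => Real.sin (y 2) + a * Real.sin (3 * y 2 + 0)) x := by
    refine ((JC.sin (x := x) (j := 2)).add (iS3.cmul a)).mono ?_
    norm_num; linarith
  have hres : JC 2 (256 * η₂ * E) (resid κ (ccC P) (xiB P a1 a3) (RB P a1 a3 q (-(q * Y0)))) x := by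
    refine (((hκ2.mul (bO.mul jS)).cmul (-((1 - 9 * a) / (1 - a)))).congr (hev.mono fun y hy => hy.symm)).mono ?_
    have e : (2 : ℝ) ^ 2 * (η₂ * (2 ^ 2 * (4 * E * 2))) = 128 * (η₂ * E) := by ring
    rw [e]
    have : |(-((1 - 9 * a) / (1 - a)))| * (128 * (η₂ * E)) ≤ 2 * (128 * (η₂ * E)) := mul_le_mul_of_nonneg_right hδE (by positivity)
    linarith
  have hσ0 : σ ≠ 0 := by rintro rfl; rw [abs_zero] at hσ; linarith
  have hnd := H.nd_ex (P := P) hη0.le (by linarith) h1 h3 hηa hηb hκx hy1 hy2 hσ0 (by rw [hσ]; exact hg1) hx hcase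
  have hσ2 : σ ^ 2 = g ^ 2 := by rw [← sq_abs, hσ]
  rw [hσ2] at hnd
  have f1 : 256 * η₂ ≤ ηs := by have : η₂ ≤ ηs / 256 := min_le_left _ _; linarith
  have f2 : η₂ ≤ ε / 600 := min_le_right _ _
  refine h P (E := E) hη0.le (by linarith) hηε h1 h3 hηa hPh hq.le hq1 hk E1 Ee hκ hΨ hpo
    (hres.mono (mul_le_mul_of_nonneg_right f1 (by linarith))) hnd ?_
  by_cases hw : 1 / 2 ≤ x 1 - Y0 ∧ 1 / 2 ≤ Y0 + W - x 1
  · exact win_res' (hΨw hw.1 hw.2) hε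
  · have hz : ∃ z, (z = x 1 - Y0 ∨ z = Y0 + W - x 1) ∧ 0 ≤ z ∧ z ≤ 1 / 2 := by
      by_cases h5 : 1 / 2 ≤ x 1 - Y0
      · exact ⟨Y0 + W - x 1, Or.inr rfl, by linarith, by by_contra h6; exact hw ⟨h5, by linarith⟩⟩
      · exact ⟨x 1 - Y0, Or.inl rfl, by linarith, by linarith⟩
    obtain ⟨z, hz, hz0, hz1⟩ := hz
    obtain ⟨w1, w2⟩ := H.win (P := P) hη0.le (by linarith) h1 h3 hηa hz hz0 hz1
    rw [← H.Om_near hz] at w2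
    exact win_res (N := 256 * η₂) (E := E) hΨ0 hΨ1 hres.val (by linarith) (by positivity) (by linarith) w1 hε

end

end Pool.Agent.J6H20.RL
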