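import Mathlib
import Pool.Agent.J6H20.RL.ZoneB6

/-!
# The estimate near the walls
-/

set_option autoImplicit false

open Filter Topology
open scoped ContDiff

namespace Pool.Agent.J6H20.RL

section
variable {η g k m0 α : ℝ} {P : TP η g k m0 α}

/-- exponent with a general phase correction -/
noncomputable def xiG (P : TP η g k m0 α) (Φ : V → ℝ) (y : V) : ℝ := -P.lam (y 0) + Φ y

theorem xiG_pd {Φ : V → ℝ} (hΦ : ∀ y, SA Φ y) :
    pd 0 (xiG P Φ) = (fun y => -deriv P.lam (y 0) + pd 0 Φ y) ∧ pd 1 (xiG P Φ) = pd 1 Φ ∧ pd 2 (xiG P Φ) = pd 2 Φ := by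
  have h : ∀ i y, pd i (xiG P Φ) y = (if (0 : Fin 3) = i then -deriv P.lam (y 0) else 0) + pd i Φ y := by
    intro i y
    have h : pd i (xiG P Φ) y = _ := pd_add (SA_lam (P := P) y).diff (hΦ y).diff i
    rw [h, pd_lam]
  refine ⟨?_, ?_, ?_⟩
  · funext y; rw [h, if_pos rfl]
  · funext y; rw [h, if_neg (by decide)]; ring
  · funext y; rw [h, if_neg (by decide)]; ring

theorem xiG_SA {Φ : V → ℝ} (hΦ : ∀ y, SA Φ y) (x : V) : SA (xiG P Φ) x := (SA_lam (P := P) x).add (hΦ x)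

theorem mcoefG {η' κ0 po : ℝ} {κ Φ : V → ℝ} {x : V} (hηη : η ≤ η') (hη : η' ≤ 1) (hΦs : ∀ y, SA Φ y) (hΦ : JC 2 η' Φ x) (hκx : κ x = κ0)
    (hκ2 : |κ0| ≤ 2) : |mcoef κ po (xiG P Φ) x - ccC P x| ≤ 13 * η' + |po| := by
  obtain ⟨f0, f1, f2⟩ := xiG_pd (P := P) hΦs
  have hη0 := hΦ.M_nonneg
  have l1 : |deriv P.lam (x 0)| ≤ 2 := (jlam (P := P) (hηη.trans hη) (x 0)).val
  have l2 : |pd 0 (fun y : V => deriv P.lam (y 0) - 1) x| ≤ η' := by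
    have : JC 3 η (fun y : V => deriv P.lam (y 0) - 1) x := (P.lam_jet (x 0)).co
    exact (this.pd 0).val.trans hηη
  have v0 := (hΦ.pd 0).val
  have v1 := (hΦ.pd 1).val
  have v2 := (hΦ.pd 2).val
  have w0 := ((hΦ.pd 0).pd 0).val
  have w1 := ((hΦ.pd 1).pd 1).val
  have w2 := ((hΦ.pd 2).pd 2).val
  have hd1 : DifferentiableAt ℝ (fun y : V => deriv P.lam (y 0) - 1) x := by
    have : JC 3 η (fun y : V => deriv P.lam (y 0) - 1) x := (P.lam_jet (x 0)).co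
    exact this.sm.diff
  have hd2 : DifferentiableAt ℝ (pd 0 Φ) x := ((hΦs x).pd 0).diff
  have g0 : pd 0 (pd 0 (xiG P Φ)) x = -pd 0 (fun y : V => deriv P.lam (y 0) - 1) x + pd 0 (pd 0 Φ) x := by
    rw [f0]
    have e : (fun y : V => -deriv P.lam (y 0) + pd 0 Φ y) =
        fun y => (pd 0 Φ y - 1) - (deriv P.lam (y 0) - 1) := by funext y; ring
    have hd3 : DifferentiableAt ℝ (fun y => pd 0 Φ y - 1) x := hd2.sub_const 1
    rw [e, pd_sub hd3 hd1, pd_sub hd2 (differentiableAt_const 1), pd_const]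
    ring
  have e0 : pd 0 (xiG P Φ) x = -deriv P.lam (x 0) + pd 0 Φ x := by rw [f0]
  simp only [mcoef, ccC]
  rw [g0, e0, f1, f2, hκx]
  set L := deriv P.lam (x 0)
  set p0 := pd 0 Φ x
  set p1 := pd 1 Φ x
  set p2 := pd 2 Φ x
  set r0 := pd 0 (pd 0 Φ) x
  set r1 := pd 1 (pd 1 Φ) x
  set r2 := pd 2 (pd 2 Φ) x
  set l := pd 0 (fun y : V => deriv P.lam (y 0) - 1) x
  have am : ∀ {a b A B : ℝ}, |a| ≤ A → |b| ≤ B → 0 ≤ A → |a * b| ≤ A * B := by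
    intro a b A B h1 h2 h3
    rw [abs_mul]; exact mul_le_mul h1 h2 (abs_nonneg _) h3
  have s1 : |L * p0| ≤ 2 * η' := am l1 v0 (by norm_num)
  have s2 : |p0 * p0| ≤ η' := (am v0 v0 hη0).trans (mul_le_of_le_one_right hη0 hη)
  have s3 : |p1 * p1| ≤ η' := (am v1 v1 hη0).trans (mul_le_of_le_one_right hη0 hη)
  have s4 : |p2 * p2| ≤ η' := (am v2 v2 hη0).trans (mul_le_of_le_one_right hη0 hη)
  have s5 : |κ0 * (r2 + p2 * p2)| ≤ 2 * (2 * η') := am hκ2 ((abs_add_le _ _).trans (by linarith)) (by norm_num)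
  have key : -l + r0 + (-L + p0) * (-L + p0) + (r1 + p1 * p1) + κ0 * (r2 + p2 * p2) + po - L * L =
      (-l) + r0 + (-(2 * (L * p0))) + p0 * p0 + r1 + p1 * p1 + κ0 * (r2 + p2 * p2) + po := by ring
  rw [key]
  have t1 := abs_add_le (-l + r0 + (-(2 * (L * p0))) + p0 * p0 + r1 + p1 * p1 + κ0 * (r2 + p2 * p2)) po
  have t2 := abs_add_le (-l + r0 + (-(2 * (L * p0))) + p0 * p0 + r1 + p1 * p1) (κ0 * (r2 + p2 * p2))
  have t3 := abs_add_le (-l + r0 + (-(2 * (L * p0))) + p0 * p0 + r1) (p1 * p1)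
  have t4 := abs_add_le (-l + r0 + (-(2 * (L * p0))) + p0 * p0) r1
  have t5 := abs_add_le (-l + r0 + (-(2 * (L * p0)))) (p0 * p0)
  have t6 := abs_add_le (-l + r0) (-(2 * (L * p0)))
  have t7 := abs_add_le (-l) r0
  have t8 : |-(2 * (L * p0))| ≤ 4 * η' := by rw [abs_neg, abs_mul, abs_of_pos (by norm_num : (0 : ℝ) < 2)]; linarith
  rw [abs_neg] at t7
  linarith

theorem am' {a b A B : ℝ} (h1 : |a| ≤ A) (h2 : |b| ≤ B) : |a * b| ≤ A * B := by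
  rw [abs_mul]; exact mul_le_mul h1 h2 (abs_nonneg _) ((abs_nonneg _).trans h1)

theorem ad' {a b A B : ℝ} (h1 : |a| ≤ A) (h2 : |b| ≤ B) : |a + b| ≤ A + B := (abs_add_le _ _).trans (by linarith)

/-- **the estimate near the walls** -/
theorem zoneA {a1 a3 ηa η' ε ε₁ ς q Co Ch po : ℝ} {Om h hp : ℝ → ℝ} {κ Φ Ψ : V → ℝ} {x : V} (hη0 : 0 ≤ η) (hηη : η ≤ η') (hη : η' ≤ 1)
    (h1 : |a1| ≤ ηa) (h3 : |a3| ≤ ηa) (hηa : 32 * ηa ≤ η) (hΦs : ∀ y, SA Φ y) (hΦ : JC 2 η' Φ x) (hκ : |κ x| ≤ 2)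
    (hq : 0 ≤ q) (hς : P.env (x 0) * q ≤ 101 / 100 * ς) (hς0 : 0 ≤ ς) (hCo : 1 ≤ Co) (hCh : 1 ≤ Ch)
    (hO : ContDiffAt ℝ ∞ Om (x 1)) (hh : ContDiffAt ℝ ∞ h (x 1)) (hhp : ContDiffAt ℝ ∞ hp (x 1))
    (o0 : |Om (x 1)| ≤ Co * q) (o1 : |deriv Om (x 1)| ≤ Co * q) (o2 : |deriv (deriv Om) (x 1)| ≤ Co * q)
    (b0 : |h (x 1)| ≤ Ch) (b1 : |deriv h (x 1)| ≤ Ch) (b2 : |deriv (deriv h) (x 1) + h (x 1)| ≤ ε₁)
    (c0 : |hp (x 1)| ≤ Ch) (c1 : |deriv hp (x 1)| ≤ Ch) (c2 : |deriv (deriv hp) (x 1) + hp (x 1)| ≤ 3 * ε₁)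
    (hl : 1 / 2 ≤ h (x 1)) (hpl : 1 / 2 ≤ hp (x 1)) (hΨ : Ψ =ᶠ[𝓝 x] fun _ => 0) (hε₁ : 0 ≤ ε₁)
    (hs1 : 200 * Co * ς ≤ ε / 16) (hs2 : 50 * η' * Ch ≤ ε / 16) (hs3 : 3 * ε₁ ≤ ε / 16) (hs4 : 16 * Co * ς ≤ 1) (hpo : |po| ≤ ε / 2) :
    SA (FF κ (ccC P) (xiG P Φ) Ψ (R4 P.b (dT P a1 a3) P.th Om h hp)) x ∧
    |Fl (κ x) po (FF κ (ccC P) (xiG P Φ) Ψ (R4 P.b (dT P a1 a3) P.th Om h hp)) x| ≤
      5 * ε * |FF κ (ccC P) (xiG P Φ) Ψ (R4 P.b (dT P a1 a3) P.th Om h hp) x| ∧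
    |FF κ (ccC P) (xiG P Φ) Ψ (R4 P.b (dT P a1 a3) P.th Om h hp) x| ≤ 2 * (Real.exp (xiG P Φ x) * |R4 P.b (dT P a1 a3) P.th Om h hp x|) ∧
    FF κ (ccC P) (xiG P Φ) Ψ (R4 P.b (dT P a1 a3) P.th Om h hp) =ᶠ[𝓝 x] fun y => Real.exp (xiG P Φ y) * R4 P.b (dT P a1 a3) P.th Om h hp y := by
  have henv := P.env_pos (x 0)
  have hη1 : η ≤ 1 := hηη.trans hη
  have hη'0 : 0 ≤ η' := hη0.trans hηη
  have jbb := jb (P := P) hη1 (x 0)
  have jdd := (jd (P := P) hη1 h1 h3 (x 0)).mono (mul_le_mul_of_nonneg_right (hηa.trans hη1) henv.le)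
  rw [one_mul] at jdd
  have jb1 := P.b_jet (x 0)
  set en := P.env (x 0) with hen
  have vb : |P.b (x 0)| ≤ en := jbb.val
  have vb1 : |deriv P.b (x 0)| ≤ en := jb1.val.trans (mul_le_of_le_one_left henv.le hη1)
  have vb2 : |deriv (deriv P.b) (x 0)| ≤ en := jb1.deriv.val.trans (mul_le_of_le_one_left henv.le hη1)
  have vd : |dT P a1 a3 (x 0)| ≤ en := jdd.val
  have vd1 : |deriv (dT P a1 a3) (x 0)| ≤ en := jdd.deriv.val
  have vd2 : |deriv (deriv (dT P a1 a3)) (x 0)| ≤ en := jdd.deriv.deriv.val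
  have vt1 : |deriv P.th (x 0)| ≤ η' := (P.th_jet (x 0)).val.trans hηη
  have vt2 : |deriv (deriv P.th) (x 0)| ≤ η' := (P.th_jet (x 0)).deriv.val.trans hηη
  have hm := P.th_mem (x 0)
  obtain ⟨f0, f1, f2⟩ := xiG_pd (P := P) hΦs
  have l1 : |deriv P.lam (x 0)| ≤ 2 := (jlam (P := P) hη1 (x 0)).val
  have l2 : |deriv P.lam (x 0) - 1| ≤ η' := (P.lam_jet (x 0)).val.trans hηη
  have vc : |ccC P x - 1| ≤ 3 * η' := by
    have e : ccC P x - 1 = (deriv P.lam (x 0) - 1) * (deriv P.lam (x 0) + 1) := by simp only [ccC]; ring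
    rw [e]
    have := am' l2 ((abs_add_le _ _).trans (by rw [abs_one]; linarith) : |deriv P.lam (x 0) + 1| ≤ 3)
    linarith
  have vc' : |ccC P x| ≤ 4 := by
    have e : ccC P x = deriv P.lam (x 0) * deriv P.lam (x 0) := rfl
    rw [e]; exact (am' l1 l1).trans (by norm_num)
  have B0 : |2 * pd 0 (xiG P Φ) x| ≤ 6 := by
    rw [f0, abs_mul]
    have := abs_add_le (-deriv P.lam (x 0)) (pd 0 Φ x)
    rw [abs_neg] at this
    have := (hΦ.pd 0).val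
    norm_num; linarith
  have B1 : |2 * pd 1 (xiG P Φ) x| ≤ 2 * η' := by
    rw [f1, abs_mul]; have := (hΦ.pd 1).val; norm_num; linarith
  have B2 : |2 * κ x * pd 2 (xiG P Φ) x| ≤ 4 := by
    rw [f2]
    have := am' (am' (show |(2 : ℝ)| ≤ 2 by norm_num) hκ) ((hΦ.pd 2).val.trans hη)
    linarith
  have S1 := Real.abs_sin_le_one (x 2)
  have C1 := Real.abs_cos_le_one (x 2)
  have S3 := Real.abs_sin_le_one (3 * x 2)
  have C3 := Real.abs_cos_le_one (3 * x 2)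
  have hcκ : |ccC P x - κ x| ≤ 6 := (abs_sub _ _).trans (by linarith)
  have hcκ9 : |ccC P x - 9 * κ x| ≤ 22 := by
    refine (abs_sub _ _).trans ?_
    rw [abs_mul]; norm_num; linarith
  have hX0 : 0 ≤ en * (Co * q) := by positivity
  -- amplitude part
  have p1 : |(deriv (deriv P.b) (x 0) + 2 * pd 0 (xiG P Φ) x * deriv P.b (x 0)) * Om (x 1) * Real.sin (x 2)| ≤ 7 * (en * (Co * q)) :=
    (am' (am' (ad' vb2 (am' B0 vb1)) o0) S1).trans (by linarith)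
  have p2 : |P.b (x 0) * (deriv (deriv Om) (x 1) + 2 * pd 1 (xiG P Φ) x * deriv Om (x 1) + (ccC P x - κ x) * Om (x 1)) * Real.sin (x 2)|
      ≤ 9 * (en * (Co * q)) := by
    refine (am' (am' vb (ad' (ad' o2 (am' B1 o1)) (am' hcκ o0))) S1).trans ?_
    have h5 : 2 * η' * (Co * q) ≤ 2 * (Co * q) := mul_le_mul_of_nonneg_right (by linarith) (by positivity)
    have h6 := mul_le_mul_of_nonneg_left h5 henv.le
    linarith
  have p3 : |2 * κ x * pd 2 (xiG P Φ) x * (P.b (x 0) * Om (x 1) * Real.cos (x 2))| ≤ 4 * (en * (Co * q)) :=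
    (am' B2 (am' (am' vb o0) C1)).trans (by linarith)
  have p4 : |(deriv (deriv (dT P a1 a3)) (x 0) + 2 * pd 0 (xiG P Φ) x * deriv (dT P a1 a3) (x 0)) * Om (x 1) * Real.sin (3 * x 2)| ≤ 7 * (en * (Co * q)) :=
    (am' (am' (ad' vd2 (am' B0 vd1)) o0) S3).trans (by linarith)
  have p5 : |dT P a1 a3 (x 0) * (deriv (deriv Om) (x 1) + 2 * pd 1 (xiG P Φ) x * deriv Om (x 1) + (ccC P x - 9 * κ x) * Om (x 1)) * Real.sin (3 * x 2)|
      ≤ 25 * (en * (Co * q)) := by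
    refine (am' (am' vd (ad' (ad' o2 (am' B1 o1)) (am' hcκ9 o0))) S3).trans ?_
    have h5 : 2 * η' * (Co * q) ≤ 2 * (Co * q) := mul_le_mul_of_nonneg_right (by linarith) (by positivity)
    have h6 := mul_le_mul_of_nonneg_left h5 henv.le
    linarith
  have p6 : |2 * κ x * pd 2 (xiG P Φ) x * (3 * (dT P a1 a3 (x 0) * Om (x 1) * Real.cos (3 * x 2)))| ≤ 12 * (en * (Co * q)) :=
    (am' B2 (am' (show |(3 : ℝ)| ≤ 3 by norm_num) (am' (am' vd o0) C3))).trans (by linarith)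
  -- sea part
  have p7 : |(deriv (deriv P.th) (x 0) + 2 * pd 0 (xiG P Φ) x * deriv P.th (x 0)) * (h (x 1) - hp (x 1))| ≤ 14 * (η' * Ch) :=
    (am' (ad' vt2 (am' B0 vt1)) ((abs_sub _ _).trans (add_le_add b0 c0))).trans (by linarith)
  have q1 : |deriv (deriv h) (x 1) + 2 * pd 1 (xiG P Φ) x * deriv h (x 1) + ccC P x * h (x 1)| ≤ 3 * ε₁ + 5 * (η' * Ch) := by
    have e : deriv (deriv h) (x 1) + 2 * pd 1 (xiG P Φ) x * deriv h (x 1) + ccC P x * h (x 1) =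
        (deriv (deriv h) (x 1) + h (x 1)) + 2 * pd 1 (xiG P Φ) x * deriv h (x 1) + (ccC P x - 1) * h (x 1) := by ring
    rw [e]
    exact (ad' (ad' b2 (am' B1 b1)) (am' vc b0)).trans (by linarith)
  have q2 : |deriv (deriv hp) (x 1) + 2 * pd 1 (xiG P Φ) x * deriv hp (x 1) + ccC P x * hp (x 1)| ≤ 3 * ε₁ + 5 * (η' * Ch) := by
    have e : deriv (deriv hp) (x 1) + 2 * pd 1 (xiG P Φ) x * deriv hp (x 1) + ccC P x * hp (x 1) =
        (deriv (deriv hp) (x 1) + hp (x 1)) + 2 * pd 1 (xiG P Φ) x * deriv hp (x 1) + (ccC P x - 1) * hp (x 1) := by ring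
    rw [e]
    exact (ad' (ad' c2 (am' B1 c1)) (am' vc c0)).trans (by linarith)
  have p8 : |P.th (x 0) * (deriv (deriv h) (x 1) + 2 * pd 1 (xiG P Φ) x * deriv h (x 1) + ccC P x * h (x 1))
      + (1 - P.th (x 0)) * (deriv (deriv hp) (x 1) + 2 * pd 1 (xiG P Φ) x * deriv hp (x 1) + ccC P x * hp (x 1))| ≤ 3 * ε₁ + 5 * (η' * Ch) := by
    refine (abs_add_le _ _).trans ?_
    rw [abs_mul, abs_mul, abs_of_nonneg hm.1, abs_of_nonneg (by linarith : 0 ≤ 1 - P.th (x 0))]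
    have := mul_le_mul_of_nonneg_left q1 hm.1
    have := mul_le_mul_of_nonneg_left q2 (by linarith : 0 ≤ 1 - P.th (x 0))
    linarith
  have hres : |resid κ (ccC P) (xiG P Φ) (R4 P.b (dT P a1 a3) P.th Om h hp) x| ≤ 70 * (en * (Co * q)) + 20 * (η' * Ch) + 3 * ε₁ := by
    simp only [resid]
    rw [R4_formula (P.b_sm _) (dT_sm _ _ _) (P.th_sm _) hO hh hhp, add_assoc ((deriv (deriv P.th) (x 0) + 2 * pd 0 (xiG P Φ) x * deriv P.th (x 0)) * (h (x 1) - hp (x 1)))]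
    refine (ad' (ad' (ad' (ad' p1 p2) p3) (ad' (ad' p4 p5) p6)) (ad' p7 p8)).trans ?_
    have : 0 ≤ η' * Ch := by positivity
    linarith
  have hX : en * (Co * q) ≤ 101 / 100 * (Co * ς) := by
    have := mul_le_mul_of_nonneg_left hς (by linarith : 0 ≤ Co)
    linarith
  -- lower bound for R
  have hR : 1 / 4 ≤ R4 P.b (dT P a1 a3) P.th Om h hp x := by
    have r1 : |P.b (x 0) * Om (x 1) * Real.sin (x 2)| ≤ en * (Co * q) := (am' (am' vb o0) S1).trans (by linarith)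
    have r2 : |dT P a1 a3 (x 0) * Om (x 1) * Real.sin (3 * x 2)| ≤ en * (Co * q) := (am' (am' vd o0) S3).trans (by linarith)
    have r3 : 1 / 2 ≤ P.th (x 0) * h (x 1) + (1 - P.th (x 0)) * hp (x 1) := by
      have := mul_le_mul_of_nonneg_left hl hm.1
      have := mul_le_mul_of_nonneg_left hpl (by linarith : 0 ≤ 1 - P.th (x 0))
      linarith
    have := (abs_le.1 r1).1
    have := (abs_le.1 r2).1
    simp only [R4, mul_one]
    linarith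
  have hξ := xiG_SA (P := P) hΦs x
  have hRs := R4_SA (P.b_sm _) (dT_sm (P := P) a1 a3 _) (P.th_sm (x 0)) hO hh hhp
  have hε0 : 0 ≤ ε := by
    have : 0 ≤ |po| := abs_nonneg _
    linarith
  refine masterA (M := 70 * (en * (Co * q)) + 20 * (η' * Ch) + 3 * ε₁) hξ hRs hΨ ?_ hres ?_
  · rw [abs_of_pos (by linarith : 0 < R4 P.b (dT P a1 a3) P.th Om h hp x)]
    have h7 : ε * (1 / 4) ≤ ε * R4 P.b (dT P a1 a3) P.th Om h hp x := mul_le_mul_of_nonneg_left hR hε0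
    have h8 : 0 ≤ η' * Ch := by positivity
    have h9 : 0 ≤ Co * ς := by positivity
    linarith
  · refine (mcoefG (P := P) hηη hη hΦs hΦ rfl hκ).trans ?_
    have : η' ≤ η' * Ch := le_mul_of_one_le_right hη'0 hCh
    linarith

end

end Pool.Agent.J6H20.RL
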