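import Mathlib
import Pool.Agent.J6H20.RL.ZoneA

/-!
# The core and the pole zone
-/

set_option autoImplicit false

open Filter Topology
open scoped ContDiff

namespace Pool.Agent.J6H20.RL

section
variable {η g k m0 α : ℝ} {P : TP η g k m0 α}

/-- the sea part -/
noncomputable def RG (P : TP η g k m0 α) (h hp : ℝ → ℝ) : V → ℝ := R4 (fun _ => 0) (fun _ => 0) P.th (fun _ => 0) h hp

/-- the coefficient in the core -/
noncomputable def cK (P : TP η g k m0 α) (κs : ℝ) (y : V) : ℝ := κs ^ 2 * ccC P y + 1 / (4 * y 1 ^ 2)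

/-- the exponent in the core -/
noncomputable def xi0 (P : TP η g k m0 α) : V → ℝ := xiG P (fun _ => 0)

theorem RG_val (h hp : ℝ → ℝ) (y : V) : RG P h hp y = P.th (y 0) * h (y 1) + (1 - P.th (y 0)) * hp (y 1) := by
  simp only [RG, R4]; ring

theorem zero_SA : ∀ y : V, SA (fun _ : V => (0 : ℝ)) y := fun _ => contDiffAt_const

theorem xi0_pd : pd 0 (xi0 P) = (fun y => -deriv P.lam (y 0)) ∧ pd 1 (xi0 P) = (fun _ => 0) ∧ pd 2 (xi0 P) = (fun _ => 0) := by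
  obtain ⟨f0, f1, f2⟩ := xiG_pd (P := P) (Φ := fun _ => 0) zero_SA
  refine ⟨?_, ?_, ?_⟩
  · rw [xi0, f0]; funext y; rw [pd_const]; ring
  · rw [xi0, f1]; funext y; rw [pd_const]
  · rw [xi0, f2]; funext y; rw [pd_const]

/-- the residual of the sea -/
theorem residG {κs : ℝ} {h hp : ℝ → ℝ} {κ : V → ℝ} {y : V} (hh : ContDiffAt ℝ ∞ h (y 1)) (hhp : ContDiffAt ℝ ∞ hp (y 1)) :
    resid κ (cK P κs) (xi0 P) (RG P h hp) y =
      (deriv (deriv P.th) (y 0) + (2 * -deriv P.lam (y 0)) * deriv P.th (y 0)) * (h (y 1) - hp (y 1))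
      + P.th (y 0) * (deriv (deriv h) (y 1) + (κs ^ 2 * ccC P y + 1 / (4 * y 1 ^ 2)) * h (y 1))
      + (1 - P.th (y 0)) * (deriv (deriv hp) (y 1) + (κs ^ 2 * ccC P y + 1 / (4 * y 1 ^ 2)) * hp (y 1)) := by
  obtain ⟨f0, f1, f2⟩ := xi0_pd (P := P)
  simp only [resid, RG]
  rw [R4_formula contDiffAt_const contDiffAt_const (P.th_sm _) contDiffAt_const hh hhp, f0, f1, f2]
  simp only [cK, deriv_const]
  ring

theorem mcoef0 {κs ε₁ po : ℝ} {κ : V → ℝ} {x : V} (hη : η ≤ 1) (hκs : |1 - κs ^ 2| ≤ ε₁) :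
    |mcoef κ po (xi0 P) x - cK P κs x| ≤ η + 4 * ε₁ + |po - 1 / (4 * x 1 ^ 2)| := by
  obtain ⟨f0, f1, f2⟩ := xi0_pd (P := P)
  have l1 : |deriv P.lam (x 0)| ≤ 2 := (jlam (P := P) hη (x 0)).val
  have hJ : JC 3 η (fun y : V => deriv P.lam (y 0) - 1) x := (P.lam_jet (x 0)).co
  have l2 : |pd 0 (fun y : V => deriv P.lam (y 0) - 1) x| ≤ η := (hJ.pd 0).val
  have g0 : pd 0 (pd 0 (xi0 P)) x = -pd 0 (fun y : V => deriv P.lam (y 0) - 1) x := by
    rw [f0]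
    have e : (fun y : V => -deriv P.lam (y 0)) = fun y => -(deriv P.lam (y 0) - 1) - 1 := by funext y; ring
    have hn : DifferentiableAt ℝ (fun y : V => -(deriv P.lam (y 0) - 1)) x := hJ.sm.diff.neg
    rw [e, pd_sub hn (differentiableAt_const 1), pd_neg, pd_const]
    ring
  simp only [mcoef, cK, ccC]
  rw [g0, f0, f1, f2]
  simp only [pd_const]
  set L := deriv P.lam (x 0)
  set l := pd 0 (fun y : V => deriv P.lam (y 0) - 1) x
  have e : -l + -L * -L + (0 + 0 * 0) + κ x * (0 + 0 * 0) + po - (κs ^ 2 * (L * L) + 1 / (4 * x 1 ^ 2)) =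
      -l + (1 - κs ^ 2) * (L * L) + (po - 1 / (4 * x 1 ^ 2)) := by ring
  rw [e]
  have h4 : |(1 - κs ^ 2) * (L * L)| ≤ ε₁ * (2 * 2) := am' hκs (am' l1 l1)
  have h5 : |-l| ≤ η := by rw [abs_neg]; exact l2
  refine (ad' (ad' h5 h4) le_rfl).trans ?_
  linarith

/-- **the core** -/
theorem coreB (C cnd ε : ℝ) (hC : 1 ≤ C) (hc : 0 < cnd) (hε : 0 < ε) : ∃ ηs : ℝ, 0 < ηs ∧
    ∀ {η g k m0 α : ℝ} (P : TP η g k m0 α) {κs Ch ε₁ po cp : ℝ} {h hp : ℝ → ℝ} {κ Ψ : V → ℝ} {x : V}, 0 ≤ η → η ≤ 1 →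
      1 ≤ Ch → 200 * Ch ≤ C → 2000 * η * Ch ≤ ηs → 2000 * η * Ch ≤ ε * cp → η + 4 * ε₁ + |po - 1 / (4 * x 1 ^ 2)| ≤ ε →
      Jt 3 Ch h (x 1) → Jt 3 Ch hp (x 1) → |1 - k ^ 2| ≤ η → |1 - κs ^ 2| ≤ ε₁ → |κs ^ 2| ≤ 2 → 1 / 2 ≤ x 1 →
      (∀ᶠ Y in 𝓝 (x 1), ContDiffAt ℝ ∞ h Y) → (∀ᶠ Y in 𝓝 (x 1), ContDiffAt ℝ ∞ hp Y) →
      (∀ᶠ Y in 𝓝 (x 1), deriv (deriv h) Y = -(κs ^ 2 + 1 / (4 * Y ^ 2)) * h Y) →
      (∀ᶠ Y in 𝓝 (x 1), deriv (deriv hp) Y = -(k ^ 2 * κs ^ 2 + 1 / (4 * Y ^ 2)) * hp Y) →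
      cnd ≤ (P.th (x 0) * h (x 1) + (1 - P.th (x 0)) * hp (x 1)) ^ 2 + (P.th (x 0) * deriv h (x 1) + (1 - P.th (x 0)) * deriv hp (x 1)) ^ 2 →
      JC 2 C κ x → 0 ≤ κ x → JC 2 C Ψ x → 0 ≤ Ψ x → Ψ x ≤ 1 → (Ψ x = 1 ∨ cp ≤ |P.th (x 0) * h (x 1) + (1 - P.th (x 0)) * hp (x 1)|) →
      SA (FF κ (cK P κs) (xi0 P) Ψ (RG P h hp)) x ∧
      |Fl (κ x) po (FF κ (cK P κs) (xi0 P) Ψ (RG P h hp)) x| ≤ 5 * ε * |FF κ (cK P κs) (xi0 P) Ψ (RG P h hp) x| ∧
      |FF κ (cK P κs) (xi0 P) Ψ (RG P h hp) x| ≤ 2 * (Real.exp (xi0 P x) * |RG P h hp x|) := by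
  obtain ⟨ηs, hηs, hmas⟩ := master C cnd ε hC hc hε
  refine ⟨ηs, hηs, fun {η g k m0 α} P {κs Ch ε₁ po cp h hp κ Ψ x} hη0 hη hCh hC2 hs1 hs2 hs3 jh jhp hk hκs hκs2 hY smh smhp e1 e2 hnd hκ hκ0 hΨ hΨ0 hΨ1 hw => ?_⟩
  obtain ⟨f0, f1, f2⟩ := xi0_pd (P := P)
  -- the residual
  have hev : ∀ᶠ y in 𝓝 x, resid κ (cK P κs) (xi0 P) (RG P h hp) y =
      (deriv (deriv P.th) (y 0) + (2 * -deriv P.lam (y 0)) * deriv P.th (y 0)) * (h (y 1) - hp (y 1))
      + P.th (y 0) * ((κs ^ 2 * (ccC P y - 1)) * h (y 1)) + (1 - P.th (y 0)) * ((κs ^ 2 * (ccC P y - k ^ 2)) * hp (y 1)) := by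
    have ct : ContinuousAt (fun y : V => y 1) x := (coordSA 1 x).continuousAt
    filter_upwards [ct.eventually smh, ct.eventually smhp, ct.eventually e1, ct.eventually e2] with y b1 b2 a2 a3
    rw [residG b1 b2, a2, a3]; ring
  have jhV : JC 2 Ch (fun y : V => h (y 1)) x := (jh.le (by norm_num)).co
  have jhpV : JC 2 Ch (fun y : V => hp (y 1)) x := (jhp.le (by norm_num)).co
  have t2 : JC 2 η (fun y : V => deriv (deriv P.th) (y 0)) x := ((P.th_jet (x 0)).deriv).co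
  have t1 : JC 2 η (fun y : V => deriv P.th (y 0)) x := ((P.th_jet (x 0)).le (by norm_num)).co
  have t0 : JC 2 1 (fun y : V => P.th (y 0)) x := ((jth (P := P) hη (x 0)).le (by norm_num)).co
  have t0' : JC 2 2 (fun y : V => 1 - P.th (y 0)) x := ((JC.const (c := (1 : ℝ))).sub t0).mono (by norm_num)
  have B0 : JC 2 4 (fun y : V => 2 * -deriv P.lam (y 0)) x := ((jc_lam (P := P) x hη).neg.cmul 2).mono (by norm_num)
  obtain ⟨Jc, Jc1⟩ := jc_cc (P := P) x hη0 hη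
  have Jck : JC 2 (13 * η) (fun y => ccC P y - k ^ 2) x := by
    refine ((Jc1.add (JC.const (c := 1 - k ^ 2))).congr (Eventually.of_forall fun y => ?_)).mono ?_
    · ring
    · linarith
  have E1 : JC 2 (24 * η) (fun y => κs ^ 2 * (ccC P y - 1)) x := (Jc1.cmul (κs ^ 2)).mono (by
    have := mul_le_mul_of_nonneg_right hκs2 (by positivity : (0 : ℝ) ≤ 12 * η)
    linarith)
  have E2 : JC 2 (26 * η) (fun y => κs ^ 2 * (ccC P y - k ^ 2)) x := (Jck.cmul (κs ^ 2)).mono (by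
    have := mul_le_mul_of_nonneg_right hκs2 (by positivity : (0 : ℝ) ≤ 13 * η)
    linarith)
  have hres : JC 2 (2000 * η * Ch) (resid κ (cK P κs) (xi0 P) (RG P h hp)) x := by
    have T := ((((t2.add (B0.mul t1)).mul (jhV.sub jhpV))).add (t0.mul (E1.mul jhV))).add (t0'.mul (E2.mul jhpV))
    refine (T.congr (hev.mono fun y hy => hy.symm)).mono ?_
    have : 0 ≤ η * Ch := by positivity
    norm_num
    linarith
  -- third order jets of R
  have R3 : JC 3 (C * 1) (RG P h hp) x := by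
    have u0 : JC 3 1 (fun y : V => P.th (y 0)) x := ((jth (P := P) hη (x 0)).le (by norm_num)).co
    have u1 : JC 3 2 (fun y : V => 1 - P.th (y 0)) x := ((JC.const (c := (1 : ℝ))).sub u0).mono (by norm_num)
    refine (((u0.mul jh.co).add (u1.mul jhp.co)).congr (Eventually.of_forall fun y => ?_)).mono ?_
    · rw [RG_val]
    · norm_num; linarith
  have hξ : SA (xi0 P) x := xiG_SA (P := P) zero_SA x
  have hnd' : cnd * 1 ^ 2 ≤ RG P h hp x * RG P h hp x + Qf κ (RG P h hp) x := by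
    have hp1 : pd 1 (RG P h hp) x = P.th (x 0) * deriv h (x 1) + (1 - P.th (x 0)) * deriv hp (x 1) := by
      rw [RG, (R4_pd contDiffAt_const contDiffAt_const (P.th_sm _) contDiffAt_const jh.sm jhp.sm).2.1]; ring
    simp only [Qf]
    rw [hp1, RG_val]
    have := mul_self_nonneg (pd 0 (RG P h hp) x)
    have := mul_nonneg hκ0 (mul_self_nonneg (pd 2 (RG P h hp) x))
    rw [one_pow, mul_one]
    have e : ∀ t : ℝ, t * t = t ^ 2 := fun t => by ring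
    rw [e (P.th (x 0) * h (x 1) + (1 - P.th (x 0)) * hp (x 1)), e (P.th (x 0) * deriv h (x 1) + (1 - P.th (x 0)) * deriv hp (x 1))]
    linarith
  have l1 : |deriv P.lam (x 0)| ≤ 2 := (jlam (P := P) hη (x 0)).val
  refine hmas κ (cK P κs) (xi0 P) Ψ (RG P h hp) x 1 po one_pos hκ R3 hξ (hres.mono (by linarith)) hΨ hnd' ?_ ?_ ?_ ?_ ?_ ?_
  · rw [f0, abs_mul, abs_neg]; norm_num; linarith
  · rw [f1]; simp; linarith
  · rw [f2]; simp; linarith
  · simp only [cK, ccC]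
    have h5 : |κs ^ 2 * (deriv P.lam (x 0) * deriv P.lam (x 0))| ≤ 2 * (2 * 2) := am' hκs2 (am' l1 l1)
    have h6 : |1 / (4 * x 1 ^ 2)| ≤ 1 := by
      have hx : 0 < x 1 := by linarith
      rw [abs_of_pos (by positivity), div_le_one (by positivity)]
      nlinarith
    exact (ad' h5 h6).trans (by linarith)
  · rcases hw with hw | hw
    · exact win_res' hw hε
    · rw [abs_mul, abs_of_nonneg (by linarith : 0 ≤ 1 - Ψ x), RG_val]
      have h5 : (1 - Ψ x) * |resid κ (cK P κs) (xi0 P) (RG P h hp) x| ≤ |resid κ (cK P κs) (xi0 P) (RG P h hp) x| :=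
        mul_le_of_le_one_left (abs_nonneg _) (by linarith)
      have h6 := hres.val
      have h7 := mul_le_mul_of_nonneg_left hw hε.le
      linarith
  · exact (mcoef0 (P := P) hη hκs).trans hs3

end

end Pool.Agent.J6H20.RL
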