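import Mathlib
import Pool.Agent.J6H20.RL.Jt

/-!
# The coefficients `kap` and `pot`
-/

set_option autoImplicit false

open Filter Topology
open scoped ContDiff

namespace Pool.Agent.J6H20.RL

noncomputable def secsq (φ : ℝ) : ℝ := (Real.cos φ * Real.cos φ)⁻¹

/-- the coefficient of `F_ss` -/
noncomputable def kap (n ν Y : ℝ) : ℝ := n ^ 2 / ν ^ 2 * secsq (ν⁻¹ * Y + 0)

/-- the potential of the geometry -/
noncomputable def pot (ν Y : ℝ) : ℝ := (ν ^ 2 * Real.sin (2 * Y / ν) ^ 2)⁻¹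

theorem cos_ge_half {φ : ℝ} (h : |φ| ≤ 1) : 1 / 2 ≤ Real.cos φ := by
  have h1 := Real.one_sub_sq_div_two_le_cos (x := φ)
  have h2 : φ ^ 2 ≤ 1 := by rw [← sq_abs]; exact pow_le_one₀ (abs_nonneg _) h
  linarith

theorem secsq_smooth {φ : ℝ} (h : |φ| ≤ 1) : ContDiffAt ℝ ∞ secsq φ := by
  have h1 := cos_ge_half h
  have h2 : Real.cos φ * Real.cos φ ≠ 0 := by positivity
  exact (Real.contDiff_cos.contDiffAt.mul Real.contDiff_cos.contDiffAt).inv h2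

theorem secsq_jet : ∃ C : ℝ, 1 ≤ C ∧ ∀ φ, |φ| ≤ 1 → Jt 2 C secsq φ := by
  obtain ⟨C, hC1, hC⟩ := compact_bounds (F := secsq) (a := -1) (b := 1)
    (fun t ht => secsq_smooth (abs_le.2 ⟨ht.1, ht.2⟩)) 2
  exact ⟨C, hC1, fun φ h => ⟨secsq_smooth h, fun n hn => hC n hn φ ⟨(abs_le.1 h).1, (abs_le.1 h).2⟩⟩⟩

theorem kap_jet {W η : ℝ} (hW : 0 ≤ W) (hη : 0 < η) : ∃ ν₀ : ℝ, 1 ≤ ν₀ ∧ ∀ ν K Y0 Y : ℝ, ν₀ ≤ ν → 0 ≤ K → K ≤ 1 →
    0 ≤ Y0 → Y0 / ν ≤ 8 / 10 → |Y - Y0| ≤ W →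
    Jt 2 η (fun t => kap (⌊K * ν * Real.cos (Y0 / ν)⌋₊ : ℝ) ν t - K ^ 2) Y := by
  obtain ⟨C, hC1, hC⟩ := secsq_jet
  refine ⟨max (10 * (W + 1)) (max (8 * (1 + W) / η) (C / η)), ?_, fun ν K Y0 Y hν hK0 hK1 hY0 hY0ν hYW => ?_⟩
  · exact le_max_of_le_left (by linarith)
  have h1 : 10 * (W + 1) ≤ ν := (le_max_left _ _).trans hν
  have h2 : 8 * (1 + W) / η ≤ ν := (le_max_left _ _).trans ((le_max_right _ _).trans hν)
  have h3 : C / η ≤ ν := (le_max_right _ _).trans ((le_max_right _ _).trans hν)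
  rw [div_le_iff₀ hη] at h2 h3
  have hν0 : 0 < ν := by linarith
  set n : ℝ := (⌊K * ν * Real.cos (Y0 / ν)⌋₊ : ℝ) with hn
  have hY0n : 0 ≤ Y0 / ν := by positivity
  have hc0 : 1 / 2 ≤ Real.cos (Y0 / ν) := cos_ge_half (by rw [abs_le]; constructor <;> linarith)
  have hx0 : 0 ≤ K * ν * Real.cos (Y0 / ν) := by positivity
  have hn1 : n ≤ K * ν * Real.cos (Y0 / ν) := Nat.floor_le hx0
  have hn2 : K * ν * Real.cos (Y0 / ν) < n + 1 := Nat.lt_floor_add_one _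
  have hn0 : 0 ≤ n := Nat.cast_nonneg _
  set r : ℝ := n / ν with hr
  have hr0 : 0 ≤ r := by positivity
  have hr1 : r ≤ K * Real.cos (Y0 / ν) := by rw [hr, div_le_iff₀ hν0]; linarith
  have hr2 : K * Real.cos (Y0 / ν) - 1 / ν ≤ r := by
    rw [hr, le_div_iff₀ hν0, sub_mul, one_div, inv_mul_cancel₀ hν0.ne']; linarith
  have hcle := Real.cos_le_one (Y0 / ν)
  have hr3 : r ≤ 1 := by nlinarith
  have hφ : |Y / ν - Y0 / ν| ≤ W / ν := by
    rw [← sub_div, abs_div, abs_of_pos hν0]; exact div_le_div_of_nonneg_right hYW hν0.le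
  have hWν : W / ν ≤ 1 / 10 := by rw [div_le_iff₀ hν0]; linarith
  have hφ1 : |ν⁻¹ * Y + 0| ≤ 1 := by
    have : ν⁻¹ * Y + 0 = Y / ν := by rw [add_zero]; field_simp
    rw [this, abs_le]
    have := abs_le.1 hφ
    constructor <;> linarith
  have hY' : ν⁻¹ * Y + 0 = Y / ν := by rw [add_zero]; field_simp
  have hc : 1 / 2 ≤ Real.cos (Y / ν) := by rw [← hY']; exact cos_ge_half hφ1
  have hcle' := Real.cos_le_one (Y / ν)
  have hcc : |Real.cos (Y / ν) - Real.cos (Y0 / ν)| ≤ W / ν := by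
    have := Real.abs_cos_sub_cos_le (Y / ν) (Y0 / ν)
    exact this.trans hφ
  have hnν : n ^ 2 / ν ^ 2 = r ^ 2 := by rw [hr, div_pow]
  have hj := hC _ hφ1
  have hinv : |ν⁻¹| ≤ 1 := by
    rw [abs_of_pos (inv_pos.2 hν0)]; exact inv_le_one_of_one_le₀ (by linarith)
  -- smoothness
  have hsm : ContDiffAt ℝ ∞ (fun t => kap n ν t - K ^ 2) Y := by
    have := (Jt.sc (k := 2) (g := ν⁻¹) (c := 0) (t := Y) hinv hj).sm
    exact (contDiffAt_const.mul this).sub contDiffAt_const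
  refine Jt.mk' ?_ hsm ?_
  · -- the value
    have e1 : kap n ν Y - K ^ 2 = (r - K * Real.cos (Y / ν)) * (r + K * Real.cos (Y / ν)) * (Real.cos (Y / ν) * Real.cos (Y / ν))⁻¹ := by
      rw [kap, secsq, hY', hnν]
      have : Real.cos (Y / ν) ≠ 0 := by positivity
      field_simp
      ring
    have e2 : |r - K * Real.cos (Y / ν)| ≤ (1 + W) / ν := by
      have h5 : r - K * Real.cos (Y / ν) = (r - K * Real.cos (Y0 / ν)) - K * (Real.cos (Y / ν) - Real.cos (Y0 / ν)) := by ring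
      rw [h5]
      refine (abs_sub _ _).trans ?_
      have h6 : |r - K * Real.cos (Y0 / ν)| ≤ 1 / ν := by rw [abs_le]; constructor <;> linarith [one_div_pos.2 hν0]
      have h7 : |K * (Real.cos (Y / ν) - Real.cos (Y0 / ν))| ≤ W / ν := by
        rw [abs_mul, abs_of_nonneg hK0]
        exact (mul_le_of_le_one_left (abs_nonneg _) hK1).trans hcc
      have h8 : (1 + W) / ν = 1 / ν + W / ν := by ring
      linarith
    have e3 : |r + K * Real.cos (Y / ν)| ≤ 2 := by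
      have : 0 ≤ K * Real.cos (Y / ν) := by positivity
      rw [abs_of_nonneg (by linarith)]; nlinarith
    have e4 : |(Real.cos (Y / ν) * Real.cos (Y / ν))⁻¹| ≤ 4 := by
      rw [abs_of_pos (by positivity), inv_le_comm₀ (by positivity) (by norm_num)]
      nlinarith
    rw [e1, abs_mul, abs_mul]
    have h9 : |r - K * Real.cos (Y / ν)| * |r + K * Real.cos (Y / ν)| ≤ (1 + W) / ν * 2 :=
      mul_le_mul e2 e3 (abs_nonneg _) (by positivity)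
    calc _ ≤ ((1 + W) / ν * 2) * 4 := mul_le_mul h9 e4 (abs_nonneg _) (by positivity)
      _ = (8 * (1 + W)) / ν := by ring
      _ ≤ η := by rw [div_le_iff₀ hν0]; linarith
  · have h5 : Jt 1 (|ν⁻¹| * C) (deriv (fun s => secsq (ν⁻¹ * s + 0))) Y := Jt.scd (k := 1) hinv hj
    have h6 := h5.cmul (n ^ 2 / ν ^ 2)
    have hev : (fun s => n ^ 2 / ν ^ 2 * deriv (fun s => secsq (ν⁻¹ * s + 0)) s) =ᶠ[𝓝 Y] deriv (fun t => kap n ν t - K ^ 2) := by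
      have h7 : ∀ᶠ t in 𝓝 Y, DifferentiableAt ℝ (fun s => secsq (ν⁻¹ * s + 0)) t :=
        ev_diffR (Jt.sc (k := 2) (g := ν⁻¹) (c := 0) (t := Y) hinv hj).sm
      filter_upwards [h7] with t ht
      have := (ht.hasDerivAt.const_mul (n ^ 2 / ν ^ 2)).sub_const (K ^ 2)
      exact this.deriv.symm
    refine (h6.congr hev).mono ?_
    rw [hnν, abs_of_pos (inv_pos.2 hν0), abs_of_nonneg (sq_nonneg r)]
    have h8 : r ^ 2 ≤ 1 := pow_le_one₀ hr0 hr3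
    have h9 : ν⁻¹ * C ≤ η := by rw [inv_mul_le_iff₀ hν0]; linarith
    have h10 : 0 ≤ ν⁻¹ * C := by positivity
    calc r ^ 2 * (ν⁻¹ * C) ≤ 1 * (ν⁻¹ * C) := mul_le_mul_of_nonneg_right h8 h10
      _ ≤ η := by linarith

theorem sin_ge_half {x : ℝ} (h0 : 0 < x) (h1 : x ≤ 17 / 10) : x / 2 ≤ Real.sin x := by
  have h2 := Real.sin_gt_sub_cube h0
  have h3 : x ^ 3 ≤ 3 * x := by
    have : x ^ 2 ≤ 3 := by nlinarith
    calc x ^ 3 = x ^ 2 * x := by ring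
      _ ≤ 3 * x := mul_le_mul_of_nonneg_right this h0.le
  linarith

theorem pot_le {ν Y : ℝ} (hν : 0 < ν) (hY : 0 < Y) (h : 2 * Y / ν ≤ 17 / 10) : 0 < pot ν Y ∧ pot ν Y ≤ 1 / Y ^ 2 := by
  have h0 : 0 < 2 * Y / ν := by positivity
  have h1 := sin_ge_half h0 h
  have h2 : Y / ν ≤ Real.sin (2 * Y / ν) := by
    have : 2 * Y / ν / 2 = Y / ν := by ring
    linarith
  have h3 : 0 < Y / ν := by positivity
  have h4 : (Y / ν) ^ 2 ≤ Real.sin (2 * Y / ν) ^ 2 := pow_le_pow_left₀ h3.le h2 2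
  have h5 : Y ^ 2 ≤ ν ^ 2 * Real.sin (2 * Y / ν) ^ 2 := by
    calc Y ^ 2 = ν ^ 2 * (Y / ν) ^ 2 := by field_simp
      _ ≤ _ := mul_le_mul_of_nonneg_left h4 (sq_nonneg ν)
  have h6 : 0 < Y ^ 2 := by positivity
  constructor
  · rw [pot]; exact inv_pos.2 (by linarith)
  · rw [pot, one_div]; exact inv_anti₀ h6 h5

theorem pot_core {ν Y : ℝ} (hν : 0 < ν) (hY : 0 < Y) (h : 2 * Y / ν ≤ 1) : |pot ν Y - 1 / (4 * Y ^ 2)| ≤ 1 / ν ^ 2 := by
  set x := 2 * Y / ν with hx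
  have h0 : 0 < x := by positivity
  have h1 := Real.sin_gt_sub_cube h0
  have hs1 := Real.sin_le h0.le
  have hs0 : 0 < Real.sin x := by have := sin_ge_half h0 (by linarith); linarith
  have h2 : x * (1 - x ^ 2 / 6) ≤ Real.sin x := by
    have : x * (1 - x ^ 2 / 6) = x - x ^ 3 / 6 := by ring
    linarith
  have hx2 : x ^ 2 ≤ 1 := pow_le_one₀ h0.le h
  have h3 : x ^ 2 * (1 - x ^ 2 / 3) ≤ Real.sin x ^ 2 := by
    have h4 : (x * (1 - x ^ 2 / 6)) ^ 2 ≤ Real.sin x ^ 2 :=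
      pow_le_pow_left₀ (mul_nonneg h0.le (by linarith)) h2 2
    have h5 : (x * (1 - x ^ 2 / 6)) ^ 2 = x ^ 2 * (1 - x ^ 2 / 3) + x ^ 2 * (x ^ 2 / 6) ^ 2 := by ring
    have h6 : 0 ≤ x ^ 2 * (x ^ 2 / 6) ^ 2 := by positivity
    linarith
  have h4 : Real.sin x ^ 2 ≤ x ^ 2 := pow_le_pow_left₀ hs0.le hs1 2
  have e1 : pot ν Y = (ν ^ 2)⁻¹ * (Real.sin x ^ 2)⁻¹ := by rw [pot, mul_inv]
  have e2 : 1 / (4 * Y ^ 2) = (ν ^ 2)⁻¹ * (x ^ 2)⁻¹ := by rw [hx]; field_simp; ring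
  have hx20 : 0 < x ^ 2 := by positivity
  have h5 : (x ^ 2)⁻¹ ≤ (Real.sin x ^ 2)⁻¹ := inv_anti₀ (by positivity) h4
  have h6 : (Real.sin x ^ 2)⁻¹ ≤ (x ^ 2)⁻¹ + 1 := by
    have h7 : 0 < x ^ 2 * (1 - x ^ 2 / 3) := mul_pos hx20 (by linarith)
    refine (inv_anti₀ h7 h3).trans ?_
    rw [mul_inv]
    have h8 : (1 - x ^ 2 / 3)⁻¹ ≤ 1 + x ^ 2 := by
      rw [inv_le_iff_one_le_mul₀ (by linarith)]
      nlinarith
    calc (x ^ 2)⁻¹ * (1 - x ^ 2 / 3)⁻¹ ≤ (x ^ 2)⁻¹ * (1 + x ^ 2) := mul_le_mul_of_nonneg_left h8 (by positivity)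
      _ = (x ^ 2)⁻¹ + 1 := by rw [mul_add, mul_one, inv_mul_cancel₀ hx20.ne']
  rw [e1, e2, ← mul_sub, abs_mul, abs_of_pos (inv_pos.2 (by positivity : 0 < ν ^ 2)), abs_of_nonneg (by linarith), one_div]
  exact mul_le_of_le_one_right (by positivity) (by linarith)

end Pool.Agent.J6H20.RL
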