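import Mathlib
import Pool.Agent.J6H20.RL.Bessel
import Pool.Agent.J6H20.RL.Chi

/-!
# The profile of the sea

`h` is `A W(kappa Y)` up to `Y = 2 pi ia - 1/4` and `cos Y` from `2 pi ia + 1/4` on.
-/

set_option autoImplicit false

open Filter Topology
open scoped ContDiff

namespace Pool.Agent.J6H20.RL

/-- the core function -/
noncomputable def gc (A κ : ℝ) (Y : ℝ) : ℝ := A * Wf (κ * Y)
noncomputable def gc1 (A κ : ℝ) (Y : ℝ) : ℝ := A * (Wf1 (κ * Y) * κ)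

theorem gc_deriv {A κ Y : ℝ} (hκ : 0 < κ) (hY : 0 < Y) : HasDerivAt (gc A κ) (gc1 A κ Y) Y :=
  hd_cmul A (hd_comp (Wf_deriv (by positivity)) (hd_lin κ Y))

theorem gc1_deriv {A κ Y : ℝ} (hκ : 0 < κ) (hY : 0 < Y) :
    HasDerivAt (gc1 A κ) (-(κ ^ 2 + 1 / (4 * Y ^ 2)) * gc A κ Y) Y := by
  have h1 := hd_cmul A (hd_mul (hd_comp (Wf1_deriv (x := κ * Y) (by positivity)) (hd_lin κ Y)) (hasDerivAt_const Y κ))
  refine h1.congr_deriv ?_
  rw [gc]
  field_simp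
  ring

/-- the sea profile -/
noncomputable def hs (A κ YK : ℝ) (Y : ℝ) : ℝ :=
  (1 - chi (2 * (Y - YK) + 1 / 2)) * gc A κ Y + chi (2 * (Y - YK) + 1 / 2) * Real.cos Y

theorem Wf_smooth {x : ℝ} (hx : 0 < x) : ContDiffAt ℝ ∞ Wf x := by
  have h1 : ContDiffAt ℝ ∞ Real.sqrt x := Real.contDiffAt_sqrt hx.ne'
  have h2 : ContDiffAt ℝ ∞ (fun x : ℝ => bJ 0 (x ^ 2)) x :=
    (bJ_smooth 0).contDiffAt.comp x (contDiff_id.pow 2).contDiffAt
  exact h1.mul h2

theorem gc_smooth {A κ Y : ℝ} (hκ : 0 < κ) (hY : 0 < Y) : ContDiffAt ℝ ∞ (gc A κ) Y := by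
  have h1 : ContDiffAt ℝ ∞ (fun y : ℝ => Wf (κ * y)) Y :=
    (Wf_smooth (by positivity)).comp Y (contDiff_const.mul contDiff_id).contDiffAt
  exact contDiffAt_const.mul h1

theorem hs_smooth {A κ YK Y : ℝ} (hκ : 0 < κ) (hY : 0 < Y) : ContDiffAt ℝ ∞ (hs A κ YK) Y := by
  have h1 : ContDiffAt ℝ ∞ (fun y : ℝ => chi (2 * (y - YK) + 1 / 2)) Y :=
    chi_smooth.contDiffAt.comp Y (((contDiff_const.mul (contDiff_id.sub contDiff_const)).add contDiff_const).contDiffAt)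
  exact ((contDiffAt_const.sub h1).mul (gc_smooth hκ hY)).add (h1.mul Real.contDiff_cos.contDiffAt)

theorem hs_left {A κ YK Y : ℝ} (h : Y ≤ YK - 1 / 4) : hs A κ YK Y = gc A κ Y := by
  rw [hs, chi_zero (by linarith)]; ring

theorem hs_right {A κ YK Y : ℝ} (h : YK + 1 / 4 ≤ Y) : hs A κ YK Y = Real.cos Y := by
  rw [hs, chi_one (by linarith)]; ring

/-- data of a sea profile -/
structure Sea (ε₁ : ℝ) where
  ia : ℕ
  κ : ℝ
  A : ℝ
  ia_pos : 1 ≤ ia
  κ1 : 1 ≤ κ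
  κ2 : κ ^ 2 - 1 ≤ ε₁
  κ3 : κ ≤ 101 / 100
  A0 : 0 < A
  YK_large : ∀ Y : ℝ, 2 * Real.pi * ia - 1 ≤ Y → 1 / (4 * Y ^ 2) ≤ ε₁
  window : ∀ Y : ℝ, |Y - 2 * Real.pi * ia| ≤ 1 / 2 → 1 / 2 ≤ hs A κ (2 * Real.pi * ia) Y ∧
    |deriv (deriv (hs A κ (2 * Real.pi * ia))) Y + hs A κ (2 * Real.pi * ia) Y| ≤ ε₁

/-- mean value inequality from a base point -/
theorem mv_abs {f f' : ℝ → ℝ} {a b y0 y K : ℝ} (hy0 : y0 ∈ Set.Icc a b) (hy : y ∈ Set.Icc a b)
    (hf : ∀ t ∈ Set.Icc a b, HasDerivAt f (f' t) t) (hK : ∀ t ∈ Set.Icc a b, |f' t| ≤ K) :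
    |f y - f y0| ≤ K * |y - y0| := by
  have := (convex_Icc a b).norm_image_sub_le_of_norm_hasDerivWithin_le (f := f) (f' := f') (C := K)
    (fun t ht => (hf t ht).hasDerivWithinAt) (fun t ht => by rw [Real.norm_eq_abs]; exact hK t ht) hy0 hy
  simpa [Real.norm_eq_abs] using this

theorem exists_sea (ε₁ : ℝ) (hε : 0 < ε₁) : Nonempty (Sea ε₁) := by
  obtain ⟨C, hC1, hC⟩ := chi_bounds 2
  set δ : ℝ := min (1 / 200) (ε₁ / (20 * C)) with hδ
  have hC0 : 0 < C := by linarith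
  have hδ0 : 0 < δ := by rw [hδ]; positivity
  have hδ1 : δ ≤ 1 / 200 := min_le_left _ _
  have hδ2 : δ * (20 * C) ≤ ε₁ := by
    have : δ ≤ ε₁ / (20 * C) := min_le_right _ _
    rwa [le_div_iff₀ (by positivity)] at this
  have hδ3 : δ ≤ ε₁ := by nlinarith
  obtain ⟨ia, hia⟩ := exists_nat_ge (100 / δ)
  have hia1 : 100 ≤ δ * ia := by
    rw [div_le_iff₀ hδ0] at hia; linarith
  have hia0 : (20000 : ℝ) ≤ ia := by nlinarith
  have hpi := Real.pi_gt_three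
  have hpi4 := Real.pi_le_four
  set YK : ℝ := 2 * Real.pi * ia with hYK
  have hYK1 : 6 * (ia : ℝ) ≤ YK := by rw [hYK]; nlinarith
  have hYKpos : 0 < YK := by linarith
  obtain ⟨xa, hxa, hw1, hw0⟩ := Wf_max (B := YK) (by linarith)
  set κ : ℝ := xa / YK with hκdef
  have hκY : κ * YK = xa := by rw [hκdef]; field_simp
  have hκ1 : 1 ≤ κ := by rw [hκdef, le_div_iff₀ hYKpos]; linarith [hxa.1]
  have hκ2 : κ ≤ 1 + 2 / ia := by
    rw [hκdef, div_le_iff₀ hYKpos, hYK]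
    have : (1 + 2 / (ia : ℝ)) * (2 * Real.pi * ia) = 2 * Real.pi * ia + 4 * Real.pi := by
      field_simp; ring
    rw [this]; linarith [hxa.2]
  have h2ia : 2 / (ia : ℝ) ≤ δ / 50 := by
    rw [div_le_div_iff₀ (by linarith) (by norm_num)]; nlinarith
  have hκ3 : κ ≤ 1 + δ / 50 := by linarith
  have hκ4 : κ ^ 2 - 1 ≤ δ / 2 := by
    have e1 : κ ^ 2 - 1 = (κ - 1) * (κ + 1) := by ring
    rw [e1]
    calc (κ - 1) * (κ + 1) ≤ (δ / 50) * 3 := mul_le_mul (by linarith) (by linarith) (by linarith) (by linarith)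
      _ ≤ δ / 2 := by linarith
  have hκ0 : 0 < κ := by linarith
  have hbig : ∀ Y : ℝ, YK - 1 ≤ Y → 1 / (4 * Y ^ 2) ≤ δ / 2 := by
    intro Y hY
    have h1 : (ia : ℝ) ≤ Y := by linarith
    have h2 : 0 < Y := by linarith
    rw [div_le_div_iff₀ (by positivity) (by norm_num)]
    have h3 : 100 ≤ δ * Y := hia1.trans (mul_le_mul_of_nonneg_left h1 hδ0.le)
    have h4 : 100 * 1 ≤ (δ * Y) * Y := mul_le_mul h3 (by linarith) (by norm_num) (by linarith)
    have h5 : δ * (4 * Y ^ 2) = 4 * ((δ * Y) * Y) := by ring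
    rw [h5]; linarith
  set A : ℝ := (Wf xa)⁻¹ with hA
  have hA0 : 0 < A := inv_pos.2 hw0
  have hgK : gc A κ YK = 1 := by rw [gc, hκY, hA]; exact inv_mul_cancel₀ hw0.ne'
  have hgK1 : gc1 A κ YK = 0 := by rw [gc1, hκY, hw1]; ring
  set a := YK - 1 / 2 with ha
  set b := YK + 1 / 2 with hb
  have hab : ∀ t ∈ Set.Icc a b, 0 < t := fun t ht => by linarith [ht.1]
  have hYKm : YK ∈ Set.Icc a b := ⟨by linarith, by linarith⟩
  have hgcont : ContinuousOn (gc A κ) (Set.Icc a b) := fun t ht =>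
    (gc_deriv hκ0 (hab t ht)).continuousAt.continuousWithinAt
  -- sup of |g|
  obtain ⟨tG, htG, hG⟩ := isCompact_Icc.exists_isMaxOn ⟨YK, hYKm⟩ hgcont.abs
  set G := |gc A κ tG| with hGdef
  have hG' : ∀ t ∈ Set.Icc a b, |gc A κ t| ≤ G := fun t ht => hG ht
  have hG0 : 0 ≤ G := abs_nonneg _
  have hdelta : ∀ t ∈ Set.Icc a b, 0 ≤ κ ^ 2 - 1 + 1 / (4 * t ^ 2) ∧ κ ^ 2 - 1 + 1 / (4 * t ^ 2) ≤ δ := by
    intro t ht
    have h1 := hbig t (by linarith [ht.1])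
    have h2 : 0 ≤ 1 / (4 * t ^ 2) := by positivity
    constructor
    · nlinarith
    · linarith
  have hg2 : ∀ t ∈ Set.Icc a b, |-(κ ^ 2 + 1 / (4 * t ^ 2)) * gc A κ t| ≤ (1 + δ) * G := by
    intro t ht
    obtain ⟨h1, h2⟩ := hdelta t ht
    rw [abs_mul, abs_neg, abs_of_pos (by linarith)]
    exact mul_le_mul (by linarith) (hG' t ht) (abs_nonneg _) (by linarith)
  have hdist : ∀ t ∈ Set.Icc a b, |t - YK| ≤ 1 / 2 := fun t ht => by
    rw [abs_le]; constructor <;> linarith [ht.1, ht.2]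
  have hg1 : ∀ t ∈ Set.Icc a b, |gc1 A κ t| ≤ (1 + δ) * G / 2 := by
    intro t ht
    have := mv_abs hYKm ht (fun s hs => gc1_deriv hκ0 (hab s hs)) hg2
    rw [hgK1, sub_zero] at this
    have h3 := hdist t ht
    nlinarith [mul_nonneg (show 0 ≤ 1 + δ by linarith) hG0]
  have hg0 : ∀ t ∈ Set.Icc a b, |gc A κ t - 1| ≤ (1 + δ) * G / 4 := by
    intro t ht
    have := mv_abs hYKm ht (fun s hs => gc_deriv hκ0 (hab s hs)) hg1
    rw [hgK] at this
    have h3 := hdist t ht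
    nlinarith [mul_nonneg (show 0 ≤ 1 + δ by linarith) hG0]
  have hG1 : G ≤ 14 / 10 := by
    have h1 := hg0 tG htG
    have h2 : G ≤ |gc A κ tG - 1| + 1 := by
      rw [hGdef]
      calc |gc A κ tG| = |(gc A κ tG - 1) + 1| := by ring_nf
        _ ≤ _ := by
          refine (abs_add_le _ _).trans ?_
          simp
    nlinarith
  have hg_low : ∀ t ∈ Set.Icc a b, 6 / 10 ≤ gc A κ t := by
    intro t ht
    have h1 := hg0 t ht
    have h2 := (abs_le.1 h1).1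
    nlinarith
  have hcosK : Real.cos YK = 1 := by
    rw [hYK]
    have : 2 * Real.pi * (ia : ℝ) = (ia : ℝ) * (2 * Real.pi) := by ring
    rw [this, Real.cos_nat_mul_two_pi]
  have hsinK : Real.sin YK = 0 := by
    rw [hYK]
    have : 2 * Real.pi * (ia : ℝ) = ((2 * ia : ℕ) : ℝ) * Real.pi := by push_cast; ring
    rw [this, Real.sin_nat_mul_pi]
  have hcos_low : ∀ t ∈ Set.Icc a b, 6 / 10 ≤ Real.cos t := by
    intro t ht
    have h1 : Real.cos t = Real.cos (t - YK) := by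
      rw [Real.cos_sub, hcosK, hsinK]; ring
    rw [h1]
    have h2 := Real.one_sub_sq_div_two_le_cos (x := t - YK)
    have h3 := hdist t ht
    have h4 : (t - YK) ^ 2 ≤ (1 / 2) ^ 2 := sq_le_sq' (by linarith [(abs_le.1 h3).1]) (abs_le.1 h3).2
    linarith
  -- the difference D = g - cos
  set D : ℝ → ℝ := fun t => gc A κ t - Real.cos t with hD
  set D1 : ℝ → ℝ := fun t => gc1 A κ t + Real.sin t with hD1
  have hDd : ∀ t ∈ Set.Icc a b, HasDerivAt D (D1 t) t := fun t ht => by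
    refine (hd_sub (gc_deriv hκ0 (hab t ht)) (Real.hasDerivAt_cos t)).congr_deriv ?_
    simp [hD1]
  have hD1d : ∀ t ∈ Set.Icc a b, HasDerivAt D1 (-(κ ^ 2 + 1 / (4 * t ^ 2)) * gc A κ t + Real.cos t) t := fun t ht =>
    hd_add (gc1_deriv hκ0 (hab t ht)) (Real.hasDerivAt_sin t)
  have hDcont : ContinuousOn D (Set.Icc a b) := fun t ht => (hDd t ht).continuousAt.continuousWithinAt
  obtain ⟨tS, htS, hS⟩ := isCompact_Icc.exists_isMaxOn ⟨YK, hYKm⟩ hDcont.abs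
  set S := |D tS| with hSdef
  have hS' : ∀ t ∈ Set.Icc a b, |D t| ≤ S := fun t ht => hS ht
  have hS0 : 0 ≤ S := abs_nonneg _
  have hD2 : ∀ t ∈ Set.Icc a b, |-(κ ^ 2 + 1 / (4 * t ^ 2)) * gc A κ t + Real.cos t| ≤ S + δ * (14 / 10) := by
    intro t ht
    obtain ⟨h1, h2⟩ := hdelta t ht
    have e1 : -(κ ^ 2 + 1 / (4 * t ^ 2)) * gc A κ t + Real.cos t =
        -(D t) - (κ ^ 2 - 1 + 1 / (4 * t ^ 2)) * gc A κ t := by simp only [hD]; ring
    rw [e1]
    refine (abs_sub _ _).trans ?_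
    rw [abs_neg, abs_mul, abs_of_nonneg h1]
    have := mul_le_mul h2 ((hG' t ht).trans hG1) (abs_nonneg _) hδ0.le
    linarith [hS' t ht]
  have hDK : D YK = 0 := by simp only [hD]; rw [hgK, hcosK]; ring
  have hD1K : D1 YK = 0 := by simp only [hD1]; rw [hgK1, hsinK]; ring
  have hKn : 0 ≤ S + δ * (14 / 10) := by positivity
  have hD1b : ∀ t ∈ Set.Icc a b, |D1 t| ≤ (S + δ * (14 / 10)) / 2 := by
    intro t ht
    have := mv_abs hYKm ht hD1d hD2
    rw [hD1K, sub_zero] at this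
    nlinarith [hdist t ht]
  have hDb : ∀ t ∈ Set.Icc a b, |D t| ≤ (S + δ * (14 / 10)) / 4 := by
    intro t ht
    have := mv_abs hYKm ht hDd hD1b
    rw [hDK, sub_zero] at this
    nlinarith [hdist t ht]
  have hSb : S ≤ δ := by have := hDb tS htS; rw [← hSdef] at this; linarith
  have hia1' : 1 ≤ ia := by
    have : (1 : ℝ) ≤ ia := by linarith
    exact_mod_cast this
  refine ⟨{ ia := ia, κ := κ, A := A, ia_pos := hia1', κ1 := hκ1, κ2 := by linarith, κ3 := by linarith, A0 := hA0,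
            YK_large := fun Y hY => (hbig Y hY).trans (by linarith), window := fun Y hY => ?_ }⟩
  rw [← hYK]
  have hYm : Y ∈ Set.Icc a b := by
    rw [← hYK, abs_le] at hY
    exact ⟨by linarith [hY.1], by linarith [hY.2]⟩
  constructor
  · rw [hs]
    have h1 := hg_low Y hYm
    have h2 := hcos_low Y hYm
    have h3 := chi_nonneg (2 * (Y - YK) + 1 / 2)
    have h4 := chi_le_one (2 * (Y - YK) + 1 / 2)
    nlinarith
  · -- derivatives of hs near Y
    have hch : ∀ t, HasDerivAt (fun y => chi (2 * (y - YK) + 1 / 2)) (deriv chi (2 * (t - YK) + 1 / 2) * 2) t := by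
      intro t
      have h1 : HasDerivAt (fun y : ℝ => 2 * (y - YK) + 1 / 2) 2 t := by
        have := (hd_cmul 2 (hd_subc YK t)).add_const (1 / 2)
        simpa using this
      exact hd_comp (chi_hasDeriv _) h1
    have hch2 : ∀ t, HasDerivAt (fun y => deriv chi (2 * (y - YK) + 1 / 2)) (deriv (deriv chi) (2 * (t - YK) + 1 / 2) * 2) t := by
      intro t
      have h1 : HasDerivAt (fun y : ℝ => 2 * (y - YK) + 1 / 2) 2 t := by
        have := (hd_cmul 2 (hd_subc YK t)).add_const (1 / 2)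
        simpa using this
      exact hd_comp (chi_hasDeriv2 _) h1
    have hd1 : ∀ t, 0 < t → HasDerivAt (hs A κ YK) (gc1 A κ t - (deriv chi (2 * (t - YK) + 1 / 2) * 2 * D t
        + chi (2 * (t - YK) + 1 / 2) * D1 t)) t := by
      intro t ht
      have hDt : HasDerivAt D (D1 t) t := by
        refine (hd_sub (gc_deriv hκ0 ht) (Real.hasDerivAt_cos t)).congr_deriv ?_
        simp [hD1]
      have h1 := hd_sub (gc_deriv (A := A) hκ0 ht) (hd_mul (hch t) hDt)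
      refine h1.congr_of_eventuallyEq ?_
      filter_upwards with y
      simp only [hs, hD]; ring
    have hd1' : deriv (hs A κ YK) =ᶠ[𝓝 Y] fun t => gc1 A κ t - (deriv chi (2 * (t - YK) + 1 / 2) * 2 * D t
        + chi (2 * (t - YK) + 1 / 2) * D1 t) := by
      filter_upwards [Ioi_mem_nhds (hab Y hYm)] with t ht
      exact (hd1 t ht).deriv
    have hd2 := hd_sub (gc1_deriv (A := A) hκ0 (hab Y hYm)) (hd_add (hd_mul (hd_mul (hch2 Y) (hasDerivAt_const Y 2)) (hDd Y hYm))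
      (hd_mul (hch Y) (hD1d Y hYm)))
    have hd2' := (hd2.congr_of_eventuallyEq hd1').deriv
    rw [hd2']
    set c0 := chi (2 * (Y - YK) + 1 / 2) with hc0
    set c1 := deriv chi (2 * (Y - YK) + 1 / 2) with hc1
    set c2 := deriv (deriv chi) (2 * (Y - YK) + 1 / 2) with hc2
    have b1 : |c1| ≤ C := by
      have := hC 1 (by norm_num) (2 * (Y - YK) + 1 / 2)
      rwa [iteratedDeriv_one] at this
    have b2 : |c2| ≤ C := by
      have := hC 2 (by norm_num) (2 * (Y - YK) + 1 / 2)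
      rwa [iteratedDeriv_succ, iteratedDeriv_one] at this
    have b0 : 0 ≤ c0 ∧ c0 ≤ 1 := ⟨chi_nonneg _, chi_le_one _⟩
    obtain ⟨d1, d2⟩ := hdelta Y hYm
    have gY := (hG' Y hYm).trans hG1
    have DY := hDb Y hYm
    have D1Y := hD1b Y hYm
    have key : -(κ ^ 2 + 1 / (4 * Y ^ 2)) * gc A κ Y - ((c2 * 2 * 2 + c1 * 0) * D Y + c1 * 2 * D1 Y +
        (c1 * 2 * D1 Y + c0 * (-(κ ^ 2 + 1 / (4 * Y ^ 2)) * gc A κ Y + Real.cos Y))) + hs A κ YK Y =
        -((κ ^ 2 - 1 + 1 / (4 * Y ^ 2)) * ((1 - c0) * gc A κ Y)) - (4 * (c2 * D Y) + 4 * (c1 * D1 Y)) := by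
      simp only [hs, hD]; ring
    rw [key]
    have t1 : |(κ ^ 2 - 1 + 1 / (4 * Y ^ 2)) * ((1 - c0) * gc A κ Y)| ≤ δ * (14 / 10) := by
      rw [abs_mul, abs_of_nonneg d1, abs_mul, abs_of_nonneg (by linarith : 0 ≤ 1 - c0)]
      refine mul_le_mul d2 ?_ (mul_nonneg (by linarith) (abs_nonneg _)) hδ0.le
      calc (1 - c0) * |gc A κ Y| ≤ 1 * |gc A κ Y| := mul_le_mul_of_nonneg_right (by linarith) (abs_nonneg _)
        _ ≤ _ := by linarith
    have t2 : |c2 * D Y| ≤ C * (δ * (6 / 10)) := by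
      rw [abs_mul]; exact mul_le_mul b2 (DY.trans (by linarith)) (abs_nonneg _) hC0.le
    have t3 : |c1 * D1 Y| ≤ C * (δ * (12 / 10)) := by
      rw [abs_mul]; exact mul_le_mul b1 (D1Y.trans (by linarith)) (abs_nonneg _) hC0.le
    have u1 := abs_sub (-((κ ^ 2 - 1 + 1 / (4 * Y ^ 2)) * ((1 - c0) * gc A κ Y))) (4 * (c2 * D Y) + 4 * (c1 * D1 Y))
    have u2 := abs_add_le (4 * (c2 * D Y)) (4 * (c1 * D1 Y))
    rw [abs_neg] at u1
    rw [abs_mul 4 (c2 * D Y), abs_mul 4 (c1 * D1 Y)] at u2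
    have e4 : |(4 : ℝ)| = 4 := by norm_num
    rw [e4] at u2
    have : δ ≤ C * δ := le_mul_of_one_le_left hδ0.le hC1
    linarith

end Pool.Agent.J6H20.RL
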