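import Mathlib
import Pool.Agent.J6H20.RL.Sea

/-!
# Properties of the sea profile
-/

set_option autoImplicit false

open Filter Topology
open scoped ContDiff

namespace Pool.Agent.J6H20.RL

namespace Sea

variable {ε₁ : ℝ} (S : Sea ε₁)

noncomputable def YK : ℝ := 2 * Real.pi * S.ia

noncomputable def h (Y : ℝ) : ℝ := hs S.A S.κ S.YK Y

theorem κ0 : 0 < S.κ := by linarith [S.κ1]

theorem YK_ge : 6 ≤ S.YK := by
  have h1 : (1 : ℝ) ≤ S.ia := by exact_mod_cast S.ia_pos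
  have := Real.pi_gt_three
  rw [YK]; nlinarith

theorem smooth {Y : ℝ} (hY : 0 < Y) : ContDiffAt ℝ ∞ S.h Y := hs_smooth S.κ0 hY

theorem h_left {Y : ℝ} (hY : Y ≤ S.YK - 1 / 4) : S.h Y = gc S.A S.κ Y := hs_left hY

theorem h_right {Y : ℝ} (hY : S.YK + 1 / 4 ≤ Y) : S.h Y = Real.cos Y := hs_right hY

theorem h_left_ev {Y : ℝ} (hY : Y < S.YK - 1 / 4) : S.h =ᶠ[𝓝 Y] gc S.A S.κ := by
  filter_upwards [Iio_mem_nhds hY] with t ht
  exact S.h_left (le_of_lt ht)

theorem h_right_ev {Y : ℝ} (hY : S.YK + 1 / 4 < Y) : S.h =ᶠ[𝓝 Y] Real.cos := by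
  filter_upwards [Ioi_mem_nhds hY] with t ht
  exact S.h_right (le_of_lt ht)

theorem deriv_left {Y : ℝ} (h0 : 0 < Y) (hY : Y < S.YK - 1 / 4) : deriv S.h Y = gc1 S.A S.κ Y := by
  rw [(S.h_left_ev hY).deriv_eq, (gc_deriv S.κ0 h0).deriv]

theorem deriv2_left {Y : ℝ} (h0 : 0 < Y) (hY : Y < S.YK - 1 / 4) :
    deriv (deriv S.h) Y = -(S.κ ^ 2 + 1 / (4 * Y ^ 2)) * S.h Y := by
  have h1 : deriv S.h =ᶠ[𝓝 Y] gc1 S.A S.κ := by
    filter_upwards [Iio_mem_nhds hY, Ioi_mem_nhds h0] with t ht1 ht2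
    exact S.deriv_left ht2 ht1
  rw [h1.deriv_eq, (gc1_deriv S.κ0 h0).deriv, S.h_left hY.le]

theorem deriv_right {Y : ℝ} (hY : S.YK + 1 / 4 < Y) : deriv S.h Y = - Real.sin Y := by
  rw [(S.h_right_ev hY).deriv_eq, Real.deriv_cos]

theorem deriv2_right {Y : ℝ} (hY : S.YK + 1 / 4 < Y) : deriv (deriv S.h) Y = - S.h Y := by
  have h1 : deriv S.h =ᶠ[𝓝 Y] fun t => - Real.sin t := by
    filter_upwards [Ioi_mem_nhds hY] with t ht1
    exact S.deriv_right ht1
  rw [h1.deriv_eq, S.h_right hY.le, deriv.fun_neg, Real.deriv_sin]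

/-- differentiable near positive points -/
theorem hasDeriv {Y : ℝ} (hY : 0 < Y) : HasDerivAt S.h (deriv S.h Y) Y :=
  ((S.smooth hY).differentiableAt (by simp)).hasDerivAt

theorem smooth_deriv {Y : ℝ} (hY : 0 < Y) : ContDiffAt ℝ ∞ (deriv S.h) Y := by
  have := (S.smooth hY).fderiv_right (m := ∞) (by simp)
  have h4 : ContDiffAt ℝ ∞ (fun t => fderiv ℝ S.h t 1) Y := this.clm_apply contDiffAt_const
  exact h4

theorem hasDeriv2 {Y : ℝ} (hY : 0 < Y) : HasDerivAt (deriv S.h) (deriv (deriv S.h) Y) Y :=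
  ((S.smooth_deriv hY).differentiableAt (by simp)).hasDerivAt

theorem bounds (n : ℕ) : ∃ C : ℝ, 1 ≤ C ∧ ∀ k ≤ n, ∀ Y, 1 / 8 ≤ Y → |iteratedDeriv k S.h Y| ≤ C := by
  have hY6 := S.YK_ge
  have hcont : ∀ k : ℕ, ContinuousOn (iteratedDeriv k S.h) (Set.Icc (1 / 8) (S.YK + 1)) := by
    intro k y hy
    have hy0 : 0 < y := by linarith [hy.1]
    have h1 : ContDiffAt ℝ k S.h y := (contDiffAt_infty.1 (S.smooth hy0)) k
    have h2 : ContinuousAt (iteratedFDeriv ℝ k S.h) y := by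
      have := h1.iteratedFDeriv_right (m := 0) (i := k) (by simp)
      exact this.continuousAt
    have h3 : ContinuousAt (iteratedDeriv k S.h) y := by
      have : iteratedDeriv k S.h = fun y => iteratedFDeriv ℝ k S.h y (fun _ => 1) := by
        funext y; rw [iteratedDeriv_eq_iteratedFDeriv]
      rw [this]
      exact (ContinuousMultilinearMap.apply ℝ (fun _ : Fin k => ℝ) ℝ (fun _ => 1)).continuous.continuousAt.comp h2
    exact h3.continuousWithinAt
  have hone : ∀ k : ℕ, ∃ C : ℝ, 1 ≤ C ∧ ∀ Y, 1 / 8 ≤ Y → |iteratedDeriv k S.h Y| ≤ C := by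
    intro k
    obtain ⟨C, hC⟩ := isCompact_Icc.exists_bound_of_continuousOn (hcont k)
    refine ⟨max C 1, le_max_right _ _, fun Y hY => ?_⟩
    by_cases h1 : Y ≤ S.YK + 1
    · have := hC Y ⟨hY, h1⟩
      rw [Real.norm_eq_abs] at this
      exact this.trans (le_max_left _ _)
    · push Not at h1
      rw [(S.h_right_ev (Y := Y) (by linarith)).iteratedDeriv_eq k]
      have : |iteratedDeriv k Real.cos Y| ≤ 1 := Real.abs_iteratedDeriv_cos_le_one k Y
      exact this.trans (le_max_right _ _)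
  induction n with
  | zero =>
    obtain ⟨C, h1, h2⟩ := hone 0
    exact ⟨C, h1, fun k hk => by have : k = 0 := by omega
                                 subst this; exact h2⟩
  | succ n ih =>
    obtain ⟨C, h1, h2⟩ := ih
    obtain ⟨D, h3, h4⟩ := hone (n + 1)
    refine ⟨max C D, le_max_of_le_left h1, fun k hk Y hY => ?_⟩
    rcases Nat.lt_or_ge k (n + 1) with h | h
    · exact (h2 k (by omega) Y hY).trans (le_max_left _ _)
    · have : k = n + 1 := by omega
      subst this; exact (h4 Y hY).trans (le_max_right _ _)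

theorem pos {Y : ℝ} (h0 : 0 < Y) (h1 : Y ≤ 112 / 100) : 0 < S.h Y := by
  have hY6 := S.YK_ge
  rw [S.h_left (by linarith), gc, Wf]
  have hκ := S.κ0
  have h2 : S.κ * Y ≤ 101 / 100 * (112 / 100) := mul_le_mul S.κ3 h1 h0.le (by norm_num)
  have h3 : (S.κ * Y) ^ 2 ≤ 13 / 10 := by
    have : (S.κ * Y) ^ 2 ≤ (101 / 100 * (112 / 100)) ^ 2 := pow_le_pow_left₀ (by positivity) h2 2
    exact this.trans (by norm_num)
  have h4 := bJ_near_one (by positivity) h3
  have h5 : 0 < bJ 0 ((S.κ * Y) ^ 2) := by linarith [(abs_le.1 h4).1]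
  have h6 : 0 < Real.sqrt (S.κ * Y) := Real.sqrt_pos.2 (by positivity)
  have := S.A0
  positivity

theorem nondeg_pt {Y : ℝ} (hY : 1 / 4 ≤ Y) : 0 < S.h Y ^ 2 + deriv S.h Y ^ 2 := by
  have hY6 := S.YK_ge
  by_cases h1 : Y < S.YK - 1 / 4
  · by_cases h2 : Y ≤ 1 / 2
    · have := S.pos (Y := Y) (by linarith) (by linarith)
      positivity
    · push Not at h2
      rw [S.h_left h1.le, S.deriv_left (by linarith) h1, gc, gc1]
      have hκ := S.κ1
      have h3 : 1 / 2 ≤ S.κ * Y := by nlinarith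
      have hA := S.A0
      rcases Wf_nondeg h3 with h | h
      · have : 0 < (S.A * Wf (S.κ * Y)) ^ 2 := by positivity
        positivity
      · have hk0 := S.κ0
        have : 0 < (S.A * (Wf1 (S.κ * Y) * S.κ)) ^ 2 := by positivity
        positivity
  · push Not at h1
    by_cases h2 : Y ≤ S.YK + 1 / 4
    · have := (S.window Y (by rw [abs_le]; change _ ≤ Y - S.YK ∧ Y - S.YK ≤ _; constructor <;> linarith)).1
      have h3 : (1 : ℝ) / 2 ≤ S.h Y := this
      positivity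
    · push Not at h2
      rw [S.h_right h2.le, S.deriv_right h2]
      have := Real.sin_sq_add_cos_sq Y
      nlinarith

theorem nondeg : ∃ c : ℝ, 0 < c ∧ c ≤ 1 ∧ ∀ Y, 1 / 4 ≤ Y → c ≤ S.h Y ^ 2 + deriv S.h Y ^ 2 := by
  have hY6 := S.YK_ge
  have hcont : ContinuousOn (fun Y => S.h Y ^ 2 + deriv S.h Y ^ 2) (Set.Icc (1 / 4) (S.YK + 1)) := by
    intro y hy
    have hy0 : 0 < y := by linarith [hy.1]
    have h1 : ContinuousAt S.h y := (S.smooth hy0).continuousAt
    have h2 : ContinuousAt (deriv S.h) y := (S.smooth_deriv hy0).continuousAt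
    exact ((h1.pow 2).add (h2.pow 2)).continuousWithinAt
  obtain ⟨y, hy, hmin⟩ := isCompact_Icc.exists_isMinOn (s := Set.Icc (1 / 4) (S.YK + 1))
    ⟨1 / 4, by constructor <;> linarith⟩ hcont
  refine ⟨min 1 (S.h y ^ 2 + deriv S.h y ^ 2), lt_min one_pos (S.nondeg_pt hy.1), min_le_left _ _, fun Y hY => ?_⟩
  by_cases h1 : Y ≤ S.YK + 1
  · exact (min_le_right _ _).trans (hmin ⟨hY, h1⟩)
  · push Not at h1
    refine (min_le_left _ _).trans ?_
    rw [S.h_right (by linarith), S.deriv_right (by linarith)]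
    have := Real.sin_sq_add_cos_sq Y
    nlinarith

end Sea

end Pool.Agent.J6H20.RL
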