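import Mathlib
import Pool.Agent.J6H20.RL.Core
import Pool.Agent.J6H20.RL.Kappa
import Pool.Agent.J6H20.RL.SeaProp

/-!
# The sea profile near the pole
-/

set_option autoImplicit false

open Filter Topology
open scoped ContDiff

namespace Pool.Agent.J6H20.RL

section
variable {η g k m0 α : ℝ} {P : TP η g k m0 α}

/-- **the pole zone** -/
theorem poleA {κs ε ε₁ ε₂ po : ℝ} {h hp : ℝ → ℝ} {κ Ψ : V → ℝ} {x : V} (hη0 : 0 ≤ η) (hη : η ≤ 1)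
    (hk : |1 - k ^ 2| ≤ η) (hκs : |1 - κs ^ 2| ≤ ε₁) (hκs2 : |κs ^ 2| ≤ 2)
    (hh : ContDiffAt ℝ ∞ h (x 1)) (hhp : ContDiffAt ℝ ∞ hp (x 1)) (h0 : 0 < h (x 1)) (hp0 : 0 < hp (x 1))
    (r1 : h (x 1) ≤ 5 * hp (x 1)) (r2 : hp (x 1) ≤ 5 * h (x 1))
    (d1 : |deriv (deriv h) (x 1) + (κs ^ 2 + 1 / (4 * x 1 ^ 2)) * h (x 1)| ≤ ε₂ * h (x 1))
    (d2 : |deriv (deriv hp) (x 1) + (k ^ 2 * κs ^ 2 + 1 / (4 * x 1 ^ 2)) * hp (x 1)| ≤ ε₂ * hp (x 1))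
    (hΨ : Ψ =ᶠ[𝓝 x] fun _ => 0) (hs : 28 * η + 4 * ε₁ + ε₂ + |po - 1 / (4 * x 1 ^ 2)| ≤ ε) (hε₂ : 0 ≤ ε₂) (hε₁ : 0 ≤ ε₁) :
    SA (FF κ (cK P κs) (xi0 P) Ψ (RG P h hp)) x ∧
      |Fl (κ x) po (FF κ (cK P κs) (xi0 P) Ψ (RG P h hp)) x| ≤ 5 * ε * |FF κ (cK P κs) (xi0 P) Ψ (RG P h hp) x| ∧
      |FF κ (cK P κs) (xi0 P) Ψ (RG P h hp) x| ≤ 2 * (Real.exp (xi0 P x) * |RG P h hp x|) ∧
      FF κ (cK P κs) (xi0 P) Ψ (RG P h hp) =ᶠ[𝓝 x] fun y => Real.exp (xi0 P y) * RG P h hp y := by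
  have hm := P.th_mem (x 0)
  have l1 : |deriv P.lam (x 0)| ≤ 2 := (jlam (P := P) hη (x 0)).val
  have l2 : |deriv P.lam (x 0) - 1| ≤ η := (P.lam_jet (x 0)).val
  have vt1 : |deriv P.th (x 0)| ≤ η := (P.th_jet (x 0)).val
  have vt2 : |deriv (deriv P.th) (x 0)| ≤ η := (P.th_jet (x 0)).deriv.val
  have vc : |ccC P x - 1| ≤ 3 * η := by
    have e : ccC P x - 1 = (deriv P.lam (x 0) - 1) * (deriv P.lam (x 0) + 1) := by simp only [ccC]; ring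
    rw [e]
    have := am' l2 ((abs_add_le _ _).trans (by rw [abs_one]; linarith) : |deriv P.lam (x 0) + 1| ≤ 3)
    linarith
  have vck : |ccC P x - k ^ 2| ≤ 4 * η := by
    have e : ccC P x - k ^ 2 = (ccC P x - 1) + (1 - k ^ 2) := by ring
    rw [e]; exact (ad' vc hk).trans (by linarith)
  set a := h (x 1) with ha
  set b := hp (x 1) with hb
  set θ := P.th (x 0) with hθ
  have hG : 0 < θ * a + (1 - θ) * b := by
    rcases le_total a b with h5 | h5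
    · have := mul_le_mul_of_nonneg_left h5 (by linarith : 0 ≤ 1 - θ)
      nlinarith
    · have := mul_le_mul_of_nonneg_left h5 hm.1
      nlinarith
  have hab : |a - b| ≤ 4 * (θ * a + (1 - θ) * b) := by
    rcases le_total a b with h5 | h5
    · have e1 : a ≤ θ * a + (1 - θ) * b := by
        have := mul_le_mul_of_nonneg_left h5 (by linarith : 0 ≤ 1 - θ)
        linarith
      rw [abs_of_nonpos (by linarith)]; linarith
    · have e1 : b ≤ θ * a + (1 - θ) * b := by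
        have := mul_le_mul_of_nonneg_left h5 hm.1
        linarith
      rw [abs_of_nonneg (by linarith)]; linarith
  have hκc1 : |κs ^ 2 * (ccC P x - 1)| ≤ 6 * η := (am' hκs2 vc).trans (by linarith)
  have hκc2 : |κs ^ 2 * (ccC P x - k ^ 2)| ≤ 8 * η := (am' hκs2 vck).trans (by linarith)
  have q1 : |deriv (deriv h) (x 1) + (κs ^ 2 * ccC P x + 1 / (4 * x 1 ^ 2)) * a| ≤ (ε₂ + 6 * η) * a := by
    have e : deriv (deriv h) (x 1) + (κs ^ 2 * ccC P x + 1 / (4 * x 1 ^ 2)) * a =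
        (deriv (deriv h) (x 1) + (κs ^ 2 + 1 / (4 * x 1 ^ 2)) * a) + κs ^ 2 * (ccC P x - 1) * a := by ring
    rw [e]
    have := am' hκc1 (le_of_eq (abs_of_pos h0))
    exact (ad' d1 this).trans (by linarith)
  have q2 : |deriv (deriv hp) (x 1) + (κs ^ 2 * ccC P x + 1 / (4 * x 1 ^ 2)) * b| ≤ (ε₂ + 8 * η) * b := by
    have e : deriv (deriv hp) (x 1) + (κs ^ 2 * ccC P x + 1 / (4 * x 1 ^ 2)) * b =
        (deriv (deriv hp) (x 1) + (k ^ 2 * κs ^ 2 + 1 / (4 * x 1 ^ 2)) * b) + κs ^ 2 * (ccC P x - k ^ 2) * b := by ring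
    rw [e]
    have := am' hκc2 (le_of_eq (abs_of_pos hp0))
    exact (ad' d2 this).trans (by linarith)
  have q0 : |(deriv (deriv P.th) (x 0) + (2 * -deriv P.lam (x 0)) * deriv P.th (x 0)) * (a - b)| ≤ 20 * η * (θ * a + (1 - θ) * b) := by
    have h6 : |2 * -deriv P.lam (x 0)| ≤ 4 := by rw [abs_mul, abs_neg]; norm_num; linarith
    have h7 := ad' vt2 (am' h6 vt1)
    refine (am' h7 hab).trans ?_
    linarith
  have hres : |resid κ (cK P κs) (xi0 P) (RG P h hp) x| ≤ (28 * η + ε₂) * (θ * a + (1 - θ) * b) := by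
    rw [residG hh hhp]
    have t1 : |θ * (deriv (deriv h) (x 1) + (κs ^ 2 * ccC P x + 1 / (4 * x 1 ^ 2)) * a)| ≤ θ * ((ε₂ + 8 * η) * a) := by
      rw [abs_mul, abs_of_nonneg hm.1]
      refine mul_le_mul_of_nonneg_left (q1.trans ?_) hm.1
      exact mul_le_mul_of_nonneg_right (by linarith) h0.le
    have t2 : |(1 - θ) * (deriv (deriv hp) (x 1) + (κs ^ 2 * ccC P x + 1 / (4 * x 1 ^ 2)) * b)| ≤ (1 - θ) * ((ε₂ + 8 * η) * b) := by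
      rw [abs_mul, abs_of_nonneg (by linarith : 0 ≤ 1 - θ)]
      exact mul_le_mul_of_nonneg_left q2 (by linarith)
    refine (ad' (ad' q0 t1) t2).trans ?_
    linarith
  have hRv : RG P h hp x = θ * a + (1 - θ) * b := by rw [RG_val]
  refine masterA (M := (28 * η + ε₂) * (θ * a + (1 - θ) * b)) (xiG_SA (P := P) zero_SA x)
    (R4_SA contDiffAt_const contDiffAt_const (P.th_sm _) contDiffAt_const hh hhp) hΨ ?_ hres ?_
  · rw [hRv, abs_of_pos hG]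
    refine mul_le_mul_of_nonneg_right ?_ hG.le
    have := abs_nonneg (po - 1 / (4 * x 1 ^ 2))
    linarith
  · refine (mcoef0 (P := P) hη hκs).trans ?_
    linarith

end

variable {ε₁ : ℝ} (S : Sea ε₁)

/-- the profile of the cap -/
noncomputable def zc (ν Y : ℝ) : ℝ :=
  S.A * Real.sqrt S.κ * (Real.sqrt (ν * (Real.sin (Y / ν) * Real.cos (Y / ν))) * bJ 0 (S.κ ^ 2 * (ν ^ 2 * Real.sin (Y / ν) ^ 2)))

/-- the sea profile with the cap -/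
noncomputable def zs (ν Y : ℝ) : ℝ := S.h Y * chi (8 * Y + -2) + zc S ν Y * (1 - chi (8 * Y + -2))

theorem zs_right {ν Y : ℝ} (h : 3 / 8 ≤ Y) : zs S ν Y = S.h Y := by
  rw [zs, chi_one (by linarith)]; ring

theorem zs_left {ν Y : ℝ} (h : Y ≤ 1 / 4) : zs S ν Y = zc S ν Y := by
  rw [zs, chi_zero (by linarith)]; ring

theorem zs_right_ev {ν Y : ℝ} (h : 3 / 8 < Y) : zs S ν =ᶠ[𝓝 Y] S.h := by
  filter_upwards [Ioi_mem_nhds h] with t ht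
  exact zs_right S (le_of_lt ht)

/-- closeness of the trigonometric expressions -/
theorem PQ {ν Y : ℝ} (hν : 2 ≤ ν) (h0 : 0 < Y) (h1 : Y ≤ 1) :
    0 < Real.sin (Y / ν) ∧ 0 < Real.cos (Y / ν) ∧ ν * (Real.sin (Y / ν) * Real.cos (Y / ν)) ≤ Y ∧
    (1 - 1 / ν ^ 2) * Y ≤ ν * (Real.sin (Y / ν) * Real.cos (Y / ν)) ∧ ν ^ 2 * Real.sin (Y / ν) ^ 2 ≤ Y ^ 2 ∧
    Y ^ 2 - 1 / ν ^ 2 ≤ ν ^ 2 * Real.sin (Y / ν) ^ 2 ∧
    1 - 2 / ν ^ 2 ≤ Real.cos (Y / ν) ^ 2 - Real.sin (Y / ν) ^ 2 := by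
  have hν0 : 0 < ν := by linarith
  set φ := Y / ν with hφ
  have hφ0 : 0 < φ := by positivity
  have hY : Y = ν * φ := by rw [hφ]; field_simp
  have hφ1 : φ ≤ 1 / 2 := by rw [hφ, div_le_iff₀ hν0]; linarith
  have hφν : φ ≤ 1 / ν := by rw [hφ]; exact div_le_div_of_nonneg_right h1 hν0.le
  have hφ2 : φ ^ 2 ≤ 1 / ν ^ 2 := by
    have h5 := pow_le_pow_left₀ hφ0.le hφν 2
    have e : (1 / ν) ^ 2 = 1 / ν ^ 2 := by rw [one_div, one_div, inv_pow]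
    linarith
  have s1 := Real.sin_le hφ0.le
  have s2 := Real.sin_gt_sub_cube hφ0
  have s3 : φ * (1 - φ ^ 2 / 6) ≤ Real.sin φ := by
    have : φ * (1 - φ ^ 2 / 6) = φ - φ ^ 3 / 6 := by ring
    linarith
  have s4 : 0 < Real.sin φ := by
    have := sin_ge_half hφ0 (by linarith)
    linarith
  have c1 := Real.one_sub_sq_div_two_le_cos (x := φ)
  have c2 := Real.cos_le_one φ
  have hφsq : φ ^ 2 ≤ 1 / 4 := by nlinarith
  have c3 : 0 < Real.cos φ := by linarith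
  have hsc : φ * (1 - φ ^ 2) ≤ Real.sin φ * Real.cos φ := by
    have : (φ * (1 - φ ^ 2 / 6)) * (1 - φ ^ 2 / 2) ≤ Real.sin φ * Real.cos φ :=
      mul_le_mul s3 c1 (by linarith) s4.le
    have e : (φ * (1 - φ ^ 2 / 6)) * (1 - φ ^ 2 / 2) = φ * (1 - φ ^ 2) + φ * (φ ^ 2 / 3 + φ ^ 4 / 12) := by ring
    have : 0 ≤ φ * (φ ^ 2 / 3 + φ ^ 4 / 12) := by positivity
    linarith
  have hs2 : φ ^ 2 * (1 - φ ^ 2) ≤ Real.sin φ ^ 2 := by
    have h6 : (φ * (1 - φ ^ 2 / 6)) ^ 2 ≤ Real.sin φ ^ 2 :=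
      pow_le_pow_left₀ (mul_nonneg hφ0.le (by linarith)) s3 2
    have e : (φ * (1 - φ ^ 2 / 6)) ^ 2 = φ ^ 2 * (1 - φ ^ 2) + φ ^ 2 * (2 / 3 * φ ^ 2 + (φ ^ 2 / 6) ^ 2) := by ring
    have : 0 ≤ φ ^ 2 * (2 / 3 * φ ^ 2 + (φ ^ 2 / 6) ^ 2) := by positivity
    linarith
  refine ⟨s4, c3, ?_, ?_, ?_, ?_, ?_⟩
  · have : Real.sin φ * Real.cos φ ≤ φ * 1 := mul_le_mul s1 c2 c3.le hφ0.le
    rw [hY]
    have := mul_le_mul_of_nonneg_left this hν0.le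
    linarith
  · have h5 := mul_le_mul_of_nonneg_left hsc hν0.le
    have h6 : (1 - 1 / ν ^ 2) * Y ≤ (1 - φ ^ 2) * Y := mul_le_mul_of_nonneg_right (by linarith) h0.le
    have h7 : (1 - φ ^ 2) * Y = ν * (φ * (1 - φ ^ 2)) := by rw [hY]; ring
    linarith
  · have := pow_le_pow_left₀ s4.le s1 2
    have h5 : Y ^ 2 = ν ^ 2 * φ ^ 2 := by rw [hY]; ring
    rw [h5]; exact mul_le_mul_of_nonneg_left this (sq_nonneg ν)
  · have h5 := mul_le_mul_of_nonneg_left hs2 (sq_nonneg ν)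
    have h6 : ν ^ 2 * (φ ^ 2 * (1 - φ ^ 2)) = Y ^ 2 - Y ^ 2 * φ ^ 2 := by rw [hY]; ring
    have h7 : Y ^ 2 * φ ^ 2 ≤ 1 * (1 / ν ^ 2) := mul_le_mul (pow_le_one₀ h0.le h1) hφ2 (sq_nonneg _) (by norm_num)
    linarith
  · have h5 := Real.sin_sq_add_cos_sq φ
    have h6 : Real.sin φ ^ 2 ≤ φ ^ 2 := pow_le_pow_left₀ s4.le s1 2
    have h7 : 2 / ν ^ 2 = 2 * (1 / ν ^ 2) := by ring
    rw [h7]; linarith

end Pool.Agent.J6H20.RL
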