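import Mathlib
import Pool.Agent.J6H20.RL.PoleF

/-!
# Estimates for the cap profile
-/

set_option autoImplicit false

open Filter Topology
open scoped ContDiff

namespace Pool.Agent.J6H20.RL

/-- value function -/
noncomputable def T0 (κ2 P Q : ℝ) : ℝ := Real.sqrt P * bJ 0 (κ2 * Q)
/-- derivative function -/
noncomputable def T1 (κ2 P D Q : ℝ) : ℝ := D / (2 * Real.sqrt P) * bJ 0 (κ2 * Q) + Real.sqrt P * (bJ 1 (κ2 * Q) * (κ2 * (2 * P)))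

theorem sc_deriv {ν : ℝ} (hν : 0 < ν) (Y : ℝ) : HasDerivAt (fun Y => Real.sin (Y / ν)) (Real.cos (Y / ν) / ν) Y ∧
    HasDerivAt (fun Y => Real.cos (Y / ν)) (-(Real.sin (Y / ν) / ν)) Y := by
  have h1 : HasDerivAt (fun t : ℝ => t / ν) (1 / ν) Y := (hasDerivAt_id Y).div_const ν
  constructor
  · refine (hd_comp (Real.hasDerivAt_sin _) h1).congr_deriv ?_; ring
  · refine (hd_comp (Real.hasDerivAt_cos _) h1).congr_deriv ?_; ring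

/-- derivatives of `P` and `Q` -/
theorem PQ_deriv {ν : ℝ} (hν : 0 < ν) (Y : ℝ) :
    HasDerivAt (fun Y => ν * (Real.sin (Y / ν) * Real.cos (Y / ν))) (Real.cos (Y / ν) ^ 2 - Real.sin (Y / ν) ^ 2) Y ∧
    HasDerivAt (fun Y => ν ^ 2 * Real.sin (Y / ν) ^ 2) (2 * (ν * (Real.sin (Y / ν) * Real.cos (Y / ν)))) Y ∧
    HasDerivAt (fun Y => Real.cos (Y / ν) ^ 2 - Real.sin (Y / ν) ^ 2) (-(4 * (Real.sin (Y / ν) * Real.cos (Y / ν)) / ν)) Y := by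
  obtain ⟨hs, hc⟩ := sc_deriv hν Y
  refine ⟨?_, ?_, ?_⟩
  · refine ((hd_cmul ν (hd_mul hs hc))).congr_deriv ?_
    field_simp; ring
  · have h1 := hd_cmul (ν ^ 2) (hd_mul hs hs)
    refine (h1.congr_deriv ?_).congr_of_eventuallyEq (Eventually.of_forall fun t => by simp only; ring)
    field_simp; ring
  · have h1 := hd_sub (hd_mul hc hc) (hd_mul hs hs)
    refine (h1.congr_deriv ?_).congr_of_eventuallyEq (Eventually.of_forall fun t => by simp only; ring)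
    field_simp; ring

variable {ε₁ : ℝ} (S : Sea ε₁)

noncomputable def PP (ν Y : ℝ) : ℝ := ν * (Real.sin (Y / ν) * Real.cos (Y / ν))
noncomputable def QQ (ν Y : ℝ) : ℝ := ν ^ 2 * Real.sin (Y / ν) ^ 2
noncomputable def DD (ν Y : ℝ) : ℝ := Real.cos (Y / ν) ^ 2 - Real.sin (Y / ν) ^ 2

theorem zc_eq (ν Y : ℝ) : zc S ν Y = S.A * Real.sqrt S.κ * T0 (S.κ ^ 2) (PP ν Y) (QQ ν Y) := rfl

theorem T0_deriv {P Q : ℝ → ℝ} {Y P' Q' κ2 : ℝ} (hP : HasDerivAt P P' Y) (hQ : HasDerivAt Q Q' Y) (h0 : 0 < P Y) (hQ' : Q' = 2 * P Y) :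
    HasDerivAt (fun Y => T0 κ2 (P Y) (Q Y)) (T1 κ2 (P Y) P' (Q Y)) Y := by
  have h1 : HasDerivAt (fun Y => Real.sqrt (P Y)) (P' / (2 * Real.sqrt (P Y))) Y := hP.sqrt h0.ne'
  have h2 : HasDerivAt (fun Y => bJ 0 (κ2 * Q Y)) (bJ 1 (κ2 * Q Y) * (κ2 * Q')) Y :=
    hd_comp (bJ_hasDerivAt 0 _) (hd_cmul κ2 hQ)
  refine (hd_mul h1 h2).congr_deriv ?_
  rw [T1, hQ']

theorem zc_d {ν Y : ℝ} (hν : 0 < ν) (h0 : 0 < PP ν Y) :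
    HasDerivAt (zc S ν) (S.A * Real.sqrt S.κ * T1 (S.κ ^ 2) (PP ν Y) (DD ν Y) (QQ ν Y)) Y := by
  obtain ⟨p, q, d⟩ := PQ_deriv hν Y
  exact hd_cmul (S.A * Real.sqrt S.κ) (T0_deriv (P := PP ν) (Q := QQ ν) p q h0 rfl)

/-- the second derivative -/
theorem zc_dd {ν Y : ℝ} (hν : 0 < ν) (h0 : 0 < PP ν Y) :
    HasDerivAt (fun Y => S.A * Real.sqrt S.κ * T1 (S.κ ^ 2) (PP ν Y) (DD ν Y) (QQ ν Y))
      (-(S.κ ^ 2 + pot ν Y) * zc S ν Y + S.A * Real.sqrt S.κ * Real.sqrt (PP ν Y) *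
        ((-(1 / ν ^ 2) + S.κ ^ 2 * Real.sin (Y / ν) ^ 2) * bJ 0 (S.κ ^ 2 * QQ ν Y) - 4 * S.κ ^ 2 * Real.sin (Y / ν) ^ 2 * bJ 1 (S.κ ^ 2 * QQ ν Y))) Y := by
  obtain ⟨p, q, d⟩ := PQ_deriv hν Y
  have p' : HasDerivAt (PP ν) (DD ν Y) Y := p
  have q' : HasDerivAt (QQ ν) (2 * PP ν Y) Y := q
  have d' : HasDerivAt (DD ν) (-(4 * (Real.sin (Y / ν) * Real.cos (Y / ν)) / ν)) Y := d
  have hsq : HasDerivAt (fun Y => Real.sqrt (PP ν Y)) (DD ν Y / (2 * Real.sqrt (PP ν Y))) Y := p'.sqrt h0.ne'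
  have hs0 : 0 < Real.sqrt (PP ν Y) := Real.sqrt_pos.2 h0
  have j0 : HasDerivAt (fun Y => bJ 0 (S.κ ^ 2 * QQ ν Y)) (bJ 1 (S.κ ^ 2 * QQ ν Y) * (S.κ ^ 2 * (2 * PP ν Y))) Y :=
    hd_comp (bJ_hasDerivAt 0 _) (hd_cmul _ q')
  have j1 : HasDerivAt (fun Y => bJ 1 (S.κ ^ 2 * QQ ν Y)) (bJ 2 (S.κ ^ 2 * QQ ν Y) * (S.κ ^ 2 * (2 * PP ν Y))) Y :=
    hd_comp (bJ_hasDerivAt 1 _) (hd_cmul _ q')
  have u1 := hd_mul (hd_mul d' (hd_inv (hd_cmul 2 hsq) (by positivity))) j0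
  have u2 := hd_mul hsq (hd_mul j1 (hd_cmul (S.κ ^ 2) (hd_cmul 2 p')))
  have u3 := hd_cmul (S.A * Real.sqrt S.κ) (hd_add u1 u2)
  refine (u3.congr_deriv ?_).congr_of_eventuallyEq (Eventually.of_forall fun t => by simp only [T1]; ring)
  have hode := bJ_ode (S.κ ^ 2 * QQ ν Y)
  have hS2 : Real.sqrt (PP ν Y) ^ 2 = PP ν Y := Real.sq_sqrt h0.le
  have htr := Real.sin_sq_add_cos_sq (Y / ν)
  have hPPd : PP ν Y = ν * (Real.sin (Y / ν) * Real.cos (Y / ν)) := rfl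
  have hsn : Real.sin (Y / ν) ≠ 0 := by
    intro h; rw [hPPd, h] at h0; simp at h0
  have hcn : Real.cos (Y / ν) ≠ 0 := by
    intro h; rw [hPPd, h] at h0; simp at h0
  have hpot : pot ν Y = (4 * (ν ^ 2 * (Real.sin (Y / ν) ^ 2 * Real.cos (Y / ν) ^ 2)))⁻¹ := by
    rw [pot]
    have : 2 * Y / ν = 2 * (Y / ν) := by ring
    rw [this, Real.sin_two_mul]
    congr 1; ring
  rw [hpot, zc_eq, T0]
  have hQ : QQ ν Y = ν ^ 2 * Real.sin (Y / ν) ^ 2 := rfl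
  have hD : DD ν Y = Real.cos (Y / ν) ^ 2 - Real.sin (Y / ν) ^ 2 := rfl
  set s := Real.sin (Y / ν) with hs
  set c := Real.cos (Y / ν) with hc
  set J0 := bJ 0 (S.κ ^ 2 * QQ ν Y) with hJ0
  set J1 := bJ 1 (S.κ ^ 2 * QQ ν Y) with hJ1
  set J2 := bJ 2 (S.κ ^ 2 * QQ ν Y) with hJ2
  set r := Real.sqrt (PP ν Y) with hr
  -- express J2 via the equation: kappa^2 Q J2 = -J1 - J0 / 4
  have hJ2' : S.κ ^ 2 * (ν ^ 2 * s ^ 2) * J2 = -J1 - J0 / 4 := by rw [← hQ]; linarith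
  have hr2 : r ^ 2 = ν * (s * c) := by rw [hS2, hPPd]
  rw [hD, hPPd]
  have hνn : ν ≠ 0 := hν.ne'
  have hrn : r ≠ 0 := hs0.ne'
  have e1 : r * (J2 * (S.κ ^ 2 * (2 * (ν * (s * c)))) * (S.κ ^ 2 * (2 * (ν * (s * c))))) =
      r * (4 * S.κ ^ 2 * c ^ 2 * (-J1 - J0 / 4)) := by rw [← hJ2']; ring
  have e2 : (c ^ 2 - s ^ 2) ^ 2 = 1 - 4 * (s ^ 2 * c ^ 2) := by
    have : (c ^ 2 - s ^ 2) ^ 2 = (s ^ 2 + c ^ 2) ^ 2 - 4 * (s ^ 2 * c ^ 2) := by ring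
    rw [this, htr]; ring
  have e3 : s ^ 2 = 1 - c ^ 2 := by linarith
  have inv1 : r⁻¹ = r / (ν * (s * c)) := by rw [← hr2]; field_simp
  have hsc : ν * (s * c) ≠ 0 := by rw [← hr2]; positivity
  -- the derivative, simplified
  have main : ((-(4 * (s * c) / ν) * (2 * r)⁻¹ + (c ^ 2 - s ^ 2) * (-(2 * ((c ^ 2 - s ^ 2) / (2 * r))) / (2 * r) ^ 2)) * J0 +
      (c ^ 2 - s ^ 2) * (2 * r)⁻¹ * (J1 * (S.κ ^ 2 * (2 * (ν * (s * c)))))) +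
      ((c ^ 2 - s ^ 2) / (2 * r) * (J1 * (S.κ ^ 2 * (2 * (ν * (s * c))))) +
        r * (J2 * (S.κ ^ 2 * (2 * (ν * (s * c)))) * (S.κ ^ 2 * (2 * (ν * (s * c)))) + J1 * (S.κ ^ 2 * (2 * (c ^ 2 - s ^ 2))))) =
      -(S.κ ^ 2 + (4 * (ν ^ 2 * (s ^ 2 * c ^ 2)))⁻¹) * (r * J0) + r * ((-(1 / ν ^ 2) + S.κ ^ 2 * s ^ 2) * J0 - 4 * S.κ ^ 2 * s ^ 2 * J1) := by
    have a1 : -(4 * (s * c) / ν) * (2 * r)⁻¹ = -(2 / ν ^ 2) * r := by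
      rw [mul_inv, inv1]; field_simp; ring
    have a2 : (c ^ 2 - s ^ 2) * (-(2 * ((c ^ 2 - s ^ 2) / (2 * r))) / (2 * r) ^ 2) = -((1 - 4 * (s ^ 2 * c ^ 2)) / (4 * (ν ^ 2 * (s ^ 2 * c ^ 2)))) * r := by
      have : (c ^ 2 - s ^ 2) * (-(2 * ((c ^ 2 - s ^ 2) / (2 * r))) / (2 * r) ^ 2) = -((c ^ 2 - s ^ 2) ^ 2) / (4 * (r ^ 2) * r) := by
        field_simp; ring
      rw [this, e2]
      have h4 : (4 : ℝ) * r ^ 2 * r = 4 * r ^ 4 / r := by field_simp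
      have h5 : r ^ 4 = ν ^ 2 * (s ^ 2 * c ^ 2) := by
        have : r ^ 4 = (r ^ 2) ^ 2 := by ring
        rw [this, hr2]; ring
      rw [h4, h5]; field_simp
    have a3 : (c ^ 2 - s ^ 2) * (2 * r)⁻¹ * (J1 * (S.κ ^ 2 * (2 * (ν * (s * c))))) = S.κ ^ 2 * (c ^ 2 - s ^ 2) * r * J1 := by
      rw [mul_inv, inv1]; field_simp
    have a4 : (c ^ 2 - s ^ 2) / (2 * r) * (J1 * (S.κ ^ 2 * (2 * (ν * (s * c))))) = S.κ ^ 2 * (c ^ 2 - s ^ 2) * r * J1 := by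
      rw [← a3]; rw [div_eq_mul_inv]
    rw [a1, a2, a3, a4, mul_add r, e1]
    have hs2c2 : ν ^ 2 * (s ^ 2 * c ^ 2) ≠ 0 := by positivity
    have a5 : (1 - 4 * (s ^ 2 * c ^ 2)) / (4 * (ν ^ 2 * (s ^ 2 * c ^ 2))) = (4 * (ν ^ 2 * (s ^ 2 * c ^ 2)))⁻¹ - 1 / ν ^ 2 := by
      field_simp
    rw [a5, e3]; ring
  calc _ = S.A * Real.sqrt S.κ * (((-(4 * (s * c) / ν) * (2 * r)⁻¹ + (c ^ 2 - s ^ 2) * (-(2 * ((c ^ 2 - s ^ 2) / (2 * r))) / (2 * r) ^ 2)) * J0 +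
      (c ^ 2 - s ^ 2) * (2 * r)⁻¹ * (J1 * (S.κ ^ 2 * (2 * (ν * (s * c)))))) +
      ((c ^ 2 - s ^ 2) / (2 * r) * (J1 * (S.κ ^ 2 * (2 * (ν * (s * c))))) +
        r * (J2 * (S.κ ^ 2 * (2 * (ν * (s * c)))) * (S.κ ^ 2 * (2 * (ν * (s * c)))) + J1 * (S.κ ^ 2 * (2 * (c ^ 2 - s ^ 2)))))) := by ring
    _ = _ := by rw [main]; ring

end Pool.Agent.J6H20.RL
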