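import Mathlib
import Pool.Agent.J6H20.RL.PoleG

/-!
# The profile with the cap: final estimates
-/

set_option autoImplicit false

open Filter Topology
open scoped ContDiff

namespace Pool.Agent.J6H20.RL

variable {ε₁ : ℝ} (S : Sea ε₁)

theorem h_T0 {Y : ℝ} (h0 : 0 < Y) (h1 : Y ≤ 1) : S.h Y = S.A * Real.sqrt S.κ * T0 (S.κ ^ 2) Y (Y ^ 2) := by
  rw [S.h_left (by linarith [S.YK_ge]), gc, Wf, T0, Real.sqrt_mul S.κ0.le]
  have : (S.κ * Y) ^ 2 = S.κ ^ 2 * Y ^ 2 := by ring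
  rw [this]; ring

theorem h_T1 {Y : ℝ} (h0 : 0 < Y) (h1 : Y < 1) : deriv S.h Y = S.A * Real.sqrt S.κ * T1 (S.κ ^ 2) Y 1 (Y ^ 2) := by
  have e : S.h =ᶠ[𝓝 Y] fun Y => S.A * Real.sqrt S.κ * T0 (S.κ ^ 2) Y (Y ^ 2) := by
    filter_upwards [Ioi_mem_nhds h0, Iio_mem_nhds h1] with t ht1 ht2
    exact h_T0 S ht1 (le_of_lt ht2)
  rw [e.deriv_eq]
  exact (hd_cmul _ (T0_deriv (P := fun Y => Y) (Q := fun Y => Y ^ 2) (hasDerivAt_id Y) (hd_sq Y) h0 rfl)).deriv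

theorem κ_sq : 1 ≤ S.κ ^ 2 ∧ S.κ ^ 2 ≤ 103 / 100 := by
  have h1 := S.κ1
  have h3 := S.κ3
  constructor
  · nlinarith
  · nlinarith

theorem J_bounds {m : ℝ} (h0 : 0 ≤ m) (h1 : m ≤ 13 / 10) : 1 / 2 ≤ bJ 0 m ∧ bJ 0 m ≤ 3 / 2 := by
  have := abs_le.1 (bJ_near_one h0 h1)
  constructor <;> linarith [this.1, this.2]

theorem c_pos : 0 < S.A * Real.sqrt S.κ := mul_pos S.A0 (Real.sqrt_pos.2 S.κ0)

/-- size of the profiles -/
theorem size {ν Y : ℝ} (hν : 4 ≤ ν) (h0 : 0 < Y) (h1 : Y ≤ 1) :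
    0 < PP ν Y ∧ 45 / 100 * (S.A * Real.sqrt S.κ * Real.sqrt Y) ≤ zc S ν Y ∧ zc S ν Y ≤ 3 / 2 * (S.A * Real.sqrt S.κ * Real.sqrt Y) ∧
    45 / 100 * (S.A * Real.sqrt S.κ * Real.sqrt Y) ≤ S.h Y ∧ S.h Y ≤ 3 / 2 * (S.A * Real.sqrt S.κ * Real.sqrt Y) ∧
    S.A * Real.sqrt S.κ * Real.sqrt (PP ν Y) ≤ 2 * zc S ν Y := by
  obtain ⟨s0, c0, p1, p2, q1, q2, d1⟩ := PQ (by linarith : 2 ≤ ν) h0 h1
  have hc := c_pos S
  obtain ⟨k1, k2⟩ := κ_sq S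
  have hν2 : 1 / ν ^ 2 ≤ 1 / 16 := by
    have : (16 : ℝ) ≤ ν ^ 2 := by nlinarith
    exact one_div_le_one_div_of_le (by norm_num) this
  have hPP : 81 / 100 * Y ≤ PP ν Y := by
    have : (15 / 16) * Y ≤ (1 - 1 / ν ^ 2) * Y := mul_le_mul_of_nonneg_right (by linarith) h0.le
    have h5 : (1 - 1 / ν ^ 2) * Y ≤ PP ν Y := p2
    linarith
  have hPP0 : 0 < PP ν Y := by linarith
  have hsY : 0 < Real.sqrt Y := Real.sqrt_pos.2 h0
  have hsP1 : 9 / 10 * Real.sqrt Y ≤ Real.sqrt (PP ν Y) := by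
    have e : Real.sqrt (81 / 100 * Y) = 9 / 10 * Real.sqrt Y := by
      rw [Real.sqrt_mul (by norm_num)]
      congr 1
      rw [show (81 / 100 : ℝ) = (9 / 10) ^ 2 by norm_num, Real.sqrt_sq (by norm_num)]
    rw [← e]; exact Real.sqrt_le_sqrt hPP
  have hsP2 : Real.sqrt (PP ν Y) ≤ Real.sqrt Y := Real.sqrt_le_sqrt p1
  have hY2 : Y ^ 2 ≤ 1 := pow_le_one₀ h0.le h1
  have hQ0 : 0 ≤ QQ ν Y := by rw [QQ]; positivity
  have hQ1 : QQ ν Y ≤ 1 := by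
    have : QQ ν Y ≤ Y ^ 2 := q1
    linarith
  have j1 := J_bounds (m := S.κ ^ 2 * QQ ν Y) (by positivity) (by nlinarith)
  have j2 := J_bounds (m := S.κ ^ 2 * Y ^ 2) (by positivity) (by nlinarith [sq_nonneg Y])
  refine ⟨hPP0, ?_, ?_, ?_, ?_, ?_⟩
  · rw [zc_eq, T0]
    have h5 : 9 / 10 * Real.sqrt Y * (1 / 2) ≤ Real.sqrt (PP ν Y) * bJ 0 (S.κ ^ 2 * QQ ν Y) :=
      mul_le_mul hsP1 j1.1 (by norm_num) (Real.sqrt_nonneg _)
    have := mul_le_mul_of_nonneg_left h5 hc.le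
    linarith
  · rw [zc_eq, T0]
    have h5 : Real.sqrt (PP ν Y) * bJ 0 (S.κ ^ 2 * QQ ν Y) ≤ Real.sqrt Y * (3 / 2) :=
      mul_le_mul hsP2 j1.2 (by linarith [j1.1]) hsY.le
    have := mul_le_mul_of_nonneg_left h5 hc.le
    linarith
  · rw [h_T0 S h0 h1, T0]
    have h5 : Real.sqrt Y * (1 / 2) ≤ Real.sqrt Y * bJ 0 (S.κ ^ 2 * Y ^ 2) := mul_le_mul_of_nonneg_left j2.1 hsY.le
    have := mul_le_mul_of_nonneg_left h5 hc.le
    have : 0 < S.A * Real.sqrt S.κ * Real.sqrt Y := by positivity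
    linarith
  · rw [h_T0 S h0 h1, T0]
    have h5 : Real.sqrt Y * bJ 0 (S.κ ^ 2 * Y ^ 2) ≤ Real.sqrt Y * (3 / 2) := mul_le_mul_of_nonneg_left j2.2 hsY.le
    have := mul_le_mul_of_nonneg_left h5 hc.le
    linarith
  · rw [zc_eq, T0]
    have h5 : Real.sqrt (PP ν Y) * (1 / 2) ≤ Real.sqrt (PP ν Y) * bJ 0 (S.κ ^ 2 * QQ ν Y) :=
      mul_le_mul_of_nonneg_left j1.1 (Real.sqrt_nonneg _)
    have := mul_le_mul_of_nonneg_left h5 hc.le
    linarith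

theorem zs_size {ν Y : ℝ} (hν : 4 ≤ ν) (h0 : 0 < Y) (h1 : Y ≤ 1) :
    45 / 100 * (S.A * Real.sqrt S.κ * Real.sqrt Y) ≤ zs S ν Y ∧ zs S ν Y ≤ 3 / 2 * (S.A * Real.sqrt S.κ * Real.sqrt Y) := by
  obtain ⟨_, a, b, c, d, _⟩ := size S hν h0 h1
  have e0 := chi_nonneg (8 * Y + -2)
  have e1 := chi_le_one (8 * Y + -2)
  rw [zs]
  constructor
  · have := mul_le_mul_of_nonneg_right c e0
    have := mul_le_mul_of_nonneg_right a (by linarith : 0 ≤ 1 - chi (8 * Y + -2))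
    linarith
  · have := mul_le_mul_of_nonneg_right d e0
    have := mul_le_mul_of_nonneg_right b (by linarith : 0 ≤ 1 - chi (8 * Y + -2))
    linarith

theorem zc_smooth {ν Y : ℝ} (hν : 0 < ν) (h0 : 0 < PP ν Y) : ContDiffAt ℝ ∞ (zc S ν) Y := by
  have hs : ContDiff ℝ ∞ (fun Y : ℝ => Real.sin (Y / ν)) := Real.contDiff_sin.comp (contDiff_id.div_const ν)
  have hc : ContDiff ℝ ∞ (fun Y : ℝ => Real.cos (Y / ν)) := Real.contDiff_cos.comp (contDiff_id.div_const ν)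
  have h1 : ContDiff ℝ ∞ (PP ν) := contDiff_const.mul (hs.mul hc)
  have h2 : ContDiff ℝ ∞ (QQ ν) := contDiff_const.mul (hs.pow 2)
  have h3 : ContDiffAt ℝ ∞ (fun Y => Real.sqrt (PP ν Y)) Y := h1.contDiffAt.sqrt h0.ne'
  have h4 : ContDiff ℝ ∞ (fun Y => bJ 0 (S.κ ^ 2 * QQ ν Y)) := (bJ_smooth 0).comp (contDiff_const.mul h2)
  exact contDiffAt_const.mul (h3.mul h4.contDiffAt)

theorem chi_lin_smooth (a b Y : ℝ) : ContDiffAt ℝ ∞ (fun Y => chi (a * Y + b)) Y :=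
  (chi_smooth.comp ((contDiff_const.mul contDiff_id).add contDiff_const)).contDiffAt

theorem zs_smooth {ν Y : ℝ} (hν : 4 ≤ ν) (h0 : 0 < Y) : ContDiffAt ℝ ∞ (zs S ν) Y := by
  by_cases h1 : Y ≤ 1
  · exact ((S.smooth h0).mul (chi_lin_smooth 8 (-2) Y)).add
      ((zc_smooth S (by linarith) (size S hν h0 h1).1).mul (contDiffAt_const.sub (chi_lin_smooth 8 (-2) Y)))
  · push Not at h1
    exact (S.smooth h0).congr_of_eventuallyEq (zs_right_ev S (by linarith))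

/-- closeness of the cap profile to the sea profile -/
theorem close {η : ℝ} (hη : 0 < η) : ∃ ν₀ : ℝ, 4 ≤ ν₀ ∧ ∀ ν Y : ℝ, ν₀ ≤ ν → 1 / 4 ≤ Y → Y ≤ 3 / 8 →
    |S.h Y - zc S ν Y| ≤ η ∧ |deriv S.h Y - deriv (zc S ν) Y| ≤ η := by
  set K : Set (ℝ × ℝ × ℝ) := Set.Icc (1 / 8) 1 ×ˢ (Set.Icc 0 2 ×ˢ Set.Icc 0 1) with hK
  have hKc : IsCompact K := isCompact_Icc.prod (isCompact_Icc.prod isCompact_Icc)
  have hpos : ∀ p ∈ K, (0 : ℝ) < p.1 := fun p hp => by have := hp.1.1; linarith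
  have cs : Continuous fun p : ℝ × ℝ × ℝ => Real.sqrt p.1 := Real.continuous_sqrt.comp continuous_fst
  have cb : ∀ n, Continuous fun p : ℝ × ℝ × ℝ => bJ n (S.κ ^ 2 * p.2.2) := fun n =>
    (bJ_smooth n).continuous.comp (continuous_const.mul (continuous_snd.comp continuous_snd))
  have c0 : ContinuousOn (fun p : ℝ × ℝ × ℝ => T0 (S.κ ^ 2) p.1 p.2.2) K := (cs.mul (cb 0)).continuousOn
  have c1 : ContinuousOn (fun p : ℝ × ℝ × ℝ => T1 (S.κ ^ 2) p.1 p.2.1 p.2.2) K := by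
    have hd : ContinuousOn (fun p : ℝ × ℝ × ℝ => p.2.1 / (2 * Real.sqrt p.1)) K :=
      ContinuousOn.div (continuous_fst.comp continuous_snd).continuousOn (continuous_const.mul cs).continuousOn
        (fun p hp => by have := Real.sqrt_pos.2 (hpos p hp); positivity)
    exact (hd.mul (cb 0).continuousOn).add
      ((cs.mul ((cb 1).mul (continuous_const.mul (continuous_const.mul continuous_fst)))).continuousOn)
  set c := S.A * Real.sqrt S.κ with hc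
  have hc0 : 0 < c := c_pos S
  obtain ⟨δ0, hδ0, u0⟩ := Metric.uniformContinuousOn_iff.1 (hKc.uniformContinuousOn_of_continuous c0) (η / c) (by positivity)
  obtain ⟨δ1, hδ1, u1⟩ := Metric.uniformContinuousOn_iff.1 (hKc.uniformContinuousOn_of_continuous c1) (η / c) (by positivity)
  set δ := min δ0 δ1 with hδ
  have hδ' : 0 < δ := lt_min hδ0 hδ1
  refine ⟨max 4 (3 / δ), le_max_left _ _, fun ν Y hν hY0 hY1 => ?_⟩
  have hν4 : 4 ≤ ν := (le_max_left _ _).trans hν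
  have hνδ : 3 / δ ≤ ν := (le_max_right _ _).trans hν
  have hν0 : 0 < ν := by linarith
  have hY : 0 < Y := by linarith
  obtain ⟨s0, c0', p1, p2, q1, q2, d1⟩ := PQ (by linarith : 2 ≤ ν) hY (by linarith)
  have h2ν : 2 / ν ^ 2 < δ := by
    rw [div_lt_iff₀ (by positivity)]
    rw [div_le_iff₀ hδ'] at hνδ
    nlinarith
  have hν2 : 1 / ν ^ 2 ≤ 1 / 16 := by
    have : (16 : ℝ) ≤ ν ^ 2 := by nlinarith
    exact one_div_le_one_div_of_le (by norm_num) this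
  have h22 : 2 / ν ^ 2 = 2 * (1 / ν ^ 2) := by ring
  have hν20 : 0 < 1 / ν ^ 2 := by positivity
  have P1 : PP ν Y ≤ Y := p1
  have P2 : Y - 1 / ν ^ 2 ≤ PP ν Y := by
    have : (1 - 1 / ν ^ 2) * Y ≤ PP ν Y := p2
    nlinarith
  have Q1 : QQ ν Y ≤ Y ^ 2 := q1
  have Q2 : Y ^ 2 - 1 / ν ^ 2 ≤ QQ ν Y := q2
  have Q0 : 0 ≤ QQ ν Y := by rw [QQ]; positivity
  have D1 : 1 - 2 / ν ^ 2 ≤ DD ν Y := d1
  have D2 : DD ν Y ≤ 1 := by
    rw [DD]; nlinarith [Real.sin_sq_add_cos_sq (Y / ν), sq_nonneg (Real.sin (Y / ν))]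
  have hYsq : Y ^ 2 ≤ 1 := pow_le_one₀ hY.le (by linarith)
  have hYsq0 : 0 ≤ Y ^ 2 := sq_nonneg Y
  have m1 : ((PP ν Y, DD ν Y, QQ ν Y) : ℝ × ℝ × ℝ) ∈ K := by
    refine ⟨⟨?_, ?_⟩, ⟨?_, ?_⟩, ⟨?_, ?_⟩⟩ <;> simp only <;> linarith
  have m2 : ((Y, 1, Y ^ 2) : ℝ × ℝ × ℝ) ∈ K := by
    refine ⟨⟨?_, ?_⟩, ⟨?_, ?_⟩, ⟨?_, ?_⟩⟩ <;> simp only <;> linarith
  have hdist : dist ((Y, 1, Y ^ 2) : ℝ × ℝ × ℝ) (PP ν Y, DD ν Y, QQ ν Y) < δ := by
    rw [Prod.dist_eq, Prod.dist_eq, max_lt_iff, max_lt_iff]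
    simp only [Real.dist_eq]
    refine ⟨?_, ?_, ?_⟩
    · rw [abs_of_nonneg (by linarith)]; linarith
    · rw [abs_of_nonneg (by linarith)]; linarith
    · rw [abs_of_nonneg (by linarith)]; linarith
  have v0 := u0 _ m2 _ m1 (hdist.trans_le (min_le_left _ _))
  have v1 := u1 _ m2 _ m1 (hdist.trans_le (min_le_right _ _))
  rw [Real.dist_eq] at v0 v1
  have hPP0 := (size S hν4 hY (by linarith)).1
  constructor
  · rw [h_T0 S hY (by linarith), zc_eq, ← mul_sub, abs_mul, abs_of_pos hc0]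
    have := mul_le_mul_of_nonneg_left v0.le hc0.le
    have e : c * (η / c) = η := by field_simp
    linarith
  · rw [h_T1 S hY (by linarith), (zc_d S hν0 hPP0).deriv, ← mul_sub, abs_mul, abs_of_pos hc0]
    have := mul_le_mul_of_nonneg_left v1.le hc0.le
    have e : c * (η / c) = η := by field_simp
    linarith

/-- the cap profile satisfies the equation up to a small multiple -/
theorem zc_eqn : ∃ C : ℝ, 1 ≤ C ∧ ∀ ν Y : ℝ, 4 ≤ ν → 0 < Y → Y ≤ 1 →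
    |deriv (deriv (zc S ν)) Y + (S.κ ^ 2 + 1 / (4 * Y ^ 2)) * zc S ν Y| ≤ C / ν ^ 2 * zc S ν Y := by
  obtain ⟨C1, hC1⟩ := isCompact_Icc.exists_bound_of_continuousOn (s := Set.Icc (0 : ℝ) (13 / 10)) (bJ_smooth 1).continuous.continuousOn
  have hC10 : 0 ≤ C1 := (norm_nonneg _).trans (hC1 0 ⟨by norm_num, by norm_num⟩)
  refine ⟨1 + 2 * (4 + 5 * C1), by linarith, fun ν Y hν h0 h1 => ?_⟩
  have hν0 : 0 < ν := by linarith
  obtain ⟨hPP0, z1, _, _, _, z2⟩ := size S hν h0 h1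
  obtain ⟨s0, c0, p1, p2, q1, q2, d1⟩ := PQ (by linarith : 2 ≤ ν) h0 h1
  obtain ⟨k1, k2⟩ := κ_sq S
  have hzc : 0 < zc S ν Y := by
    have : 0 < S.A * Real.sqrt S.κ * Real.sqrt Y := mul_pos (c_pos S) (Real.sqrt_pos.2 h0)
    linarith
  -- the second derivative
  have hev : deriv (zc S ν) =ᶠ[𝓝 Y] fun Y => S.A * Real.sqrt S.κ * T1 (S.κ ^ 2) (PP ν Y) (DD ν Y) (QQ ν Y) := by
    have hct : Continuous (PP ν) := by unfold PP; fun_prop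
    filter_upwards [hct.continuousAt.eventually (lt_mem_nhds hPP0)] with t ht
    exact (zc_d S hν0 ht).deriv
  rw [hev.deriv_eq, (zc_dd S hν0 hPP0).deriv]
  have hpot := pot_core hν0 h0 (by rw [div_le_one hν0]; linarith)
  have hQ0 : 0 ≤ QQ ν Y := by rw [QQ]; positivity
  have hY2 : Y ^ 2 ≤ 1 := pow_le_one₀ h0.le h1
  have hQ1 : QQ ν Y ≤ 1 := by
    have : QQ ν Y ≤ Y ^ 2 := q1
    linarith
  have hm1 : S.κ ^ 2 * QQ ν Y ≤ 13 / 10 := by nlinarith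
  have hm0 : 0 ≤ S.κ ^ 2 * QQ ν Y := by positivity
  have j1 := J_bounds hm0 hm1
  have j2 := hC1 _ ⟨hm0, hm1⟩
  rw [Real.norm_eq_abs] at j2
  have hs2 : Real.sin (Y / ν) ^ 2 ≤ 1 / ν ^ 2 := by
    rw [le_div_iff₀ (by positivity)]
    have : ν ^ 2 * Real.sin (Y / ν) ^ 2 ≤ Y ^ 2 := q1
    linarith
  set s2 := Real.sin (Y / ν) ^ 2 with hs2d
  have hs20 : 0 ≤ s2 := sq_nonneg _
  set J0 := bJ 0 (S.κ ^ 2 * QQ ν Y)
  set J1 := bJ 1 (S.κ ^ 2 * QQ ν Y)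
  have hν20 : 0 < 1 / ν ^ 2 := by positivity
  have b1 : |(-(1 / ν ^ 2) + S.κ ^ 2 * s2) * J0 - 4 * S.κ ^ 2 * s2 * J1| ≤ 1 / ν ^ 2 * (4 + 5 * C1) := by
    have a1 : |-(1 / ν ^ 2) + S.κ ^ 2 * s2| ≤ 1 / ν ^ 2 * 2 := by
      have : S.κ ^ 2 * s2 ≤ 103 / 100 * (1 / ν ^ 2) := mul_le_mul k2 hs2 hs20 (by norm_num)
      have : 0 ≤ S.κ ^ 2 * s2 := by positivity
      rw [abs_le]; constructor <;> linarith
    have a2 : |J0| ≤ 3 / 2 := by rw [abs_of_nonneg (by linarith [j1.1])]; exact j1.2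
    have a3 : |4 * S.κ ^ 2 * s2| ≤ 1 / ν ^ 2 * 5 := by
      rw [abs_of_nonneg (by positivity)]
      have : S.κ ^ 2 * s2 ≤ 103 / 100 * (1 / ν ^ 2) := mul_le_mul k2 hs2 hs20 (by norm_num)
      linarith
    have t1 := am' a1 a2
    have t2 := am' a3 j2
    refine (abs_sub _ _).trans ?_
    nlinarith
  have e : -(S.κ ^ 2 + pot ν Y) * zc S ν Y + S.A * Real.sqrt S.κ * Real.sqrt (PP ν Y) *
        ((-(1 / ν ^ 2) + S.κ ^ 2 * s2) * J0 - 4 * S.κ ^ 2 * s2 * J1) + (S.κ ^ 2 + 1 / (4 * Y ^ 2)) * zc S ν Y =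
      -(pot ν Y - 1 / (4 * Y ^ 2)) * zc S ν Y + S.A * Real.sqrt S.κ * Real.sqrt (PP ν Y) *
        ((-(1 / ν ^ 2) + S.κ ^ 2 * s2) * J0 - 4 * S.κ ^ 2 * s2 * J1) := by ring
  rw [e]
  have hAs : 0 ≤ S.A * Real.sqrt S.κ * Real.sqrt (PP ν Y) := mul_nonneg (c_pos S).le (Real.sqrt_nonneg _)
  have u1 : |-(pot ν Y - 1 / (4 * Y ^ 2)) * zc S ν Y| ≤ 1 / ν ^ 2 * zc S ν Y :=
    am' (by rw [abs_neg]; exact hpot) (le_of_eq (abs_of_pos hzc))
  have u2 : |S.A * Real.sqrt S.κ * Real.sqrt (PP ν Y) * ((-(1 / ν ^ 2) + S.κ ^ 2 * s2) * J0 - 4 * S.κ ^ 2 * s2 * J1)| ≤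
      2 * zc S ν Y * (1 / ν ^ 2 * (4 + 5 * C1)) := am' (by rw [abs_of_nonneg hAs]; exact z2) b1
  refine (ad' u1 u2).trans (le_of_eq ?_)
  ring

/-- **estimates for the profile with the cap** -/
theorem zs_eqn {ε₂ : ℝ} (hε₂ : 0 < ε₂) : ∃ ν₀ : ℝ, 4 ≤ ν₀ ∧ ∀ ν Y : ℝ, ν₀ ≤ ν → 0 < Y → Y ≤ 1 →
    |deriv (deriv (zs S ν)) Y + (S.κ ^ 2 + 1 / (4 * Y ^ 2)) * zs S ν Y| ≤ ε₂ * zs S ν Y := by
  obtain ⟨C1, hC1, hz⟩ := zc_eqn S
  obtain ⟨C3, hC3, hchi⟩ := chi_jet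
  have hcpos := c_pos S
  set lo := 45 / 100 * (S.A * Real.sqrt S.κ * (1 / 2)) with hlo
  have hlo0 : 0 < lo := by positivity
  obtain ⟨ν1, hν1, hcl⟩ := close S (η := ε₂ * lo / (200 * C3)) (by positivity)
  refine ⟨max ν1 (2 * C1 / ε₂ + 4), le_max_of_le_left hν1, fun ν Y hν h0 h1 => ?_⟩
  have hνa : ν1 ≤ ν := (le_max_left _ _).trans hν
  have hνb : 2 * C1 / ε₂ + 4 ≤ ν := (le_max_right _ _).trans hν
  have hν4 : 4 ≤ ν := hν1.trans hνa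
  have hν0 : 0 < ν := by linarith
  have hC1ν : C1 / ν ^ 2 ≤ ε₂ / 2 := by
    rw [div_le_iff₀ (by positivity)]
    have h5 : 2 * C1 / ε₂ ≤ ν := by linarith
    rw [div_le_iff₀ hε₂] at h5
    have h6 : ν * ε₂ ≤ ν ^ 2 * ε₂ := by
      have : ν ≤ ν ^ 2 := by nlinarith
      exact mul_le_mul_of_nonneg_right this hε₂.le
    linarith
  obtain ⟨z1, z2⟩ := zs_size S hν4 h0 h1
  have hzs : 0 < zs S ν Y := by
    have : 0 < S.A * Real.sqrt S.κ * Real.sqrt Y := mul_pos hcpos (Real.sqrt_pos.2 h0)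
    linarith
  obtain ⟨hPP0, zc1, _, hh1, _, _⟩ := size S hν4 h0 h1
  have hsY : 0 < Real.sqrt Y := Real.sqrt_pos.2 h0
  have hzc : 0 < zc S ν Y := by
    have : 0 < S.A * Real.sqrt S.κ * Real.sqrt Y := by positivity
    linarith
  have hhp : 0 < S.h Y := by
    have : 0 < S.A * Real.sqrt S.κ * Real.sqrt Y := by positivity
    linarith
  rcases lt_or_ge Y (1 / 4) with ha | ha
  · have hev : zs S ν =ᶠ[𝓝 Y] zc S ν := by
      filter_upwards [Iio_mem_nhds ha] with t ht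
      exact zs_left S (le_of_lt ht)
    rw [hev.deriv.deriv_eq, hev.eq_of_nhds]
    refine (hz ν Y hν4 h0 h1).trans ?_
    exact mul_le_mul_of_nonneg_right (by linarith) hzc.le
  rcases lt_or_ge (3 / 8) Y with hb | hb
  · have hev := zs_right_ev S (ν := ν) hb
    rw [hev.deriv.deriv_eq, hev.eq_of_nhds, S.deriv2_left h0 (by linarith [S.YK_ge])]
    have : -(S.κ ^ 2 + 1 / (4 * Y ^ 2)) * S.h Y + (S.κ ^ 2 + 1 / (4 * Y ^ 2)) * S.h Y = 0 := by ring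
    rw [this, abs_zero]; positivity
  -- the gluing zone
  obtain ⟨cl0, cl1⟩ := hcl ν Y hνa ha hb
  have hsmz : ∀ᶠ t in 𝓝 Y, DifferentiableAt ℝ (zc S ν) t := ev_diffR (zc_smooth S hν0 hPP0)
  have hsmz2 : DifferentiableAt ℝ (deriv (zc S ν)) Y := (deriv_smoothAt (zc_smooth S hν0 hPP0)).differentiableAt (by simp)
  have hchd : ∀ t, HasDerivAt (fun Y => chi (8 * Y + -2)) (8 * deriv chi (8 * t + -2)) t := by
    intro t
    have h5 : HasDerivAt (fun t : ℝ => 8 * t + -2) 8 t := by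
      have := ((hasDerivAt_id t).const_mul (8 : ℝ)).add_const (-2)
      simpa using this
    refine (hd_comp (chi_hasDeriv _) h5).congr_deriv ?_; ring
  have hchd2 : ∀ t, HasDerivAt (fun t => 8 * deriv chi (8 * t + -2)) (64 * deriv (deriv chi) (8 * t + -2)) t := by
    intro t
    have h5 : HasDerivAt (fun t : ℝ => 8 * t + -2) 8 t := by
      have := ((hasDerivAt_id t).const_mul (8 : ℝ)).add_const (-2)
      simpa using this
    refine (hd_cmul 8 (hd_comp (chi_hasDeriv2 _) h5)).congr_deriv ?_; ring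
  have d1 : deriv (zs S ν) =ᶠ[𝓝 Y] fun t => (deriv S.h t * chi (8 * t + -2) + S.h t * (8 * deriv chi (8 * t + -2)))
      + (deriv (zc S ν) t * (1 - chi (8 * t + -2)) + zc S ν t * (0 - 8 * deriv chi (8 * t + -2))) := by
    filter_upwards [hsmz, Ioi_mem_nhds h0] with t ht ht0
    exact (hd_add (hd_mul (S.hasDeriv ht0) (hchd t)) (hd_mul ht.hasDerivAt (hd_sub (hasDerivAt_const t 1) (hchd t)))).deriv
  have d2 := hd_add (hd_add (hd_mul (S.hasDeriv2 h0) (hchd Y)) (hd_mul (S.hasDeriv h0) (hchd2 Y)))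
    (hd_add (hd_mul hsmz2.hasDerivAt (hd_sub (hasDerivAt_const Y 1) (hchd Y)))
      (hd_mul hsmz.self_of_nhds.hasDerivAt (hd_sub (hasDerivAt_const Y 0) (hchd2 Y))))
  rw [d1.deriv_eq, d2.deriv, S.deriv2_left h0 (by linarith [S.YK_ge]), zs]
  have hzY := hz ν Y hν4 h0 h1
  set χ0 := chi (8 * Y + -2) with hχ0
  set χ1 := deriv chi (8 * Y + -2) with hχ1
  set χ2 := deriv (deriv chi) (8 * Y + -2) with hχ2
  have bχ1 : |χ1| ≤ C3 := (hchi _).deriv.val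
  have bχ2 : |χ2| ≤ C3 := (hchi _).deriv.deriv.val
  have hχa : 0 ≤ χ0 := chi_nonneg _
  have hχb : χ0 ≤ 1 := chi_le_one _
  set w := S.κ ^ 2 + 1 / (4 * Y ^ 2) with hw
  set a := S.h Y
  set a1 := deriv S.h Y
  set b := zc S ν Y
  set b1 := deriv (zc S ν) Y
  set b2 := deriv (deriv (zc S ν)) Y
  have e : -w * a * χ0 + a1 * (8 * χ1) + (a1 * (8 * χ1) + a * (64 * χ2)) +
      (b2 * (1 - χ0) + b1 * (0 - 8 * χ1) + (b1 * (0 - 8 * χ1) + b * (0 - 64 * χ2))) + w * (a * χ0 + b * (1 - χ0)) =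
      (1 - χ0) * (b2 + w * b) + 16 * χ1 * (a1 - b1) + 64 * χ2 * (a - b) := by ring
  rw [e]
  have t1 : |(1 - χ0) * (b2 + w * b)| ≤ (1 - χ0) * (ε₂ / 2 * b) := by
    rw [abs_mul, abs_of_nonneg (by linarith : 0 ≤ 1 - χ0)]
    refine mul_le_mul_of_nonneg_left (hzY.trans ?_) (by linarith)
    exact mul_le_mul_of_nonneg_right hC1ν hzc.le
  have t2 : |16 * χ1 * (a1 - b1)| ≤ 16 * C3 * (ε₂ * lo / (200 * C3)) :=
    am' (am' (by norm_num) bχ1) cl1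
  have t3 : |64 * χ2 * (a - b)| ≤ 64 * C3 * (ε₂ * lo / (200 * C3)) :=
    am' (am' (by norm_num) bχ2) cl0
  have hsq : 1 / 2 ≤ Real.sqrt Y := by
    rw [show (1 / 2 : ℝ) = Real.sqrt (1 / 4) by rw [show (1 / 4 : ℝ) = (1 / 2) ^ 2 by norm_num, Real.sqrt_sq (by norm_num)]]
    exact Real.sqrt_le_sqrt ha
  have hloz : lo ≤ a * χ0 + b * (1 - χ0) := by
    have h6 : lo ≤ 45 / 100 * (S.A * Real.sqrt S.κ * Real.sqrt Y) := by
      rw [hlo]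
      have := mul_le_mul_of_nonneg_left hsq hcpos.le
      linarith
    have := mul_le_mul_of_nonneg_right (h6.trans hh1) hχa
    have := mul_le_mul_of_nonneg_right (h6.trans zc1) (by linarith : 0 ≤ 1 - χ0)
    linarith
  have t4 : 16 * C3 * (ε₂ * lo / (200 * C3)) + 64 * C3 * (ε₂ * lo / (200 * C3)) = 80 / 200 * (ε₂ * lo) := by
    field_simp; ring
  refine (ad' (ad' t1 t2) t3).trans ?_
  have h7 : ε₂ * lo ≤ ε₂ * (a * χ0 + b * (1 - χ0)) := mul_le_mul_of_nonneg_left hloz hε₂.le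
  have h8 : (1 - χ0) * (ε₂ / 2 * b) ≤ ε₂ / 2 * (a * χ0 + b * (1 - χ0)) := by
    have : 0 ≤ ε₂ / 2 * (a * χ0) := by positivity
    linarith
  have h9 : 0 ≤ a * χ0 + b * (1 - χ0) := hlo0.le.trans hloz
  have h10 := mul_nonneg hε₂.le h9
  linarith

end Pool.Agent.J6H20.RL
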