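import Mathlib
import Pool.Agent.J6H20.RL.PoleH

/-!
# The function in a cell
-/

set_option autoImplicit false

open Filter Topology
open scoped ContDiff

namespace Pool.Agent.J6H20.RL

theorem resid_congr {κ κ' c c' ξ ξ' R R' : V → ℝ} {x : V} (hκ : κ =ᶠ[𝓝 x] κ') (hc : c =ᶠ[𝓝 x] c') (hξ : ξ =ᶠ[𝓝 x] ξ') (hR : R =ᶠ[𝓝 x] R') :
    resid κ c ξ R =ᶠ[𝓝 x] resid κ' c' ξ' R' := by
  filter_upwards [hκ, hc, hξ.eventuallyEq_nhds, hR.eventuallyEq_nhds] with y h1 h2 h3 h4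
  simp only [resid]
  rw [h1, h2, (pd_congr h3 0).eq_of_nhds, (pd_congr h3 1).eq_of_nhds, (pd_congr h3 2).eq_of_nhds, Lo_congr _ _ _ _ h4, h4.eq_of_nhds]

theorem FF_congr {κ κ' c c' ξ ξ' Ψ Ψ' R R' : V → ℝ} {x : V} (hκ : κ =ᶠ[𝓝 x] κ') (hc : c =ᶠ[𝓝 x] c') (hξ : ξ =ᶠ[𝓝 x] ξ')
    (hΨ : Ψ =ᶠ[𝓝 x] Ψ') (hR : R =ᶠ[𝓝 x] R') : FF κ c ξ Ψ R =ᶠ[𝓝 x] FF κ' c' ξ' Ψ' R' := by
  filter_upwards [resid_congr hκ hc hξ hR, hκ, hξ, hΨ, hR.eventuallyEq_nhds] with y h1 h2 h3 h4 h5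
  simp only [FF, Rc, Hf, Qf]
  rw [h1, h2, h3, h4, h5.eq_of_nhds, (pd_congr h5 0).eq_of_nhds, (pd_congr h5 1).eq_of_nhds, (pd_congr h5 2).eq_of_nhds]

/-- where the residual or the cutoff vanishes nothing is corrected -/
theorem FF_triv {κ c ξ Ψ R : V → ℝ} {x : V} (h : resid κ c ξ R x * Ψ x = 0) : FF κ c ξ Ψ R x = Real.exp (ξ x) * R x := by
  simp only [FF, Rc, Hf]
  rw [h]; ring

/-- cutoffs in a cell -/
noncomputable def wf (Y0 W Y : ℝ) : ℝ := chi (8 * Y + (-(8 * Y0) - 1)) * chi (-8 * Y + (8 * (Y0 + W) - 1))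
noncomputable def ψf (Y0 W Y : ℝ) : ℝ := chi (8 * Y + (-(8 * Y0) - 3)) * chi (-8 * Y + (8 * (Y0 + W) - 3))

theorem wf_zero {Y0 W Y : ℝ} (h : Y - Y0 ≤ 1 / 8 ∨ Y0 + W - Y ≤ 1 / 8) : wf Y0 W Y = 0 := by
  rcases h with h | h
  · rw [wf, chi_zero (t := 8 * Y + (-(8 * Y0) - 1)) (by linarith)]; ring
  · rw [wf, chi_zero (t := -8 * Y + (8 * (Y0 + W) - 1)) (by linarith)]; ring

theorem wf_one {Y0 W Y : ℝ} (h1 : 1 / 4 ≤ Y - Y0) (h2 : 1 / 4 ≤ Y0 + W - Y) : wf Y0 W Y = 1 := by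
  rw [wf, chi_one (by linarith), chi_one (by linarith)]; ring

theorem ψf_zero {Y0 W Y : ℝ} (h : Y - Y0 ≤ 3 / 8 ∨ Y0 + W - Y ≤ 3 / 8) : ψf Y0 W Y = 0 := by
  rcases h with h | h
  · rw [ψf, chi_zero (t := 8 * Y + (-(8 * Y0) - 3)) (by linarith)]; ring
  · rw [ψf, chi_zero (t := -8 * Y + (8 * (Y0 + W) - 3)) (by linarith)]; ring

theorem ψf_one {Y0 W Y : ℝ} (h1 : 1 / 2 ≤ Y - Y0) (h2 : 1 / 2 ≤ Y0 + W - Y) : ψf Y0 W Y = 1 := by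
  rw [ψf, chi_one (by linarith), chi_one (by linarith)]; ring

theorem ψf_mem (Y0 W Y : ℝ) : 0 ≤ ψf Y0 W Y ∧ ψf Y0 W Y ≤ 1 :=
  ⟨mul_nonneg (chi_nonneg _) (chi_nonneg _), mul_le_one₀ (chi_le_one _) (chi_nonneg _) (chi_le_one _)⟩

theorem cut_jet {C3 : ℝ} (hC : 1 ≤ C3) (hchi : ∀ t, Jt 4 C3 chi t) (c1 c2 Y : ℝ) (j : Fin 3) (x : V) :
    JC 2 (16384 * C3 ^ 2) (fun y : V => chi (8 * y j + c1) * chi (-8 * y j + c2)) x := by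
  have h1 : JC 2 (8 ^ 2 * C3) (fun y : V => chi (8 * y j + c1)) x :=
    JC.scG (G := 8) (by norm_num) (F := chi) (by norm_num) chi_smooth.contDiffAt (fun n hn => (hchi _).bd n (by omega))
  have h2 : JC 2 (8 ^ 2 * C3) (fun y : V => chi (-8 * y j + c2)) x :=
    JC.scG (G := 8) (by norm_num) (F := chi) (by norm_num) chi_smooth.contDiffAt (fun n hn => (hchi _).bd n (by omega))
  refine (h1.mul h2).mono (le_of_eq ?_)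
  ring

theorem wf_smooth (Y0 W Y : ℝ) : ContDiffAt ℝ ∞ (wf Y0 W) Y :=
  (chi_lin_smooth _ _ _).mul (chi_lin_smooth _ _ _)

section
variable {η g k m0 α : ℝ} (P : TP η g k m0 α)

/-- phase correction in a cell -/
noncomputable def Φf (a1 a3 Y0 W : ℝ) (y : V) : ℝ := wf Y0 W (y 1) * PhC P a1 a3 y

/-- amplitude in a cell -/
noncomputable def Omf (q Y0 W Y : ℝ) : ℝ := wf Y0 W Y * Real.sin (q * Y + -(q * Y0))

/-- the function in a cell -/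
noncomputable def Fcell {ε₁ : ℝ} (S : Sea ε₁) (a1 a3 q Y0 W ν n : ℝ) : V → ℝ :=
  FF (fun y => kap n ν (y 1)) (ccC P) (xiG P (Φf P a1 a3 Y0 W)) (fun y => ψf Y0 W (y 1))
    (R4 P.b (dT P a1 a3) P.th (Omf q Y0 W) S.h (fun Y => S.h (k * Y)))

/-- the pure function -/
noncomputable def Fpure (h hp : ℝ → ℝ) (T Y : ℝ) : ℝ := Real.exp (-P.lam T) * (P.th T * h Y + (1 - P.th T) * hp Y)

variable {P}

theorem PhC_SA {a1 a3 : ℝ} (h1 : |a1| ≤ 1 / 50) (h3 : |a3| ≤ 1 / 50) (y : V) : SA (PhC P a1 a3) y :=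
  ((cbV (P.A1_sm _)).mul (Ph_SA h1 y)).add ((cbV (P.A3_sm _)).mul (Ph_SA h3 y))

theorem Φf_SA {a1 a3 : ℝ} (h1 : |a1| ≤ 1 / 50) (h3 : |a3| ≤ 1 / 50) (Y0 W : ℝ) (y : V) : SA (Φf P a1 a3 Y0 W) y :=
  (cbV (wf_smooth Y0 W _)).mul (PhC_SA h1 h3 y)

theorem Omf_SA (q Y0 W Y : ℝ) : ContDiffAt ℝ ∞ (Omf q Y0 W) Y := (wf_smooth Y0 W Y).mul (sinO_sm _ _ _)

theorem ev_mid {Y0 W Y c : ℝ} (h1 : c < Y - Y0) (h2 : c < Y0 + W - Y) : ∀ᶠ t in 𝓝 Y, c < t - Y0 ∧ c < Y0 + W - t := by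
  have c1 : Continuous fun t : ℝ => t - Y0 := by fun_prop
  have c2 : Continuous fun t : ℝ => Y0 + W - t := by fun_prop
  exact (c1.continuousAt.eventually (lt_mem_nhds h1)).and (c2.continuousAt.eventually (lt_mem_nhds h2))

/-- in the interior the cell function is `FB` -/
theorem Fcell_FB {ε₁ : ℝ} (S : Sea ε₁) {a1 a3 q Y0 W ν n : ℝ} {x : V} (hk : 1 ≤ k)
    (hY0 : S.YK ≤ Y0) (hy1 : 3 / 8 ≤ x 1 - Y0) (hy2 : 3 / 8 ≤ Y0 + W - x 1) :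
    Fcell P S a1 a3 q Y0 W ν n =ᶠ[𝓝 x] FB P a1 a3 q Y0 (fun y => kap n ν (y 1)) (fun y => ψf Y0 W (y 1)) ∧
    (R4 P.b (dT P a1 a3) P.th (Omf q Y0 W) S.h (fun Y => S.h (k * Y))) =ᶠ[𝓝 x] RB P a1 a3 q (-(q * Y0)) ∧
    xiG P (Φf P a1 a3 Y0 W) =ᶠ[𝓝 x] xiB P a1 a3 := by
  have hK := S.YK_ge
  have ct : ContinuousAt (fun y : V => y 1) x := (coordSA 1 x).continuousAt
  have hev : ∀ᶠ y in 𝓝 x, 1 / 4 < y 1 - Y0 ∧ 1 / 4 < Y0 + W - y 1 :=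
    ct.eventually (ev_mid (by linarith) (by linarith))
  have hξ : xiG P (Φf P a1 a3 Y0 W) =ᶠ[𝓝 x] xiB P a1 a3 := by
    filter_upwards [hev] with y hy
    simp only [xiG, Φf, xiB, wf_one hy.1.le hy.2.le, one_mul]
  have hR : (R4 P.b (dT P a1 a3) P.th (Omf q Y0 W) S.h (fun Y => S.h (k * Y))) =ᶠ[𝓝 x] RB P a1 a3 q (-(q * Y0)) := by
    filter_upwards [hev] with y hy
    have hy1 : S.YK + 1 / 4 ≤ y 1 := by linarith [hy.1]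
    have hky : S.YK + 1 / 4 ≤ k * y 1 := by nlinarith
    simp only [R4, RB, Omf, wf_one hy.1.le hy.2.le, one_mul, S.h_right hy1, S.h_right hky, add_zero]
  exact ⟨FF_congr EventuallyEq.rfl EventuallyEq.rfl hξ EventuallyEq.rfl hR, hR, hξ⟩

/-- hypotheses needed at the walls -/
structure WallH {ε₁ : ℝ} (S : Sea ε₁) (k Ch εw : ℝ) (Y : ℝ) : Prop where
  h0 : 1 / 2 ≤ S.h Y
  h1 : |deriv S.h Y| ≤ Ch
  h2 : |deriv (deriv S.h) Y + S.h Y| ≤ εw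
  hb : |S.h Y| ≤ Ch
  p0 : 1 / 2 ≤ S.h (k * Y)
  p1 : |deriv (fun Y => S.h (k * Y)) Y| ≤ Ch
  p2 : |deriv (deriv (fun Y => S.h (k * Y))) Y + S.h (k * Y)| ≤ 3 * εw
  pb : |S.h (k * Y)| ≤ Ch
  Ypos : 0 < Y
  kpos : 0 < k

theorem hk_smooth {ε₁ : ℝ} (S : Sea ε₁) {Y : ℝ} (hk : 0 < k) (hY : 0 < Y) : ContDiffAt ℝ ∞ (fun Y => S.h (k * Y)) Y :=
  ContDiffAt.comp Y (g := S.h) (f := fun Y : ℝ => k * Y) (S.smooth (mul_pos hk hY)) (contDiffAt_const.mul contDiffAt_id)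

/-- the amplitude near the walls -/
theorem Omf_small {ς q Y0 W η₃ C3 : ℝ} {i0 : ℕ} (H : CellH k m0 α ς i0 q Y0 W η₃) (hC : 1 ≤ C3) (hchi : ∀ t, Jt 4 C3 chi t)
    {Y z : ℝ} (hz : z = Y - Y0 ∨ z = Y0 + W - Y) (hz1 : |z| ≤ 3 / 8) :
    Jt 2 (131072 * C3 ^ 2 * q) (Omf q Y0 W) Y := by
  have hq := H.q_pos
  have hq1 := H.q_le
  have hΩ := H.Om_near hz
  have h1 : JC 2 (|Real.sin (q * Y + -(q * Y0))| + q) (fun y : V => Real.sin (q * y 1 + -(q * Y0))) (fun _ : Fin 3 => Y) :=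
    jOm (k := 1) (x := fun _ : Fin 3 => Y) hq.le (by linarith)
  have h2 := cut_jet hC hchi (-(8 * Y0) - 1) (8 * (Y0 + W) - 1) Y 1 (fun _ : Fin 3 => Y)
  have h3 := h2.mul h1
  have h4 : Jt 2 _ (Omf q Y0 W) Y := JC.to1 (F := Omf q Y0 W) (x := fun _ : Fin 3 => Y) (j := 1) (Omf_SA q Y0 W Y) h3
  refine h4.mono ?_
  have h5 : |Real.sin (q * z)| ≤ q := by
    have := Real.abs_sin_le_abs (x := q * z)
    rw [abs_mul, abs_of_pos hq] at this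
    have h6 : q * |z| ≤ q * 1 := mul_le_mul_of_nonneg_left (by linarith) hq.le
    linarith
  rw [hΩ]
  have h7 : (2 : ℝ) ^ 2 * (16384 * C3 ^ 2 * (|Real.sin (q * z)| + q)) = 65536 * C3 ^ 2 * (|Real.sin (q * z)| + q) := by ring
  rw [h7]
  have h8 : 65536 * C3 ^ 2 * (|Real.sin (q * z)| + q) ≤ 65536 * C3 ^ 2 * (2 * q) := mul_le_mul_of_nonneg_left (by linarith) (by positivity)
  linarith

end

end Pool.Agent.J6H20.RL
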