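import Mathlib
import Pool.Agent.J6H20.RL.CellF

/-!
# The estimate in a cell, all zones
-/

set_option autoImplicit false

open Filter Topology
open scoped ContDiff

namespace Pool.Agent.J6H20.RL

def StatOK (C ε ς η₀ : ℝ) : Prop :=
    ∀ {η g k m0 α : ℝ} (P : TP η g k m0 α) {i0 : ℕ} {q Y0 W η₃ : ℝ} (_ : CellH k m0 α ς i0 q Y0 W η₃) {a1 a3 ηa po : ℝ}
      {κ Ψ : V → ℝ} {x : V}, 0 < η → η ≤ η₀ →
      |a1| ≤ ηa → |a3| ≤ ηa → 32 * ηa ≤ η → (∀ y, JC 4 η (PhC P a1 a3) y) → |k| ≤ 2 → |1 - k ^ 2| ≤ η →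
      JC 2 η (fun y => κ y - (1 - q ^ 2)) x → JC 2 C Ψ x → 0 ≤ Ψ x → Ψ x ≤ 1 → |po| ≤ ε / 2 →
      3 / 8 ≤ x 1 - Y0 → 3 / 8 ≤ Y0 + W - x 1 → (1 / 2 ≤ x 1 - Y0 → 1 / 2 ≤ Y0 + W - x 1 → Ψ x = 1) →
      ((P.env (x 0) ≤ 1 / 4 ∧ (P.th (x 0) = 1 ∨ P.th (x 0) = 0)) ∨ (P.env (x 0) = P.b (x 0) ∧ m0 ≤ P.env (x 0))) →
      ConcB ε P a1 a3 q Y0 κ Ψ po x

def ExactOK (C ε ς g η₂ : ℝ) : Prop :=
    ∀ {η k m0 α : ℝ} (P : TP η g k m0 α) {i0 : ℕ} {q Y0 W η₃ : ℝ} (_ : CellH k m0 α ς i0 q Y0 W η₃) {a1 a3 ηa po : ℝ}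
      {κ Ψ : V → ℝ} {x : V}, 0 < η → η ≤ 1 / 10 → 13 * η ≤ ε / 2 →
      |a1| ≤ ηa → |a3| ≤ ηa → 32 * ηa ≤ η → ηa ≤ 1 / 50 → (∀ y, JC 4 η (PhC P a1 a3) y) → |k| ≤ 2 →
      JC 2 η (fun y => κ y - (1 - q ^ 2)) x → JC 2 η₂ (fun y => κ y - (1 - q ^ 2)) x → JC 2 C Ψ x → 0 ≤ Ψ x → Ψ x ≤ 1 → |po| ≤ ε / 2 →
      3 / 8 ≤ x 1 - Y0 → 3 / 8 ≤ Y0 + W - x 1 → (1 / 2 ≤ x 1 - Y0 → 1 / 2 ≤ Y0 + W - x 1 → Ψ x = 1) →
      ∀ {σ μ θ0 a : ℝ}, |σ| = g → ExactAt P.b P.env P.A1 P.A3 P.th P.lam (x 0) σ μ θ0 →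
      ((θ0 = 1 ∧ μ = 1 ∧ a = a1) ∨ (θ0 = 0 ∧ μ = k ∧ a = a3)) → (μ - σ) ^ 2 - q ^ 2 = (1 - q ^ 2) * ((1 - 9 * a) / (1 - a)) →
      ConcB ε P a1 a3 q Y0 κ Ψ po x

theorem statOK (C ε ς : ℝ) (hC : 3000 ≤ C) (hε : 0 < ε) (hς : 0 < ς) : ∃ η₀ : ℝ, 0 < η₀ ∧ StatOK C ε ς η₀ :=
  zoneB_stat C ε ς hC hε hς

theorem exactOK (C ε ς g : ℝ) (hC : 3000 ≤ C) (hε : 0 < ε) (hς : 0 < ς) (hg : 0 < g) (hg1 : g ≤ 1) : ∃ η₂ : ℝ, 0 < η₂ ∧ ExactOK C ε ς g η₂ :=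
  zoneB_exact C ε ς g hC hε hς hg hg1

/-- constants depending only on the sea -/
structure Cst {ε₁ : ℝ} (ε : ℝ) (S : Sea ε₁) (ς C C3 Cp Ch : ℝ) : Prop where
  ε0 : 0 < ε
  ε1 : ε ≤ 1
  ε₁0 : 0 < ε₁
  ε₁1 : 48 * ε₁ ≤ ε
  C1 : 3000 ≤ C
  C2 : 16384 * C3 ^ 2 ≤ C
  C31 : 1 ≤ C3
  hchi : ∀ t, Jt 4 C3 chi t
  Cp1 : 1 ≤ Cp
  hPh : ∀ a : ℝ, |a| ≤ 1 / 50 → ∀ x : V, JC 4 (Cp * |a|) (Ph a) x
  Ch1 : 1 ≤ Ch
  ς0 : 0 < ς
  s1 : 200 * (131072 * C3 ^ 2) * ς ≤ ε / 16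
  s4 : 16 * (131072 * C3 ^ 2) * ς ≤ 1

/-- constants of a cycle -/
structure Cyc {ε₁ : ℝ} (ε : ℝ) (S : Sea ε₁) (ς C C3 Cp Ch : ℝ) (g η ηa η₀ η₂ k : ℝ) : Prop where
  η0 : 0 < η
  η1 : η ≤ 1 / 10
  ηη₀ : η ≤ η₀
  ηε : 26 * η ≤ ε
  s2 : 50 * (65536 * C3 ^ 2 * η) * Ch ≤ ε / 16
  ηs : 65536 * C3 ^ 2 * η ≤ 1
  ηa0 : 0 ≤ ηa
  ηa1 : 32 * (Cp * ηa) ≤ η
  stat : StatOK C ε ς η₀
  exact : ExactOK C ε ς g η₂
  g0 : 0 < g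
  k1 : 1 ≤ k
  k2 : |1 - k ^ 2| ≤ η

section
variable {η g k m0 α : ℝ} {P : TP η g k m0 α}

theorem Cyc.ηa2 {ε₁ ε ς C C3 Cp Ch ηa η₀ η₂ : ℝ} {S : Sea ε₁} (h0 : Cst ε S ς C C3 Cp Ch) (h : Cyc ε S ς C C3 Cp Ch g η ηa η₀ η₂ k) :
    32 * ηa ≤ η ∧ ηa ≤ 1 / 50 ∧ |k| ≤ 2 := by
  have h1 : ηa ≤ Cp * ηa := le_mul_of_one_le_left h.ηa0 h0.Cp1
  have h2 := h.ηa1
  have h3 := h.η1
  refine ⟨by linarith, by linarith, ?_⟩
  have h4 := (abs_le.1 h.k2).1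
  have h5 := h.k1
  rw [abs_of_nonneg (by linarith)]
  nlinarith

theorem Cyc.PhC {ε₁ ε ς C C3 Cp Ch ηa η₀ η₂ : ℝ} {S : Sea ε₁} (h0 : Cst ε S ς C C3 Cp Ch) (h : Cyc ε S ς C C3 Cp Ch g η ηa η₀ η₂ k)
    {a1 a3 : ℝ} (h1 : |a1| ≤ ηa) (h3 : |a3| ≤ ηa) (y : V) : JC 4 η (PhC P a1 a3) y :=
  jPhC (P := P) (by linarith [h.η1]) h0.hPh h1 h3 (h.ηa2 h0).2.1 (by linarith [h0.Cp1]) h.ηa1 y

/-- upper bound for the ansatz -/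
theorem R_bound {a1 a3 ηa Ch : ℝ} {Om h hp : ℝ → ℝ} {x : V} (hη : η ≤ 1) (h1 : |a1| ≤ ηa) (h3 : |a3| ≤ ηa) (hηa : 32 * ηa ≤ η)
    (hO : |Om (x 1)| ≤ 1) (hh : |h (x 1)| ≤ Ch) (hhp : |hp (x 1)| ≤ Ch) :
    |R4 P.b (dT P a1 a3) P.th Om h hp x| ≤ 2 * (m0 * (1 + α)) + Ch := by
  have henv := P.env_pos (x 0)
  have hel := P.env_le (x 0)
  have vb : |P.b (x 0)| ≤ P.env (x 0) := (jb (P := P) hη (x 0)).val
  have vd : |dT P a1 a3 (x 0)| ≤ P.env (x 0) := (dT_le (P := P) hη h1 h3 hηa (x 0)).trans (mul_le_of_le_one_left henv.le hη)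
  have hm := P.th_mem (x 0)
  have S1 := Real.abs_sin_le_one (x 2)
  have S3 := Real.abs_sin_le_one (3 * x 2)
  have t1 := am' (am' vb hO) S1
  have t2 := am' (am' vd hO) S3
  have t3 : |P.th (x 0) * h (x 1) + (1 - P.th (x 0)) * hp (x 1)| ≤ Ch := by
    refine (abs_add_le _ _).trans ?_
    rw [abs_mul, abs_mul, abs_of_nonneg hm.1, abs_of_nonneg (by linarith : 0 ≤ 1 - P.th (x 0))]
    have := mul_le_mul_of_nonneg_left hh hm.1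
    have := mul_le_mul_of_nonneg_left hhp (by linarith : 0 ≤ 1 - P.th (x 0))
    linarith
  have e : R4 P.b (dT P a1 a3) P.th Om h hp x = P.b (x 0) * Om (x 1) * Real.sin (x 2) + dT P a1 a3 (x 0) * Om (x 1) * Real.sin (3 * x 2)
    + (P.th (x 0) * h (x 1) + (1 - P.th (x 0)) * hp (x 1)) := by simp only [R4, mul_one]
  rw [e]
  exact (ad' (ad' t1 t2) t3).trans (by linarith)

theorem exp_bound {l f : ℝ} (hf : |f| ≤ 1) : Real.exp (-l + f) ≤ 3 * Real.exp (-l) := by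
  rw [Real.exp_add, mul_comm]
  refine mul_le_mul_of_nonneg_right ?_ (Real.exp_pos _).le
  have h1 : Real.exp f ≤ Real.exp 1 := Real.exp_le_exp.2 (abs_le.1 hf).2
  have := Real.exp_one_lt_d9
  linarith

/-- the conclusion in flat coordinates -/
def Conc (ε B κ po l : ℝ) (F : V → ℝ) (x : V) : Prop :=
  SA F x ∧ |Fl κ po F x| ≤ 5 * ε * |F x| ∧ |F x| ≤ B * Real.exp (-l)

theorem Conc.congr {ε B κ po l : ℝ} {F G : V → ℝ} {x : V} (h : Conc ε B κ po l F x) (e : G =ᶠ[𝓝 x] F) : Conc ε B κ po l G x := by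
  obtain ⟨h1, h2, h3⟩ := h
  exact ⟨h1.congr_of_eventuallyEq e, by rw [Fl_congr _ _ e, e.eq_of_nhds]; exact h2, by rw [e.eq_of_nhds]; exact h3⟩

/-- **the estimate in a cell** -/
theorem cell_main {ε₁ ε ς C C3 Cp Ch ηa η₀ η₂ q Y0 W η₃ ν n a1 a3 : ℝ} {S : Sea ε₁} {i0 : ℕ}
    (h0 : Cst ε S ς C C3 Cp Ch) (hc : Cyc ε S ς C C3 Cp Ch g η ηa η₀ η₂ k) (H : CellH k m0 α ς i0 q Y0 W η₃) (hY0 : S.YK ≤ Y0)
    (h1 : |a1| ≤ ηa) (h3 : |a3| ≤ ηa)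
    (r1 : (1 - g) ^ 2 - q ^ 2 = (1 - q ^ 2) * ((1 - 9 * a1) / (1 - a1)))
    (r3 : (k + g) ^ 2 - q ^ 2 = (1 - q ^ 2) * ((1 - 9 * a3) / (1 - a3)))
    {x : V} (hκ : JC 2 (min η η₂) (fun y => kap n ν (y 1) - (1 - q ^ 2)) x) (hpo : |pot ν (x 1)| ≤ ε / 2)
    (hy1 : 0 < x 1 - Y0) (hy2 : 0 < Y0 + W - x 1)
    (hw : (x 1 - Y0 < 3 / 8 ∨ Y0 + W - x 1 < 3 / 8) → WallH S k Ch ε₁ (x 1)) :
    Conc ε (10 * (2 * (m0 * (1 + α)) + Ch)) (kap n ν (x 1)) (pot ν (x 1)) (P.lam (x 0)) (Fcell P S a1 a3 q Y0 W ν n) x := by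
  obtain ⟨ηa2, ηa3, hk2⟩ := hc.ηa2 h0
  have hη0 := hc.η0
  have hη1 : η ≤ 1 := by linarith [hc.η1]
  have hPh := hc.PhC (P := P) h0 h1 h3
  have hq := H.q_pos
  have hq1 := H.q_le
  have hα := H.α0
  have hm0 := H.m0_pos
  have hB : 0 ≤ 2 * (m0 * (1 + α)) + Ch := by have := h0.Ch1; positivity
  have hκη := hκ.mono (min_le_left η η₂)
  have hκη2 := hκ.mono (min_le_right η η₂)
  have hφ := (hPh x).val
  by_cases hz : x 1 - Y0 < 3 / 8 ∨ Y0 + W - x 1 < 3 / 8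
  · -- near the walls
    have hW := hw hz
    have hz' : ∃ z, (z = x 1 - Y0 ∨ z = Y0 + W - x 1) ∧ |z| ≤ 3 / 8 := by
      rcases hz with hz | hz
      · exact ⟨_, Or.inl rfl, by rw [abs_of_pos hy1]; exact hz.le⟩
      · exact ⟨_, Or.inr rfl, by rw [abs_of_pos hy2]; exact hz.le⟩
    obtain ⟨z, hz2, hz3⟩ := hz'
    have hO := Omf_small H h0.C31 h0.hchi hz2 hz3
    have hΦ : JC 2 (65536 * C3 ^ 2 * η) (Φf P a1 a3 Y0 W) x := by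
      have := (cut_jet h0.C31 h0.hchi (-(8 * Y0) - 1) (8 * (Y0 + W) - 1) (x 1) 1 x).mul ((hPh x).le (by norm_num : 2 ≤ 4))
      refine this.mono (le_of_eq ?_)
      ring
    have hΨ : (fun y : V => ψf Y0 W (y 1)) =ᶠ[𝓝 x] fun _ => 0 := by
      have ct : ContinuousAt (fun y : V => y 1) x := (coordSA 1 x).continuousAt
      rcases hz with hz | hz
      · have c1 : Continuous fun t : ℝ => t - Y0 := by fun_prop
        filter_upwards [ct.eventually (c1.continuousAt.eventually (gt_mem_nhds hz))] with y hy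
        exact ψf_zero (Or.inl (le_of_lt hy))
      · have c1 : Continuous fun t : ℝ => Y0 + W - t := by fun_prop
        filter_upwards [ct.eventually (c1.continuousAt.eventually (gt_mem_nhds hz))] with y hy
        exact ψf_zero (Or.inr (le_of_lt hy))
    have hηη : η ≤ 65536 * C3 ^ 2 * η := by
      have : 1 ≤ C3 ^ 2 := one_le_pow₀ h0.C31
      have : 1 ≤ 65536 * C3 ^ 2 := by linarith
      exact le_mul_of_one_le_left hη0.le this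
    have hκ2 : |kap n ν (x 1)| ≤ 2 := by
      have h5 := hκη.val
      have h6 : |1 - q ^ 2| ≤ 1 := by rw [abs_le]; constructor <;> nlinarith
      have e : kap n ν (x 1) = (kap n ν (x 1) - (1 - q ^ 2)) + (1 - q ^ 2) := by ring
      rw [e]; exact (ad' h5 h6).trans (by linarith)
    have hCo : (1 : ℝ) ≤ 131072 * C3 ^ 2 := by have : 1 ≤ C3 ^ 2 := one_le_pow₀ h0.C31; linarith
    obtain ⟨u1, u2, u3, u4⟩ := zoneA (P := P) (Co := 131072 * C3 ^ 2) (η' := 65536 * C3 ^ 2 * η) (κ := fun y => kap n ν (y 1))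
      (po := pot ν (x 1)) hη0.le hηη hc.ηs h1 h3 ηa2 (Φf_SA (by linarith) (by linarith) Y0 W) hΦ hκ2 hq.le (H.env_q (P := P) (x 0)) h0.ς0.le
      hCo h0.Ch1 (Omf_SA q Y0 W _) (S.smooth hW.Ypos) (hk_smooth S hW.kpos hW.Ypos) hO.val hO.deriv.val hO.deriv.deriv.val
      hW.hb hW.h1 hW.h2 hW.pb hW.p1 hW.p2 hW.h0 hW.p0 hΨ h0.ε₁0.le h0.s1 hc.s2 (by linarith [h0.ε₁1]) h0.s4 hpo
    refine ⟨u1, u2, u3.trans ?_⟩
    have hOm1 : |Omf q Y0 W (x 1)| ≤ 1 := by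
      rw [Omf, abs_mul]
      have h5 : |wf Y0 W (x 1)| ≤ 1 := by
        rw [wf, abs_mul]; exact mul_le_one₀ (chi_abs _) (abs_nonneg _) (chi_abs _)
      exact mul_le_one₀ h5 (abs_nonneg _) (Real.abs_sin_le_one _)
    have hRb := R_bound (P := P) (h := S.h) (hp := fun Y => S.h (k * Y)) hη1 h1 h3 ηa2 hOm1 hW.hb hW.pb
    have hexp : Real.exp (xiG P (Φf P a1 a3 Y0 W) x) ≤ 3 * Real.exp (-P.lam (x 0)) :=
      exp_bound (hΦ.val.trans hc.ηs)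
    have := mul_le_mul hexp hRb (abs_nonneg _) (by positivity)
    have : 0 ≤ Real.exp (-P.lam (x 0)) * (2 * (m0 * (1 + α)) + Ch) := by positivity
    linarith
  · push Not at hz
    obtain ⟨e1, e2, e3⟩ := Fcell_FB (P := P) S (a1 := a1) (a3 := a3) (q := q) (ν := ν) (n := n) hc.k1 hY0 hz.1 hz.2
    have hΨj : JC 2 C (fun y : V => ψf Y0 W (y 1)) x :=
      (cut_jet h0.C31 h0.hchi (-(8 * Y0) - 3) (8 * (Y0 + W) - 3) (x 1) 1 x).mono h0.C2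
    obtain ⟨m1, m2⟩ := ψf_mem Y0 W (x 1)
    have hconc : ConcB ε P a1 a3 q Y0 (fun y => kap n ν (y 1)) (fun y => ψf Y0 W (y 1)) (pot ν (x 1)) x := by
      have hs : ((P.env (x 0) ≤ 1 / 4 ∧ (P.th (x 0) = 1 ∨ P.th (x 0) = 0)) ∨ (P.env (x 0) = P.b (x 0) ∧ m0 ≤ P.env (x 0))) →
          ConcB ε P a1 a3 q Y0 (fun y => kap n ν (y 1)) (fun y => ψf Y0 W (y 1)) (pot ν (x 1)) x := fun hph =>
        hc.stat P H hη0 hc.ηη₀ h1 h3 ηa2 hPh hk2 hc.k2 hκη hΨj m1 m2 hpo hz.1 hz.2 (fun a b => ψf_one a b) hph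
      rcases P.phase (x 0) with h | h | h | h
      · exact hs (Or.inl h)
      · exact hs (Or.inr h)
      · exact hc.exact P H hη0 hc.η1 (by linarith [hc.ηε]) h1 h3 ηa2 ηa3 hPh hk2 hκη hκη2 hΨj m1 m2 hpo hz.1 hz.2 (fun a b => ψf_one a b)
          (abs_of_pos hc.g0) h (Or.inl ⟨rfl, rfl, rfl⟩) r1
      · refine hc.exact P H hη0 hc.η1 (by linarith [hc.ηε]) h1 h3 ηa2 ηa3 hPh hk2 hκη hκη2 hΨj m1 m2 hpo hz.1 hz.2 (fun a b => ψf_one a b)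
          (by rw [abs_neg, abs_of_pos hc.g0]) h (Or.inr ⟨rfl, rfl, rfl⟩) ?_
        rw [sub_neg_eq_add]; exact r3
    obtain ⟨c1, c2, c3⟩ := hconc
    have hfin : Conc ε (10 * (2 * (m0 * (1 + α)) + Ch)) (kap n ν (x 1)) (pot ν (x 1)) (P.lam (x 0))
        (FB P a1 a3 q Y0 (fun y => kap n ν (y 1)) (fun y => ψf Y0 W (y 1))) x := by
      refine ⟨c1, c2, c3.trans ?_⟩
      have hRb : |RB P a1 a3 q (-(q * Y0)) x| ≤ 2 * (m0 * (1 + α)) + Ch := by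
        refine R_bound (P := P) hη1 h1 h3 ηa2 (Real.abs_sin_le_one _) ?_ ?_
        · exact (Real.abs_cos_le_one _).trans h0.Ch1
        · exact (Real.abs_cos_le_one _).trans h0.Ch1
      have hexp : Real.exp (xiB P a1 a3 x) ≤ 3 * Real.exp (-P.lam (x 0)) := exp_bound (hφ.trans hη1)
      have := mul_le_mul hexp hRb (abs_nonneg _) (by positivity)
      have : 0 ≤ Real.exp (-P.lam (x 0)) * (2 * (m0 * (1 + α)) + Ch) := by positivity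
      linarith
    exact hfin.congr e1

/-- the pure function as a flat function -/
noncomputable def FA (P : TP η g k m0 α) {ε₁ : ℝ} (S : Sea ε₁) : V → ℝ :=
  FF (fun _ => 0) (ccC P) (xiG P (fun _ => 0)) (fun _ => 0) (R4 P.b (dT P 0 0) P.th (fun _ => 0) S.h (fun Y => S.h (k * Y)))

theorem FA_eq {ε₁ : ℝ} (S : Sea ε₁) (y : V) : FA P S y = Fpure P S.h (fun Y => S.h (k * Y)) (y 0) (y 1) := by
  rw [FA, FF_triv (by ring), Fpure]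
  simp only [xiG, R4, add_zero]
  ring

/-- **the estimate at the walls** -/
theorem wall_main {ε₁ ε ς C C3 Cp Ch ηa η₀ η₂ ν : ℝ} {S : Sea ε₁}
    (h0 : Cst ε S ς C C3 Cp Ch) (hc : Cyc ε S ς C C3 Cp Ch g η ηa η₀ η₂ k) (hm0 : 0 < m0) (hα : 0 ≤ α)
    {x : V} (hpo : |pot ν (x 1)| ≤ ε / 2) (hW : WallH S k Ch ε₁ (x 1)) :
    Conc ε (10 * (2 * (m0 * (1 + α)) + Ch)) (kap (0 : ℕ) ν (x 1)) (pot ν (x 1)) (P.lam (x 0)) (FA P S) x := by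
  have hη0 := hc.η0
  have hη1 : η ≤ 1 := by linarith [hc.η1]
  have hηη : η ≤ 65536 * C3 ^ 2 * η := by
    have : 1 ≤ C3 ^ 2 := one_le_pow₀ h0.C31
    have : 1 ≤ 65536 * C3 ^ 2 := by linarith
    exact le_mul_of_one_le_left hη0.le this
  obtain ⟨ηa2, ηa3, hk2⟩ := hc.ηa2 h0
  have hCo : (1 : ℝ) ≤ 131072 * C3 ^ 2 := by have : 1 ≤ C3 ^ 2 := one_le_pow₀ h0.C31; linarith
  have hz : JC 2 (65536 * C3 ^ 2 * η) (fun _ : V => (0 : ℝ)) x :=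
    ⟨contDiffAt_const, JB.mono (by positivity) JB.zero⟩
  obtain ⟨u1, u2, u3, u4⟩ := zoneA (P := P) (a1 := 0) (a3 := 0) (ηa := ηa) (Co := 131072 * C3 ^ 2) (q := 0) (η' := 65536 * C3 ^ 2 * η) (κ := fun _ => 0)
      (Ψ := fun _ => 0) (Om := fun _ => 0)
      (po := pot ν (x 1)) hη0.le hηη hc.ηs (by rw [abs_zero]; exact hc.ηa0) (by rw [abs_zero]; exact hc.ηa0) ηa2 zero_SA hz (by norm_num) le_rfl
      (by have := h0.ς0; rw [mul_zero]; positivity) h0.ς0.le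
      hCo h0.Ch1 contDiffAt_const (S.smooth hW.Ypos) (hk_smooth S hW.kpos hW.Ypos) (by simp) (by simp) (by simp)
      hW.hb hW.h1 hW.h2 hW.pb hW.p1 hW.p2 hW.h0 hW.p0 EventuallyEq.rfl h0.ε₁0.le h0.s1 hc.s2 (by linarith [h0.ε₁1]) h0.s4 hpo
  have hkap : kap (0 : ℕ) ν (x 1) = 0 := by rw [kap]; simp
  rw [hkap]
  refine ⟨u1, u2, u3.trans ?_⟩
  have hB : 0 ≤ 2 * (m0 * (1 + α)) + Ch := by have := h0.Ch1; positivity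
  have hRb := R_bound (P := P) (a1 := 0) (a3 := 0) (ηa := ηa) (Om := fun _ => 0) (x := x) (h := S.h) (hp := fun Y => S.h (k * Y)) hη1 (by rw [abs_zero]; exact hc.ηa0) (by rw [abs_zero]; exact hc.ηa0) ηa2 (by simp) hW.hb hW.pb
  have hexp : Real.exp (xiG P (fun _ => 0) x) ≤ 3 * Real.exp (-P.lam (x 0)) := exp_bound (by simp)
  have := mul_le_mul hexp hRb (abs_nonneg _) (by positivity)
  have : 0 ≤ Real.exp (-P.lam (x 0)) * (2 * (m0 * (1 + α)) + Ch) := by positivity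
  linarith

end

end Pool.Agent.J6H20.RL
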