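import Mathlib
import Pool.Agent.J6H20.RL.CellG

/-!
# The core, all zones
-/

set_option autoImplicit false

open Filter Topology
open scoped ContDiff

namespace Pool.Agent.J6H20.RL

/-- constants of the sea -/
structure SC {ε₁ : ℝ} (S : Sea ε₁) (Cb cn cp : ℝ) : Prop where
  Cb1 : 1 ≤ Cb
  hb : ∀ k ≤ 3, ∀ Y, 1 / 8 ≤ Y → |iteratedDeriv k S.h Y| ≤ Cb
  cn0 : 0 < cn
  cn1 : cn ≤ 1
  nd : ∀ Y, 1 / 4 ≤ Y → cn ≤ S.h Y ^ 2 + deriv S.h Y ^ 2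
  cp0 : 0 < cp
  cp1 : cp ≤ 1 / 2
  pos : ∀ Y, 1 / 2 ≤ Y → Y ≤ 112 / 100 → cp ≤ S.h Y

theorem exists_SC {ε₁ : ℝ} (S : Sea ε₁) : ∃ Cb cn cp : ℝ, SC S Cb cn cp := by
  obtain ⟨Cb, hCb, hb⟩ := S.bounds 3
  obtain ⟨cn, h1, h2, h3⟩ := S.nondeg
  obtain ⟨y0, hy0, hmin⟩ := isCompact_Icc.exists_isMinOn (s := Set.Icc (1 / 2 : ℝ) (112 / 100)) ⟨1 / 2, by norm_num, by norm_num⟩
    (f := S.h) (fun y hy => (S.smooth (by linarith [hy.1])).continuousAt.continuousWithinAt)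
  have hp : 0 < S.h y0 := S.pos (by linarith [hy0.1]) hy0.2
  refine ⟨Cb, cn, min (S.h y0) (1 / 2), hCb, hb, h1, h2, h3, lt_min hp (by norm_num), min_le_right _ _, fun Y ha hb => ?_⟩
  exact (min_le_left _ _).trans (hmin ⟨ha, hb⟩)

def CoreOK (C cnd ε ηs : ℝ) : Prop :=
    ∀ {η g k m0 α : ℝ} (P : TP η g k m0 α) {κs Ch ε₁ po cp : ℝ} {h hp : ℝ → ℝ} {κ Ψ : V → ℝ} {x : V}, 0 ≤ η → η ≤ 1 →
      1 ≤ Ch → 200 * Ch ≤ C → 2000 * η * Ch ≤ ηs → 2000 * η * Ch ≤ ε * cp → η + 4 * ε₁ + |po - 1 / (4 * x 1 ^ 2)| ≤ ε →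
      Jt 3 Ch h (x 1) → Jt 3 Ch hp (x 1) → |1 - k ^ 2| ≤ η → |1 - κs ^ 2| ≤ ε₁ → |κs ^ 2| ≤ 2 → 1 / 2 ≤ x 1 →
      (∀ᶠ Y in 𝓝 (x 1), ContDiffAt ℝ ∞ h Y) → (∀ᶠ Y in 𝓝 (x 1), ContDiffAt ℝ ∞ hp Y) →
      (∀ᶠ Y in 𝓝 (x 1), deriv (deriv h) Y = -(κs ^ 2 + 1 / (4 * Y ^ 2)) * h Y) →
      (∀ᶠ Y in 𝓝 (x 1), deriv (deriv hp) Y = -(k ^ 2 * κs ^ 2 + 1 / (4 * Y ^ 2)) * hp Y) →
      cnd ≤ (P.th (x 0) * h (x 1) + (1 - P.th (x 0)) * hp (x 1)) ^ 2 + (P.th (x 0) * deriv h (x 1) + (1 - P.th (x 0)) * deriv hp (x 1)) ^ 2 →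
      JC 2 C κ x → 0 ≤ κ x → JC 2 C Ψ x → 0 ≤ Ψ x → Ψ x ≤ 1 → (Ψ x = 1 ∨ cp ≤ |P.th (x 0) * h (x 1) + (1 - P.th (x 0)) * hp (x 1)|) →
      SA (FF κ (cK P κs) (xi0 P) Ψ (RG P h hp)) x ∧
      |Fl (κ x) po (FF κ (cK P κs) (xi0 P) Ψ (RG P h hp)) x| ≤ 5 * ε * |FF κ (cK P κs) (xi0 P) Ψ (RG P h hp) x| ∧
      |FF κ (cK P κs) (xi0 P) Ψ (RG P h hp) x| ≤ 2 * (Real.exp (xi0 P x) * |RG P h hp x|)

theorem coreOK (C cnd ε : ℝ) (hC : 1 ≤ C) (hc : 0 < cnd) (hε : 0 < ε) : ∃ ηs : ℝ, 0 < ηs ∧ CoreOK C cnd ε ηs :=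
  coreB C cnd ε hC hc hε

def ZsOK {ε₁ : ℝ} (S : Sea ε₁) (ε₂ ν₀ : ℝ) : Prop := ∀ ν Y : ℝ, ν₀ ≤ ν → 0 < Y → Y ≤ 1 →
    |deriv (deriv (zs S ν)) Y + (S.κ ^ 2 + 1 / (4 * Y ^ 2)) * zs S ν Y| ≤ ε₂ * zs S ν Y

/-- constants for the core -/
structure CoC {ε₁ : ℝ} (ε : ℝ) (S : Sea ε₁) (C3 Cb cn cp C ηs ε₂ ν₀ : ℝ) (η k : ℝ) : Prop where
  sc : SC S Cb cn cp
  core : CoreOK C (cn / 2) ε ηs
  zs : ZsOK S (ε₂ / 2) ν₀
  ν₀4 : 4 ≤ ν₀
  ε₂0 : 0 ≤ ε₂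
  ε₁0 : 0 < ε₁
  hchi : ∀ t, Jt 4 C3 chi t
  C31 : 1 ≤ C3
  CC3 : 16384 * C3 ^ 2 ≤ C
  CCb : 1600 * Cb ≤ C
  η0 : 0 ≤ η
  η1 : 16000 * η * Cb ≤ ηs
  η2 : 16000 * η * Cb ≤ ε * cp
  η3 : 32 * η + 4 * ε₁ + ε₂ ≤ ε / 2
  η4 : η * Cb ≤ ε₁
  ηle : η ≤ 1 / 10
  ε1 : ε ≤ 1
  k1 : 1 ≤ k
  kK : (k - 1) * (S.YK + 1) ≤ 1 / 16
  kn : 8 * Cb ^ 2 * ((k - 1) * (S.YK + 1)) ≤ cn
  k2 : |1 - k ^ 2| ≤ η
  ν₀K : 2 * (S.YK + 1) ≤ ν₀
  ν₀ε : 2 ≤ ε * ν₀ ^ 2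

theorem mix {a b θ D B : ℝ} (h1 : |b - a| ≤ D) (h2 : |a| ≤ B) (h3 : 0 ≤ θ) (h4 : θ ≤ 1) :
    a ^ 2 - 2 * B * D ≤ (θ * a + (1 - θ) * b) ^ 2 := by
  set t := (1 - θ) * (b - a) with ht
  have e : θ * a + (1 - θ) * b = a + t := by rw [ht]; ring
  have h5 : |t| ≤ D := by
    rw [ht, abs_mul, abs_of_nonneg (by linarith)]
    have := mul_le_mul (show 1 - θ ≤ 1 by linarith) h1 (abs_nonneg _) zero_le_one
    linarith
  have h6 : |a * t| ≤ B * D := by rw [abs_mul]; exact mul_le_mul h2 h5 (abs_nonneg _) ((abs_nonneg _).trans h2)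
  have h7 := (abs_le.1 h6).1
  rw [e]; nlinarith [sq_nonneg t]

section
variable {ε₁ ε C3 Cb cn cp C ηs ε₂ ν₀ η g k m0 α : ℝ} {S : Sea ε₁} {P : TP η g k m0 α}

theorem CoC.kle (h : CoC ε S C3 Cb cn cp C ηs ε₂ ν₀ η k) : k ≤ 101 / 100 ∧ (k - 1) ≤ 1 / 112 := by
  have h1 := h.kK
  have h2 := h.k1
  have h3 := S.YK_ge
  constructor <;> nlinarith

theorem SC.hv {Cb cn cp Y : ℝ} {S : Sea ε₁} (h : SC S Cb cn cp) (hY : 1 / 8 ≤ Y) : |S.h Y| ≤ Cb ∧ |deriv S.h Y| ≤ Cb ∧ |deriv (deriv S.h) Y| ≤ Cb := by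
  refine ⟨?_, ?_, ?_⟩
  · have := h.hb 0 (by norm_num) Y hY; rwa [iteratedDeriv_zero] at this
  · have := h.hb 1 (by norm_num) Y hY; rwa [iteratedDeriv_one] at this
  · have := h.hb 2 (by norm_num) Y hY; rwa [iteratedDeriv_succ', iteratedDeriv_one] at this

/-- derivatives of the scaled profile -/
theorem hk_d {F : ℝ → ℝ} {k Y : ℝ} (h : ContDiffAt ℝ ∞ F (k * Y)) :
    deriv (fun Y => F (k * Y)) Y = k * deriv F (k * Y) ∧ deriv (deriv (fun Y => F (k * Y))) Y = k ^ 2 * deriv (deriv F) (k * Y) := by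
  have hF' : ContDiffAt ℝ ∞ F (k * Y + 0) := by rw [add_zero]; exact h
  have e1 := sc_deriv_ev (g := k) (c := 0) (F := F) (t := Y) hF'
  simp only [add_zero] at e1
  refine ⟨e1.eq_of_nhds, ?_⟩
  rw [e1.deriv_eq]
  have h2 : ContDiffAt ℝ ∞ (deriv F) (k * Y + 0) := by rw [add_zero]; exact deriv_smoothAt h
  have e2 := (sc_deriv_ev (g := k) (c := 0) (F := deriv F) (t := Y) h2).eq_of_nhds
  simp only [add_zero] at e2
  have h3 : DifferentiableAt ℝ (fun y => deriv F (k * y)) Y := by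
    have : DifferentiableAt ℝ (deriv F) (k * Y) := (deriv_smoothAt h).differentiableAt (by simp)
    exact DifferentiableAt.comp Y (g := deriv F) (f := fun y : ℝ => k * y) this (by fun_prop)
  have e3 : deriv (fun y => k * deriv F (k * y)) Y = k * deriv (fun y => deriv F (k * y)) Y := deriv_const_mul k h3
  rw [e3, e2]; ring

theorem jets_h (h : CoC ε S C3 Cb cn cp C ηs ε₂ ν₀ η k) {Y : ℝ} (hY : 1 / 8 ≤ Y) :
    Jt 3 (8 * Cb) S.h Y ∧ Jt 3 (8 * Cb) (fun Y => S.h (k * Y)) Y := by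
  have hCb := h.sc.Cb1
  have hk1 := h.k1
  have hk := h.kle.1
  have hkY : 1 / 8 ≤ k * Y := by nlinarith
  constructor
  · exact ⟨S.smooth (by linarith), fun n hn => (h.sc.hb n hn Y hY).trans (by linarith)⟩
  · have h1 : JC 3 (2 ^ 3 * Cb) (fun y : V => S.h (k * y 0 + 0)) (fun _ : Fin 3 => Y) :=
      JC.scG (G := 2) (by norm_num) (F := S.h) (by rw [abs_of_pos (by linarith)]; linarith) (by rw [add_zero]; exact S.smooth (by linarith))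
        (fun n hn => by rw [add_zero]; exact h.sc.hb n hn _ hkY)
    simp only [add_zero] at h1
    have := JC.to1 (F := fun Y => S.h (k * Y)) (x := fun _ : Fin 3 => Y) (j := 0) (hk_smooth S (by linarith) (by linarith)) h1
    exact this.mono (by linarith)

/-- closeness of the scaled profile -/
theorem hk_close (h : CoC ε S C3 Cb cn cp C ηs ε₂ ν₀ η k) {Y : ℝ} (hY : 1 / 8 ≤ Y) (hY2 : Y ≤ S.YK) :
    |S.h (k * Y) - S.h Y| ≤ Cb * ((k - 1) * (S.YK + 1)) ∧ |k * deriv S.h (k * Y) - deriv S.h Y| ≤ Cb * ((k - 1) * (S.YK + 1)) := by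
  have hCb := h.sc.Cb1
  have hk1 := h.k1
  have hkY : Y ≤ k * Y := by nlinarith
  have m0 : Y ∈ Set.Icc Y (k * Y) := ⟨le_rfl, hkY⟩
  have m1 : k * Y ∈ Set.Icc Y (k * Y) := ⟨hkY, le_rfl⟩
  have a1 : |S.h (k * Y) - S.h Y| ≤ Cb * |k * Y - Y| :=
    mv_abs (f := S.h) (f' := deriv S.h) m0 m1 (fun t ht => S.hasDeriv (by linarith [ht.1])) (fun t ht => (h.sc.hv (by linarith [ht.1])).2.1)
  have a2 : |deriv S.h (k * Y) - deriv S.h Y| ≤ Cb * |k * Y - Y| :=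
    mv_abs (f := deriv S.h) (f' := deriv (deriv S.h)) m0 m1 (fun t ht => S.hasDeriv2 (by linarith [ht.1]))
      (fun t ht => (h.sc.hv (by linarith [ht.1])).2.2)
  have e : |k * Y - Y| ≤ (k - 1) * S.YK := by
    rw [abs_of_nonneg (by linarith)]
    have := mul_le_mul_of_nonneg_left hY2 (by linarith : 0 ≤ k - 1)
    linarith
  have h5 : Cb * |k * Y - Y| ≤ Cb * ((k - 1) * S.YK) := mul_le_mul_of_nonneg_left e (by linarith)
  have h6 : 0 ≤ Cb * (k - 1) := mul_nonneg (by linarith) (by linarith)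
  refine ⟨by linarith, ?_⟩
  have e2 : k * deriv S.h (k * Y) - deriv S.h Y = (k - 1) * deriv S.h (k * Y) + (deriv S.h (k * Y) - deriv S.h Y) := by ring
  have h7 : |(k - 1) * deriv S.h (k * Y)| ≤ (k - 1) * Cb := by
    rw [abs_mul, abs_of_nonneg (by linarith)]
    exact mul_le_mul_of_nonneg_left (h.sc.hv (by linarith)).2.1 (by linarith)
  rw [e2]
  exact (ad' h7 a2).trans (by linarith)

/-- the hypotheses at the first wall -/
theorem wall_core (h : CoC ε S C3 Cb cn cp C ηs ε₂ ν₀ η k) {Y : ℝ} (hY : |Y - S.YK| ≤ 3 / 8) : WallH S k (8 * Cb) ε₁ Y := by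
  have hCb := h.sc.Cb1
  have hk1 := h.k1
  have hk := h.kle.1
  have hK := S.YK_ge
  obtain ⟨y1, y2⟩ := abs_le.1 hY
  have hY8 : 1 / 8 ≤ Y := by linarith
  have hkY : Y ≤ k * Y := by nlinarith
  have hkY2 : k * Y ≤ Y + 1 / 16 := by
    have := mul_le_mul_of_nonneg_left (show Y ≤ S.YK + 1 by linarith) (by linarith : 0 ≤ k - 1)
    linarith [h.kK]
  obtain ⟨w1, w2⟩ := S.window Y (by rw [abs_le]; constructor <;> (simp only [Sea.YK] at y1 y2; linarith))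
  have hkw : |k * Y - 2 * Real.pi * S.ia| ≤ 1 / 2 := by
    simp only [Sea.YK] at y1 y2
    rw [abs_le]; constructor <;> linarith
  obtain ⟨w3, w4⟩ := S.window (k * Y) hkw
  obtain ⟨v1, v2, v3⟩ := h.sc.hv hY8
  obtain ⟨u1, u2, u3⟩ := h.sc.hv (Y := k * Y) (by linarith)
  obtain ⟨d1, d2⟩ := hk_d (F := S.h) (k := k) (Y := Y) (S.smooth (by linarith))
  refine ⟨w1, by linarith, w2, by linarith, w3, ?_, ?_, by linarith, by linarith, by linarith⟩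
  · rw [d1, abs_mul, abs_of_pos (by linarith : 0 < k)]
    have := mul_le_mul (show k ≤ 2 by linarith) u2 (abs_nonneg _) (by norm_num)
    linarith
  · rw [d2]
    have e : k ^ 2 * deriv (deriv S.h) (k * Y) + S.h (k * Y) = k ^ 2 * (deriv (deriv S.h) (k * Y) + S.h (k * Y)) + (1 - k ^ 2) * S.h (k * Y) := by ring
    have hk2 : |k ^ 2| ≤ 2 := by rw [abs_of_nonneg (sq_nonneg _)]; nlinarith
    rw [e]
    have t1 := am' hk2 w4
    have t2 := am' h.k2 u1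
    exact (ad' t1 t2).trans (by linarith [h.η4])

/-- the hypotheses at the other walls -/
theorem wall_cell (h : CoC ε S C3 Cb cn cp C ηs ε₂ ν₀ η k) {Y z Yj : ℝ} (hYj : S.YK + 1 ≤ Yj) (hY : Y = Yj + z) (hz : |z| ≤ 3 / 8)
    (hc : ∀ z, Real.cos (Yj + z) = Real.cos z) (hck : ∀ z, Real.cos (k * Yj + z) = Real.cos z) : WallH S k (8 * Cb) ε₁ Y := by
  have hCb := h.sc.Cb1
  have hk1 := h.k1
  have hk := h.kle.1
  have hK := S.YK_ge
  obtain ⟨y1, y2⟩ := abs_le.1 hz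
  have hY8 : S.YK + 1 / 2 < Y := by linarith
  have hkY : Y ≤ k * Y := by nlinarith
  have cosb : ∀ t : ℝ, |t| ≤ 1 / 2 → 1 / 2 ≤ Real.cos t := fun t ht => cos_ge_half (by linarith)
  have e1 : S.h Y = Real.cos z := by rw [S.h_right (by linarith), hY, hc]
  have e2 : S.h (k * Y) = Real.cos (k * z) := by rw [S.h_right (by linarith), hY, mul_add, hck]
  obtain ⟨v1, v2, v3⟩ := h.sc.hv (Y := Y) (by linarith)
  obtain ⟨u1, u2, u3⟩ := h.sc.hv (Y := k * Y) (by linarith)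
  obtain ⟨d1, d2⟩ := hk_d (F := S.h) (k := k) (Y := Y) (S.smooth (by linarith))
  have hε := h.ε₁0
  have hkz : |k * z| ≤ 1 / 2 := by
    rw [abs_mul, abs_of_pos (by linarith : 0 < k)]
    have := mul_le_mul hk hz (abs_nonneg _) (by norm_num)
    linarith
  refine ⟨?_, by linarith, ?_, by linarith, ?_, ?_, ?_, by linarith, by linarith, by linarith⟩
  · rw [e1]; exact cosb z (by linarith)
  · rw [S.deriv2_right (by linarith)]; simp; exact hε.le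
  · rw [e2]; exact cosb _ hkz
  · rw [d1, abs_mul, abs_of_pos (by linarith : 0 < k)]
    have := mul_le_mul (show k ≤ 2 by linarith) u2 (abs_nonneg _) (by norm_num)
    linarith
  · rw [d2, S.deriv2_right (by linarith)]
    have e : k ^ 2 * -S.h (k * Y) + S.h (k * Y) = (1 - k ^ 2) * S.h (k * Y) := by ring
    rw [e]
    exact (am' h.k2 u1).trans (by linarith [h.η4])

/-- the cutoff in the core -/
noncomputable def Ψc {ε₁ : ℝ} (S : Sea ε₁) (y : V) : ℝ := chi (2 * y 1 + -1) * chi (-8 * y 1 + (8 * S.YK - 3))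

/-- the function in the core -/
noncomputable def FC {η g k m0 α : ℝ} (P : TP η g k m0 α) {ε₁ : ℝ} (S : Sea ε₁) (ν : ℝ) : V → ℝ :=
  FF (fun _ => 0) (cK P S.κ) (xi0 P) (Ψc S) (RG P (zs S ν) (fun Y => zs S (k * ν) (k * Y)))

theorem RG_le {h hp : ℝ → ℝ} {x : V} {M : ℝ} (h1 : |h (x 1)| ≤ M) (h2 : |hp (x 1)| ≤ M) : |RG P h hp x| ≤ M := by
  have hm := P.th_mem (x 0)
  rw [RG_val]
  refine (abs_add_le _ _).trans ?_
  rw [abs_mul, abs_mul, abs_of_nonneg hm.1, abs_of_nonneg (by linarith : 0 ≤ 1 - P.th (x 0))]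
  have := mul_le_mul_of_nonneg_left h1 hm.1
  have := mul_le_mul_of_nonneg_left h2 (by linarith : 0 ≤ 1 - P.th (x 0))
  linarith

theorem κs_bd (hε : 0 < ε₁) : |1 - S.κ ^ 2| ≤ ε₁ ∧ |S.κ ^ 2| ≤ 2 := by
  obtain ⟨k1, k2⟩ := κ_sq S
  have := S.κ2
  refine ⟨?_, ?_⟩
  · rw [abs_le]; constructor <;> linarith
  · rw [abs_of_nonneg (by linarith)]; linarith

/-- the pole zone -/
theorem core_pole (h : CoC ε S C3 Cb cn cp C ηs ε₂ ν₀ η k) {ν : ℝ} (hν : ν₀ ≤ ν) {x : V} (h0 : 0 < x 1) (h1 : x 1 < 1 / 2) :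
    Conc ε (4 * (Cb + 2 * (S.A * Real.sqrt S.κ))) 0 (pot ν (x 1)) (P.lam (x 0)) (FC P S ν) x ∧
    FC P S ν =ᶠ[𝓝 x] fun y => Real.exp (-P.lam (y 0)) * (P.th (y 0) * zs S ν (y 1) + (1 - P.th (y 0)) * zs S (k * ν) (k * y 1)) := by
  have hη0 := h.η0
  have hk1 := h.k1
  have hk := h.kle.1
  have hν4 : 4 ≤ ν := h.ν₀4.trans hν
  have hkν : ν ≤ k * ν := by nlinarith
  have hkY : x 1 ≤ k * x 1 := by nlinarith
  have hkY2 : k * x 1 ≤ 1 := by nlinarith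
  have hc := c_pos S
  obtain ⟨a1, a2⟩ := zs_size S hν4 h0 (by linarith : x 1 ≤ 1)
  obtain ⟨b1, b2⟩ := zs_size S (ν := k * ν) (by linarith) (Y := k * x 1) (by linarith) hkY2
  have hs0 : 0 < Real.sqrt (x 1) := Real.sqrt_pos.2 h0
  have hsm : Real.sqrt (x 1) ≤ Real.sqrt (k * x 1) := Real.sqrt_le_sqrt hkY
  have hsk : Real.sqrt (k * x 1) ≤ 11 / 10 * Real.sqrt (x 1) := by
    have h5 : Real.sqrt (k * x 1) ≤ Real.sqrt ((11 / 10) ^ 2 * x 1) := Real.sqrt_le_sqrt (by nlinarith)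
    have h6 : Real.sqrt ((11 / 10) ^ 2 * x 1) = 11 / 10 * Real.sqrt (x 1) := by
      rw [Real.sqrt_mul (by norm_num), Real.sqrt_sq (by norm_num)]
    linarith
  have hs1 : Real.sqrt (x 1) ≤ 1 := Real.sqrt_le_one.2 (by linarith)
  set c := S.A * Real.sqrt S.κ with hcd
  have hcs : c * Real.sqrt (x 1) ≤ c * Real.sqrt (k * x 1) := mul_le_mul_of_nonneg_left hsm hc.le
  have hcs2 : c * Real.sqrt (k * x 1) ≤ c * (11 / 10 * Real.sqrt (x 1)) := mul_le_mul_of_nonneg_left hsk hc.le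
  have hcs0 : 0 < c * Real.sqrt (x 1) := by positivity
  have hcs1 : c * Real.sqrt (x 1) ≤ c * 1 := mul_le_mul_of_nonneg_left hs1 hc.le
  have hΨ : Ψc S =ᶠ[𝓝 x] fun _ => 0 := by
    have ct : ContinuousAt (fun y : V => y 1) x := (coordSA 1 x).continuousAt
    filter_upwards [ct.eventually (gt_mem_nhds h1)] with y hy
    have hy' : y 1 < 1 / 2 := hy
    rw [Ψc, chi_zero (by linarith)]; ring
  have smp : ContDiffAt ℝ ∞ (fun Y => zs S (k * ν) (k * Y)) (x 1) := by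
    have := zs_smooth S (ν := k * ν) (Y := k * x 1) (by linarith) (by linarith)
    exact ContDiffAt.comp (x 1) (g := zs S (k * ν)) (f := fun Y : ℝ => k * Y) this (contDiffAt_const.mul contDiffAt_id)
  obtain ⟨e1, e2⟩ := hk_d (F := zs S (k * ν)) (k := k) (Y := x 1) (zs_smooth S (by linarith) (by linarith))
  have d1 := h.zs ν (x 1) hν h0 (by linarith)
  have d2 := h.zs (k * ν) (k * x 1) (by linarith) (by linarith) hkY2
  have hν₀ := h.ν₀4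
  have hpo : |pot ν (x 1) - 1 / (4 * x 1 ^ 2)| ≤ ε / 2 := by
    have h5 := pot_core (ν := ν) (by linarith) h0 (by rw [div_le_one (by linarith)]; linarith)
    refine h5.trans ?_
    have h6 : ν₀ ^ 2 ≤ ν ^ 2 := by nlinarith
    have h7 := h.ν₀ε
    have hεp : 0 < ε := by
      by_contra hcon
      push Not at hcon
      have := mul_nonpos_of_nonpos_of_nonneg hcon (sq_nonneg ν₀)
      linarith
    rw [div_le_iff₀ (by positivity)]
    have := mul_le_mul_of_nonneg_left h6 hεp.le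
    linarith
  obtain ⟨κb1, κb2⟩ := κs_bd (S := S) h.ε₁0
  have hk2 : k ^ 2 ≤ 2 := by nlinarith
  obtain ⟨u1, u2, u3, u4⟩ := poleA (P := P) (κs := S.κ) (ε := ε) (ε₁ := ε₁) (ε₂ := ε₂) (po := pot ν (x 1)) (h := zs S ν)
    (hp := fun Y => zs S (k * ν) (k * Y)) (κ := fun _ => 0) (Ψ := Ψc S) (x := x) hη0 (by linarith [h.ηle]) h.k2 κb1 κb2 (zs_smooth S hν4 h0) smp
    (by linarith) (by linarith) (by linarith) (by linarith)
    (d1.trans (mul_le_mul_of_nonneg_right (by linarith [h.ε₂0]) (by linarith)))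
    (by
      rw [e2]
      have e : k ^ 2 * deriv (deriv (zs S (k * ν))) (k * x 1) + (k ^ 2 * S.κ ^ 2 + 1 / (4 * x 1 ^ 2)) * zs S (k * ν) (k * x 1) =
          k ^ 2 * (deriv (deriv (zs S (k * ν))) (k * x 1) + (S.κ ^ 2 + 1 / (4 * (k * x 1) ^ 2)) * zs S (k * ν) (k * x 1)) := by
        have : k ≠ 0 := by linarith
        field_simp
      rw [e, abs_mul, abs_of_nonneg (sq_nonneg k)]
      have h8 := mul_le_mul hk2 d2 (abs_nonneg _) (by norm_num)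
      linarith)
    hΨ (by linarith [h.η3]) h.ε₂0 h.ε₁0.le
  have hxi : xi0 P x = -P.lam (x 0) := by simp [xi0, xiG]
  refine ⟨⟨u1, u2, u3.trans ?_⟩, ?_⟩
  · rw [hxi]
    have hR : |RG P (zs S ν) (fun Y => zs S (k * ν) (k * Y)) x| ≤ Cb + 2 * c :=
      RG_le (by rw [abs_of_pos (by linarith)]; linarith [h.sc.Cb1]) (by rw [abs_of_pos (by linarith)]; linarith [h.sc.Cb1])
    have := mul_le_mul_of_nonneg_left hR (Real.exp_pos (-P.lam (x 0))).le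
    have : 0 ≤ Real.exp (-P.lam (x 0)) * (Cb + 2 * c) := mul_nonneg (Real.exp_pos _).le (by linarith [h.sc.Cb1])
    linarith
  · refine u4.trans (Eventually.of_forall fun y => ?_)
    simp only [RG_val, xi0, xiG, add_zero]

end

end Pool.Agent.J6H20.RL
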