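import Mathlib
import Pool.Agent.J6H20.RL.CoreG

/-!
# The core, remaining zones
-/

set_option autoImplicit false

open Filter Topology
open scoped ContDiff

namespace Pool.Agent.J6H20.RL

section
variable {ε₁ ε C3 Cb cn cp C ηs ε₂ ν₀ η g k m0 α : ℝ} {S : Sea ε₁} {P : TP η g k m0 α}

theorem CoC.ε0 (h : CoC ε S C3 Cb cn cp C ηs ε₂ ν₀ η k) : 0 < ε := by
  have h7 := h.ν₀ε
  by_contra hcon
  push Not at hcon
  have := mul_nonpos_of_nonpos_of_nonneg hcon (sq_nonneg ν₀)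
  linarith

theorem CoC.pot_ok (h : CoC ε S C3 Cb cn cp C ηs ε₂ ν₀ η k) {ν Y : ℝ} (hν : ν₀ ≤ ν) (h0 : 0 < Y) (h1 : Y ≤ S.YK + 1) :
    |pot ν Y - 1 / (4 * Y ^ 2)| ≤ ε / 2 := by
  have hν4 := h.ν₀4
  have h5 := pot_core (ν := ν) (by linarith) h0 (by rw [div_le_one (by linarith)]; linarith [h.ν₀K])
  refine h5.trans ?_
  have h6 : ν₀ ^ 2 ≤ ν ^ 2 := by nlinarith
  have h7 := h.ν₀ε
  have hεp := h.ε0
  have hνp : 0 < ν := by linarith
  rw [div_le_iff₀ (by positivity)]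
  have := mul_le_mul_of_nonneg_left h6 hεp.le
  linarith

/-- the middle of the core -/
theorem core_mid (h : CoC ε S C3 Cb cn cp C ηs ε₂ ν₀ η k) {ν : ℝ} (hν : ν₀ ≤ ν) {x : V} (h0 : 1 / 2 ≤ x 1) (h1 : x 1 ≤ S.YK - 3 / 8) :
    Conc ε (4 * (Cb + 2 * (S.A * Real.sqrt S.κ))) 0 (pot ν (x 1)) (P.lam (x 0)) (FC P S ν) x := by
  have hη0 := h.η0
  have hk1 := h.k1
  have hk := h.kle.1
  have hν4 : 4 ≤ ν := h.ν₀4.trans hν
  have hCb := h.sc.Cb1
  have hK := S.YK_ge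
  have hC31 := h.C31
  have hkY : x 1 ≤ k * x 1 := by nlinarith
  have hkY2 : k * x 1 ≤ x 1 + 1 / 16 := by
    have := mul_le_mul_of_nonneg_left (show x 1 ≤ S.YK + 1 by linarith) (by linarith : 0 ≤ k - 1)
    linarith [h.kK]
  have ct : ContinuousAt (fun y : V => y 1) x := (coordSA 1 x).continuousAt
  -- replace the profiles
  have hR : (RG P (zs S ν) (fun Y => zs S (k * ν) (k * Y))) =ᶠ[𝓝 x] RG P S.h (fun Y => S.h (k * Y)) := by
    filter_upwards [ct.eventually (lt_mem_nhds (show (3 : ℝ) / 8 < x 1 by linarith))] with y hy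
    have hy' : 3 / 8 < y 1 := hy
    have hy2 : 3 / 8 ≤ k * y 1 := by nlinarith
    simp only [RG_val]
    rw [zs_right S hy'.le, zs_right S hy2]
  have hF : FC P S ν =ᶠ[𝓝 x] FF (fun _ => 0) (cK P S.κ) (xi0 P) (Ψc S) (RG P S.h (fun Y => S.h (k * Y))) :=
    FF_congr EventuallyEq.rfl EventuallyEq.rfl EventuallyEq.rfl EventuallyEq.rfl hR
  refine Conc.congr ?_ hF
  obtain ⟨jh, jhp⟩ := jets_h h (Y := x 1) (by linarith)
  obtain ⟨κb1, κb2⟩ := κs_bd (S := S) h.ε₁0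
  have hm := P.th_mem (x 0)
  have evh : ∀ᶠ Y in 𝓝 (x 1), 0 < Y ∧ Y < S.YK - 1 / 4 ∧ k * Y < S.YK - 1 / 4 := by
    have c1 : Continuous fun t : ℝ => k * t := by fun_prop
    exact (lt_mem_nhds (show (0 : ℝ) < x 1 by linarith)).and ((gt_mem_nhds (show x 1 < S.YK - 1 / 4 by linarith)).and
      (c1.continuousAt.eventually (gt_mem_nhds (show k * x 1 < S.YK - 1 / 4 by linarith))))
  have sm1 : ∀ᶠ Y in 𝓝 (x 1), ContDiffAt ℝ ∞ S.h Y := evh.mono fun Y hY => S.smooth hY.1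
  have sm2 : ∀ᶠ Y in 𝓝 (x 1), ContDiffAt ℝ ∞ (fun Y => S.h (k * Y)) Y := evh.mono fun Y hY => hk_smooth S (by linarith) hY.1
  have e1 : ∀ᶠ Y in 𝓝 (x 1), deriv (deriv S.h) Y = -(S.κ ^ 2 + 1 / (4 * Y ^ 2)) * S.h Y := evh.mono fun Y hY => S.deriv2_left hY.1 hY.2.1
  have e2 : ∀ᶠ Y in 𝓝 (x 1), deriv (deriv (fun Y => S.h (k * Y))) Y = -(k ^ 2 * S.κ ^ 2 + 1 / (4 * Y ^ 2)) * S.h (k * Y) := by
    filter_upwards [evh] with Y hY
    have hkp : 0 < k * Y := mul_pos (by linarith) hY.1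
    rw [(hk_d (F := S.h) (k := k) (Y := Y) (S.smooth hkp)).2, S.deriv2_left hkp hY.2.2]
    have h5 : k ≠ 0 := by linarith
    have h6 := hY.1.ne'
    field_simp
  obtain ⟨cl1, cl2⟩ := hk_close h (Y := x 1) (by linarith) (by linarith)
  set D := Cb * ((k - 1) * (S.YK + 1)) with hD
  obtain ⟨v1, v2, v3⟩ := h.sc.hv (Y := x 1) (by linarith)
  have hnd : cn / 2 ≤ (P.th (x 0) * S.h (x 1) + (1 - P.th (x 0)) * S.h (k * x 1)) ^ 2 +
      (P.th (x 0) * deriv S.h (x 1) + (1 - P.th (x 0)) * deriv (fun Y => S.h (k * Y)) (x 1)) ^ 2 := by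
    rw [(hk_d (F := S.h) (k := k) (Y := x 1) (S.smooth (by nlinarith))).1]
    have m1 := mix cl1 v1 hm.1 hm.2
    have m2 := mix cl2 v2 hm.1 hm.2
    have n1 := h.sc.nd (x 1) (by linarith)
    have n2 : 2 * Cb * D + 2 * Cb * D ≤ cn / 2 := by
      have := h.kn
      rw [hD]
      have e : 2 * Cb * (Cb * ((k - 1) * (S.YK + 1))) + 2 * Cb * (Cb * ((k - 1) * (S.YK + 1))) = (8 * Cb ^ 2 * ((k - 1) * (S.YK + 1))) / 2 := by ring
      rw [e]; linarith
    linarith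
  have jΨ : JC 2 C (Ψc S) x := by
    have h1 : JC 2 (2 ^ 2 * C3) (fun y : V => chi (2 * y 1 + -1)) x :=
      JC.scG (G := 2) (by norm_num) (F := chi) (by norm_num) chi_smooth.contDiffAt (fun n hn => (h.hchi _).bd n (by omega))
    have h2 : JC 2 (8 ^ 2 * C3) (fun y : V => chi (-8 * y 1 + (8 * S.YK - 3))) x :=
      JC.scG (G := 8) (by norm_num) (F := chi) (by norm_num) chi_smooth.contDiffAt (fun n hn => (h.hchi _).bd n (by omega))
    refine (h1.mul h2).mono ?_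
    have := h.CC3
    nlinarith
  have j0 : JC 2 C (fun _ : V => (0 : ℝ)) x := by
    have h9 := JC.const (k := 2) (c := (0 : ℝ)) (x := x)
    rw [abs_zero] at h9
    exact JC.mono (by linarith [h.CCb]) h9
  have Ψ0 : 0 ≤ Ψc S x := mul_nonneg (chi_nonneg _) (chi_nonneg _)
  have Ψ1 : Ψc S x ≤ 1 := mul_le_one₀ (chi_le_one _) (chi_nonneg _) (chi_le_one _)
  have hpick : ∀ {a b c : ℝ}, c ≤ a → c ≤ b → c ≤ |P.th (x 0) * a + (1 - P.th (x 0)) * b| := fun {a b c} ha hb => by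
    refine le_trans ?_ (le_abs_self _)
    have := mul_le_mul_of_nonneg_left ha hm.1
    have := mul_le_mul_of_nonneg_left hb (by linarith : 0 ≤ 1 - P.th (x 0))
    linarith
  have hwin : Ψc S x = 1 ∨ cp ≤ |P.th (x 0) * S.h (x 1) + (1 - P.th (x 0)) * S.h (k * x 1)| := by
    rcases le_total (x 1) 1 with h5 | h5
    · right
      exact hpick (h.sc.pos _ h0 (by linarith)) (h.sc.pos _ (by linarith) (by linarith))
    · rcases le_total (x 1) (S.YK - 1 / 2) with h6 | h6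
      · left
        rw [Ψc, chi_one (by linarith), chi_one (by linarith)]; ring
      · right
        have w1 := (S.window (x 1) (by simp only [Sea.YK] at h6 h1; rw [abs_le]; constructor <;> linarith)).1
        have w2 := (S.window (k * x 1) (by simp only [Sea.YK] at h6 h1; rw [abs_le]; constructor <;> linarith)).1
        exact hpick (h.sc.cp1.trans w1) (h.sc.cp1.trans w2)
  obtain ⟨u1, u2, u3⟩ := h.core P (κs := S.κ) (Ch := 8 * Cb) (ε₁ := ε₁) (po := pot ν (x 1)) (cp := cp) (h := S.h)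
    (hp := fun Y => S.h (k * Y)) (κ := fun _ => 0) (Ψ := Ψc S) (x := x) hη0 (by linarith [h.ηle]) (by linarith) (by linarith [h.CCb])
    (by linarith [h.η1]) (by linarith [h.η2])
    (by have := h.pot_ok hν (show 0 < x 1 by linarith) (by linarith); linarith [h.η3, h.ε₂0])
    jh jhp h.k2 κb1 κb2 h0 sm1 sm2 e1 e2 hnd j0 le_rfl jΨ Ψ0 Ψ1 hwin
  have hxi : xi0 P x = -P.lam (x 0) := by simp [xi0, xiG]
  refine ⟨u1, u2, u3.trans ?_⟩
  rw [hxi]
  have hR : |RG P S.h (fun Y => S.h (k * Y)) x| ≤ Cb :=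
    RG_le v1 (h.sc.hv (by linarith)).1
  have := mul_le_mul_of_nonneg_left hR (Real.exp_pos (-P.lam (x 0))).le
  have : 0 ≤ Real.exp (-P.lam (x 0)) * Cb := mul_nonneg (Real.exp_pos _).le (by linarith)
  have : 0 ≤ Real.exp (-P.lam (x 0)) * (S.A * Real.sqrt S.κ) := mul_nonneg (Real.exp_pos _).le (c_pos S).le
  linarith

/-- next to the first wall the core function is the pure function -/
theorem core_right (h : CoC ε S C3 Cb cn cp C ηs ε₂ ν₀ η k) {ν : ℝ} {x : V} (h0 : S.YK - 3 / 8 < x 1) :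
    FC P S ν =ᶠ[𝓝 x] FA P S := by
  have hk1 := h.k1
  have hK := S.YK_ge
  have ct : ContinuousAt (fun y : V => y 1) x := (coordSA 1 x).continuousAt
  filter_upwards [ct.eventually (lt_mem_nhds h0)] with y hy
  have hy' : S.YK - 3 / 8 < y 1 := hy
  have hy2 : 3 / 8 ≤ k * y 1 := by nlinarith
  rw [FA_eq, Fpure, FC, FF_triv (by rw [Ψc, chi_zero (t := -8 * y 1 + (8 * S.YK - 3)) (by linarith)]; ring), RG_val]
  simp only [xi0, xiG, add_zero]
  rw [zs_right S (by linarith : 3 / 8 ≤ y 1), zs_right S hy2]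

end

end Pool.Agent.J6H20.RL
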