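import Mathlib
import Pool.Agent.J6H20.RL.NC

/-!
# Polar coordinates in `R^4 = C^2`
-/

set_option autoImplicit false

open Filter Topology
open scoped ContDiff

namespace Pool.Agent.J6H20.RL

section chain

variable {A : Type*} [NormedAddCommGroup A] [NormedSpace ℝ A]

/-- directional derivative -/
noncomputable def dd (e : A) (u : A → ℝ) : A → ℝ := fun y => fderiv ℝ u y e

theorem dd_congr {u v : A → ℝ} {x e : A} (h : u =ᶠ[𝓝 x] v) : dd e u =ᶠ[𝓝 x] dd e v := by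
  filter_upwards [h.fderiv (𝕜 := ℝ)] with y hy
  simp only [dd, hy]

theorem single_sum (v : V) : v = ∑ a : Fin 3, v a • (Pi.single a 1 : V) := by
  ext i; fin_cases i <;> simp [Fin.sum_univ_three]

/-- first derivative of a composition -/
theorem dd_comp {F : V → ℝ} {P : A → V} {y e : A} (hF : DifferentiableAt ℝ F (P y))
    (hP : DifferentiableAt ℝ P y) :
    dd e (fun z => F (P z)) y = ∑ a : Fin 3, pd a F (P y) * dd e (fun z => P z a) y := by
  have h1 : HasFDerivAt (fun z => F (P z)) ((fderiv ℝ F (P y)).comp (fderiv ℝ P y)) y :=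
    hF.hasFDerivAt.comp y hP.hasFDerivAt
  have h2 : ∀ a, dd e (fun z => P z a) y = fderiv ℝ P y e a := by
    intro a
    have h3 : HasFDerivAt (fun z => P z a)
        ((ContinuousLinearMap.proj (R := ℝ) (φ := fun _ : Fin 3 => ℝ) a).comp (fderiv ℝ P y)) y :=
      (ContinuousLinearMap.proj (R := ℝ) (φ := fun _ : Fin 3 => ℝ) a).hasFDerivAt.comp y hP.hasFDerivAt
    rw [dd, h3.fderiv]; rfl
  simp only [dd] at h2 ⊢
  rw [h1.fderiv, ContinuousLinearMap.comp_apply, single_sum (fderiv ℝ P y e), map_sum]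
  refine Finset.sum_congr rfl fun a _ => ?_
  rw [map_smul, smul_eq_mul, h2, mul_comm]
  rfl

theorem dd_mul {u v : A → ℝ} {x e : A} (hu : DifferentiableAt ℝ u x) (hv : DifferentiableAt ℝ v x) :
    dd e (fun y => u y * v y) x = dd e u x * v x + u x * dd e v x := by
  simp only [dd]
  rw [fderiv_fun_mul hu hv]
  simp only [add_apply, smul_apply, smul_eq_mul]
  ring

theorem ev_diff' {u : A → ℝ} {x : A} (h : ContDiffAt ℝ ∞ u x) : ∀ᶠ y in 𝓝 x, DifferentiableAt ℝ u y := by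
  have h1 : ContDiffAt ℝ 1 u x := h.of_le (by exact_mod_cast le_top)
  exact (h1.eventually (by simp)).mono fun y hy => hy.differentiableAt (by simp)

theorem dd_smooth {u : A → ℝ} {x : A} (h : ContDiffAt ℝ ∞ u x) (e : A) : ContDiffAt ℝ ∞ (dd e u) x := by
  have h1 : ContDiffAt ℝ ∞ (fderiv ℝ u) x := h.fderiv_right (by simp)
  exact h1.clm_apply contDiffAt_const

theorem dd_sum {u : Fin 3 → A → ℝ} {x e : A} (hu : ∀ a, DifferentiableAt ℝ (u a) x) :
    dd e (fun y => ∑ a, u a y) x = ∑ a, dd e (u a) x := by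
  simp only [dd]
  rw [fderiv_fun_sum (fun a _ => hu a)]
  simp

/-- second derivative of a composition -/
theorem dd2_comp {F : V → ℝ} {P : A → V} {y e : A} (hF : SA F (P y)) (hP : ContDiffAt ℝ ∞ P y) :
    dd e (dd e (fun z => F (P z))) y = ∑ a : Fin 3, ((∑ b : Fin 3, pd b (pd a F) (P y) * dd e (fun z => P z b) y)
      * dd e (fun z => P z a) y + pd a F (P y) * dd e (dd e (fun z => P z a)) y) := by
  have hPa : ∀ a, ContDiffAt ℝ ∞ (fun z => P z a) y := fun a =>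
    (ContinuousLinearMap.proj (R := ℝ) (φ := fun _ : Fin 3 => ℝ) a).contDiff.contDiffAt.comp y hP
  have hPev : ∀ᶠ z in 𝓝 y, DifferentiableAt ℝ P z := by
    have h1 : ContDiffAt ℝ 1 P y := hP.of_le (by exact_mod_cast le_top)
    exact (h1.eventually (by simp)).mono fun y hy => hy.differentiableAt (by simp)
  have hFev : ∀ᶠ z in 𝓝 y, DifferentiableAt ℝ F (P z) := hP.continuousAt.eventually hF.ev_diff
  have h1 : dd e (fun z => F (P z)) =ᶠ[𝓝 y] fun z => ∑ a : Fin 3, pd a F (P z) * dd e (fun w => P w a) z := by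
    filter_upwards [hPev, hFev] with z h2 h3
    exact dd_comp h3 h2
  have hd1 : ∀ a, DifferentiableAt ℝ (fun z => pd a F (P z)) y := fun a =>
    (hF.pd a).diff.comp y (hP.differentiableAt (by simp))
  have hd2 : ∀ a, DifferentiableAt ℝ (dd e (fun w => P w a)) y := fun a =>
    (dd_smooth (hPa a) e).differentiableAt (by simp)
  have hd3 : ∀ a : Fin 3, DifferentiableAt ℝ (fun z => pd a F (P z) * dd e (fun w => P w a) z) y :=
    fun a => (hd1 a).mul (hd2 a)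
  rw [(dd_congr h1).eq_of_nhds, dd_sum (u := fun a z => pd a F (P z) * dd e (fun w => P w a) z) hd3]
  refine Finset.sum_congr rfl fun a _ => ?_
  rw [dd_mul (hd1 a) (hd2 a), dd_comp (hF.pd a).diff (hP.differentiableAt (by simp))]

end chain

/-- four dimensional space -/
abbrev E4 := EuclideanSpace ℝ (Fin 4)

noncomputable def eb (k : Fin 4) : E4 := EuclideanSpace.single k 1

/-- Laplacian -/
noncomputable def lap (u : E4 → ℝ) (x : E4) : ℝ := ∑ k : Fin 4, dd (eb k) (dd (eb k) u) x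

theorem lap_congr {u v : E4 → ℝ} {x : E4} (h : u =ᶠ[𝓝 x] v) : lap u x = lap v x := by
  simp only [lap]
  exact Finset.sum_congr rfl fun k _ => (dd_congr (dd_congr h)).eq_of_nhds

/-- complex coordinates: `Zc 0` uses the coordinates 0, 1 and `Zc 1` the coordinates 2, 3 -/
noncomputable def Zc (j : Fin 2) : E4 →L[ℝ] ℂ :=
  if j = 0 then (EuclideanSpace.proj (𝕜 := ℝ) (0 : Fin 4)).smulRight (1 : ℂ) + (EuclideanSpace.proj (𝕜 := ℝ) (1 : Fin 4)).smulRight Complex.I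
  else (EuclideanSpace.proj (𝕜 := ℝ) (2 : Fin 4)).smulRight (1 : ℂ) + (EuclideanSpace.proj (𝕜 := ℝ) (3 : Fin 4)).smulRight Complex.I

theorem Zc0 (y : E4) : Zc 0 y = ⟨y 0, y 1⟩ := by
  simp [Zc, Complex.ext_iff]

theorem Zc1 (y : E4) : Zc 1 y = ⟨y 2, y 3⟩ := by
  simp [Zc, Complex.ext_iff]

/-- the complex logarithm along a linear form -/
theorem logZ_deriv {Z : E4 →L[ℝ] ℂ} {w : ℂ} {y : E4} (h : w * Z y ∈ Complex.slitPlane) :
    HasFDerivAt (fun y => Complex.log (w * Z y)) (((Z y)⁻¹ • Z : E4 →L[ℝ] ℂ)) y := by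
  have hw : w ≠ 0 := by rintro rfl; simp at h
  have hZ : Z y ≠ 0 := by intro h0; rw [h0, mul_zero] at h; simp at h
  have h1 : HasFDerivAt (fun y => w * Z y) (w • Z : E4 →L[ℝ] ℂ) y := by
    have := Z.hasFDerivAt (x := y)
    exact this.const_mul w
  have h2 : HasDerivAt Complex.log (w * Z y)⁻¹ (w * Z y) := Complex.hasDerivAt_log h
  have h3 := h2.comp_hasFDerivAt_of_eq y h1 rfl
  refine h3.congr_fderiv ?_
  ext e
  simp only [smul_apply, smul_eq_mul]
  field_simp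

theorem slit_ev {Z : E4 →L[ℝ] ℂ} {w : ℂ} {x : E4} (h : w * Z x ∈ Complex.slitPlane) :
    ∀ᶠ y in 𝓝 x, w * Z y ∈ Complex.slitPlane :=
  (continuous_const.mul Z.continuous).continuousAt.eventually_mem (Complex.isOpen_slitPlane.mem_nhds h)

theorem logZ_smooth {Z : E4 →L[ℝ] ℂ} {w : ℂ} {x : E4} (h : w * Z x ∈ Complex.slitPlane) :
    ContDiffAt ℝ ∞ (fun y => Complex.log (w * Z y)) x := by
  have h1 : ContDiffAt ℝ ∞ Complex.log (w * Z x) := (Complex.contDiffAt_log h).restrict_scalars ℝ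
  exact h1.comp x (contDiff_const.mul Z.contDiff).contDiffAt

/-- first and second derivatives of the real and imaginary part -/
theorem logZ_re1 {Z : E4 →L[ℝ] ℂ} {w : ℂ} {y e : E4} (h : w * Z y ∈ Complex.slitPlane) (c : ℝ) :
    dd e (fun y => (Complex.log (w * Z y)).re + c) y = (Z e / Z y).re := by
  have h1 := Complex.reCLM.hasFDerivAt.comp y (logZ_deriv h)
  have h2 : HasFDerivAt (fun y => (Complex.log (w * Z y)).re + c) (Complex.reCLM.comp ((Z y)⁻¹ • Z : E4 →L[ℝ] ℂ)) y :=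
    h1.add_const c
  simp only [dd]
  rw [h2.fderiv]
  simp only [ContinuousLinearMap.comp_apply, smul_apply, smul_eq_mul, Complex.reCLM_apply]
  rw [div_eq_inv_mul]

theorem logZ_im1 {Z : E4 →L[ℝ] ℂ} {w : ℂ} {y e : E4} (h : w * Z y ∈ Complex.slitPlane) (n c : ℝ) :
    dd e (fun y => n * ((Complex.log (w * Z y)).im + c)) y = n * (Z e / Z y).im := by
  have h1 := Complex.imCLM.hasFDerivAt.comp y (logZ_deriv h)
  have h2 : HasFDerivAt (fun y => (Complex.log (w * Z y)).im + c) (Complex.imCLM.comp ((Z y)⁻¹ • Z : E4 →L[ℝ] ℂ)) y :=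
    h1.add_const c
  have h3 := h2.const_mul n
  simp only [dd]
  rw [h3.fderiv]
  simp only [ContinuousLinearMap.comp_apply, smul_apply, smul_eq_mul, Complex.imCLM_apply]
  rw [div_eq_inv_mul]

theorem divZ_deriv {Z : E4 →L[ℝ] ℂ} {y : E4} (e : E4) (h : Z y ≠ 0) :
    HasFDerivAt (fun y => Z e / Z y) ((-(Z e / (Z y) ^ 2)) • Z : E4 →L[ℝ] ℂ) y := by
  have h1 : HasDerivAt (fun z : ℂ => Z e / z) (-(Z e / (Z y) ^ 2)) (Z y) := by
    have := (hasDerivAt_inv h).const_mul (Z e)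
    refine (this.congr_deriv ?_).congr_of_eventuallyEq ?_
    · rw [div_eq_mul_inv]; ring
    · filter_upwards with z; rw [div_eq_mul_inv]
  exact h1.comp_hasFDerivAt y (Z.hasFDerivAt)

theorem logZ_re2 {Z : E4 →L[ℝ] ℂ} {w : ℂ} {y e : E4} (h : w * Z y ∈ Complex.slitPlane) (c : ℝ) :
    dd e (dd e (fun y => (Complex.log (w * Z y)).re + c)) y = (-(Z e / Z y) ^ 2).re := by
  have hZ : Z y ≠ 0 := by intro h0; rw [h0, mul_zero] at h; simp at h
  have h1 : dd e (fun y => (Complex.log (w * Z y)).re + c) =ᶠ[𝓝 y] fun y => (Z e / Z y).re := by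
    filter_upwards [slit_ev h] with z hz
    exact logZ_re1 hz c
  rw [(dd_congr h1).eq_of_nhds]
  have h2 : HasFDerivAt (fun y => (Z e / Z y).re) (Complex.reCLM.comp ((-(Z e / (Z y) ^ 2)) • Z : E4 →L[ℝ] ℂ)) y :=
    Complex.reCLM.hasFDerivAt.comp y (divZ_deriv e hZ)
  simp only [dd]
  rw [h2.fderiv]
  simp only [ContinuousLinearMap.comp_apply, smul_apply, smul_eq_mul, Complex.reCLM_apply]
  congr 1
  field_simp

theorem logZ_im2 {Z : E4 →L[ℝ] ℂ} {w : ℂ} {y e : E4} (h : w * Z y ∈ Complex.slitPlane) (n c : ℝ) :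
    dd e (dd e (fun y => n * ((Complex.log (w * Z y)).im + c))) y = n * (-(Z e / Z y) ^ 2).im := by
  have hZ : Z y ≠ 0 := by intro h0; rw [h0, mul_zero] at h; simp at h
  have h1 : dd e (fun y => n * ((Complex.log (w * Z y)).im + c)) =ᶠ[𝓝 y] fun y => n * (Z e / Z y).im := by
    filter_upwards [slit_ev h] with z hz
    exact logZ_im1 hz n c
  rw [(dd_congr h1).eq_of_nhds]
  have h2 : HasFDerivAt (fun y => (Z e / Z y).im) (Complex.imCLM.comp ((-(Z e / (Z y) ^ 2)) • Z : E4 →L[ℝ] ℂ)) y :=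
    Complex.imCLM.hasFDerivAt.comp y (divZ_deriv e hZ)
  have h3 := h2.const_mul n
  simp only [dd]
  rw [h3.fderiv]
  simp only [ContinuousLinearMap.comp_apply, smul_apply, smul_eq_mul, Complex.imCLM_apply]
  congr 2
  field_simp

theorem eb_Z : Zc 0 (eb 0) = 1 ∧ Zc 0 (eb 1) = Complex.I ∧ Zc 0 (eb 2) = 0 ∧ Zc 0 (eb 3) = 0 ∧
    Zc 1 (eb 0) = 0 ∧ Zc 1 (eb 1) = 0 ∧ Zc 1 (eb 2) = 1 ∧ Zc 1 (eb 3) = Complex.I := by
  simp [Zc0, Zc1, eb, Complex.ext_iff]

/-- the logarithmic polar coordinates, locally -/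
noncomputable def psi (n : ℝ) (w0 w1 : ℂ) (c0 c1 c2 : ℝ) (y : E4) : V :=
  ![(Complex.log (w0 * Zc 0 y)).re + c0, (Complex.log (w1 * Zc 1 y)).re + c1, n * ((Complex.log (w0 * Zc 0 y)).im + c2)]

theorem psi_smooth {n : ℝ} {w0 w1 : ℂ} {c0 c1 c2 : ℝ} {x : E4} (h0 : w0 * Zc 0 x ∈ Complex.slitPlane)
    (h1 : w1 * Zc 1 x ∈ Complex.slitPlane) : ContDiffAt ℝ ∞ (psi n w0 w1 c0 c1 c2) x := by
  rw [contDiffAt_pi]
  intro i
  fin_cases i
  · exact (Complex.reCLM.contDiff.contDiffAt.comp x (logZ_smooth h0)).add contDiffAt_const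
  · exact (Complex.reCLM.contDiff.contDiffAt.comp x (logZ_smooth h1)).add contDiffAt_const
  · exact contDiffAt_const.mul ((Complex.imCLM.contDiff.contDiffAt.comp x (logZ_smooth h0)).add contDiffAt_const)

/-- **Laplacian in logarithmic polar coordinates** -/
theorem lap_psi {f : V → ℝ} {n : ℝ} {w0 w1 : ℂ} {c0 c1 c2 : ℝ} {x : E4} (h0 : w0 * Zc 0 x ∈ Complex.slitPlane)
    (h1 : w1 * Zc 1 x ∈ Complex.slitPlane) (hf : SA f (psi n w0 w1 c0 c1 c2 x)) :
    lap (fun y => f (psi n w0 w1 c0 c1 c2 y)) x =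
      (Complex.normSq (Zc 0 x))⁻¹ * (pd 0 (pd 0 f) (psi n w0 w1 c0 c1 c2 x) + n ^ 2 * pd 2 (pd 2 f) (psi n w0 w1 c0 c1 c2 x))
      + (Complex.normSq (Zc 1 x))⁻¹ * pd 1 (pd 1 f) (psi n w0 w1 c0 c1 c2 x) := by
  have hZ0 : Zc 0 x ≠ 0 := by intro h; rw [h, mul_zero] at h0; simp at h0
  have hZ1 : Zc 1 x ≠ 0 := by intro h; rw [h, mul_zero] at h1; simp at h1
  have a0 : ∀ e y, w0 * Zc 0 y ∈ Complex.slitPlane → dd e (fun z => psi n w0 w1 c0 c1 c2 z 0) y = (Zc 0 e / Zc 0 y).re := by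
    intro e y hy; exact logZ_re1 hy c0
  have a1 : ∀ e y, w1 * Zc 1 y ∈ Complex.slitPlane → dd e (fun z => psi n w0 w1 c0 c1 c2 z 1) y = (Zc 1 e / Zc 1 y).re := by
    intro e y hy; exact logZ_re1 hy c1
  have a2 : ∀ e y, w0 * Zc 0 y ∈ Complex.slitPlane → dd e (fun z => psi n w0 w1 c0 c1 c2 z 2) y = n * (Zc 0 e / Zc 0 y).im := by
    intro e y hy; exact logZ_im1 hy n c2
  have b0 : ∀ e, dd e (dd e (fun z => psi n w0 w1 c0 c1 c2 z 0)) x = (-(Zc 0 e / Zc 0 x) ^ 2).re := fun e => logZ_re2 h0 c0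
  have b1 : ∀ e, dd e (dd e (fun z => psi n w0 w1 c0 c1 c2 z 1)) x = (-(Zc 1 e / Zc 1 x) ^ 2).re := fun e => logZ_re2 h1 c1
  have b2 : ∀ e, dd e (dd e (fun z => psi n w0 w1 c0 c1 c2 z 2)) x = n * (-(Zc 0 e / Zc 0 x) ^ 2).im := fun e => logZ_im2 h0 n c2
  obtain ⟨e1, e2, e3, e4, e5, e6, e7, e8⟩ := eb_Z
  simp only [lap, Fin.sum_univ_four, dd2_comp hf (psi_smooth h0 h1), Fin.sum_univ_three, a0 _ _ h0, a1 _ _ h1, a2 _ _ h0,
    b0, b1, b2, e1, e2, e3, e4, e5, e6, e7, e8, zero_div]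
  have i1 : ∀ z : ℂ, z ≠ 0 → (1 / z).re = z.re / Complex.normSq z := fun z hz => by simp [Complex.inv_re]
  have i2 : ∀ z : ℂ, z ≠ 0 → (1 / z).im = - z.im / Complex.normSq z := fun z hz => by simp [Complex.inv_im]
  have i3 : ∀ z : ℂ, z ≠ 0 → (Complex.I / z).re = z.im / Complex.normSq z := fun z hz => by
    rw [div_eq_mul_inv, Complex.mul_re, Complex.inv_re, Complex.inv_im]; simp; ring
  have i4 : ∀ z : ℂ, z ≠ 0 → (Complex.I / z).im = z.re / Complex.normSq z := fun z hz => by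
    rw [div_eq_mul_inv, Complex.mul_im, Complex.inv_re, Complex.inv_im]; simp
  have q1 : ∀ z : ℂ, (-z ^ 2).re = -(z.re ^ 2 - z.im ^ 2) := fun z => by
    simp [pow_two, Complex.mul_re]
  have q2 : ∀ z : ℂ, (-z ^ 2).im = -(2 * z.re * z.im) := fun z => by
    simp [pow_two, Complex.mul_im]; ring
  simp only [q1, q2, i1 _ hZ0, i1 _ hZ1, i2 _ hZ0, i2 _ hZ1, i3 _ hZ0, i3 _ hZ1, i4 _ hZ0, i4 _ hZ1, Complex.zero_re, Complex.zero_im]
  have hn0 : Complex.normSq (Zc 0 x) ≠ 0 := (Complex.normSq_pos.2 hZ0).ne'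
  have hn1 : Complex.normSq (Zc 1 x) ≠ 0 := (Complex.normSq_pos.2 hZ1).ne'
  have m0 : (Zc 0 x).im ^ 2 = Complex.normSq (Zc 0 x) - (Zc 0 x).re ^ 2 := by rw [Complex.normSq_apply]; ring
  have m1 : (Zc 1 x).im ^ 2 = Complex.normSq (Zc 1 x) - (Zc 1 x).re ^ 2 := by rw [Complex.normSq_apply]; ring
  set N0 := Complex.normSq (Zc 0 x)
  set N1 := Complex.normSq (Zc 1 x)
  field_simp
  ring_nf
  simp only [m0, m1]
  ring

end Pool.Agent.J6H20.RL
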