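import Mathlib
import Pool.Agent.J6H20.RL.Geom
import Pool.Agent.J6H20.RL.HD

/-!
# The flat form of the Laplacian
-/

set_option autoImplicit false

open Filter Topology
open scoped ContDiff

namespace Pool.Agent.J6H20.RL

/-- partial derivative by slices -/
theorem pd_slice {f : V → ℝ} {x : V} {i : Fin 3} {d : ℝ} (hf : DifferentiableAt ℝ f x)
    (h : HasDerivAt (fun t => f (Function.update x i t)) d (x i)) : pd i f x = d := by
  have h1 : HasDerivAt (fun t => f (Function.update x i t)) (fderiv ℝ f x (Pi.single i 1)) (x i) := by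
    have h2 : HasDerivAt (Function.update x i) (Pi.single i (1 : ℝ)) (x i) := hasDerivAt_update x i (x i)
    have h3 : HasFDerivAt f (fderiv ℝ f x) (Function.update x i (x i)) := by
      rw [Function.update_eq_self]; exact hf.hasFDerivAt
    exact h3.comp_hasDerivAt (x i) h2
  exact h1.unique h

noncomputable def qq (ζ : V) : ℝ := Real.exp (2 * ζ 0) + Real.exp (2 * ζ 1)

theorem qq_pos (ζ : V) : 0 < qq ζ := by rw [qq]; positivity

/-- from logarithmic polar coordinates to flat coordinates -/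
noncomputable def Xi (ν τ : ℝ) (ζ : V) : V :=
  ![ν / 2 * Real.log (qq ζ) - τ, ν * Real.arctan (Real.exp (ζ 1 - ζ 0)), ζ 2]

theorem coord_smooth (i : Fin 3) : ContDiff ℝ ∞ (fun x : V => x i) :=
  (ContinuousLinearMap.proj (R := ℝ) (φ := fun _ : Fin 3 => ℝ) i).contDiff

theorem qq_smooth : ContDiff ℝ ∞ qq :=
  (Real.contDiff_exp.comp (contDiff_const.mul (coord_smooth 0))).add (Real.contDiff_exp.comp (contDiff_const.mul (coord_smooth 1)))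

theorem Xi0_smooth (ν τ : ℝ) : ContDiff ℝ ∞ (fun ζ => ν / 2 * Real.log (qq ζ) - τ) :=
  (contDiff_const.mul (qq_smooth.log fun x => (qq_pos x).ne')).sub contDiff_const

theorem Xi1_smooth (ν : ℝ) : ContDiff ℝ ∞ (fun ζ : V => ν * Real.arctan (Real.exp (ζ 1 - ζ 0))) :=
  contDiff_const.mul (Real.contDiff_arctan.comp (Real.contDiff_exp.comp ((coord_smooth 1).sub (coord_smooth 0))))

theorem Xi_smooth (ν τ : ℝ) : ContDiff ℝ ∞ (Xi ν τ) := by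
  rw [contDiff_pi]
  intro i
  fin_cases i
  · exact Xi0_smooth ν τ
  · exact Xi1_smooth ν
  · exact coord_smooth 2

theorem hd_exp_lin (c t : ℝ) : HasDerivAt (fun t : ℝ => Real.exp (c * t)) (Real.exp (c * t) * c) t :=
  hd_comp (Real.hasDerivAt_exp (c * t)) (hd_lin c t)

-- first derivatives of Xi 0
theorem X00 (ν τ : ℝ) (ζ : V) : pd 0 (fun ζ => Xi ν τ ζ 0) ζ = ν * (Real.exp (2 * ζ 0) / qq ζ) := by
  refine pd_slice ((Xi0_smooth ν τ).differentiable (by simp) ζ) ?_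
  have h1 : HasDerivAt (fun t => Real.exp (2 * t) + Real.exp (2 * ζ 1)) (Real.exp (2 * ζ 0) * 2) (ζ 0) :=
    (hd_exp_lin 2 (ζ 0)).add_const _
  have h2 := ((h1.log (by positivity)).const_mul (ν / 2)).sub_const τ
  refine (h2.congr_deriv ?_).congr_of_eventuallyEq (Eventually.of_forall fun t => ?_)
  · rw [qq]; ring
  · simp [Xi, qq]

theorem X01 (ν τ : ℝ) (ζ : V) : pd 1 (fun ζ => Xi ν τ ζ 0) ζ = ν * (Real.exp (2 * ζ 1) / qq ζ) := by
  refine pd_slice ((Xi0_smooth ν τ).differentiable (by simp) ζ) ?_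
  have h1 : HasDerivAt (fun t => Real.exp (2 * ζ 0) + Real.exp (2 * t)) (Real.exp (2 * ζ 1) * 2) (ζ 1) :=
    (hd_exp_lin 2 (ζ 1)).const_add _
  have h2 := ((h1.log (by positivity)).const_mul (ν / 2)).sub_const τ
  refine (h2.congr_deriv ?_).congr_of_eventuallyEq (Eventually.of_forall fun t => ?_)
  · rw [qq]; ring
  · simp [Xi, qq]

theorem X02 (ν τ : ℝ) (ζ : V) : pd 2 (fun ζ => Xi ν τ ζ 0) ζ = 0 := by
  refine pd_slice ((Xi0_smooth ν τ).differentiable (by simp) ζ) ?_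
  refine (hasDerivAt_const (ζ 2) (Xi ν τ ζ 0)).congr_of_eventuallyEq (Eventually.of_forall fun t => ?_)
  simp [Xi, qq]

theorem X10 (ν τ : ℝ) (ζ : V) : pd 0 (fun ζ => Xi ν τ ζ 1) ζ = -(ν * (Real.exp (ζ 0 + ζ 1) / qq ζ)) := by
  refine pd_slice ((Xi1_smooth ν).differentiable (by simp) ζ) ?_
  have h1 : HasDerivAt (fun t => Real.exp (ζ 1 - t)) (Real.exp (ζ 1 - ζ 0) * (-1)) (ζ 0) :=
    hd_comp (Real.hasDerivAt_exp _) ((hasDerivAt_id (ζ 0)).const_sub (ζ 1))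
  have h2 := (h1.arctan).const_mul ν
  refine (h2.congr_deriv ?_).congr_of_eventuallyEq (Eventually.of_forall fun t => ?_)
  · have e1 : Real.exp (ζ 1 - ζ 0) = Real.exp (ζ 1) / Real.exp (ζ 0) := by rw [Real.exp_sub]
    have e2 : Real.exp (ζ 0 + ζ 1) = Real.exp (ζ 0) * Real.exp (ζ 1) := Real.exp_add _ _
    have e3 : Real.exp (2 * ζ 0) = Real.exp (ζ 0) ^ 2 := by rw [← Real.exp_nat_mul]; norm_num
    have e4 : Real.exp (2 * ζ 1) = Real.exp (ζ 1) ^ 2 := by rw [← Real.exp_nat_mul]; norm_num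
    rw [qq, e1, e2, e3, e4]
    have := Real.exp_pos (ζ 0)
    have := Real.exp_pos (ζ 1)
    field_simp
  · simp [Xi]

theorem X11 (ν τ : ℝ) (ζ : V) : pd 1 (fun ζ => Xi ν τ ζ 1) ζ = ν * (Real.exp (ζ 0 + ζ 1) / qq ζ) := by
  refine pd_slice ((Xi1_smooth ν).differentiable (by simp) ζ) ?_
  have h1 : HasDerivAt (fun t => Real.exp (t - ζ 0)) (Real.exp (ζ 1 - ζ 0) * 1) (ζ 1) :=
    hd_comp (Real.hasDerivAt_exp _) (hd_subc (ζ 0) (ζ 1))
  have h2 := (h1.arctan).const_mul ν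
  refine (h2.congr_deriv ?_).congr_of_eventuallyEq (Eventually.of_forall fun t => ?_)
  · have e1 : Real.exp (ζ 1 - ζ 0) = Real.exp (ζ 1) / Real.exp (ζ 0) := by rw [Real.exp_sub]
    have e2 : Real.exp (ζ 0 + ζ 1) = Real.exp (ζ 0) * Real.exp (ζ 1) := Real.exp_add _ _
    have e3 : Real.exp (2 * ζ 0) = Real.exp (ζ 0) ^ 2 := by rw [← Real.exp_nat_mul]; norm_num
    have e4 : Real.exp (2 * ζ 1) = Real.exp (ζ 1) ^ 2 := by rw [← Real.exp_nat_mul]; norm_num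
    rw [qq, e1, e2, e3, e4]
    have := Real.exp_pos (ζ 0)
    have := Real.exp_pos (ζ 1)
    field_simp
  · simp [Xi]

theorem X12 (ν τ : ℝ) (ζ : V) : pd 2 (fun ζ => Xi ν τ ζ 1) ζ = 0 := by
  refine pd_slice ((Xi1_smooth ν).differentiable (by simp) ζ) ?_
  refine (hasDerivAt_const (ζ 2) (Xi ν τ ζ 1)).congr_of_eventuallyEq (Eventually.of_forall fun t => ?_)
  simp [Xi]

theorem X2 (ν τ : ℝ) (ζ : V) (i : Fin 3) : pd i (fun ζ => Xi ν τ ζ 2) ζ = if i = 2 then 1 else 0 := by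
  have := pd_coord (f := fun t => t) (x := ζ) (j := 2) differentiableAt_id i
  have h2 : (fun ζ => Xi ν τ ζ 2) = fun y : V => y 2 := by funext y; rfl
  rw [h2, this]
  by_cases h : i = 2
  · rw [if_pos h.symm, if_pos h]; exact deriv_id _
  · rw [if_neg (Ne.symm h), if_neg h]

-- second derivatives
theorem XX (ν τ : ℝ) (ζ : V) : pd 0 (pd 0 (fun ζ => Xi ν τ ζ 0)) ζ = 2 * ν * (Real.exp (ζ 0 + ζ 1) / qq ζ) ^ 2 ∧
    pd 1 (pd 1 (fun ζ => Xi ν τ ζ 0)) ζ = 2 * ν * (Real.exp (ζ 0 + ζ 1) / qq ζ) ^ 2 ∧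
    pd 2 (pd 2 (fun ζ => Xi ν τ ζ 0)) ζ = 0 ∧
    pd 0 (pd 0 (fun ζ => Xi ν τ ζ 1)) ζ = ν * (Real.exp (ζ 0 + ζ 1) / qq ζ) * ((Real.exp (2 * ζ 0) - Real.exp (2 * ζ 1)) / qq ζ) ∧
    pd 1 (pd 1 (fun ζ => Xi ν τ ζ 1)) ζ = ν * (Real.exp (ζ 0 + ζ 1) / qq ζ) * ((Real.exp (2 * ζ 0) - Real.exp (2 * ζ 1)) / qq ζ) ∧
    pd 2 (pd 2 (fun ζ => Xi ν τ ζ 1)) ζ = 0 ∧ (∀ i, pd i (pd i (fun ζ => Xi ν τ ζ 2)) ζ = 0) := by
  have e2 : Real.exp (ζ 0 + ζ 1) = Real.exp (ζ 0) * Real.exp (ζ 1) := Real.exp_add _ _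
  have e3 : ∀ t : ℝ, Real.exp (2 * t) = Real.exp t ^ 2 := fun t => by rw [← Real.exp_nat_mul]; norm_num
  have p0 := Real.exp_pos (ζ 0)
  have p1 := Real.exp_pos (ζ 1)
  have hq := qq_pos ζ
  have hs0 : ContDiff ℝ ∞ (fun ζ : V => ν * (Real.exp (2 * ζ 0) / qq ζ)) :=
    contDiff_const.mul ((Real.contDiff_exp.comp (contDiff_const.mul (coord_smooth 0))).div qq_smooth fun x => (qq_pos x).ne')
  have hs1 : ContDiff ℝ ∞ (fun ζ : V => ν * (Real.exp (2 * ζ 1) / qq ζ)) :=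
    contDiff_const.mul ((Real.contDiff_exp.comp (contDiff_const.mul (coord_smooth 1))).div qq_smooth fun x => (qq_pos x).ne')
  have hs2 : ContDiff ℝ ∞ (fun ζ : V => ν * (Real.exp (ζ 0 + ζ 1) / qq ζ)) :=
    contDiff_const.mul ((Real.contDiff_exp.comp ((coord_smooth 0).add (coord_smooth 1))).div qq_smooth fun x => (qq_pos x).ne')
  have hs3 : ContDiff ℝ ∞ (fun ζ : V => -(ν * (Real.exp (ζ 0 + ζ 1) / qq ζ))) := hs2.neg
  have d0 : HasDerivAt (fun t => Real.exp (2 * t) + Real.exp (2 * ζ 1)) (Real.exp (2 * ζ 0) * 2) (ζ 0) :=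
    (hd_exp_lin 2 (ζ 0)).add_const _
  have d1 : HasDerivAt (fun t => Real.exp (2 * ζ 0) + Real.exp (2 * t)) (Real.exp (2 * ζ 1) * 2) (ζ 1) :=
    (hd_exp_lin 2 (ζ 1)).const_add _
  have m0 : HasDerivAt (fun t => Real.exp (t + ζ 1)) (Real.exp (ζ 0 + ζ 1) * 1) (ζ 0) :=
    hd_comp (Real.hasDerivAt_exp _) ((hasDerivAt_id (ζ 0)).add_const (ζ 1))
  have m1 : HasDerivAt (fun t => Real.exp (ζ 0 + t)) (Real.exp (ζ 0 + ζ 1) * 1) (ζ 1) :=
    hd_comp (Real.hasDerivAt_exp _) ((hasDerivAt_id (ζ 1)).const_add (ζ 0))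
  have hpos0 : Real.exp (2 * ζ 0) + Real.exp (2 * ζ 1) ≠ 0 := by positivity
  refine ⟨?_, ?_, ?_, ?_, ?_, ?_, ?_⟩
  · have h1 : pd 0 (fun ζ => Xi ν τ ζ 0) = fun ζ => ν * (Real.exp (2 * ζ 0) / qq ζ) := funext fun ζ => X00 ν τ ζ
    rw [h1]
    refine pd_slice (hs0.differentiable (by simp) ζ) ?_
    have h2 := ((hd_exp_lin 2 (ζ 0)).div d0 hpos0).const_mul ν
    refine (h2.congr_deriv ?_).congr_of_eventuallyEq (Eventually.of_forall fun t => ?_)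
    · rw [qq, e2, e3, e3]; field_simp; ring
    · simp [qq]
  · have h1 : pd 1 (fun ζ => Xi ν τ ζ 0) = fun ζ => ν * (Real.exp (2 * ζ 1) / qq ζ) := funext fun ζ => X01 ν τ ζ
    rw [h1]
    refine pd_slice (hs1.differentiable (by simp) ζ) ?_
    have h2 := ((hd_exp_lin 2 (ζ 1)).div d1 hpos0).const_mul ν
    refine (h2.congr_deriv ?_).congr_of_eventuallyEq (Eventually.of_forall fun t => ?_)
    · rw [qq, e2, e3, e3]; field_simp; ring
    · simp [qq]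
  · have h1 : pd 2 (fun ζ => Xi ν τ ζ 0) = fun _ => 0 := funext fun ζ => X02 ν τ ζ
    rw [h1, pd_const]
  · have h1 : pd 0 (fun ζ => Xi ν τ ζ 1) = fun ζ => -(ν * (Real.exp (ζ 0 + ζ 1) / qq ζ)) := funext fun ζ => X10 ν τ ζ
    rw [h1]
    refine pd_slice (hs3.differentiable (by simp) ζ) ?_
    have h2 := ((m0.div d0 hpos0).const_mul ν).neg
    refine (h2.congr_deriv ?_).congr_of_eventuallyEq (Eventually.of_forall fun t => ?_)
    · rw [qq, e2, e3, e3]; field_simp; ring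
    · simp [qq]
  · have h1 : pd 1 (fun ζ => Xi ν τ ζ 1) = fun ζ => ν * (Real.exp (ζ 0 + ζ 1) / qq ζ) := funext fun ζ => X11 ν τ ζ
    rw [h1]
    refine pd_slice (hs2.differentiable (by simp) ζ) ?_
    have h2 := ((m1.div d1 hpos0).const_mul ν)
    refine (h2.congr_deriv ?_).congr_of_eventuallyEq (Eventually.of_forall fun t => ?_)
    · rw [qq, e2, e3, e3]; field_simp; ring
    · simp [qq]
  · have h1 : pd 2 (fun ζ => Xi ν τ ζ 1) = fun _ => 0 := funext fun ζ => X12 ν τ ζ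
    rw [h1, pd_const]
  · intro i
    have h1 : pd i (fun ζ => Xi ν τ ζ 2) = fun _ => if i = 2 then 1 else 0 := funext fun ζ => X2 ν τ ζ i
    rw [h1, pd_const]

/-- the weight -/
noncomputable def gw (ζ : V) : ℝ := Real.exp (-(ζ 0 + ζ 1) / 2)

theorem gw_smooth : ContDiff ℝ ∞ gw :=
  Real.contDiff_exp.comp (((coord_smooth 0).add (coord_smooth 1)).neg.div_const 2)

theorem gw_d (ζ : V) : pd 0 gw ζ = -(1 / 2) * gw ζ ∧ pd 1 gw ζ = -(1 / 2) * gw ζ ∧ pd 2 gw ζ = 0 := by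
  refine ⟨?_, ?_, ?_⟩
  · refine pd_slice (gw_smooth.differentiable (by simp) ζ) ?_
    have h1 : HasDerivAt (fun t : ℝ => -(t + ζ 1) / 2) (-1 / 2) (ζ 0) :=
      (((hasDerivAt_id (ζ 0)).add_const (ζ 1)).neg).div_const 2
    refine ((hd_comp (Real.hasDerivAt_exp _) h1).congr_deriv ?_).congr_of_eventuallyEq (Eventually.of_forall fun t => ?_)
    · simp only [gw]; ring
    · simp [gw]
  · refine pd_slice (gw_smooth.differentiable (by simp) ζ) ?_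
    have h1 : HasDerivAt (fun t : ℝ => -(ζ 0 + t) / 2) (-1 / 2) (ζ 1) :=
      (((hasDerivAt_id (ζ 1)).const_add (ζ 0)).neg).div_const 2
    refine ((hd_comp (Real.hasDerivAt_exp _) h1).congr_deriv ?_).congr_of_eventuallyEq (Eventually.of_forall fun t => ?_)
    · simp only [gw]; ring
    · simp [gw]
  · refine pd_slice (gw_smooth.differentiable (by simp) ζ) ?_
    refine (hasDerivAt_const (ζ 2) (gw ζ)).congr_of_eventuallyEq (Eventually.of_forall fun t => ?_)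
    simp [gw]

theorem gw_dd (ζ : V) : pd 0 (pd 0 gw) ζ = 1 / 4 * gw ζ ∧ pd 1 (pd 1 gw) ζ = 1 / 4 * gw ζ ∧ pd 2 (pd 2 gw) ζ = 0 := by
  have h0 : pd 0 gw = fun ζ => -(1 / 2) * gw ζ := funext fun ζ => (gw_d ζ).1
  have h1 : pd 1 gw = fun ζ => -(1 / 2) * gw ζ := funext fun ζ => (gw_d ζ).2.1
  have h2 : pd 2 gw = fun _ => 0 := funext fun ζ => (gw_d ζ).2.2
  have hd := gw_smooth.differentiable (by simp) ζ
  refine ⟨?_, ?_, ?_⟩
  · rw [h0, pd_cmul _ hd, (gw_d ζ).1]; ring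
  · rw [h1, pd_cmul _ hd, (gw_d ζ).2.1]; ring
  · rw [h2, pd_const]

/-- **flat form** -/
theorem flat_form {F : V → ℝ} {ν τ : ℝ} {ζ : V} (hν : 0 < ν) (hF : SA F (Xi ν τ ζ)) (n : ℝ) :
    Real.exp (-(2 * ζ 0)) * (pd 0 (pd 0 (fun z => gw z * F (Xi ν τ z))) ζ
        + n ^ 2 * pd 2 (pd 2 (fun z => gw z * F (Xi ν τ z))) ζ)
      + Real.exp (-(2 * ζ 1)) * pd 1 (pd 1 (fun z => gw z * F (Xi ν τ z))) ζ =
    ν ^ 2 / qq ζ * gw ζ * (pd 0 (pd 0 F) (Xi ν τ ζ) + pd 1 (pd 1 F) (Xi ν τ ζ)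
      + (n ^ 2 * qq ζ / (ν ^ 2 * Real.exp (2 * ζ 0))) * pd 2 (pd 2 F) (Xi ν τ ζ)
      + (qq ζ ^ 2 / (4 * ν ^ 2 * (Real.exp (2 * ζ 0) * Real.exp (2 * ζ 1)))) * F (Xi ν τ ζ)) := by
  have hX : ContDiffAt ℝ ∞ (Xi ν τ) ζ := (Xi_smooth ν τ).contDiffAt
  have hFX : SA (fun z => F (Xi ν τ z)) ζ := hF.comp ζ hX
  have hg : SA gw ζ := gw_smooth.contDiffAt
  obtain ⟨g0, g1, g2⟩ := gw_d ζ
  obtain ⟨k0, k1, k2⟩ := gw_dd ζ
  obtain ⟨y00, y01, y02, y10, y11, y12, y2⟩ := XX ν τ ζ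
  have c1 : ∀ i : Fin 3, pd i (fun z => F (Xi ν τ z)) ζ = ∑ a : Fin 3, pd a F (Xi ν τ ζ) * pd i (fun z => Xi ν τ z a) ζ :=
    fun i => dd_comp hF.diff (hX.differentiableAt (by simp))
  have c2 : ∀ i : Fin 3, pd i (pd i (fun z => F (Xi ν τ z))) ζ = ∑ a : Fin 3, ((∑ b : Fin 3, pd b (pd a F) (Xi ν τ ζ) * pd i (fun z => Xi ν τ z b) ζ)
      * pd i (fun z => Xi ν τ z a) ζ + pd a F (Xi ν τ ζ) * pd i (pd i (fun z => Xi ν τ z a)) ζ) :=
    fun i => dd2_comp hF hX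
  rw [pd2_mul hg hFX, pd2_mul hg hFX, pd2_mul hg hFX, g0, g1, g2, k0, k1, k2]
  simp only [c1, c2, Fin.sum_univ_three, X00, X01, X02, X10, X11, X12, X2, y00, y01, y02, y10, y11, y12, y2]
  have e2 : Real.exp (ζ 0 + ζ 1) = Real.exp (ζ 0) * Real.exp (ζ 1) := Real.exp_add _ _
  have e3 : ∀ t : ℝ, Real.exp (2 * t) = Real.exp t ^ 2 := fun t => by rw [← Real.exp_nat_mul]; norm_num
  have p0 := Real.exp_pos (ζ 0)
  have p1 := Real.exp_pos (ζ 1)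
  have i01 : ((0 : Fin 3) = 2) = False := by decide
  have i11 : ((1 : Fin 3) = 2) = False := by decide
  simp only [i01, i11, if_true, if_false]
  rw [Real.exp_neg, Real.exp_neg, qq, e2, e3, e3]
  generalize pd 0 (pd 0 F) (Xi ν τ ζ) = F00
  generalize pd 1 (pd 0 F) (Xi ν τ ζ) = F01
  generalize pd 2 (pd 0 F) (Xi ν τ ζ) = F02
  generalize pd 0 (pd 1 F) (Xi ν τ ζ) = F10
  generalize pd 1 (pd 1 F) (Xi ν τ ζ) = F11
  generalize pd 2 (pd 1 F) (Xi ν τ ζ) = F12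
  generalize pd 0 (pd 2 F) (Xi ν τ ζ) = F20
  generalize pd 1 (pd 2 F) (Xi ν τ ζ) = F21
  generalize pd 2 (pd 2 F) (Xi ν τ ζ) = F22
  generalize pd 0 F (Xi ν τ ζ) = F0
  generalize pd 1 F (Xi ν τ ζ) = F1
  generalize pd 2 F (Xi ν τ ζ) = F2
  generalize F (Xi ν τ ζ) = F
  generalize gw ζ = g
  generalize Real.exp (ζ 0) = p at *
  generalize Real.exp (ζ 1) = q at *
  field_simp
  ring

end Pool.Agent.J6H20.RL
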