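import Mathlib
import Pool.Agent.J6H20.RL.Geom2
import Pool.Agent.J6H20.RL.Kappa

/-!
# The physical form of the ansatz
-/

set_option autoImplicit false

open Filter Topology
open scoped ContDiff

namespace Pool.Agent.J6H20.RL

noncomputable def r0 (x : E4) : ℝ := ‖Zc 0 x‖
noncomputable def r1 (x : E4) : ℝ := ‖Zc 1 x‖

/-- flat coordinates of a point -/
noncomputable def Pt (ν n : ℝ) (x : E4) : V :=
  ![ν * Real.log ‖x‖, ν * Real.arctan (r1 x / r0 x), n * Complex.arg (Zc 0 x)]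

/-- the physical function of a flat function -/
noncomputable def phys (ν n : ℝ) (F : V → ℝ) (x : E4) : ℝ := (Real.sqrt (r0 x * r1 x))⁻¹ * F (Pt ν n x)

theorem norm_sq_E4 (x : E4) : ‖x‖ ^ 2 = r0 x ^ 2 + r1 x ^ 2 := by
  rw [EuclideanSpace.norm_sq_eq, Fin.sum_univ_four, r0, r1, ← Complex.normSq_eq_norm_sq, ← Complex.normSq_eq_norm_sq, Zc0, Zc1]
  simp only [Complex.normSq_mk, Real.norm_eq_abs, sq_abs]
  ring

/-- periodic in the last coordinate -/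
def Per (F : V → ℝ) : Prop := ∀ (T Y s : ℝ) (m : ℤ), F ![T, Y, s + m * (2 * Real.pi)] = F ![T, Y, s]

/-- local logarithmic coordinates at `x` -/
noncomputable def psl (n : ℝ) (x : E4) : E4 → V :=
  psi n ((starRingEnd ℂ) (Zc 0 x)) ((starRingEnd ℂ) (Zc 1 x)) (-Real.log (r0 x)) (-Real.log (r1 x)) (Complex.arg (Zc 0 x))

theorem conj_mul_slit {z : ℂ} (h : z ≠ 0) : (starRingEnd ℂ) z * z ∈ Complex.slitPlane := by
  have : (starRingEnd ℂ) z * z = ((Complex.normSq z : ℝ) : ℂ) := by rw [mul_comm, Complex.mul_conj]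
  rw [this]
  exact Complex.ofReal_mem_slitPlane.2 (Complex.normSq_pos.2 h)

theorem log_re_part {z w : ℂ} (hz : z ≠ 0) (hw : w ≠ 0) :
    (Complex.log ((starRingEnd ℂ) z * w)).re + -Real.log ‖z‖ = Real.log ‖w‖ := by
  rw [Complex.log_re, norm_mul, RCLike.norm_conj, Real.log_mul (norm_ne_zero_iff.2 hz) (norm_ne_zero_iff.2 hw)]
  ring

theorem log_im_part {z w : ℂ} (hz : z ≠ 0) (hw : w ≠ 0) :
    ∃ m : ℤ, (Complex.log ((starRingEnd ℂ) z * w)).im + Complex.arg z = Complex.arg w + m * (2 * Real.pi) := by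
  rw [Complex.log_im]
  have h1 : ((Complex.arg ((starRingEnd ℂ) z * w) + Complex.arg z : ℝ) : Real.Angle) = (Complex.arg w : Real.Angle) := by
    rw [Real.Angle.coe_add, Complex.arg_mul_coe_angle (by simpa using hz) hw, Complex.arg_conj_coe_angle]
    abel
  obtain ⟨m, hm⟩ := Real.Angle.angle_eq_iff_two_pi_dvd_sub.1 h1
  exact ⟨m, by linarith⟩

/-- the local form of the physical function -/
theorem phys_local {ν : ℝ} {n : ℕ} {F : V → ℝ} (hF : Per F) {x y : E4} (hx0 : Zc 0 x ≠ 0) (hx1 : Zc 1 x ≠ 0)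
    (hy0 : Zc 0 y ≠ 0) (hy1 : Zc 1 y ≠ 0) :
    phys ν n F y = gw (psl n x y) * F (Xi ν 0 (psl n x y)) := by
  have a0 : psl n x y 0 = Real.log (r0 y) := log_re_part hx0 hy0
  have a1 : psl n x y 1 = Real.log (r1 y) := log_re_part hx1 hy1
  obtain ⟨m, hm⟩ := log_im_part hx0 hy0
  have a2 : psl n x y 2 = n * (Complex.arg (Zc 0 y) + m * (2 * Real.pi)) := by
    rw [← hm]; rfl
  have p0 : 0 < r0 y := norm_pos_iff.2 hy0
  have p1 : 0 < r1 y := norm_pos_iff.2 hy1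
  have e0 : Real.exp (2 * Real.log (r0 y)) = r0 y ^ 2 := by
    rw [two_mul, Real.exp_add, Real.exp_log p0]; ring
  have e1 : Real.exp (2 * Real.log (r1 y)) = r1 y ^ 2 := by
    rw [two_mul, Real.exp_add, Real.exp_log p1]; ring
  have hq : qq (psl n x y) = ‖y‖ ^ 2 := by rw [qq, a0, a1, e0, e1, norm_sq_E4]
  have hg : gw (psl n x y) = (Real.sqrt (r0 y * r1 y))⁻¹ := by
    rw [gw, a0, a1, ← Real.log_mul p0.ne' p1.ne']
    have h2 : -Real.log (r0 y * r1 y) / 2 = -(Real.log (Real.sqrt (r0 y * r1 y))) := by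
      rw [Real.log_sqrt (by positivity)]; ring
    rw [h2, Real.exp_neg, Real.exp_log (Real.sqrt_pos.2 (by positivity))]
  have hX : Xi ν 0 (psl n x y) = ![ν * Real.log ‖y‖, ν * Real.arctan (r1 y / r0 y), n * Complex.arg (Zc 0 y) + ((n : ℤ) * m : ℤ) * (2 * Real.pi)] := by
    ext i
    fin_cases i
    · simp only [Xi, hq, Real.log_pow]
      simp
      ring
    · simp only [Xi, a0, a1, ← Real.log_div p1.ne' p0.ne']
      simp [Real.exp_log (div_pos p1 p0)]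
    · simp only [Xi]
      simp only [Fin.reduceFinMk, Matrix.cons_val]
      rw [a2]; push_cast; ring
  rw [hg, hX, hF, phys, Pt]

theorem Zc_ne_ev {x : E4} {j : Fin 2} (h : Zc j x ≠ 0) : ∀ᶠ y in 𝓝 x, Zc j y ≠ 0 :=
  (Zc j).continuous.continuousAt.eventually_ne h

theorem phys_local_ev {ν : ℝ} {n : ℕ} {F : V → ℝ} (hF : Per F) {x : E4} (hx0 : Zc 0 x ≠ 0) (hx1 : Zc 1 x ≠ 0) :
    phys ν n F =ᶠ[𝓝 x] fun y => gw (psl n x y) * F (Xi ν 0 (psl n x y)) := by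
  filter_upwards [Zc_ne_ev hx0, Zc_ne_ev hx1] with y h0 h1
  exact phys_local hF hx0 hx1 h0 h1

/-- the point in flat coordinates -/
theorem Xi_psl {ν : ℝ} {n : ℕ} {x : E4} (hx0 : Zc 0 x ≠ 0) (hx1 : Zc 1 x ≠ 0) : Xi ν 0 (psl n x x) = Pt ν n x := by
  have a0 : psl n x x 0 = Real.log (r0 x) := log_re_part hx0 hx0
  have a1 : psl n x x 1 = Real.log (r1 x) := log_re_part hx1 hx1
  have a2 : psl n x x 2 = n * Complex.arg (Zc 0 x) := by
    have : (Complex.log ((starRingEnd ℂ) (Zc 0 x) * Zc 0 x)).im = 0 := by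
      have h2 : (starRingEnd ℂ) (Zc 0 x) * Zc 0 x = ((Complex.normSq (Zc 0 x) : ℝ) : ℂ) := by rw [mul_comm, Complex.mul_conj]
      rw [h2, ← Complex.ofReal_log (Complex.normSq_nonneg _)]; simp
    change (n : ℝ) * ((Complex.log ((starRingEnd ℂ) (Zc 0 x) * Zc 0 x)).im + Complex.arg (Zc 0 x)) = _
    rw [this]; ring
  have p0 : 0 < r0 x := norm_pos_iff.2 hx0
  have p1 : 0 < r1 x := norm_pos_iff.2 hx1
  have e0 : Real.exp (2 * Real.log (r0 x)) = r0 x ^ 2 := by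
    rw [two_mul, Real.exp_add, Real.exp_log p0]; ring
  have e1 : Real.exp (2 * Real.log (r1 x)) = r1 x ^ 2 := by
    rw [two_mul, Real.exp_add, Real.exp_log p1]; ring
  have hq : qq (psl n x x) = ‖x‖ ^ 2 := by rw [qq, a0, a1, e0, e1, norm_sq_E4]
  ext i
  fin_cases i
  · simp only [Xi, hq, Real.log_pow, Pt]
    simp
    ring
  · simp only [Xi, a0, a1, ← Real.log_div p1.ne' p0.ne', Pt]
    simp [Real.exp_log (div_pos p1 p0)]
  · simp only [Xi, Pt]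
    simp only [Fin.reduceFinMk, Matrix.cons_val]
    rw [a2]

theorem phys_smooth {ν : ℝ} {n : ℕ} {F : V → ℝ} (hF : Per F) {x : E4} (hx0 : Zc 0 x ≠ 0) (hx1 : Zc 1 x ≠ 0)
    (hs : SA F (Pt ν n x)) : ContDiffAt ℝ ∞ (phys ν n F) x := by
  refine ContDiffAt.congr_of_eventuallyEq ?_ (phys_local_ev hF hx0 hx1)
  have hps : ContDiffAt ℝ ∞ (psl n x) x := psi_smooth (conj_mul_slit hx0) (conj_mul_slit hx1)
  have h1 : ContDiffAt ℝ ∞ (fun y => Xi ν 0 (psl n x y)) x := ContDiffAt.comp x (g := Xi ν 0) (f := psl n x) (Xi_smooth ν 0).contDiffAt hps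
  have h2 : ContDiffAt ℝ ∞ (fun y => gw (psl n x y)) x := ContDiffAt.comp x (g := gw) (f := psl n x) gw_smooth.contDiffAt hps
  rw [← Xi_psl hx0 hx1] at hs
  exact h2.mul (ContDiffAt.comp x (g := F) (f := fun y => Xi ν 0 (psl n x y)) hs h1)

/-- **the Laplacian of the physical function** -/
theorem lap_phys {ν : ℝ} (hν : 0 < ν) {n : ℕ} {F : V → ℝ} (hF : Per F) {x : E4} (hx0 : Zc 0 x ≠ 0) (hx1 : Zc 1 x ≠ 0)
    (hs : SA F (Pt ν n x)) :
    lap (phys ν n F) x = ν ^ 2 / ‖x‖ ^ 2 * (Real.sqrt (r0 x * r1 x))⁻¹ *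
      (pd 0 (pd 0 F) (Pt ν n x) + pd 1 (pd 1 F) (Pt ν n x) + kap n ν (Pt ν n x 1) * pd 2 (pd 2 F) (Pt ν n x) + pot ν (Pt ν n x 1) * F (Pt ν n x)) := by
  have hslit0 := conj_mul_slit hx0
  have hslit1 := conj_mul_slit hx1
  have hsX : SA F (Xi ν 0 (psl n x x)) := by rw [Xi_psl hx0 hx1]; exact hs
  have hg : SA (fun z => gw z * F (Xi ν 0 z)) (psl n x x) :=
    gw_smooth.contDiffAt.mul (ContDiffAt.comp _ (g := F) (f := Xi ν 0) hsX (Xi_smooth ν 0).contDiffAt)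
  rw [lap_congr (phys_local_ev hF hx0 hx1)]
  have h1 := lap_psi (f := fun z => gw z * F (Xi ν 0 z)) (n := n) (c0 := -Real.log (r0 x)) (c1 := -Real.log (r1 x)) (c2 := Complex.arg (Zc 0 x)) hslit0 hslit1 hg
  have h2 := flat_form (ζ := psl n x x) hν hsX (n : ℝ)
  have a0 : psl n x x 0 = Real.log (r0 x) := log_re_part hx0 hx0
  have a1 : psl n x x 1 = Real.log (r1 x) := log_re_part hx1 hx1
  have p0 : 0 < r0 x := norm_pos_iff.2 hx0
  have p1 : 0 < r1 x := norm_pos_iff.2 hx1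
  have e0 : Real.exp (2 * Real.log (r0 x)) = r0 x ^ 2 := by
    rw [two_mul, Real.exp_add, Real.exp_log p0]; ring
  have e1 : Real.exp (2 * Real.log (r1 x)) = r1 x ^ 2 := by
    rw [two_mul, Real.exp_add, Real.exp_log p1]; ring
  have n0 : Real.exp (-(2 * psl n x x 0)) = (Complex.normSq (Zc 0 x))⁻¹ := by
    rw [Real.exp_neg, a0, e0, Complex.normSq_eq_norm_sq]; rfl
  have n1 : Real.exp (-(2 * psl n x x 1)) = (Complex.normSq (Zc 1 x))⁻¹ := by
    rw [Real.exp_neg, a1, e1, Complex.normSq_eq_norm_sq]; rfl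
  rw [n0, n1] at h2
  have h3 : lap (fun y => (fun z => gw z * F (Xi ν 0 z)) (psl n x y)) x = _ := h1
  have h4 : lap (fun y => gw (psl n x y) * F (Xi ν 0 (psl n x y))) x =
      (Complex.normSq (Zc 0 x))⁻¹ * (pd 0 (pd 0 (fun z => gw z * F (Xi ν 0 z))) (psl n x x) + (n : ℝ) ^ 2 * pd 2 (pd 2 (fun z => gw z * F (Xi ν 0 z))) (psl n x x))
      + (Complex.normSq (Zc 1 x))⁻¹ * pd 1 (pd 1 (fun z => gw z * F (Xi ν 0 z))) (psl n x x) := h1
  rw [h4, h2, Xi_psl hx0 hx1]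
  have hq : qq (psl n x x) = ‖x‖ ^ 2 := by rw [qq, a0, a1, e0, e1, norm_sq_E4]
  have hgw : gw (psl n x x) = (Real.sqrt (r0 x * r1 x))⁻¹ := by
    rw [gw, a0, a1, ← Real.log_mul p0.ne' p1.ne']
    have h2 : -Real.log (r0 x * r1 x) / 2 = -(Real.log (Real.sqrt (r0 x * r1 x))) := by
      rw [Real.log_sqrt (by positivity)]; ring
    rw [h2, Real.exp_neg, Real.exp_log (Real.sqrt_pos.2 (by positivity))]
  have hx2 := norm_sq_E4 x
  -- the coefficients
  have hY : Pt ν n x 1 = ν * Real.arctan (r1 x / r0 x) := rfl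
  have hcos : Real.cos (Real.arctan (r1 x / r0 x)) ^ 2 = r0 x ^ 2 / ‖x‖ ^ 2 := by
    rw [Real.cos_sq_arctan, hx2]; field_simp
  have hxp : 0 < ‖x‖ ^ 2 := by rw [hx2]; positivity
  have hsin : Real.sin (Real.arctan (r1 x / r0 x)) ^ 2 = r1 x ^ 2 / ‖x‖ ^ 2 := by
    have := Real.sin_sq_add_cos_sq (Real.arctan (r1 x / r0 x))
    rw [hcos] at this
    have e : r1 x ^ 2 / ‖x‖ ^ 2 = 1 - r0 x ^ 2 / ‖x‖ ^ 2 := by
      rw [eq_sub_iff_add_eq, ← add_div, div_eq_one_iff_eq hxp.ne', hx2]; ring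
    rw [e]; linarith
  have hk : kap n ν (Pt ν n x 1) = (n : ℝ) ^ 2 * ‖x‖ ^ 2 / (ν ^ 2 * Real.exp (2 * psl n x x 0)) := by
    rw [kap, secsq, hY, a0, e0, add_zero]
    have : ν⁻¹ * (ν * Real.arctan (r1 x / r0 x)) = Real.arctan (r1 x / r0 x) := by field_simp
    rw [this, ← pow_two, hcos]
    field_simp
  have hp : pot ν (Pt ν n x 1) = (‖x‖ ^ 2) ^ 2 / (4 * ν ^ 2 * (Real.exp (2 * psl n x x 0) * Real.exp (2 * psl n x x 1))) := by
    rw [pot, hY, a0, a1, e0, e1]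
    have : 2 * (ν * Real.arctan (r1 x / r0 x)) / ν = 2 * Real.arctan (r1 x / r0 x) := by field_simp
    rw [this, Real.sin_two_mul]
    have : (2 * Real.sin (Real.arctan (r1 x / r0 x)) * Real.cos (Real.arctan (r1 x / r0 x))) ^ 2 =
      4 * (Real.sin (Real.arctan (r1 x / r0 x)) ^ 2 * Real.cos (Real.arctan (r1 x / r0 x)) ^ 2) := by ring
    rw [this, hsin, hcos]
    field_simp
  rw [hgw, hq, hk, hp]

end Pool.Agent.J6H20.RL
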