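import Mathlib
import Pool.Agent.J6H20.RL.CoreH
import Pool.Agent.J6H20.RL.Geom3

/-!
# Pure zones and periodicity
-/

set_option autoImplicit false

open Filter Topology
open scoped ContDiff

namespace Pool.Agent.J6H20.RL

/-- periodic with a given vector -/
def PV (v : V) (f : V → ℝ) : Prop := ∀ y, f (y + v) = f y

theorem PV.pd {v : V} {f : V → ℝ} (h : PV v f) (i : Fin 3) : PV v (pd i f) := by
  intro y
  have h1 : fderiv ℝ (fun z => f (z + v)) y = fderiv ℝ f (y + v) := fderiv_comp_add_right v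
  have h2 : (fun z => f (z + v)) = f := funext fun z => h z
  simp only [RL.pd]
  rw [← h1, h2]

theorem FF_PV {v : V} {κ c ξ Ψ R : V → ℝ} (hκ : PV v κ) (hc : PV v c) (hξ : PV v ξ) (hΨ : PV v Ψ) (hR : PV v R) :
    PV v (FF κ c ξ Ψ R) := by
  intro y
  simp only [FF, Rc, Hf, Qf, resid, Lo, hκ y, hc y, hξ y, hΨ y, hR y, hR.pd 0 y, hR.pd 1 y, hR.pd 2 y, hξ.pd 0 y, hξ.pd 1 y, hξ.pd 2 y,
    (hR.pd 0).pd 0 y, (hR.pd 1).pd 1 y, (hR.pd 2).pd 2 y]

theorem PV_0 {F : ℝ → ℝ} {t : ℝ} : PV ![0, 0, t] (fun y => F (y 0)) := fun y => by simp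
theorem PV_1 {F : ℝ → ℝ} {t : ℝ} : PV ![0, 0, t] (fun y => F (y 1)) := fun y => by simp
theorem PV.mul {v : V} {f g : V → ℝ} (hf : PV v f) (hg : PV v g) : PV v (fun y => f y * g y) := fun y => by simp only [hf y, hg y]
theorem PV.add {v : V} {f g : V → ℝ} (hf : PV v f) (hg : PV v g) : PV v (fun y => f y + g y) := fun y => by simp only [hf y, hg y]

theorem Per_of_PV {F : V → ℝ} (h : ∀ m : ℤ, PV ![0, 0, m * (2 * Real.pi)] F) : Per F := by
  intro T Y s m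
  have := h m ![T, Y, s]
  have e : (![T, Y, s] : V) + ![0, 0, m * (2 * Real.pi)] = ![T, Y, s + m * (2 * Real.pi)] := by
    ext i; fin_cases i <;> simp
  rwa [e] at this

theorem Ph_PV (a : ℝ) (m : ℤ) : PV ![0, 0, m * (2 * Real.pi)] (Ph a) := by
  intro y
  simp [Ph, Dn, Real.cos_add_int_mul_two_pi]

section
variable {η g k m0 α : ℝ} {P : TP η g k m0 α}

theorem R4_PV (b d th Om h hp : ℝ → ℝ) (m : ℤ) : PV ![0, 0, m * (2 * Real.pi)] (R4 b d th Om h hp) := by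
  intro y
  have e3 : 3 * (y 2 + m * (2 * Real.pi)) = 3 * y 2 + ((3 * m : ℤ) : ℝ) * (2 * Real.pi) := by push_cast; ring
  simp only [R4]
  simp only [Pi.add_apply, Matrix.cons_val_zero, Matrix.cons_val_one, Matrix.cons_val, add_zero, e3, Real.sin_add_int_mul_two_pi]

theorem xiG_PV {Φ : V → ℝ} {t : ℝ} (h : PV ![0, 0, t] Φ) : PV ![0, 0, t] (xiG P Φ) := by
  intro y
  simp only [xiG, h y]
  simp

theorem PhC_PV (a1 a3 : ℝ) (m : ℤ) : PV ![0, 0, m * (2 * Real.pi)] (PhC P a1 a3) :=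
  ((PV_0 (F := P.A1)).mul (Ph_PV a1 m)).add ((PV_0 (F := P.A3)).mul (Ph_PV a3 m))

theorem Fcell_Per {ε₁ : ℝ} (S : Sea ε₁) (a1 a3 q Y0 W ν n : ℝ) : Per (Fcell P S a1 a3 q Y0 W ν n) :=
  Per_of_PV fun m => FF_PV (PV_1 (F := kap n ν)) (PV_0 (F := fun t => deriv P.lam t * deriv P.lam t))
    (xiG_PV ((PV_1 (F := wf Y0 W)).mul (PhC_PV a1 a3 m))) (PV_1 (F := ψf Y0 W)) (R4_PV _ _ _ _ _ _ m)

/-- the core function has period in the last coordinate -/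
theorem FC_Per {ε₁ : ℝ} (S : Sea ε₁) (ν : ℝ) : Per (FC P S ν) :=
  Per_of_PV fun m => FF_PV (fun _ => rfl)
    ((PV_0 (F := fun t => S.κ ^ 2 * (deriv P.lam t * deriv P.lam t))).add (PV_1 (F := fun Y => 1 / (4 * Y ^ 2))))
    (xiG_PV fun _ => rfl) ((PV_1 (F := fun Y => chi (2 * Y + -1))).mul (PV_1 (F := fun Y => chi (-8 * Y + (8 * S.YK - 3))))) (R4_PV _ _ _ _ _ _ m)

theorem FA_Per {ε₁ : ℝ} (S : Sea ε₁) : Per (FA P S) :=
  Per_of_PV fun m => FF_PV (fun _ => rfl) (PV_0 (F := fun t => deriv P.lam t * deriv P.lam t)) (xiG_PV fun _ => rfl) (fun _ => rfl) (R4_PV _ _ _ _ _ _ m)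

/-- next to the walls the function in a cell is pure -/
theorem Fcell_wall {ε₁ : ℝ} (S : Sea ε₁) {a1 a3 q Y0 W ν n : ℝ} {y : V} (h : y 1 - Y0 ≤ 1 / 8 ∨ Y0 + W - y 1 ≤ 1 / 8) :
    Fcell P S a1 a3 q Y0 W ν n y = Fpure P S.h (fun Y => S.h (k * Y)) (y 0) (y 1) := by
  have hψ : ψf Y0 W (y 1) = 0 := ψf_zero (by rcases h with h | h; exact Or.inl (by linarith); exact Or.inr (by linarith))
  rw [Fcell, FF_triv (by rw [hψ]; ring), Fpure]
  simp only [xiG, R4, Φf, Omf, wf_zero h]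
  ring_nf

/-- residual of a sea part -/
theorem resid_xi0 {h hp : ℝ → ℝ} {κ c : V → ℝ} {y : V} (hh : ContDiffAt ℝ ∞ h (y 1)) (hhp : ContDiffAt ℝ ∞ hp (y 1)) :
    resid κ c (xi0 P) (RG P h hp) y =
      (deriv (deriv P.th) (y 0) + (2 * -deriv P.lam (y 0)) * deriv P.th (y 0)) * (h (y 1) - hp (y 1))
      + P.th (y 0) * (deriv (deriv h) (y 1) + c y * h (y 1))
      + (1 - P.th (y 0)) * (deriv (deriv hp) (y 1) + c y * hp (y 1)) := by
  obtain ⟨f0, f1, f2⟩ := xi0_pd (P := P)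
  simp only [resid, RG]
  rw [R4_formula contDiffAt_const contDiffAt_const (P.th_sm _) contDiffAt_const hh hhp, f0, f1, f2]
  simp only [deriv_const]
  ring

/-- the time profiles are trivial -/
structure Triv (P : TP η g k m0 α) (T θ0 μ : ℝ) : Prop where
  b : ∀ᶠ t in 𝓝 T, P.b t = 0
  A1 : ∀ᶠ t in 𝓝 T, P.A1 t = 0
  A3 : ∀ᶠ t in 𝓝 T, P.A3 t = 0
  th : ∀ᶠ t in 𝓝 T, P.th t = θ0
  lam : deriv P.lam T = μ
  ch : (θ0 = 1 ∧ μ = 1) ∨ (θ0 = 0 ∧ μ = k)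

theorem triv_pre {T : ℝ} (hT : T < 0) : Triv P T 1 1 := by
  have ev : ∀ᶠ t in 𝓝 T, t ≤ 0 := (gt_mem_nhds hT).mono fun t ht => le_of_lt ht
  refine ⟨ev.mono fun t ht => (P.pre t ht).1, ev.mono fun t ht => (P.pre t ht).2.1, ev.mono fun t ht => (P.pre t ht).2.2.1,
    ev.mono fun t ht => (P.pre t ht).2.2.2.1, ?_, Or.inl ⟨rfl, rfl⟩⟩
  have : P.lam =ᶠ[𝓝 T] fun t => t := ev.mono fun t ht => (P.pre t ht).2.2.2.2
  rw [this.deriv_eq]; exact deriv_id T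

theorem triv_post {T : ℝ} (hT : P.Tend < T) : Triv P T 0 k := by
  have ev : ∀ᶠ t in 𝓝 T, P.Tend ≤ t := (lt_mem_nhds hT).mono fun t ht => le_of_lt ht
  refine ⟨ev.mono fun t ht => (P.post t ht).1, ev.mono fun t ht => (P.post t ht).2.1, ev.mono fun t ht => (P.post t ht).2.2.1,
    ev.mono fun t ht => (P.post t ht).2.2.2.1, ?_, Or.inr ⟨rfl, rfl⟩⟩
  have : P.lam =ᶠ[𝓝 T] fun t => k * t - P.lam0 := ev.mono fun t ht => (P.post t ht).2.2.2.2.1
  rw [this.deriv_eq]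
  have h2 : HasDerivAt (fun t : ℝ => k * t - P.lam0) k T := by
    have := ((hasDerivAt_id T).const_mul k).sub_const P.lam0
    simpa using this
  exact h2.deriv

theorem Triv.d {T θ0 μ : ℝ} (h : Triv P T θ0 μ) : deriv P.th T = 0 ∧ deriv (deriv P.th) T = 0 ∧ P.th T = θ0 := by
  have h1 : P.th =ᶠ[𝓝 T] fun _ => θ0 := h.th
  have h2 : deriv P.th =ᶠ[𝓝 T] fun _ => 0 := by
    filter_upwards [h1.eventuallyEq_nhds] with t ht
    rw [ht.deriv_eq]; simp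
  refine ⟨h2.eq_of_nhds, ?_, h1.eq_of_nhds⟩
  rw [h2.deriv_eq]; simp

/-- the function in a cell in the trivial zones -/
theorem Fcell_triv {ε₁ : ℝ} (S : Sea ε₁) {a1 a3 q Y0 W ν n θ0 μ : ℝ} {y : V} (hk : 1 ≤ k) (hY0 : S.YK ≤ Y0) (hT : Triv P (y 0) θ0 μ) :
    Fcell P S a1 a3 q Y0 W ν n y = Fpure P S.h (fun Y => S.h (k * Y)) (y 0) (y 1) := by
  have ct : ContinuousAt (fun z : V => z 0) y := (coordSA 0 y).continuousAt
  have hξ : xiG P (Φf P a1 a3 Y0 W) =ᶠ[𝓝 y] xi0 P := by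
    filter_upwards [ct.eventually hT.A1, ct.eventually hT.A3] with z h1 h3
    simp only [xiG, Φf, PhC, xi0, h1, h3]; ring
  have hR : (R4 P.b (dT P a1 a3) P.th (Omf q Y0 W) S.h (fun Y => S.h (k * Y))) =ᶠ[𝓝 y] RG P S.h (fun Y => S.h (k * Y)) := by
    filter_upwards [ct.eventually hT.b] with z h1
    simp only [R4, RG, dT, h1]; ring
  have hE : Fcell P S a1 a3 q Y0 W ν n =ᶠ[𝓝 y] FF (fun y => kap n ν (y 1)) (ccC P) (xi0 P) (fun y => ψf Y0 W (y 1)) (RG P S.h (fun Y => S.h (k * Y))) :=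
    FF_congr EventuallyEq.rfl EventuallyEq.rfl hξ EventuallyEq.rfl hR
  rw [hE.eq_of_nhds, FF_triv, Fpure, RG_val]
  · simp only [xi0, xiG, add_zero]
  · by_cases hψ : y 1 - Y0 ≤ 3 / 8 ∨ Y0 + W - y 1 ≤ 3 / 8
    · rw [ψf_zero hψ]; ring
    · push Not at hψ
      have hK := S.YK_ge
      have hy : S.YK + 3 / 8 < y 1 := by linarith [hψ.1]
      have hky : y 1 ≤ k * y 1 := by nlinarith
      obtain ⟨d1, d2, d3⟩ := hT.d
      rw [resid_xi0 (S.smooth (by linarith)) (hk_smooth S (by linarith) (by linarith)), (hk_d (F := S.h) (k := k) (Y := y 1) (S.smooth (by linarith))).2,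
        S.deriv2_right (by linarith), S.deriv2_right (by linarith), d1, d2, d3, ccC, hT.lam]
      rcases hT.ch with ⟨e1, e2⟩ | ⟨e1, e2⟩
      · rw [e1, e2]; ring
      · rw [e1, e2]; ring

/-- the core function in the trivial zones -/
theorem FC_triv {ε₁ : ℝ} (S : Sea ε₁) {ν θ0 μ : ℝ} {y : V} (hν : 4 ≤ ν) (hk : 1 ≤ k) (hkK : (k - 1) * (S.YK + 1) ≤ 1 / 16) (h0 : 0 < y 1) (hT : Triv P (y 0) θ0 μ) :
    FC P S ν y = Real.exp (-P.lam (y 0)) * (P.th (y 0) * zs S ν (y 1) + (1 - P.th (y 0)) * zs S (k * ν) (k * y 1)) := by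
  rw [FC, FF_triv, RG_val]
  · simp only [xi0, xiG, add_zero]
  · have hK := S.YK_ge
    by_cases h1 : y 1 ≤ 1 / 2
    · rw [Ψc, chi_zero (t := 2 * y 1 + -1) (by linarith)]; ring
    by_cases h2 : S.YK - 3 / 8 ≤ y 1
    · rw [Ψc, chi_zero (t := -8 * y 1 + (8 * S.YK - 3)) (by linarith)]; ring
    push Not at h1 h2
    have hky : y 1 ≤ k * y 1 := by nlinarith
    have hky2 : k * y 1 ≤ y 1 + 1 / 16 := by
      have := mul_le_mul_of_nonneg_left (show y 1 ≤ S.YK + 1 by linarith) (by linarith : 0 ≤ k - 1)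
      linarith
    have e1 : zs S ν =ᶠ[𝓝 (y 1)] S.h := zs_right_ev S (by linarith)
    have e2 : zs S (k * ν) =ᶠ[𝓝 (k * y 1)] S.h := zs_right_ev S (by linarith)
    have ekν : 4 ≤ k * ν := by nlinarith
    have smp : ContDiffAt ℝ ∞ (fun Y => zs S (k * ν) (k * Y)) (y 1) :=
      ContDiffAt.comp (y 1) (g := zs S (k * ν)) (f := fun Y : ℝ => k * Y) (zs_smooth S ekν (by linarith)) (contDiffAt_const.mul contDiffAt_id)
    obtain ⟨d1, d2, d3⟩ := hT.d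
    have f1 : deriv (deriv (zs S ν)) (y 1) = deriv (deriv S.h) (y 1) := e1.deriv.deriv_eq
    have f2 : deriv (deriv (zs S (k * ν))) (k * y 1) = deriv (deriv S.h) (k * y 1) := e2.deriv.deriv_eq
    rw [residG (zs_smooth S hν (by linarith)) smp, (hk_d (F := zs S (k * ν)) (k := k) (Y := y 1) (zs_smooth S ekν (by linarith))).2,
      f1, f2, e1.eq_of_nhds, e2.eq_of_nhds, S.deriv2_left (by linarith) (by linarith), S.deriv2_left (by linarith) (by linarith), d1, d2, d3, ccC, hT.lam]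
    have hk0 : k ≠ 0 := by linarith
    have hy0 : y 1 ≠ 0 := by linarith
    rcases hT.ch with ⟨e1, e2⟩ | ⟨e1, e2⟩
    · rw [e1, e2]; ring
    · rw [e1, e2]; field_simp; ring

end

end Pool.Agent.J6H20.RL
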