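import Mathlib
import Pool.Agent.J6H20.RL.FlatA

/-!
# The piecewise flat function
-/

set_option autoImplicit false

open Filter Topology
open scoped ContDiff

namespace Pool.Agent.J6H20.RL

/-- the detuning -/
noncomputable def aof (μ q : ℝ) : ℝ := (1 - (μ ^ 2 - q ^ 2) / (1 - q ^ 2)) / (9 - (μ ^ 2 - q ^ 2) / (1 - q ^ 2))

theorem aof_rel {μ q e : ℝ} (h0 : 0 ≤ q) (hq : q ≤ 1 / 10) (hμ : |μ - 1| ≤ e) (he : e ≤ 1 / 50) :
    μ ^ 2 - q ^ 2 = (1 - q ^ 2) * ((1 - 9 * aof μ q) / (1 - aof μ q)) ∧ |aof μ q| ≤ e := by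
  have he0 : 0 ≤ e := (abs_nonneg _).trans hμ
  have hq2 : q ^ 2 ≤ 1 / 100 := by nlinarith
  have hQ : 0 < 1 - q ^ 2 := by linarith
  set δ := (μ ^ 2 - q ^ 2) / (1 - q ^ 2) with hδ
  have e1 : δ * (1 - q ^ 2) = μ ^ 2 - q ^ 2 := by rw [hδ]; field_simp
  have h1 : |μ ^ 2 - 1| ≤ 203 / 100 * e := by
    have : μ ^ 2 - 1 = (μ - 1) * (μ + 1) := by ring
    rw [this, abs_mul, mul_comm (203 / 100 : ℝ)]
    have h2 : |μ + 1| ≤ 203 / 100 := by
      have := abs_le.1 hμ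
      rw [abs_le]; constructor <;> linarith [this.1, this.2]
    exact mul_le_mul hμ h2 (abs_nonneg _) he0
  have h3 : |1 - δ| ≤ 21 / 10 * e := by
    have h5 : (1 - δ) * (1 - q ^ 2) = -(μ ^ 2 - 1) := by linarith
    have h4 : |1 - δ| * (1 - q ^ 2) = |μ ^ 2 - 1| := by rw [← abs_of_pos hQ, ← abs_mul, h5, abs_neg]
    have := mul_le_mul_of_nonneg_left (show (99 : ℝ) / 100 ≤ 1 - q ^ 2 by linarith) (abs_nonneg (1 - δ))
    linarith
  have h6 := abs_le.1 h3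
  have h9 : 0 < 9 - δ := by linarith [h6.1]
  constructor
  · have ha : 1 - aof μ q = 8 / (9 - δ) := by rw [aof, ← hδ]; field_simp; ring
    have hb : 1 - 9 * aof μ q = 8 * δ / (9 - δ) := by rw [aof, ← hδ]; field_simp; ring
    rw [ha, hb]
    have : 8 * δ / (9 - δ) / (8 / (9 - δ)) = δ := by field_simp
    rw [this]; linarith
  · rw [aof, ← hδ, abs_div, abs_of_pos h9, div_le_iff₀ h9]
    have : e * (79 / 10) ≤ e * (9 - δ) := mul_le_mul_of_nonneg_left (by linarith [h6.1]) he0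
    linarith

theorem cosI (A : ℤ) (z : ℝ) : Real.cos (A * (2 * Real.pi) + z) = Real.cos z := by rw [add_comm, Real.cos_add_int_mul_two_pi]
theorem sinI (A : ℤ) (z : ℝ) : Real.sin (A * (2 * Real.pi) + z) = Real.sin z := by rw [add_comm, Real.sin_add_int_mul_two_pi]
theorem cosI' (A : ℤ) (z : ℝ) : Real.cos (A * (2 * Real.pi) - z) = Real.cos z := by
  rw [sub_eq_add_neg, cosI, Real.cos_neg]
theorem sinI' (A : ℤ) (z : ℝ) : Real.sin (A * (2 * Real.pi) - z) = -Real.sin z := by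
  rw [sub_eq_add_neg, sinI, Real.sin_neg]

/-- the hypotheses on a cell -/
theorem mkCell {k ς D p Y0 W : ℝ} {i0 : ℕ} {A B A' B' : ℤ} (hp : 0 < p) (hk : k = 1 + 1 / p) (hς : 0 < ς) (hς1 : ς ≤ 1 / 100)
    (hςi : ς * (Real.pi * (i0 + 1 / 2)) = 1) (hD : 0 ≤ D)
    (e1 : Y0 = A * (2 * Real.pi)) (e2 : Y0 + W = B * (2 * Real.pi)) (e3 : |k * Y0 - A' * (2 * Real.pi)| ≤ D / p) (e4 : k * (Y0 + W) = B' * (2 * Real.pi))
    (w0 : 10 * Real.pi ≤ W) (w1 : W ≤ 2 * Real.pi * p) (w2 : (1 + ς / 9) * (2 * Real.pi * p) ≤ (1 + ς / 8) * W)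
    (w3 : Real.pi * (5 / ς) ≤ ς / 4 * W) (w4 : 3 * (5 / ς + D + 1) ≤ ς ^ 2 / 100 * p) :
    CellH k (2 * p * ς) (ς / 9) ς i0 (Real.pi / W) Y0 W ((5 / ς + D + 1) / p) := by
  have hπ := Real.pi_pos
  have hW : 0 < W := by linarith
  have h5 : 0 < 5 / ς := by positivity
  have hDp : D / p ≤ (5 / ς + D + 1) / p := div_le_div_of_nonneg_right (by linarith) hp.le
  have hk1 : 1 ≤ k := by rw [hk]; have : 0 < 1 / p := by positivity
                         linarith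
  have hkz : ∀ z : ℝ, |z| ≤ 5 / ς → |k * z - z| ≤ (5 / ς) / p := by
    intro z hz
    have : k * z - z = z / p := by rw [hk]; field_simp; ring
    rw [this, abs_div, abs_of_pos hp]
    exact div_le_div_of_nonneg_right hz hp.le
  have hsum : D / p + 5 / ς / p ≤ (5 / ς + D + 1) / p := by
    rw [← add_div]; exact div_le_div_of_nonneg_right (by linarith) hp.le
  have hsum2 : 5 / ς / p ≤ (5 / ς + D + 1) / p := div_le_div_of_nonneg_right (by linarith) hp.le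
  refine ⟨by positivity, ?_, by field_simp, by positivity, hk1, ?_, hς, hς1, hςi, by positivity, ?_, ?_, ?_, by positivity, ?_, ?_, ?_, ?_, ?_, ?_, ?_⟩
  · rw [div_le_div_iff₀ hW (by norm_num)]; linarith
  · rw [hk]
    have : 1 / p ≤ (5 / ς + D + 1) / p := div_le_div_of_nonneg_right (by linarith) hp.le
    linarith
  · have : 2 * p * ς * (Real.pi / W) = ς * (2 * Real.pi * p) / W := by ring
    rw [this, le_div_iff₀ hW]
    exact mul_le_mul_of_nonneg_left w1 hς.le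
  · have : 2 * p * ς * (1 + ς / 9) * (Real.pi / W) = ς * ((1 + ς / 9) * (2 * Real.pi * p)) / W := by ring
    rw [this, div_le_iff₀ hW]
    have := mul_le_mul_of_nonneg_left w2 hς.le
    linarith
  · have h6 : Real.pi / W * (5 / ς) ≤ ς / 4 := by
      have : Real.pi / W * (5 / ς) = Real.pi * (5 / ς) / W := by ring
      rw [this, div_le_iff₀ hW]; exact w3
    have h7 : 0 ≤ Real.pi / W * (5 / ς) := by positivity
    calc (Real.pi / W * (5 / ς)) ^ 2 ≤ (ς / 4) ^ 2 := pow_le_pow_left₀ h7 h6 2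
      _ ≤ ς / 10 := by nlinarith
  · rw [← mul_div_assoc, div_le_iff₀ hp]; linarith
  · intro z; rw [e1, cosI]
  · intro z; rw [e1, sinI]
  · intro z; rw [e2, cosI']
  · intro z; rw [e2, sinI']
  · intro z hz
    set e := k * Y0 - A' * (2 * Real.pi) with he
    have e5 : k * (Y0 + z) = A' * (2 * Real.pi) + (e + k * z) := by rw [he]; ring
    have h8 : |e + k * z - z| ≤ (5 / ς + D + 1) / p := by
      have : e + k * z - z = e + (k * z - z) := by ring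
      rw [this]
      exact (abs_add_le _ _).trans ((add_le_add e3 (hkz z hz)).trans hsum)
    rw [e5, cosI, sinI]
    exact ⟨(Real.abs_cos_sub_cos_le _ _).trans h8, (Real.abs_sin_sub_sin_le _ _).trans h8⟩
  · intro z hz
    have e5 : k * (Y0 + W - z) = B' * (2 * Real.pi) - k * z := by rw [mul_sub, e4]
    rw [e5, cosI', sinI']
    have h8 := (hkz z hz).trans hsum2
    refine ⟨(Real.abs_cos_sub_cos_le _ _).trans h8, ?_⟩
    have : -Real.sin (k * z) + Real.sin z = -(Real.sin (k * z) - Real.sin z) := by ring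
    rw [this, abs_neg]
    exact (Real.abs_sin_sub_sin_le _ _).trans h8

section
variable {ε₁ : ℝ} (S : Sea ε₁)

noncomputable def Yj (p : ℕ) (j : ℕ) : ℝ := if j = 0 then S.YK else 2 * Real.pi * (p * j)
noncomputable def Wj (p : ℕ) (j : ℕ) : ℝ := 2 * Real.pi * (p * (j + 1)) - Yj S p j
noncomputable def qj (p : ℕ) (j : ℕ) : ℝ := Real.pi / Wj S p j
noncomputable def nj (ν : ℝ) (p : ℕ) (j : ℕ) : ℕ := ⌊Real.sqrt (1 - qj S p j ^ 2) * ν * Real.cos (Yj S p j / ν)⌋₊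
noncomputable def jj (p : ℕ) (Y : ℝ) : ℕ := ⌊Y / (2 * Real.pi * p)⌋₊

theorem jj_eq {p j : ℕ} {Y : ℝ} (hp : 0 < p) (h1 : 2 * Real.pi * (p * j) ≤ Y) (h2 : Y < 2 * Real.pi * (p * (j + 1))) : jj p Y = j := by
  have hp' : (0 : ℝ) < p := by exact_mod_cast hp
  have hπ := Real.pi_pos
  rw [jj]
  have h3 : 0 < 2 * Real.pi * (p : ℝ) := by positivity
  rw [Nat.floor_eq_iff (by
    have : (0 : ℝ) ≤ Y := le_trans (by positivity) h1
    positivity)]
  constructor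
  · rw [le_div_iff₀ h3]; linarith
  · rw [div_lt_iff₀ h3]; linarith

theorem jj_spec {p : ℕ} {Y : ℝ} (hp : 0 < p) (h0 : 0 ≤ Y) : 2 * Real.pi * (p * jj p Y) ≤ Y ∧ Y < 2 * Real.pi * (p * (jj p Y + 1)) := by
  have hp' : (0 : ℝ) < p := by exact_mod_cast hp
  have hπ := Real.pi_pos
  have h3 : 0 < 2 * Real.pi * (p : ℝ) := by positivity
  have h4 : 0 ≤ Y / (2 * Real.pi * p) := by positivity
  have h5 := Nat.floor_le h4
  have h6 := Nat.lt_floor_add_one (Y / (2 * Real.pi * p))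
  rw [le_div_iff₀ h3] at h5
  rw [div_lt_iff₀ h3] at h6
  rw [jj]
  constructor
  · linarith
  · linarith

variable {η g k m0 α : ℝ} (P : TP η g k m0 α)

/-- the flat function -/
noncomputable def Fst (ν : ℝ) (p : ℕ) (T Y θ : ℝ) : ℝ :=
  if Y < S.YK then FC P S ν ![T, Y, 0] else
    Fcell P S (aof (1 - g) (qj S p (jj p Y))) (aof (k + g) (qj S p (jj p Y))) (qj S p (jj p Y)) (Yj S p (jj p Y)) (Wj S p (jj p Y)) ν
      (nj S ν p (jj p Y)) ![T, Y, nj S ν p (jj p Y) * θ]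

end

/-- what the geometric part needs -/
structure FlatOK {ε₁ : ℝ} (ε : ℝ) (S : Sea ε₁) (B g k ν : ℝ) (lam th : ℝ → ℝ) (Tend lam0 : ℝ) (Fs : ℝ → ℝ → ℝ → ℝ) : Prop where
  lam_sm : ∀ T, ContDiffAt ℝ ∞ lam T
  th_sm : ∀ T, ContDiffAt ℝ ∞ th T
  th_mem : ∀ T, 0 ≤ th T ∧ th T ≤ 1
  lam_ge : ∀ T, T - 1 / g ≤ lam T
  pre : ∀ T ≤ 0, th T = 1 ∧ lam T = T
  post : ∀ T, Tend ≤ T → th T = 0 ∧ lam T = k * T - lam0 ∧ T ≤ lam T
  loc : ∀ T Y, 0 < Y → Y ≤ ν * (Real.pi / 4) → ∃ n : ℕ, ∃ F : V → ℝ, Per F ∧ (∀ s, Conc ε B (kap n ν Y) (pot ν Y) (lam T) F ![T, Y, s]) ∧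
    ∀ᶠ p : ℝ × ℝ in 𝓝 (T, Y), ∀ θ, Fs p.1 p.2 θ = F ![p.1, p.2, n * θ]
  mid : ∀ T Y, |Y - ν * (Real.pi / 4)| < 1 / 8 → ∀ θ, Fs T Y θ = Real.exp (-lam T) * (th T * Real.cos Y + (1 - th T) * Real.cos (k * Y))
  pole : ∀ T Y, 0 < Y → Y < 1 / 2 → ∀ θ, Fs T Y θ = Real.exp (-lam T) * (th T * zs S ν Y + (1 - th T) * zs S (k * ν) (k * Y))
  pure : ∀ T Y, 0 < Y → (T < 0 ∨ Tend < T) → ∀ θ, Fs T Y θ = Real.exp (-lam T) * (th T * zs S ν Y + (1 - th T) * zs S (k * ν) (k * Y))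

end Pool.Agent.J6H20.RL
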