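import Mathlib
import Pool.Agent.J6H20.RL.FlatB

/-!
# The flat estimate
-/

set_option autoImplicit false

open Filter Topology
open scoped ContDiff

namespace Pool.Agent.J6H20.RL

/-- all constants of a cycle -/
structure Glob {ε₁ : ℝ} (ε : ℝ) (S : Sea ε₁) (ς C C3 Cp Cb cn cp ηs ε₂ ν₀ : ℝ) (g η η₀ η₂ : ℝ) (i0 p : ℕ) (ν : ℝ) : Prop where
  cst : Cst ε S ς C C3 Cp (8 * Cb)
  cyc : Cyc ε S ς C C3 Cp (8 * Cb) g η (g + 1 / p) η₀ η₂ (1 + 1 / p)
  coc : CoC ε S C3 Cb cn cp C ηs ε₂ ν₀ η (1 + 1 / p)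
  ς1 : ς ≤ 1 / 100
  ςi : ς * (Real.pi * (i0 + 1 / 2)) = 1
  pia : S.ia + 5 ≤ p
  w2 : (1 + ς / 9) * (2 * Real.pi * p) ≤ (1 + ς / 8) * (2 * Real.pi * (p - S.ia))
  w3 : Real.pi * (5 / ς) ≤ ς / 4 * (2 * Real.pi * (p - S.ia))
  w4 : 3 * (5 / ς + S.YK + 1) ≤ ς ^ 2 / 100 * p
  νp : ∃ N : ℕ, 1 ≤ N ∧ ν = 8 * p * N
  νν₀ : ν₀ ≤ ν
  kapOK : ∀ K Y0 Y : ℝ, 0 ≤ K → K ≤ 1 → 0 ≤ Y0 → Y0 / ν ≤ 8 / 10 → |Y - Y0| ≤ 2 * Real.pi * p →
    Jt 2 (min η η₂) (fun t => kap (⌊K * ν * Real.cos (Y0 / ν)⌋₊ : ℝ) ν t - K ^ 2) Y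

theorem Conc.mono {ε B B' κ po l : ℝ} {F : V → ℝ} {x : V} (h : Conc ε B κ po l F x) (hB : B ≤ B') : Conc ε B' κ po l F x :=
  ⟨h.1, h.2.1, h.2.2.trans (mul_le_mul_of_nonneg_right hB (Real.exp_pos _).le)⟩

section
variable {ε₁ ε ς C C3 Cp Cb cn cp ηs ε₂ ν₀ g η η₀ η₂ ν : ℝ} {i0 p : ℕ} {S : Sea ε₁}

theorem Glob.p0 (G : Glob ε S ς C C3 Cp Cb cn cp ηs ε₂ ν₀ g η η₀ η₂ i0 p ν) : 0 < p := by have := G.pia; omega

theorem Glob.pr (G : Glob ε S ς C C3 Cp Cb cn cp ηs ε₂ ν₀ g η η₀ η₂ i0 p ν) : (S.ia : ℝ) + 5 ≤ p := by exact_mod_cast G.pia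

theorem Glob.YKp (G : Glob ε S ς C C3 Cp Cb cn cp ηs ε₂ ν₀ g η η₀ η₂ i0 p ν) : S.YK + 30 ≤ 2 * Real.pi * p := by
  have h1 := G.pr
  have h2 := Real.pi_gt_three
  rw [Sea.YK]; nlinarith

theorem Yj_succ {j : ℕ} (hj : j ≠ 0) : Yj S p j = 2 * Real.pi * (p * j) := by rw [Yj, if_neg hj]
theorem Yj_zero : Yj S p 0 = S.YK := by rw [Yj, if_pos rfl]
theorem YWj (j : ℕ) : Yj S p j + Wj S p j = 2 * Real.pi * (p * (j + 1)) := by rw [Wj]; ring

theorem Glob.Yge (G : Glob ε S ς C C3 Cp Cb cn cp ηs ε₂ ν₀ g η η₀ η₂ i0 p ν) (j : ℕ) : S.YK ≤ Yj S p j := by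
  by_cases hj : j = 0
  · rw [hj, Yj_zero]
  · rw [Yj_succ hj]
    have h1 := G.YKp
    have h2 : (1 : ℝ) ≤ j := by exact_mod_cast Nat.one_le_iff_ne_zero.2 hj
    have h3 : 0 ≤ 2 * Real.pi * (p : ℝ) := by have := Real.pi_pos; positivity
    nlinarith

/-- cells -/
theorem Glob.cell (G : Glob ε S ς C C3 Cp Cb cn cp ηs ε₂ ν₀ g η η₀ η₂ i0 p ν) (j : ℕ) :
    CellH (1 + 1 / p) (2 * p * ς) (ς / 9) ς i0 (qj S p j) (Yj S p j) (Wj S p j) ((5 / ς + S.YK + 1) / p) := by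
  have hp : (0 : ℝ) < p := by exact_mod_cast G.p0
  have hπ := Real.pi_pos
  have hpr := G.pr
  have hK := S.YK_ge
  have hς := G.cst.ς0
  have hia : (0 : ℝ) ≤ S.ia := by positivity
  by_cases hj : j = 0
  · subst hj
    refine mkCell (D := S.YK) (A := S.ia) (B := p) (A' := S.ia) (B' := p + 1) hp rfl hς G.ς1 G.ςi (by linarith) ?_ ?_ ?_ ?_ ?_ ?_ ?_ ?_ G.w4
    · rw [Yj_zero, Sea.YK]; push_cast; ring
    · rw [YWj]; push_cast; ring
    · rw [Yj_zero]
      have : (1 + 1 / (p : ℝ)) * S.YK - ((S.ia : ℤ) : ℝ) * (2 * Real.pi) = S.YK / p := by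
        have : ((S.ia : ℤ) : ℝ) * (2 * Real.pi) = S.YK := by rw [Sea.YK]; push_cast; ring
        rw [this]; ring
      rw [this, abs_of_nonneg (by positivity)]
    · rw [YWj]; push_cast; field_simp; ring
    · rw [Wj, Yj_zero, Sea.YK]; push_cast; nlinarith
    · rw [Wj, Yj_zero]; push_cast; linarith
    · have : Wj S p 0 = 2 * Real.pi * (p - S.ia) := by rw [Wj, Yj_zero, Sea.YK]; push_cast; ring
      rw [this]; exact G.w2
    · have : Wj S p 0 = 2 * Real.pi * (p - S.ia) := by rw [Wj, Yj_zero, Sea.YK]; push_cast; ring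
      rw [this]; exact G.w3
  · have hW : Wj S p j = 2 * Real.pi * p := by rw [Wj, Yj_succ hj]; ring
    have hWge : 2 * Real.pi * (p - S.ia) ≤ 2 * Real.pi * (p : ℝ) := by nlinarith
    refine mkCell (D := S.YK) (A := p * j) (B := p * (j + 1)) (A' := (p + 1) * j) (B' := (p + 1) * (j + 1)) hp rfl hς G.ς1 G.ςi (by linarith) ?_ ?_ ?_ ?_ ?_ ?_ ?_ ?_ G.w4
    · rw [Yj_succ hj]; push_cast; ring
    · rw [YWj]; push_cast; ring
    · rw [Yj_succ hj]
      have : (1 + 1 / (p : ℝ)) * (2 * Real.pi * (p * j)) - (((p + 1) * j : ℤ) : ℝ) * (2 * Real.pi) = 0 := by push_cast; field_simp; ring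
      rw [this, abs_zero]; positivity
    · rw [YWj]; push_cast; field_simp
    · rw [hW]; nlinarith
    · rw [hW]
    · rw [hW]; exact G.w2.trans (mul_le_mul_of_nonneg_left hWge (by positivity))
    · rw [hW]; exact G.w3.trans (mul_le_mul_of_nonneg_left hWge (by positivity))

variable (P : TP η g (1 + 1 / p) (2 * p * ς) (ς / 9))

/-- the function at the walls -/
theorem Glob.near_wall (G : Glob ε S ς C C3 Cp Cb cn cp ηs ε₂ ν₀ g η η₀ η₂ i0 p ν) (j : ℕ) {T Y : ℝ} (hY : |Y - Yj S p j| ≤ 1 / 8) (θ : ℝ) :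
    Fst S P ν p T Y θ = Fpure P S.h (fun Y => S.h ((1 + 1 / p) * Y)) T Y := by
  obtain ⟨h1, h2⟩ := abs_le.1 hY
  have hK := S.YK_ge
  have hKp := G.YKp
  have hp : (0 : ℝ) < p := by exact_mod_cast G.p0
  have hπ := Real.pi_gt_three
  have h2p : 0 < 2 * Real.pi * (p : ℝ) := by positivity
  rcases lt_or_ge Y (Yj S p j) with h | h
  · by_cases hj : j = 0
    · subst hj
      rw [Yj_zero] at h h1
      rw [Fst, if_pos h]
      have h3 := (core_right (P := P) G.coc (ν := ν) (x := ![T, Y, 0]) (by show S.YK - 3 / 8 < Y; linarith)).eq_of_nhds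
      rw [h3, FA_eq]; rfl
    · obtain ⟨m, rfl⟩ := Nat.exists_eq_succ_of_ne_zero hj
      rw [Yj_succ hj] at h h1 h2
      push_cast at h h1 h2
      have hm : (0 : ℝ) ≤ m := by positivity
      have hmp : 0 ≤ 2 * Real.pi * (p * m) := by positivity
      have hYK : S.YK ≤ Y := by nlinarith
      have hjj : jj p Y = m := jj_eq G.p0 (by nlinarith) (by linarith)
      rw [Fst, if_neg (not_lt.2 hYK), hjj]
      refine Fcell_wall S (Or.inr ?_)
      rw [YWj]
      show 2 * Real.pi * (p * (m + 1)) - Y ≤ 1 / 8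
      linarith
  · have hYK : S.YK ≤ Y := (G.Yge j).trans h
    have hjj : jj p Y = j := by
      by_cases hj : j = 0
      · subst hj
        rw [Yj_zero] at h2
        refine jj_eq G.p0 (by push_cast; linarith) (by push_cast; linarith)
      · rw [Yj_succ hj] at h h2
        exact jj_eq G.p0 h (by nlinarith)
    rw [Fst, if_neg (not_lt.2 hYK), hjj]
    exact Fcell_wall S (Or.inl h2)

theorem νquarter (G : Glob ε S ς C C3 Cp Cb cn cp ηs ε₂ ν₀ g η η₀ η₂ i0 p ν) : ∃ N : ℕ, 1 ≤ N ∧ ν * (Real.pi / 4) = Yj S p N := by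
  obtain ⟨N, h1, h2⟩ := G.νp
  refine ⟨N, h1, ?_⟩
  rw [Yj_succ (by omega), h2]; ring

/-- the potential away from the axis -/
theorem Glob.pot_small (G : Glob ε S ς C C3 Cp Cb cn cp ηs ε₂ ν₀ g η η₀ η₂ i0 p ν) {Y : ℝ} (h1 : S.YK - 1 ≤ Y) (h2 : Y ≤ ν * (Real.pi / 4)) :
    |pot ν Y| ≤ ε / 2 := by
  have hK := S.YK_ge
  have hY : 0 < Y := by linarith
  have hν : 0 < ν := by have := G.coc.ν₀4; linarith [G.νν₀]
  have hπ := Real.pi_lt_d2
  obtain ⟨a, b⟩ := pot_le hν hY (by rw [div_le_iff₀ hν]; nlinarith)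
  rw [abs_of_pos a]
  have h3 := S.YK_large Y (by rw [Sea.YK] at h1; linarith)
  have h4 : 1 / Y ^ 2 = 4 * (1 / (4 * Y ^ 2)) := by field_simp
  have h5 := G.cst.ε₁1
  have h6 := G.cst.ε₁0
  rw [h4] at b
  linarith

/-- the local models -/
theorem Glob.loc (G : Glob ε S ς C C3 Cp Cb cn cp ηs ε₂ ν₀ g η η₀ η₂ i0 p ν) {T Y : ℝ} (h0 : 0 < Y) (h1 : Y ≤ ν * (Real.pi / 4)) :
    ∃ n : ℕ, ∃ F : V → ℝ, Per F ∧
    (∀ s, Conc ε (max (4 * (Cb + 2 * (S.A * Real.sqrt S.κ))) (10 * (2 * (2 * p * ς * (1 + ς / 9)) + 8 * Cb))) (kap n ν Y) (pot ν Y) (P.lam T) F ![T, Y, s]) ∧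
    ∀ᶠ q : ℝ × ℝ in 𝓝 (T, Y), ∀ θ, Fst S P ν p q.1 q.2 θ = F ![q.1, q.2, n * θ] := by
  have hK := S.YK_ge
  have hKp := G.YKp
  have hp : (0 : ℝ) < p := by exact_mod_cast G.p0
  have hπ := Real.pi_gt_three
  have hς := G.cst.ς0
  have hν : 0 < ν := by have := G.coc.ν₀4; linarith [G.νν₀]
  have cont2 : ContinuousAt (fun q : ℝ × ℝ => q.2) (T, Y) := continuous_snd.continuousAt
  have kap0 : ∀ t : ℝ, kap ((0 : ℕ) : ℝ) ν t = 0 := fun t => by rw [kap]; simp
  rcases lt_or_ge Y S.YK with hY | hY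
  · -- the core
    refine ⟨0, FC P S ν, FC_Per S ν, fun s => ?_, ?_⟩
    · rw [kap0]
      rcases lt_or_ge Y (1 / 2) with h2 | h2
      · exact ((core_pole (P := P) G.coc G.νν₀ (x := ![T, Y, s]) h0 h2).1).mono (le_max_left _ _)
      · rcases le_or_gt Y (S.YK - 3 / 8) with h3 | h3
        · exact (core_mid (P := P) G.coc G.νν₀ (x := ![T, Y, s]) h2 h3).mono (le_max_left _ _)
        · have h4 := core_right (P := P) G.coc (ν := ν) (x := ![T, Y, s]) h3
          have h5 := wall_main (P := P) (ν := ν) (x := ![T, Y, s]) G.cst G.cyc (by positivity) (by positivity)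
            (G.pot_small (show S.YK - 1 ≤ Y by linarith) h1)
            (wall_core G.coc (show |Y - S.YK| ≤ 3 / 8 by rw [abs_le]; constructor <;> linarith))
          have h6 := h5.congr h4
          rw [kap0] at h6
          exact h6.mono (le_max_right _ _)
    · filter_upwards [cont2.eventually (gt_mem_nhds hY)] with q hq θ
      have hq' : q.2 < S.YK := hq
      rw [Fst, if_pos hq']; simp
  · -- the cells
    obtain ⟨j1, j2⟩ := jj_spec G.p0 h0.le
    set j := jj p Y with hj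
    have hYj : Yj S p j ≤ Y := by
      by_cases hj0 : j = 0
      · rw [hj0, Yj_zero]; exact hY
      · rw [Yj_succ hj0]; exact j1
    have hwallL : ∀ Y', |Y' - Yj S p j| ≤ 3 / 8 → WallH S (1 + 1 / p) (8 * Cb) ε₁ Y' := by
      intro Y' hY'
      by_cases hj0 : j = 0
      · rw [hj0, Yj_zero] at hY'
        exact wall_core G.coc hY'
      · rw [Yj_succ hj0] at hY'
        have hjr : (1 : ℝ) ≤ j := by exact_mod_cast Nat.one_le_iff_ne_zero.2 hj0
        have e1 : 2 * Real.pi * (p * j : ℝ) = ((p * j : ℤ) : ℝ) * (2 * Real.pi) := by push_cast; ring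
        have e2 : (1 + 1 / (p : ℝ)) * (2 * Real.pi * (p * j : ℝ)) = (((p + 1) * j : ℤ) : ℝ) * (2 * Real.pi) := by push_cast; field_simp
        refine wall_cell G.coc (z := Y' - 2 * Real.pi * (p * j)) (Yj := 2 * Real.pi * (p * j)) ?_ (by ring) hY' (fun z => by rw [e1, cosI]) (fun z => by rw [e2, cosI])
        have h2p : 0 < 2 * Real.pi * (p : ℝ) := by positivity
        nlinarith
    have hwallR : ∀ Y', |Y' - 2 * Real.pi * (p * (j + 1))| ≤ 3 / 8 → WallH S (1 + 1 / p) (8 * Cb) ε₁ Y' := by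
      intro Y' hY'
      have e1 : 2 * Real.pi * (p * (j + 1) : ℝ) = ((p * (j + 1) : ℤ) : ℝ) * (2 * Real.pi) := by push_cast; ring
      have e2 : (1 + 1 / (p : ℝ)) * (2 * Real.pi * (p * (j + 1) : ℝ)) = (((p + 1) * (j + 1) : ℤ) : ℝ) * (2 * Real.pi) := by push_cast; field_simp
      refine wall_cell G.coc (z := Y' - 2 * Real.pi * (p * (j + 1))) (Yj := 2 * Real.pi * (p * (j + 1))) ?_ (by ring) hY' (fun z => by rw [e1, cosI]) (fun z => by rw [e2, cosI])
      have h2p : 0 < 2 * Real.pi * (p : ℝ) := by positivity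
      have hjr : (0 : ℝ) ≤ j := by positivity
      nlinarith
    rcases eq_or_lt_of_le hYj with hE | hL
    · -- exactly at the wall
      refine ⟨0, FA P S, FA_Per S, fun s => ?_, ?_⟩
      · exact (wall_main (P := P) (ν := ν) (x := ![T, Y, s]) G.cst G.cyc (by positivity) (by positivity)
            (G.pot_small (show S.YK - 1 ≤ Y by linarith) h1) (hwallL Y (by rw [hE]; norm_num))).mono (le_max_right _ _)
      · have hYev : ∀ᶠ t in 𝓝 Y, |t - Yj S p j| < 1 / 8 := by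
          have c1 : Continuous fun t : ℝ => |t - Yj S p j| := by fun_prop
          exact c1.continuousAt.eventually (gt_mem_nhds (by rw [hE]; simp))
        filter_upwards [cont2.eventually hYev] with q hq θ
        rw [G.near_wall P j (le_of_lt hq) θ, FA_eq]; rfl
    · refine ⟨nj S ν p j, Fcell P S (aof (1 - g) (qj S p j)) (aof (1 + 1 / p + g) (qj S p j)) (qj S p j) (Yj S p j) (Wj S p j) ν (nj S ν p j),
        Fcell_Per S _ _ _ _ _ _ _, fun s => ?_, ?_⟩
      · have H := G.cell j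
        obtain ⟨η2a, η2b, η2c⟩ := G.cyc.ηa2 G.cst
        have hg := G.cyc.g0
        have hpp : (0 : ℝ) < 1 / p := by positivity
        obtain ⟨r1, h1a⟩ := aof_rel (μ := 1 - g) (q := qj S p j) (e := g + 1 / p) H.q_pos.le H.q_le (by rw [abs_le]; constructor <;> linarith) η2b
        obtain ⟨r3, h3a⟩ := aof_rel (μ := 1 + 1 / p + g) (q := qj S p j) (e := g + 1 / p) H.q_pos.le H.q_le (by rw [abs_le]; constructor <;> linarith) η2b
        have hy2 : 0 < Yj S p j + Wj S p j - Y := by rw [YWj]; linarith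
        have hW2 : Wj S p j ≤ 2 * Real.pi * p := by
          rw [Wj]
          by_cases hj0 : j = 0
          · rw [hj0, Yj_zero]; push_cast; linarith
          · rw [Yj_succ hj0]; linarith
        have hq2 : 0 ≤ 1 - qj S p j ^ 2 := by have := H.q_pos; have := H.q_le; nlinarith
        have hκ : Jt 2 (min η η₂) (fun t => kap (nj S ν p j) ν t - (1 - qj S p j ^ 2)) Y := by
          have h5 := G.kapOK (Real.sqrt (1 - qj S p j ^ 2)) (Yj S p j) Y (Real.sqrt_nonneg _)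
            (Real.sqrt_le_one.2 (by have := sq_nonneg (qj S p j); linarith)) (by linarith [G.Yge j])
            (by rw [div_le_iff₀ hν]; have := Real.pi_lt_d2; nlinarith)
            (by rw [abs_of_nonneg (by linarith)]; linarith)
          rw [Real.sq_sqrt hq2] at h5
          exact h5
        refine (cell_main (P := P) (ν := ν) (n := nj S ν p j) (x := ![T, Y, s]) G.cst G.cyc H (G.Yge j) h1a h3a r1 r3 ?_
          (G.pot_small (show S.YK - 1 ≤ Y by linarith) h1) (sub_pos.2 hL) hy2 ?_).mono (le_max_right _ _)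
        · exact Jt.co (x := ![T, Y, s]) (j := 1) hκ
        · rintro (h5 | h5)
          · have h5' : Y - Yj S p j < 3 / 8 := h5
            exact hwallL Y (by rw [abs_of_nonneg (by linarith)]; linarith)
          · have h5' : Yj S p j + Wj S p j - Y < 3 / 8 := h5
            rw [YWj] at h5'
            exact hwallR Y (by rw [abs_of_nonpos (by linarith)]; linarith)
      · have hev : ∀ᶠ t in 𝓝 Y, Yj S p j < t ∧ t < 2 * Real.pi * (p * (j + 1)) := (lt_mem_nhds hL).and (gt_mem_nhds j2)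
        filter_upwards [cont2.eventually hev] with q hq θ
        have h5 : S.YK ≤ q.2 := (G.Yge j).trans hq.1.le
        have h6 : jj p q.2 = j := by
          refine jj_eq G.p0 ?_ hq.2
          by_cases hj0 : j = 0
          · rw [hj0]; push_cast; linarith
          · have := hq.1; rw [Yj_succ hj0] at this; exact this.le
        rw [Fst, if_neg (not_lt.2 h5), h6]

/-- **the flat estimate** -/
theorem Glob.ok (G : Glob ε S ς C C3 Cp Cb cn cp ηs ε₂ ν₀ g η η₀ η₂ i0 p ν) :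
    FlatOK ε S (max (4 * (Cb + 2 * (S.A * Real.sqrt S.κ))) (10 * (2 * (2 * p * ς * (1 + ς / 9)) + 8 * Cb))) g (1 + 1 / p) ν P.lam P.th P.Tend P.lam0 (Fst S P ν p) := by
  have hK := S.YK_ge
  have hKp := G.YKp
  have hp : (0 : ℝ) < p := by exact_mod_cast G.p0
  have hpp : (0 : ℝ) < 1 / p := by positivity
  have hν4 : 4 ≤ ν := G.coc.ν₀4.trans G.νν₀
  refine ⟨P.lam_sm, P.th_sm, P.th_mem, P.lam_ge, fun T hT => ⟨(P.pre T hT).2.2.2.1, (P.pre T hT).2.2.2.2⟩, fun T hT => ?_, ?_, ?_, ?_, ?_⟩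
  · obtain ⟨_, _, _, h4, h5, h6⟩ := P.post T hT
    exact ⟨h4, h5, h6⟩
  · intro T Y h0 h1
    exact G.loc P h0 h1
  · intro T Y hY θ
    obtain ⟨N, hN1, hN⟩ := νquarter G
    rw [hN] at hY
    rw [G.near_wall P N hY.le θ, Fpure]
    have hNr : (1 : ℝ) ≤ N := by exact_mod_cast hN1
    have h2p : 0 < 2 * Real.pi * (p : ℝ) := by have := Real.pi_pos; positivity
    have hYN : S.YK + 30 ≤ Yj S p N := by rw [Yj_succ (by omega)]; nlinarith
    have hY2 := (abs_lt.1 hY).1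
    have hkY : Y ≤ (1 + 1 / p) * Y := by nlinarith
    rw [S.h_right (by linarith), S.h_right (by linarith)]
  · intro T Y h0 h1 θ
    rw [Fst, if_pos (by linarith)]
    have := ((core_pole (P := P) G.coc G.νν₀ (x := ![T, Y, 0]) h0 h1).2).eq_of_nhds
    exact this
  · intro T Y h0 hT θ
    have hT' : ∃ θ0 μ, Triv P T θ0 μ := by
      rcases hT with h | h
      · exact ⟨_, _, triv_pre h⟩
      · exact ⟨_, _, triv_post h⟩
    obtain ⟨θ0, μ, hTr⟩ := hT'
    rcases lt_or_ge Y S.YK with hY | hY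
    · rw [Fst, if_pos hY]
      exact FC_triv (P := P) S hν4 (by linarith) G.coc.kK (y := ![T, Y, 0]) h0 hTr
    · rw [Fst, if_neg (not_lt.2 hY)]
      rw [Fcell_triv (P := P) S (y := ![T, Y, _]) (by linarith) (G.Yge _) hTr, Fpure]
      have hkY : Y ≤ (1 + 1 / p) * Y := by nlinarith
      rw [zs_right S (by linarith : 3 / 8 ≤ Y), zs_right S (by linarith : 3 / 8 ≤ (1 + 1 / (p : ℝ)) * Y)]
      rfl

end

end Pool.Agent.J6H20.RL
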