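import Mathlib
import Pool.Agent.J6H20.RL.FlatC

/-!
# Choice of the constants
-/

set_option autoImplicit false

open Filter Topology
open scoped ContDiff

namespace Pool.Agent.J6H20.RL

/-- weaker time profile -/
def TP.mono {η η' g k m0 α : ℝ} (h : η ≤ η') (P : TP η g k m0 α) : TP η' g k m0 α where
  b := P.b
  env := P.env
  A1 := P.A1
  A3 := P.A3
  th := P.th
  lam := P.lam
  Tend := P.Tend
  lam0 := P.lam0
  Tend_pos := P.Tend_pos
  b_nonneg := P.b_nonneg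
  b_le := P.b_le
  env_pos := P.env_pos
  env_le := P.env_le
  b_sm := P.b_sm
  b_jet := fun T => (P.b_jet T).mono (mul_le_mul_of_nonneg_right h (P.env_pos T).le)
  A1_mem := P.A1_mem
  A3_mem := P.A3_mem
  th_mem := P.th_mem
  A1_sm := P.A1_sm
  A3_sm := P.A3_sm
  th_sm := P.th_sm
  lam_sm := P.lam_sm
  A1_jet := fun T => (P.A1_jet T).mono h
  A3_jet := fun T => (P.A3_jet T).mono h
  th_jet := fun T => (P.th_jet T).mono h
  lam_jet := fun T => (P.lam_jet T).mono h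
  lam_ge := P.lam_ge
  phase := P.phase
  pre := P.pre
  post := P.post

theorem FlatOK.mono {ε₁ ε B B' g k ν Tend lam0 : ℝ} {S : Sea ε₁} {lam th : ℝ → ℝ} {Fs : ℝ → ℝ → ℝ → ℝ}
    (h : FlatOK ε S B g k ν lam th Tend lam0 Fs) (hB : B ≤ B') : FlatOK ε S B' g k ν lam th Tend lam0 Fs :=
  ⟨h.lam_sm, h.th_sm, h.th_mem, h.lam_ge, h.pre, h.post, fun T Y h0 h1 => by
    obtain ⟨n, F, a, b, c⟩ := h.loc T Y h0 h1
    exact ⟨n, F, a, fun s => (b s).mono hB, c⟩, h.mid, h.pole, h.pure⟩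

/-- small natural frequencies -/
theorem exists_ς {e : ℝ} (he : 0 < e) : ∃ (i0 : ℕ) (ς : ℝ), 0 < ς ∧ ς ≤ e ∧ ς * (Real.pi * (i0 + 1 / 2)) = 1 := by
  obtain ⟨i0, hi⟩ := exists_nat_ge (1 / e)
  have hπ := Real.pi_gt_three
  have h0 : 0 < Real.pi * ((i0 : ℝ) + 1 / 2) := by positivity
  refine ⟨i0, (Real.pi * ((i0 : ℝ) + 1 / 2))⁻¹, by positivity, ?_, inv_mul_cancel₀ h0.ne'⟩
  rw [inv_le_comm₀ h0 he]
  have h1 : e⁻¹ ≤ i0 := by rw [one_div] at hi; exact hi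
  have h2 : (0 : ℝ) ≤ i0 := by positivity
  nlinarith

theorem fd_exp {ς : ℝ} (hς : 0 < ς) (hς1 : ς ≤ 1 / 100) : Real.exp (2 * (ς / 20)) ≤ 1 + ς / 9 := by
  have h1 : |ς / 10| ≤ 1 := by rw [abs_of_pos (by positivity)]; linarith
  have h2 := Real.abs_exp_sub_one_sub_id_le h1
  have h3 := (abs_le.1 h2).2
  have e : 2 * (ς / 20) = ς / 10 := by ring
  rw [e]; nlinarith

theorem fd_exp2 {p ς : ℝ} (d6 : 1 ≤ p * ς) : Real.exp 2 ≤ 12 * (2 * p * ς) := by
  have h1 := Real.exp_one_lt_d9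
  have h2 : Real.exp 2 = Real.exp 1 * Real.exp 1 := by rw [← Real.exp_add]; norm_num
  have h3 := Real.exp_pos 1
  rw [h2]; nlinarith

theorem fd_mono {η Cp : ℝ} (hη : 0 < η) (hCp : 1 ≤ Cp) : η / (64 * Cp) ≤ η := by
  rw [div_le_iff₀ (by positivity)]; nlinarith

theorem fd_k {η p : ℝ} (hη1 : η ≤ 1 / 10) (hp : 0 < 1 / p) (h : 1 / p ≤ η / 64) : |1 - (1 + 1 / p) ^ 2| ≤ η := by
  rw [abs_le]; constructor <;> nlinarith

theorem fd_w2 {ς p ia : ℝ} (hς : 0 < ς) (hς1 : ς ≤ 1 / 100) (hia : 1 ≤ ia) (c7 : 144 * ia ≤ p * ς) : (1 + ς / 9) * p ≤ (1 + ς / 8) * (p - ia) := by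
  nlinarith

/-- **all constants can be chosen** -/
theorem flat_params {ε : ℝ} (hε : 0 < ε) (hε1 : ε ≤ 1) : ∃ (ε₁ : ℝ) (S : Sea ε₁) (g B : ℝ) (p0 : ℕ), 0 < g ∧ 0 ≤ B ∧ 10 ≤ p0 ∧
    ∀ p : ℕ, p0 ≤ p → p ≤ 2 * p0 → ∃ (lam th : ℝ → ℝ) (Tend lam0 : ℝ), 0 < Tend ∧ ∃ N₀ : ℕ, ∀ N : ℕ, N₀ ≤ N → ∃ Fs : ℝ → ℝ → ℝ → ℝ,
      FlatOK ε S B g (1 + 1 / p) (8 * p * N) lam th Tend lam0 Fs := by
  set ε₁ := ε / 48 with hε₁
  have hε₁0 : 0 < ε₁ := by positivity
  obtain ⟨S⟩ := exists_sea ε₁ hε₁0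
  obtain ⟨C3, hC3, hchi⟩ := chi_jet
  obtain ⟨Cp, hCp, hPh⟩ := Ph_JC
  obtain ⟨Cb, cn, cp, hSC⟩ := exists_SC S
  have hCb := hSC.Cb1
  have hcn := hSC.cn0
  have hcp := hSC.cp0
  have hC32 : 1 ≤ C3 ^ 2 := one_le_pow₀ hC3
  set C := 3000 + 16384 * C3 ^ 2 + 1600 * Cb with hC
  obtain ⟨ηs, hηs, hcore⟩ := coreOK C (cn / 2) ε (by linarith) (by positivity) hε
  set ε₂ := ε / 16 with hε₂
  obtain ⟨νz, hνz, hzs⟩ := zs_eqn S (ε₂ := ε₂ / 2) (by positivity)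
  -- the frequency of the islands
  obtain ⟨i0, ς, hς, hςe, hςi⟩ := exists_ς (e := min (1 / 100) (ε / (16 * 200 * (131072 * C3 ^ 2)))) (by positivity)
  have hς1 : ς ≤ 1 / 100 := hςe.trans (min_le_left _ _)
  have hς2 : ς ≤ ε / (16 * 200 * (131072 * C3 ^ 2)) := hςe.trans (min_le_right _ _)
  have hς2' : ς * (16 * 200 * (131072 * C3 ^ 2)) ≤ ε := by rwa [le_div_iff₀ (by positivity)] at hς2
  obtain ⟨η₀, hη₀, hstat⟩ := statOK C ε ς (by linarith) hε hς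
  -- the slowness
  obtain ⟨η, hη, hη1, hηη₀, hη3, hη4, hη5, hη6, hη7⟩ : ∃ η : ℝ, 0 < η ∧ η ≤ 1 / 10 ∧ η ≤ η₀ ∧ η ≤ ε / 512 ∧
      η * (16 * 50 * 65536 * C3 ^ 2 * 8 * Cb) ≤ ε ∧ η * (16000 * Cb) ≤ ηs ∧ η * (16000 * Cb) ≤ ε * cp ∧ η * Cb ≤ ε₁ := by
    refine ⟨min (1 / 10) (min η₀ (min (ε / 512) (min (ε / (16 * 50 * 65536 * C3 ^ 2 * 8 * Cb)) (min (ηs / (16000 * Cb)) (min (ε * cp / (16000 * Cb)) (ε₁ / Cb)))))),
      by positivity, min_le_left _ _, (min_le_right _ _).trans (min_le_left _ _), (min_le_right _ _).trans ((min_le_right _ _).trans (min_le_left _ _)), ?_, ?_, ?_, ?_⟩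
    · rw [← le_div_iff₀ (by positivity)]
      exact (min_le_right _ _).trans ((min_le_right _ _).trans ((min_le_right _ _).trans (min_le_left _ _)))
    · rw [← le_div_iff₀ (by positivity)]
      exact (min_le_right _ _).trans ((min_le_right _ _).trans ((min_le_right _ _).trans ((min_le_right _ _).trans (min_le_left _ _))))
    · rw [← le_div_iff₀ (by positivity)]
      exact (min_le_right _ _).trans ((min_le_right _ _).trans ((min_le_right _ _).trans ((min_le_right _ _).trans ((min_le_right _ _).trans (min_le_left _ _)))))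
    · rw [← le_div_iff₀ (by positivity)]
      exact (min_le_right _ _).trans ((min_le_right _ _).trans ((min_le_right _ _).trans ((min_le_right _ _).trans ((min_le_right _ _).trans (min_le_right _ _)))))
  have h64 : 0 < η / (64 * Cp) := by positivity
  obtain ⟨g, hg0, hg1, hgη, p1, hp1, hTP⟩ := exists_TP (δ := ς / 20) (η := η / (64 * Cp)) (by positivity) (by linarith) h64
  obtain ⟨η₂, hη₂, hexact⟩ := exactOK C ε ς g (by linarith) hε hς hg0 hg1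
  have hK := S.YK_ge
  have hia : (1 : ℝ) ≤ S.ia := by exact_mod_cast S.ia_pos
  -- the number p0
  obtain ⟨p0, hp0⟩ := exists_nat_ge ((p1 : ℝ) + 64 * Cp / η + 16 * (S.YK + 1) + 8 * Cb ^ 2 * (S.YK + 1) / cn + (S.ia + 5) + 1 / ς
    + 144 * S.ia / ς + 10 / ς ^ 2 + 300 * (5 / ς + S.YK + 1) / ς ^ 2)
  have q1 : 0 ≤ (p1 : ℝ) := by positivity
  have q2 : 0 < 64 * Cp / η := by positivity
  have q3 : 0 < 16 * (S.YK + 1) := by positivity
  have q4 : 0 < 8 * Cb ^ 2 * (S.YK + 1) / cn := by positivity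
  have q5 : 0 < (S.ia + 5 : ℝ) := by positivity
  have q6 : 0 < 1 / ς := by positivity
  have q7 : 0 < 144 * S.ia / ς := by positivity
  have q8 : 0 < 10 / ς ^ 2 := by positivity
  have q9 : 0 < 300 * (5 / ς + S.YK + 1) / ς ^ 2 := by positivity
  have hB0 : 0 ≤ S.A * Real.sqrt S.κ := (c_pos S).le
  refine ⟨ε₁, S, g, max (4 * (Cb + 2 * (S.A * Real.sqrt S.κ))) (10 * (2 * (2 * (2 * p0) * ς * (1 + ς / 9)) + 8 * Cb)), p0, hg0,
    le_max_of_le_left (by positivity), ?_, fun p hpa hpb => ?_⟩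
  · have : (10 : ℝ) ≤ p0 := by linarith
    exact_mod_cast this
  have hpr : (p0 : ℝ) ≤ p := by exact_mod_cast hpa
  have hpr2 : (p : ℝ) ≤ 2 * p0 := by exact_mod_cast hpb
  have hp : (0 : ℝ) < p := by linarith
  -- consequences
  have c2 : 64 * Cp / η ≤ p := by linarith
  have c3 : 16 * (S.YK + 1) ≤ p := by linarith
  have c4 : 8 * Cb ^ 2 * (S.YK + 1) / cn ≤ p := by linarith
  have c5 : (S.ia + 5 : ℝ) ≤ p := by linarith
  have c6 : 1 / ς ≤ p := by linarith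
  have c7 : 144 * S.ia / ς ≤ p := by linarith
  have c8 : S.ia + 10 / ς ^ 2 ≤ p := by linarith
  have c9 : 300 * (5 / ς + S.YK + 1) / ς ^ 2 ≤ p := by linarith
  have hp1' : p1 ≤ p := by
    have : (p1 : ℝ) ≤ p := by linarith
    exact_mod_cast this
  have d2 : 1 / (p : ℝ) ≤ η / (64 * Cp) := by
    rw [div_le_iff₀ hη] at c2
    rw [div_le_div_iff₀ hp (by positivity)]; linarith
  have d6 : 1 ≤ p * ς := by rwa [div_le_iff₀ hς] at c6
  have hexp : Real.exp (2 * (ς / 20)) ≤ 1 + ς / 9 := fd_exp hς hς1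
  obtain ⟨P'⟩ := hTP p hp1' (2 * p * ς) (ς / 9) (by linarith) (fd_exp2 d6) hexp
  have hmono : η / (64 * Cp) ≤ η := fd_mono hη hCp
  set P := P'.mono hmono with hP
  refine ⟨P.lam, P.th, P.Tend, P.lam0, P.Tend_pos, ?_⟩
  -- large frequencies
  obtain ⟨ν₁, hν₁, hkap⟩ := kap_jet (W := 2 * Real.pi * p) (η := min η η₂) (by have := Real.pi_pos; positivity) (lt_min hη hη₂)
  set ν₀ := νz + 2 * (S.YK + 1) + 2 / ε with hν₀
  have hε2 : 0 < 2 / ε := by positivity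
  obtain ⟨N₀, hN₀⟩ := exists_nat_ge (ν₀ + ν₁ + 1)
  refine ⟨N₀, fun N hN => ?_⟩
  have hNr : (N₀ : ℝ) ≤ N := by exact_mod_cast hN
  have hν : ν₀ + ν₁ + 1 ≤ 8 * p * N := by
    have h1 : (1 : ℝ) ≤ 8 * p := by linarith
    have h2 : 0 ≤ (N : ℝ) := by positivity
    have h3 : (N : ℝ) ≤ 8 * p * N := le_mul_of_one_le_left h2 h1
    linarith
  have hCpη : 32 * (Cp * (g + 1 / p)) ≤ η := by
    have h1 : g + 1 / p ≤ η / (32 * Cp) := by
      have : η / (32 * Cp) = η / (64 * Cp) + η / (64 * Cp) := by field_simp; ring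
      rw [this]; linarith
    rw [le_div_iff₀ (by positivity)] at h1
    linarith
  have hpη : 1 / (p : ℝ) ≤ η / 64 := by
    refine d2.trans ?_
    exact div_le_div_of_nonneg_left hη.le (by norm_num) (by linarith)
  have hpp : (0 : ℝ) < 1 / p := by positivity
  have hk2 : |1 - (1 + 1 / (p : ℝ)) ^ 2| ≤ η := fd_k hη1 hpp hpη
  have e1 : (1 + 1 / (p : ℝ) - 1) = 1 / p := by ring
  have G : Glob ε S ς C C3 Cp Cb cn cp ηs ε₂ ν₀ g η η₀ η₂ i0 p (8 * p * N) := by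
    refine ⟨?_, ?_, ?_, hς1, hςi, ?_, ?_, ?_, ?_, ⟨N, ?_, rfl⟩, by linarith, ?_⟩
    · exact ⟨hε, hε1, hε₁0, by rw [hε₁]; linarith, by rw [hC]; linarith, by rw [hC]; linarith, hC3, hchi, hCp, hPh, by linarith, hς, by linarith, by linarith⟩
    · refine ⟨hη, hη1, hηη₀, by linarith, ?_, ?_, by positivity, hCpη, hstat, hexact, hg0, by linarith, hk2⟩
      · linarith
      · have h1 : η * (65536 * C3 ^ 2) * 1 ≤ η * (65536 * C3 ^ 2) * (16 * 50 * 8 * Cb) :=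
          mul_le_mul_of_nonneg_left (by linarith) (by positivity)
        linarith
    · refine ⟨hSC, hcore, fun ν Y h1 h2 h3 => hzs ν Y (by linarith) h2 h3, by linarith, by positivity, hε₁0, hchi, hC3, by rw [hC]; linarith,
        by rw [hC]; linarith, hη.le, by linarith, by linarith, ?_, hη7, hη1, hε1, by linarith, ?_, ?_, hk2, by linarith, ?_⟩
      · rw [hε₁, hε₂]; linarith
      · rw [e1, one_div, inv_mul_eq_div, div_le_iff₀ hp]; linarith
      · rw [e1]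
        rw [div_le_iff₀ hcn] at c4
        have : 8 * Cb ^ 2 * (1 / (p : ℝ) * (S.YK + 1)) = 8 * Cb ^ 2 * (S.YK + 1) / p := by ring
        rw [this, div_le_iff₀ hp]; linarith
      · have h1 : 2 / ε ≤ ν₀ := by linarith
        have h2 : (2 / ε) ^ 2 ≤ ν₀ ^ 2 := pow_le_pow_left₀ hε2.le h1 2
        have h3 : ε * (2 / ε) ^ 2 = 4 / ε := by field_simp; ring
        have h4 : 2 ≤ 4 / ε := by rw [le_div_iff₀ hε]; linarith
        have h5 := mul_le_mul_of_nonneg_left h2 hε.le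
        linarith
    · exact_mod_cast c5
    · -- w2
      rw [div_le_iff₀ hς] at c7
      have hπ := Real.pi_pos
      have h1 : (1 + ς / 9) * p ≤ (1 + ς / 8) * (p - S.ia) := fd_w2 hς hς1 hia c7
      have := mul_le_mul_of_nonneg_left h1 (by positivity : 0 ≤ 2 * Real.pi)
      linarith
    · have hπ := Real.pi_pos
      have h1 : 10 / ς ^ 2 ≤ p - S.ia := by linarith
      rw [div_le_iff₀ (by positivity)] at h1
      have h2 : 5 / ς ≤ ς / 4 * (2 * (p - S.ia)) := by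
        rw [div_le_iff₀ hς]; linarith
      have := mul_le_mul_of_nonneg_left h2 hπ.le
      linarith
    · rw [div_le_iff₀ (by positivity)] at c9
      linarith
    · by_contra hcon
      have : N = 0 := by omega
      subst this
      have : (N₀ : ℝ) ≤ 0 := by exact_mod_cast hN
      linarith
    · intro K Y0 Y hK0 hK1 hY0 hY0ν hY
      exact hkap _ K Y0 Y (by linarith) hK0 hK1 hY0 hY0ν hY
  refine ⟨_, (G.ok P).mono ?_⟩
  refine max_le_max le_rfl ?_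
  have h5 : 2 * (p : ℝ) * ς ≤ 2 * (2 * p0) * ς := mul_le_mul_of_nonneg_right (by linarith) hς.le
  have h6 := mul_le_mul_of_nonneg_right h5 (by positivity : 0 ≤ 1 + ς / 9)
  linarith

end Pool.Agent.J6H20.RL
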