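import Mathlib
import Pool.Agent.J6H20.RL.Geom

/-!
# Gluing over shells
-/

set_option autoImplicit false

open Filter Topology
open scoped ContDiff

namespace Pool.Agent.J6H20.RL

theorem glue (v : ℕ → E4 → ℝ) (ρ : ℕ → ℝ) (hm : StrictMono ρ) (ht : Tendsto ρ atTop atTop)
    (h : ∀ i x, ‖x‖ = ρ i → v i =ᶠ[𝓝 x] v (i + 1)) :
    ∃ u : E4 → ℝ, ∀ x, ∃ i, u =ᶠ[𝓝 x] v i ∧ ‖x‖ < ρ i ∧ (∀ j < i, ρ j ≤ ‖x‖) := by
  classical
  have hex : ∀ r : ℝ, ∃ i, r < ρ i := fun r => (ht.eventually_gt_atTop r).exists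
  set f : E4 → ℕ := fun x => Nat.find (hex ‖x‖) with hf
  refine ⟨fun x => v (f x) x, fun x => ⟨f x, ?_, Nat.find_spec (hex ‖x‖), fun j hj => not_lt.1 (Nat.find_min (hex ‖x‖) hj)⟩⟩
  have h1 : ‖x‖ < ρ (f x) := Nat.find_spec (hex ‖x‖)
  have e1 : ∀ᶠ y : E4 in 𝓝 x, ‖y‖ < ρ (f x) := continuous_norm.continuousAt.eventually (gt_mem_nhds h1)
  rcases Nat.eq_zero_or_pos (f x) with h0 | h0
  · rw [h0] at e1 ⊢
    filter_upwards [e1] with y hy
    have : f y = 0 := Nat.le_zero.1 (Nat.find_min' (hex ‖y‖) hy)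
    rw [this]
  · obtain ⟨m, hm'⟩ := Nat.exists_eq_succ_of_ne_zero h0.ne'
    have h2 : ρ m ≤ ‖x‖ := not_lt.1 (Nat.find_min (hex ‖x‖) (show m < f x by omega))
    rw [hm'] at e1 ⊢
    rcases eq_or_lt_of_le h2 with h3 | h3
    · have e2 := h m x h3.symm
      have e3 : ∀ᶠ y : E4 in 𝓝 x, ∀ j < m, ρ j ≤ ‖y‖ := by
        rcases Nat.eq_zero_or_pos m with h5 | h5
        · exact Eventually.of_forall fun y j hj => by omega
        · have h6 : ρ (m - 1) < ‖x‖ := by rw [← h3]; exact hm (by omega)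
          filter_upwards [continuous_norm.continuousAt.eventually (lt_mem_nhds h6)] with y hy j hj
          exact (hm.monotone (show j ≤ m - 1 by omega)).trans (le_of_lt hy)
      filter_upwards [e1, e2, e3] with y hy1 hy2 hy3
      by_cases h7 : ‖y‖ < ρ m
      · have h8 : f y = m := by
          refine le_antisymm (Nat.find_min' (hex ‖y‖) h7) ?_
          by_contra hcon
          push Not at hcon
          have h9 : ‖y‖ < ρ (f y) := Nat.find_spec (hex ‖y‖)
          exact absurd h9 (not_lt.2 (hy3 _ hcon))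
        rw [h8]; exact hy2
      · have h8 : f y = m + 1 := by
          refine le_antisymm (Nat.find_min' (hex ‖y‖) hy1) ?_
          by_contra hcon
          push Not at hcon
          have h9 : ‖y‖ < ρ (f y) := Nat.find_spec (hex ‖y‖)
          rcases Nat.lt_or_ge (f y) m with h10 | h10
          · exact absurd h9 (not_lt.2 (hy3 _ h10))
          · have : f y = m := by omega
            rw [this] at h9; exact h7 h9
        rw [h8]
    · filter_upwards [e1, continuous_norm.continuousAt.eventually (lt_mem_nhds h3)] with y hy1 hy2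
      have h8 : f y = m + 1 := by
        refine le_antisymm (Nat.find_min' (hex ‖y‖) hy1) ?_
        by_contra hcon
        push Not at hcon
        have h9 : ‖y‖ < ρ (f y) := Nat.find_spec (hex ‖y‖)
        have h10 : ρ (f y) ≤ ρ m := hm.monotone (by omega)
        have hy2' : ρ m < ‖y‖ := hy2
        linarith
      rw [h8]

end Pool.Agent.J6H20.RL
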