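import Mathlib
import Pool.Agent.J6H20.RL.Geom3

/-!
# Symmetries of the Laplacian
-/

set_option autoImplicit false

open Filter Topology
open scoped ContDiff

namespace Pool.Agent.J6H20.RL

/-- the swap of the two complex coordinates -/
noncomputable def sw : E4 ≃ₗᵢ[ℝ] E4 := LinearIsometryEquiv.piLpCongrLeft 2 ℝ ℝ (Equiv.addRight (2 : Fin 4))

theorem sw_apply (x : E4) (i : Fin 4) : sw x i = x (i + 2) := by
  rw [sw, LinearIsometryEquiv.piLpCongrLeft_apply]
  fin_cases i <;> rfl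

theorem sw_eb (k : Fin 4) : sw (eb k) = eb (k + 2) := by
  rw [sw, eb, EuclideanSpace.piLpCongrLeft_single]; rfl

theorem Zc0_sw (x : E4) : Zc 0 (sw x) = Zc 1 x := by
  rw [Zc0, Zc1, sw_apply, sw_apply]; rfl

theorem Zc1_sw (x : E4) : Zc 1 (sw x) = Zc 0 x := by
  rw [Zc0, Zc1, sw_apply, sw_apply]; rfl

theorem r0_sw (x : E4) : r0 (sw x) = r1 x := by rw [r0, r1, Zc0_sw]
theorem r1_sw (x : E4) : r1 (sw x) = r0 x := by rw [r0, r1, Zc1_sw]
theorem norm_sw (x : E4) : ‖sw x‖ = ‖x‖ := sw.norm_map x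

theorem dd_sw (v : E4 → ℝ) (e y : E4) : dd e (fun z => v (sw z)) y = dd (sw e) v (sw y) := by
  have h : fderiv ℝ (v ∘ sw.toContinuousLinearEquiv) y = (fderiv ℝ v (sw.toContinuousLinearEquiv y)).comp (sw.toContinuousLinearEquiv : E4 →L[ℝ] E4) :=
    ContinuousLinearEquiv.comp_right_fderiv _
  simp only [dd]
  have h2 : fderiv ℝ (fun z => v (sw z)) y = fderiv ℝ (v ∘ sw.toContinuousLinearEquiv) y := rfl
  rw [h2, h]; rfl

theorem lap_sw (v : E4 → ℝ) (x : E4) : lap (fun z => v (sw z)) x = lap v (sw x) := by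
  have h : ∀ k : Fin 4, dd (eb k) (dd (eb k) (fun z => v (sw z))) x = dd (eb (k + 2)) (dd (eb (k + 2)) v) (sw x) := by
    intro k
    have h1 : dd (eb k) (fun z => v (sw z)) = fun z => dd (eb (k + 2)) v (sw z) := by
      funext y; rw [dd_sw, sw_eb]
    rw [h1, dd_sw, sw_eb]
  simp only [lap, h]
  exact Equiv.sum_comp (Equiv.addRight (2 : Fin 4)) (fun k => dd (eb k) (dd (eb k) v) (sw x))

theorem smooth_sw {v : E4 → ℝ} {x : E4} (h : ContDiffAt ℝ ∞ v (sw x)) : ContDiffAt ℝ ∞ (fun z => v (sw z)) x :=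
  ContDiffAt.comp x (g := v) (f := fun z => sw z) h sw.contDiff.contDiffAt

theorem dd_scale (v : E4 → ℝ) (c : ℝ) (e y : E4) : dd e (fun z => v (c • z)) y = c * dd e v (c • y) := by
  simp only [dd]
  have h : fderiv ℝ (fun z => v (c • z)) y = c • fderiv ℝ v (c • y) := fderiv_comp_smul c
  rw [h]; rfl

theorem dd_cmul (v : E4 → ℝ) (c : ℝ) (e y : E4) : dd e (fun z => c * v z) y = c * dd e v y := by
  simp only [dd]
  have h : fderiv ℝ (fun z => c * v z) y = c • fderiv ℝ v y := by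
    have := congrFun (fderiv_const_smul_field (𝕜 := ℝ) (R := ℝ) c (f := v)) y
    simpa [Pi.smul_def, smul_eq_mul] using this
  rw [h]; rfl

theorem lap_scale (v : E4 → ℝ) (c : ℝ) (x : E4) : lap (fun z => v (c • z)) x = c ^ 2 * lap v (c • x) := by
  have h : ∀ k : Fin 4, dd (eb k) (dd (eb k) (fun z => v (c • z))) x = c ^ 2 * dd (eb k) (dd (eb k) v) (c • x) := by
    intro k
    have h1 : dd (eb k) (fun z => v (c • z)) = fun z => c * dd (eb k) v (c • z) := by
      funext y; rw [dd_scale]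
    rw [h1, dd_cmul (fun z => dd (eb k) v (c • z)), dd_scale]; ring
  simp only [lap, h, ← Finset.mul_sum]

theorem lap_cmul (v : E4 → ℝ) (c : ℝ) (x : E4) : lap (fun z => c * v z) x = c * lap v x := by
  have h : ∀ k : Fin 4, dd (eb k) (dd (eb k) (fun z => c * v z)) x = c * dd (eb k) (dd (eb k) v) x := by
    intro k
    have h1 : dd (eb k) (fun z => c * v z) = fun z => c * dd (eb k) v z := by
      funext y; rw [dd_cmul]
    rw [h1, dd_cmul]
  simp only [lap, h, ← Finset.mul_sum]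

theorem smooth_scale {v : E4 → ℝ} {x : E4} {c : ℝ} (h : ContDiffAt ℝ ∞ v (c • x)) : ContDiffAt ℝ ∞ (fun z => v (c • z)) x :=
  ContDiffAt.comp x (g := v) (f := fun z => c • z) h (contDiff_const_smul c).contDiffAt

theorem r0_smul (c : ℝ) (x : E4) : r0 (c • x) = |c| * r0 x := by rw [r0, r0, map_smul, norm_smul, Real.norm_eq_abs]
theorem r1_smul (c : ℝ) (x : E4) : r1 (c • x) = |c| * r1 x := by rw [r1, r1, map_smul, norm_smul, Real.norm_eq_abs]

theorem r0_nonneg (x : E4) : 0 ≤ r0 x := norm_nonneg _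
theorem r1_nonneg (x : E4) : 0 ≤ r1 x := norm_nonneg _

theorem r0_cont : Continuous r0 := (Zc 0).continuous.norm
theorem r1_cont : Continuous r1 := (Zc 1).continuous.norm

theorem norm_pos_of {x : E4} (h : x ≠ 0) (h1 : r1 x ≤ r0 x) : 0 < r0 x := by
  have h2 := norm_sq_E4 x
  have h3 : 0 < ‖x‖ ^ 2 := by have := norm_pos_iff.2 h; positivity
  by_contra hcon
  have h4 : r0 x = 0 := le_antisymm (not_lt.1 hcon) (r0_nonneg x)
  have h5 : r1 x = 0 := le_antisymm (h4 ▸ h1) (r1_nonneg x)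
  rw [h2, h4, h5] at h3; simp at h3

/-- trigonometry of the angle -/
theorem trig_phi {x : E4} (h0 : 0 < r0 x) (h1 : 0 < r1 x) :
    Real.sin (Real.arctan (r1 x / r0 x)) * Real.cos (Real.arctan (r1 x / r0 x)) = r0 x * r1 x / ‖x‖ ^ 2 ∧
    Real.sin (Real.arctan (r1 x / r0 x)) ^ 2 = r1 x ^ 2 / ‖x‖ ^ 2 := by
  have hx2 := norm_sq_E4 x
  have hxp : 0 < ‖x‖ ^ 2 := by rw [hx2]; positivity
  have hcos : Real.cos (Real.arctan (r1 x / r0 x)) ^ 2 = r0 x ^ 2 / ‖x‖ ^ 2 := by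
    rw [Real.cos_sq_arctan, hx2]; field_simp
  have hsin : Real.sin (Real.arctan (r1 x / r0 x)) ^ 2 = r1 x ^ 2 / ‖x‖ ^ 2 := by
    have := Real.sin_sq_add_cos_sq (Real.arctan (r1 x / r0 x))
    rw [hcos] at this
    have e : r1 x ^ 2 / ‖x‖ ^ 2 = 1 - r0 x ^ 2 / ‖x‖ ^ 2 := by
      rw [eq_sub_iff_add_eq, ← add_div, div_eq_one_iff_eq hxp.ne', hx2]; ring
    rw [e]; linarith
  refine ⟨?_, hsin⟩
  have hc0 := Real.cos_arctan_pos (r1 x / r0 x)
  have ht : Real.sin (Real.arctan (r1 x / r0 x)) = r1 x / r0 x * Real.cos (Real.arctan (r1 x / r0 x)) := by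
    have := Real.tan_arctan (r1 x / r0 x)
    rw [Real.tan_eq_sin_div_cos, div_eq_iff hc0.ne'] at this
    exact this
  rw [ht, mul_assoc, ← pow_two, hcos]
  field_simp

end Pool.Agent.J6H20.RL
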