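import Mathlib
import Pool.Agent.J6H20.RL.PhysA
import Pool.Agent.J6H20.RL.FlatB

/-!
# The physical function of one cycle
-/

set_option autoImplicit false

open Filter Topology
open scoped ContDiff

namespace Pool.Agent.J6H20.RL

/-- the cap function -/
noncomputable def capf {ε₁ : ℝ} (S : Sea ε₁) (ν k : ℝ) (lam th : ℝ → ℝ) (x : E4) : ℝ :=
  ‖x‖⁻¹ * Real.exp (-lam (ν * Real.log ‖x‖)) * (S.A * Real.sqrt S.κ * Real.sqrt ν *
    (th (ν * Real.log ‖x‖) * bJ 0 (S.κ ^ 2 * (ν ^ 2 * (r1 x ^ 2 / ‖x‖ ^ 2)))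
      + (1 - th (ν * Real.log ‖x‖)) * (Real.sqrt k * bJ 0 (S.κ ^ 2 * ((k * ν) ^ 2 * (r1 x ^ 2 / ‖x‖ ^ 2))))))

/-- the flat formula -/
noncomputable def flatf (ν : ℝ) (Fs : ℝ → ℝ → ℝ → ℝ) (x : E4) : ℝ :=
  (Real.sqrt (r0 x * r1 x))⁻¹ * Fs (ν * Real.log ‖x‖) (ν * Real.arctan (r1 x / r0 x)) (Complex.arg (Zc 0 x))

noncomputable def vf {ε₁ : ℝ} (S : Sea ε₁) (ν k : ℝ) (lam th : ℝ → ℝ) (Fs : ℝ → ℝ → ℝ → ℝ) (x : E4) : ℝ :=
  if r1 x = 0 then capf S ν k lam th x else flatf ν Fs x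

/-- the physical function -/
noncomputable def uf {ε₁ : ℝ} (S : Sea ε₁) (ν k : ℝ) (lam th : ℝ → ℝ) (Fs : ℝ → ℝ → ℝ → ℝ) (x : E4) : ℝ :=
  if r1 x ≤ r0 x then vf S ν k lam th Fs x else vf S ν k lam th Fs (sw x)

/-- conclusion at a point -/
structure Good (M E ν : ℝ) (lam : ℝ → ℝ) (u : E4 → ℝ) (x : E4) : Prop where
  sm : ContDiffAt ℝ ∞ u x
  eq : |lap u x| ≤ E * (ν ^ 2 / ‖x‖ ^ 2) * |u x|
  bd : |u x| ≤ M * (‖x‖⁻¹ * Real.exp (-lam (ν * Real.log ‖x‖)))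

theorem Good.congr {M E ν : ℝ} {lam : ℝ → ℝ} {u v : E4 → ℝ} {x : E4} (h : Good M E ν lam u x) (e : v =ᶠ[𝓝 x] u) : Good M E ν lam v x :=
  ⟨h.sm.congr_of_eventuallyEq e, by rw [lap_congr e, e.eq_of_nhds]; exact h.eq, by rw [e.eq_of_nhds]; exact h.bd⟩

theorem Good.sw {M E ν : ℝ} {lam : ℝ → ℝ} {v : E4 → ℝ} {x : E4} (h : Good M E ν lam v (sw x)) : Good M E ν lam (fun z => v (RL.sw z)) x :=
  ⟨smooth_sw h.sm, by have := h.eq; rw [norm_sw] at this; rw [lap_sw]; exact this, by have := h.bd; rwa [norm_sw] at this⟩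

section
variable {ε₁ ε B g k ν Tend lam0 : ℝ} {S : Sea ε₁} {lam th : ℝ → ℝ} {Fs : ℝ → ℝ → ℝ → ℝ}

/-- hypotheses on the frequencies -/
structure FreqOK (k ν : ℝ) : Prop where
  ν4 : 4 ≤ ν
  k1 : 1 ≤ k
  k2 : k ≤ 2
  n1 : ∃ m : ℕ, ν = 4 * m
  n2 : ∃ m : ℕ, k * ν = 4 * m

theorem zc_phys {x : E4} {μ Y : ℝ} (hμ : 0 < μ) (h0 : 0 < r0 x) (h1 : 0 < r1 x) (hY : Y / μ = Real.arctan (r1 x / r0 x)) :
    zc S μ Y = S.A * Real.sqrt S.κ * (Real.sqrt μ * (Real.sqrt (r0 x * r1 x) * ‖x‖⁻¹)) * bJ 0 (S.κ ^ 2 * (μ ^ 2 * (r1 x ^ 2 / ‖x‖ ^ 2))) := by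
  obtain ⟨t1, t2⟩ := trig_phi h0 h1
  have hx : 0 < ‖x‖ := by
    have := norm_sq_E4 x
    have h3 : 0 < ‖x‖ ^ 2 := by rw [this]; positivity
    exact lt_of_le_of_ne (norm_nonneg _) fun h => by rw [← h] at h3; simp at h3
  rw [zc, hY, t1, t2]
  have e : Real.sqrt (μ * (r0 x * r1 x / ‖x‖ ^ 2)) = Real.sqrt μ * (Real.sqrt (r0 x * r1 x) * ‖x‖⁻¹) := by
    rw [Real.sqrt_mul hμ.le, Real.sqrt_div (by positivity), Real.sqrt_sq hx.le, div_eq_mul_inv]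
  rw [e]; ring

/-- both formulas agree near the axis -/
theorem cap_eq (hF : FlatOK ε S B g k ν lam th Tend lam0 Fs) (hf : FreqOK k ν) {x : E4} (h0 : 0 < r0 x) (h1 : 0 < r1 x)
    (h : k * (ν * Real.arctan (r1 x / r0 x)) ≤ 1 / 4) : flatf ν Fs x = capf S ν k lam th x := by
  have hν : 0 < ν := by linarith [hf.ν4]
  have hk := hf.k1
  have hkp : 0 < k := by linarith
  have ha : 0 < Real.arctan (r1 x / r0 x) := Real.arctan_pos.2 (by positivity)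
  set Y := ν * Real.arctan (r1 x / r0 x) with hY
  have hY0 : 0 < Y := by positivity
  have hYk : Y ≤ k * Y := by nlinarith
  have hx : 0 < ‖x‖ := by
    have := norm_sq_E4 x
    have h3 : 0 < ‖x‖ ^ 2 := by rw [this]; positivity
    exact lt_of_le_of_ne (norm_nonneg _) fun h => by rw [← h] at h3; simp at h3
  rw [flatf, ← hY, hF.pole _ _ hY0 (by linarith), zs_left S (by linarith), zs_left S (by linarith),
    zc_phys (S := S) (x := x) hν h0 h1 (by rw [hY]; field_simp), zc_phys (S := S) (x := x) (μ := k * ν) (Y := k * Y) (by positivity) h0 h1 (by rw [hY]; field_simp), capf]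
  rw [Real.sqrt_mul hkp.le]
  have hs : 0 < Real.sqrt (r0 x * r1 x) := Real.sqrt_pos.2 (by positivity)
  field_simp

theorem arctan_le_self {t : ℝ} (ht : 0 ≤ t) : Real.arctan t ≤ t := by
  have h1 := Real.le_tan (x := Real.arctan t) (Real.arctan_nonneg.2 ht) (Real.arctan_lt_pi_div_two t)
  rwa [Real.tan_arctan] at h1

theorem log_smooth_norm {x : E4} (hx : x ≠ 0) (ν : ℝ) : ContDiffAt ℝ ∞ (fun y : E4 => ν * Real.log ‖y‖) x :=
  contDiffAt_const.mul ((contDiffAt_norm ℝ hx).log (norm_ne_zero_iff.2 hx))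

theorem r1_sq_smooth : ContDiff ℝ ∞ (fun y : E4 => r1 y ^ 2) := by
  have e : (fun y : E4 => r1 y ^ 2) = fun y => (y 2) * (y 2) + (y 3) * (y 3) := by
    funext y
    rw [r1, ← Complex.normSq_eq_norm_sq, Zc1, Complex.normSq_mk]
  rw [e]
  have c : ∀ i : Fin 4, ContDiff ℝ ∞ (fun y : E4 => y i) := fun i => (EuclideanSpace.proj (𝕜 := ℝ) i).contDiff
  exact ((c 2).mul (c 2)).add ((c 3).mul (c 3))

theorem capf_smooth (hF : FlatOK ε S B g k ν lam th Tend lam0 Fs) {x : E4} (hx : x ≠ 0) : ContDiffAt ℝ ∞ (capf S ν k lam th) x := by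
  have hn : ContDiffAt ℝ ∞ (fun y : E4 => ‖y‖) x := contDiffAt_norm ℝ hx
  have hn0 : ‖x‖ ≠ 0 := norm_ne_zero_iff.2 hx
  have hT := log_smooth_norm hx ν
  have hlam : ContDiffAt ℝ ∞ (fun y : E4 => lam (ν * Real.log ‖y‖)) x := ContDiffAt.comp x (g := lam) (f := fun y : E4 => ν * Real.log ‖y‖) (hF.lam_sm _) hT
  have hth : ContDiffAt ℝ ∞ (fun y : E4 => th (ν * Real.log ‖y‖)) x := ContDiffAt.comp x (g := th) (f := fun y : E4 => ν * Real.log ‖y‖) (hF.th_sm _) hT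
  have hm : ContDiffAt ℝ ∞ (fun y : E4 => r1 y ^ 2 / ‖y‖ ^ 2) x := r1_sq_smooth.contDiffAt.div (hn.pow 2) (pow_ne_zero 2 hn0)
  have hJ : ∀ c : ℝ, ContDiffAt ℝ ∞ (fun y : E4 => bJ 0 (S.κ ^ 2 * (c * (r1 y ^ 2 / ‖y‖ ^ 2)))) x := fun c =>
    ContDiffAt.comp x (g := bJ 0) (f := fun y : E4 => S.κ ^ 2 * (c * (r1 y ^ 2 / ‖y‖ ^ 2))) (bJ_smooth 0).contDiffAt (contDiffAt_const.mul (contDiffAt_const.mul hm))
  exact ((hn.inv hn0).mul hlam.neg.exp).mul (contDiffAt_const.mul ((hth.mul (hJ _)).add ((contDiffAt_const.sub hth).mul (contDiffAt_const.mul (hJ _)))))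

/-- near the axis the function is the cap -/
theorem vf_cap (hF : FlatOK ε S B g k ν lam th Tend lam0 Fs) (hf : FreqOK k ν) {x : E4} (h0 : 0 < r0 x)
    (h : k * ν * r1 x < 1 / 4 * r0 x) : vf S ν k lam th Fs x = capf S ν k lam th x := by
  have hν : 0 < ν := by linarith [hf.ν4]
  have hk : 0 < k := by linarith [hf.k1]
  rw [vf]
  split_ifs with h1
  · rfl
  · have h1' : 0 < r1 x := lt_of_le_of_ne (r1_nonneg x) (Ne.symm h1)
    refine cap_eq hF hf h0 h1' ?_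
    have h2 := arctan_le_self (t := r1 x / r0 x) (by positivity)
    have h3 : k * (ν * Real.arctan (r1 x / r0 x)) ≤ k * (ν * (r1 x / r0 x)) := by
      apply mul_le_mul_of_nonneg_left _ hk.le; exact mul_le_mul_of_nonneg_left h2 hν.le
    have h4 : k * (ν * (r1 x / r0 x)) = k * ν * r1 x / r0 x := by ring
    rw [h4] at h3
    refine h3.trans ?_
    rw [div_le_iff₀ h0]; exact h.le

theorem vf_cap_ev (hF : FlatOK ε S B g k ν lam th Tend lam0 Fs) (hf : FreqOK k ν) {x : E4} (h0 : 0 < r0 x)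
    (h : k * ν * r1 x < 1 / 4 * r0 x) : vf S ν k lam th Fs =ᶠ[𝓝 x] capf S ν k lam th := by
  have c1 : ∀ᶠ y in 𝓝 x, 0 < r0 y := r0_cont.continuousAt.eventually (lt_mem_nhds h0)
  have c2 : ∀ᶠ y in 𝓝 x, k * ν * r1 y < 1 / 4 * r0 y := by
    have c3 : Continuous fun y : E4 => 1 / 4 * r0 y - k * ν * r1 y := (continuous_const.mul r0_cont).sub (continuous_const.mul r1_cont)
    exact (c3.continuousAt.eventually (lt_mem_nhds (sub_pos.2 h))).mono fun y hy => sub_pos.1 hy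
  filter_upwards [c1, c2] with y h1 h2
  exact vf_cap hF hf h1 h2

theorem flat_cont {x : E4} (h0 : 0 < r0 x) (hx : x ≠ 0) (ν : ℝ) : ContinuousAt (fun y : E4 => ((ν * Real.log ‖y‖, ν * Real.arctan (r1 y / r0 y)) : ℝ × ℝ)) x := by
  refine ContinuousAt.prodMk ?_ ?_
  · exact continuousAt_const.mul (continuous_norm.continuousAt.log (norm_ne_zero_iff.2 hx))
  · exact continuousAt_const.mul (Real.continuous_arctan.continuousAt.comp (r1_cont.continuousAt.div r0_cont.continuousAt h0.ne'))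

theorem x_ne {x : E4} (h0 : 0 < r0 x) : x ≠ 0 := by
  rintro rfl
  rw [r0, map_zero, norm_zero] at h0
  exact lt_irrefl _ h0

theorem flat_ev {x : E4} {F : V → ℝ} {n : ℕ} (h0 : 0 < r0 x) (h1 : 0 < r1 x)
    (h : ∀ᶠ p : ℝ × ℝ in 𝓝 (ν * Real.log ‖x‖, ν * Real.arctan (r1 x / r0 x)), ∀ θ, Fs p.1 p.2 θ = F ![p.1, p.2, n * θ]) :
    vf S ν k lam th Fs =ᶠ[𝓝 x] phys ν n F := by
  have c1 : ∀ᶠ y in 𝓝 x, 0 < r1 y := r1_cont.continuousAt.eventually (lt_mem_nhds h1)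
  have c2 := (flat_cont h0 (x_ne h0) ν).eventually h
  filter_upwards [c1, c2] with y h2 h3
  rw [vf, if_neg h2.ne', flatf, phys, Pt]
  rw [h3 (Complex.arg (Zc 0 y))]

theorem norm_le_r0 {x : E4} (h : r1 x ≤ r0 x) : ‖x‖ ^ 2 ≤ 2 * r0 x ^ 2 := by
  rw [norm_sq_E4]
  have := pow_le_pow_left₀ (r1_nonneg x) h 2
  linarith

/-- the bound for the cap -/
theorem capf_bd (hF : FlatOK ε S B g k ν lam th Tend lam0 Fs) (hf : FreqOK k ν) {x : E4} (h0 : 0 < r0 x)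
    (h : k * ν * r1 x ≤ 1 * r0 x) : |capf S ν k lam th x| ≤ (4 * (S.A * Real.sqrt S.κ) * Real.sqrt ν) * (‖x‖⁻¹ * Real.exp (-lam (ν * Real.log ‖x‖))) := by
  have hν : 0 < ν := by linarith [hf.ν4]
  have hk : 0 < k := by linarith [hf.k1]
  have hx := norm_pos_iff.2 (x_ne h0)
  have hm := hF.th_mem (ν * Real.log ‖x‖)
  have hc := c_pos S
  obtain ⟨k1, k2⟩ := κ_sq S
  have hr : r0 x ^ 2 ≤ ‖x‖ ^ 2 := by rw [norm_sq_E4]; have := sq_nonneg (r1 x); linarith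
  have hA : (k * ν) ^ 2 * (r1 x ^ 2 / ‖x‖ ^ 2) ≤ 1 := by
    rw [← mul_div_assoc, div_le_one (by positivity)]
    have := pow_le_pow_left₀ (mul_nonneg (by positivity) (r1_nonneg x)) h 2
    have e : (k * ν * r1 x) ^ 2 = (k * ν) ^ 2 * r1 x ^ 2 := by ring
    have e2 : (1 * r0 x) ^ 2 = r0 x ^ 2 := by ring
    linarith
  have hA0 : 0 ≤ r1 x ^ 2 / ‖x‖ ^ 2 := by positivity
  have hB : ν ^ 2 * (r1 x ^ 2 / ‖x‖ ^ 2) ≤ 1 := by
    have : ν ^ 2 ≤ (k * ν) ^ 2 := by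
      have : ν ≤ k * ν := by nlinarith [hf.k1]
      exact pow_le_pow_left₀ hν.le this 2
    exact (mul_le_mul_of_nonneg_right this hA0).trans hA
  have J1 := J_bounds (m := S.κ ^ 2 * (ν ^ 2 * (r1 x ^ 2 / ‖x‖ ^ 2))) (by positivity) (by
    have : S.κ ^ 2 * (ν ^ 2 * (r1 x ^ 2 / ‖x‖ ^ 2)) ≤ 103 / 100 * 1 := mul_le_mul k2 hB (by positivity) (by norm_num)
    linarith)
  have J2 := J_bounds (m := S.κ ^ 2 * ((k * ν) ^ 2 * (r1 x ^ 2 / ‖x‖ ^ 2))) (by positivity) (by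
    have : S.κ ^ 2 * ((k * ν) ^ 2 * (r1 x ^ 2 / ‖x‖ ^ 2)) ≤ 103 / 100 * 1 := mul_le_mul k2 hA (by positivity) (by norm_num)
    linarith)
  have hsk : Real.sqrt k ≤ 2 := by
    rw [Real.sqrt_le_iff]; constructor
    · norm_num
    · linarith [hf.k2]
  have hsk0 := Real.sqrt_nonneg k
  set t := th (ν * Real.log ‖x‖) with ht
  set a := bJ 0 (S.κ ^ 2 * (ν ^ 2 * (r1 x ^ 2 / ‖x‖ ^ 2))) with ha
  set b := bJ 0 (S.κ ^ 2 * ((k * ν) ^ 2 * (r1 x ^ 2 / ‖x‖ ^ 2))) with hb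
  have h5 : |t * a + (1 - t) * (Real.sqrt k * b)| ≤ 4 := by
    have h6 : 0 ≤ Real.sqrt k * b := mul_nonneg hsk0 (by linarith [J2.1])
    have h7 : Real.sqrt k * b ≤ 2 * (3 / 2) := mul_le_mul hsk J2.2 (by linarith [J2.1]) (by norm_num)
    rw [abs_of_nonneg (add_nonneg (mul_nonneg hm.1 (by linarith [J1.1])) (mul_nonneg (by linarith) h6))]
    have := mul_le_mul_of_nonneg_left (show a ≤ 4 by linarith [J1.2]) hm.1
    have := mul_le_mul_of_nonneg_left (show Real.sqrt k * b ≤ 4 by linarith) (by linarith : 0 ≤ 1 - t)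
    linarith
  rw [capf, abs_mul, abs_mul, abs_mul, abs_mul, abs_of_pos hc, abs_of_nonneg (Real.sqrt_nonneg ν), abs_of_pos (inv_pos.2 hx), abs_of_pos (Real.exp_pos _)]
  have h8 : S.A * Real.sqrt S.κ * Real.sqrt ν * |t * a + (1 - t) * (Real.sqrt k * b)| ≤ S.A * Real.sqrt S.κ * Real.sqrt ν * 4 :=
    mul_le_mul_of_nonneg_left h5 (by positivity)
  have h9 := mul_le_mul_of_nonneg_left h8 (by positivity : 0 ≤ ‖x‖⁻¹ * Real.exp (-lam (ν * Real.log ‖x‖)))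
  linarith

/-- **the estimate off the axis** -/
theorem vf_good_off (hF : FlatOK ε S B g k ν lam th Tend lam0 Fs) (hf : FreqOK k ν) (hB : 0 ≤ B) {x : E4} (h1 : 0 < r1 x) (h : r1 x ≤ r0 x) :
    Good ((4 * B + 4 * (S.A * Real.sqrt S.κ)) * Real.sqrt ν) (5 * ε) ν lam (vf S ν k lam th Fs) x := by
  have h0 : 0 < r0 x := by linarith
  have hν : 0 < ν := by linarith [hf.ν4]
  have hk : 0 < k := by linarith [hf.k1]
  have hx := norm_pos_iff.2 (x_ne h0)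
  have hc := c_pos S
  have ha : 0 < Real.arctan (r1 x / r0 x) := Real.arctan_pos.2 (by positivity)
  have hY0 : 0 < ν * Real.arctan (r1 x / r0 x) := by positivity
  have hY1 : ν * Real.arctan (r1 x / r0 x) ≤ ν * (Real.pi / 4) := by
    refine mul_le_mul_of_nonneg_left ?_ hν.le
    rw [← Real.arctan_one]
    exact Real.arctan_strictMono.monotone (by rw [div_le_one h0]; exact h)
  obtain ⟨n, F, hP, hC, hE⟩ := hF.loc (ν * Real.log ‖x‖) _ hY0 hY1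
  have hE' : vf S ν k lam th Fs =ᶠ[𝓝 x] phys ν n F := flat_ev h0 h1 hE
  have hz0 : Zc 0 x ≠ 0 := norm_pos_iff.1 h0
  have hz1 : Zc 1 x ≠ 0 := norm_pos_iff.1 h1
  obtain ⟨s1, s2, s3⟩ := hC (n * Complex.arg (Zc 0 x))
  have hPt : Pt ν n x = ![ν * Real.log ‖x‖, ν * Real.arctan (r1 x / r0 x), n * Complex.arg (Zc 0 x)] := rfl
  have hq : 0 < r0 x * r1 x := by positivity
  have hsq : 0 < (Real.sqrt (r0 x * r1 x))⁻¹ := inv_pos.2 (Real.sqrt_pos.2 hq)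
  have hsm : ContDiffAt ℝ ∞ (phys ν n F) x := phys_smooth hP hz0 hz1 s1
  have hval : vf S ν k lam th Fs x = (Real.sqrt (r0 x * r1 x))⁻¹ * F (Pt ν n x) := hE'.eq_of_nhds
  refine ⟨hsm.congr_of_eventuallyEq hE', ?_, ?_⟩
  · rw [lap_congr hE', lap_phys hν hP hz0 hz1 s1, hval]
    have e1 : kap n ν (Pt ν n x 1) = kap n ν (ν * Real.arctan (r1 x / r0 x)) := rfl
    have e2 : pot ν (Pt ν n x 1) = pot ν (ν * Real.arctan (r1 x / r0 x)) := rfl
    rw [e1, e2]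
    have s2' : |pd 0 (pd 0 F) (Pt ν n x) + pd 1 (pd 1 F) (Pt ν n x) + kap n ν (ν * Real.arctan (r1 x / r0 x)) * pd 2 (pd 2 F) (Pt ν n x)
        + pot ν (ν * Real.arctan (r1 x / r0 x)) * F (Pt ν n x)| ≤ 5 * ε * |F (Pt ν n x)| := s2
    rw [abs_mul, abs_mul, abs_of_pos hsq, abs_mul, abs_of_pos hsq, abs_of_nonneg (by positivity : 0 ≤ ν ^ 2 / ‖x‖ ^ 2)]
    have := mul_le_mul_of_nonneg_left s2' (by positivity : 0 ≤ ν ^ 2 / ‖x‖ ^ 2 * (Real.sqrt (r0 x * r1 x))⁻¹)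
    linarith
  · by_cases hcase : k * ν * r1 x < 1 / 4 * r0 x
    · rw [vf_cap hF hf h0 hcase]
      refine (capf_bd hF hf h0 (by linarith)).trans ?_
      refine mul_le_mul_of_nonneg_right ?_ (by positivity)
      have := Real.sqrt_nonneg ν
      have := mul_nonneg hB this
      linarith
    · push Not at hcase
      rw [hval, abs_mul, abs_of_pos hsq]
      have s3' : |F (Pt ν n x)| ≤ B * Real.exp (-lam (ν * Real.log ‖x‖)) := s3
      have hlow : ‖x‖ ^ 2 ≤ 16 * ν * (r0 x * r1 x) := by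
        have a1 := norm_le_r0 h
        have a2 : r0 x * (1 / 4 * r0 x) ≤ r0 x * (k * ν * r1 x) := mul_le_mul_of_nonneg_left hcase h0.le
        have a3 : r0 x * (k * ν * r1 x) ≤ 2 * (ν * (r0 x * r1 x)) := by
          have : k * (ν * (r0 x * r1 x)) ≤ 2 * (ν * (r0 x * r1 x)) := mul_le_mul_of_nonneg_right hf.k2 (by positivity)
          linarith
        nlinarith
      have hinv : (Real.sqrt (r0 x * r1 x))⁻¹ ≤ 4 * Real.sqrt ν * ‖x‖⁻¹ := by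
        have b1 : ‖x‖ ≤ 4 * Real.sqrt ν * Real.sqrt (r0 x * r1 x) := by
          have : Real.sqrt (‖x‖ ^ 2) ≤ Real.sqrt (16 * ν * (r0 x * r1 x)) := Real.sqrt_le_sqrt hlow
          rw [Real.sqrt_sq hx.le] at this
          refine this.trans (le_of_eq ?_)
          rw [Real.sqrt_mul (by positivity), Real.sqrt_mul (by norm_num)]
          have : Real.sqrt 16 = 4 := by
            rw [show (16 : ℝ) = 4 ^ 2 by norm_num]; exact Real.sqrt_sq (by norm_num)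
          rw [this]
        rw [inv_le_iff_one_le_mul₀ (Real.sqrt_pos.2 hq)]
        have b2 : 1 = ‖x‖ * ‖x‖⁻¹ := by field_simp
        rw [b2]
        have := mul_le_mul_of_nonneg_right b1 (inv_pos.2 hx).le
        linarith
      calc (Real.sqrt (r0 x * r1 x))⁻¹ * |F (Pt ν n x)| ≤ (4 * Real.sqrt ν * ‖x‖⁻¹) * (B * Real.exp (-lam (ν * Real.log ‖x‖))) :=
            mul_le_mul hinv s3' (abs_nonneg _) (by positivity)
        _ ≤ (4 * B + 4 * (S.A * Real.sqrt S.κ)) * Real.sqrt ν * (‖x‖⁻¹ * Real.exp (-lam (ν * Real.log ‖x‖))) := by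
            have : 0 ≤ (S.A * Real.sqrt S.κ) * Real.sqrt ν * (‖x‖⁻¹ * Real.exp (-lam (ν * Real.log ‖x‖))) := by positivity
            linarith

end

end Pool.Agent.J6H20.RL
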