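import Mathlib
import Pool.Agent.J6H20.RL.PhysB

/-!
# The physical function of one cycle, all points
-/

set_option autoImplicit false

open Filter Topology
open scoped ContDiff

namespace Pool.Agent.J6H20.RL

theorem lap_smooth {u : E4 → ℝ} {x : E4} (h : ContDiffAt ℝ ∞ u x) : ContDiffAt ℝ ∞ (lap u) x := by
  have : lap u = fun x => ∑ k : Fin 4, dd (eb k) (dd (eb k) u) x := rfl
  rw [this]
  exact ContDiffAt.sum fun k _ => dd_smooth (dd_smooth h (eb k)) (eb k)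

/-- an inequality extends to the axis -/
theorem axis_ineq {u : E4 → ℝ} {c : ℝ} {x : E4} (hx : x ≠ 0) (h1 : r1 x = 0) (hu : ContDiffAt ℝ ∞ u x)
    (h : ∀ᶠ y in 𝓝 x, 0 < r1 y → |lap u y| ≤ c * (1 / ‖y‖ ^ 2) * |u y|) : |lap u x| ≤ c * (1 / ‖x‖ ^ 2) * |u x| := by
  set γ : ℝ → E4 := fun t => x + t • eb 2 with hγ
  have hγc : Continuous γ := by fun_prop
  have hγ0 : γ 0 = x := by simp [hγ]
  have cl : ContinuousAt (fun t => |lap u (γ t)|) 0 := by
    have h2 : ContinuousAt (lap u) (γ 0) := by rw [hγ0]; exact (lap_smooth hu).continuousAt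
    exact (ContinuousAt.comp (g := lap u) (f := γ) h2 hγc.continuousAt).abs
  have cr : ContinuousAt (fun t => c * (1 / ‖γ t‖ ^ 2) * |u (γ t)|) 0 := by
    have h2 : ContinuousAt u (γ 0) := by rw [hγ0]; exact hu.continuousAt
    have h3 : ContinuousAt (fun t => |u (γ t)|) 0 := (ContinuousAt.comp (g := u) (f := γ) h2 hγc.continuousAt).abs
    have h4 : ContinuousAt (fun t => 1 / ‖γ t‖ ^ 2) 0 := by
      refine ContinuousAt.div continuousAt_const ((hγc.norm.pow 2).continuousAt) ?_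
      rw [hγ0]; have := norm_pos_iff.2 hx; positivity
    exact (continuousAt_const.mul h4).mul h3
  have hev : ∀ᶠ t in 𝓝[≠] (0 : ℝ), |lap u (γ t)| ≤ c * (1 / ‖γ t‖ ^ 2) * |u (γ t)| := by
    have h2 : ∀ᶠ t in 𝓝 (0 : ℝ), 0 < r1 (γ t) → |lap u (γ t)| ≤ c * (1 / ‖γ t‖ ^ 2) * |u (γ t)| := by
      have h3 := hγc.continuousAt (x := 0)
      rw [ContinuousAt, hγ0] at h3
      exact h3.eventually h
    filter_upwards [h2.filter_mono nhdsWithin_le_nhds, self_mem_nhdsWithin] with t ht ht0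
    refine ht ?_
    have e1 : Zc 1 x = 0 := norm_eq_zero.1 h1
    have e2 : Zc 1 (eb 2) = 1 := by
      rw [Zc1, eb]; apply Complex.ext <;> simp
    rw [r1, hγ]
    simp only [map_add, map_smul, e1, e2, zero_add, norm_smul, norm_one, mul_one]
    exact norm_pos_iff.2 ht0
  have t1 : Tendsto (fun t => |lap u (γ t)|) (𝓝[≠] 0) (𝓝 (|lap u (γ 0)|)) := cl.mono_left nhdsWithin_le_nhds
  have t2 : Tendsto (fun t => c * (1 / ‖γ t‖ ^ 2) * |u (γ t)|) (𝓝[≠] 0) (𝓝 (c * (1 / ‖γ 0‖ ^ 2) * |u (γ 0)|)) := cr.mono_left nhdsWithin_le_nhds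
  have := le_of_tendsto_of_tendsto t1 t2 hev
  rwa [hγ0] at this

section
variable {ε₁ ε B g k ν Tend lam0 : ℝ} {S : Sea ε₁} {lam th : ℝ → ℝ} {Fs : ℝ → ℝ → ℝ → ℝ}

theorem vf_good (hF : FlatOK ε S B g k ν lam th Tend lam0 Fs) (hf : FreqOK k ν) (hB : 0 ≤ B) {x : E4} (hx : x ≠ 0) (h : r1 x ≤ r0 x) :
    Good ((4 * B + 4 * (S.A * Real.sqrt S.κ)) * Real.sqrt ν) (5 * ε) ν lam (vf S ν k lam th Fs) x := by
  have h0 := norm_pos_of hx h
  have hν : 0 < ν := by linarith [hf.ν4]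
  have hc := c_pos S
  rcases eq_or_lt_of_le (r1_nonneg x) with h1 | h1
  · have h1' : r1 x = 0 := h1.symm
    have hE := vf_cap_ev hF hf h0 (by rw [h1']; linarith)
    have hsm := capf_smooth hF hx
    refine Good.congr ⟨hsm, ?_, ?_⟩ hE
    · have key := axis_ineq (u := capf S ν k lam th) (c := 5 * ε * ν ^ 2) hx h1' hsm ?_
      · have e : 5 * ε * (ν ^ 2 / ‖x‖ ^ 2) = 5 * ε * ν ^ 2 * (1 / ‖x‖ ^ 2) := by ring
        rw [e]; exact key
      · have c1 : ∀ᶠ y in 𝓝 x, r1 y < r0 y := by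
          have c3 : Continuous fun y : E4 => r0 y - r1 y := r0_cont.sub r1_cont
          exact (c3.continuousAt.eventually (lt_mem_nhds (show 0 < r0 x - r1 x by rw [h1']; linarith))).mono fun y hy => sub_pos.1 hy
        filter_upwards [c1, hE.eventuallyEq_nhds] with y hy hEy hy1
        have hg := (vf_good_off hF hf hB hy1 hy.le).eq
        rw [lap_congr hEy, hEy.eq_of_nhds] at hg
        have e : 5 * ε * (ν ^ 2 / ‖y‖ ^ 2) = 5 * ε * ν ^ 2 * (1 / ‖y‖ ^ 2) := by ring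
        rw [← e]; exact hg
    · refine (capf_bd hF hf h0 (by rw [h1']; linarith)).trans ?_
      refine mul_le_mul_of_nonneg_right ?_ (by positivity)
      have := Real.sqrt_nonneg ν
      have := mul_nonneg hB this
      linarith
  · exact vf_good_off hF hf hB h1 h

theorem cos_refl {ν : ℝ} (h : ∃ m : ℕ, ν = 4 * m) (Y : ℝ) : Real.cos (ν * (Real.pi / 2) - Y) = Real.cos Y := by
  obtain ⟨m, hm⟩ := h
  have e : ν * (Real.pi / 2) - Y = ((m : ℤ) : ℝ) * (2 * Real.pi) - Y := by rw [hm]; push_cast; ring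
  rw [e, cosI']

/-- symmetry on the diagonal -/
theorem vf_symm (hF : FlatOK ε S B g k ν lam th Tend lam0 Fs) (hf : FreqOK k ν) {x : E4} (hx : x ≠ 0) (h : r1 x = r0 x) :
    ∀ᶠ y in 𝓝 x, vf S ν k lam th Fs (sw y) = vf S ν k lam th Fs y := by
  have h0 := norm_pos_of hx h.le
  have h1 : 0 < r1 x := by rw [h]; exact h0
  have hν : 0 < ν := by linarith [hf.ν4]
  have c1 : ∀ᶠ y in 𝓝 x, 0 < r1 y := r1_cont.continuousAt.eventually (lt_mem_nhds h1)
  have c0 : ∀ᶠ y in 𝓝 x, 0 < r0 y := r0_cont.continuousAt.eventually (lt_mem_nhds h0)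
  have c2 : ∀ᶠ y in 𝓝 x, |ν * Real.arctan (r1 y / r0 y) - ν * (Real.pi / 4)| < 1 / 8 := by
    have c3 : ContinuousAt (fun y : E4 => |ν * Real.arctan (r1 y / r0 y) - ν * (Real.pi / 4)|) x :=
      ((continuousAt_const.mul (Real.continuous_arctan.continuousAt.comp (r1_cont.continuousAt.div r0_cont.continuousAt h0.ne'))).sub continuousAt_const).abs
    refine c3.eventually (gt_mem_nhds ?_)
    show |ν * Real.arctan (r1 x / r0 x) - ν * (Real.pi / 4)| < 1 / 8
    rw [h, div_self h0.ne', Real.arctan_one, sub_self, abs_zero]; norm_num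
  filter_upwards [c1, c0, c2] with y h1y h0y h2
  set Y := ν * Real.arctan (r1 y / r0 y) with hY
  have e1 : ν * Real.arctan (r0 y / r1 y) = ν * (Real.pi / 2) - Y := by
    have : r0 y / r1 y = (r1 y / r0 y)⁻¹ := by rw [inv_div]
    rw [this, Real.arctan_inv_of_pos (by positivity)]; ring
  have h2' : |(ν * (Real.pi / 2) - Y) - ν * (Real.pi / 4)| < 1 / 8 := by
    have : (ν * (Real.pi / 2) - Y) - ν * (Real.pi / 4) = -(Y - ν * (Real.pi / 4)) := by ring
    rw [this, abs_neg]; exact h2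
  rw [vf, vf, if_neg (by rw [r1_sw]; exact h0y.ne'), if_neg h1y.ne', flatf, flatf, r0_sw, r1_sw, norm_sw, e1, hF.mid _ _ h2, hF.mid _ _ h2', cos_refl hf.n1]
  have e2 : k * (ν * (Real.pi / 2) - Y) = (k * ν) * (Real.pi / 2) - k * Y := by ring
  rw [e2, cos_refl hf.n2, mul_comm (r1 y)]

/-- **the estimate for the physical function of a cycle** -/
theorem uf_good (hF : FlatOK ε S B g k ν lam th Tend lam0 Fs) (hf : FreqOK k ν) (hB : 0 ≤ B) {x : E4} (hx : x ≠ 0) :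
    Good ((4 * B + 4 * (S.A * Real.sqrt S.κ)) * Real.sqrt ν) (5 * ε) ν lam (uf S ν k lam th Fs) x := by
  have cc : Continuous fun y : E4 => r0 y - r1 y := r0_cont.sub r1_cont
  rcases lt_trichotomy (r1 x) (r0 x) with h | h | h
  · refine (vf_good hF hf hB hx h.le).congr ?_
    filter_upwards [cc.continuousAt.eventually (lt_mem_nhds (sub_pos.2 h))] with y hy
    rw [uf, if_pos (sub_pos.1 hy).le]
  · refine (vf_good hF hf hB hx h.le).congr ?_
    filter_upwards [vf_symm hF hf hx h] with y hy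
    rw [uf]
    split_ifs
    · rfl
    · exact hy
  · have hsx : sw x ≠ 0 := by
      intro h0
      rw [← norm_eq_zero, norm_sw, norm_eq_zero] at h0
      exact hx h0
    refine (vf_good hF hf hB hsx (by rw [r0_sw, r1_sw]; exact h.le)).sw.congr ?_
    filter_upwards [cc.continuousAt.eventually (gt_mem_nhds (sub_neg.2 h))] with y hy
    rw [uf, if_neg (not_le.2 (sub_neg.1 hy))]

end

/-- the pure function, right of the axis -/
noncomputable def pv {ε₁ : ℝ} (S : Sea ε₁) (ν : ℝ) (x : E4) : ℝ :=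
  if r1 x = 0 then ‖x‖⁻¹ * Real.exp (-(ν * Real.log ‖x‖)) * (S.A * Real.sqrt S.κ * Real.sqrt ν * bJ 0 0) else
    (Real.sqrt (r0 x * r1 x))⁻¹ * (Real.exp (-(ν * Real.log ‖x‖)) * zs S ν (ν * Real.arctan (r1 x / r0 x)))

/-- **the pure function** -/
noncomputable def pur {ε₁ : ℝ} (S : Sea ε₁) (ν : ℝ) (x : E4) : ℝ := if r1 x ≤ r0 x then pv S ν x else pv S ν (sw x)

section
variable {ε₁ ε B g k ν Tend lam0 : ℝ} {S : Sea ε₁} {lam th : ℝ → ℝ} {Fs : ℝ → ℝ → ℝ → ℝ}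

theorem vf_pre (hF : FlatOK ε S B g k ν lam th Tend lam0 Fs) (hf : FreqOK k ν) {x : E4} (hx : x ≠ 0) (h : r1 x ≤ r0 x)
    (hT : ν * Real.log ‖x‖ < 0) : vf S ν k lam th Fs x = pv S ν x := by
  have h0 := norm_pos_of hx h
  have hν : 0 < ν := by linarith [hf.ν4]
  obtain ⟨e1, e2⟩ := hF.pre _ hT.le
  rw [vf, pv]
  split_ifs with h1
  · rw [capf, e1, e2, h1]; simp
  · have h1' : 0 < r1 x := lt_of_le_of_ne (r1_nonneg x) (Ne.symm h1)
    have ha : 0 < Real.arctan (r1 x / r0 x) := Real.arctan_pos.2 (by positivity)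
    rw [flatf, hF.pure _ _ (by positivity) (Or.inl hT), e1, e2]; ring

theorem vf_post (hF : FlatOK ε S B g k ν lam th Tend lam0 Fs) (hf : FreqOK k ν) {x : E4} (hx : x ≠ 0) (h : r1 x ≤ r0 x)
    (hT : Tend < ν * Real.log ‖x‖) : vf S ν k lam th Fs x = Real.exp lam0 * pv S (k * ν) x := by
  have h0 := norm_pos_of hx h
  have hν : 0 < ν := by linarith [hf.ν4]
  have hk : 0 < k := by linarith [hf.k1]
  obtain ⟨e1, e2, _⟩ := hF.post _ hT.le
  have e3 : Real.exp (-(k * (ν * Real.log ‖x‖) - lam0)) = Real.exp lam0 * Real.exp (-(k * ν * Real.log ‖x‖)) := by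
    rw [← Real.exp_add]; congr 1; ring
  rw [vf, pv]
  split_ifs with h1
  · rw [capf, e1, e2, h1, e3, Real.sqrt_mul hk.le]; simp; ring
  · have h1' : 0 < r1 x := lt_of_le_of_ne (r1_nonneg x) (Ne.symm h1)
    have ha : 0 < Real.arctan (r1 x / r0 x) := Real.arctan_pos.2 (by positivity)
    rw [flatf, hF.pure _ _ (by positivity) (Or.inr hT), e1, e2, e3]; ring_nf

theorem sw_ne {x : E4} (hx : x ≠ 0) : sw x ≠ 0 := by
  intro h0
  rw [← norm_eq_zero, norm_sw, norm_eq_zero] at h0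
  exact hx h0

theorem uf_pre (hF : FlatOK ε S B g k ν lam th Tend lam0 Fs) (hf : FreqOK k ν) {x : E4} (hx : x ≠ 0)
    (hT : ν * Real.log ‖x‖ < 0) : uf S ν k lam th Fs x = pur S ν x := by
  rw [uf, pur]
  split_ifs with h
  · exact vf_pre hF hf hx h hT
  · exact vf_pre hF hf (sw_ne hx) (by rw [r0_sw, r1_sw]; exact (not_le.1 h).le) (by rw [norm_sw]; exact hT)

theorem uf_post (hF : FlatOK ε S B g k ν lam th Tend lam0 Fs) (hf : FreqOK k ν) {x : E4} (hx : x ≠ 0)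
    (hT : Tend < ν * Real.log ‖x‖) : uf S ν k lam th Fs x = Real.exp lam0 * pur S (k * ν) x := by
  rw [uf, pur]
  split_ifs with h
  · exact vf_post hF hf hx h hT
  · exact vf_post hF hf (sw_ne hx) (by rw [r0_sw, r1_sw]; exact (not_le.1 h).le) (by rw [norm_sw]; exact hT)

end

/-- homogeneity of the pure function -/
theorem pv_hom {ε₁ : ℝ} (S : Sea ε₁) (ν : ℝ) {c : ℝ} (hc : 0 < c) {x : E4} (hx : x ≠ 0) :
    pv S ν (c • x) = c⁻¹ * Real.exp (-(ν * Real.log c)) * pv S ν x := by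
  have hxn := norm_pos_iff.2 hx
  have e0 : Real.exp (-(ν * Real.log ‖c • x‖)) = Real.exp (-(ν * Real.log c)) * Real.exp (-(ν * Real.log ‖x‖)) := by
    rw [norm_smul, Real.norm_eq_abs, abs_of_pos hc, Real.log_mul hc.ne' hxn.ne', ← Real.exp_add]; congr 1; ring
  have e1 : ‖c • x‖⁻¹ = c⁻¹ * ‖x‖⁻¹ := by rw [norm_smul, Real.norm_eq_abs, abs_of_pos hc, mul_inv]
  rw [pv, pv, r0_smul, r1_smul, abs_of_pos hc, e0, e1]
  have h1 : c * r1 x = 0 ↔ r1 x = 0 := by simp [hc.ne']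
  by_cases h : r1 x = 0
  · rw [if_pos (h1.2 h), if_pos h]; ring
  · rw [if_neg (fun h' => h (h1.1 h')), if_neg h]
    have e2 : c * r0 x * (c * r1 x) = c ^ 2 * (r0 x * r1 x) := by ring
    rw [e2, Real.sqrt_mul (sq_nonneg c), Real.sqrt_sq hc.le, mul_inv, mul_div_mul_left _ _ hc.ne']; ring

theorem pur_hom {ε₁ : ℝ} (S : Sea ε₁) (ν : ℝ) {c : ℝ} (hc : 0 < c) {x : E4} (hx : x ≠ 0) :
    pur S ν (c • x) = c⁻¹ * Real.exp (-(ν * Real.log c)) * pur S ν x := by
  rw [pur, pur, r0_smul, r1_smul, abs_of_pos hc]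
  have h1 : c * r1 x ≤ c * r0 x ↔ r1 x ≤ r0 x := mul_le_mul_iff_of_pos_left hc
  by_cases h : r1 x ≤ r0 x
  · rw [if_pos (h1.2 h), if_pos h, pv_hom S ν hc hx]
  · rw [if_neg (fun h' => h (h1.1 h')), if_neg h, map_smul, pv_hom S ν hc (sw_ne hx)]

end Pool.Agent.J6H20.RL
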