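import Mathlib
import Pool.Agent.J6H20.RL.Geom2
import Pool.Agent.J6H20.RL.Chi

/-!
# Calculus on `E4`
-/

set_option autoImplicit false

open Filter Topology
open scoped ContDiff

namespace Pool.Agent.J6H20.RL

theorem dsm {u : E4 → ℝ} {x : E4} (h : ContDiffAt ℝ ∞ u x) : DifferentiableAt ℝ u x := h.differentiableAt (by simp)

/-- gradient product -/
noncomputable def gr (u v : E4 → ℝ) (x : E4) : ℝ := ∑ k : Fin 4, dd (eb k) u x * dd (eb k) v x

theorem gr_smooth {u v : E4 → ℝ} {x : E4} (hu : ContDiffAt ℝ ∞ u x) (hv : ContDiffAt ℝ ∞ v x) : ContDiffAt ℝ ∞ (gr u v) x := by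
  have : gr u v = fun x => ∑ k : Fin 4, dd (eb k) u x * dd (eb k) v x := rfl
  rw [this]
  exact ContDiffAt.sum fun k _ => (dd_smooth hu (eb k)).mul (dd_smooth hv (eb k))

theorem lap_sm {u : E4 → ℝ} {x : E4} (h : ContDiffAt ℝ ∞ u x) : ContDiffAt ℝ ∞ (lap u) x := by
  have : lap u = fun x => ∑ k : Fin 4, dd (eb k) (dd (eb k) u) x := rfl
  rw [this]
  exact ContDiffAt.sum fun k _ => dd_smooth (dd_smooth h (eb k)) (eb k)

theorem dd_add {u v : E4 → ℝ} {x e : E4} (hu : DifferentiableAt ℝ u x) (hv : DifferentiableAt ℝ v x) :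
    dd e (fun y => u y + v y) x = dd e u x + dd e v x := by
  simp only [dd]
  rw [fderiv_fun_add hu hv]; rfl

/-- product rule for the Laplacian -/
theorem lap_mul {u v : E4 → ℝ} {x : E4} (hu : ContDiffAt ℝ ∞ u x) (hv : ContDiffAt ℝ ∞ v x) :
    lap (fun y => u y * v y) x = lap u x * v x + 2 * gr u v x + u x * lap v x := by
  have h : ∀ k : Fin 4, dd (eb k) (dd (eb k) (fun y => u y * v y)) x =
      dd (eb k) (dd (eb k) u) x * v x + 2 * (dd (eb k) u x * dd (eb k) v x) + u x * dd (eb k) (dd (eb k) v) x := by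
    intro k
    have h1 : dd (eb k) (fun y => u y * v y) =ᶠ[𝓝 x] fun y => dd (eb k) u y * v y + u y * dd (eb k) v y := by
      filter_upwards [ev_diff' hu, ev_diff' hv] with y h1 h2
      exact dd_mul h1 h2
    have s1 := dsm (dd_smooth hu (eb k))
    have s2 := dsm (dd_smooth hv (eb k))
    rw [(dd_congr h1).eq_of_nhds, dd_add (u := fun y => dd (eb k) u y * v y) (v := fun y => u y * dd (eb k) v y) (s1.mul (dsm hv)) ((dsm hu).mul s2),
      dd_mul s1 (dsm hv), dd_mul (dsm hu) s2]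
    ring
  simp only [lap, gr, h, Finset.sum_add_distrib, Finset.sum_mul, Finset.mul_sum]

/-- all first derivatives determine the derivative -/
theorem sum_eb (x : E4) : x = ∑ k : Fin 4, x k • eb k := by
  ext i
  fin_cases i <;> simp [Fin.sum_univ_four, eb]

theorem dd_sum_eb (u : E4 → ℝ) (x e : E4) : dd e u x = ∑ k : Fin 4, e k * dd (eb k) u x := by
  conv_lhs => rw [dd, sum_eb e, map_sum]
  refine Finset.sum_congr rfl fun k _ => ?_
  rw [map_smul, smul_eq_mul]; rfl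

/-- derivative along a line -/
theorem line_deriv {u : E4 → ℝ} {x e : E4} (hu : DifferentiableAt ℝ u x) : HasDerivAt (fun t : ℝ => u (x + t • e)) (dd e u x) 0 := by
  have h1 : HasDerivAt (fun t : ℝ => x + t • e) e 0 := by
    have := ((hasDerivAt_id (0 : ℝ)).smul_const e).const_add x
    simpa using this
  have h2 : HasFDerivAt u (fderiv ℝ u x) (x + (0 : ℝ) • e) := by simpa using hu.hasFDerivAt
  exact h2.comp_hasDerivAt 0 h1

/-- radial functions -/
theorem rad_smooth {γ : ℝ → ℝ} {x : E4} (hx : x ≠ 0) (hγ : ContDiffAt ℝ ∞ γ ‖x‖) : ContDiffAt ℝ ∞ (fun y : E4 => γ ‖y‖) x :=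
  ContDiffAt.comp x (g := γ) (f := fun y : E4 => ‖y‖) hγ (contDiffAt_norm ℝ hx)

theorem norm_dd {x : E4} (hx : x ≠ 0) (k : Fin 4) : dd (eb k) (fun y : E4 => ‖y‖) x = x k / ‖x‖ := by
  have h1 : HasDerivAt (fun t : ℝ => ‖x + t • eb k‖) (x k / ‖x‖) 0 := by
    have hn := norm_pos_iff.2 hx
    have h2 : ∀ t : ℝ, ‖x + t • eb k‖ = Real.sqrt (‖x‖ ^ 2 + 2 * t * x k + t ^ 2) := by
      intro t
      have h3 : ‖x + t • eb k‖ ^ 2 = ‖x‖ ^ 2 + 2 * t * x k + t ^ 2 := by
        rw [norm_add_sq_real, inner_smul_right, norm_smul, eb, EuclideanSpace.inner_single_right, EuclideanSpace.norm_single]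
        simp
        ring
      rw [← h3, Real.sqrt_sq (norm_nonneg _)]
    have h4 : (fun t : ℝ => ‖x + t • eb k‖) = fun t => Real.sqrt (‖x‖ ^ 2 + 2 * t * x k + t ^ 2) := funext h2
    rw [h4]
    have h5 : HasDerivAt (fun t : ℝ => ‖x‖ ^ 2 + 2 * t * x k + t ^ 2) (2 * x k) 0 := by
      have a := (((hasDerivAt_id (0 : ℝ)).const_mul 2).mul_const (x k)).const_add (‖x‖ ^ 2)
      have b := hasDerivAt_pow 2 (0 : ℝ)
      refine (a.add b).congr_deriv ?_
      simp
    have h6 := h5.sqrt (by simp; positivity)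
    refine h6.congr_deriv ?_
    simp only [mul_zero, zero_mul, add_zero, ne_eq, OfNat.ofNat_ne_zero, not_false_eq_true, zero_pow, Real.sqrt_sq hn.le]
    field_simp
  exact (line_deriv (dsm (contDiffAt_norm ℝ hx))).unique h1

theorem rad_dd {γ : ℝ → ℝ} {x : E4} (hx : x ≠ 0) (hγ : DifferentiableAt ℝ γ ‖x‖) (k : Fin 4) :
    dd (eb k) (fun y : E4 => γ ‖y‖) x = deriv γ ‖x‖ / ‖x‖ * x k := by
  have h1 : HasFDerivAt (fun y : E4 => ‖y‖) (fderiv ℝ (fun y : E4 => ‖y‖) x) x := (dsm (contDiffAt_norm ℝ hx)).hasFDerivAt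
  have h2 : HasFDerivAt (fun y : E4 => γ ‖y‖) (deriv γ ‖x‖ • fderiv ℝ (fun y : E4 => ‖y‖) x) x := hγ.hasDerivAt.comp_hasFDerivAt x h1
  have h3 := norm_dd hx k
  rw [dd] at h3 ⊢
  rw [h2.fderiv]
  change deriv γ ‖x‖ * fderiv ℝ (fun y : E4 => ‖y‖) x (eb k) = _
  rw [h3]; ring

/-- gradient product with a radial function -/
theorem gr_rad {γ : ℝ → ℝ} {U : E4 → ℝ} {x : E4} (hx : x ≠ 0) (hγ : DifferentiableAt ℝ γ ‖x‖) :
    gr (fun y : E4 => γ ‖y‖) U x = deriv γ ‖x‖ / ‖x‖ * dd x U x := by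
  rw [dd_sum_eb U x x, gr, Finset.mul_sum]
  refine Finset.sum_congr rfl fun k _ => ?_
  rw [rad_dd hx hγ]; ring

/-- Euler identity -/
theorem euler {U : E4 → ℝ} {ν : ℝ} {x : E4} (hx : x ≠ 0) (hU : DifferentiableAt ℝ U x)
    (hhom : ∀ c : ℝ, 0 < c → U (c • x) = c⁻¹ * Real.exp (-(ν * Real.log c)) * U x) : dd x U x = -(ν + 1) * U x := by
  have h1 : HasDerivAt (fun t : ℝ => (1 + t)⁻¹ * Real.exp (-(ν * Real.log (1 + t))) * U x) (-(ν + 1) * U x) 0 := by
    have a : HasDerivAt (fun t : ℝ => 1 + t) 1 0 := by simpa using (hasDerivAt_id (0 : ℝ)).const_add 1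
    have b := a.inv (by norm_num)
    have c := ((a.log (by norm_num)).const_mul ν).neg.exp
    refine ((b.mul c).mul_const (U x)).congr_deriv ?_
    simp
  refine (line_deriv hU).unique (h1.congr_of_eventuallyEq ?_)
  filter_upwards [lt_mem_nhds (show (-1 : ℝ) < 0 by norm_num)] with t ht
  rw [← hhom (1 + t) (by linarith), add_smul, one_smul]

end Pool.Agent.J6H20.RL
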