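import Mathlib
import Pool.Agent.J6H20.RL.StartA

/-!
# The start of the construction
-/

set_option autoImplicit false

open Filter Topology
open scoped ContDiff

namespace Pool.Agent.J6H20.RL

/-- cutoffs in the radius -/
noncomputable def gS (r : ℝ) : ℝ := 1 - chi (4 * r - 3)
noncomputable def fS (ν r : ℝ) : ℝ :=
  chi (4 * r - 1) * Real.exp ((1 - chi (2 * r - 2)) * r + chi (2 * r - 2) * (-((ν + 1) * Real.log r)))
/-- radial factor of `U` -/
noncomputable def GS (ν r : ℝ) : ℝ := fS ν r * Real.exp ((ν + 1) * Real.log r)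
noncomputable def ΨS (r : ℝ) : ℝ := 1 - chi (10 * r - 11)

theorem chi_lin (a b : ℝ) : ContDiff ℝ ∞ (fun r => chi (a * r - b)) :=
  chi_smooth.comp ((contDiff_const.mul contDiff_id).sub contDiff_const)

theorem gS_smooth : ContDiff ℝ ∞ gS := contDiff_const.sub (chi_lin 4 3)
theorem ΨS_smooth : ContDiff ℝ ∞ ΨS := contDiff_const.sub (chi_lin 10 11)

theorem fS_smooth {ν r : ℝ} (hr : 0 < r) : ContDiffAt ℝ ∞ (fS ν) r := by
  have hl : ContDiffAt ℝ ∞ (fun r : ℝ => Real.log r) r := Real.contDiffAt_log.2 hr.ne'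
  exact (chi_lin 4 1).contDiffAt.mul ((((contDiffAt_const.sub (chi_lin 2 2).contDiffAt).mul contDiffAt_id).add
    ((chi_lin 2 2).contDiffAt.mul ((contDiffAt_const.mul hl).neg))).exp)

theorem GS_smooth {ν r : ℝ} (hr : 0 < r) : ContDiffAt ℝ ∞ (GS ν) r := by
  have hl : ContDiffAt ℝ ∞ (fun r : ℝ => Real.log r) r := Real.contDiffAt_log.2 hr.ne'
  exact (fS_smooth hr).mul (contDiffAt_const.mul hl).exp

theorem gS_nonneg (r : ℝ) : 0 ≤ gS r := by rw [gS]; linarith [chi_le_one (4 * r - 3)]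
theorem gS_one {r : ℝ} (h : r ≤ 3 / 4) : gS r = 1 := by rw [gS, chi_zero (by linarith)]; ring
theorem gS_zero {r : ℝ} (h : 1 ≤ r) : gS r = 0 := by rw [gS, chi_one (by linarith)]; ring
theorem gS_pos {r : ℝ} (h : r < 1) : 0 < gS r := by
  have : chi (4 * r - 3) < 1 := Real.smoothTransition.lt_one_of_lt_one (by linarith)
  rw [gS]; linarith

theorem fS_zero {ν r : ℝ} (h : r ≤ 1 / 4) : fS ν r = 0 := by rw [fS, chi_zero (by linarith)]; ring
theorem fS_pos {ν r : ℝ} (h : 1 / 4 < r) : 0 < fS ν r := by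
  have : 0 < chi (4 * r - 1) := Real.smoothTransition.pos_of_pos (by linarith)
  rw [fS]; positivity
theorem fS_mid {ν r : ℝ} (h : r ≤ 1) : fS ν r = chi (4 * r - 1) * Real.exp r := by
  rw [fS, chi_zero (t := 2 * r - 2) (by linarith)]; congr 2; ring
theorem GS_zero {ν r : ℝ} (h : r ≤ 1 / 4) : GS ν r = 0 := by rw [GS, fS_zero h]; ring
theorem GS_pos {ν r : ℝ} (h : 1 / 4 < r) : 0 < GS ν r := mul_pos (fS_pos h) (Real.exp_pos _)
theorem GS_one {ν r : ℝ} (h : 3 / 2 ≤ r) : GS ν r = 1 := by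
  rw [GS, fS, chi_one (t := 4 * r - 1) (by linarith), chi_one (t := 2 * r - 2) (by linarith), one_mul, ← Real.exp_add]
  have : (1 - 1) * r + 1 * -((ν + 1) * Real.log r) + (ν + 1) * Real.log r = 0 := by ring
  rw [this, Real.exp_zero]

theorem chi_deriv_nonneg (t : ℝ) : 0 ≤ deriv chi t :=
  Monotone.deriv_nonneg (Real.smoothTransition.monotone)

/-- the slopes in the transition from the constant -/
theorem slopes {ν r : ℝ} (h0 : 1 / 4 < r) (h1 : r < 1) : deriv gS r ≤ 0 ∧ 0 < deriv (fS ν) r := by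
  have hc : ∀ a b : ℝ, HasDerivAt (fun r => chi (a * r - b)) (deriv chi (a * r - b) * a) r := by
    intro a b
    have h2 : HasDerivAt chi (deriv chi (a * r - b)) (a * r - b) := (chi_smooth.differentiable (by simp) _).hasDerivAt
    have h3 : HasDerivAt (fun r : ℝ => a * r - b) a r := by
      have := ((hasDerivAt_id r).const_mul a).sub_const b
      simpa using this
    exact HasDerivAt.comp r h2 h3
  constructor
  · have h2 := (hc 4 3).const_sub 1
    have h3 : deriv gS r = -(deriv chi (4 * r - 3) * 4) := h2.deriv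
    rw [h3]; linarith [chi_deriv_nonneg (4 * r - 3)]
  · have h2 : fS ν =ᶠ[𝓝 r] fun r => chi (4 * r - 1) * Real.exp r := by
      filter_upwards [gt_mem_nhds h1] with s hs
      exact fS_mid (le_of_lt hs)
    have h3 : HasDerivAt (fun r => chi (4 * r - 1) * Real.exp r) (deriv chi (4 * r - 1) * 4 * Real.exp r + chi (4 * r - 1) * Real.exp r) r :=
      (hc 4 1).mul (Real.hasDerivAt_exp r)
    rw [h2.deriv_eq, h3.deriv]
    have h4 : 0 < chi (4 * r - 1) := Real.smoothTransition.pos_of_pos (by linarith)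
    have h5 := chi_deriv_nonneg (4 * r - 1)
    positivity

section
variable {U : E4 → ℝ} {ν C1 : ℝ}

/-- the first start function -/
noncomputable def u0 (U : E4 → ℝ) (ν : ℝ) (x : E4) : ℝ := gS ‖x‖ + GS ν ‖x‖ * U x

theorem u0_near {x : E4} (h : ‖x‖ < 1 / 4) : u0 U ν =ᶠ[𝓝 x] fun _ => 1 := by
  filter_upwards [continuous_norm.continuousAt.eventually (gt_mem_nhds h)] with y hy
  have hy' : ‖y‖ < 1 / 4 := hy
  rw [u0, gS_one (by linarith), GS_zero hy'.le]; ring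

theorem u0_smooth (hU : ∀ x ≠ 0, ContDiffAt ℝ ∞ U x) (x : E4) : ContDiffAt ℝ ∞ (u0 U ν) x := by
  by_cases h : ‖x‖ < 1 / 4
  · exact contDiffAt_const.congr_of_eventuallyEq (u0_near h)
  · have hx : x ≠ 0 := by rintro rfl; rw [norm_zero] at h; norm_num at h
    have hn := norm_pos_iff.2 hx
    exact (rad_smooth hx gS_smooth.contDiffAt).add ((rad_smooth hx (GS_smooth hn)).mul (hU x hx))

/-- nondegeneracy of the start function -/
theorem u0_nondeg (hU : ∀ x ≠ 0, ContDiffAt ℝ ∞ U x)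
    (hhom : ∀ c : ℝ, 0 < c → ∀ x ≠ 0, U (c • x) = c⁻¹ * Real.exp (-(ν * Real.log c)) * U x)
    (hnd : ∀ x ≠ 0, U x = 0 → ∃ e, dd e U x ≠ 0) (x : E4) : 0 < u0 U ν x ^ 2 + gr (u0 U ν) (u0 U ν) x := by
  have hg : 0 ≤ gr (u0 U ν) (u0 U ν) x := Finset.sum_nonneg fun k _ => mul_self_nonneg _
  by_contra hcon
  have h1 : u0 U ν x ^ 2 = 0 := by nlinarith [sq_nonneg (u0 U ν x)]
  have h2 : gr (u0 U ν) (u0 U ν) x = 0 := by nlinarith [sq_nonneg (u0 U ν x)]
  have h3 : u0 U ν x = 0 := by simpa using h1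
  have h4 : ∀ k : Fin 4, dd (eb k) (u0 U ν) x = 0 := by
    intro k
    have := (Finset.sum_eq_zero_iff_of_nonneg (fun k _ => mul_self_nonneg (dd (eb k) (u0 U ν) x))).1 h2 k (Finset.mem_univ k)
    exact mul_self_eq_zero.1 this
  have h5 : ∀ e : E4, dd e (u0 U ν) x = 0 := by
    intro e
    rw [dd_sum_eb]; simp [h4]
  have hq : 1 / 4 < ‖x‖ := by
    by_contra hq
    push Not at hq
    rw [u0, gS_one (by linarith), GS_zero hq] at h3
    norm_num at h3
  have hx : x ≠ 0 := by rintro rfl; rw [norm_zero] at hq; norm_num at hq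
  have hn := norm_pos_iff.2 hx
  rcases lt_or_ge ‖x‖ 1 with hr | hr
  · -- radial derivative
    obtain ⟨s1, s2⟩ := slopes (ν := ν) hq hr
    set Sx := Real.exp ((ν + 1) * Real.log ‖x‖) * U x with hSx
    have h6 : gS ‖x‖ + fS ν ‖x‖ * Sx = 0 := by rw [← h3, u0, GS, hSx]; ring
    have h7 := line_deriv (e := x) (dsm (u0_smooth (ν := ν) hU x))
    rw [h5 x] at h7
    have h8 : HasDerivAt (fun t : ℝ => gS (‖x‖ * (1 + t)) + fS ν (‖x‖ * (1 + t)) * Sx) (deriv gS ‖x‖ * ‖x‖ + deriv (fS ν) ‖x‖ * ‖x‖ * Sx) 0 := by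
      have a : HasDerivAt (fun t : ℝ => ‖x‖ * (1 + t)) ‖x‖ 0 := by
        have := ((hasDerivAt_id (0 : ℝ)).const_add 1).const_mul ‖x‖
        simpa using this
      have e0 : ‖x‖ * (1 + 0) = ‖x‖ := by ring
      have b1 : HasDerivAt gS (deriv gS ‖x‖) (‖x‖ * (1 + 0)) := by rw [e0]; exact (gS_smooth.differentiable (by simp) _).hasDerivAt
      have b2 : HasDerivAt (fS ν) (deriv (fS ν) ‖x‖) (‖x‖ * (1 + 0)) := by
        rw [e0]; exact ((fS_smooth hn).differentiableAt (by simp)).hasDerivAt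
      exact (HasDerivAt.comp (0 : ℝ) b1 a).add ((HasDerivAt.comp (0 : ℝ) b2 a).mul_const Sx)
    have h9 := h7.unique (h8.congr_of_eventuallyEq (by
      filter_upwards [lt_mem_nhds (show (-1 : ℝ) < 0 by norm_num)] with t ht
      have ht1 : 0 < 1 + t := by linarith
      have e1 : x + t • x = (1 + t) • x := by rw [add_smul, one_smul]
      have e2 : ‖(1 + t) • x‖ = ‖x‖ * (1 + t) := by rw [norm_smul, Real.norm_eq_abs, abs_of_pos ht1]; ring
      rw [e1, u0, e2, hhom (1 + t) ht1 x hx, GS, hSx, Real.log_mul hn.ne' ht1.ne']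
      have e3 : Real.exp ((ν + 1) * (Real.log ‖x‖ + Real.log (1 + t))) =
          Real.exp ((ν + 1) * Real.log ‖x‖) * ((1 + t) * Real.exp (ν * Real.log (1 + t))) := by
        have : (ν + 1) * (Real.log ‖x‖ + Real.log (1 + t)) = (ν + 1) * Real.log ‖x‖ + (Real.log (1 + t) + ν * Real.log (1 + t)) := by ring
        rw [this, Real.exp_add, Real.exp_add, Real.exp_log ht1]
      have e4 : Real.exp (ν * Real.log (1 + t)) * Real.exp (-(ν * Real.log (1 + t))) = 1 := by rw [← Real.exp_add]; simp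
      have e5 : (1 + t) * (1 + t)⁻¹ = 1 := mul_inv_cancel₀ ht1.ne'
      rw [e3]
      have : fS ν (‖x‖ * (1 + t)) * (Real.exp ((ν + 1) * Real.log ‖x‖) * ((1 + t) * Real.exp (ν * Real.log (1 + t)))) *
          ((1 + t)⁻¹ * Real.exp (-(ν * Real.log (1 + t))) * U x) = fS ν (‖x‖ * (1 + t)) * (Real.exp ((ν + 1) * Real.log ‖x‖) * U x) *
            (((1 + t) * (1 + t)⁻¹) * (Real.exp (ν * Real.log (1 + t)) * Real.exp (-(ν * Real.log (1 + t))))) := by ring
      rw [this, e4, e5]; ring))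
    have g0 := gS_pos hr
    have f0 := fS_pos (ν := ν) hq
    have hS : Sx < 0 := by
      by_contra hc
      push Not at hc
      have := mul_nonneg f0.le hc
      linarith
    have t1 : deriv gS ‖x‖ * ‖x‖ ≤ 0 := mul_nonpos_of_nonpos_of_nonneg s1 hn.le
    have t2 : deriv (fS ν) ‖x‖ * ‖x‖ * Sx < 0 := mul_neg_of_pos_of_neg (mul_pos s2 hn) hS
    linarith
  · -- outside
    have g0 : gS ‖x‖ = 0 := gS_zero hr
    have hG := GS_pos (ν := ν) hq
    have hU0 : U x = 0 := by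
      rw [u0, g0, zero_add] at h3
      rcases mul_eq_zero.1 h3 with h | h
      · exact absurd h hG.ne'
      · exact h
    obtain ⟨e, he⟩ := hnd x hx hU0
    have hmin : IsLocalMin (fun y : E4 => gS ‖y‖) x := Eventually.of_forall fun y => by
      simp only [g0]; exact gS_nonneg _
    have d1 : dd e (fun y : E4 => gS ‖y‖) x = 0 := by rw [dd, hmin.fderiv_eq_zero]; rfl
    have sG := dsm (rad_smooth hx (GS_smooth (ν := ν) hn))
    have d2 : dd e (fun y : E4 => GS ν ‖y‖ * U y) x = GS ν ‖x‖ * dd e U x := by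
      rw [dd_mul sG (dsm (hU x hx)), hU0]; ring
    have d3 : dd e (u0 U ν) x = dd e (fun y : E4 => gS ‖y‖) x + dd e (fun y : E4 => GS ν ‖y‖ * U y) x :=
      dd_add (u := fun y : E4 => gS ‖y‖) (v := fun y : E4 => GS ν ‖y‖ * U y) (dsm (rad_smooth hx gS_smooth.contDiffAt)) (sG.mul (dsm (hU x hx)))
    rw [h5, d1, d2, zero_add] at d3
    rcases mul_eq_zero.1 d3.symm with h | h
    · exact hG.ne' h
    · exact he h

/-- bounded on balls -/
theorem bdd_ball {f : E4 → ℝ} (hf : Continuous f) (R : ℝ) : ∃ C : ℝ, 0 ≤ C ∧ ∀ x, ‖x‖ ≤ R → |f x| ≤ C := by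
  obtain ⟨C, hC⟩ := (isCompact_closedBall (0 : E4) R).exists_bound_of_continuousOn hf.continuousOn
  exact ⟨max C 0, le_max_right _ _, fun x hx => (hC x (by simpa using hx)).trans (le_max_left _ _)⟩

theorem bdd_ann {f : E4 → ℝ} (hf : ∀ x ≠ 0, ContinuousAt f x) : ∃ C : ℝ, 0 ≤ C ∧ ∀ x, 1 ≤ ‖x‖ → ‖x‖ ≤ 2 → |f x| ≤ C := by
  have hK : IsCompact (Metric.closedBall (0 : E4) 2 ∩ {x | 1 ≤ ‖x‖}) :=
    (isCompact_closedBall (0 : E4) 2).inter_right (isClosed_le continuous_const continuous_norm)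
  obtain ⟨C, hC⟩ := hK.exists_bound_of_continuousOn (f := f) (fun x hx => (hf x (by
    rintro rfl
    have := hx.2
    simp only [Set.mem_setOf_eq, norm_zero] at this
    norm_num at this)).continuousWithinAt)
  exact ⟨max C 0, le_max_right _ _, fun x h1 h2 => (hC x ⟨by simpa using h2, h1⟩).trans (le_max_left _ _)⟩

/-- the estimate in the pure annulus -/
theorem u0_ann (hU : ∀ x ≠ 0, ContDiffAt ℝ ∞ U x) (hC1 : 0 ≤ C1)
    (hL : ∀ x ≠ 0, |lap U x| ≤ C1 * (1 / ‖x‖ ^ 2) * |U x|)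
    (hhom : ∀ c : ℝ, 0 < c → ∀ x ≠ 0, U (c • x) = c⁻¹ * Real.exp (-(ν * Real.log c)) * U x) :
    ∃ C : ℝ, 0 ≤ C ∧ ∀ x, 1 < ‖x‖ → ‖x‖ ≤ 2 → |lap (u0 U ν) x| ≤ C * |u0 U ν x| := by
  have cG : ∀ x : E4, x ≠ 0 → ContDiffAt ℝ ∞ (fun y : E4 => GS ν ‖y‖) x := fun x hx => rad_smooth hx (GS_smooth (norm_pos_iff.2 hx))
  obtain ⟨A1, hA1, b1⟩ := bdd_ann (f := lap (fun y : E4 => GS ν ‖y‖)) (fun x hx => (lap_sm (cG x hx)).continuousAt)
  obtain ⟨A2, hA2, b2⟩ := bdd_ann (f := fun x : E4 => deriv (GS ν) ‖x‖ / ‖x‖ * (-(ν + 1))) (fun x hx => by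
    have h1 : ContinuousAt (fun y : E4 => deriv (GS ν) ‖y‖) x := by
      have h2 : ContDiffAt ℝ ∞ (deriv (GS ν)) ‖x‖ := by
        have := (GS_smooth (ν := ν) (norm_pos_iff.2 hx)).fderiv_right (m := ∞) (by simp)
        exact this.clm_apply contDiffAt_const
      exact ContinuousAt.comp (g := deriv (GS ν)) (f := fun y : E4 => ‖y‖) h2.continuousAt continuous_norm.continuousAt
    exact (h1.div continuous_norm.continuousAt (norm_ne_zero_iff.2 hx)).mul continuousAt_const)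
  obtain ⟨A3, hA3, b3⟩ := bdd_ann (f := fun x : E4 => GS ν ‖x‖) (fun x hx => (cG x hx).continuousAt)
  obtain ⟨y0, hy0, hmin⟩ := isCompact_Icc.exists_isMinOn (s := Set.Icc (1 : ℝ) 2) ⟨1, by norm_num, by norm_num⟩
    (f := GS ν) (fun y hy => (GS_smooth (by linarith [hy.1])).continuousAt.continuousWithinAt)
  have hc : 0 < GS ν y0 := GS_pos (by linarith [hy0.1])
  refine ⟨(A1 + 2 * A2 + A3 * C1) / GS ν y0, by positivity, fun x h1 h2 => ?_⟩
  have hx : x ≠ 0 := by rintro rfl; rw [norm_zero] at h1; norm_num at h1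
  have hn := norm_pos_iff.2 hx
  have hev : u0 U ν =ᶠ[𝓝 x] fun y => GS ν ‖y‖ * U y := by
    filter_upwards [continuous_norm.continuousAt.eventually (lt_mem_nhds h1)] with y hy
    rw [u0, gS_zero (le_of_lt hy)]; ring
  have hval : u0 U ν x = GS ν ‖x‖ * U x := hev.eq_of_nhds
  have e1 : gr (fun y : E4 => GS ν ‖y‖) U x = deriv (GS ν) ‖x‖ / ‖x‖ * (-(ν + 1)) * U x := by
    rw [gr_rad hx ((GS_smooth hn).differentiableAt (by simp)), euler hx (dsm (hU x hx)) (fun c hc => hhom c hc x hx)]; ring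
  rw [lap_congr hev, lap_mul (u := fun y : E4 => GS ν ‖y‖) (v := U) (cG x hx) (hU x hx), e1]
  have t1 : |lap (fun y : E4 => GS ν ‖y‖) x * U x| ≤ A1 * |U x| := by
    rw [abs_mul]; exact mul_le_mul_of_nonneg_right (b1 x h1.le h2) (abs_nonneg _)
  have t2 : |2 * (deriv (GS ν) ‖x‖ / ‖x‖ * (-(ν + 1)) * U x)| ≤ 2 * A2 * |U x| := by
    rw [abs_mul, abs_mul, abs_two]
    have := mul_le_mul_of_nonneg_right (b2 x h1.le h2) (abs_nonneg (U x))
    linarith
  have t3 : |GS ν ‖x‖ * lap U x| ≤ A3 * (C1 * |U x|) := by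
    rw [abs_mul]
    refine mul_le_mul (b3 x h1.le h2) ?_ (abs_nonneg _) hA3
    refine (hL x hx).trans (mul_le_mul_of_nonneg_right ?_ (abs_nonneg _))
    have : 1 / ‖x‖ ^ 2 ≤ 1 := by rw [div_le_one (by positivity)]; nlinarith
    exact (mul_le_mul_of_nonneg_left this hC1).trans (by rw [mul_one])
  have hlow : GS ν y0 * |U x| ≤ |u0 U ν x| := by
    rw [hval, abs_mul, abs_of_pos (GS_pos (by linarith))]
    exact mul_le_mul_of_nonneg_right (hmin ⟨h1.le, h2⟩) (abs_nonneg _)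
  have tot := (abs_add_le _ _).trans (add_le_add ((abs_add_le _ _).trans (add_le_add t1 t2)) t3)
  refine tot.trans ?_
  rw [div_mul_eq_mul_div, le_div_iff₀ hc]
  have := mul_le_mul_of_nonneg_left hlow (by positivity : 0 ≤ A1 + 2 * A2 + A3 * C1)
  linarith

/-- the density of the nodal correction -/
noncomputable def qS (U : E4 → ℝ) (ν : ℝ) (x : E4) : ℝ :=
  ΨS ‖x‖ * (lap (u0 U ν) x * (u0 U ν x ^ 2 + gr (u0 U ν) (u0 U ν) x)⁻¹)

/-- the exponential factor -/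
noncomputable def eS (U : E4 → ℝ) (ν : ℝ) (x : E4) : ℝ := Real.exp (-(1 / 2) * (u0 U ν x * qS U ν x))

theorem ΨS_near {x : E4} (h : ‖x‖ < 1) : (fun y : E4 => ΨS ‖y‖) =ᶠ[𝓝 x] fun _ => 1 := by
  filter_upwards [continuous_norm.continuousAt.eventually (gt_mem_nhds h)] with y hy
  have hy' : ‖y‖ < 1 := hy
  rw [ΨS, chi_zero (by linarith)]; ring

theorem ΨS_norm_smooth (x : E4) : ContDiffAt ℝ ∞ (fun y : E4 => ΨS ‖y‖) x := by
  by_cases h : ‖x‖ < 1
  · exact contDiffAt_const.congr_of_eventuallyEq (ΨS_near h)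
  · have hx : x ≠ 0 := by rintro rfl; rw [norm_zero] at h; norm_num at h
    exact rad_smooth hx ΨS_smooth.contDiffAt

/-- **the start** -/
theorem start_lemma (hU : ∀ x ≠ 0, ContDiffAt ℝ ∞ U x) (hC1 : 0 ≤ C1)
    (hL : ∀ x ≠ 0, |lap U x| ≤ C1 * (1 / ‖x‖ ^ 2) * |U x|)
    (hhom : ∀ c : ℝ, 0 < c → ∀ x ≠ 0, U (c • x) = c⁻¹ * Real.exp (-(ν * Real.log c)) * U x)
    (hnd : ∀ x ≠ 0, U x = 0 → ∃ e, dd e U x ≠ 0) :
    ∃ w : E4 → ℝ, (∀ x, ContDiffAt ℝ ∞ w x) ∧ (∃ C0 : ℝ, 0 ≤ C0 ∧ ∀ x, ‖x‖ ≤ 2 → |lap w x| ≤ C0 * |w x|) ∧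
      (∀ x, 3 / 2 ≤ ‖x‖ → w x = U x) ∧ w 0 ≠ 0 := by
  have su : ∀ x, ContDiffAt ℝ ∞ (u0 U ν) x := u0_smooth hU
  have hQ : ∀ x, 0 < u0 U ν x ^ 2 + gr (u0 U ν) (u0 U ν) x := u0_nondeg hU hhom hnd
  have sL : ∀ x, ContDiffAt ℝ ∞ (lap (u0 U ν)) x := fun x => lap_sm (su x)
  have sQ : ∀ x, ContDiffAt ℝ ∞ (fun x => u0 U ν x ^ 2 + gr (u0 U ν) (u0 U ν) x) x := fun x => ((su x).pow 2).add (gr_smooth (su x) (su x))
  have sq : ∀ x, ContDiffAt ℝ ∞ (qS U ν) x := fun x => (ΨS_norm_smooth x).mul ((sL x).mul ((sQ x).inv (hQ x).ne'))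
  have sw' : ∀ x, ContDiffAt ℝ ∞ (fun y => -(1 / 2) * (u0 U ν y * qS U ν y)) x := fun x => contDiffAt_const.mul ((su x).mul (sq x))
  have sE : ∀ x, ContDiffAt ℝ ∞ (eS U ν) x := fun x => (sw' x).exp
  obtain ⟨Ca, hCa, hann⟩ := u0_ann hU hC1 hL hhom
  -- derivatives of the exponential factor
  have dE : ∀ x e, dd e (eS U ν) x = -(1 / 2) * eS U ν x * (dd e (u0 U ν) x * qS U ν x + u0 U ν x * dd e (qS U ν) x) := by
    intro x e
    have h1 : HasFDerivAt (eS U ν) (Real.exp (-(1 / 2) * (u0 U ν x * qS U ν x)) • fderiv ℝ (fun y => -(1 / 2) * (u0 U ν y * qS U ν y)) x) x :=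
      (Real.hasDerivAt_exp _).comp_hasFDerivAt x (dsm (sw' x)).hasFDerivAt
    have h2 : dd e (fun y => -(1 / 2) * (u0 U ν y * qS U ν y)) x = -(1 / 2) * dd e (fun y => u0 U ν y * qS U ν y) x := by
      have := dd_mul (u := fun _ : E4 => (-(1 / 2) : ℝ)) (v := fun y => u0 U ν y * qS U ν y) (x := x) (e := e) (differentiableAt_const _) ((dsm (su x)).mul (dsm (sq x)))
      rw [this]
      have h0 : dd e (fun _ : E4 => (-(1 / 2) : ℝ)) x = 0 := by simp [dd]
      rw [h0]; ring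
    rw [dd, h1.fderiv]
    change Real.exp (-(1 / 2) * (u0 U ν x * qS U ν x)) * dd e (fun y => -(1 / 2) * (u0 U ν y * qS U ν y)) x = _
    rw [h2, dd_mul (dsm (su x)) (dsm (sq x)), eS]; ring
  have hgr : ∀ x, 2 * gr (u0 U ν) (eS U ν) x = -(eS U ν x * (qS U ν x * gr (u0 U ν) (u0 U ν) x)) - u0 U ν x * (eS U ν x * gr (u0 U ν) (qS U ν) x) := by
    intro x
    simp only [gr, dE, Finset.mul_sum]
    rw [← Finset.sum_neg_distrib, ← Finset.sum_sub_distrib]
    exact Finset.sum_congr rfl fun k _ => by ring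
  -- the equation
  have key : ∀ x, lap (fun y => u0 U ν y * eS U ν y) x = eS U ν x * ((1 - ΨS ‖x‖) * lap (u0 U ν) x) +
      u0 U ν x * (eS U ν x * (qS U ν x * u0 U ν x) - eS U ν x * gr (u0 U ν) (qS U ν) x + lap (eS U ν) x) := by
    intro x
    rw [lap_mul (su x) (sE x), hgr]
    have h1 : qS U ν x * gr (u0 U ν) (u0 U ν) x = ΨS ‖x‖ * lap (u0 U ν) x - qS U ν x * u0 U ν x ^ 2 := by
      have h2 : qS U ν x * (u0 U ν x ^ 2 + gr (u0 U ν) (u0 U ν) x) = ΨS ‖x‖ * lap (u0 U ν) x := by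
        rw [qS]
        have := (hQ x).ne'
        field_simp
      linarith
    rw [h1]; ring
  have cE : Continuous (eS U ν) := continuous_iff_continuousAt.2 fun x => (sE x).continuousAt
  have cB : Continuous fun x => eS U ν x * (qS U ν x * u0 U ν x) - eS U ν x * gr (u0 U ν) (qS U ν) x + lap (eS U ν) x :=
    continuous_iff_continuousAt.2 fun x => (((sE x).mul ((sq x).mul (su x))).sub ((sE x).mul (gr_smooth (su x) (sq x)))).add (lap_sm (sE x)) |>.continuousAt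
  obtain ⟨B1, hB1, b1⟩ := bdd_ball cB 2
  obtain ⟨B2, hB2, b2⟩ := bdd_ball cE 2
  have cEi : Continuous fun x => (eS U ν x)⁻¹ := cE.inv₀ fun x => (Real.exp_pos _).ne'
  obtain ⟨B3, hB3, b3⟩ := bdd_ball cEi 2
  refine ⟨fun y => u0 U ν y * eS U ν y, fun x => (su x).mul (sE x), ⟨(B2 * Ca + B1) * B3, by positivity, fun x hx => ?_⟩, fun x hx => ?_, ?_⟩
  · rw [key]
    have hE0 : 0 < eS U ν x := Real.exp_pos _
    have t1 : |eS U ν x * ((1 - ΨS ‖x‖) * lap (u0 U ν) x)| ≤ B2 * (Ca * |u0 U ν x|) := by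
      rw [abs_mul]
      refine mul_le_mul (b2 x hx) ?_ (abs_nonneg _) hB2
      by_cases h1 : ‖x‖ ≤ 11 / 10
      · rw [ΨS, chi_zero (by linarith)]; simp
        exact mul_nonneg hCa (abs_nonneg _)
      · push Not at h1
        rw [abs_mul]
        have h2 : |1 - ΨS ‖x‖| ≤ 1 := by
          rw [ΨS, sub_sub_cancel]; exact chi_abs _
        have h3 := hann x (by linarith) hx
        exact (mul_le_of_le_one_left (abs_nonneg _) h2).trans h3
    have t2 : |u0 U ν x * (eS U ν x * (qS U ν x * u0 U ν x) - eS U ν x * gr (u0 U ν) (qS U ν) x + lap (eS U ν) x)| ≤ |u0 U ν x| * B1 := by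
      rw [abs_mul]; exact mul_le_mul_of_nonneg_left (b1 x hx) (abs_nonneg _)
    have t3 : |u0 U ν x| ≤ B3 * |u0 U ν x * eS U ν x| := by
      have h4 := b3 x hx
      rw [abs_mul, abs_of_pos hE0]
      rw [abs_of_pos (inv_pos.2 hE0)] at h4
      have h5 := mul_le_mul_of_nonneg_right h4 (mul_nonneg (abs_nonneg (u0 U ν x)) hE0.le)
      have h6 : (eS U ν x)⁻¹ * (|u0 U ν x| * eS U ν x) = |u0 U ν x| := by field_simp
      linarith
    refine (abs_add_le _ _).trans ((add_le_add t1 t2).trans ?_)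
    have := mul_le_mul_of_nonneg_left t3 (by positivity : 0 ≤ B2 * Ca + B1)
    linarith
  · have h1 : ΨS ‖x‖ = 0 := by rw [ΨS, chi_one (by linarith)]; ring
    have h2 : eS U ν x = 1 := by rw [eS, qS, h1]; simp
    simp only [h2, u0, gS_zero (show 1 ≤ ‖x‖ by linarith), GS_one hx]
    ring
  · have h1 : u0 U ν 0 = 1 := (u0_near (by rw [norm_zero]; norm_num)).eq_of_nhds
    simp only [h1, one_mul]
    exact (Real.exp_pos _).ne'

end

end Pool.Agent.J6H20.RL
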