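import Mathlib
import Pool.Agent.J6H20.RL.StartB
import Pool.Agent.J6H20.RL.PhysC

/-!
# The pure function
-/

set_option autoImplicit false

open Filter Topology
open scoped ContDiff

namespace Pool.Agent.J6H20.RL

section
variable {ε₁ ε B g k ν Tend lam0 : ℝ} {S : Sea ε₁} {lam th : ℝ → ℝ} {Fs : ℝ → ℝ → ℝ → ℝ}

/-- the pure function near the origin -/
theorem pur_good_small (hF : FlatOK ε S B g k ν lam th Tend lam0 Fs) (hf : FreqOK k ν) (hB : 0 ≤ B) {x : E4} (hx : x ≠ 0) (h : ‖x‖ < 1) :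
    ContDiffAt ℝ ∞ (pur S ν) x ∧ |lap (pur S ν) x| ≤ 5 * ε * ν ^ 2 * (1 / ‖x‖ ^ 2) * |pur S ν x| := by
  have hν : 0 < ν := by linarith [hf.ν4]
  have hE : pur S ν =ᶠ[𝓝 x] uf S ν k lam th Fs := by
    filter_upwards [continuous_norm.continuousAt.eventually (gt_mem_nhds h), isOpen_ne.mem_nhds hx] with y hy hy0
    have hy0' : y ≠ 0 := hy0
    have hyn := norm_pos_iff.2 hy0'
    exact (uf_pre hF hf hy0' (mul_neg_of_pos_of_neg hν (Real.log_neg hyn hy))).symm
  have hg := uf_good hF hf hB hx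
  refine ⟨hg.sm.congr_of_eventuallyEq hE, ?_⟩
  rw [lap_congr hE, hE.eq_of_nhds]
  have e : 5 * ε * ν ^ 2 * (1 / ‖x‖ ^ 2) = 5 * ε * (ν ^ 2 / ‖x‖ ^ 2) := by ring
  rw [e]; exact hg.eq

/-- the pure function everywhere -/
theorem pur_good (hF : FlatOK ε S B g k ν lam th Tend lam0 Fs) (hf : FreqOK k ν) (hB : 0 ≤ B) {x : E4} (hx : x ≠ 0) :
    ContDiffAt ℝ ∞ (pur S ν) x ∧ |lap (pur S ν) x| ≤ 5 * ε * ν ^ 2 * (1 / ‖x‖ ^ 2) * |pur S ν x| := by
  have hn := norm_pos_iff.2 hx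
  set c := (2 * ‖x‖)⁻¹ with hc
  have hc0 : 0 < c := by positivity
  have hcx : ‖c • x‖ = 1 / 2 := by rw [norm_smul, Real.norm_eq_abs, abs_of_pos hc0, hc]; field_simp
  have hcx0 : c • x ≠ 0 := norm_pos_iff.1 (by rw [hcx]; norm_num)
  obtain ⟨s1, s2⟩ := pur_good_small hF hf hB hcx0 (by rw [hcx]; norm_num)
  set K := (c⁻¹ * Real.exp (-(ν * Real.log c)))⁻¹ with hK
  have hK0 : 0 < c⁻¹ * Real.exp (-(ν * Real.log c)) := by positivity
  have hE : pur S ν =ᶠ[𝓝 x] fun y => K * pur S ν (c • y) := by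
    filter_upwards [isOpen_ne.mem_nhds hx] with y hy0
    have hy0' : y ≠ 0 := hy0
    rw [pur_hom S ν hc0 hy0', hK, ← mul_assoc, inv_mul_cancel₀ hK0.ne', one_mul]
  have s3 : ContDiffAt ℝ ∞ (fun y => pur S ν (c • y)) x := smooth_scale s1
  refine ⟨(contDiffAt_const.mul s3).congr_of_eventuallyEq hE, ?_⟩
  rw [lap_congr hE, lap_cmul (fun y => pur S ν (c • y)), lap_scale, hE.eq_of_nhds, abs_mul, abs_mul, abs_mul]
  have e1 : ‖c • x‖ ^ 2 = c ^ 2 * ‖x‖ ^ 2 := by rw [norm_smul, Real.norm_eq_abs, abs_of_pos hc0]; ring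
  rw [e1] at s2
  have h3 := mul_le_mul_of_nonneg_left s2 (by positivity : 0 ≤ |K| * |c ^ 2|)
  have e2 : |c ^ 2| = c ^ 2 := abs_of_pos (by positivity)
  rw [e2] at h3 ⊢
  refine (le_of_eq (by ring)).trans (h3.trans (le_of_eq ?_))
  field_simp

end

theorem r_smooth {j : Fin 2} {x : E4} (h : Zc j x ≠ 0) : DifferentiableAt ℝ (fun y => ‖Zc j y‖) x :=
  DifferentiableAt.comp x (g := fun z : ℂ => ‖z‖) (f := fun y => Zc j y) ((contDiffAt_norm ℝ h (n := 1)).differentiableAt (by simp)) (Zc j).differentiableAt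

/-- **nodal nondegeneracy of the pure function**, right of the diagonal -/
theorem pur_nd1 {ε₁ ν : ℝ} (S : Sea ε₁) (hν4 : 4 ≤ ν) (hνK : 2 * (S.YK + 1) ≤ ν) (h8 : ∃ m : ℕ, ν = 8 * m) {x : E4} (hx : x ≠ 0)
    (hs : ContDiffAt ℝ ∞ (pur S ν) x) (h : r1 x ≤ r0 x) (h0 : pur S ν x = 0) : ∃ e, dd e (pur S ν) x ≠ 0 := by
  have hν : 0 < ν := by linarith
  have hr0 := norm_pos_of hx h
  have hn := norm_pos_iff.2 hx
  have hc := c_pos S
  rw [pur, if_pos h, pv] at h0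
  split_ifs at h0 with h1
  · exfalso
    have := (J_bounds (m := 0) le_rfl (by norm_num)).1
    have h2 : 0 < ‖x‖⁻¹ * Real.exp (-(ν * Real.log ‖x‖)) * (S.A * Real.sqrt S.κ * Real.sqrt ν * bJ 0 0) := by
      have : 0 < bJ 0 0 := by linarith
      have h3 := Real.sqrt_pos.2 hν
      positivity
    exact h2.ne' h0
  have hr1 : 0 < r1 x := lt_of_le_of_ne (r1_nonneg x) (Ne.symm h1)
  have hq : 0 < (Real.sqrt (r0 x * r1 x))⁻¹ := inv_pos.2 (Real.sqrt_pos.2 (by positivity))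
  set Y0 := ν * Real.arctan (r1 x / r0 x) with hY0
  have hz : zs S ν Y0 = 0 := by
    rcases mul_eq_zero.1 h0 with h2 | h2
    · exact absurd h2 hq.ne'
    · rcases mul_eq_zero.1 h2 with h3 | h3
      · exact absurd h3 (Real.exp_pos _).ne'
      · exact h3
  have ha : 0 < Real.arctan (r1 x / r0 x) := Real.arctan_pos.2 (by positivity)
  have hY0p : 0 < Y0 := by positivity
  have hY1 : 1 < Y0 := by
    by_contra hcon
    push Not at hcon
    have := (zs_size S hν4 hY0p hcon).1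
    have h4 : 0 < S.A * Real.sqrt S.κ * Real.sqrt Y0 := mul_pos hc (Real.sqrt_pos.2 hY0p)
    linarith
  have hzh : zs S ν =ᶠ[𝓝 Y0] S.h := zs_right_ev S (by linarith)
  have hh0 : S.h Y0 = 0 := by rw [← hzh.eq_of_nhds]; exact hz
  have hd : deriv (zs S ν) Y0 ≠ 0 := by
    rw [hzh.deriv_eq]
    intro h2
    have := S.nondeg_pt (Y := Y0) (by linarith)
    rw [hh0, h2] at this; simp at this
  have hlt : r1 x < r0 x := by
    refine lt_of_le_of_ne h fun h2 => ?_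
    obtain ⟨m, hm⟩ := h8
    have e1 : Y0 = ((m : ℤ) : ℝ) * (2 * Real.pi) := by
      rw [hY0, h2, div_self hr0.ne', Real.arctan_one, hm]; push_cast; ring
    have hπ := Real.pi_gt_three
    have e2 : S.YK + 1 / 4 ≤ Y0 := by
      rw [hY0, h2, div_self hr0.ne', Real.arctan_one]; nlinarith [S.YK_ge]
    rw [S.h_right e2, e1] at hh0
    have := Real.cos_int_mul_two_pi m
    rw [this] at hh0
    exact one_ne_zero hh0
  by_contra hcon
  push Not at hcon
  -- the line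
  set e := x 2 • eb 2 + x 3 • eb 3 with he
  have hZ0 : Zc 0 e = 0 := by
    rw [Zc0, he]; apply Complex.ext <;> simp [eb]
  have hZ1 : Zc 1 e = Zc 1 x := by
    rw [Zc1, Zc1, he]; apply Complex.ext <;> simp [eb]
  have cr : Continuous fun y : E4 => r0 y - r1 y := r0_cont.sub r1_cont
  have hE : (fun y => Real.sqrt (r0 y * r1 y) * Real.exp (ν * Real.log ‖y‖) * pur S ν y) =ᶠ[𝓝 x] fun y => zs S ν (ν * Real.arctan (r1 y / r0 y)) := by
    filter_upwards [cr.continuousAt.eventually (lt_mem_nhds (sub_pos.2 hlt)), r1_cont.continuousAt.eventually (lt_mem_nhds hr1)] with y hy hy1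
    have hy' : r1 y < r0 y := sub_pos.1 hy
    have hy1' : 0 < r1 y := hy1
    have hy0' : 0 < r0 y := by linarith
    have hsq : Real.sqrt (r0 y * r1 y) ≠ 0 := (Real.sqrt_pos.2 (by positivity)).ne'
    rw [pur, if_pos hy'.le, pv, if_neg hy1'.ne']
    have : Real.exp (ν * Real.log ‖y‖) * Real.exp (-(ν * Real.log ‖y‖)) = 1 := by rw [← Real.exp_add]; simp
    calc _ = (Real.sqrt (r0 y * r1 y) * (Real.sqrt (r0 y * r1 y))⁻¹) * (Real.exp (ν * Real.log ‖y‖) * Real.exp (-(ν * Real.log ‖y‖))) * zs S ν (ν * Real.arctan (r1 y / r0 y)) := by ring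
      _ = _ := by rw [this, mul_inv_cancel₀ hsq]; ring
  have dA : DifferentiableAt ℝ (fun y => Real.sqrt (r0 y * r1 y) * Real.exp (ν * Real.log ‖y‖)) x := by
    have a0 : DifferentiableAt ℝ r0 x := r_smooth (norm_pos_iff.1 hr0)
    have a1 : DifferentiableAt ℝ r1 x := r_smooth (norm_pos_iff.1 hr1)
    have a2 : DifferentiableAt ℝ (fun y : E4 => ‖y‖) x := (contDiffAt_norm ℝ hx (n := 1)).differentiableAt (by simp)
    exact ((a0.mul a1).sqrt (by show r0 x * r1 x ≠ 0; positivity)).mul (((a2.log hn.ne').const_mul ν).exp)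
  have hpx : pur S ν x = 0 := by
    rw [pur, if_pos h, pv, if_neg h1, ← hY0, hz]; ring
  have l1 : dd e (fun y => Real.sqrt (r0 y * r1 y) * Real.exp (ν * Real.log ‖y‖) * pur S ν y) x = 0 := by
    rw [dd_mul dA (dsm hs), hpx, hcon e]; ring
  have l2 := line_deriv (e := e) (dA.mul (dsm hs))
  have l2' : HasDerivAt (fun t : ℝ => Real.sqrt (r0 (x + t • e) * r1 (x + t • e)) * Real.exp (ν * Real.log ‖x + t • e‖) * pur S ν (x + t • e))
      (dd e (fun y => Real.sqrt (r0 y * r1 y) * Real.exp (ν * Real.log ‖y‖) * pur S ν y) x) 0 := l2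
  rw [l1] at l2'
  have l3 : HasDerivAt (fun t : ℝ => zs S ν (ν * Real.arctan ((1 + t) * (r1 x / r0 x)))) (deriv (zs S ν) Y0 * (ν * (1 / (1 + (r1 x / r0 x) ^ 2) * (r1 x / r0 x)))) 0 := by
    have b1 : HasDerivAt (fun t : ℝ => (1 + t) * (r1 x / r0 x)) (r1 x / r0 x) 0 := by
      have := ((hasDerivAt_id (0 : ℝ)).const_add 1).mul_const (r1 x / r0 x)
      simpa using this
    have b2 := (b1.arctan).const_mul ν
    have b3 : HasDerivAt (zs S ν) (deriv (zs S ν) Y0) (ν * Real.arctan ((1 + 0) * (r1 x / r0 x))) := by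
      have : ν * Real.arctan ((1 + 0) * (r1 x / r0 x)) = Y0 := by rw [hY0]; simp
      rw [this]
      exact ((zs_smooth S hν4 hY0p).differentiableAt (by simp)).hasDerivAt
    refine (HasDerivAt.comp (0 : ℝ) b3 b2).congr_deriv ?_
    simp
  have l4 := l2'.unique (l3.congr_of_eventuallyEq (by
    have hγ : ContinuousAt (fun t : ℝ => x + t • e) 0 := by fun_prop
    have h5 : ∀ᶠ t in 𝓝 (0 : ℝ), (Real.sqrt (r0 (x + t • e) * r1 (x + t • e)) * Real.exp (ν * Real.log ‖x + t • e‖) * pur S ν (x + t • e)) =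
        zs S ν (ν * Real.arctan (r1 (x + t • e) / r0 (x + t • e))) := by
      have h6 : Tendsto (fun t : ℝ => x + t • e) (𝓝 0) (𝓝 x) := by
        have := hγ.tendsto; simpa using this
      exact h6.eventually hE
    filter_upwards [h5, lt_mem_nhds (show (-1 : ℝ) < 0 by norm_num)] with t ht ht1
    have e0 : r0 (x + t • e) = r0 x := by rw [r0, map_add, map_smul, hZ0, smul_zero, add_zero, r0]
    have e1 : r1 (x + t • e) = (1 + t) * r1 x := by
      have : Zc 1 x + t • Zc 1 x = (1 + t) • Zc 1 x := by rw [add_smul, one_smul]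
      rw [r1, map_add, map_smul, hZ1, this, norm_smul, Real.norm_eq_abs, abs_of_pos (by linarith), r1]
    rw [ht, e0, e1]; congr 2; rw [mul_div_assoc]))
  have hρ : 0 < r1 x / r0 x := by positivity
  have : deriv (zs S ν) Y0 * (ν * (1 / (1 + (r1 x / r0 x) ^ 2) * (r1 x / r0 x))) ≠ 0 :=
    mul_ne_zero hd (by positivity)
  exact this l4.symm

theorem pur_nd {ε₁ ν : ℝ} (S : Sea ε₁) (hν4 : 4 ≤ ν) (hνK : 2 * (S.YK + 1) ≤ ν) (h8 : ∃ m : ℕ, ν = 8 * m)
    (hs : ∀ x ≠ 0, ContDiffAt ℝ ∞ (pur S ν) x) (x : E4) (hx : x ≠ 0) (h0 : pur S ν x = 0) : ∃ e, dd e (pur S ν) x ≠ 0 := by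
  rcases le_or_gt (r1 x) (r0 x) with h | h
  · exact pur_nd1 S hν4 hνK h8 hx (hs x hx) h h0
  · have hE : pur S ν =ᶠ[𝓝 x] fun z => pur S ν (sw z) := by
      have cr : Continuous fun y : E4 => r1 y - r0 y := r1_cont.sub r0_cont
      filter_upwards [cr.continuousAt.eventually (lt_mem_nhds (sub_pos.2 h))] with y hy
      have hy' : r0 y < r1 y := sub_pos.1 hy
      rw [pur, if_neg (not_le.2 hy'), pur, if_pos (by rw [r0_sw, r1_sw]; exact hy'.le)]
    have hsx := sw_ne hx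
    obtain ⟨e', he'⟩ := pur_nd1 S hν4 hνK h8 hsx (hs _ hsx) (by rw [r0_sw, r1_sw]; exact h.le) (by rw [← hE.eq_of_nhds]; exact h0)
    refine ⟨sw.symm e', ?_⟩
    rw [(dd_congr hE).eq_of_nhds, dd_sw, LinearIsometryEquiv.apply_symm_apply]
    exact he'

end Pool.Agent.J6H20.RL
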