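import Mathlib
import Pool.Agent.J6H20.RL.StartC
import Pool.Agent.J6H20.RL.Glue

/-!
# The global function
-/

set_option autoImplicit false

open Filter Topology
open scoped ContDiff

namespace Pool.Agent.J6H20.RL

/-- one cycle -/
structure CycU {ε₁ : ℝ} (S : Sea ε₁) (E M ν ν' Λ : ℝ) (U : E4 → ℝ) (l0 : ℝ) : Prop where
  sm : ∀ x ≠ 0, ContDiffAt ℝ ∞ U x
  eq : ∀ x ≠ 0, |lap U x| ≤ E * (ν ^ 2 / ‖x‖ ^ 2) * |U x|
  bd : ∀ x ≠ 0, |U x| ≤ M * Real.sqrt ν * (‖x‖⁻¹ * Real.exp (-(ν * Real.log ‖x‖)))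
  pre : ∀ x ≠ 0, ‖x‖ < 1 → U x = pur S ν x
  post : ∀ x ≠ 0, Λ < ‖x‖ → U x = Real.exp l0 * pur S ν' x
  l0_le : ∀ r, Λ ≤ r → l0 ≤ (ν' - ν) * Real.log r

theorem cycU_of {ε₁ ε B g k ν Tend lam0 Λ : ℝ} {S : Sea ε₁} {lam th : ℝ → ℝ} {Fs : ℝ → ℝ → ℝ → ℝ}
    (hF : FlatOK ε S B g k ν lam th Tend lam0 Fs) (hf : FreqOK k ν) (hB : 0 ≤ B) (hg : 0 < g) (hΛ : 0 < Λ) (hT : Tend < ν * Real.log Λ) :
    CycU S (5 * ε) ((4 * B + 4 * (S.A * Real.sqrt S.κ)) * Real.exp (1 / g)) ν (k * ν) Λ (uf S ν k lam th Fs) lam0 := by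
  have hν : 0 < ν := by linarith [hf.ν4]
  have hc := c_pos S
  refine ⟨fun x hx => (uf_good hF hf hB hx).sm, fun x hx => (uf_good hF hf hB hx).eq, fun x hx => ?_, fun x hx h => ?_, fun x hx h => ?_, fun r hr => ?_⟩
  · refine (uf_good hF hf hB hx).bd.trans ?_
    have hn := norm_pos_iff.2 hx
    have h1 := hF.lam_ge (ν * Real.log ‖x‖)
    have h2 : Real.exp (-lam (ν * Real.log ‖x‖)) ≤ Real.exp (1 / g) * Real.exp (-(ν * Real.log ‖x‖)) := by
      rw [← Real.exp_add]; exact Real.exp_le_exp.2 (by linarith)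
    have h3 := mul_le_mul_of_nonneg_left h2 (by positivity : 0 ≤ (4 * B + 4 * (S.A * Real.sqrt S.κ)) * Real.sqrt ν * ‖x‖⁻¹)
    linarith
  · exact uf_pre hF hf hx (mul_neg_of_pos_of_neg hν (Real.log_neg (norm_pos_iff.2 hx) h))
  · refine uf_post hF hf hx (hT.trans ?_)
    exact mul_lt_mul_of_pos_left (Real.log_lt_log hΛ h) hν
  · have h1 : Real.log Λ ≤ Real.log r := Real.log_le_log hΛ hr
    have h2 : ν * Real.log Λ ≤ ν * Real.log r := mul_le_mul_of_nonneg_left h1 hν.le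
    obtain ⟨_, h4, h5⟩ := hF.post (ν * Real.log r) (by linarith)
    rw [h4] at h5
    linarith

/-- the function on a shell -/
noncomputable def shell (α ν s : ℝ) (U : E4 → ℝ) (x : E4) : ℝ := α * (s * Real.exp (ν * Real.log s))⁻¹ * U (s⁻¹ • x)

section
variable {ε₁ E M ν ν' Λ l0 α s : ℝ} {S : Sea ε₁} {U : E4 → ℝ}

theorem smul_ne {s : ℝ} (hs : 0 < s) {x : E4} (hx : x ≠ 0) : s⁻¹ • x ≠ 0 := smul_ne_zero (inv_ne_zero hs.ne') hx

theorem norm_smul_inv {s : ℝ} (hs : 0 < s) (x : E4) : ‖s⁻¹ • x‖ = ‖x‖ / s := by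
  rw [norm_smul, Real.norm_eq_abs, abs_of_pos (inv_pos.2 hs)]; ring

theorem shell_sm (h : CycU S E M ν ν' Λ U l0) (hs : 0 < s) {x : E4} (hx : x ≠ 0) : ContDiffAt ℝ ∞ (shell α ν s U) x :=
  contDiffAt_const.mul (smooth_scale (h.sm _ (smul_ne hs hx)))

theorem shell_eq (h : CycU S E M ν ν' Λ U l0) (hs : 0 < s) {x : E4} (hx : x ≠ 0) :
    |lap (shell α ν s U) x| ≤ E * (ν ^ 2 / ‖x‖ ^ 2) * |shell α ν s U x| := by
  have h1 := h.eq _ (smul_ne hs hx)
  have hn := norm_pos_iff.2 hx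
  rw [norm_smul_inv hs] at h1
  have e : lap (shell α ν s U) x = α * (s * Real.exp (ν * Real.log s))⁻¹ * (s⁻¹ ^ 2 * lap U (s⁻¹ • x)) := by
    have : shell α ν s U = fun x => (α * (s * Real.exp (ν * Real.log s))⁻¹) * (fun z => U (s⁻¹ • z)) x := rfl
    rw [this, lap_cmul, lap_scale]
  have e4 : |shell α ν s U x| = |α * (s * Real.exp (ν * Real.log s))⁻¹| * |U (s⁻¹ • x)| := by rw [shell, abs_mul]
  rw [e4, e, abs_mul, abs_mul (s⁻¹ ^ 2), abs_of_pos (by positivity : 0 < s⁻¹ ^ 2)]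
  have h2 := mul_le_mul_of_nonneg_left h1 (by positivity : 0 ≤ |α * (s * Real.exp (ν * Real.log s))⁻¹| * s⁻¹ ^ 2)
  have e2 : ν ^ 2 / (‖x‖ / s) ^ 2 = s ^ 2 * (ν ^ 2 / ‖x‖ ^ 2) := by field_simp
  rw [e2] at h2
  have e3 : s⁻¹ ^ 2 * s ^ 2 = 1 := by field_simp
  calc _ = |α * (s * Real.exp (ν * Real.log s))⁻¹| * s⁻¹ ^ 2 * |lap U (s⁻¹ • x)| := by ring
    _ ≤ |α * (s * Real.exp (ν * Real.log s))⁻¹| * s⁻¹ ^ 2 * (E * (s ^ 2 * (ν ^ 2 / ‖x‖ ^ 2)) * |U (s⁻¹ • x)|) := h2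
    _ = (s⁻¹ ^ 2 * s ^ 2) * (E * (ν ^ 2 / ‖x‖ ^ 2) * (|α * (s * Real.exp (ν * Real.log s))⁻¹| * |U (s⁻¹ • x)|)) := by ring
    _ = _ := by rw [e3, one_mul]

theorem shell_bd (h : CycU S E M ν ν' Λ U l0) (hs : 0 < s) (hα : 0 ≤ α) {x : E4} (hx : x ≠ 0) :
    |shell α ν s U x| ≤ α * (M * Real.sqrt ν * (‖x‖⁻¹ * Real.exp (-(ν * Real.log ‖x‖)))) := by
  have h1 := h.bd _ (smul_ne hs hx)
  have hn := norm_pos_iff.2 hx
  rw [norm_smul_inv hs, Real.log_div hn.ne' hs.ne'] at h1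
  have hK : 0 < s * Real.exp (ν * Real.log s) := by positivity
  rw [shell, abs_mul, abs_of_nonneg (by positivity : 0 ≤ α * (s * Real.exp (ν * Real.log s))⁻¹)]
  have h2 := mul_le_mul_of_nonneg_left h1 (by positivity : 0 ≤ α * (s * Real.exp (ν * Real.log s))⁻¹)
  refine h2.trans (le_of_eq ?_)
  have e1 : Real.exp (-(ν * (Real.log ‖x‖ - Real.log s))) = Real.exp (-(ν * Real.log ‖x‖)) * Real.exp (ν * Real.log s) := by
    rw [← Real.exp_add]; congr 1; ring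
  have e2 : (‖x‖ / s)⁻¹ = s * ‖x‖⁻¹ := by rw [inv_div]; ring
  rw [e1, e2]
  have e3 : (s * Real.exp (ν * Real.log s))⁻¹ * (s * Real.exp (ν * Real.log s)) = 1 := inv_mul_cancel₀ hK.ne'
  calc _ = α * (M * Real.sqrt ν * (‖x‖⁻¹ * Real.exp (-(ν * Real.log ‖x‖)))) * ((s * Real.exp (ν * Real.log s))⁻¹ * (s * Real.exp (ν * Real.log s))) := by ring
    _ = _ := by rw [e3, mul_one]

theorem pur_inv {ν s : ℝ} (hs : 0 < s) {x : E4} (hx : x ≠ 0) : pur S ν (s⁻¹ • x) = s * Real.exp (ν * Real.log s) * pur S ν x := by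
  rw [pur_hom S ν (inv_pos.2 hs) hx, inv_inv, Real.log_inv]; congr 3; ring

theorem shell_pre (h : CycU S E M ν ν' Λ U l0) (hs : 0 < s) {x : E4} (hx : x ≠ 0) (h1 : ‖x‖ < s) : shell α ν s U x = α * pur S ν x := by
  have hK : 0 < s * Real.exp (ν * Real.log s) := by positivity
  rw [shell, h.pre _ (smul_ne hs hx) (by rw [norm_smul_inv hs, div_lt_one hs]; exact h1), pur_inv hs hx]
  calc _ = α * ((s * Real.exp (ν * Real.log s))⁻¹ * (s * Real.exp (ν * Real.log s))) * pur S ν x := by ring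
    _ = _ := by rw [inv_mul_cancel₀ hK.ne', mul_one]

theorem shell_post (h : CycU S E M ν ν' Λ U l0) (hs : 0 < s) {x : E4} (hx : x ≠ 0) (h1 : Λ * s < ‖x‖) :
    shell α ν s U x = α * Real.exp (l0 + (ν' - ν) * Real.log s) * pur S ν' x := by
  rw [shell, h.post _ (smul_ne hs hx) (by rw [norm_smul_inv hs, lt_div_iff₀ hs]; exact h1), pur_inv hs hx]
  have e1 : Real.exp (l0 + (ν' - ν) * Real.log s) = Real.exp l0 * Real.exp (ν' * Real.log s) * (Real.exp (ν * Real.log s))⁻¹ := by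
    rw [← Real.exp_neg, ← Real.exp_add, ← Real.exp_add]; congr 1; ring
  rw [e1, mul_inv]
  field_simp

end

/-- logarithmic decay gives exponential decay -/
theorem log_dec {C ν a r R : ℝ} (hC : 0 ≤ C) (ha : 0 < a) (har : a ≤ r) (hrR : r ≤ R) (h : 2 * C * R ≤ ν) :
    2 * C * (r - a) ≤ ν * (Real.log r - Real.log a) := by
  have hr : 0 < r := by linarith
  have h1 := Real.one_sub_inv_le_log_of_pos (show 0 < r / a by positivity)
  rw [Real.log_div hr.ne' ha.ne', inv_div] at h1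
  have hν : 0 ≤ ν := le_trans (by have : 0 ≤ R := by linarith
                                  positivity) h
  have h2 : ν * (1 - a / r) ≤ ν * (Real.log r - Real.log a) := mul_le_mul_of_nonneg_left h1 hν
  refine le_trans ?_ h2
  have e : ν * (1 - a / r) = ν * (r - a) / r := by field_simp
  rw [e, le_div_iff₀ hr]
  have h3 : 2 * C * r ≤ ν := le_trans (mul_le_mul_of_nonneg_left hrR (by positivity)) h
  have := mul_le_mul_of_nonneg_right h3 (by linarith : 0 ≤ r - a)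
  linarith

/-- the amplitudes -/
noncomputable def amp (ν ρ l0 : ℕ → ℝ) (σ : ℝ) : ℕ → ℝ
  | 0 => 1
  | i + 1 => amp ν ρ l0 σ i * Real.exp (l0 i + (ν (i + 1) - ν i) * Real.log (ρ i * σ))

theorem amp_pos (ν ρ l0 : ℕ → ℝ) (σ : ℝ) (i : ℕ) : 0 < amp ν ρ l0 σ i := by
  induction i with
  | zero => exact one_pos
  | succ i ih => rw [amp]; positivity

/-- **assembling the global function** -/
theorem global {ε₁ : ℝ} {S : Sea ε₁} {E M Λ σ C C0 : ℝ} {ν ρ l0 : ℕ → ℝ} {U : ℕ → E4 → ℝ} {w : E4 → ℝ} {i1 : ℕ}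
    (hcyc : ∀ i, CycU S E M (ν i) (ν (i + 1)) Λ (U i) (l0 i)) (hΛ : 1 ≤ Λ) (hσ : 1 < σ) (hρ0 : 0 < ρ 0) (hρ : ∀ i, Λ * σ * ρ i < ρ (i + 1))
    (hν1 : ∀ i, 1 ≤ ν i) (hνm : ∀ i, ν i ≤ ν (i + 1)) (hνρ : ∀ i, ν i ≤ 3 * C * ρ i) (hE : E * (9 * C ^ 2) ≤ 1) (hE0 : 0 ≤ E) (hC : 1 ≤ C) (hM : 0 ≤ M)
    (hlate : ∀ i, i1 ≤ i → 2 * C * ρ (i + 1) ≤ ν i)
    (hw1 : ∀ x, ContDiffAt ℝ ∞ w x) (hw2 : ∀ x, ‖x‖ ≤ 2 → |lap w x| ≤ C0 * |w x|) (hw3 : ∀ x, 3 / 2 ≤ ‖x‖ → w x = pur S (ν 0) x) (hw4 : w 0 ≠ 0)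
    (hbig : 49 / 16 * C0 ≤ ρ 0 ^ 2) :
    ∃ (u : E4 → ℝ) (K : ℝ), 0 < K ∧ (∀ x, ContDiffAt ℝ ∞ u x) ∧ (∀ x, |lap u x| ≤ |u x|) ∧ (∀ x, |u x| ≤ K * Real.exp (-(C * ‖x‖))) ∧ u 0 ≠ 0 := by
  have hΛσ : 1 < Λ * σ := by nlinarith
  have hρp : ∀ i, 0 < ρ i := by
    intro i
    induction i with
    | zero => exact hρ0
    | succ i ih => exact lt_trans (by positivity) (hρ i)
  have hmono : StrictMono ρ := strictMono_nat_of_lt_succ fun i => lt_of_le_of_lt (by have := hρp i; nlinarith) (hρ i)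
  have htend : Tendsto ρ atTop atTop := by
    have h1 : ∀ i, (Λ * σ) ^ i * ρ 0 ≤ ρ i := by
      intro i
      induction i with
      | zero => simp
      | succ i ih =>
        have := mul_le_mul_of_nonneg_left ih (by positivity : 0 ≤ Λ * σ)
        rw [pow_succ]
        linarith [hρ i]
    exact tendsto_atTop_mono h1 ((tendsto_pow_atTop_atTop_of_one_lt hΛσ).atTop_mul_const hρ0)
  set α := amp ν ρ l0 σ with hα
  have hαp : ∀ i, 0 < α i := amp_pos ν ρ l0 σ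
  have hαs : ∀ i, α (i + 1) = α i * Real.exp (l0 i + (ν (i + 1) - ν i) * Real.log (ρ i * σ)) := fun i => rfl
  -- the pieces
  set s0 := 4 / 7 * ρ 0 with hs0
  have hs0p : 0 < s0 := by positivity
  set v : ℕ → E4 → ℝ := fun i => match i with
    | 0 => shell (α 0) (ν 0) s0 w
    | i + 1 => shell (α i) (ν i) (ρ i * σ) (U i) with hv
  have hsp : ∀ i, 0 < ρ i * σ := fun i => mul_pos (hρp i) (by linarith)
  have hglue : ∀ i x, ‖x‖ = ρ i → v i =ᶠ[𝓝 x] v (i + 1) := by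
    intro i x hx
    have hxp : 0 < ‖x‖ := by rw [hx]; exact hρp i
    have hx0 : x ≠ 0 := norm_pos_iff.1 hxp
    have hev : ∀ᶠ y in 𝓝 x, ‖y‖ < ρ i * σ := continuous_norm.continuousAt.eventually (gt_mem_nhds (by show ‖x‖ < ρ i * σ; rw [hx]; have := hρp i; nlinarith))
    have hne : ∀ᶠ y : E4 in 𝓝 x, y ≠ 0 := isOpen_ne.mem_nhds hx0
    have hright : v (i + 1) =ᶠ[𝓝 x] fun y => α i * pur S (ν i) y := by
      filter_upwards [hev, hne] with y hy hy0
      exact shell_pre (hcyc i) (hsp i) hy0 hy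
    refine EventuallyEq.trans ?_ hright.symm
    rcases i with _ | j
    · have hev2 : ∀ᶠ y in 𝓝 x, 3 / 2 * s0 < ‖y‖ := continuous_norm.continuousAt.eventually (lt_mem_nhds (by show 3 / 2 * s0 < ‖x‖; rw [hx, hs0]; have := hρp 0; linarith))
      filter_upwards [hev2, hne] with y hy hy0
      have h1 : w (s0⁻¹ • y) = pur S (ν 0) (s0⁻¹ • y) := hw3 _ (by rw [norm_smul_inv hs0p, le_div_iff₀ hs0p]; exact hy.le)
      change shell (α 0) (ν 0) s0 w y = _
      rw [shell, h1, pur_inv hs0p hy0]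
      have hK : 0 < s0 * Real.exp (ν 0 * Real.log s0) := by positivity
      calc _ = α 0 * ((s0 * Real.exp (ν 0 * Real.log s0))⁻¹ * (s0 * Real.exp (ν 0 * Real.log s0))) * pur S (ν 0) y := by ring
        _ = _ := by rw [inv_mul_cancel₀ hK.ne', mul_one]
    · have hev2 : ∀ᶠ y in 𝓝 x, Λ * (ρ j * σ) < ‖y‖ := continuous_norm.continuousAt.eventually (lt_mem_nhds (by show Λ * (ρ j * σ) < ‖x‖; rw [hx]; have := hρ j; linarith))
      filter_upwards [hev2, hne] with y hy hy0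
      have := shell_post (α := α j) (hcyc j) (hsp j) hy0 hy
      change shell (α j) (ν j) (ρ j * σ) (U j) y = _
      rw [this, hαs]
  obtain ⟨u, hu⟩ := glue v ρ hmono htend hglue
  -- smoothness
  have hsm : ∀ x, ContDiffAt ℝ ∞ u x := by
    intro x
    obtain ⟨i, h1, h2, h3⟩ := hu x
    refine ContDiffAt.congr_of_eventuallyEq ?_ h1
    rcases i with _ | j
    · exact contDiffAt_const.mul (smooth_scale (hw1 _))
    · have h4 := h3 j (Nat.lt_succ_self j)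
      have hx0 : x ≠ 0 := norm_pos_iff.1 (lt_of_lt_of_le (hρp j) h4)
      exact shell_sm (hcyc j) (hsp j) hx0
  have heq : ∀ x, |lap u x| ≤ |u x| := by
    intro x
    obtain ⟨i, h1, h2, h3⟩ := hu x
    rw [lap_congr h1, h1.eq_of_nhds]
    rcases i with _ | j
    · change |lap (shell (α 0) (ν 0) s0 w) x| ≤ |shell (α 0) (ν 0) s0 w x|
      have e : lap (shell (α 0) (ν 0) s0 w) x = α 0 * (s0 * Real.exp (ν 0 * Real.log s0))⁻¹ * (s0⁻¹ ^ 2 * lap w (s0⁻¹ • x)) := by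
        have : shell (α 0) (ν 0) s0 w = fun x => (α 0 * (s0 * Real.exp (ν 0 * Real.log s0))⁻¹) * (fun z => w (s0⁻¹ • z)) x := rfl
        rw [this, lap_cmul, lap_scale]
      rw [e, shell, abs_mul, abs_mul (α 0 * (s0 * Real.exp (ν 0 * Real.log s0))⁻¹)]
      refine mul_le_mul_of_nonneg_left ?_ (abs_nonneg _)
      rw [abs_mul, abs_of_pos (by positivity : 0 < s0⁻¹ ^ 2)]
      have h4 := hw2 (s0⁻¹ • x) (by rw [norm_smul_inv hs0p, div_le_iff₀ hs0p, hs0]; have := hρp 0; linarith)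
      have h5 := mul_le_mul_of_nonneg_left h4 (by positivity : 0 ≤ s0⁻¹ ^ 2)
      have h6 : s0⁻¹ ^ 2 * C0 ≤ 1 := by
        have : s0⁻¹ ^ 2 * C0 = C0 / s0 ^ 2 := by field_simp
        rw [this, div_le_one (by positivity), hs0]
        have : (4 / 7 * ρ 0) ^ 2 = 16 / 49 * ρ 0 ^ 2 := by ring
        rw [this]; linarith
      have h7 := mul_le_mul_of_nonneg_right h6 (abs_nonneg (w (s0⁻¹ • x)))
      linarith
    · have h4 := h3 j (Nat.lt_succ_self j)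
      have hxp : 0 < ‖x‖ := lt_of_lt_of_le (hρp j) h4
      have hx0 : x ≠ 0 := norm_pos_iff.1 hxp
      refine (shell_eq (α := α j) (hcyc j) (hsp j) hx0).trans ?_
      refine mul_le_of_le_one_left (abs_nonneg _) ?_
      have h5 : ν j ≤ 3 * C * ‖x‖ := (hνρ j).trans (mul_le_mul_of_nonneg_left h4 (by positivity))
      have h6 : ν j ^ 2 / ‖x‖ ^ 2 ≤ 9 * C ^ 2 := by
        rw [div_le_iff₀ (by positivity)]
        have := pow_le_pow_left₀ (by linarith [hν1 j]) h5 2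
        linarith
      exact (mul_le_mul_of_nonneg_left h6 hE0).trans hE
  have h00 : u 0 ≠ 0 := by
    obtain ⟨i, h1, h2, h3⟩ := hu 0
    rw [h1.eq_of_nhds]
    rcases i with _ | j
    · change shell (α 0) (ν 0) s0 w 0 ≠ 0
      rw [shell, smul_zero]
      have := hαp 0
      have hK : 0 < s0 * Real.exp (ν 0 * Real.log s0) := by positivity
      exact mul_ne_zero (by positivity) hw4
    · have h4 := h3 j (Nat.lt_succ_self j)
      rw [norm_zero] at h4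
      exact absurd (hρp j) (not_lt.2 h4)
  -- decay
  set b : ℕ → ℝ := fun i => α i * Real.exp (-(ν i * Real.log (ρ i))) with hb
  have hbs : ∀ i, b (i + 1) ≤ b i * Real.exp (-(ν i * (Real.log (ρ (i + 1)) - Real.log (ρ i)))) := by
    intro i
    have h1 := (hcyc i).l0_le (ρ (i + 1) / (ρ i * σ)) (by rw [le_div_iff₀ (hsp i)]; have := hρ i; linarith)
    rw [Real.log_div (hρp _).ne' (hsp i).ne'] at h1
    have h2 : Real.exp (l0 i + (ν (i + 1) - ν i) * Real.log (ρ i * σ)) ≤ Real.exp ((ν (i + 1) - ν i) * Real.log (ρ (i + 1))) :=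
      Real.exp_le_exp.2 (by linarith)
    simp only [hb]
    rw [hαs]
    have e1 : α i * Real.exp (-(ν i * Real.log (ρ i))) * Real.exp (-(ν i * (Real.log (ρ (i + 1)) - Real.log (ρ i)))) =
        α i * Real.exp ((ν (i + 1) - ν i) * Real.log (ρ (i + 1))) * Real.exp (-(ν (i + 1) * Real.log (ρ (i + 1)))) := by
      rw [mul_assoc, mul_assoc, ← Real.exp_add, ← Real.exp_add]; congr 2; ring
    rw [e1]
    exact mul_le_mul_of_nonneg_right (mul_le_mul_of_nonneg_left h2 (hαp i).le) (Real.exp_pos _).le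
  have hbp : ∀ i, 0 < b i := fun i => mul_pos (hαp i) (Real.exp_pos _)
  have hbd : ∀ i, i1 ≤ i → b i ≤ b i1 * Real.exp (-(2 * C * (ρ i - ρ i1))) := by
    intro i hi
    induction i, hi using Nat.le_induction with
    | base => simp
    | succ i hi ih =>
      have h1 := log_dec (C := C) (by linarith) (hρp i) (hmono (Nat.lt_succ_self i)).le le_rfl (hlate i hi)
      refine (hbs i).trans ?_
      have h2 : Real.exp (-(ν i * (Real.log (ρ (i + 1)) - Real.log (ρ i)))) ≤ Real.exp (-(2 * C * (ρ (i + 1) - ρ i))) :=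
        Real.exp_le_exp.2 (by linarith)
      refine (mul_le_mul ih h2 (Real.exp_pos _).le (mul_nonneg (hbp _).le (Real.exp_pos _).le)).trans (le_of_eq ?_)
      rw [mul_assoc, ← Real.exp_add]; congr 2; ring
  have hcont : Continuous u := continuous_iff_continuousAt.2 fun x => (hsm x).continuousAt
  obtain ⟨K1, hK1, hk1⟩ := bdd_ball hcont (ρ i1)
  set K2 := b i1 * Real.exp (2 * C * ρ i1) * (M * (3 * C)) with hK2
  have hK20 : 0 ≤ K2 := by have := hbp i1; positivity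
  refine ⟨u, K1 * Real.exp (C * ρ i1) + K2 + 1, by positivity, hsm, heq, fun x => ?_, h00⟩
  rcases le_or_gt ‖x‖ (ρ i1) with hx | hx
  · have h1 := hk1 x hx
    have h2 : 1 ≤ Real.exp (C * ρ i1) * Real.exp (-(C * ‖x‖)) := by
      rw [← Real.exp_add]; exact Real.one_le_exp (by nlinarith)
    have h3 := mul_le_mul_of_nonneg_left h2 hK1
    have h4 : 0 ≤ (K2 + 1) * Real.exp (-(C * ‖x‖)) := by positivity
    linarith
  · obtain ⟨i, h1, h2, h3⟩ := hu x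
    have hi : i1 < i := by
      by_contra hcon
      push Not at hcon
      have := hmono.monotone hcon
      linarith
    obtain ⟨j, rfl⟩ := Nat.exists_eq_succ_of_ne_zero (show i ≠ 0 by omega)
    have hj : i1 ≤ j := by omega
    have h4 := h3 j (Nat.lt_succ_self j)
    have hxp : 0 < ‖x‖ := lt_of_lt_of_le (hρp j) h4
    have hx0 : x ≠ 0 := norm_pos_iff.1 hxp
    rw [h1.eq_of_nhds]
    have h5 : |v (j + 1) x| ≤ α j * (M * Real.sqrt (ν j) * (‖x‖⁻¹ * Real.exp (-(ν j * Real.log ‖x‖)))) :=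
      shell_bd (hcyc j) (hsp j) (hαp j).le hx0
    have h6 := log_dec (C := C) (by linarith) (hρp j) h4 (show ‖x‖ ≤ ρ (j + 1) from h2.le) (hlate j hj)
    have e1 : α j * (M * Real.sqrt (ν j) * (‖x‖⁻¹ * Real.exp (-(ν j * Real.log ‖x‖)))) =
        (M * (Real.sqrt (ν j) * ‖x‖⁻¹)) * (b j * Real.exp (-(ν j * (Real.log ‖x‖ - Real.log (ρ j))))) := by
      simp only [hb]
      rw [mul_assoc (α j) (Real.exp _), ← Real.exp_add]
      have : -(ν j * Real.log (ρ j)) + -(ν j * (Real.log ‖x‖ - Real.log (ρ j))) = -(ν j * Real.log ‖x‖) := by ring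
      rw [this]; ring
    have h7 : Real.sqrt (ν j) * ‖x‖⁻¹ ≤ 3 * C := by
      have a1 : Real.sqrt (ν j) ≤ ν j := by
        rw [Real.sqrt_le_left (by linarith [hν1 j])]
        have := hν1 j; nlinarith
      have a2 : ν j ≤ 3 * C * ‖x‖ := (hνρ j).trans (mul_le_mul_of_nonneg_left h4 (by positivity))
      rw [← div_eq_mul_inv, div_le_iff₀ hxp]; linarith
    have h8 : b j * Real.exp (-(ν j * (Real.log ‖x‖ - Real.log (ρ j)))) ≤ b i1 * Real.exp (2 * C * ρ i1) * Real.exp (-(2 * C * ‖x‖)) := by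
      have c1 : Real.exp (-(ν j * (Real.log ‖x‖ - Real.log (ρ j)))) ≤ Real.exp (-(2 * C * (‖x‖ - ρ j))) := Real.exp_le_exp.2 (by linarith)
      refine (mul_le_mul (hbd j hj) c1 (Real.exp_pos _).le (mul_nonneg (hbp _).le (Real.exp_pos _).le)).trans (le_of_eq ?_)
      have c2 : Real.exp (-(2 * C * (ρ j - ρ i1))) * Real.exp (-(2 * C * (‖x‖ - ρ j))) = Real.exp (2 * C * ρ i1) * Real.exp (-(2 * C * ‖x‖)) := by
        rw [← Real.exp_add, ← Real.exp_add]; congr 1; ring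
      rw [mul_assoc (b i1), c2, ← mul_assoc (b i1)]
    have h9 : Real.exp (-(2 * C * ‖x‖)) ≤ Real.exp (-(C * ‖x‖)) := Real.exp_le_exp.2 (by nlinarith)
    rw [e1] at h5
    have h10 : (M * (Real.sqrt (ν j) * ‖x‖⁻¹)) * (b j * Real.exp (-(ν j * (Real.log ‖x‖ - Real.log (ρ j))))) ≤
        (M * (3 * C)) * (b i1 * Real.exp (2 * C * ρ i1) * Real.exp (-(2 * C * ‖x‖))) :=
      mul_le_mul (mul_le_mul_of_nonneg_left h7 hM) h8 (mul_nonneg (hbp _).le (Real.exp_pos _).le) (by positivity)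
    have h11 := mul_le_mul_of_nonneg_left h9 hK20
    have h12 : 0 ≤ (K1 * Real.exp (C * ρ i1) + 1) * Real.exp (-(C * ‖x‖)) := by positivity
    have e2 : (M * (3 * C)) * (b i1 * Real.exp (2 * C * ρ i1) * Real.exp (-(2 * C * ‖x‖))) = K2 * Real.exp (-(2 * C * ‖x‖)) := by rw [hK2]; ring
    rw [e2] at h10
    have e3 : (K1 * Real.exp (C * ρ i1) + K2 + 1) * Real.exp (-(C * ‖x‖)) =
        K2 * Real.exp (-(C * ‖x‖)) + (K1 * Real.exp (C * ρ i1) + 1) * Real.exp (-(C * ‖x‖)) := by ring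
    rw [e3]
    linarith

end Pool.Agent.J6H20.RL
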