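import Mathlib
import Pool.Agent.J6H20.RL.Geom

/-!
# Green identity
-/

set_option autoImplicit false

open Filter Topology MeasureTheory
open scoped ContDiff

namespace Pool.Agent.J6H20.RL

theorem dd2_eq {φ : E4 → ℝ} (hφ : ContDiff ℝ 2 φ) (x e : E4) : iteratedFDeriv ℝ 2 φ x (fun _ => e) = dd e (dd e φ) x := by
  rw [iteratedFDeriv_two_apply]
  have h1 : DifferentiableAt ℝ (fderiv ℝ φ) x := (hφ.fderiv_right (m := 1) (by norm_num)).differentiable (by norm_num) x
  have h2 : fderiv ℝ (fun y => fderiv ℝ φ y e) x e = fderiv ℝ (fderiv ℝ φ) x e e := by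
    rw [fderiv_clm_apply h1 (differentiableAt_const e)]
    simp
  exact h2.symm

theorem dd_cont1 {φ : E4 → ℝ} (hφ : ContDiff ℝ 2 φ) (e : E4) : ContDiff ℝ 1 (dd e φ) :=
  (hφ.fderiv_right (m := 1) (by norm_num)).clm_apply contDiff_const

theorem dd_comp_supp {φ : E4 → ℝ} (h : HasCompactSupport φ) (e : E4) : HasCompactSupport (dd e φ) :=
  (h.fderiv (𝕜 := ℝ)).comp_left (g := fun L : E4 →L[ℝ] ℝ => L e) rfl

theorem green1 {u φ : E4 → ℝ} (hu : ContDiff ℝ 1 u) (hφ : ContDiff ℝ 1 φ) (hc : HasCompactSupport φ) (e : E4) :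
    ∫ x, u x * dd e φ x = - ∫ x, dd e u x * φ x := by
  have c1 : Continuous u := hu.continuous
  have c2 : Continuous φ := hφ.continuous
  have c3 : Continuous (dd e u) := (hu.continuous_fderiv (by norm_num)).clm_apply continuous_const
  have c4 : Continuous (dd e φ) := (hφ.continuous_fderiv (by norm_num)).clm_apply continuous_const
  refine integral_mul_fderiv_eq_neg_fderiv_mul_of_integrable (f := u) (g := φ) (v := e) ?_ ?_ ?_
    (fun x _ => hu.differentiable (by norm_num) x) (fun x _ => hφ.differentiable (by norm_num) x)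
  · exact (c3.mul c2).integrable_of_hasCompactSupport hc.mul_left
  · exact (c1.mul c4).integrable_of_hasCompactSupport (dd_comp_supp hc e).mul_left
  · exact (c1.mul c2).integrable_of_hasCompactSupport hc.mul_left

theorem green2 {u φ : E4 → ℝ} (hu : ContDiff ℝ 2 u) (hφ : ContDiff ℝ 2 φ) (hc : HasCompactSupport φ) (e : E4) :
    ∫ x, u x * dd e (dd e φ) x = ∫ x, dd e (dd e u) x * φ x := by
  rw [green1 (hu.of_le (by norm_num)) (dd_cont1 hφ e) (dd_comp_supp hc e) e,
    green1 (dd_cont1 hu e) (hφ.of_le (by norm_num)) hc e, neg_neg]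

theorem dd2_cont {u : E4 → ℝ} (hu : ContDiff ℝ 2 u) (e : E4) : Continuous (dd e (dd e u)) :=
  ((dd_cont1 hu e).continuous_fderiv (by norm_num)).clm_apply continuous_const

theorem lap_cont {u : E4 → ℝ} (hu : ContDiff ℝ 2 u) : Continuous (lap u) := by
  have : lap u = fun x => ∑ k : Fin 4, dd (eb k) (dd (eb k) u) x := rfl
  rw [this]
  exact continuous_finsetSum _ fun k _ => dd2_cont hu (eb k)

/-- **Green identity** -/
theorem green {u φ : E4 → ℝ} (hu : ContDiff ℝ 2 u) (hφ : ContDiff ℝ 2 φ) (hc : HasCompactSupport φ) :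
    ∫ x, (-(u x * lap φ x) + lap u x * φ x) = 0 := by
  have i1 : Integrable (fun x => u x * lap φ x) := by
    refine (hu.continuous.mul (lap_cont hφ)).integrable_of_hasCompactSupport ?_
    have : HasCompactSupport (lap φ) := by
      have e : lap φ = fun x => ∑ k : Fin 4, dd (eb k) (dd (eb k) φ) x := rfl
      rw [e]
      have h := fun k : Fin 4 => dd_comp_supp (dd_comp_supp hc (eb k)) (eb k)
      simp only [Fin.sum_univ_four]
      exact (((h 0).add (h 1)).add (h 2)).add (h 3)
    exact this.mul_left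
  have i2 : Integrable (fun x => lap u x * φ x) :=
    ((lap_cont hu).mul hφ.continuous).integrable_of_hasCompactSupport hc.mul_left
  have e0 : ∫ x, (-(u x * lap φ x) + lap u x * φ x) = (∫ x, -(u x * lap φ x)) + ∫ x, lap u x * φ x := integral_add i1.neg i2
  rw [e0, integral_neg]
  have e1 : ∫ x, u x * lap φ x = ∑ k : Fin 4, ∫ x, u x * dd (eb k) (dd (eb k) φ) x := by
    rw [← integral_finset_sum]
    · refine integral_congr_ae (Eventually.of_forall fun x => ?_)
      simp only [lap, Finset.mul_sum]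
    · intro k _
      exact (hu.continuous.mul (dd2_cont hφ (eb k))).integrable_of_hasCompactSupport (dd_comp_supp (dd_comp_supp hc (eb k)) (eb k)).mul_left
  have e2 : ∫ x, lap u x * φ x = ∑ k : Fin 4, ∫ x, dd (eb k) (dd (eb k) u) x * φ x := by
    rw [← integral_finset_sum]
    · refine integral_congr_ae (Eventually.of_forall fun x => ?_)
      simp only [lap, Finset.sum_mul]
    · intro k _
      exact ((dd2_cont hu (eb k)).mul hφ.continuous).integrable_of_hasCompactSupport hc.mul_left
  rw [e1, e2, Finset.sum_congr rfl fun k _ => green2 hu hφ hc (eb k)]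
  ring

end Pool.Agent.J6H20.RL
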