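import Mathlib
import Pool.Agent.J6H20.RL.Global
import Pool.Agent.J6H20.RL.FlatD

/-!
# Existence for every rate
-/

set_option autoImplicit false

open Filter Topology
open scoped ContDiff

namespace Pool.Agent.J6H20.RL

/-- the state sequence -/
def st (p0 N : ℕ) : ℕ → ℕ × ℕ
  | 0 => (p0, N)
  | i + 1 => if (st p0 N i).1 + 1 = 2 * p0 then (p0, 2 * (st p0 N i).2) else ((st p0 N i).1 + 1, (st p0 N i).2)

theorem st_inv {p0 N : ℕ} (hp0 : 1 < p0) (i : ℕ) : p0 ≤ (st p0 N i).1 ∧ (st p0 N i).1 < 2 * p0 ∧ N ≤ (st p0 N i).2 := by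
  induction i with
  | zero => simp only [st]; omega
  | succ i ih =>
    rw [st]
    split_ifs with h
    · simp only; omega
    · simp only; omega

theorem st_step (p0 N : ℕ) (i : ℕ) : 8 * (((st p0 N (i + 1)).1 : ℕ) : ℝ) * ((st p0 N (i + 1)).2 : ℕ) = 8 * (((st p0 N i).1 : ℝ) + 1) * ((st p0 N i).2 : ℕ) := by
  rw [st]
  split_ifs with h
  · simp only
    have : (((st p0 N i).1 : ℝ) + 1) = 2 * p0 := by exact_mod_cast h
    rw [this]; push_cast; ring
  · simp only; push_cast; ring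

/-- late indices -/
theorem late {ν0 R δ c : ℝ} (hν0 : 0 < ν0) (hδ : 0 < δ) : ∃ i1 : ℕ, ∀ i, i1 ≤ i → c * (R * (1 + δ) ^ (i + 1)) ≤ ν0 * (1 + 2 * δ) ^ i := by
  have hr : 1 < (1 + 2 * δ) / (1 + δ) := by rw [lt_div_iff₀ (by linarith)]; linarith
  have h1 := (tendsto_pow_atTop_atTop_of_one_lt hr).eventually_ge_atTop (c * R * (1 + δ) / ν0)
  obtain ⟨i1, hi1⟩ := h1.exists_forall_of_atTop
  refine ⟨i1, fun i hi => ?_⟩
  have h2 := hi1 i hi
  rw [div_pow, div_le_div_iff₀ hν0 (by positivity)] at h2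
  calc _ = c * R * (1 + δ) * (1 + δ) ^ i := by rw [pow_succ]; ring
    _ ≤ _ := h2
    _ = _ := by ring

theorem exists_all {C : ℝ} (hC : 1 ≤ C) : ∃ (u : E4 → ℝ) (K : ℝ), 0 < K ∧ (∀ x, ContDiffAt ℝ ∞ u x) ∧ (∀ x, |lap u x| ≤ |u x|) ∧
    (∀ x, |u x| ≤ K * Real.exp (-(C * ‖x‖))) ∧ u 0 ≠ 0 := by
  set ε := 1 / (45 * C ^ 2) with hε
  have hC2 : 1 ≤ C ^ 2 := one_le_pow₀ hC
  have hε0 : 0 < ε := by positivity
  have hε1 : ε ≤ 1 := by rw [hε, div_le_one (by positivity)]; linarith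
  obtain ⟨ε₁, S, g, B, p0, hg, hB, hp0, hflat⟩ := flat_params hε0 hε1
  choose! lam th Tend lam0 hT N0 Fs hFs using hflat
  have hp0r : (10 : ℝ) ≤ p0 := by exact_mod_cast hp0
  set δ := 1 / (4 * (p0 : ℝ)) with hδ
  have hδ0 : 0 < δ := by positivity
  have hδ1 : δ ≤ 1 := by rw [hδ, div_le_one (by positivity)]; linarith
  set Λ := 1 + δ / 4 with hΛ
  have hΛ1 : 1 < Λ := by linarith
  have hlog : 0 < Real.log Λ := Real.log_pos hΛ1
  -- the base frequency
  set N1 : ℕ → ℕ := fun p => max (N0 p) (⌈Tend p / Real.log Λ⌉₊ + 1) with hN1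
  set N := max ((Finset.range (2 * p0 + 1)).sup N1) (⌈S.YK + 1⌉₊ + 1) with hN
  have hNp : ∀ p, p ≤ 2 * p0 → N1 p ≤ N := fun p hp =>
    (Finset.le_sup (f := N1) (Finset.mem_range.2 (by omega))).trans (le_max_left _ _)
  have hNK : S.YK + 1 ≤ N := by
    have h1 : ⌈S.YK + 1⌉₊ + 1 ≤ N := le_max_right _ _
    have h2 : (⌈S.YK + 1⌉₊ : ℝ) + 1 ≤ N := by exact_mod_cast h1
    have := Nat.le_ceil (S.YK + 1)
    linarith
  have hK := S.YK_ge
  -- the sequences
  set pp : ℕ → ℕ := fun i => (st p0 N i).1 with hpp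
  set nn : ℕ → ℕ := fun i => (st p0 N i).2 with hnn
  have hinv : ∀ i, p0 ≤ pp i ∧ pp i < 2 * p0 ∧ N ≤ nn i := fun i => st_inv (by omega) i
  set ν : ℕ → ℝ := fun i => 8 * (pp i : ℝ) * (nn i : ℝ) with hν
  have hppr : ∀ i, (p0 : ℝ) ≤ pp i := fun i => by exact_mod_cast (hinv i).1
  have hppr2 : ∀ i, (pp i : ℝ) ≤ 2 * p0 := fun i => by exact_mod_cast (hinv i).2.1.le
  have hnnr : ∀ i, (N : ℝ) ≤ nn i := fun i => by exact_mod_cast (hinv i).2.2
  have hstep : ∀ i, ν (i + 1) = (1 + 1 / (pp i : ℝ)) * ν i := by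
    intro i
    have h1 : ν (i + 1) = 8 * ((pp i : ℝ) + 1) * (nn i : ℝ) := st_step p0 N i
    have h2 : (0 : ℝ) < pp i := by linarith [hppr i]
    rw [h1, hν]
    simp only
    field_simp
  have hνK : ∀ i, 8 * (pp i : ℝ) * (S.YK + 1) ≤ ν i := by
    intro i
    have h2 : (0 : ℝ) < pp i := by linarith [hppr i]
    exact mul_le_mul_of_nonneg_left (hNK.trans (hnnr i)) (by positivity)
  have hν4 : ∀ i, 2 * (S.YK + 1) ≤ ν i := by
    intro i
    refine le_trans ?_ (hνK i)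
    have := hppr i
    nlinarith
  have hfreq : ∀ i, FreqOK (1 + 1 / (pp i : ℝ)) (ν i) := by
    intro i
    have h2 : (0 : ℝ) < pp i := by linarith [hppr i]
    have h3 : 1 / (pp i : ℝ) ≤ 1 := by rw [div_le_one h2]; linarith [hppr i]
    have h4 : 0 < 1 / (pp i : ℝ) := by positivity
    refine ⟨by linarith [hν4 i], by linarith, by linarith, ⟨2 * (pp i * nn i), ?_⟩, ⟨2 * ((pp i + 1) * nn i), ?_⟩⟩
    · simp only [hν]; push_cast; ring
    · rw [← hstep, hν]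
      have h1 : 8 * (pp (i + 1) : ℝ) * (nn (i + 1) : ℝ) = 8 * ((pp i : ℝ) + 1) * (nn i : ℝ) := st_step p0 N i
      simp only
      rw [h1]; push_cast; ring
  have hFi : ∀ i, FlatOK ε S B g (1 + 1 / (pp i : ℝ)) (ν i) (lam (pp i)) (th (pp i)) (Tend (pp i)) (lam0 (pp i)) (Fs (pp i) (nn i)) := by
    intro i
    refine hFs (pp i) (hinv i).1 (hinv i).2.1.le (nn i) ?_
    exact (le_max_left _ _).trans ((hNp (pp i) (hinv i).2.1.le).trans (hinv i).2.2)
  have hTi : ∀ i, Tend (pp i) < ν i * Real.log Λ := by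
    intro i
    have h1 : ⌈Tend (pp i) / Real.log Λ⌉₊ + 1 ≤ nn i := (le_max_right _ _).trans ((hNp (pp i) (hinv i).2.1.le).trans (hinv i).2.2)
    have h2 : (⌈Tend (pp i) / Real.log Λ⌉₊ : ℝ) + 1 ≤ nn i := by exact_mod_cast h1
    have h3 := Nat.le_ceil (Tend (pp i) / Real.log Λ)
    have h4 : Tend (pp i) / Real.log Λ < nn i := by linarith
    rw [div_lt_iff₀ hlog] at h4
    have h5 : (nn i : ℝ) ≤ ν i := by
      simp only [hν]
      refine le_mul_of_one_le_left (by positivity) ?_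
      linarith [hppr i]
    exact h4.trans_le (mul_le_mul_of_nonneg_right h5 hlog.le)
  set M := (4 * B + 4 * (S.A * Real.sqrt S.κ)) * Real.exp (1 / g) with hM
  have hM0 : 0 ≤ M := by have := (c_pos S).le; positivity
  set U : ℕ → E4 → ℝ := fun i => uf S (ν i) (1 + 1 / (pp i : ℝ)) (lam (pp i)) (th (pp i)) (Fs (pp i) (nn i)) with hU
  have hcyc : ∀ i, CycU S (5 * ε) M (ν i) (ν (i + 1)) Λ (U i) (lam0 (pp i)) := by
    intro i
    have := cycU_of (hFi i) (hfreq i) hB hg (by linarith : 0 < Λ) (hTi i)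
    rw [← hstep] at this
    exact this
  -- the start
  have hgood : ∀ x : E4, x ≠ 0 → ContDiffAt ℝ ∞ (pur S (ν 0)) x ∧ |lap (pur S (ν 0)) x| ≤ 5 * ε * ν 0 ^ 2 * (1 / ‖x‖ ^ 2) * |pur S (ν 0) x| :=
    fun x hx => pur_good (hFi 0) (hfreq 0) hB hx
  have h8 : ∃ m : ℕ, ν 0 = 8 * m := ⟨pp 0 * nn 0, by simp only [hν]; push_cast; ring⟩
  obtain ⟨w, hw1, ⟨C0, hC0, hw2⟩, hw3, hw4⟩ := start_lemma (U := pur S (ν 0)) (ν := ν 0) (C1 := 5 * ε * ν 0 ^ 2) (fun x hx => (hgood x hx).1) (by positivity)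
    (fun x hx => (hgood x hx).2) (fun c hc x hx => pur_hom S (ν 0) hc hx)
    (pur_nd S (hfreq 0).ν4 (hν4 0) h8 (fun x hx => (hgood x hx).1))
  -- the radii
  have hν0 : 0 < ν 0 := by linarith [hν4 0]
  set R := ν 0 + 4 * C0 + 1 with hR
  have hR0 : 1 ≤ R := by linarith
  set ρ : ℕ → ℝ := fun i => max (ν i / (3 * C)) (R * (1 + δ) ^ i) with hρ
  have hνpos : ∀ i, 0 < ν i := fun i => by linarith [hν4 i]
  have hgrow : ∀ i, (1 + 2 * δ) * ν i ≤ ν (i + 1) := by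
    intro i
    rw [hstep]
    refine mul_le_mul_of_nonneg_right ?_ (hνpos i).le
    have h2 : (0 : ℝ) < pp i := by linarith [hppr i]
    have : 2 * δ ≤ 1 / (pp i : ℝ) := by
      rw [le_div_iff₀ h2, hδ]
      have h3 := hppr2 i
      have : 2 * (1 / (4 * (p0 : ℝ))) * pp i = pp i / (2 * p0) := by field_simp; ring
      rw [this, div_le_one (by positivity)]; exact h3
    linarith
  have hgrow2 : ∀ i, ν (i + 1) ≤ 11 / 10 * ν i := by
    intro i
    rw [hstep]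
    refine mul_le_mul_of_nonneg_right ?_ (hνpos i).le
    have h2 : (0 : ℝ) < pp i := by linarith [hppr i]
    have : 1 / (pp i : ℝ) ≤ 1 / 10 := one_div_le_one_div_of_le (by norm_num) (by linarith [hppr i])
    linarith
  have hgrow3 : ∀ i, ν 0 * (1 + 2 * δ) ^ i ≤ ν i := by
    intro i
    induction i with
    | zero => simp
    | succ i ih =>
      have := mul_le_mul_of_nonneg_left ih (by positivity : 0 ≤ 1 + 2 * δ)
      rw [pow_succ]
      linarith [hgrow i]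
  have hC3 : 0 < 3 * C := by positivity
  have hρstep : ∀ i, (1 + δ) * ρ i ≤ ρ (i + 1) := by
    intro i
    simp only [hρ]
    rw [mul_max_of_nonneg _ _ (by positivity)]
    refine max_le_max ?_ ?_
    · rw [mul_div_assoc']
      refine div_le_div_of_nonneg_right ?_ hC3.le
      have := hgrow i
      have := mul_pos hδ0 (hνpos i)
      linarith
    · rw [pow_succ]; exact le_of_eq (by ring)
  have hρR : R ≤ ρ 0 := by simp only [hρ]; exact (le_of_eq (by ring)).trans (le_max_right _ _)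
  have hρpos : ∀ i, 0 < ρ i := fun i => lt_max_of_lt_left (by have := hνpos i; positivity)
  obtain ⟨i1, hi1⟩ := late (ν0 := ν 0) (R := R) (δ := δ) (c := 2 * C) hν0 hδ0
  refine global (S := S) (E := 5 * ε) (M := M) (Λ := Λ) (σ := Λ) (C := C) (C0 := C0) (ν := ν) (ρ := ρ) (l0 := fun i => lam0 (pp i)) (U := U) (w := w) (i1 := i1)
    hcyc hΛ1.le hΛ1 (hρpos 0) ?_ ?_ ?_ ?_ ?_ (by positivity) hC hM0 ?_ hw1 hw2 hw3 hw4 ?_
  · intro i
    refine lt_of_lt_of_le ?_ (hρstep i)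
    refine mul_lt_mul_of_pos_right ?_ (hρpos i)
    rw [hΛ]; nlinarith
  · intro i; linarith [hν4 i]
  · intro i
    have := hgrow i
    have := mul_pos hδ0 (hνpos i)
    linarith
  · intro i
    have : ν i / (3 * C) ≤ ρ i := le_max_left _ _
    rw [div_le_iff₀ hC3] at this
    linarith
  · rw [hε]; field_simp; norm_num
  · intro i hi
    simp only [hρ]
    rw [mul_max_of_nonneg _ _ (by positivity)]
    refine max_le ?_ ((hi1 i hi).trans (hgrow3 i))
    have e : 2 * C * (ν (i + 1) / (3 * C)) = 2 / 3 * ν (i + 1) := by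
      have : C ≠ 0 := by linarith
      field_simp
    rw [e]; linarith [hgrow2 i, hνpos i]
  · have h1 : R ≤ ρ 0 ^ 2 := by nlinarith
    linarith

end Pool.Agent.J6H20.RL
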